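import Mathlib
import Pool.Agent.R528.RM.Tails

/-!
# Patterns in blocks: they occur at every large scale
-/

set_option autoImplicit false
set_option linter.unusedSectionVars false

open MeasureTheory Filter Set
open scoped ENNReal Topology NNReal

namespace Pool.Agent.N740.HK

open Pool.Agent.R528.RM

variable {Ω : Type} {m0 : MeasurableSpace Ω} {μ : Measure Ω} [IsProbabilityMeasure μ]
  {ℱ : Filtration ℕ m0} {A : ℕ → Set Ω}

/-- the pattern `bs` starts at `t + 1` -/
def pat (A : ℕ → Set Ω) : ℕ → List Bool → Set Ω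
  | _, [] => univ
  | t, b :: bs => (if b then A (t + 1) else (A (t + 1))ᶜ) ∩ pat A (t + 1) bs

/-- the lower bound for the probability of a pattern -/
def wt (l u : ℝ) : List Bool → ℝ
  | [] => 1
  | b :: bs => (if b then l else 1 - u) * wt l u bs

lemma wt_bd {l u : ℝ} (hl0 : 0 ≤ l) (hl1 : l ≤ 1) (hu0 : 0 ≤ u) (hu1 : u ≤ 1) (bs : List Bool) :
    0 ≤ wt l u bs ∧ wt l u bs ≤ 1 := by
  induction bs with
  | nil => simp [wt]
  | cons b bs ih =>
    obtain ⟨h1, h2⟩ := ih
    unfold wt
    cases b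
    · simp only [Bool.false_eq_true, if_false]
      exact ⟨mul_nonneg (by linarith) h1, mul_le_one₀ (by linarith) h1 h2⟩
    · simp only [if_true]
      exact ⟨mul_nonneg hl0 h1, mul_le_one₀ hl1 h1 h2⟩

lemma pat_meas (hA : ∀ n, MeasurableSet[ℱ n] (A n)) (bs : List Bool) : ∀ t, MeasurableSet[ℱ (t + bs.length)] (pat A t bs) := by
  induction bs with
  | nil => intro t; exact @MeasurableSet.univ _ (ℱ (t + 0))
  | cons b bs ih =>
    intro t
    have h1 := ih (t + 1)
    have e : t + 1 + bs.length = t + (b :: bs).length := by simp; ring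
    rw [e] at h1
    have h2 : MeasurableSet[ℱ (t + (b :: bs).length)] (A (t + 1)) := ℱ.mono (by simp) _ (hA (t + 1))
    unfold pat
    cases b
    · simp only [Bool.false_eq_true, if_false]
      exact @MeasurableSet.inter _ (ℱ _) _ _ (@MeasurableSet.compl _ _ (ℱ _) h2) h1
    · simp only [if_true]
      exact @MeasurableSet.inter _ (ℱ _) _ _ h2 h1

/-- lower bound for the probability of a pattern or a violation -/
theorem pat_ge (hA : ∀ n, MeasurableSet[ℱ n] (A n)) {V : ℕ → Set Ω}
    (hV : ∀ n, MeasurableSet[ℱ n] (V n)) {l u : ℝ} (hl0 : 0 ≤ l) (hl1 : l ≤ 1) (hu0 : 0 ≤ u) (hu1 : u ≤ 1)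
    (bs : List Bool) :
    ∀ t, (∀ n, t ≤ n → n < t + bs.length → ∀ ω, ω ∉ V n → l ≤ dens μ ℱ A n ω ∧ dens μ ℱ A n ω ≤ u) →
      ∀ B, MeasurableSet[ℱ t] B → wt l u bs * μ.real B ≤ μ.real (B ∩ (pat A t bs ∪ WV V t bs.length)) := by
  induction bs with
  | nil =>
    intro t _ B hB
    have e : B ∩ (pat A t [] ∪ WV V t 0) = B := by
      have : pat A t [] = univ := rfl
      rw [this, univ_union, inter_univ]
    simp only [List.length_nil, e, wt, one_mul, le_refl]
  | cons b bs ih =>
    intro t hbd B hB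
    have hV0 : MeasurableSet (V t) := ℱ.le _ _ (hV t)
    have hA0 : MeasurableSet (A (t + 1)) := ℱ.le _ _ (hA _)
    have hBV : MeasurableSet[ℱ t] (B \ V t) := @MeasurableSet.diff _ (ℱ t) _ _ hB (hV t)
    have hbd' : ∀ n, t + 1 ≤ n → n < t + 1 + bs.length → ∀ ω, ω ∉ V n → l ≤ dens μ ℱ A n ω ∧ dens μ ℱ A n ω ≤ u :=
      fun n h1 h2 => hbd n (by omega) (by simp; omega)
    have hlow := lower_meas (μ := μ) hA t hBV (l := l) (fun ω hω => (hbd t le_rfl (by simp) ω hω.2).1)
    have hupp := upper_meas (μ := μ) hA t hBV (u := u) (fun ω hω => (hbd t le_rfl (by simp) ω hω.2).2)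
    have hsplit := measureReal_inter_add_sdiff (μ := μ) (s := B \ V t) hA0
    set X : Set Ω := B ∩ (pat A t (b :: bs) ∪ WV V t (bs.length + 1)) with hX
    have hXV : μ.real X = μ.real (X ∩ V t) + μ.real (X \ V t) :=
      (measureReal_inter_add_sdiff (μ := μ) (s := X) hV0).symm
    have e1 : X ∩ V t = B ∩ V t := by
      ext ω
      simp only [hX, WV_succ, mem_inter_iff, mem_union]
      tauto
    have hBVs : μ.real B = μ.real (B ∩ V t) + μ.real (B \ V t) :=
      (measureReal_inter_add_sdiff (μ := μ) (s := B) hV0).symm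
    obtain ⟨w0, w1⟩ := wt_bd hl0 hl1 hu0 hu1 bs
    obtain ⟨w0', w1'⟩ := wt_bd hl0 hl1 hu0 hu1 (b :: bs)
    have hBn : 0 ≤ μ.real (B ∩ V t) := measureReal_nonneg
    have hfirst : wt l u (b :: bs) * μ.real (B ∩ V t) ≤ μ.real (B ∩ V t) := by nlinarith
    have hsecond : wt l u (b :: bs) * μ.real (B \ V t) ≤ μ.real (X \ V t) := by
      cases b
      · have hC : MeasurableSet[ℱ (t + 1)] ((B \ V t) \ A (t + 1)) :=
          @MeasurableSet.diff _ (ℱ (t + 1)) _ _ (ℱ.mono (Nat.le_succ t) _ hBV) (hA (t + 1))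
        have h1 := ih (t + 1) hbd' _ hC
        have h2 : (1 - u) * μ.real (B \ V t) ≤ μ.real ((B \ V t) \ A (t + 1)) := by linarith
        have h3 : ((B \ V t) \ A (t + 1)) ∩ (pat A (t + 1) bs ∪ WV V (t + 1) bs.length) ⊆ X \ V t := by
          rintro ω ⟨⟨⟨g1, g2⟩, g3⟩, g4⟩
          refine ⟨⟨g1, ?_⟩, g2⟩
          rcases g4 with g4 | g4
          · left
            unfold pat
            simp only [Bool.false_eq_true, if_false]
            exact ⟨g3, g4⟩
          · right
            rw [WV_succ]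
            exact Or.inr g4
        calc wt l u (false :: bs) * μ.real (B \ V t) = wt l u bs * ((1 - u) * μ.real (B \ V t)) := by
              simp only [wt, Bool.false_eq_true, if_false]; ring
          _ ≤ wt l u bs * μ.real ((B \ V t) \ A (t + 1)) := mul_le_mul_of_nonneg_left h2 w0
          _ ≤ _ := h1
          _ ≤ _ := measureReal_mono h3
      · have hC : MeasurableSet[ℱ (t + 1)] ((B \ V t) ∩ A (t + 1)) :=
          @MeasurableSet.inter _ (ℱ (t + 1)) _ _ (ℱ.mono (Nat.le_succ t) _ hBV) (hA (t + 1))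
        have h1 := ih (t + 1) hbd' _ hC
        have h3 : ((B \ V t) ∩ A (t + 1)) ∩ (pat A (t + 1) bs ∪ WV V (t + 1) bs.length) ⊆ X \ V t := by
          rintro ω ⟨⟨⟨g1, g2⟩, g3⟩, g4⟩
          refine ⟨⟨g1, ?_⟩, g2⟩
          rcases g4 with g4 | g4
          · left
            unfold pat
            simp only [if_true]
            exact ⟨g3, g4⟩
          · right
            rw [WV_succ]
            exact Or.inr g4
        calc wt l u (true :: bs) * μ.real (B \ V t) = wt l u bs * (l * μ.real (B \ V t)) := by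
              simp only [wt, if_true]; ring
          _ ≤ wt l u bs * μ.real ((B \ V t) ∩ A (t + 1)) := mul_le_mul_of_nonneg_left hlow w0
          _ ≤ _ := h1
          _ ≤ _ := measureReal_mono h3
    have hlen : (b :: bs).length = bs.length + 1 := rfl
    rw [hlen, ← hX, hXV, e1, hBVs, mul_add]
    exact add_le_add hfirst hsecond

/-- **successes at every large scale**, for many families of events -/
theorem ev_blocks {D : ℕ → ℕ → ℕ → Set Ω} {H M N : ℕ → ℕ} {i₀ : ℕ}
    (hD : ∀ i, i₀ ≤ i → ∀ g < N i, ∀ m < M i, MeasurableSet[ℱ (2 ^ i + H i * (m + 1))] (D i g m))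
    (p : ℕ → ℝ)
    (hp : ∀ i, i₀ ≤ i → ∀ g < N i, ∀ m < M i, ∀ C, MeasurableSet[ℱ (2 ^ i + H i * m)] C →
      p i * μ.real C ≤ μ.real (C ∩ D i g m))
    (hsum : Summable fun i : ℕ => (N i : ℝ) * Real.exp (-(M i * p i))) :
    ∀ᵐ ω ∂μ, ∀ᶠ i : ℕ in atTop, ∀ g < N i, ∃ m < M i, ω ∈ D i g m := by
  set E : ℕ → Set Ω := fun i => if i₀ ≤ i then ⋃ g ∈ Finset.range (N i), RB (D i g) univ (M i) else ∅ with hE
  have hEb : ∀ i, μ.real (E i) ≤ (N i : ℝ) * Real.exp (-(M i * p i)) := by
    intro i
    by_cases hi : i₀ ≤ i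
    · simp only [hE, if_pos hi]
      refine (measureReal_biUnion_finset_le _ _).trans ?_
      calc ∑ g ∈ Finset.range (N i), μ.real (RB (D i g) univ (M i))
          ≤ ∑ g ∈ Finset.range (N i), Real.exp (-(M i * p i)) := by
            refine Finset.sum_le_sum fun g hg => ?_
            have h1 := RB_le (μ := μ) (D := D i g) (B := univ) (s := 2 ^ i) (H := H i) (M := M i)
              (@MeasurableSet.univ _ (ℱ (2 ^ i))) (hD i hi g (Finset.mem_range.1 hg)) (hp i hi g (Finset.mem_range.1 hg)) (M i) le_rfl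
            rw [probReal_univ, mul_one] at h1
            exact h1
        _ = _ := by rw [Finset.sum_const, Finset.card_range, nsmul_eq_mul]
    · simp only [hE, if_neg hi, measureReal_empty]
      positivity
  have hEs : ∑' i, μ (E i) ≠ ⊤ := by
    have h1 : ∀ i, μ (E i) = ENNReal.ofReal (μ.real (E i)) := fun i => (ofReal_measureReal (measure_ne_top _ _)).symm
    have h2 : Summable fun i => μ.real (E i) := Summable.of_nonneg_of_le (fun i => measureReal_nonneg) hEb hsum
    simp_rw [h1]
    rw [← ENNReal.ofReal_tsum_of_nonneg (fun i => measureReal_nonneg) h2]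
    exact ENNReal.ofReal_ne_top
  filter_upwards [ae_eventually_notMem hEs] with ω hω
  filter_upwards [hω, eventually_ge_atTop i₀] with i h1 hi g hg
  simp only [hE, if_pos hi, mem_iUnion, Finset.mem_range, not_exists] at h1
  exact not_mem_RB (mem_univ ω) (h1 g hg)

end Pool.Agent.N740.HK
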