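import Mathlib
import Pool.Agent.N740.HK.Pat

/-!
# Every gap up to `(1 - ε) log² x` occurs at every large scale
-/

set_option autoImplicit false
set_option linter.unusedSectionVars false

open MeasureTheory Filter Set
open scoped ENNReal Topology NNReal

namespace Pool.Agent.N740.HK

open Pool.Agent.R528.RM

variable {Ω : Type} {m0 : MeasurableSpace Ω} {μ : Measure Ω} [IsProbabilityMeasure μ]
  {ℱ : Filtration ℕ m0} {A : ℕ → Set Ω}

/-- a member, `g - 1` absent integers, a member (for `g = k + 1`) -/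
def gp (k : ℕ) : List Bool := true :: (List.replicate k false ++ [true])

lemma gp_length (k : ℕ) : (gp k).length = k + 2 := by simp [gp]

lemma mem_pat_tail (A : ℕ → Set Ω) (k : ℕ) : ∀ (t : ℕ) (ω : Ω), ω ∈ pat A t (List.replicate k false ++ [true]) →
    (∀ r, r < k → ω ∉ A (t + 1 + r)) ∧ ω ∈ A (t + 1 + k) := by
  induction k with
  | zero =>
    intro t ω h
    simp only [List.replicate_zero, List.nil_append, pat, if_true] at h
    exact ⟨fun r hr => absurd hr (Nat.not_lt_zero r), h.1⟩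
  | succ k ih =>
    intro t ω h
    rw [List.replicate_succ, List.cons_append] at h
    unfold pat at h
    simp only [Bool.false_eq_true, if_false] at h
    obtain ⟨h1, h2⟩ := h
    obtain ⟨h3, h4⟩ := ih (t + 1) ω h2
    refine ⟨fun r hr => ?_, ?_⟩
    · rcases Nat.eq_zero_or_pos r with rfl | hr0
      · exact h1
      · have := h3 (r - 1) (by omega)
        rwa [show t + 1 + 1 + (r - 1) = t + 1 + r by omega] at this
    · rwa [show t + 1 + 1 + k = t + 1 + (k + 1) by ring] at h4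

lemma mem_pat_gp (A : ℕ → Set Ω) (k t : ℕ) (ω : Ω) (h : ω ∈ pat A t (gp k)) :
    ω ∈ A (t + 1) ∧ (∀ r, 1 ≤ r → r ≤ k → ω ∉ A (t + 1 + r)) ∧ ω ∈ A (t + 1 + (k + 1)) := by
  unfold gp pat at h
  simp only [if_true] at h
  obtain ⟨h1, h2⟩ := h
  obtain ⟨h3, h4⟩ := mem_pat_tail A k (t + 1) ω h2
  refine ⟨h1, fun r hr1 hr2 => ?_, ?_⟩
  · have := h3 (r - 1) (by omega)
    rwa [show t + 1 + 1 + (r - 1) = t + 1 + r by omega] at this
  · rwa [show t + 1 + 1 + k = t + 1 + (k + 1) by ring] at h4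

lemma wt_gp (l u : ℝ) (k : ℕ) : wt l u (gp k) = l * ((1 - u) ^ k * l) := by
  have h : ∀ k, wt l u (List.replicate k false ++ [true]) = (1 - u) ^ k * l := by
    intro k
    induction k with
    | zero => simp [wt]
    | succ k ih =>
      rw [List.replicate_succ, List.cons_append]
      unfold wt
      rw [ih]
      simp only [Bool.false_eq_true, if_false]
      rw [pow_succ]
      ring
  unfold gp wt
  rw [h]
  simp

lemma ana {ε : ℝ} (hε : 0 < ε) (hε1 : ε < 1) : ∀ᶠ L : ℝ in atTop, 4 ≤ L ∧ ∀ G H M : ℕ, (G : ℝ) ≤ (1 - ε) * L ^ 2 →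
    0 < H → (H : ℝ) ≤ L ^ 2 + 1 → Real.exp L ≤ H * (M + 1) →
    3 * L ≤ M * ((1 - ε / 2) / (L + 1) * ((1 - (1 + ε / 2) / L) ^ G * ((1 - ε / 2) / (L + 1)))) := by
  have h1 := Real.tendsto_pow_mul_exp_neg_atTop_nhds_zero 5
  have h2 : Tendsto (fun L : ℝ => (ε / 2) * L) atTop atTop := tendsto_id.const_mul_atTop (by linarith)
  have h3 := h1.comp h2
  have hc : 0 < (ε / 2) ^ 5 / (192 * Real.exp 3) := by positivity
  have h4 := Real.tendsto_pow_mul_exp_neg_atTop_nhds_zero 2
  filter_upwards [h3.eventually_lt_const hc, h4.eventually_lt_const (show (0 : ℝ) < 1 / 4 by norm_num),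
    eventually_ge_atTop 4] with L k1 k2 hL
  refine ⟨hL, fun G H M hG hH0 hH hM => ?_⟩
  simp only [Function.comp_def] at k1
  have hE : 0 < Real.exp (ε / 2 * L) := Real.exp_pos _
  have hc1 : 192 * Real.exp 3 * L ^ 5 ≤ Real.exp (ε / 2 * L) := by
    rw [lt_div_iff₀ (by positivity)] at k1
    have k3 : (ε / 2) ^ 5 * (192 * Real.exp 3 * L ^ 5 * Real.exp (-(ε / 2 * L))) ≤ (ε / 2) ^ 5 * 1 := by
      have e : (ε / 2) ^ 5 * (192 * Real.exp 3 * L ^ 5 * Real.exp (-(ε / 2 * L))) =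
        (ε / 2 * L) ^ 5 * Real.exp (-(ε / 2 * L)) * (192 * Real.exp 3) := by ring
      rw [e, mul_one]
      exact k1.le
    have k4 := le_of_mul_le_mul_left k3 (by positivity)
    have k5 : 192 * Real.exp 3 * L ^ 5 = (192 * Real.exp 3 * L ^ 5 * Real.exp (-(ε / 2 * L))) * Real.exp (ε / 2 * L) := by
      rw [mul_assoc _ (Real.exp (-(ε / 2 * L))), ← Real.exp_add, neg_add_cancel, Real.exp_zero, mul_one]
    rw [k5]
    calc _ ≤ 1 * Real.exp (ε / 2 * L) := mul_le_mul_of_nonneg_right k4 hE.le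
      _ = _ := one_mul _
  have hc2 : 4 * L ^ 2 ≤ Real.exp L := by
    have k5 : L ^ 2 = (L ^ 2 * Real.exp (-L)) * Real.exp L := by
      rw [mul_assoc, ← Real.exp_add, neg_add_cancel, Real.exp_zero, mul_one]
    have := mul_le_mul_of_nonneg_right k2.le (Real.exp_pos L).le
    rw [← k5] at this
    linarith
  have hL0 : 0 < L := by linarith
  -- the lower bound of the power
  have hu : (1 + ε / 2) / L < 1 := by rw [div_lt_one hL0]; linarith
  have hpow : Real.exp (-((1 - ε / 2) * (L + 3))) ≤ (1 - (1 + ε / 2) / L) ^ G := by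
    have p0 : 0 < 1 - (1 + ε / 2) / L := by linarith
    have p1 : 1 - (1 - (1 + ε / 2) / L)⁻¹ ≤ Real.log (1 - (1 + ε / 2) / L) := Real.one_sub_inv_le_log_of_pos p0
    have p2 : 1 - (1 - (1 + ε / 2) / L)⁻¹ = -((1 + ε / 2) / (L - (1 + ε / 2))) := by
      have q1 : L - (1 + ε / 2) ≠ 0 := by
        have : 0 < L - (1 + ε / 2) := by linarith
        exact this.ne'
      obtain ⟨c, hcc⟩ : ∃ c, c = 1 + ε / 2 := ⟨_, rfl⟩
      rw [← hcc] at q1 ⊢
      have q2 : (1 - c / L)⁻¹ = L / (L - c) := by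
        rw [one_sub_div hL0.ne', inv_div]
      have q3 : L / (L - c) = 1 + c / (L - c) := by
        rw [← div_self q1, ← add_div]
        congr 1
        ring
      rw [q2, q3]
      ring
    rw [p2] at p1
    have p3 : (1 + ε / 2) / (L - (1 + ε / 2)) * ((1 - ε) * L ^ 2) ≤ (1 - ε / 2) * (L + 3) := by
      have q1 : 0 < L - (1 + ε / 2) := by linarith
      have q2 : L ^ 2 ≤ (L + 3) * (L - (1 + ε / 2)) := by nlinarith
      have q3 : (1 + ε / 2) * (1 - ε) ≤ 1 - ε / 2 := by nlinarith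
      rw [div_mul_eq_mul_div, div_le_iff₀ q1]
      calc (1 + ε / 2) * ((1 - ε) * L ^ 2) = ((1 + ε / 2) * (1 - ε)) * L ^ 2 := by ring
        _ ≤ (1 - ε / 2) * L ^ 2 := mul_le_mul_of_nonneg_right q3 (by positivity)
        _ ≤ (1 - ε / 2) * ((L + 3) * (L - (1 + ε / 2))) := mul_le_mul_of_nonneg_left q2 (by linarith)
        _ = _ := by ring
    have p4 : 0 ≤ (1 + ε / 2) / (L - (1 + ε / 2)) := div_nonneg (by linarith) (by linarith)
    have p5 : (1 - (1 + ε / 2) / L) ^ G = Real.exp (G * Real.log (1 - (1 + ε / 2) / L)) := by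
      rw [← Real.log_pow, Real.exp_log (pow_pos p0 _)]
    rw [p5]
    apply Real.exp_le_exp.2
    have p6 : (G : ℝ) * ((1 + ε / 2) / (L - (1 + ε / 2))) ≤ (1 - ε / 2) * (L + 3) :=
      (mul_le_mul_of_nonneg_right hG p4).trans (by rw [mul_comm]; exact p3)
    have p7 : (G : ℝ) * (-((1 + ε / 2) / (L - (1 + ε / 2)))) ≤ G * Real.log (1 - (1 + ε / 2) / L) :=
      mul_le_mul_of_nonneg_left p1 (Nat.cast_nonneg G)
    linarith
  have hl : 1 / (2 * (L + 1)) ≤ (1 - ε / 2) / (L + 1) := by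
    rw [div_le_div_iff₀ (by positivity) (by linarith)]
    nlinarith
  have hl0 : 0 < 1 / (2 * (L + 1)) := by positivity
  have hH' : (0 : ℝ) < H := by exact_mod_cast hH0
  -- the number of blocks
  have hMl : Real.exp L / (4 * L ^ 2) ≤ M := by
    have m1 : Real.exp L ≤ (2 * L ^ 2) * (M + 1) := hM.trans (mul_le_mul_of_nonneg_right (by nlinarith) (by positivity))
    rw [div_le_iff₀ (by positivity)]
    have m2 : 1 ≤ (M : ℝ) := by
      by_contra hcon
      push Not at hcon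
      have : (M : ℝ) + 1 < 2 := by linarith
      nlinarith
    nlinarith
  have hq0 : 0 ≤ Real.exp L / (4 * L ^ 2) := by positivity
  have hfin : 3 * L ≤ (Real.exp L / (4 * L ^ 2)) * (1 / (2 * (L + 1)) * (Real.exp (-((1 - ε / 2) * (L + 3))) * (1 / (2 * (L + 1))))) := by
    have f1 : (Real.exp L / (4 * L ^ 2)) * (1 / (2 * (L + 1)) * (Real.exp (-((1 - ε / 2) * (L + 3))) * (1 / (2 * (L + 1))))) =
      (Real.exp L * Real.exp (-((1 - ε / 2) * (L + 3)))) / (16 * L ^ 2 * (L + 1) ^ 2) := by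
      field_simp
      ring
    rw [f1, ← Real.exp_add, le_div_iff₀ (by positivity)]
    have f2 : Real.exp (ε / 2 * L) * Real.exp (-3) ≤ Real.exp (L + -((1 - ε / 2) * (L + 3))) := by
      rw [← Real.exp_add]
      apply Real.exp_le_exp.2
      nlinarith
    refine le_trans ?_ f2
    have f3 : 3 * L * (16 * L ^ 2 * (L + 1) ^ 2) ≤ 192 * L ^ 5 := by
      have : (L + 1) ^ 2 ≤ 4 * L ^ 2 := by nlinarith
      calc 3 * L * (16 * L ^ 2 * (L + 1) ^ 2) ≤ 3 * L * (16 * L ^ 2 * (4 * L ^ 2)) := by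
            apply mul_le_mul_of_nonneg_left _ (by positivity)
            apply mul_le_mul_of_nonneg_left this (by positivity)
        _ = 192 * L ^ 5 := by ring
    refine f3.trans ?_
    have f4 : 192 * L ^ 5 = (192 * Real.exp 3 * L ^ 5) * Real.exp (-3) := by
      have : Real.exp 3 * Real.exp (-3) = 1 := by rw [← Real.exp_add]; norm_num
      calc 192 * L ^ 5 = 192 * L ^ 5 * (Real.exp 3 * Real.exp (-3)) := by rw [this, mul_one]
        _ = _ := by ring
    rw [f4]
    exact mul_le_mul_of_nonneg_right hc1 (Real.exp_pos _).le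
  refine hfin.trans ?_
  have g1 : (0:ℝ) ≤ Real.exp (-((1 - ε / 2) * (L + 3))) := (Real.exp_pos _).le
  apply mul_le_mul hMl _ (by positivity) (Nat.cast_nonneg M)
  apply mul_le_mul hl _ (by positivity) (hl0.le.trans hl)
  exact mul_le_mul hpow hl hl0.le (g1.trans hpow)

end Pool.Agent.N740.HK
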