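import Mathlib
import Pool.Agent.N740.HK.Gap

/-!
# Every gap up to `(1 - ε) log² x` occurs at every large scale: the theorem
-/

set_option autoImplicit false
set_option linter.unusedSectionVars false

open MeasureTheory Filter Set
open scoped ENNReal Topology NNReal

namespace Pool.Agent.N740.HK

open Pool.Agent.R528.RM

variable {Ω : Type} {m0 : MeasurableSpace Ω} {μ : Measure Ω} [IsProbabilityMeasure μ]
  {ℱ : Filtration ℕ m0} {A : ℕ → Set Ω}

theorem all_gaps (hA : ∀ n, MeasurableSet[ℱ n] (A n))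
    (hd : ∀ᵐ ω ∂μ, Tendsto (fun n : ℕ => dens μ ℱ A n ω * Real.log n) atTop (𝓝 1))
    {ε : ℝ} (hε : 0 < ε) (hε1 : ε < 1) :
    ∀ᵐ ω ∂μ, ∀ᶠ i : ℕ in atTop, ∀ g : ℕ, 1 ≤ g → (g : ℝ) ≤ (1 - ε) * Real.log ((2 : ℝ) ^ i) ^ 2 →
      ∃ P : ℕ, 2 ^ i < P ∧ P + g ≤ 2 ^ (i + 1) ∧ ω ∈ A P ∧ (∀ r, 1 ≤ r → r < g → ω ∉ A (P + r)) ∧ ω ∈ A (P + g) := by
  have hlog : Tendsto (fun i : ℕ => Real.log ((2 : ℝ) ^ i)) atTop atTop := by
    have : (fun i : ℕ => Real.log ((2 : ℝ) ^ i)) = fun i : ℕ => (i : ℝ) * Real.log 2 := by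
      funext i; rw [Real.log_pow]
    rw [this]
    exact tendsto_natCast_atTop_atTop.atTop_mul_const (Real.log_pos (by norm_num))
  obtain ⟨i₀, hi₀⟩ := eventually_atTop.1 (hlog.eventually (ana hε hε1))
  set Li : ℕ → ℝ := fun i => Real.log ((2 : ℝ) ^ i) with hLi
  set G : ℕ → ℕ := fun i => ⌊(1 - ε) * Li i ^ 2⌋₊ with hG
  set H : ℕ → ℕ := fun i => G i + 1 with hH
  set M : ℕ → ℕ := fun i => 2 ^ i / H i with hM
  set T : ℕ → ℕ → ℕ := fun i m => 2 ^ i + H i * m with hT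
  set δ : ℝ := ε / 2 with hδ
  have hδ0 : 0 < δ := by positivity
  have hδ1 : δ ≤ 1 := by linarith
  set D : ℕ → ℕ → ℕ → Set Ω := fun i k m => pat A (T i m) (gp k) ∪ WV (VF μ ℱ A δ) (T i m) (k + 2) with hD
  set p : ℕ → ℝ := fun i => (1 - δ) / (Li i + 1) * ((1 - (1 + δ) / Li i) ^ G i * ((1 - δ) / (Li i + 1))) with hp
  have hHM : ∀ i, H i * M i ≤ 2 ^ i := fun i => Nat.mul_div_le _ _
  have hHpos : ∀ i, 0 < H i := fun i => Nat.succ_pos _
  have hTM : ∀ i m, m < M i → T i m + H i ≤ 2 ^ (i + 1) := by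
    intro i m hm
    have h3 : H i * (m + 1) ≤ 2 ^ i := le_trans (Nat.mul_le_mul_left _ hm) (hHM i)
    have e : T i m + H i = 2 ^ i + H i * (m + 1) := by simp only [hT]; ring
    rw [e, pow_succ]
    omega
  have hlogT : ∀ i m, m < M i → ∀ n, T i m ≤ n → n < T i m + H i → Li i ≤ Real.log n ∧ Real.log n ≤ Li i + 1 := by
    intro i m hm n hn1 hn2
    have h1 : (2 : ℝ) ^ i ≤ n := by
      have : 2 ^ i ≤ n := le_trans (Nat.le_add_right _ _) hn1
      exact_mod_cast this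
    have h2 : (n : ℝ) ≤ 2 * 2 ^ i := by
      have : n ≤ 2 * 2 ^ i := by
        have h3 := hTM i m hm
        rw [pow_succ] at h3
        omega
      exact_mod_cast this
    have h0 : (0 : ℝ) < 2 ^ i := by positivity
    refine ⟨Real.log_le_log h0 h1, ?_⟩
    have h3 : Real.log n ≤ Real.log (2 * 2 ^ i) := Real.log_le_log (by linarith) h2
    rw [Real.log_mul (by norm_num) h0.ne'] at h3
    have h4 := Real.log_two_lt_d9
    have h5 : Li i = Real.log ((2 : ℝ) ^ i) := rfl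
    linarith
  have hDm : ∀ i, i₀ ≤ i → ∀ k < G i, ∀ m < M i, MeasurableSet[ℱ (2 ^ i + H i * (m + 1))] (D i k m) := by
    intro i _ k hk m _
    have h2 : T i m + (k + 2) ≤ 2 ^ i + H i * (m + 1) := by
      have e : 2 ^ i + H i * (m + 1) = T i m + H i := by simp only [hT]; ring
      have : H i = G i + 1 := rfl
      omega
    have h3 := pat_meas hA (gp k) (T i m)
    rw [gp_length] at h3
    exact @MeasurableSet.union _ (ℱ (2 ^ i + H i * (m + 1))) _ _ (ℱ.mono h2 _ h3)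
      (ℱ.mono h2 _ (WV_meas (fun n => VF_meas δ n) _ _))
  have hpr : ∀ i, i₀ ≤ i → ∀ k < G i, ∀ m < M i, ∀ C, MeasurableSet[ℱ (2 ^ i + H i * m)] C →
      p i * μ.real C ≤ μ.real (C ∩ D i k m) := by
    intro i hi k hk m hm C hC
    obtain ⟨hL4, _⟩ := hi₀ i hi
    have hL4' : 4 ≤ Li i := hL4
    have hbd : ∀ n, T i m ≤ n → n < T i m + (gp k).length → ∀ ω, ω ∉ VF μ ℱ A δ n →
        (1 - δ) / (Li i + 1) ≤ dens μ ℱ A n ω ∧ dens μ ℱ A n ω ≤ (1 + δ) / Li i := by
      intro n hn1 hn2 ω hω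
      rw [gp_length] at hn2
      obtain ⟨n1, n2⟩ := hlogT i m hm n hn1 (by have : H i = G i + 1 := rfl; omega)
      exact VF_bounds hδ1 (by linarith) n1 n2 hω
    have hl0 : 0 ≤ (1 - δ) / (Li i + 1) := div_nonneg (by linarith) (by linarith)
    have hl1 : (1 - δ) / (Li i + 1) ≤ 1 := by rw [div_le_one (by linarith)]; linarith
    have hu0 : 0 ≤ (1 + δ) / Li i := div_nonneg (by linarith) (by linarith)
    have hu1 : (1 + δ) / Li i ≤ 1 := by rw [div_le_one (by linarith)]; linarith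
    have main := pat_ge (μ := μ) hA (V := VF μ ℱ A δ) (fun n => VF_meas δ n) hl0 hl1 hu0 hu1 (gp k) (T i m) hbd C hC
    rw [gp_length] at main
    refine le_trans ?_ main
    apply mul_le_mul_of_nonneg_right _ measureReal_nonneg
    rw [wt_gp]
    apply mul_le_mul_of_nonneg_left _ hl0
    apply mul_le_mul_of_nonneg_right _ hl0
    exact pow_le_pow_of_le_one (by linarith) (by linarith) hk.le
  have hsum : Summable fun i : ℕ => (G i : ℝ) * Real.exp (-(M i * p i)) := by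
    refine Summable.of_norm_bounded_eventually_nat (g := fun i : ℕ => (1 / 2 : ℝ) ^ i) (summable_geometric_of_lt_one (by norm_num) (by norm_num)) ?_
    filter_upwards [eventually_ge_atTop i₀] with i hi
    obtain ⟨hL4, hana⟩ := hi₀ i hi
    obtain ⟨L, hLd⟩ : ∃ L, L = Li i := ⟨_, rfl⟩
    have hL4' : 4 ≤ L := by rw [hLd]; exact hL4
    have hexp : Real.exp L = 2 ^ i := by
      rw [hLd]
      exact Real.exp_log (by positivity)
    have g1 : (G i : ℝ) ≤ (1 - ε) * L ^ 2 := by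
      rw [hLd]
      exact Nat.floor_le (by nlinarith [sq_nonneg (Li i)])
    have g2 : ((H i : ℕ) : ℝ) ≤ L ^ 2 + 1 := by
      have : ((H i : ℕ) : ℝ) = (G i : ℝ) + 1 := Nat.cast_succ _
      rw [this]
      nlinarith
    have g3 : Real.exp L ≤ (H i : ℝ) * (M i + 1) := by
      rw [hexp]
      have h3 : 2 ^ i ≤ H i * (M i + 1) := (Nat.lt_mul_div_succ (2 ^ i) (hHpos i)).le
      exact_mod_cast h3
    have g4 := hana (G i) (H i) (M i) (by have := g1; rw [hLd] at this; exact this) (hHpos i)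
      (by have := g2; rw [hLd] at this; exact this) (by have := g3; rw [hLd] at this; exact this)
    have g5 : 3 * L ≤ M i * p i := by rw [hLd]; exact g4
    rw [Real.norm_eq_abs, abs_of_nonneg (by positivity)]
    have g6 : (1 / 2 : ℝ) ^ i = Real.exp (-L) := by
      rw [Real.exp_neg, hexp, one_div, inv_pow]
    rw [g6]
    have g7 : L ^ 2 ≤ Real.exp (2 * L) := by
      have : L + 1 ≤ Real.exp L := Real.add_one_le_exp L
      have h8 : Real.exp (2 * L) = Real.exp L ^ 2 := by rw [← Real.exp_nat_mul]; norm_num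
      rw [h8]
      exact pow_le_pow_left₀ (by linarith) (by linarith) 2
    calc (G i : ℝ) * Real.exp (-(M i * p i)) ≤ Real.exp (2 * L) * Real.exp (-(3 * L)) := by
          apply mul_le_mul _ (Real.exp_le_exp.2 (by linarith)) (Real.exp_pos _).le (Real.exp_pos _).le
          nlinarith
      _ = Real.exp (-L) := by rw [← Real.exp_add]; congr 1; ring
  have main := ev_blocks (μ := μ) (N := G) hDm p hpr hsum
  filter_upwards [main, hd] with ω hω h2
  obtain ⟨n₀, hn₀⟩ := no_VF h2 hδ0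
  filter_upwards [hω, eventually_ge_atTop n₀] with i h3 hi g hg1 hg2
  have hgG : g ≤ G i := Nat.le_floor hg2
  obtain ⟨m, hm, h4⟩ := h3 (g - 1) (by omega)
  rcases h4 with h4 | ⟨n, hn1, _, hn3⟩
  · obtain ⟨h5, h6, h7⟩ := mem_pat_gp A (g - 1) (T i m) ω h4
    refine ⟨T i m + 1, ?_, ?_, h5, fun r hr1 hr2 => h6 r hr1 (by omega), ?_⟩
    · have : 2 ^ i ≤ T i m := Nat.le_add_right _ _
      omega
    · have := hTM i m hm
      have h8 : H i = G i + 1 := rfl
      omega
    · rwa [show g - 1 + 1 = g by omega] at h7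
  · refine absurd hn3 (hn₀ n ?_)
    have : 2 ^ i ≤ T i m := Nat.le_add_right _ _
    have h9 : i < 2 ^ i := Nat.lt_two_pow_self
    omega

end Pool.Agent.N740.HK
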