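import Mathlib
import Pool.Agent.R528.RM.Tails

/-!
# The conditional strong law of Lévy with predictable weights
-/

set_option autoImplicit false
set_option linter.unusedSectionVars false

open MeasureTheory Filter Set Asymptotics
open scoped ENNReal Topology NNReal

namespace Pool.Agent.N740.HK

open Pool.Agent.R528.RM

/-- the lemma of Kronecker -/
theorem kron {b z : ℕ → ℝ} {z' : ℝ} (hb : Monotone b) (hbt : Tendsto b atTop atTop) (hz : Tendsto z atTop (𝓝 z')) :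
    Tendsto (fun N => (∑ n ∈ Finset.range N, b n * (z (n + 1) - z n)) / b N) atTop (𝓝 0) := by
  set y : ℕ → ℝ := fun n => z n - z' with hy
  have hy0 : Tendsto y atTop (𝓝 0) := by
    have := hz.sub_const z'
    rwa [sub_self] at this
  have h1 : ∀ N, ∑ n ∈ Finset.range N, b n * (z (n + 1) - z n) =
      b N * y N - b 0 * y 0 - ∑ n ∈ Finset.range N, (b (n + 1) - b n) * y (n + 1) := by
    intro N
    induction N with
    | zero => simp
    | succ N ih =>
      rw [Finset.sum_range_succ, ih, Finset.sum_range_succ]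
      simp only [hy]
      ring
  have h2 : (fun N => ∑ n ∈ Finset.range N, (b (n + 1) - b n) * y (n + 1)) =o[atTop]
      fun N => ∑ n ∈ Finset.range N, (b (n + 1) - b n) := by
    apply IsLittleO.sum_range
    · have : (fun n => y (n + 1)) =o[atTop] (fun _ => (1 : ℝ)) := by
        rw [isLittleO_one_iff]
        exact (tendsto_add_atTop_iff_nat 1).2 hy0
      have h3 := (isBigO_refl (fun n => b (n + 1) - b n) atTop).mul_isLittleO this
      simpa using h3
    · intro n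
      have := hb (Nat.le_succ n)
      simp only [Nat.succ_eq_add_one] at this
      simpa using this
    · have : (fun n => ∑ i ∈ Finset.range n, (b (i + 1) - b i)) = fun n => b n - b 0 := by
        funext n
        exact Finset.sum_range_sub b n
      rw [this]
      exact tendsto_atTop_add_const_right _ _ hbt
  have h3 : (fun N => ∑ n ∈ Finset.range N, (b (n + 1) - b n)) = fun n => b n - b 0 := by
    funext n
    exact Finset.sum_range_sub b n
  rw [h3] at h2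
  have h4 : (fun n => b n - b 0) =O[atTop] b := by
    apply (isBigO_refl b atTop).sub
    exact (isLittleO_const_left.2 (Or.inr (tendsto_norm_atTop_atTop.comp hbt))).isBigO
  have h5 := (h2.trans_isBigO h4).tendsto_div_nhds_zero
  have h6 : Tendsto (fun N => b 0 * y 0 / b N) atTop (𝓝 0) := tendsto_const_nhds.div_atTop hbt
  have h7 := (hy0.sub h6).sub h5
  rw [sub_zero, sub_zero] at h7
  refine h7.congr' ?_
  filter_upwards [hbt.eventually_gt_atTop 0] with N hN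
  rw [h1]
  field_simp

variable {Ω : Type} {m0 : MeasurableSpace Ω} {μ : Measure Ω} [IsProbabilityMeasure μ]
  {ℱ : Filtration ℕ m0} {A : ℕ → Set Ω}

/-- the density, cut off -/
noncomputable def DD' (μ : Measure Ω) (ℱ : Filtration ℕ m0) (A : ℕ → Set Ω) (n : ℕ) (ω : Ω) : ℝ :=
  max 0 (min 1 (dens μ ℱ A n ω))

lemma DD'_bd (n : ℕ) (ω : Ω) : 0 ≤ DD' μ ℱ A n ω ∧ DD' μ ℱ A n ω ≤ 1 :=
  ⟨le_max_left _ _, max_le zero_le_one (min_le_left _ _)⟩

lemma DD'_meas (n : ℕ) : StronglyMeasurable[ℱ n] (DD' μ ℱ A n) := by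
  have h1 : StronglyMeasurable[ℱ n] (dens μ ℱ A n) := dens_meas n
  have hc : Continuous (fun x : ℝ => max 0 (min 1 x)) := continuous_const.max (continuous_const.min continuous_id)
  exact hc.comp_stronglyMeasurable h1

lemma DD'_ae (hA : ∀ n, MeasurableSet[ℱ n] (A n)) : ∀ᵐ ω ∂μ, ∀ n, DD' μ ℱ A n ω = dens μ ℱ A n ω := by
  rw [ae_all_iff]
  intro n
  have hA' : MeasurableSet (A (n + 1)) := ℱ.le (n + 1) _ (hA (n + 1))
  have hi : Integrable ((A (n + 1)).indicator (fun _ => (1 : ℝ))) μ := (integrable_const (1 : ℝ)).indicator hA'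
  have h1 : 0 ≤ᵐ[μ] dens μ ℱ A n := condExp_nonneg (Eventually.of_forall fun ω => indicator_nonneg (fun _ _ => zero_le_one) _)
  have h2 : dens μ ℱ A n ≤ᵐ[μ] fun _ => (1 : ℝ) := by
    have h3 := condExp_mono (μ := μ) (m := ℱ n) hi (integrable_const (1 : ℝ))
      (Eventually.of_forall fun ω => indicator_le_self' (fun _ _ => zero_le_one) ω)
    rw [condExp_const (ℱ.le n)] at h3
    exact h3
  filter_upwards [h1, h2] with ω h3 h4
  have h3' : (0 : ℝ) ≤ dens μ ℱ A n ω := h3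
  unfold DD'
  rw [min_eq_right h4, max_eq_right h3']

/-- the indicator -/
noncomputable def J1 (A : ℕ → Set Ω) (n : ℕ) : Ω → ℝ := (A n).indicator (fun _ => (1 : ℝ))

lemma J1_01 (n : ℕ) (ω : Ω) : 0 ≤ J1 A n ω ∧ J1 A n ω ≤ 1 := by
  unfold J1
  by_cases h : ω ∈ A n
  · rw [indicator_of_mem h]; norm_num
  · rw [indicator_of_notMem h]; norm_num

lemma J1_sq (n : ℕ) (ω : Ω) : J1 A n ω ^ 2 = J1 A n ω := by
  unfold J1
  by_cases h : ω ∈ A n
  · rw [indicator_of_mem h]; norm_num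
  · rw [indicator_of_notMem h]; norm_num

lemma J1_meas (hA : ∀ n, MeasurableSet[ℱ n] (A n)) (n : ℕ) : StronglyMeasurable[ℱ n] (J1 A n) :=
  (@stronglyMeasurable_const _ _ (ℱ n) _ _).indicator (hA n)

lemma intb {f : Ω → ℝ} (hf : StronglyMeasurable f) {c : ℝ} (h : ∀ ω, |f ω| ≤ c) : Integrable f μ :=
  Integrable.of_bound hf.aestronglyMeasurable c (Eventually.of_forall h)

/-- conditional expectations -/
lemma jkey (hA : ∀ n, MeasurableSet[ℱ n] (A n)) {n : ℕ} {f : Ω → ℝ} (hf : StronglyMeasurable[ℱ n] f) {c : ℝ}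
    (hc : ∀ ω, |f ω| ≤ c) : μ[fun ω => f ω * (J1 A (n + 1) ω - DD' μ ℱ A n ω) | ℱ n] =ᵐ[μ] 0 := by
  have hJi : Integrable (J1 A (n + 1)) μ := intb ((J1_meas hA (n + 1)).mono (ℱ.le _)) (c := 1) fun ω => by
    rw [abs_of_nonneg (J1_01 _ ω).1]; exact (J1_01 _ ω).2
  have hDi : Integrable (DD' μ ℱ A n) μ := intb ((DD'_meas n).mono (ℱ.le _)) (c := 1) fun ω => by
    rw [abs_of_nonneg (DD'_bd _ ω).1]; exact (DD'_bd _ ω).2
  have hc' : ∀ ω, |f ω| ≤ c := hc
  have h1 := condExp_stronglyMeasurable_mul_of_bound (μ := μ) (ℱ.le n) hf (hJi.sub hDi) c (Eventually.of_forall hc')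
  have h2 : (f * (J1 A (n + 1) - DD' μ ℱ A n)) = fun ω => f ω * (J1 A (n + 1) ω - DD' μ ℱ A n ω) := rfl
  rw [h2] at h1
  have h3 := condExp_sub (μ := μ) hJi hDi (ℱ n)
  have h4 := condExp_of_stronglyMeasurable (μ := μ) (ℱ.le n) (DD'_meas (μ := μ) (ℱ := ℱ) (A := A) n) hDi
  filter_upwards [h1, h3, DD'_ae (μ := μ) hA] with ω h5 h6 h7
  rw [h5, Pi.mul_apply, h6, Pi.sub_apply, h4, h7 n]
  have : μ[J1 A (n + 1) | ℱ n] ω = dens μ ℱ A n ω := rfl
  rw [this, sub_self, mul_zero]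
  rfl

lemma jkey_int (hA : ∀ n, MeasurableSet[ℱ n] (A n)) {n : ℕ} {f : Ω → ℝ} (hf : StronglyMeasurable[ℱ n] f) {c : ℝ}
    (hc : ∀ ω, |f ω| ≤ c) : ∫ ω, f ω * (J1 A (n + 1) ω - DD' μ ℱ A n ω) ∂μ = 0 := by
  rw [← integral_condExp (ℱ.le n), integral_congr_ae (jkey hA hf hc)]
  simp

/-- the transform -/
noncomputable def ZZ (μ : Measure Ω) (ℱ : Filtration ℕ m0) (A : ℕ → Set Ω) (c : ℕ → Ω → ℝ) (N : ℕ) (ω : Ω) : ℝ :=
  ∑ n ∈ Finset.range N, c n ω * (J1 A (n + 1) ω - DD' μ ℱ A n ω)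

lemma JD_abs (n : ℕ) (ω : Ω) : |J1 A (n + 1) ω - DD' μ ℱ A n ω| ≤ 1 := by
  rw [abs_le]
  have h1 := J1_01 (A := A) (n + 1) ω
  have h2 := DD'_bd (μ := μ) (ℱ := ℱ) (A := A) n ω
  constructor <;> linarith

lemma ZZ_meas (hA : ∀ n, MeasurableSet[ℱ n] (A n)) {c : ℕ → Ω → ℝ} (hc : ∀ n, StronglyMeasurable[ℱ n] (c n)) (N : ℕ) :
    StronglyMeasurable[ℱ N] (ZZ μ ℱ A c N) := by
  have e : ZZ μ ℱ A c N = fun ω => ∑ n ∈ Finset.range N, c n ω * (J1 A (n + 1) ω - DD' μ ℱ A n ω) := rfl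
  rw [e]
  refine Finset.stronglyMeasurable_fun_sum _ fun n hn => ?_
  have hn := Finset.mem_range.1 hn
  exact ((hc n).mono (ℱ.mono hn.le)).mul (((J1_meas hA (n + 1)).mono (ℱ.mono hn)).sub ((DD'_meas n).mono (ℱ.mono hn.le)))

lemma ZZ_abs {c : ℕ → Ω → ℝ} (hc : ∀ n ω, |c n ω| ≤ 1) (N : ℕ) (ω : Ω) : |ZZ μ ℱ A c N ω| ≤ N := by
  unfold ZZ
  refine (Finset.abs_sum_le_sum_abs _ _).trans ?_
  calc ∑ n ∈ Finset.range N, |c n ω * (J1 A (n + 1) ω - DD' μ ℱ A n ω)| ≤ ∑ n ∈ Finset.range N, (1 : ℝ) := by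
        refine Finset.sum_le_sum fun n _ => ?_
        rw [abs_mul]
        exact mul_le_one₀ (hc n ω) (abs_nonneg _) (JD_abs n ω)
    _ = N := by simp

lemma ZZ_succ {c : ℕ → Ω → ℝ} (N : ℕ) (ω : Ω) :
    ZZ μ ℱ A c (N + 1) ω = ZZ μ ℱ A c N ω + c N ω * (J1 A (N + 1) ω - DD' μ ℱ A N ω) := by
  unfold ZZ
  rw [Finset.sum_range_succ]

theorem ZZ_mart (hA : ∀ n, MeasurableSet[ℱ n] (A n)) {c : ℕ → Ω → ℝ} (hc : ∀ n, StronglyMeasurable[ℱ n] (c n))
    (hcb : ∀ n ω, |c n ω| ≤ 1) : Martingale (ZZ μ ℱ A c) ℱ μ := by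
  have hint : ∀ N, Integrable (ZZ μ ℱ A c N) μ := fun N =>
    intb ((ZZ_meas hA hc N).mono (ℱ.le _)) (ZZ_abs hcb N)
  refine martingale_nat (fun n => ZZ_meas hA hc n) hint fun N => ?_
  have e : ZZ μ ℱ A c (N + 1) = ZZ μ ℱ A c N + fun ω => c N ω * (J1 A (N + 1) ω - DD' μ ℱ A N ω) := by
    funext ω
    exact ZZ_succ N ω
  have hi2 : Integrable (fun ω => c N ω * (J1 A (N + 1) ω - DD' μ ℱ A N ω)) μ := by
    refine intb (c := 1) ?_ fun ω => ?_
    · exact ((hc N).mono (ℱ.le _)).mul (((J1_meas hA (N + 1)).mono (ℱ.le _)).sub ((DD'_meas N).mono (ℱ.le _)))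
    · rw [abs_mul]
      exact mul_le_one₀ (hcb N ω) (abs_nonneg _) (JD_abs N ω)
  have h4 := condExp_add (μ := μ) (hint N) hi2 (ℱ N)
  have h5 := condExp_of_stronglyMeasurable (μ := μ) (ℱ.le N) (ZZ_meas (μ := μ) hA hc N) (hint N)
  rw [← e] at h4
  filter_upwards [h4, jkey (μ := μ) hA (hc N) (hcb N)] with ω h6 h7
  rw [h6, Pi.add_apply, h5, h7]
  simp

lemma ZZ_sq (hA : ∀ n, MeasurableSet[ℱ n] (A n)) {c : ℕ → Ω → ℝ} (hc : ∀ n, StronglyMeasurable[ℱ n] (c n))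
    (hcb : ∀ n ω, |c n ω| ≤ 1) (N : ℕ) :
    ∫ ω, ZZ μ ℱ A c N ω ^ 2 ∂μ ≤ ∫ ω, ∑ n ∈ Finset.range N, c n ω ^ 2 * DD' μ ℱ A n ω ∂μ := by
  have hSm : ∀ N, StronglyMeasurable (fun ω => ∑ n ∈ Finset.range N, c n ω ^ 2 * DD' μ ℱ A n ω) := fun N =>
    Finset.stronglyMeasurable_fun_sum _ fun n _ => (((hc n).mono (ℱ.le _)).pow 2).mul ((DD'_meas n).mono (ℱ.le _))
  have ht : ∀ n ω, 0 ≤ c n ω ^ 2 * DD' μ ℱ A n ω ∧ c n ω ^ 2 * DD' μ ℱ A n ω ≤ 1 := fun n ω => by
    have h1 := DD'_bd (μ := μ) (ℱ := ℱ) (A := A) n ω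
    have h2 : c n ω ^ 2 ≤ 1 := by
      rw [← sq_abs]
      exact pow_le_one₀ (abs_nonneg _) (hcb n ω)
    exact ⟨mul_nonneg (sq_nonneg _) h1.1, mul_le_one₀ h2 h1.1 h1.2⟩
  have hSi : ∀ N, Integrable (fun ω => ∑ n ∈ Finset.range N, c n ω ^ 2 * DD' μ ℱ A n ω) μ := fun N =>
    intb (hSm N) (c := N) fun ω => by
      rw [abs_of_nonneg (Finset.sum_nonneg fun n _ => (ht n ω).1)]
      calc _ ≤ ∑ n ∈ Finset.range N, (1 : ℝ) := Finset.sum_le_sum fun n _ => (ht n ω).2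
        _ = N := by simp
  induction N with
  | zero => simp [ZZ]
  | succ N ih =>
    have hZm : StronglyMeasurable[ℱ N] (ZZ μ ℱ A c N) := ZZ_meas hA hc N
    have hZb := ZZ_abs (μ := μ) (ℱ := ℱ) (A := A) hcb N
    have k1 := jkey_int (μ := μ) hA (n := N) (f := fun ω => 2 * ZZ μ ℱ A c N ω * c N ω)
      (((@stronglyMeasurable_const _ _ (ℱ N) _ _).mul hZm).mul (hc N)) (c := 2 * N) (fun ω => by
        rw [abs_mul, abs_mul, abs_two]
        calc 2 * |ZZ μ ℱ A c N ω| * |c N ω| ≤ 2 * (N : ℝ) * 1 :=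
              mul_le_mul (mul_le_mul_of_nonneg_left (hZb ω) (by norm_num)) (hcb N ω) (abs_nonneg _) (by positivity)
          _ = _ := mul_one _)
    have k2 := jkey_int (μ := μ) hA (n := N) (f := fun ω => c N ω ^ 2 * (1 - 2 * DD' μ ℱ A N ω))
      (((hc N).pow 2).mul ((@stronglyMeasurable_const _ _ (ℱ N) _ _).sub ((@stronglyMeasurable_const _ _ (ℱ N) _ _).mul (DD'_meas N)))) (c := 1) (fun ω => by
        rw [abs_mul]
        have h1 := DD'_bd (μ := μ) (ℱ := ℱ) (A := A) N ω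
        have h2 : |c N ω ^ 2| ≤ 1 := by rw [abs_pow]; exact pow_le_one₀ (abs_nonneg _) (hcb N ω)
        exact mul_le_one₀ h2 (abs_nonneg _) (by rw [abs_le]; constructor <;> linarith))
    have e : ∀ ω, ZZ μ ℱ A c (N + 1) ω ^ 2 = ZZ μ ℱ A c N ω ^ 2 +
        (2 * ZZ μ ℱ A c N ω * c N ω) * (J1 A (N + 1) ω - DD' μ ℱ A N ω) +
        (c N ω ^ 2 * (1 - 2 * DD' μ ℱ A N ω)) * (J1 A (N + 1) ω - DD' μ ℱ A N ω) +
        c N ω ^ 2 * (DD' μ ℱ A N ω - DD' μ ℱ A N ω ^ 2) := by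
      intro ω
      rw [ZZ_succ]
      have := J1_sq (A := A) (N + 1) ω
      linear_combination (c N ω ^ 2) * this
    have i1 : Integrable (fun ω => ZZ μ ℱ A c N ω ^ 2) μ := intb ((hZm.mono (ℱ.le _)).pow 2) (c := (N : ℝ) ^ 2) fun ω => by
      rw [abs_pow]; exact pow_le_pow_left₀ (abs_nonneg _) (hZb ω) 2
    have hJD : StronglyMeasurable (fun ω => J1 A (N + 1) ω - DD' μ ℱ A N ω) :=
      ((J1_meas hA (N + 1)).mono (ℱ.le _)).sub ((DD'_meas N).mono (ℱ.le _))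
    have i2 : Integrable (fun ω => (2 * ZZ μ ℱ A c N ω * c N ω) * (J1 A (N + 1) ω - DD' μ ℱ A N ω)) μ := by
      refine intb (c := 2 * N) ?_ fun ω => ?_
      · exact ((stronglyMeasurable_const.mul (hZm.mono (ℱ.le _))).mul ((hc N).mono (ℱ.le _))).mul hJD
      · rw [abs_mul, abs_mul, abs_mul, abs_two]
        calc 2 * |ZZ μ ℱ A c N ω| * |c N ω| * |J1 A (N + 1) ω - DD' μ ℱ A N ω| ≤ 2 * (N : ℝ) * 1 * 1 := by
              apply mul_le_mul _ (JD_abs N ω) (abs_nonneg _) (by positivity)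
              exact mul_le_mul (mul_le_mul_of_nonneg_left (hZb ω) (by norm_num)) (hcb N ω) (abs_nonneg _) (by positivity)
          _ = _ := by ring
    have i3 : Integrable (fun ω => (c N ω ^ 2 * (1 - 2 * DD' μ ℱ A N ω)) * (J1 A (N + 1) ω - DD' μ ℱ A N ω)) μ := by
      refine intb (c := 1) ?_ fun ω => ?_
      · exact ((((hc N).mono (ℱ.le _)).pow 2).mul (stronglyMeasurable_const.sub (stronglyMeasurable_const.mul ((DD'_meas N).mono (ℱ.le _))))).mul hJD
      · rw [abs_mul, abs_mul]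
        have h1 := DD'_bd (μ := μ) (ℱ := ℱ) (A := A) N ω
        have h2 : |c N ω ^ 2| ≤ 1 := by rw [abs_pow]; exact pow_le_one₀ (abs_nonneg _) (hcb N ω)
        have h3 : |1 - 2 * DD' μ ℱ A N ω| ≤ 1 := by rw [abs_le]; constructor <;> linarith
        exact mul_le_one₀ (mul_le_one₀ h2 (abs_nonneg _) h3) (abs_nonneg _) (JD_abs N ω)
    have i4 : Integrable (fun ω => c N ω ^ 2 * (DD' μ ℱ A N ω - DD' μ ℱ A N ω ^ 2)) μ := by
      refine intb (c := 1) ?_ fun ω => ?_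
      · exact (((hc N).mono (ℱ.le _)).pow 2).mul (((DD'_meas N).mono (ℱ.le _)).sub (((DD'_meas N).mono (ℱ.le _)).pow 2))
      · rw [abs_mul]
        have h1 := DD'_bd (μ := μ) (ℱ := ℱ) (A := A) N ω
        have h2 : |c N ω ^ 2| ≤ 1 := by rw [abs_pow]; exact pow_le_one₀ (abs_nonneg _) (hcb N ω)
        refine mul_le_one₀ h2 (abs_nonneg _) ?_
        rw [abs_le]
        constructor <;> nlinarith
    have i5 : Integrable (fun ω => c N ω ^ 2 * DD' μ ℱ A N ω) μ := by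
      refine intb (c := 1) ?_ fun ω => ?_
      · exact (((hc N).mono (ℱ.le _)).pow 2).mul ((DD'_meas N).mono (ℱ.le _))
      · rw [abs_of_nonneg (ht N ω).1]; exact (ht N ω).2
    have i12 : Integrable (fun ω => ZZ μ ℱ A c N ω ^ 2 +
        (2 * ZZ μ ℱ A c N ω * c N ω) * (J1 A (N + 1) ω - DD' μ ℱ A N ω)) μ := i1.add i2
    have i123 : Integrable (fun ω => ZZ μ ℱ A c N ω ^ 2 +
        (2 * ZZ μ ℱ A c N ω * c N ω) * (J1 A (N + 1) ω - DD' μ ℱ A N ω) +
        (c N ω ^ 2 * (1 - 2 * DD' μ ℱ A N ω)) * (J1 A (N + 1) ω - DD' μ ℱ A N ω)) μ := i12.add i3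
    have e1 : ∫ ω, ZZ μ ℱ A c (N + 1) ω ^ 2 ∂μ = ∫ ω, ZZ μ ℱ A c N ω ^ 2 ∂μ +
        ∫ ω, c N ω ^ 2 * (DD' μ ℱ A N ω - DD' μ ℱ A N ω ^ 2) ∂μ := by
      have e0 : (fun ω => ZZ μ ℱ A c (N + 1) ω ^ 2) = fun ω => ZZ μ ℱ A c N ω ^ 2 +
        (2 * ZZ μ ℱ A c N ω * c N ω) * (J1 A (N + 1) ω - DD' μ ℱ A N ω) +
        (c N ω ^ 2 * (1 - 2 * DD' μ ℱ A N ω)) * (J1 A (N + 1) ω - DD' μ ℱ A N ω) +
        c N ω ^ 2 * (DD' μ ℱ A N ω - DD' μ ℱ A N ω ^ 2) := funext e
      rw [e0]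
      have a1 := integral_add i123 i4
      have a2 := integral_add i12 i3
      have a3 := integral_add i1 i2
      rw [a1, a2, a3, k1, k2]
      ring
    rw [e1]
    simp_rw [Finset.sum_range_succ]
    rw [integral_add (hSi N) i5]
    refine add_le_add ih (integral_mono i4 i5 fun ω => ?_)
    exact mul_le_mul_of_nonneg_left (by nlinarith [sq_nonneg (DD' μ ℱ A N ω)]) (sq_nonneg _)

/-- **the strong law** -/
theorem levy (hA : ∀ n, MeasurableSet[ℱ n] (A n)) (w : ℕ → Ω → ℝ) (hw : ∀ n, StronglyMeasurable[ℱ n] (w n))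
    (h01 : ∀ n ω, 0 ≤ w n ω ∧ w n ω ≤ 1) :
    ∀ᵐ ω ∂μ, Tendsto (fun N => ∑ n ∈ Finset.range N, w n ω * dens μ ℱ A n ω) atTop atTop →
      Tendsto (fun N => (∑ n ∈ Finset.range N, w n ω * J1 A (n + 1) ω) / ∑ n ∈ Finset.range N, w n ω * dens μ ℱ A n ω)
        atTop (𝓝 1) := by
  set V : ℕ → Ω → ℝ := fun N ω => ∑ n ∈ Finset.range N, w n ω * DD' μ ℱ A n ω with hV
  have hVt : ∀ n ω, 0 ≤ w n ω * DD' μ ℱ A n ω ∧ w n ω * DD' μ ℱ A n ω ≤ 1 := fun n ω =>
    ⟨mul_nonneg (h01 n ω).1 (DD'_bd n ω).1, mul_le_one₀ (h01 n ω).2 (DD'_bd n ω).1 (DD'_bd n ω).2⟩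
  have hV0 : ∀ N ω, 0 ≤ V N ω := fun N ω => Finset.sum_nonneg fun n _ => (hVt n ω).1
  have hVs : ∀ N ω, V (N + 1) ω = V N ω + w N ω * DD' μ ℱ A N ω := fun N ω => by
    simp only [hV, Finset.sum_range_succ]
  have hVm : ∀ n, StronglyMeasurable[ℱ n] (V (n + 1)) := fun n => by
    simp only [hV]
    refine Finset.stronglyMeasurable_fun_sum _ fun k hk => ?_
    have hk := Finset.mem_range.1 hk
    exact ((hw k).mono (ℱ.mono (by omega))).mul ((DD'_meas k).mono (ℱ.mono (by omega)))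
  set c : ℕ → Ω → ℝ := fun n ω => w n ω / (1 + V (n + 1) ω) with hc
  have hcm : ∀ n, StronglyMeasurable[ℱ n] (c n) := fun n => by
    have h1 : Measurable[ℱ n] (fun ω => 1 + V (n + 1) ω) := (hVm n).measurable.const_add 1
    have h2 : Measurable[ℱ n] (fun ω => w n ω / (1 + V (n + 1) ω)) := (hw n).measurable.div h1
    exact h2.stronglyMeasurable
  have hcb : ∀ n ω, |c n ω| ≤ 1 := fun n ω => by
    have h1 := h01 n ω
    have h2 := hV0 (n + 1) ω
    simp only [hc]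
    rw [abs_of_nonneg (div_nonneg h1.1 (by linarith)), div_le_one (by linarith)]
    linarith
  have hsum : ∀ N ω, ∑ n ∈ Finset.range N, c n ω ^ 2 * DD' μ ℱ A n ω ≤ 1 - 1 / (1 + V N ω) := by
    intro N ω
    induction N with
    | zero => simp [hV]
    | succ N ih =>
      rw [Finset.sum_range_succ]
      have h1 := hV0 N ω
      have h2 := hV0 (N + 1) ω
      have h3 := hVs N ω
      have h4 := hVt N ω
      have h5 : c N ω ^ 2 * DD' μ ℱ A N ω ≤ 1 / (1 + V N ω) - 1 / (1 + V (N + 1) ω) := by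
        have e1 : 1 / (1 + V N ω) - 1 / (1 + V (N + 1) ω) = (w N ω * DD' μ ℱ A N ω) / ((1 + V N ω) * (1 + V (N + 1) ω)) := by
          rw [div_sub_div _ _ (by linarith) (by linarith), h3]
          congr 1
          ring
        have e2 : c N ω ^ 2 * DD' μ ℱ A N ω = (w N ω * (w N ω * DD' μ ℱ A N ω)) / (1 + V (N + 1) ω) ^ 2 := by
          simp only [hc]
          rw [div_pow]
          ring
        rw [e1, e2]
        apply div_le_div₀ h4.1 _ (by positivity)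
        · rw [sq]
          exact mul_le_mul_of_nonneg_right (by linarith [h4.1]) (by linarith)
        · have := (h01 N ω).2
          nlinarith [h4.1]
      linarith
  have hb : ∀ N, eLpNorm (ZZ μ ℱ A c N) 1 μ ≤ ((2 : ℝ≥0) : ℝ≥0∞) := by
    intro N
    have hZi : Integrable (ZZ μ ℱ A c N) μ := intb ((ZZ_meas hA hcm N).mono (ℱ.le _)) (ZZ_abs hcb N)
    rw [eLpNorm_one_eq_lintegral_enorm, ← ofReal_integral_norm_eq_lintegral_enorm hZi]
    rw [ENNReal.ofReal_le_coe]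
    have j0 : Integrable (fun ω => ZZ μ ℱ A c N ω ^ 2) μ := intb (((ZZ_meas hA hcm N).mono (ℱ.le _)).pow 2) (c := (N : ℝ) ^ 2) fun ω => by
      rw [abs_pow]; exact pow_le_pow_left₀ (abs_nonneg _) (ZZ_abs hcb N ω) 2
    calc ∫ ω, ‖ZZ μ ℱ A c N ω‖ ∂μ ≤ ∫ ω, (1 + ZZ μ ℱ A c N ω ^ 2) ∂μ := by
          apply integral_mono hZi.norm ((integrable_const _).add j0)
          intro ω
          show ‖ZZ μ ℱ A c N ω‖ ≤ 1 + ZZ μ ℱ A c N ω ^ 2
          rw [Real.norm_eq_abs, ← sq_abs (ZZ μ ℱ A c N ω)]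
          nlinarith [abs_nonneg (ZZ μ ℱ A c N ω), sq_nonneg (|ZZ μ ℱ A c N ω| - 1)]
      _ = 1 + ∫ ω, ZZ μ ℱ A c N ω ^ 2 ∂μ := by
          rw [integral_add (integrable_const _) j0, integral_const, probReal_univ, one_smul]
      _ ≤ 1 + ∫ ω, ∑ n ∈ Finset.range N, c n ω ^ 2 * DD' μ ℱ A n ω ∂μ := by linarith [ZZ_sq (μ := μ) hA hcm hcb N]
      _ ≤ 1 + ∫ _, (1 : ℝ) ∂μ := by
          have hSi : Integrable (fun ω => ∑ n ∈ Finset.range N, c n ω ^ 2 * DD' μ ℱ A n ω) μ := by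
            refine intb (c := 1) (Finset.stronglyMeasurable_fun_sum _ fun n _ => (((hcm n).mono (ℱ.le _)).pow 2).mul ((DD'_meas n).mono (ℱ.le _))) fun ω => ?_
            rw [abs_of_nonneg (Finset.sum_nonneg fun n _ => mul_nonneg (sq_nonneg _) (DD'_bd n ω).1)]
            refine (hsum N ω).trans ?_
            have := hV0 N ω
            have : 0 ≤ 1 / (1 + V N ω) := by positivity
            linarith
          have := integral_mono hSi (integrable_const (1 : ℝ)) (fun ω => by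
            refine (hsum N ω).trans ?_
            have := hV0 N ω
            have : 0 ≤ 1 / (1 + V N ω) := by positivity
            show 1 - 1 / (1 + V N ω) ≤ 1
            linarith)
          linarith
      _ = (2 : ℝ≥0) := by
          rw [integral_const, probReal_univ, one_smul]
          norm_num
  have h1 := (ZZ_mart (μ := μ) hA hcm hcb).submartingale.ae_tendsto_limitProcess hb
  filter_upwards [h1, DD'_ae (μ := μ) hA] with ω hω hDd
  intro hdiv
  have hVe : ∀ N, V N ω = ∑ n ∈ Finset.range N, w n ω * dens μ ℱ A n ω := fun N => by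
    simp only [hV]
    exact Finset.sum_congr rfl fun n _ => by rw [hDd n]
  have hVtop : Tendsto (fun N => V N ω) atTop atTop := hdiv.congr fun N => (hVe N).symm
  set b : ℕ → ℝ := fun n => 1 + V (n + 1) ω with hb'
  have hbmono : Monotone b := monotone_nat_of_le_succ fun n => by
    simp only [hb']
    have := hVs (n + 1) ω
    have := (hVt (n + 1) ω).1
    linarith
  have hbt : Tendsto b atTop atTop := tendsto_atTop_add_const_left _ _ ((tendsto_add_atTop_iff_nat 1).2 hVtop)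
  have hk := kron hbmono hbt hω
  have e1 : ∀ N, ∑ n ∈ Finset.range N, b n * (ZZ μ ℱ A c (n + 1) ω - ZZ μ ℱ A c n ω) =
      (∑ n ∈ Finset.range N, w n ω * J1 A (n + 1) ω) - V N ω := by
    intro N
    simp only [hV, ← Finset.sum_sub_distrib]
    refine Finset.sum_congr rfl fun n _ => ?_
    rw [ZZ_succ]
    have h2 : 1 + V (n + 1) ω ≠ 0 := by
      have := hV0 (n + 1) ω
      linarith
    simp only [hb', hc]
    rw [add_sub_cancel_left]
    field_simp
  have h2 : Tendsto (fun N => b N / V N ω) atTop (𝓝 1) := by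
    have h3 : Tendsto (fun N => (1 : ℝ) + (1 + w N ω * DD' μ ℱ A N ω) / V N ω) atTop (𝓝 (1 + 0)) := by
      apply tendsto_const_nhds.add
      apply Tendsto.squeeze' tendsto_const_nhds ((tendsto_const_nhds (x := (2 : ℝ))).div_atTop hVtop)
      · filter_upwards [hVtop.eventually_gt_atTop 0] with N hN
        have := (hVt N ω).1
        positivity
      · filter_upwards [hVtop.eventually_gt_atTop 0] with N hN
        apply div_le_div_of_nonneg_right _ hN.le
        linarith [(hVt N ω).2]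
    rw [add_zero] at h3
    refine h3.congr' ?_
    filter_upwards [hVtop.eventually_gt_atTop 0] with N hN
    simp only [hb']
    rw [hVs]
    field_simp
    ring
  have h4 := hk.mul h2
  rw [zero_mul] at h4
  have h5 := h4.add_const 1
  rw [zero_add] at h5
  refine h5.congr' ?_
  filter_upwards [hVtop.eventually_gt_atTop 0, hbt.eventually_gt_atTop 0] with N hN hbN
  rw [e1, ← hVe]
  field_simp
  ring

/-- the strong law in terms of `1 / log n` -/
theorem levy_log (hA : ∀ n, MeasurableSet[ℱ n] (A n))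
    (hd : ∀ᵐ ω ∂μ, Tendsto (fun n : ℕ => dens μ ℱ A n ω * Real.log n) atTop (𝓝 1))
    (w : ℕ → Ω → ℝ) (hw : ∀ n, StronglyMeasurable[ℱ n] (w n)) (h01 : ∀ n ω, 0 ≤ w n ω ∧ w n ω ≤ 1) :
    ∀ᵐ ω ∂μ, Tendsto (fun N : ℕ => ∑ n ∈ Finset.range N, w n ω / Real.log n) atTop atTop →
      Tendsto (fun N : ℕ => (∑ n ∈ Finset.range N, w n ω * J1 A (n + 1) ω) / ∑ n ∈ Finset.range N, w n ω / Real.log n)
        atTop (𝓝 1) := by
  filter_upwards [levy (μ := μ) hA w hw h01, hd] with ω h1 h2 h3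
  have h4 : (fun N : ℕ => ∑ n ∈ Finset.range N, (w n ω * dens μ ℱ A n ω - w n ω / Real.log n)) =o[atTop]
      fun N : ℕ => ∑ n ∈ Finset.range N, w n ω / Real.log n := by
    apply IsLittleO.sum_range
    · have h5 : (fun n : ℕ => dens μ ℱ A n ω * Real.log n - 1) =o[atTop] (fun _ => (1 : ℝ)) := by
        rw [isLittleO_one_iff]
        have := h2.sub_const 1
        rwa [sub_self] at this
      have h6 := (isBigO_refl (fun n : ℕ => w n ω / Real.log n) atTop).mul_isLittleO h5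
      simp only [mul_one] at h6
      refine h6.congr' ?_ EventuallyEq.rfl
      filter_upwards [eventually_ge_atTop 3] with n hn
      have hn' : (3 : ℝ) ≤ n := by exact_mod_cast hn
      have hL : 0 < Real.log n := Real.log_pos (by linarith)
      field_simp
    · intro n
      exact div_nonneg (h01 n ω).1 (Real.log_natCast_nonneg n)
    · exact h3
  have h5 := h4.tendsto_div_nhds_zero
  have h6 : Tendsto (fun N : ℕ => (∑ n ∈ Finset.range N, w n ω * dens μ ℱ A n ω) / ∑ n ∈ Finset.range N, w n ω / Real.log n)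
      atTop (𝓝 1) := by
    have h7 := h5.add_const 1
    rw [zero_add] at h7
    refine h7.congr' ?_
    filter_upwards [h3.eventually_gt_atTop 0] with N hN
    rw [Finset.sum_sub_distrib]
    field_simp
    ring
  have h8 : Tendsto (fun N : ℕ => ∑ n ∈ Finset.range N, w n ω * dens μ ℱ A n ω) atTop atTop := by
    have h9 := h6.pos_mul_atTop one_pos h3
    refine h9.congr' ?_
    filter_upwards [h3.eventually_gt_atTop 0] with N hN
    field_simp
  have h9 := (h1 h8).mul h6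
  rw [one_mul] at h9
  refine h9.congr' ?_
  filter_upwards [h8.eventually_gt_atTop 0] with N hN
  field_simp

end Pool.Agent.N740.HK
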