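import Mathlib
import Pool.Agent.R528.RM.Final

/-!
# The random sieve of Hawkins: the sieving product is `log n + O(1)`
-/

set_option autoImplicit false
set_option linter.unusedSectionVars false

open MeasureTheory Filter Set
open scoped ENNReal Topology NNReal

namespace Pool.Agent.N740.HK

open Pool.Agent.R528.RM

variable {Ω : Type} {m0 : MeasurableSpace Ω} {μ : Measure Ω} [IsProbabilityMeasure μ]
  {ℱ : Filtration ℕ m0} {A : ℕ → Set Ω}

open Classical in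
/-- the product of the `h / (h - 1)` over the chosen `2 ≤ h ≤ n` -/
noncomputable def Y (A : ℕ → Set Ω) (n : ℕ) (ω : Ω) : ℝ :=
  ∏ h ∈ Finset.Icc 2 n, if ω ∈ A h then (h : ℝ) / (h - 1) else 1

/-- the indicator function -/
noncomputable def I1 (A : ℕ → Set Ω) (n : ℕ) : Ω → ℝ := (A n).indicator (fun _ => (1 : ℝ))

/-- the sieve of Hawkins, in terms of `Y` -/
structure HS (μ : Measure Ω) (ℱ : Filtration ℕ m0) (A : ℕ → Set Ω) : Prop where
  ad : ∀ n, MeasurableSet[ℱ n] (A n)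
  two : A 2 = univ
  sv : ∀ n, 2 ≤ n → μ[I1 A (n + 1) | ℱ n] =ᵐ[μ] fun ω => (Y A n ω)⁻¹

lemma Y_one (ω : Ω) : Y A 1 ω = 1 := by
  unfold Y
  rw [Finset.Icc_eq_empty (by norm_num), Finset.prod_empty]

lemma Y_succ {n : ℕ} (hn : 1 ≤ n) (ω : Ω) : Y A (n + 1) ω = Y A n ω * (1 + I1 A (n + 1) ω / n) := by
  classical
  have hn0 : (n : ℝ) ≠ 0 := by
    have : (1 : ℝ) ≤ n := by exact_mod_cast hn
    positivity
  unfold Y
  rw [← Finset.insert_Icc_right_eq_Icc_add_one (show 2 ≤ n + 1 by omega), Finset.prod_insert (by simp), mul_comm]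
  congr 1
  unfold I1
  by_cases h : ω ∈ A (n + 1)
  · rw [if_pos h, indicator_of_mem h]
    push_cast
    rw [add_sub_cancel_right]
    field_simp
  · rw [if_neg h, indicator_of_notMem h]
    simp

lemma I1_01 (n : ℕ) (ω : Ω) : 0 ≤ I1 A n ω ∧ I1 A n ω ≤ 1 := by
  unfold I1
  by_cases h : ω ∈ A n
  · rw [indicator_of_mem h]; norm_num
  · rw [indicator_of_notMem h]; norm_num

lemma I1_sq (n : ℕ) (ω : Ω) : I1 A n ω ^ 2 = I1 A n ω := by
  unfold I1
  by_cases h : ω ∈ A n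
  · rw [indicator_of_mem h]; norm_num
  · rw [indicator_of_notMem h]; norm_num

lemma Y_bd {n : ℕ} (hn : 1 ≤ n) (ω : Ω) : 1 ≤ Y A n ω ∧ Y A n ω ≤ n := by
  induction n, hn using Nat.le_induction with
  | base => rw [Y_one]; norm_num
  | succ n hn ih =>
    have hn1 : (1 : ℝ) ≤ n := by exact_mod_cast hn
    obtain ⟨h0, h1⟩ := I1_01 (A := A) (n + 1) ω
    rw [Y_succ hn]
    have h2 : 0 ≤ I1 A (n + 1) ω / n := by positivity
    have h3 : I1 A (n + 1) ω / n ≤ 1 / n := div_le_div_of_nonneg_right h1 (by positivity)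
    constructor
    · nlinarith [ih.1]
    · push_cast
      calc Y A n ω * (1 + I1 A (n + 1) ω / n) ≤ n * (1 + 1 / n) :=
            mul_le_mul ih.2 (by linarith) (by linarith) (by positivity)
        _ = n + 1 := by field_simp

lemma Y_meas (hA : ∀ n, MeasurableSet[ℱ n] (A n)) (n : ℕ) : StronglyMeasurable[ℱ n] (Y A n) := by
  classical
  have h1 : Y A n = fun ω => ∏ h ∈ Finset.Icc 2 n, (fun ω => if ω ∈ A h then (h : ℝ) / (h - 1) else 1) ω := rfl
  rw [h1]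
  refine (@Finset.measurable_prod _ _ _ _ _ _ (ℱ n) _ _ fun h hh => ?_).stronglyMeasurable
  exact Measurable.ite (ℱ.mono (Finset.mem_Icc.1 hh).2 _ (hA h)) measurable_const measurable_const

lemma I1_meas (hA : ∀ n, MeasurableSet[ℱ n] (A n)) (n : ℕ) : StronglyMeasurable[ℱ n] (I1 A n) :=
  (@stronglyMeasurable_const _ _ (ℱ n) _ _).indicator (hA n)

lemma int_bdd {f : Ω → ℝ} (hf : StronglyMeasurable f) {c : ℝ} (h : ∀ ω, |f ω| ≤ c) : Integrable f μ :=
  Integrable.of_bound hf.aestronglyMeasurable c (Eventually.of_forall h)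

lemma int_I (hA : ∀ n, MeasurableSet[ℱ n] (A n)) (n : ℕ) : Integrable (I1 A n) μ :=
  int_bdd ((I1_meas hA n).mono (ℱ.le n)) (c := 1) fun ω => by
    rw [abs_of_nonneg (I1_01 n ω).1]
    exact (I1_01 n ω).2

/-- conditional expectations -/
lemma key (h : HS μ ℱ A) {n : ℕ} (hn : 2 ≤ n) {f : Ω → ℝ} (hf : StronglyMeasurable[ℱ n] f) {c : ℝ}
    (hc : ∀ ω, |f ω| ≤ c) : μ[fun ω => f ω * I1 A (n + 1) ω | ℱ n] =ᵐ[μ] fun ω => f ω * (Y A n ω)⁻¹ := by
  have h1 := condExp_stronglyMeasurable_mul_of_bound (μ := μ) (ℱ.le n) hf (int_I h.ad (n + 1)) c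
    (Eventually.of_forall hc)
  have h2 : (f * I1 A (n + 1)) = fun ω => f ω * I1 A (n + 1) ω := rfl
  rw [h2] at h1
  filter_upwards [h1, h.sv n hn] with ω h3 h4
  rw [h3, Pi.mul_apply, h4]

lemma key_int (h : HS μ ℱ A) {n : ℕ} (hn : 2 ≤ n) {f : Ω → ℝ} (hf : StronglyMeasurable[ℱ n] f) {c : ℝ}
    (hc : ∀ ω, |f ω| ≤ c) : ∫ ω, f ω * I1 A (n + 1) ω ∂μ = ∫ ω, f ω * (Y A n ω)⁻¹ ∂μ := by
  rw [← integral_condExp (ℱ.le n)]
  exact integral_congr_ae (key h hn hf hc)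

/-- the martingale -/
noncomputable def M (A : ℕ → Set Ω) (n : ℕ) (ω : Ω) : ℝ := Y A (n + 2) ω - (harmonic (n + 1) : ℝ)

/-- the filtration, shifted -/
def F2 (ℱ : Filtration ℕ m0) : Filtration ℕ m0 where
  seq n := ℱ (n + 2)
  mono' := fun i j hij => ℱ.mono (by omega)
  le' := fun i => ℱ.le _

lemma harm_succ (n : ℕ) : (harmonic (n + 1) : ℝ) = (harmonic n : ℝ) + 1 / ((n : ℝ) + 1) := by
  rw [harmonic_succ]
  push_cast
  rw [one_div]

lemma M_succ (n : ℕ) (ω : Ω) : M A (n + 1) ω = M A n ω + (Y A (n + 2) ω * I1 A (n + 3) ω - 1) / ((n : ℝ) + 2) := by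
  unfold M
  rw [show n + 1 + 2 = (n + 2) + 1 by ring, Y_succ (by omega), harm_succ (n + 1)]
  push_cast
  have : (n : ℝ) + 2 ≠ 0 := by positivity
  have e : (n : ℝ) + 1 + 1 = n + 2 := by ring
  rw [e]
  field_simp
  ring

lemma M_meas (hA : ∀ n, MeasurableSet[ℱ n] (A n)) (n : ℕ) : StronglyMeasurable[ℱ (n + 2)] (M A n) :=
  (Y_meas hA (n + 2)).sub (@stronglyMeasurable_const _ _ (ℱ (n + 2)) _ _)

lemma M_bd (n : ℕ) : ∃ c : ℝ, 0 ≤ c ∧ ∀ ω, |M A n ω| ≤ c := by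
  refine ⟨(n + 2) + |(harmonic (n + 1) : ℝ)|, by positivity, fun ω => ?_⟩
  unfold M
  refine (abs_sub _ _).trans ?_
  have h1 := Y_bd (A := A) (show 1 ≤ n + 2 by omega) ω
  rw [abs_of_nonneg (by linarith [h1.1])]
  have h2 := h1.2
  push_cast at h2
  linarith

lemma M_int (hA : ∀ n, MeasurableSet[ℱ n] (A n)) (n : ℕ) : Integrable (M A n) μ := by
  obtain ⟨c, _, hc⟩ := M_bd (A := A) n
  exact int_bdd ((M_meas hA n).mono (ℱ.le _)) hc

lemma Y_ne (n : ℕ) (ω : Ω) : Y A (n + 2) ω ≠ 0 := by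
  have := (Y_bd (A := A) (show 1 ≤ n + 2 by omega) ω).1
  linarith

lemma Y_abs (n : ℕ) (ω : Ω) : |Y A (n + 2) ω| ≤ (n : ℝ) + 2 := by
  have h1 := Y_bd (A := A) (show 1 ≤ n + 2 by omega) ω
  rw [abs_of_nonneg (by linarith [h1.1])]
  have h2 := h1.2
  push_cast at h2
  exact h2

theorem mart (h : HS μ ℱ A) : Martingale (M A) (F2 ℱ) μ := by
  refine martingale_nat (fun n => M_meas h.ad n) (fun n => M_int h.ad n) fun n => ?_
  have h1 : M A (n + 1) = fun ω => M A n ω + (Y A (n + 2) ω * I1 A (n + 3) ω - 1) / ((n : ℝ) + 2) := by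
    funext ω; exact M_succ n ω
  have hk := key h (show 2 ≤ n + 2 by omega) (Y_meas h.ad (n + 2)) (Y_abs n)
  have hYI : Integrable (fun ω => Y A (n + 2) ω * I1 A (n + 3) ω) μ := by
    refine int_bdd (c := (n : ℝ) + 2) ?_ fun ω => ?_
    · exact ((Y_meas h.ad (n + 2)).mono (ℱ.le _)).mul ((I1_meas h.ad (n + 3)).mono (ℱ.le _))
    · rw [abs_mul]
      have h2 := Y_abs (A := A) n ω
      have h3 : |I1 A (n + 3) ω| ≤ 1 := by
        rw [abs_of_nonneg (I1_01 _ ω).1]; exact (I1_01 _ ω).2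
      calc |Y A (n + 2) ω| * |I1 A (n + 3) ω| ≤ ((n : ℝ) + 2) * 1 :=
            mul_le_mul h2 h3 (abs_nonneg _) (by positivity)
        _ = _ := mul_one _
  have e1 : M A (n + 1) = (M A n + fun _ => -(1 / ((n : ℝ) + 2))) +
      (fun ω => (1 / ((n : ℝ) + 2)) * (Y A (n + 2) ω * I1 A (n + 3) ω)) := by
    rw [h1]
    funext ω
    simp only [Pi.add_apply]
    ring
  have hsm : StronglyMeasurable[ℱ (n + 2)] (M A n + fun _ => -(1 / ((n : ℝ) + 2))) :=
    (M_meas h.ad n).add (@stronglyMeasurable_const _ _ (ℱ (n + 2)) _ _)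
  have hi1 : Integrable (M A n + fun _ => -(1 / ((n : ℝ) + 2))) μ := (M_int h.ad n).add (integrable_const _)
  have h4 := condExp_add (μ := μ) hi1 (hYI.const_mul (1 / ((n : ℝ) + 2))) (ℱ (n + 2))
  have h5 := condExp_of_stronglyMeasurable (μ := μ) (ℱ.le (n + 2)) hsm hi1
  have h6 := condExp_smul (μ := μ) (1 / ((n : ℝ) + 2)) (fun ω => Y A (n + 2) ω * I1 A (n + 3) ω) (ℱ (n + 2))
  have e2 : (1 / ((n : ℝ) + 2)) • (fun ω => Y A (n + 2) ω * I1 A (n + 3) ω) =
      fun ω => (1 / ((n : ℝ) + 2)) * (Y A (n + 2) ω * I1 A (n + 3) ω) := rfl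
  rw [e2] at h6
  change M A n =ᵐ[μ] μ[M A (n + 1) | ℱ (n + 2)]
  rw [e1]
  filter_upwards [h4, h6, hk] with ω h7 h8 h9
  rw [h7, Pi.add_apply, h5, h8, Pi.smul_apply, smul_eq_mul]
  have e3 : (fun ω => Y A (n + 2) ω * I1 A (n + 2 + 1) ω) = fun ω => Y A (n + 2) ω * I1 A (n + 3) ω := rfl
  rw [e3] at h9
  rw [h9, mul_inv_cancel₀ (Y_ne n ω), Pi.add_apply]
  ring

lemma M_zero (h : HS μ ℱ A) (ω : Ω) : M A 0 ω = 1 := by
  unfold M
  rw [show 0 + 2 = 1 + 1 by ring, Y_succ le_rfl, Y_one]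
  have : I1 A (1 + 1) ω = 1 := by
    unfold I1
    rw [show 1 + 1 = 2 by ring, h.two, indicator_univ]
  rw [this]
  norm_num [harmonic]

lemma M_mean (h : HS μ ℱ A) (n : ℕ) : ∫ ω, M A n ω ∂μ = 1 := by
  have h1 := (mart h).setIntegral_eq (Nat.zero_le n) (MeasurableSet.univ)
  rw [setIntegral_univ, setIntegral_univ] at h1
  rw [← h1]
  simp [M_zero h]

lemma Y_mean (h : HS μ ℱ A) (n : ℕ) : ∫ ω, Y A (n + 2) ω ∂μ = 1 + (harmonic (n + 1) : ℝ) := by
  have h1 := M_mean h n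
  have h2 : Integrable (fun ω => Y A (n + 2) ω) μ :=
    int_bdd ((Y_meas h.ad (n + 2)).mono (ℱ.le _)) (Y_abs n)
  unfold M at h1
  rw [integral_sub h2 (integrable_const _), integral_const, probReal_univ, one_smul] at h1
  linarith

/-- the second moment -/
noncomputable def V (μ : Measure Ω) (A : ℕ → Set Ω) (n : ℕ) : ℝ := ∫ ω, M A n ω ^ 2 ∂μ

lemma V_succ (h : HS μ ℱ A) (n : ℕ) : V μ A (n + 1) ≤ V μ A n + (1 + (harmonic (n + 1) : ℝ)) / ((n : ℝ) + 2) ^ 2 := by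
  obtain ⟨c, hc0, hc⟩ := M_bd (A := A) n
  have hnpos : (0 : ℝ) < (n : ℝ) + 2 := by positivity
  have hYm := (Y_meas h.ad (n + 2))
  have hIm := ((I1_meas h.ad (n + 3)).mono (ℱ.le _))
  have hY := Y_abs (A := A) n
  have hI : ∀ ω, |I1 A (n + 3) ω| ≤ 1 := fun ω => by
    rw [abs_of_nonneg (I1_01 _ ω).1]; exact (I1_01 _ ω).2
  -- the four integrals
  have i1 := key_int h (show 2 ≤ n + 2 by omega) (f := fun ω => M A n ω * Y A (n + 2) ω)
    ((M_meas h.ad n).mul hYm) (c := c * ((n : ℝ) + 2)) (fun ω => by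
      rw [abs_mul]; exact mul_le_mul (hc ω) (hY ω) (abs_nonneg _) hc0)
  have i2 := key_int h (show 2 ≤ n + 2 by omega) (f := fun ω => Y A (n + 2) ω * Y A (n + 2) ω)
    (hYm.mul hYm) (c := ((n : ℝ) + 2) * ((n : ℝ) + 2)) (fun ω => by
      rw [abs_mul]; exact mul_le_mul (hY ω) (hY ω) (abs_nonneg _) hnpos.le)
  have i3 := key_int h (show 2 ≤ n + 2 by omega) hYm (c := ((n : ℝ) + 2)) hY
  have e1 : (fun ω => M A n ω * Y A (n + 2) ω * (Y A (n + 2) ω)⁻¹) = M A n := by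
    funext ω
    rw [mul_assoc, mul_inv_cancel₀ (Y_ne n ω), mul_one]
  have e2 : (fun ω => Y A (n + 2) ω * Y A (n + 2) ω * (Y A (n + 2) ω)⁻¹) = Y A (n + 2) := by
    funext ω
    rw [mul_assoc, mul_inv_cancel₀ (Y_ne n ω), mul_one]
  have e3 : (fun ω => Y A (n + 2) ω * (Y A (n + 2) ω)⁻¹) = fun _ => (1 : ℝ) := by
    funext ω
    rw [mul_inv_cancel₀ (Y_ne n ω)]
  rw [e1, M_mean h] at i1
  rw [e2, Y_mean h] at i2
  rw [e3, integral_const, probReal_univ, one_smul] at i3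
  have i1' : ∫ ω, M A n ω * Y A (n + 2) ω * I1 A (n + 3) ω ∂μ = 1 := i1
  have i2' : ∫ ω, Y A (n + 2) ω * Y A (n + 2) ω * I1 A (n + 3) ω ∂μ = 1 + (harmonic (n + 1) : ℝ) := i2
  have i3' : ∫ ω, Y A (n + 2) ω * I1 A (n + 3) ω ∂μ = 1 := i3
  -- integrability
  have hMm := (M_meas h.ad n).mono (ℱ.le (n + 2))
  have hYm' := hYm.mono (ℱ.le (n + 2))
  have j0 : Integrable (fun ω => M A n ω ^ 2) μ := int_bdd (hMm.pow 2) (c := c ^ 2) fun ω => by
    rw [abs_pow]; exact pow_le_pow_left₀ (abs_nonneg _) (hc ω) 2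
  have j1 : Integrable (fun ω => M A n ω * Y A (n + 2) ω * I1 A (n + 3) ω) μ :=
    int_bdd ((hMm.mul hYm').mul hIm) (c := c * ((n : ℝ) + 2) * 1) fun ω => by
      rw [abs_mul, abs_mul]
      exact mul_le_mul (mul_le_mul (hc ω) (hY ω) (abs_nonneg _) hc0) (hI ω) (abs_nonneg _) (by positivity)
  have j2 : Integrable (fun ω => Y A (n + 2) ω * Y A (n + 2) ω * I1 A (n + 3) ω) μ :=
    int_bdd ((hYm'.mul hYm').mul hIm) (c := ((n : ℝ) + 2) * ((n : ℝ) + 2) * 1) fun ω => by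
      rw [abs_mul, abs_mul]
      exact mul_le_mul (mul_le_mul (hY ω) (hY ω) (abs_nonneg _) hnpos.le) (hI ω) (abs_nonneg _) (by positivity)
  have j3 : Integrable (fun ω => Y A (n + 2) ω * I1 A (n + 3) ω) μ :=
    int_bdd (hYm'.mul hIm) (c := ((n : ℝ) + 2) * 1) fun ω => by
      rw [abs_mul]
      exact mul_le_mul (hY ω) (hI ω) (abs_nonneg _) hnpos.le
  have j4 : Integrable (M A n) μ := M_int h.ad n
  -- expansion
  set a : ℝ := 1 / ((n : ℝ) + 2) with ha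
  have hexp : ∀ ω, M A (n + 1) ω ^ 2 = M A n ω ^ 2 + 2 * a * (M A n ω * Y A (n + 2) ω * I1 A (n + 3) ω)
      - 2 * a * M A n ω + a ^ 2 * (Y A (n + 2) ω * Y A (n + 2) ω * I1 A (n + 3) ω)
      - 2 * a ^ 2 * (Y A (n + 2) ω * I1 A (n + 3) ω) + a ^ 2 := by
    intro ω
    have hsq := I1_sq (A := A) (n + 3) ω
    have e : M A (n + 1) ω = M A n ω + a * (Y A (n + 2) ω * I1 A (n + 3) ω - 1) := by
      rw [M_succ, ha]; ring
    rw [e]
    have e' : (M A n ω + a * (Y A (n + 2) ω * I1 A (n + 3) ω - 1)) ^ 2 = M A n ω ^ 2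
      + 2 * a * (M A n ω * Y A (n + 2) ω * I1 A (n + 3) ω)
      - 2 * a * M A n ω + a ^ 2 * (Y A (n + 2) ω * Y A (n + 2) ω * I1 A (n + 3) ω ^ 2)
      - 2 * a ^ 2 * (Y A (n + 2) ω * I1 A (n + 3) ω) + a ^ 2 := by ring
    rw [e', hsq]
  have hV : V μ A (n + 1) = V μ A n + 2 * a * 1 - 2 * a * 1 + a ^ 2 * (1 + (harmonic (n + 1) : ℝ))
      - 2 * a ^ 2 * 1 + a ^ 2 := by
    unfold V
    simp_rw [hexp]
    rw [integral_add, integral_sub, integral_add, integral_sub, integral_add, integral_const_mul,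
      integral_const_mul, integral_const_mul, integral_const_mul, i1', i2', i3', M_mean h, integral_const,
      probReal_univ, one_smul]
    · exact j0
    · exact j1.const_mul _
    · exact j0.add (j1.const_mul _)
    · exact j4.const_mul _
    · exact (j0.add (j1.const_mul _)).sub (j4.const_mul _)
    · exact j2.const_mul _
    · exact ((j0.add (j1.const_mul _)).sub (j4.const_mul _)).add (j2.const_mul _)
    · exact j3.const_mul _
    · exact (((j0.add (j1.const_mul _)).sub (j4.const_mul _)).add (j2.const_mul _)).sub (j3.const_mul _)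
    · exact integrable_const _
  rw [hV]
  have h5 : (1 + (harmonic (n + 1) : ℝ)) / ((n : ℝ) + 2) ^ 2 = a ^ 2 * (1 + (harmonic (n + 1) : ℝ)) := by
    rw [ha]; field_simp
  rw [h5]
  have : 0 ≤ a ^ 2 := sq_nonneg _
  linarith

lemma harm_le (n : ℕ) : 1 + (harmonic (n + 1) : ℝ) ≤ 2 * Real.sqrt ((n : ℝ) + 2) := by
  have h1 := harmonic_le_one_add_log (n + 1)
  have hp : (0 : ℝ) < (n : ℝ) + 2 := by positivity
  have h2 : Real.log ((n + 1 : ℕ) : ℝ) ≤ Real.log ((n : ℝ) + 2) := by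
    apply Real.log_le_log (by positivity)
    push_cast; linarith
  have h3 : Real.log ((n : ℝ) + 2) = 2 * Real.log (Real.sqrt ((n : ℝ) + 2)) := by
    rw [Real.log_sqrt hp.le]; ring
  have h4 := Real.log_le_sub_one_of_pos (Real.sqrt_pos.2 hp)
  linarith

lemma V_bd (h : HS μ ℱ A) : ∃ C : ℝ, 0 ≤ C ∧ ∀ n, V μ A n ≤ C := by
  set g : ℕ → ℝ := fun n => 2 * (1 / ((n + 2 : ℕ) : ℝ) ^ (3 / 2 : ℝ)) with hg
  have hs : Summable g := by
    have h1 : Summable (fun n : ℕ => 1 / (n : ℝ) ^ (3 / 2 : ℝ)) := Real.summable_one_div_nat_rpow.2 (by norm_num)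
    exact ((summable_nat_add_iff 2).2 h1).mul_left 2
  have hg0 : ∀ n, 0 ≤ g n := fun n => by positivity
  have hstep : ∀ n, V μ A (n + 1) ≤ V μ A n + g n := by
    intro n
    refine (V_succ h n).trans ?_
    have hp : (0 : ℝ) < (n : ℝ) + 2 := by positivity
    have h1 : (1 + (harmonic (n + 1) : ℝ)) / ((n : ℝ) + 2) ^ 2 ≤ g n := by
      rw [hg, div_le_iff₀ (by positivity)]
      refine (harm_le n).trans (le_of_eq ?_)
      push_cast
      rw [Real.sqrt_eq_rpow]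
      have e : ((n : ℝ) + 2) ^ (2 : ℕ) = ((n : ℝ) + 2) ^ (1 / 2 : ℝ) * ((n : ℝ) + 2) ^ (3 / 2 : ℝ) := by
        rw [← Real.rpow_add hp, ← Real.rpow_natCast]
        norm_num
      rw [e]
      field_simp
    linarith
  have hsum : ∀ n, V μ A n ≤ V μ A 0 + ∑ i ∈ Finset.range n, g i := by
    intro n
    induction n with
    | zero => simp
    | succ n ih => rw [Finset.sum_range_succ]; linarith [hstep n]
  have h0 : 0 ≤ V μ A 0 := integral_nonneg fun ω => sq_nonneg _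
  refine ⟨V μ A 0 + ∑' i, g i, add_nonneg h0 (tsum_nonneg hg0), fun n => (hsum n).trans ?_⟩
  have := hs.sum_le_tsum (Finset.range n) (fun i _ => hg0 i)
  linarith

/-- **the sieving product is `log n + O(1)`** -/
theorem conv (h : HS μ ℱ A) : ∀ᵐ ω ∂μ, ∃ c : ℝ, Tendsto (fun n : ℕ => Y A n ω - Real.log n) atTop (𝓝 c) := by
  obtain ⟨C, hC0, hC⟩ := V_bd h
  have hb : ∀ n, eLpNorm (M A n) 1 μ ≤ ((1 + C).toNNReal : ℝ≥0) := by
    intro n
    obtain ⟨c, _, hc⟩ := M_bd (A := A) n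
    rw [eLpNorm_one_eq_lintegral_enorm, ← ofReal_integral_norm_eq_lintegral_enorm (M_int h.ad n)]
    rw [ENNReal.ofReal_le_coe]
    rw [Real.coe_toNNReal _ (by linarith)]
    have hMm := (M_meas h.ad n).mono (ℱ.le (n + 2))
    have j0 : Integrable (fun ω => M A n ω ^ 2) μ := int_bdd (hMm.pow 2) (c := c ^ 2) fun ω => by
      rw [abs_pow]; exact pow_le_pow_left₀ (abs_nonneg _) (hc ω) 2
    calc ∫ ω, ‖M A n ω‖ ∂μ ≤ ∫ ω, (1 + M A n ω ^ 2) ∂μ := by
          apply integral_mono (M_int h.ad n).norm ((integrable_const _).add j0)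
          intro ω
          show ‖M A n ω‖ ≤ 1 + M A n ω ^ 2
          rw [Real.norm_eq_abs, ← sq_abs (M A n ω)]
          nlinarith [abs_nonneg (M A n ω), sq_nonneg (|M A n ω| - 1)]
      _ = 1 + V μ A n := by
          rw [integral_add (integrable_const _) j0, integral_const, probReal_univ, one_smul]
          rfl
      _ ≤ 1 + C := by linarith [hC n]
  have h1 := (mart h).submartingale.ae_tendsto_limitProcess hb
  filter_upwards [h1] with ω hω
  refine ⟨(F2 ℱ).limitProcess (M A) μ ω + Real.eulerMascheroniConstant, ?_⟩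
  have h2 : Tendsto (fun n : ℕ => (harmonic (n + 1) : ℝ) - Real.log ((n + 1 : ℕ) : ℝ)) atTop
      (𝓝 Real.eulerMascheroniConstant) := (tendsto_add_atTop_iff_nat 1).2 Real.tendsto_harmonic_sub_log
  have h3 : Tendsto (fun n : ℕ => Real.log ((n + 1 : ℕ) : ℝ) - Real.log ((n + 2 : ℕ) : ℝ)) atTop (𝓝 0) := by
    have h4 : Tendsto (fun n : ℕ => Real.log ((n : ℝ) / (n + 1))) atTop (𝓝 (Real.log 1)) :=
      (Real.continuousAt_log (by norm_num)).tendsto.comp (tendsto_natCast_div_add_atTop (1 : ℝ))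
    have h5 := (tendsto_add_atTop_iff_nat 1).2 h4
    rw [Real.log_one] at h5
    refine h5.congr fun n => ?_
    rw [Real.log_div (by positivity) (by positivity)]
    push_cast
    congr 2
    ring
  have h6 := (hω.add h2).add h3
  rw [add_zero] at h6
  rw [← tendsto_add_atTop_iff_nat 2]
  refine h6.congr fun n => ?_
  unfold M
  ring

/-- the hypothesis of the second order law -/
theorem hyp (h : HS μ ℱ A) : ∀ᵐ ω ∂μ, Tendsto (fun n : ℕ => ((dens μ ℱ A n ω)⁻¹ - Real.log n) /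
      Real.log (Real.log (Real.log n))) atTop (𝓝 0) := by
  have h1 : ∀ᵐ ω ∂μ, ∀ n, 2 ≤ n → dens μ ℱ A n ω = (Y A n ω)⁻¹ := by
    rw [ae_all_iff]
    intro n
    by_cases hn : 2 ≤ n
    · filter_upwards [h.sv n hn] with ω hω _
      exact hω
    · exact Eventually.of_forall fun ω h => absurd h hn
  filter_upwards [conv h, h1] with ω ⟨c, hc⟩ h2
  have h3 : Tendsto (fun n : ℕ => Real.log (Real.log (Real.log n))) atTop atTop := tendsto_lll
  have h4 := hc.div_atTop h3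
  refine h4.congr' ?_
  filter_upwards [eventually_ge_atTop 2] with n hn
  rw [h2 n hn, inv_inv]

end Pool.Agent.N740.HK
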