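import Mathlib
import Pool.Agent.N740.HK.IO2
import Pool.Agent.N740.HK.Hawk

/-!
# Laws for short intervals in sequential models
-/

set_option autoImplicit false
set_option linter.unusedSectionVars false

open MeasureTheory Filter Set
open scoped ENNReal Topology NNReal

namespace Pool.Agent.N740.HK

open Pool.Agent.R528.RM

variable {Ω : Type} {m0 : MeasurableSpace Ω} {μ : Measure Ω} [IsProbabilityMeasure μ]
  {ℱ : Filtration ℕ m0} {A : ℕ → Set Ω}

lemma II_lt {s s' : ℝ} (hs : 0 < s) (hs' : 0 < s') (hne : s' ≠ s) : II s + (s' - s) * Real.log s < II s' := by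
  have h1 : Real.log (s / s') < s / s' - 1 := Real.log_lt_sub_one_of_pos (by positivity) (by
    intro h
    rw [div_eq_one_iff_eq hs'.ne'] at h
    exact hne h.symm)
  rw [Real.log_div hs.ne' hs'.ne'] at h1
  have h2 := mul_lt_mul_of_pos_left h1 hs'
  have h3 : s' * (s / s' - 1) = s - s' := by field_simp
  rw [h3] at h2
  unfold II
  nlinarith

lemma II_one : II 1 = 0 := by unfold II; simp

lemma II_lt_one {s : ℝ} (hs : 0 < s) (hs1 : s < 1) : II s < 1 := by
  unfold II
  have := Real.log_neg hs hs1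
  nlinarith

lemma limsup_of {f : ℕ → ℝ} {s : ℝ} (h1 : ∀ s' > s, ∀ᶠ x in atTop, f x < s')
    (h2 : ∀ s' < s, ∃ᶠ x in atTop, s' < f x) : limsup f atTop = s := by
  have b1 : IsBoundedUnder (· ≤ ·) atTop f :=
    isBoundedUnder_of_eventually_le (a := s + 1) ((h1 (s + 1) (by linarith)).mono fun x hx => hx.le)
  have b2 : IsCoboundedUnder (· ≤ ·) atTop f :=
    IsCoboundedUnder.of_frequently_ge (a := s - 1) ((h2 (s - 1) (by linarith)).mono fun x hx => hx.le)
  apply le_antisymm
  · apply le_of_forall_gt_imp_ge_of_dense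
    intro s' hs'
    exact limsup_le_of_le b2 ((h1 s' hs').mono fun x hx => hx.le)
  · apply le_of_forall_lt_imp_le_of_dense
    intro s' hs'
    exact le_limsup_of_frequently_le ((h2 s' hs').mono fun x hx => hx.le) b1

lemma liminf_of {f : ℕ → ℝ} {s : ℝ} (h1 : ∀ s' < s, ∀ᶠ x in atTop, s' < f x)
    (h2 : ∀ s' > s, ∃ᶠ x in atTop, f x < s') : liminf f atTop = s := by
  have b1 : IsBoundedUnder (· ≥ ·) atTop f :=
    isBoundedUnder_of_eventually_ge (a := s - 1) ((h1 (s - 1) (by linarith)).mono fun x hx => hx.le)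
  have b2 : IsCoboundedUnder (· ≥ ·) atTop f :=
    IsCoboundedUnder.of_frequently_le (a := s + 1) ((h2 (s + 1) (by linarith)).mono fun x hx => hx.le)
  apply le_antisymm
  · apply le_of_forall_gt_imp_ge_of_dense
    intro s' hs'
    exact liminf_le_of_frequently_le ((h2 s' hs').mono fun x hx => hx.le) b1
  · apply le_of_forall_lt_imp_le_of_dense
    intro s' hs'
    exact le_liminf_of_le b2 ((h1 s' hs').mono fun x hx => hx.le)

lemma tendsto_logN : Tendsto (fun x : ℕ => Real.log x) atTop atTop :=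
  Real.tendsto_log_atTop.comp tendsto_natCast_atTop_atTop

/-- the ratio -/
noncomputable def rat (A : ℕ → Set Ω) (lam : ℝ) (ω : Ω) (x : ℕ) : ℝ :=
  (cnt A x (wl lam x) ω : ℝ) / (lam * Real.log x)

lemma io_near {lam s' s'' : ℝ} (hlam : 0 < lam) (hs' : 0 < s') {ω : Ω}
    (h : ∃ᶠ x : ℕ in atTop, cnt A x (wl lam x) ω = ⌊s' * lam * Real.log x⌋₊) :
    (s'' < s' → ∃ᶠ x : ℕ in atTop, s'' < rat A lam ω x) ∧
      (∃ᶠ x : ℕ in atTop, rat A lam ω x ≤ s') := by
  have h0 : ∀ᶠ x : ℕ in atTop, 0 < lam * Real.log x := by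
    filter_upwards [tendsto_logN.eventually_gt_atTop 0] with x hx
    positivity
  constructor
  · intro hss
    have h1 : ∀ᶠ x : ℕ in atTop, 1 < (s' - s'') * lam * Real.log x := by
      have hc : 0 < (s' - s'') * lam := mul_pos (by linarith) hlam
      filter_upwards [(tendsto_logN.const_mul_atTop hc).eventually_gt_atTop 1] with x hx using hx
    refine (h.and_eventually (h0.and h1)).mono fun x hx => ?_
    obtain ⟨hx1, hx2, hx3⟩ := hx
    unfold rat
    rw [lt_div_iff₀ hx2, hx1]
    have := Nat.lt_floor_add_one (s' * lam * Real.log x)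
    nlinarith
  · refine (h.and_eventually h0).mono fun x hx => ?_
    obtain ⟨hx1, hx2⟩ := hx
    unfold rat
    rw [div_le_iff₀ hx2, hx1]
    have : 0 ≤ s' * lam * Real.log x := by
      rw [mul_assoc]; exact mul_nonneg hs'.le hx2.le
    have := Nat.floor_le this
    nlinarith

theorem limsup_law (hA : ∀ n, MeasurableSet[ℱ n] (A n))
    (hd : ∀ᵐ ω ∂μ, Tendsto (fun n : ℕ => dens μ ℱ A n ω * Real.log n) atTop (𝓝 1))
    {lam s : ℝ} (hs : 1 < s) (hI : lam * II s = 1) :
    ∀ᵐ ω ∂μ, limsup (rat A lam ω) atTop = s := by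
  have hlam : 0 < lam := by
    have := II_pos (by linarith : 0 < s) hs.ne'
    by_contra hc
    push Not at hc
    nlinarith
  have hlogs := Real.log_pos hs
  set up : ℕ → ℝ := fun n => s + 1 / ((n : ℝ) + 1) with hup
  set dn : ℕ → ℝ := fun n => s - (s - 1) / ((n : ℝ) + 2) with hdn
  have up1 : ∀ n, s < up n := fun n => by
    have : (0 : ℝ) < 1 / ((n : ℝ) + 1) := by positivity
    simp only [hup]; linarith
  have dn1 : ∀ n, dn n < s := fun n => by
    have : (0 : ℝ) < (s - 1) / ((n : ℝ) + 2) := div_pos (by linarith) (by positivity)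
    simp only [hdn]; linarith
  have dn2 : ∀ n, 1 < dn n := fun n => by
    have : (s - 1) / ((n : ℝ) + 2) < s - 1 := by
      rw [div_lt_iff₀ (by positivity)]
      have : (0 : ℝ) ≤ n := Nat.cast_nonneg n
      nlinarith
    simp only [hdn]; linarith
  have upT : Tendsto up atTop (𝓝 s) := by
    have := (tendsto_one_div_add_atTop_nhds_zero_nat (𝕜 := ℝ)).const_add s
    simpa [hup] using this
  have dnT : Tendsto dn atTop (𝓝 s) := by
    have h1 : Tendsto (fun n : ℕ => (n : ℝ) + 2) atTop atTop :=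
      tendsto_atTop_add_const_right _ _ tendsto_natCast_atTop_atTop
    have h2 : Tendsto (fun n : ℕ => (s - 1) / ((n : ℝ) + 2)) atTop (𝓝 0) := tendsto_const_nhds.div_atTop h1
    have := h2.const_sub s
    simpa [hdn] using this
  have a1 : ∀ᵐ ω ∂μ, ∀ n, ∀ᶠ x : ℕ in atTop, (cnt A x (wl lam x) ω : ℝ) < up n * lam * Real.log x := by
    rw [ae_all_iff]
    intro n
    have hI' : 1 < lam * II (up n) := by
      have h1 := II_lt (by linarith : 0 < s) (by linarith [up1 n] : 0 < up n) (up1 n).ne'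
      have h2 : 0 < (up n - s) * Real.log s := mul_pos (by linarith [up1 n]) hlogs
      have h3 : II s < II (up n) := by linarith
      have := mul_lt_mul_of_pos_left h3 hlam
      linarith
    filter_upwards [windows hA hd hlam (by linarith [up1 n] : 0 < up n) hI'] with ω hω
    filter_upwards [hω] with x hx
    exact hx.1 (by linarith [up1 n])
  have a2 : ∀ᵐ ω ∂μ, ∀ n, ∃ᶠ x : ℕ in atTop, cnt A x (wl lam x) ω = ⌊dn n * lam * Real.log x⌋₊ := by
    rw [ae_all_iff]
    intro n
    have hI' : lam * II (dn n) < 1 := by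
      have h1 := II_lt (by linarith [dn2 n] : 0 < dn n) (by linarith : 0 < s) (dn1 n).ne'
      have h2 : 0 < (s - dn n) * Real.log (dn n) := mul_pos (by linarith [dn1 n]) (Real.log_pos (dn2 n))
      have h3 : II (dn n) < II s := by linarith
      have := mul_lt_mul_of_pos_left h3 hlam
      linarith
    exact cnt_io hA hd hlam (by linarith [dn2 n]) hI'
  filter_upwards [a1, a2] with ω h1 h2
  apply limsup_of
  · intro s' hs'
    obtain ⟨n, hn⟩ := (upT.eventually_lt_const hs').exists
    filter_upwards [h1 n, tendsto_logN.eventually_gt_atTop 0] with x hx hx0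
    have : 0 < lam * Real.log x := by positivity
    unfold rat
    rw [div_lt_iff₀ this]
    refine hx.trans ?_
    rw [mul_assoc]
    exact mul_lt_mul_of_pos_right hn this
  · intro s' hs'
    obtain ⟨n, hn⟩ := (dnT.eventually_const_lt hs').exists
    exact (io_near hlam (by linarith [dn2 n]) (h2 n)).1 hn

theorem liminf_law (hA : ∀ n, MeasurableSet[ℱ n] (A n))
    (hd : ∀ᵐ ω ∂μ, Tendsto (fun n : ℕ => dens μ ℱ A n ω * Real.log n) atTop (𝓝 1))
    {lam s : ℝ} (hs0 : 0 < s) (hs : s < 1) (hI : lam * II s = 1) :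
    ∀ᵐ ω ∂μ, liminf (rat A lam ω) atTop = s := by
  have hlam : 0 < lam := by
    have := II_pos hs0 hs.ne
    by_contra hc
    push Not at hc
    nlinarith
  have hlogs := Real.log_neg hs0 hs
  set dn : ℕ → ℝ := fun n => s - s / ((n : ℝ) + 2) with hdn
  set up : ℕ → ℝ := fun n => s + (1 - s) / ((n : ℝ) + 2) with hup
  have up1 : ∀ n, s < up n := fun n => by
    have : (0 : ℝ) < (1 - s) / ((n : ℝ) + 2) := div_pos (by linarith) (by positivity)
    simp only [hup]; linarith
  have up2 : ∀ n, up n < 1 := fun n => by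
    have : (1 - s) / ((n : ℝ) + 2) < 1 - s := by
      rw [div_lt_iff₀ (by positivity)]
      have : (0 : ℝ) ≤ n := Nat.cast_nonneg n
      nlinarith
    simp only [hup]; linarith
  have dn1 : ∀ n, dn n < s := fun n => by
    have : (0 : ℝ) < s / ((n : ℝ) + 2) := by positivity
    simp only [hdn]; linarith
  have dn2 : ∀ n, 0 < dn n := fun n => by
    have : s / ((n : ℝ) + 2) < s := by
      rw [div_lt_iff₀ (by positivity)]
      have : (0 : ℝ) ≤ n := Nat.cast_nonneg n
      nlinarith
    simp only [hdn]; linarith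
  have hT : Tendsto (fun n : ℕ => (n : ℝ) + 2) atTop atTop :=
    tendsto_atTop_add_const_right _ _ tendsto_natCast_atTop_atTop
  have upT : Tendsto up atTop (𝓝 s) := by
    have h2 : Tendsto (fun n : ℕ => (1 - s) / ((n : ℝ) + 2)) atTop (𝓝 0) := tendsto_const_nhds.div_atTop hT
    have := h2.const_add s
    simpa [hup] using this
  have dnT : Tendsto dn atTop (𝓝 s) := by
    have h2 : Tendsto (fun n : ℕ => s / ((n : ℝ) + 2)) atTop (𝓝 0) := tendsto_const_nhds.div_atTop hT
    have := h2.const_sub s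
    simpa [hdn] using this
  have a1 : ∀ᵐ ω ∂μ, ∀ n, ∀ᶠ x : ℕ in atTop, dn n * lam * Real.log x < (cnt A x (wl lam x) ω : ℝ) := by
    rw [ae_all_iff]
    intro n
    have hI' : 1 < lam * II (dn n) := by
      have h1 := II_lt hs0 (dn2 n) (dn1 n).ne
      have h2 : 0 < (dn n - s) * Real.log s := mul_pos_of_neg_of_neg (by linarith [dn1 n]) hlogs
      have h3 : II s < II (dn n) := by linarith
      have := mul_lt_mul_of_pos_left h3 hlam
      linarith
    filter_upwards [windows hA hd hlam (dn2 n) hI'] with ω hω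
    filter_upwards [hω] with x hx
    exact hx.2 (by linarith [dn1 n])
  have a2 : ∀ᵐ ω ∂μ, ∀ n, ∃ᶠ x : ℕ in atTop, cnt A x (wl lam x) ω = ⌊up n * lam * Real.log x⌋₊ := by
    rw [ae_all_iff]
    intro n
    have hI' : lam * II (up n) < 1 := by
      have h1 := II_lt (by linarith [up1 n] : 0 < up n) hs0 (up1 n).ne
      have h2 : 0 < (s - up n) * Real.log (up n) :=
        mul_pos_of_neg_of_neg (by linarith [up1 n]) (Real.log_neg (by linarith [up1 n]) (up2 n))
      have h3 : II (up n) < II s := by linarith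
      have := mul_lt_mul_of_pos_left h3 hlam
      linarith
    exact cnt_io hA hd hlam (by linarith [up1 n]) hI'
  filter_upwards [a1, a2] with ω h1 h2
  apply liminf_of
  · intro s' hs'
    obtain ⟨n, hn⟩ := (dnT.eventually_const_lt hs').exists
    filter_upwards [h1 n, tendsto_logN.eventually_gt_atTop 0] with x hx hx0
    have : 0 < lam * Real.log x := by positivity
    unfold rat
    rw [lt_div_iff₀ this]
    refine lt_trans ?_ hx
    rw [mul_assoc (dn n)]
    exact mul_lt_mul_of_pos_right hn this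
  · intro s' hs'
    obtain ⟨n, hn⟩ := (upT.eventually_lt_const hs').exists
    exact (io_near (s'' := 0) hlam (by linarith [up1 n]) (h2 n)).2.mono fun x hx => lt_of_le_of_lt hx hn

theorem liminf_zero (hA : ∀ n, MeasurableSet[ℱ n] (A n))
    (hd : ∀ᵐ ω ∂μ, Tendsto (fun n : ℕ => dens μ ℱ A n ω * Real.log n) atTop (𝓝 1))
    {lam : ℝ} (hlam : 0 < lam) (hl1 : lam ≤ 1) :
    ∀ᵐ ω ∂μ, liminf (rat A lam ω) atTop = 0 := by
  set up : ℕ → ℝ := fun n => 1 / ((n : ℝ) + 2) with hup
  have up1 : ∀ n, 0 < up n := fun n => by simp only [hup]; positivity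
  have up2 : ∀ n, up n < 1 := fun n => by
    simp only [hup]
    rw [div_lt_one (by positivity)]
    have : (0 : ℝ) ≤ n := Nat.cast_nonneg n
    linarith
  have hT : Tendsto (fun n : ℕ => (n : ℝ) + 2) atTop atTop :=
    tendsto_atTop_add_const_right _ _ tendsto_natCast_atTop_atTop
  have upT : Tendsto up atTop (𝓝 0) := tendsto_const_nhds.div_atTop hT
  have a2 : ∀ᵐ ω ∂μ, ∀ n, ∃ᶠ x : ℕ in atTop, cnt A x (wl lam x) ω = ⌊up n * lam * Real.log x⌋₊ := by
    rw [ae_all_iff]
    intro n
    have hI' : lam * II (up n) < 1 := by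
      have h1 := II_lt_one (up1 n) (up2 n)
      have h2 := II_nonneg (up1 n)
      nlinarith
    exact cnt_io hA hd hlam (up1 n) hI'
  filter_upwards [a2] with ω h2
  apply liminf_of
  · intro s' hs'
    filter_upwards [tendsto_logN.eventually_gt_atTop 0] with x hx0
    refine lt_of_lt_of_le hs' ?_
    unfold rat
    positivity
  · intro s' hs'
    obtain ⟨n, hn⟩ := (upT.eventually_lt_const hs').exists
    exact (io_near (s'' := 0) hlam (up1 n) (h2 n)).2.mono fun x hx => lt_of_le_of_lt hx hn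

/-- Hawkins' sieve is a sequential model -/
theorem hawk_dens (h : HS μ ℱ A) : ∀ᵐ ω ∂μ, Tendsto (fun n : ℕ => dens μ ℱ A n ω * Real.log n) atTop (𝓝 1) := by
  have h1 : ∀ᵐ ω ∂μ, ∀ n, 2 ≤ n → dens μ ℱ A n ω = (Y A n ω)⁻¹ := by
    rw [ae_all_iff]
    intro n
    by_cases hn : 2 ≤ n
    · filter_upwards [h.sv n hn] with ω hω _
      exact hω
    · exact Eventually.of_forall fun ω h => absurd h hn
  filter_upwards [conv h, h1] with ω ⟨c, hc⟩ h2
  have h3 : Tendsto (fun n : ℕ => 1 + (Y A n ω - Real.log n) / Real.log n) atTop (𝓝 (1 + 0)) :=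
    (hc.div_atTop tendsto_logN).const_add 1
  rw [add_zero] at h3
  have h4 := h3.inv₀ one_ne_zero
  rw [inv_one] at h4
  refine h4.congr' ?_
  filter_upwards [eventually_ge_atTop 2, tendsto_logN.eventually_gt_atTop 0] with n hn hL
  rw [h2 n hn]
  have e : 1 + (Y A n ω - Real.log n) / Real.log n = Y A n ω / Real.log n := by
    field_simp
    ring
  rw [e, inv_div]
  ring

end Pool.Agent.N740.HK
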