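import Mathlib
import Pool.Agent.N740.HK.Levy
import Pool.Agent.N740.HK.Lim
import Pool.Agent.R528.RM.Final
import Pool.Agent.R528.RM.BHEv

/-!
# Predictable targets
-/

set_option autoImplicit false
set_option linter.unusedSectionVars false

open MeasureTheory Filter Set
open scoped Topology

namespace Pool.Agent.N740.HK

open Pool.Agent.R528.RM

lemma inv_log_bd (n : ℕ) : |1 / Real.log n| ≤ 2 := by
  rcases Nat.lt_or_ge n 2 with h | h
  · interval_cases n <;> simp
  · have h2 : (2 : ℝ) ≤ n := by exact_mod_cast h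
    have h3 : Real.log 2 ≤ Real.log n := Real.log_le_log (by norm_num) h2
    have := Real.log_two_gt_d9
    rw [abs_of_nonneg (div_nonneg zero_le_one (by linarith)), div_le_iff₀ (by linarith)]
    linarith

/-- averages -/
lemma avg1 {b : ℕ → ℝ} {C β : ℝ} (hC : ∀ n, |b n| ≤ C) (h : Tendsto (fun n : ℕ => b n * Real.log n) atTop (𝓝 β)) :
    Tendsto (fun x : ℕ => (∑ n ∈ Finset.range x, b n) * Real.log x / x) atTop (𝓝 β) := by
  have h1 := avg_log hC 1 (β := β) (by simpa using h)
  have h2 : Tendsto (fun x : ℕ => (∑ n ∈ Finset.range x, (b n * Real.log x ^ 1 - β)) / x) atTop (𝓝 0) := by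
    refine squeeze_zero_norm (fun x => ?_) h1
    rw [norm_div, Real.norm_natCast]
    exact div_le_div_of_nonneg_right (norm_sum_le _ _) (Nat.cast_nonneg _)
  have h3 := h2.add_const β
  rw [zero_add] at h3
  refine h3.congr' ?_
  filter_upwards [eventually_gt_atTop 0] with x hx
  have hx' : (0 : ℝ) < x := by exact_mod_cast hx
  rw [Finset.sum_sub_distrib, Finset.sum_const, Finset.card_range, nsmul_eq_mul, pow_one, ← Finset.sum_mul]
  field_simp
  ring

lemma div_log_top : Tendsto (fun x : ℕ => (x : ℝ) / Real.log x) atTop atTop := by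
  have h1 : Tendsto (fun x : ℕ => Real.log x / x) atTop (𝓝 0) :=
    (Real.isLittleO_log_id_atTop.tendsto_div_nhds_zero).comp tendsto_natCast_atTop_atTop
  have h2 : Tendsto (fun x : ℕ => Real.log x / x) atTop (𝓝[>] 0) := by
    rw [tendsto_nhdsWithin_iff]
    refine ⟨h1, ?_⟩
    filter_upwards [eventually_ge_atTop 2] with x hx
    have h3 : (2 : ℝ) ≤ x := by exact_mod_cast hx
    exact div_pos (Real.log_pos (by linarith)) (by linarith)
  refine h2.inv_tendsto_nhdsGT_zero.congr fun x => ?_
  rw [Pi.inv_apply, inv_div]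

lemma sum_top {S : ℕ → ℝ} {β : ℝ} (hβ : 0 < β) (h : Tendsto (fun x : ℕ => S x * Real.log x / x) atTop (𝓝 β)) :
    Tendsto S atTop atTop := by
  have h1 := h.pos_mul_atTop hβ div_log_top
  refine h1.congr' ?_
  filter_upwards [eventually_ge_atTop 2] with x hx
  have h3 : (2 : ℝ) ≤ x := by exact_mod_cast hx
  have h4 : 0 < Real.log x := Real.log_pos (by linarith)
  field_simp

lemma inv_log_law : Tendsto (fun x : ℕ => (∑ n ∈ Finset.range x, 1 / Real.log n) * Real.log x / x) atTop (𝓝 1) := by
  apply avg1 (C := 2) inv_log_bd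
  refine tendsto_const_nhds.congr' ?_
  filter_upwards [eventually_ge_atTop 2] with x hx
  have h3 : (2 : ℝ) ≤ x := by exact_mod_cast hx
  have h4 : 0 < Real.log x := Real.log_pos (by linarith)
  field_simp

lemma ratio_shift (n₀ : ℕ) : Tendsto (fun N : ℕ => (N : ℝ) / ((N + n₀ : ℕ) : ℝ)) atTop (𝓝 1) := by
  have h4 : Tendsto (fun N : ℕ => 1 + (n₀ : ℝ) / N) atTop (𝓝 (1 + 0)) :=
    tendsto_const_nhds.add (tendsto_const_nhds.div_atTop tendsto_natCast_atTop_atTop)
  rw [add_zero] at h4
  have h5 := h4.inv₀ one_ne_zero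
  rw [inv_one] at h5
  refine h5.congr' ?_
  filter_upwards [eventually_gt_atTop 0] with N hN
  have hN' : (0 : ℝ) < N := by exact_mod_cast hN
  push_cast
  field_simp

lemma log_shift (n₀ : ℕ) : Tendsto (fun N : ℕ => Real.log ((N + n₀ : ℕ) : ℝ) / Real.log N) atTop (𝓝 1) := by
  have h5 : Tendsto (fun N : ℕ => 1 + (-Real.log ((N : ℝ) / ((N + n₀ : ℕ) : ℝ))) / Real.log N) atTop (𝓝 (1 + 0)) := by
    apply tendsto_const_nhds.add
    apply Tendsto.div_atTop (a := 0) _ tendsto_logN
    have h6 := ((Real.continuousAt_log one_ne_zero).tendsto.comp (ratio_shift n₀)).neg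
    rw [Real.log_one, neg_zero] at h6
    exact h6
  rw [add_zero] at h5
  refine h5.congr' ?_
  filter_upwards [eventually_ge_atTop 2] with N hN
  have hN' : (2 : ℝ) ≤ N := by exact_mod_cast hN
  have h4 : 0 < Real.log N := Real.log_pos (by linarith)
  have h6 : (0 : ℝ) < ((N + n₀ : ℕ) : ℝ) := by
    push_cast
    have : (0 : ℝ) ≤ n₀ := Nat.cast_nonneg _
    linarith
  rw [Real.log_div (by linarith) h6.ne']
  field_simp
  ring

lemma shift_dens {g : ℕ → ℝ} (n₀ : ℕ) {c d : ℝ}
    (h : Tendsto (fun N : ℕ => (∑ i ∈ Finset.range N, g (i + n₀)) * (d * Real.log N) / N) atTop (𝓝 c)) :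
    Tendsto (fun N : ℕ => (∑ i ∈ Finset.range N, g i) * (d * Real.log N) / N) atTop (𝓝 c) := by
  rw [← tendsto_add_atTop_iff_nat n₀]
  have h1 : Tendsto (fun x : ℕ => Real.log x / x) atTop (𝓝 0) :=
    (Real.isLittleO_log_id_atTop.tendsto_div_nhds_zero).comp tendsto_natCast_atTop_atTop
  have h2 : Tendsto (fun N : ℕ => Real.log ((N + n₀ : ℕ) : ℝ) / ((N + n₀ : ℕ) : ℝ)) atTop (𝓝 0) :=
    (tendsto_add_atTop_iff_nat (f := fun x : ℕ => Real.log x / x) n₀).2 h1
  have h3 := ratio_shift n₀
  have h4 := log_shift n₀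
  set C : ℝ := ∑ i ∈ Finset.range n₀, g i with hC
  have h5 := (h2.const_mul (C * d)).add ((h.mul h4).mul h3)
  rw [mul_zero, zero_add, mul_one, mul_one] at h5
  refine h5.congr' ?_
  filter_upwards [eventually_ge_atTop 2] with N hN
  have hN' : (2 : ℝ) ≤ N := by exact_mod_cast hN
  have h4 : 0 < Real.log N := Real.log_pos (by linarith)
  have h6 : (0 : ℝ) < ((N + n₀ : ℕ) : ℝ) := by
    push_cast
    have : (0 : ℝ) ≤ n₀ := Nat.cast_nonneg _
    linarith
  have h7 : ∑ i ∈ Finset.range (N + n₀), g i = C + ∑ i ∈ Finset.range N, g (i + n₀) := by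
    rw [add_comm N n₀, Finset.sum_range_add, hC]
    congr 1
    exact Finset.sum_congr rfl fun i _ => by rw [add_comm]
  rw [h7]
  field_simp

variable {Ω : Type} {m0 : MeasurableSpace Ω} {μ : Measure Ω} [IsProbabilityMeasure μ]
  {ℱ : Filtration ℕ m0} {A : ℕ → Set Ω}

/-- the number of chosen integers -/
theorem cnt_law (hA : ∀ n, MeasurableSet[ℱ n] (A n))
    (hd : ∀ᵐ ω ∂μ, Tendsto (fun n : ℕ => dens μ ℱ A n ω * Real.log n) atTop (𝓝 1)) :
    ∀ᵐ ω ∂μ, Tendsto (fun N : ℕ => (∑ n ∈ Finset.range N, J1 A (n + 1) ω) * Real.log N / N) atTop (𝓝 1) := by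
  have h0 := levy_log (μ := μ) hA hd (fun _ _ => 1) (fun n => @stronglyMeasurable_const _ _ (ℱ n) _ _)
    (fun _ _ => ⟨zero_le_one, le_rfl⟩)
  filter_upwards [h0] with ω h1
  have h2 := inv_log_law
  have h3 := sum_top one_pos h2
  have h4 := (h1 h3).mul h2
  rw [one_mul] at h4
  refine h4.congr' ?_
  filter_upwards [h3.eventually_gt_atTop 0] with N hN
  simp only [one_mul]
  field_simp

open Classical in
lemma sum_J1 (ω : Ω) (N : ℕ) : ∑ i ∈ Finset.range N, J1 A i ω = (Nat.count (fun i => ω ∈ A i) N : ℝ) := by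
  rw [Nat.count_eq_card_filter_range, Finset.card_filter]
  push_cast
  refine Finset.sum_congr rfl fun i _ => ?_
  unfold J1
  by_cases h : ω ∈ A i
  · rw [indicator_of_mem h, if_pos h]
  · rw [indicator_of_notMem h, if_neg h]

lemma inf_of_law {ω : Ω} (h : Tendsto (fun N : ℕ => (∑ n ∈ Finset.range N, J1 A (n + 1) ω) * Real.log N / N) atTop (𝓝 1)) :
    (rset A ω).Infinite := by
  intro hfin
  have h1 := sum_top one_pos h
  obtain ⟨b, hb⟩ := hfin.bddAbove
  obtain ⟨N, hN⟩ := (h1.eventually_gt_atTop (b : ℝ)).exists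
  have h2 : ∑ n ∈ Finset.range N, J1 A (n + 1) ω ≤ b := by
    calc ∑ n ∈ Finset.range N, J1 A (n + 1) ω ≤ ∑ n ∈ Finset.range N, (if n < b then (1 : ℝ) else 0) := by
          refine Finset.sum_le_sum fun n _ => ?_
          by_cases hn : n < b
          · rw [if_pos hn]; exact (J1_01 _ _).2
          · rw [if_neg hn]
            unfold J1
            rw [indicator_of_notMem]
            intro hmem
            have := hb (show n + 1 ∈ rset A ω from hmem)
            omega
      _ = ((Finset.range N).filter (fun n => n < b)).card := by rw [Finset.card_filter]; push_cast; rfl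
      _ ≤ b := by
          have : ((Finset.range N).filter (fun n => n < b)).card ≤ (Finset.range b).card :=
            Finset.card_le_card fun n hn => Finset.mem_range.2 (Finset.mem_filter.1 hn).2
          rw [Finset.card_range] at this
          exact_mod_cast this
  linarith

/-- the logarithm of the member number `n` -/
lemma log_pn {ω : Ω} (h : Tendsto (fun N : ℕ => (∑ n ∈ Finset.range N, J1 A (n + 1) ω) * Real.log N / N) atTop (𝓝 1)) :
    Tendsto (fun n : ℕ => Real.log (pn (rset A ω) n) / Real.log n) atTop (𝓝 1) := by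
  classical
  have hS := inf_of_law h
  have ht := tendsto_nth hS
  have h1 := h.comp ht
  set q : ℕ → ℕ := pn (rset A ω) with hq
  have h2 : ∀ n : ℕ, (n : ℝ) ≤ ∑ i ∈ Finset.range (q n), J1 A (i + 1) ω ∧
      ∑ i ∈ Finset.range (q n), J1 A (i + 1) ω ≤ n + 1 := by
    intro n
    have h3 : Nat.count (fun i => ω ∈ A i) (q n) = n := Nat.count_nth_of_infinite hS n
    have h4 : Nat.count (fun i => ω ∈ A i) (q n + 1) = n + 1 := by
      rw [Nat.count_succ, h3, if_pos (show ω ∈ A (q n) from nth_mem hS n)]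
    have h5 := sum_J1 (A := A) ω (q n + 1)
    rw [h4, Finset.sum_range_succ'] at h5
    push_cast at h5
    have h6 := J1_01 (A := A) 0 ω
    constructor <;> linarith
  -- n log q / q → 1
  have hlq : Tendsto (fun n : ℕ => Real.log (q n)) atTop atTop := tendsto_logN.comp ht
  have h3 : Tendsto (fun n : ℕ => (n : ℝ) * Real.log (q n) / q n) atTop (𝓝 1) := by
    have hz : Tendsto (fun n : ℕ => Real.log (q n) / q n) atTop (𝓝 0) :=
      ((Real.isLittleO_log_id_atTop.tendsto_div_nhds_zero).comp tendsto_natCast_atTop_atTop).comp ht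
    have hlow := h1.sub hz
    rw [sub_zero] at hlow
    refine tendsto_of_tendsto_of_tendsto_of_le_of_le' hlow h1 ?_ ?_
    · filter_upwards [hlq.eventually_gt_atTop 0, ht.eventually_gt_atTop 0] with n hn hn'
      have hn'' : (0 : ℝ) < q n := by exact_mod_cast hn'
      have := (h2 n).2
      simp only [Function.comp]
      rw [← sub_div]
      apply div_le_div_of_nonneg_right _ hn''.le
      nlinarith
    · filter_upwards [hlq.eventually_gt_atTop 0, ht.eventually_gt_atTop 0] with n hn hn'
      have hn'' : (0 : ℝ) < q n := by exact_mod_cast hn'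
      have := (h2 n).1
      simp only [Function.comp]
      apply div_le_div_of_nonneg_right _ hn''.le
      nlinarith
  have h4 := (Real.continuousAt_log one_ne_zero).tendsto.comp h3
  rw [Real.log_one] at h4
  have h5 : Tendsto (fun n : ℕ => Real.log (Real.log (q n)) / Real.log (q n)) atTop (𝓝 0) :=
    (Real.isLittleO_log_id_atTop.tendsto_div_nhds_zero).comp hlq
  have h6 : Tendsto (fun n : ℕ => Real.log n / Real.log (q n)) atTop (𝓝 1) := by
    have h7 := ((h4.div_atTop hlq).sub h5).add_const 1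
    rw [sub_zero, zero_add] at h7
    refine h7.congr' ?_
    filter_upwards [hlq.eventually_gt_atTop 0, ht.eventually_gt_atTop 0, eventually_gt_atTop 0] with n hn hn' hn0
    have hn'' : (0 : ℝ) < q n := by exact_mod_cast hn'
    have hn0' : (0 : ℝ) < n := by exact_mod_cast hn0
    simp only [Function.comp]
    rw [Real.log_div (by positivity) hn''.ne', Real.log_mul hn0'.ne' hn.ne']
    field_simp
    ring
  have h7 := h6.inv₀ one_ne_zero
  rw [inv_one] at h7
  refine h7.congr fun n => ?_
  rw [inv_div]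

/-- **predictable targets** -/
theorem targets (hA : ∀ n, MeasurableSet[ℱ n] (A n))
    (hd : ∀ᵐ ω ∂μ, Tendsto (fun n : ℕ => dens μ ℱ A n ω * Real.log n) atTop (𝓝 1))
    (B : ℕ → Set Ω) (hB : ∀ m, MeasurableSet[ℱ m] (B m)) :
    ∀ᵐ ω ∂μ, ∀ T : ℕ → ℕ, StrictMono T → (∀ n, 1 ≤ T n) → (∀ m, ω ∈ B m ↔ ∃ n, T n = m + 1) → ∀ d : ℝ, 0 < d →
      Tendsto (fun n : ℕ => Real.log (T n) / Real.log n) atTop (𝓝 d) →
      Tendsto (fun N : ℕ => (∑ n ∈ Finset.range N, J1 A (T n) ω) * (d * Real.log N) / N) atTop (𝓝 1) := by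
  classical
  have h0 := levy_log (μ := μ) hA hd (fun m => (B m).indicator (fun _ => (1 : ℝ)))
    (fun n => (@stronglyMeasurable_const _ _ (ℱ n) _ _).indicator (hB n))
    (fun n ω => by
      by_cases h : ω ∈ B n
      · rw [indicator_of_mem h]; norm_num
      · rw [indicator_of_notMem h]; norm_num)
  filter_upwards [h0] with ω h1
  intro T hT hT1 hBT d hd0 hlog
  have hTt : Tendsto T atTop atTop := hT.tendsto_atTop
  have hsum : ∀ (f : ℕ → ℝ) (N : ℕ), ∑ m ∈ Finset.range (T N - 1), (B m).indicator (fun _ => (1 : ℝ)) ω * f m =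
      ∑ n ∈ Finset.range N, f (T n - 1) := by
    intro f N
    have e1 : (Finset.range (T N - 1)).filter (fun m => ω ∈ B m) = (Finset.range N).image (fun n => T n - 1) := by
      ext m
      simp only [Finset.mem_filter, Finset.mem_range, Finset.mem_image]
      constructor
      · rintro ⟨hm, hm'⟩
        obtain ⟨n, hn⟩ := (hBT m).1 hm'
        refine ⟨n, ?_, by omega⟩
        rw [← hT.lt_iff_lt]
        omega
      · rintro ⟨n, hn, rfl⟩
        have h2 := hT hn
        have h3 := hT1 n
        refine ⟨by omega, (hBT _).2 ⟨n, by omega⟩⟩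
    rw [← Finset.sum_image (f := f) (g := fun n => T n - 1) (s := Finset.range N), ← e1, Finset.sum_filter]
    · refine Finset.sum_congr rfl fun m _ => ?_
      by_cases h : ω ∈ B m
      · rw [indicator_of_mem h, if_pos h, one_mul]
      · rw [indicator_of_notMem h, if_neg h, zero_mul]
    · intro a _ b _ hab
      have h2 := hT1 a
      have h3 := hT1 b
      apply hT.injective
      simp only at hab
      omega
  have hb : Tendsto (fun n : ℕ => 1 / Real.log ((T n - 1 : ℕ) : ℝ) * Real.log n) atTop (𝓝 (1 / d)) := by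
    have h2 : Tendsto (fun n : ℕ => Real.log ((T n - 1 : ℕ) : ℝ) / Real.log n) atTop (𝓝 d) := by
      have h3 : Tendsto (fun n : ℕ => (Real.log (T n) - Real.log ((T n - 1 : ℕ) : ℝ)) / Real.log n) atTop (𝓝 0) := by
        apply squeeze_zero_norm' _ ((tendsto_const_nhds (x := (1 : ℝ))).div_atTop tendsto_logN)
        filter_upwards [hTt.eventually_ge_atTop 2, eventually_ge_atTop 2] with n hn hn2
        have h4 : (2 : ℝ) ≤ T n := by exact_mod_cast hn
        have h5 : ((T n - 1 : ℕ) : ℝ) = T n - 1 := by rw [Nat.cast_sub (hT1 n)]; simp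
        have hn2' : (2 : ℝ) ≤ n := by exact_mod_cast hn2
        have hL : 0 < Real.log n := Real.log_pos (by linarith)
        rw [Real.norm_eq_abs, abs_div, abs_of_pos hL, h5]
        apply div_le_div_of_nonneg_right _ hL.le
        rw [abs_of_nonneg (sub_nonneg.2 (Real.log_le_log (by linarith) (by linarith)))]
        have h6 : Real.log (T n) ≤ Real.log (2 * ((T n : ℝ) - 1)) := Real.log_le_log (by linarith) (by linarith)
        rw [Real.log_mul (by norm_num) (by linarith)] at h6
        have := Real.log_two_lt_d9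
        linarith
      have h4 := hlog.sub h3
      rw [sub_zero] at h4
      refine h4.congr fun n => ?_
      ring
    have h3 := h2.inv₀ hd0.ne'
    rw [← one_div] at h3
    refine h3.congr fun n => ?_
    rw [inv_div]
    ring
  have hg := avg1 (C := 2) (fun n => inv_log_bd (T n - 1)) hb
  have hgt := sum_top (by positivity) hg
  have hT1t : Tendsto (fun N => T N - 1) atTop atTop := by
    apply tendsto_atTop_mono (f := fun N => N - 1)
    · intro N
      have := hT.id_le N
      simp only [id] at this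
      omega
    · exact tendsto_sub_atTop_nat 1
  have hdiv : Tendsto (fun M : ℕ => ∑ m ∈ Finset.range M, (B m).indicator (fun _ => (1 : ℝ)) ω / Real.log m) atTop atTop := by
    apply tendsto_atTop_of_monotone_of_subseq (φ := fun N => T N - 1) (l := atTop)
    · apply monotone_nat_of_le_succ
      intro M
      rw [Finset.sum_range_succ]
      have : 0 ≤ (B M).indicator (fun _ => (1 : ℝ)) ω / Real.log M :=
        div_nonneg (indicator_nonneg (fun _ _ => zero_le_one) _) (Real.log_natCast_nonneg _)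
      linarith
    · refine hgt.congr fun N => ?_
      have := hsum (fun m => 1 / Real.log m) N
      simp only [Function.comp]
      rw [← this]
      exact Finset.sum_congr rfl fun m _ => by ring
  have h2 := (h1 hdiv).comp hT1t
  have h3 := (h2.mul hg).mul_const d
  rw [one_mul, one_div, inv_mul_cancel₀ hd0.ne'] at h3
  refine h3.congr' ?_
  filter_upwards [hgt.eventually_gt_atTop 0] with N hN
  have e1 := hsum (fun m => 1 / Real.log m) N
  have e2 := hsum (fun m => J1 A (m + 1) ω) N
  have e3 : ∑ n ∈ Finset.range N, J1 A (T n - 1 + 1) ω = ∑ n ∈ Finset.range N, J1 A (T n) ω :=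
    Finset.sum_congr rfl fun n _ => by rw [Nat.sub_add_cancel (hT1 n)]
  rw [e3] at e2
  simp only [Function.comp]
  rw [e2]
  have e4 : ∑ m ∈ Finset.range (T N - 1), (B m).indicator (fun _ => (1 : ℝ)) ω / Real.log m =
      ∑ n ∈ Finset.range N, 1 / Real.log ((T n - 1 : ℕ) : ℝ) := by
    rw [← e1]
    exact Finset.sum_congr rfl fun m _ => by ring
  rw [e4]
  field_simp

end Pool.Agent.N740.HK
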