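import Mathlib
import Pool.Agent.N740.HK.Tgt

/-!
# Trials at deterministic times; the first chosen integer after a square
-/

set_option autoImplicit false
set_option linter.unusedSectionVars false

open MeasureTheory Filter Set
open scoped ENNReal Topology

namespace Pool.Agent.N740.HK

open Pool.Agent.R528.RM

variable {Ω : Type} {m0 : MeasurableSpace Ω} {μ : Measure Ω} [IsProbabilityMeasure μ]
  {ℱ : Filtration ℕ m0} {A : ℕ → Set Ω}

/-- no success in the trials `K, ..., K + n - 1` -/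
def RT (D : ℕ → Set Ω) (K : ℕ) : ℕ → Set Ω
  | 0 => univ
  | n + 1 => RT D K n \ D (K + n)

lemma RT_meas {s : ℕ → ℕ} (hs : Monotone s) {D : ℕ → Set Ω} (hD : ∀ k, MeasurableSet[ℱ (s (k + 1))] (D k)) (K n : ℕ) :
    MeasurableSet[ℱ (s (K + n))] (RT D K n) := by
  induction n with
  | zero => exact MeasurableSet.univ
  | succ n ih => exact (ℱ.mono (hs (by omega)) _ ih).diff (hD (K + n))

lemma RT_le {s : ℕ → ℕ} (hs : Monotone s) {D : ℕ → Set Ω} (hD : ∀ k, MeasurableSet[ℱ (s (k + 1))] (D k)) {p : ℕ → ℝ}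
    {K : ℕ} (hp : ∀ k, K ≤ k → ∀ C, MeasurableSet[ℱ (s k)] C → p k * μ.real C ≤ μ.real (C ∩ D k)) (n : ℕ) :
    μ.real (RT D K n) ≤ Real.exp (-∑ i ∈ Finset.range n, p (K + i)) := by
  induction n with
  | zero => simp [RT]
  | succ n ih =>
    have hC := RT_meas hs hD K n
    have h1 := hp (K + n) (by omega) _ hC
    have hD0 : MeasurableSet (D (K + n)) := ℱ.le _ _ (hD (K + n))
    have h2 := measureReal_inter_add_sdiff (μ := μ) (s := RT D K n) hD0
    have h3 : RT D K (n + 1) = RT D K n \ D (K + n) := rfl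
    have h4 : 0 ≤ μ.real (RT D K n) := measureReal_nonneg
    have h5 : 0 ≤ μ.real (RT D K n \ D (K + n)) := measureReal_nonneg
    have h6 : 1 - p (K + n) ≤ Real.exp (-p (K + n)) := by
      have := Real.add_one_le_exp (-p (K + n))
      linarith
    rw [h3, Finset.sum_range_succ, neg_add, Real.exp_add]
    calc μ.real (RT D K n \ D (K + n)) ≤ (1 - p (K + n)) * μ.real (RT D K n) := by linarith
      _ ≤ Real.exp (-p (K + n)) * μ.real (RT D K n) := mul_le_mul_of_nonneg_right h6 h4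
      _ ≤ Real.exp (-p (K + n)) * Real.exp (-∑ i ∈ Finset.range n, p (K + i)) :=
          mul_le_mul_of_nonneg_left ih (Real.exp_pos _).le
      _ = _ := mul_comm _ _

lemma not_mem_RT {D : ℕ → Set Ω} {K n : ℕ} {ω : Ω} (h : ω ∉ RT D K n) : ∃ k, K ≤ k ∧ ω ∈ D k := by
  induction n with
  | zero => exact absurd (mem_univ ω) h
  | succ n ih =>
    by_cases h1 : ω ∈ RT D K n
    · refine ⟨K + n, by omega, ?_⟩
      by_contra h2
      exact h ⟨h1, h2⟩
    · exact ih h1

/-- **trials at deterministic times** -/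
theorem trials_io {s : ℕ → ℕ} (hs : Monotone s) {D : ℕ → Set Ω} (hD : ∀ k, MeasurableSet[ℱ (s (k + 1))] (D k))
    {p : ℕ → ℝ} {k₀ : ℕ} (hp : ∀ k, k₀ ≤ k → ∀ C, MeasurableSet[ℱ (s k)] C → p k * μ.real C ≤ μ.real (C ∩ D k))
    (hsum : Tendsto (fun n => ∑ k ∈ Finset.range n, p k) atTop atTop) :
    ∀ᵐ ω ∂μ, ∀ K, ∃ k, K ≤ k ∧ ω ∈ D k := by
  have h1 : ∀ K, k₀ ≤ K → μ (⋂ n, RT D K n) = 0 := by
    intro K hK
    have h2 : ∀ n : ℕ, μ.real (⋂ n, RT D K n) ≤ Real.exp (-∑ i ∈ Finset.range n, p (K + i)) := fun n =>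
      (measureReal_mono (iInter_subset _ n)).trans (RT_le hs hD (fun k hk => hp k (hK.trans hk)) n)
    have h3 : Tendsto (fun n : ℕ => Real.exp (-∑ i ∈ Finset.range n, p (K + i))) atTop (𝓝 0) := by
      apply Real.tendsto_exp_neg_atTop_nhds_zero.comp
      have h5 := tendsto_atTop_add_const_left atTop (-∑ k ∈ Finset.range K, p k) (hsum.comp (tendsto_add_atTop_nat K))
      refine h5.congr fun n => ?_
      simp only [Function.comp]
      rw [add_comm n K, Finset.sum_range_add]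
      ring
    have h4 : μ.real (⋂ n, RT D K n) ≤ 0 := ge_of_tendsto' h3 h2
    have h5 : μ.real (⋂ n, RT D K n) = 0 := le_antisymm h4 measureReal_nonneg
    rw [measureReal_eq_zero_iff] at h5
    exact h5
  have h2 : ∀ᵐ ω ∂μ, ∀ K, k₀ ≤ K → ω ∉ ⋂ n, RT D K n := by
    rw [ae_all_iff]
    intro K
    by_cases hK : k₀ ≤ K
    · have := measure_eq_zero_iff_ae_notMem.1 (h1 K hK)
      filter_upwards [this] with ω hω _
      exact hω
    · exact Eventually.of_forall fun ω h => absurd h hK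
  filter_upwards [h2] with ω hω K
  have h3 := hω (max k₀ K) (le_max_left _ _)
  rw [mem_iInter, not_forall] at h3
  obtain ⟨n, hn⟩ := h3
  obtain ⟨k, hk, h4⟩ := not_mem_RT hn
  exact ⟨k, (le_max_right _ _).trans hk, h4⟩

/-- one window, from below -/
lemma win_lower (hA : ∀ n, MeasurableSet[ℱ n] (A n)) {δ L : ℝ} (hδ0 : 0 ≤ δ) (hδ1 : δ ≤ 1) (hL : 1 + δ ≤ L) {t g : ℕ}
    (h1 : L ≤ Real.log t) (h2 : Real.log ((t + g : ℕ) : ℝ) ≤ L + 1) {C : Set Ω} (hC : MeasurableSet[ℱ t] C) :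
    (1 - (1 + δ) / L) ^ g * μ.real C ≤ μ.real (C ∩ ({ω | cnt A t g ω = 0} ∪ WV (VF μ ℱ A δ) t g)) := by
  have hL0 : 0 < L := by linarith
  have hL1 : 1 ≤ L := by linarith
  have ht : 0 < t := by
    rcases Nat.eq_zero_or_pos t with h | h
    · rw [h, Nat.cast_zero, Real.log_zero] at h1
      linarith
    · exact h
  have h3 := cnt_ge (μ := μ) hA (V := VF μ ℱ A δ) (fun n => VF_meas δ n) (l := (1 - δ) / (L + 1)) (u := (1 + δ) / L)
    (div_nonneg (by linarith) (by linarith)) (by rw [div_le_one hL0]; exact hL)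
    (by
      rw [div_le_div_iff₀ (by linarith) hL0]
      nlinarith) g t (fun n hn1 hn2 ω hω => by
        have h4 : L ≤ Real.log n := h1.trans (Real.log_le_log (by exact_mod_cast ht) (by exact_mod_cast hn1))
        have h5 : Real.log n ≤ L + 1 := by
          refine le_trans (Real.log_le_log (by exact_mod_cast (by omega : 0 < n)) ?_) h2
          exact_mod_cast hn2.le
        exact VF_bounds hδ1 hL1 h4 h5 hω) 0 (Nat.zero_le _) C hC
  simpa using h3

/-- one window, from above -/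
lemma win_upper (hA : ∀ n, MeasurableSet[ℱ n] (A n)) {δ L : ℝ} (hδ0 : 0 ≤ δ) (hδ1 : δ ≤ 1) (hL : 1 + δ ≤ L) {t g : ℕ}
    (h1 : L ≤ Real.log t) (h2 : Real.log ((t + g : ℕ) : ℝ) ≤ L + 1) :
    μ.real ({ω | cnt A t g ω = 0} \ WV (VF μ ℱ A δ) t g) ≤ (1 - (1 - δ) / (L + 1)) ^ g := by
  have hL0 : 0 < L := by linarith
  have hL1 : 1 ≤ L := by linarith
  have ht : 0 < t := by
    rcases Nat.eq_zero_or_pos t with h | h
    · rw [h, Nat.cast_zero, Real.log_zero] at h1
      linarith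
    · exact h
  have h3 := cnt_le (μ := μ) hA (V := VF μ ℱ A δ) (fun n => VF_meas δ n) (l := (1 - δ) / (L + 1)) (u := (1 + δ) / L)
    (by rw [div_le_one (by linarith)]; linarith) (by positivity) g t (fun n hn1 hn2 ω hω => by
        have h4 : L ≤ Real.log n := h1.trans (Real.log_le_log (by exact_mod_cast ht) (by exact_mod_cast hn1))
        have h5 : Real.log n ≤ L + 1 := by
          refine le_trans (Real.log_le_log (by exact_mod_cast (by omega : 0 < n)) ?_) h2
          exact_mod_cast hn2.le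
        exact VF_bounds hδ1 hL1 h4 h5 hω) 0 univ (@MeasurableSet.univ _ (ℱ t))
  simpa using h3

open Classical in
lemma cnt_zero {t g : ℕ} {ω : Ω} : cnt A t g ω = 0 ↔ ∀ r, t < r → r ≤ t + g → ω ∉ A r := by
  unfold cnt
  rw [Finset.sum_eq_zero_iff]
  constructor
  · intro h r hr1 hr2 hr
    have := h (r - t - 1) (Finset.mem_range.2 (by omega))
    rw [show t + 1 + (r - t - 1) = r by omega, if_pos hr] at this
    exact one_ne_zero this
  · intro h r hr
    have hr := Finset.mem_range.1 hr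
    rw [if_neg (h (t + 1 + r) (by omega) (by omega))]

/-- the bounds for squares -/
lemma sq_facts {c : ℝ} (hc : 0 < c) : ∀ᶠ n : ℕ in atTop, 8 ≤ Real.log ((n ^ 2 : ℕ) : ℝ) ∧
    Real.log ((n ^ 2 : ℕ) : ℝ) = 2 * Real.log n ∧
    Real.log ((n ^ 2 + ⌊c * Real.log n ^ 2⌋₊ : ℕ) : ℝ) ≤ Real.log ((n ^ 2 : ℕ) : ℝ) + 1 ∧
    n ^ 2 + ⌊c * Real.log n ^ 2⌋₊ ≤ (n + 1) ^ 2 := by
  have h1 : ∀ᶠ x : ℝ in atTop, c * Real.log x ^ 2 ≤ x := by
    have h2 := (Real.isLittleO_pow_log_id_atTop (n := 2)).def (show (0 : ℝ) < 1 / c by positivity)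
    filter_upwards [h2, eventually_gt_atTop 0] with x hx hx0
    rw [Real.norm_of_nonneg (by positivity), id, Real.norm_of_nonneg hx0.le] at hx
    calc c * Real.log x ^ 2 ≤ c * (1 / c * x) := mul_le_mul_of_nonneg_left hx hc.le
      _ = x := by field_simp
  filter_upwards [tendsto_natCast_atTop_atTop.eventually h1, tendsto_logN.eventually_ge_atTop 4, eventually_ge_atTop 1] with n hn hn4 hn1
  have hn1' : (1 : ℝ) ≤ n := by exact_mod_cast hn1
  have e1 : Real.log ((n ^ 2 : ℕ) : ℝ) = 2 * Real.log n := by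
    push_cast
    rw [Real.log_pow]
    norm_num
  have hg : (⌊c * Real.log n ^ 2⌋₊ : ℝ) ≤ n := (Nat.floor_le (by positivity)).trans hn
  have hg' : ⌊c * Real.log n ^ 2⌋₊ ≤ n := by exact_mod_cast hg
  refine ⟨by rw [e1]; linarith, e1, ?_, by nlinarith⟩
  have h3 : ((n ^ 2 + ⌊c * Real.log n ^ 2⌋₊ : ℕ) : ℝ) ≤ 2 * ((n ^ 2 : ℕ) : ℝ) := by
    push_cast
    nlinarith
  have hpos : (0 : ℝ) < ((n ^ 2 : ℕ) : ℝ) := by positivity
  refine (Real.log_le_log (by push_cast; positivity) h3).trans ?_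
  rw [Real.log_mul (by norm_num) hpos.ne']
  have := Real.log_two_lt_d9
  linarith

/-- long gaps after infinitely many squares -/
theorem sq_lower (hA : ∀ n, MeasurableSet[ℱ n] (A n))
    (hd : ∀ᵐ ω ∂μ, Tendsto (fun n : ℕ => dens μ ℱ A n ω * Real.log n) atTop (𝓝 1)) {ε : ℝ} (hε : 0 < ε) (hε1 : ε ≤ 1) :
    ∀ᵐ ω ∂μ, ∃ᶠ n : ℕ in atTop, ∀ r : ℕ, n ^ 2 < r → (r : ℝ) ≤ n ^ 2 + (2 - ε) * Real.log n ^ 2 → ω ∉ A r := by
  set c : ℝ := 2 - ε with hc
  have hc0 : 0 < c := by linarith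
  set δ : ℝ := ε / 4 with hδ
  have hδ0 : 0 < δ := by positivity
  have hδ1 : δ ≤ 1 := by linarith
  set g : ℕ → ℕ := fun n => ⌊c * Real.log n ^ 2⌋₊ with hg
  set U : ℕ → Set Ω := fun n => {ω | cnt A (n ^ 2) (g n) ω = 0} ∪ WV (VF μ ℱ A δ) (n ^ 2) (g n) with hU
  obtain ⟨n₀, hn₀⟩ := eventually_atTop.1 (sq_facts hc0)
  set D : ℕ → Set Ω := fun n => if n₀ ≤ n then U n else ∅ with hD
  have hUm : ∀ n, MeasurableSet[ℱ (n ^ 2 + g n)] (U n) := fun n =>
    MeasurableSet.union (cnt_meas hA _ _ _) (WV_meas (fun n => VF_meas δ n) _ _)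
  have hs : Monotone (fun n : ℕ => n ^ 2) := fun a b hab => Nat.pow_le_pow_left hab 2
  have hDm : ∀ n, MeasurableSet[ℱ ((n + 1) ^ 2)] (D n) := by
    intro n
    simp only [hD]
    by_cases h : n₀ ≤ n
    · rw [if_pos h]
      exact ℱ.mono (hn₀ n h).2.2.2 _ (hUm n)
    · rw [if_neg h]
      exact @MeasurableSet.empty _ (ℱ ((n + 1) ^ 2))
  set p : ℕ → ℝ := fun n => (1 - (1 + δ) / Real.log ((n ^ 2 : ℕ) : ℝ)) ^ g n with hp
  have hpb : ∀ n, n₀ ≤ n → Real.exp (-2) * (1 / (n : ℝ)) ≤ p n := by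
    intro n hn
    obtain ⟨f1, f2, f3, f4⟩ := hn₀ n hn
    set L : ℝ := Real.log ((n ^ 2 : ℕ) : ℝ) with hL
    have hn0 : 0 < n := by
      rcases Nat.eq_zero_or_pos n with h | h
      · rw [hL, h] at f1
        norm_num at f1
      · exact h
    have hn0' : (0 : ℝ) < n := by exact_mod_cast hn0
    have hL1 : 0 < L - (1 + δ) := by linarith
    have hu : 0 < 1 - (1 + δ) / L := by
      rw [sub_pos, div_lt_one (by linarith)]
      linarith
    have h1 : -((1 + δ) / (L - (1 + δ))) ≤ Real.log (1 - (1 + δ) / L) := by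
      have h2 := Real.one_sub_inv_le_log_of_pos hu
      have h3 : 1 - (1 - (1 + δ) / L)⁻¹ = -((1 + δ) / (L - (1 + δ))) := by
        have : L - (1 + δ) ≠ 0 := hL1.ne'
        have h0 : L ≠ 0 := by linarith
        have h4 : (1 : ℝ) - (1 + δ) / L ≠ 0 := hu.ne'
        rw [eq_comm, ← sub_eq_zero]
        have h5 : 1 - (1 + δ) / L = (L - (1 + δ)) / L := by field_simp
        rw [h5, inv_div]
        field_simp
        ring
      rw [h3] at h2
      exact h2
    have hgl : (g n : ℝ) ≤ c * (L / 2) ^ 2 := by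
      have : (g n : ℝ) ≤ c * Real.log n ^ 2 := Nat.floor_le (by positivity)
      rw [f2]
      calc (g n : ℝ) ≤ c * Real.log n ^ 2 := this
        _ = _ := by ring
    have hmain : (g n : ℝ) * ((1 + δ) / (L - (1 + δ))) ≤ L / 2 + 2 := by
      have k1 : c * (1 + δ) ≤ 2 := by
        rw [hc, hδ]
        nlinarith
      have k2 : (g n : ℝ) * ((1 + δ) / (L - (1 + δ))) ≤ c * (L / 2) ^ 2 * ((1 + δ) / (L - (1 + δ))) :=
        mul_le_mul_of_nonneg_right hgl (by positivity)
      refine k2.trans ?_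
      have k3 : c * (L / 2) ^ 2 * ((1 + δ) / (L - (1 + δ))) = (c * (1 + δ)) * (L ^ 2 / (4 * (L - (1 + δ)))) := by
        field_simp
        ring
      rw [k3]
      have k4 : 0 ≤ L ^ 2 / (4 * (L - (1 + δ))) := by positivity
      refine (mul_le_mul_of_nonneg_right k1 k4).trans ?_
      rw [← mul_div_assoc, div_le_iff₀ (by positivity)]
      nlinarith
    have e1 : (1 - (1 + δ) / L) ^ g n = Real.exp (g n * Real.log (1 - (1 + δ) / L)) := by
      rw [← Real.log_pow, Real.exp_log (by positivity)]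
    show Real.exp (-2) * (1 / (n : ℝ)) ≤ (1 - (1 + δ) / L) ^ g n
    rw [e1]
    have e2 : 1 / (n : ℝ) = Real.exp (-(L / 2)) := by
      rw [f2, Real.exp_neg, one_div]
      congr 1
      rw [mul_div_cancel_left₀ _ (by norm_num), Real.exp_log hn0']
    rw [e2, ← Real.exp_add]
    apply Real.exp_le_exp.2
    have h5 : (g n : ℝ) * -((1 + δ) / (L - (1 + δ))) ≤ g n * Real.log (1 - (1 + δ) / L) :=
      mul_le_mul_of_nonneg_left h1 (Nat.cast_nonneg _)
    linarith
  have hsum : Tendsto (fun N => ∑ k ∈ Finset.range N, (if n₀ ≤ k then p k else 0)) atTop atTop := by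
    have h1 := (Real.tendsto_sum_range_one_div_nat_succ_atTop)
    have h2 : Tendsto (fun N => ∑ k ∈ Finset.range N, (Real.exp (-2) * (1 / ((k : ℝ) + 1)))) atTop atTop := by
      simp_rw [← Finset.mul_sum]
      exact h1.const_mul_atTop (Real.exp_pos _)
    have h3 : Tendsto (fun N => ∑ k ∈ Finset.range N, (if n₀ ≤ k + 1 then p (k + 1) else 0)) atTop atTop := by
      have h4 : ∀ N, ∑ k ∈ Finset.range N, (Real.exp (-2) * (1 / ((k : ℝ) + 1))) - n₀ ≤
          ∑ k ∈ Finset.range N, (if n₀ ≤ k + 1 then p (k + 1) else 0) := by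
        intro N
        have h5 : ∑ k ∈ Finset.range N, (Real.exp (-2) * (1 / ((k : ℝ) + 1))) ≤
            ∑ k ∈ Finset.range N, ((if n₀ ≤ k + 1 then p (k + 1) else 0) + if k + 1 < n₀ then (1 : ℝ) else 0) := by
          refine Finset.sum_le_sum fun k _ => ?_
          by_cases h : n₀ ≤ k + 1
          · rw [if_pos h, if_neg (by omega), add_zero]
            have := hpb (k + 1) h
            push_cast at this
            exact this
          · rw [if_neg h, if_pos (by omega), zero_add]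
            have h6 : Real.exp (-2) ≤ 1 := Real.exp_le_one_iff.2 (by norm_num)
            have h7 : 1 / ((k : ℝ) + 1) ≤ 1 := by
              rw [div_le_one (by positivity)]
              have : (0 : ℝ) ≤ k := Nat.cast_nonneg k
              linarith
            exact mul_le_one₀ h6 (by positivity) h7
        rw [Finset.sum_add_distrib] at h5
        have h6 : ∑ k ∈ Finset.range N, (if k + 1 < n₀ then (1 : ℝ) else 0) ≤ n₀ := by
          have e : ∑ k ∈ Finset.range N, (if k + 1 < n₀ then (1 : ℝ) else 0) =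
              (((Finset.range N).filter (fun k => k + 1 < n₀)).card : ℝ) := by
            rw [Finset.card_filter]
            push_cast
            rfl
          rw [e]
          have : ((Finset.range N).filter (fun k => k + 1 < n₀)).card ≤ (Finset.range n₀).card :=
            Finset.card_le_card fun k hk => Finset.mem_range.2 (by have := (Finset.mem_filter.1 hk).2; omega)
          rw [Finset.card_range] at this
          exact_mod_cast this
        linarith
      exact tendsto_atTop_mono h4 (tendsto_atTop_add_const_right _ _ h2)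
    rw [← tendsto_add_atTop_iff_nat 1]
    have h5 : ∀ N, ∑ k ∈ Finset.range (N + 1), (if n₀ ≤ k then p k else 0) =
        ∑ k ∈ Finset.range N, (if n₀ ≤ k + 1 then p (k + 1) else 0) + (if n₀ ≤ 0 then p 0 else 0) := fun N =>
      Finset.sum_range_succ' _ _
    simp_rw [h5]
    exact tendsto_atTop_add_const_right _ _ h3
  have hio := trials_io (μ := μ) (ℱ := ℱ) hs hDm (p := fun k => if n₀ ≤ k then p k else 0) (k₀ := n₀) (fun k hk C hC => by
    obtain ⟨f1, f2, f3, f4⟩ := hn₀ k hk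
    have := win_lower (μ := μ) hA (δ := δ) (L := Real.log ((k ^ 2 : ℕ) : ℝ)) hδ0.le hδ1 (by linarith) (t := k ^ 2) (g := g k) le_rfl f3 hC
    simp only [hD, if_pos hk]
    exact this) hsum
  filter_upwards [hio, hd] with ω h1 h2
  obtain ⟨m₀, hm₀⟩ := no_VF h2 hδ0
  rw [Filter.frequently_atTop]
  intro K
  obtain ⟨k, hk, hkD⟩ := h1 (max K (max m₀ (n₀ + 1)))
  have hk1 : K ≤ k := (le_max_left _ _).trans hk
  have hk2 : m₀ ≤ k := ((le_max_left _ _).trans (le_max_right _ _)).trans hk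
  have hk3 : n₀ + 1 ≤ k := ((le_max_right _ _).trans (le_max_right _ _)).trans hk
  refine ⟨k, hk1, ?_⟩
  simp only [hD, if_pos (show n₀ ≤ k by omega)] at hkD
  rcases hkD with h3 | ⟨n, hn1, _, hn3⟩
  · intro r hr1 hr2
    apply cnt_zero.1 h3 r hr1
    have h4 : ((r - k ^ 2 : ℕ) : ℝ) ≤ c * Real.log k ^ 2 := by
      rw [Nat.cast_sub hr1.le]
      push_cast
      linarith
    have h5 := Nat.le_floor h4
    have : g k = ⌊c * Real.log k ^ 2⌋₊ := rfl
    omega
  · exfalso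
    exact hm₀ n (by nlinarith) hn3

/-- no long gaps after large squares -/
theorem sq_upper (hA : ∀ n, MeasurableSet[ℱ n] (A n))
    (hd : ∀ᵐ ω ∂μ, Tendsto (fun n : ℕ => dens μ ℱ A n ω * Real.log n) atTop (𝓝 1)) {ε : ℝ} (hε : 0 < ε) (hε1 : ε ≤ 1) :
    ∀ᵐ ω ∂μ, ∀ᶠ n : ℕ in atTop, ∃ r : ℕ, n ^ 2 < r ∧ (r : ℝ) ≤ n ^ 2 + (2 + ε) * Real.log n ^ 2 ∧ ω ∈ A r := by
  set c : ℝ := 2 + ε with hc
  have hc0 : 0 < c := by linarith
  set δ : ℝ := ε / 12 with hδ
  have hδ0 : 0 < δ := by positivity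
  have hδ1 : δ ≤ 1 := by linarith
  set g : ℕ → ℕ := fun n => ⌊c * Real.log n ^ 2⌋₊ with hg
  have hprob : ∀ᶠ n : ℕ in atTop, μ.real ({ω | cnt A (n ^ 2) (g n) ω = 0} \ WV (VF μ ℱ A δ) (n ^ 2) (g n)) ≤
      Real.exp 2 * (1 / (n : ℝ) ^ (1 + ε / 4)) := by
    filter_upwards [sq_facts hc0, eventually_gt_atTop 0] with n hf hn0
    obtain ⟨f1, f2, f3, f4⟩ := hf
    have h1 := win_upper (μ := μ) hA (δ := δ) (L := Real.log ((n ^ 2 : ℕ) : ℝ)) hδ0.le hδ1 (by linarith) (t := n ^ 2) (g := g n) le_rfl f3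
    refine h1.trans ?_
    set L : ℝ := Real.log ((n ^ 2 : ℕ) : ℝ) with hL
    have hn0' : (0 : ℝ) < n := by exact_mod_cast hn0
    have h2 : (0 : ℝ) ≤ 1 - (1 - δ) / (L + 1) := by
      rw [sub_nonneg, div_le_one (by linarith)]
      linarith
    have h3 : 1 - (1 - δ) / (L + 1) ≤ Real.exp (-((1 - δ) / (L + 1))) := by
      have := Real.add_one_le_exp (-((1 - δ) / (L + 1)))
      linarith
    refine (pow_le_pow_left₀ h2 h3 _).trans ?_
    rw [← Real.exp_nat_mul]
    have e2 : 1 / (n : ℝ) ^ (1 + ε / 4) = Real.exp (-((1 + ε / 4) * (L / 2))) := by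
      rw [Real.rpow_def_of_pos hn0', one_div, ← Real.exp_neg, f2]
      congr 1
      ring
    rw [e2, ← Real.exp_add]
    apply Real.exp_le_exp.2
    have hgl : c * (L / 2) ^ 2 - 1 ≤ (g n : ℝ) := by
      have : c * Real.log n ^ 2 - 1 ≤ (g n : ℝ) := (Nat.sub_one_lt_floor _).le
      rw [f2]
      calc c * (2 * Real.log n / 2) ^ 2 - 1 = c * Real.log n ^ 2 - 1 := by ring
        _ ≤ _ := this
    have k1 : 2 + ε / 2 ≤ c * (1 - δ) := by
      rw [hc, hδ]
      nlinarith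
    have k2 : (c * (L / 2) ^ 2 - 1) * ((1 - δ) / (L + 1)) ≤ g n * ((1 - δ) / (L + 1)) :=
      mul_le_mul_of_nonneg_right hgl (div_nonneg (by linarith) (by linarith))
    have k3 : (2 + ε / 2) * ((L - 1) / 4) - 1 ≤ (c * (L / 2) ^ 2 - 1) * ((1 - δ) / (L + 1)) := by
      have k4 : (c * (L / 2) ^ 2 - 1) * ((1 - δ) / (L + 1)) = (c * (1 - δ)) * (L ^ 2 / (4 * (L + 1))) - (1 - δ) / (L + 1) := by
        field_simp
        ring
      rw [k4]
      have k5 : (1 - δ) / (L + 1) ≤ 1 := by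
        rw [div_le_one (by linarith)]
        linarith
      have k6 : (L - 1) / 4 ≤ L ^ 2 / (4 * (L + 1)) := by
        rw [div_le_div_iff₀ (by norm_num) (by linarith)]
        nlinarith
      have k7 : (2 + ε / 2) * ((L - 1) / 4) ≤ (c * (1 - δ)) * (L ^ 2 / (4 * (L + 1))) :=
        mul_le_mul k1 k6 (by linarith) (by linarith)
      linarith
    have k8 : (2 + ε / 2) * ((L - 1) / 4) = (1 + ε / 4) * (L / 2) - (1 + ε / 4) / 2 := by ring
    linarith
  have hsum : ∑' n : ℕ, μ ({ω | cnt A (n ^ 2) (g n) ω = 0} \ WV (VF μ ℱ A δ) (n ^ 2) (g n)) ≠ ∞ := by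
    have h1 : Summable (fun x : ℕ => Real.exp 2 * (1 / (x : ℝ) ^ (1 + ε / 4))) :=
      (Real.summable_one_div_nat_rpow.2 (by linarith)).mul_left _
    have h2 : Summable (fun n : ℕ => μ.real ({ω | cnt A (n ^ 2) (g n) ω = 0} \ WV (VF μ ℱ A δ) (n ^ 2) (g n))) := by
      refine Summable.of_norm_bounded_eventually_nat h1 ?_
      filter_upwards [hprob] with x hx
      rw [Real.norm_of_nonneg measureReal_nonneg]
      exact hx
    have h3 : ∑' n : ℕ, μ ({ω | cnt A (n ^ 2) (g n) ω = 0} \ WV (VF μ ℱ A δ) (n ^ 2) (g n)) =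
        ENNReal.ofReal (∑' n : ℕ, μ.real ({ω | cnt A (n ^ 2) (g n) ω = 0} \ WV (VF μ ℱ A δ) (n ^ 2) (g n))) := by
      rw [ENNReal.ofReal_tsum_of_nonneg (fun _ => measureReal_nonneg) h2]
      congr 1
      funext i
      exact (ofReal_measureReal (measure_ne_top _ _)).symm
    rw [h3]
    exact ENNReal.ofReal_ne_top
  filter_upwards [ae_eventually_notMem hsum, hd] with ω h1 h2
  obtain ⟨m₀, hm₀⟩ := no_VF h2 hδ0
  filter_upwards [h1, eventually_ge_atTop m₀] with n hn hnm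
  by_contra hcon
  push Not at hcon
  apply hn
  refine ⟨cnt_zero.2 fun r hr1 hr2 => hcon r hr1 ?_, ?_⟩
  · have h3 : ((g n : ℕ) : ℝ) ≤ c * Real.log n ^ 2 := Nat.floor_le (by positivity)
    have h4 : (r : ℝ) ≤ ((n ^ 2 + g n : ℕ) : ℝ) := by exact_mod_cast hr2
    push_cast at h4
    linarith
  · rintro ⟨m, hm1, _, hm3⟩
    exact hm₀ m (by nlinarith) hm3

/-- a lower bound for the function of Euler -/
lemma tot_odd (n : ℕ) (hn : Odd n) : n ≤ n.totient ^ 2 := by
  induction n using Nat.recOnPosPrimePosCoprime with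
  | zero => simp at hn
  | one => simp
  | prime_pow p k hp hk =>
    have hp2 : p ≠ 2 := by
      rintro rfl
      exact (Nat.not_odd_iff_even.2 (Nat.even_pow.2 ⟨even_two, hk.ne'⟩)) hn
    have hp3 : 3 ≤ p := by
      have := hp.two_le
      omega
    rw [Nat.totient_prime_pow hp hk]
    obtain ⟨j, rfl⟩ : ∃ j, k = j + 1 := ⟨k - 1, by omega⟩
    rw [Nat.add_sub_cancel, mul_pow, ← pow_mul, pow_succ]
    have h1 : p ^ j ≤ p ^ (j * 2) := Nat.pow_le_pow_right (by omega) (by omega)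
    have h2 : p ≤ (p - 1) ^ 2 := by
      obtain ⟨q, rfl⟩ : ∃ q, p = q + 3 := ⟨p - 3, by omega⟩
      have : q + 3 - 1 = q + 2 := by omega
      rw [this]
      nlinarith
    exact Nat.mul_le_mul h1 h2
  | coprime a b ha hb hab iha ihb =>
    rw [Nat.odd_mul] at hn
    rw [Nat.totient_mul hab, mul_pow]
    exact Nat.mul_le_mul (iha hn.1) (ihb hn.2)

lemma tot_lower (n : ℕ) (hn : 0 < n) : n ≤ 2 * n.totient ^ 2 := by
  obtain ⟨k, m, hm, rfl⟩ := Nat.exists_eq_two_pow_mul_odd hn.ne'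
  have h1 := tot_odd m hm
  rw [Nat.totient_mul (Nat.Coprime.pow_left k (Nat.coprime_two_left.2 hm))]
  rcases Nat.eq_zero_or_pos k with h | h
  · subst h
    simp
    omega
  · rw [Nat.totient_prime_pow Nat.prime_two h]
    obtain ⟨j, rfl⟩ : ∃ j, k = j + 1 := ⟨k - 1, by omega⟩
    simp only [Nat.add_sub_cancel]
    have h2 : 1 ≤ 2 ^ j := Nat.one_le_two_pow
    calc 2 ^ (j + 1) * m ≤ 2 ^ (j + 1) * m.totient ^ 2 := Nat.mul_le_mul_left _ h1
      _ = 2 * (2 ^ j * 1) * m.totient ^ 2 := by ring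
      _ ≤ 2 * (2 ^ j * 2 ^ j) * m.totient ^ 2 := by
          apply Nat.mul_le_mul_right
          apply Nat.mul_le_mul_left
          exact Nat.mul_le_mul_left _ h2
      _ = _ := by ring

end Pool.Agent.N740.HK
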