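import Mathlib
import Pool.Agent.N740.HK.Hawk

/-!
# Gaps of a random set in terms of real intervals; the model of Cramér
-/

set_option autoImplicit false
set_option linter.unusedSectionVars false

open MeasureTheory Filter Set ProbabilityTheory
open scoped ENNReal Topology NNReal

namespace Pool.Agent.N740.HK

open Pool.Agent.R528.RM

/-- `log² x + c log x log log log x` -/
noncomputable def FF (c x : ℝ) : ℝ := Real.log x ^ 2 + c * Real.log x * Real.log (Real.log (Real.log x))

lemma FF_mono {c x y : ℝ} (hc : 0 ≤ c) (hx : Real.exp (Real.exp 1) ≤ x) (hxy : x ≤ y) : FF c x ≤ FF c y := by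
  have h0 : 0 < x := (Real.exp_pos _).trans_le hx
  have h1 : Real.exp 1 ≤ Real.log x := by
    rw [Real.le_log_iff_exp_le h0]
    exact hx
  have h1' : 0 < Real.log x := (Real.exp_pos _).trans_le h1
  have h2 : 1 ≤ Real.log (Real.log x) := by
    rw [Real.le_log_iff_exp_le h1']
    exact h1
  have h3 : 0 ≤ Real.log (Real.log (Real.log x)) := Real.log_nonneg h2
  have h4 : Real.log x ≤ Real.log y := Real.log_le_log h0 hxy
  have h5 : Real.log (Real.log x) ≤ Real.log (Real.log y) := Real.log_le_log h1' h4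
  have h6 : Real.log (Real.log (Real.log x)) ≤ Real.log (Real.log (Real.log y)) :=
    Real.log_le_log (by linarith) h5
  unfold FF
  have h7 : Real.log x ^ 2 ≤ Real.log y ^ 2 := pow_le_pow_left₀ h1'.le h4 2
  have h8 : c * Real.log x * Real.log (Real.log (Real.log x)) ≤
      c * Real.log y * Real.log (Real.log (Real.log y)) :=
    mul_le_mul (mul_le_mul_of_nonneg_left h4 hc) h6 h3 (mul_nonneg hc (h1'.le.trans h4))
  linarith

lemma tendsto_L : Tendsto (fun x : ℝ => Real.log x * Real.log (Real.log (Real.log x))) atTop atTop :=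
  Real.tendsto_log_atTop.atTop_mul_atTop₀
    ((Real.tendsto_log_atTop.comp Real.tendsto_log_atTop).comp Real.tendsto_log_atTop)

/-- every large real number is followed by a member within the upper bound -/
theorem upper {S : Set ℕ} (hS : S.Infinite) {c c' : ℝ} (hc : 0 ≤ c) (hcc : c < c')
    (h : ∀ᶠ n in atTop, (gap S n : ℝ) < FF c (pn S n)) :
    ∀ᶠ x : ℝ in atTop, ∃ p ∈ S, x < (p : ℝ) ∧ (p : ℝ) < x + FF c' x := by
  have hbig : ∀ᶠ x : ℝ in atTop, 1 ≤ (c' - c) * (Real.log x * Real.log (Real.log (Real.log x))) :=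
    (tendsto_L.const_mul_atTop (show 0 < c' - c by linarith)).eventually_ge_atTop 1
  obtain ⟨N, hN⟩ := eventually_atTop.1 h
  have ht := tendsto_nth hS
  obtain ⟨N', hN'⟩ := eventually_atTop.1 (ht.eventually_ge_atTop ⌈Real.exp (Real.exp 1)⌉₊)
  filter_upwards [hbig, eventually_ge_atTop ((pn S (max N N') : ℕ) : ℝ)] with x hx1 hx2
  -- the last member up to x
  have hex : ∃ n, x < (pn S n : ℝ) := by
    have h1 := ht.eventually_gt_atTop ⌈x⌉₊
    obtain ⟨n, hn⟩ := h1.exists
    exact ⟨n, (Nat.le_ceil x).trans_lt (by exact_mod_cast hn)⟩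
  classical
  obtain ⟨k, hk⟩ : ∃ k, k = Nat.find hex := ⟨_, rfl⟩
  have hk1 : x < (pn S k : ℝ) := by rw [hk]; exact Nat.find_spec hex
  have hkM : max N N' < k := by
    by_contra hcon
    push Not at hcon
    have h1 : pn S k ≤ pn S (max N N') := (nth_mono hS).monotone hcon
    have h2 : (pn S k : ℝ) ≤ (pn S (max N N') : ℝ) := by exact_mod_cast h1
    linarith
  obtain ⟨n, rfl⟩ : ∃ n, k = n + 1 := ⟨k - 1, by omega⟩
  have hn1 : (pn S n : ℝ) ≤ x := by
    by_contra hcon
    push Not at hcon
    have := Nat.find_min' hex hcon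
    omega
  have hnN : N ≤ n := by omega
  have hnN' : N' ≤ n := by omega
  refine ⟨pn S (n + 1), nth_mem hS _, hk1, ?_⟩
  have h3 := hN n hnN
  have h4 : Real.exp (Real.exp 1) ≤ (pn S n : ℝ) :=
    (Nat.le_ceil _).trans (by exact_mod_cast hN' n hnN')
  have h5 := FF_mono hc h4 hn1
  have h6 : pn S (n + 1) = pn S n + (gap S n + 1) := by
    have h0 := nth_mono hS (Nat.lt_succ_self n)
    simp only [Nat.succ_eq_add_one] at h0
    unfold gap
    omega
  have h7 : (pn S (n + 1) : ℝ) = pn S n + (gap S n + 1) := by exact_mod_cast h6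
  rw [h7]
  have h8 : FF c' x = FF c x + (c' - c) * (Real.log x * Real.log (Real.log (Real.log x))) := by
    unfold FF
    ring
  linarith

/-- the long gaps give intervals without members -/
theorem lower {S : Set ℕ} (hS : S.Infinite) {c : ℝ}
    (h : ∃ᶠ n in atTop, FF c (pn S n) ≤ gap S n) :
    ∃ᶠ x : ℝ in atTop, ∀ p ∈ S, x < (p : ℝ) → x + FF c x < p := by
  have ht : Tendsto (fun n => (pn S n : ℝ)) atTop atTop := tendsto_natCast_atTop_atTop.comp (tendsto_nth hS)
  refine ht.frequently (h.mono fun n hn p hp hxp => ?_)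
  obtain ⟨m, hm⟩ := exists_nth hp
  have h1 : pn S n < p := by exact_mod_cast hxp
  have h2 : n < m := by
    rw [← (nth_mono hS).lt_iff_lt, hm]
    exact h1
  have h3 : pn S (n + 1) ≤ p := by
    rw [← hm]
    exact (nth_mono hS).monotone h2
  have h6 : pn S (n + 1) = pn S n + (gap S n + 1) := by
    have h0 := nth_mono hS (Nat.lt_succ_self n)
    simp only [Nat.succ_eq_add_one] at h0
    unfold gap
    omega
  have h7 : (pn S n : ℝ) + (gap S n + 1) ≤ p := by
    rw [h6] at h3
    exact_mod_cast h3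
  linarith

section Cramer

variable {Ω : Type} {m0 : MeasurableSpace Ω} {μ : Measure Ω} [IsProbabilityMeasure μ] {A : ℕ → Set Ω}

/-- the filtration generated by the events -/
def gen (hA : ∀ n, MeasurableSet (A n)) : Filtration ℕ m0 where
  seq n := ⨆ i ∈ {i : ℕ | i ≤ n}, MeasurableSpace.generateFrom {A i}
  mono' i j hij := by
    refine iSup₂_le fun k hk => ?_
    exact le_iSup₂_of_le k (le_trans hk hij) le_rfl
  le' n := by
    refine iSup₂_le fun k _ => ?_
    refine MeasurableSpace.generateFrom_le fun t ht => ?_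
    rw [mem_singleton_iff] at ht
    rw [ht]
    exact hA k

lemma gen_meas (hA : ∀ n, MeasurableSet (A n)) (n : ℕ) : MeasurableSet[gen hA n] (A n) := by
  have h1 : MeasurableSpace.generateFrom {A n} ≤ gen hA n :=
    le_iSup₂_of_le (f := fun i (_ : i ∈ {i : ℕ | i ≤ n}) => MeasurableSpace.generateFrom {A i}) n
      (show n ≤ n from le_rfl) le_rfl
  exact h1 _ (MeasurableSpace.measurableSet_generateFrom (mem_singleton _))

theorem dens_gen (hA : ∀ n, MeasurableSet (A n)) (hi : iIndepSet A μ) (n : ℕ) :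
    μ[(A (n + 1)).indicator (fun _ => (1 : ℝ)) | gen hA n] =ᵐ[μ] fun _ => (μ (A (n + 1))).toReal := by
  have h1 := (iIndepSet_iff_iIndep A μ).1 hi
  have hle : ∀ i, MeasurableSpace.generateFrom {A i} ≤ m0 := fun i => by
    refine MeasurableSpace.generateFrom_le fun t ht => ?_
    rw [mem_singleton_iff] at ht
    rw [ht]
    exact hA i
  have h2 : Indep (⨆ i ∈ ({n + 1} : Set ℕ), MeasurableSpace.generateFrom {A i})
      (⨆ i ∈ {i : ℕ | i ≤ n}, MeasurableSpace.generateFrom {A i}) μ := by
    refine indep_iSup_of_disjoint hle h1 ?_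
    rw [Set.disjoint_left]
    intro i hi1 hi2
    rw [mem_singleton_iff] at hi1
    have : i ≤ n := hi2
    omega
  rw [iSup_singleton] at h2
  have h3 : StronglyMeasurable[MeasurableSpace.generateFrom {A (n + 1)}]
      ((A (n + 1)).indicator (fun _ => (1 : ℝ))) :=
    stronglyMeasurable_const.indicator (MeasurableSpace.measurableSet_generateFrom (mem_singleton _))
  have h4 := condExp_indep_eq (hle (n + 1)) ((gen hA).le n) h3 h2
  refine h4.trans (Eventually.of_forall fun ω => ?_)
  show ∫ ω, (A (n + 1)).indicator (fun _ => (1 : ℝ)) ω ∂μ = _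
  rw [integral_indicator (hA _), setIntegral_const, smul_eq_mul, mul_one]
  rfl

end Cramer

end Pool.Agent.N740.HK
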