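import Mathlib
import Pool.Agent.N740.HK.Tgt

/-!
# Concentration for a sequence of predictable families of trials
-/

set_option autoImplicit false
set_option linter.unusedSectionVars false

open MeasureTheory Filter Set
open scoped ENNReal Topology

namespace Pool.Agent.N740.HK

open Pool.Agent.R528.RM

variable {Ω : Type} {m0 : MeasurableSpace Ω} {μ : Measure Ω} [IsProbabilityMeasure μ]
  {ℱ : Filtration ℕ m0} {A : ℕ → Set Ω}

/-- the exponent -/
noncomputable def SS (μ : Measure Ω) (ℱ : Filtration ℕ m0) (A : ℕ → Set Ω) (θ : ℝ) (w : ℕ → Ω → ℝ) (N : ℕ) (ω : Ω) : ℝ :=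
  ∑ t ∈ Finset.range N, (θ * (w t ω * (J1 A (t + 1) ω - DD' μ ℱ A t ω)) -
    (Real.exp θ - 1 - θ) * (w t ω * DD' μ ℱ A t ω))

lemma SS_meas (hA : ∀ n, MeasurableSet[ℱ n] (A n)) {θ : ℝ} {w : ℕ → Ω → ℝ} (hw : ∀ n, StronglyMeasurable[ℱ n] (w n)) (N : ℕ) :
    StronglyMeasurable[ℱ N] (SS μ ℱ A θ w N) := by
  have e : SS μ ℱ A θ w N = fun ω => ∑ t ∈ Finset.range N, (θ * (w t ω * (J1 A (t + 1) ω - DD' μ ℱ A t ω)) -
    (Real.exp θ - 1 - θ) * (w t ω * DD' μ ℱ A t ω)) := rfl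
  rw [e]
  refine Finset.stronglyMeasurable_fun_sum _ fun n hn => ?_
  have hn := Finset.mem_range.1 hn
  have h1 : StronglyMeasurable[ℱ N] (w n) := (hw n).mono (ℱ.mono hn.le)
  have h2 : StronglyMeasurable[ℱ N] (J1 A (n + 1)) := (J1_meas hA (n + 1)).mono (ℱ.mono hn)
  have h3 : StronglyMeasurable[ℱ N] (DD' μ ℱ A n) := (DD'_meas n).mono (ℱ.mono hn.le)
  exact ((h1.mul (h2.sub h3)).const_mul θ).sub ((h1.mul h3).const_mul _)

lemma phi_facts {θ : ℝ} (h : |θ| ≤ 1) : 0 ≤ Real.exp θ - 1 - θ ∧ Real.exp θ - 1 - θ ≤ θ ^ 2 := by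
  have h1 := Real.abs_exp_sub_one_sub_id_le h
  have h2 := Real.add_one_le_exp θ
  rw [abs_of_nonneg (by linarith)] at h1
  exact ⟨by linarith, h1⟩

lemma SS_abs {θ : ℝ} (hθ : |θ| ≤ 1) {w : ℕ → Ω → ℝ} (h01 : ∀ n ω, 0 ≤ w n ω ∧ w n ω ≤ 1) (N : ℕ) (ω : Ω) :
    |SS μ ℱ A θ w N ω| ≤ 2 * N := by
  unfold SS
  refine (Finset.abs_sum_le_sum_abs _ _).trans ?_
  have h0 : ∑ t ∈ Finset.range N, (2 : ℝ) = 2 * N := by simp [mul_comm]
  rw [← h0]
  refine Finset.sum_le_sum fun t _ => ?_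
  obtain ⟨f1, f2⟩ := phi_facts hθ
  have h1 := JD_abs (μ := μ) (ℱ := ℱ) (A := A) t ω
  have h2 := DD'_bd (μ := μ) (ℱ := ℱ) (A := A) t ω
  have h3 := h01 t ω
  have h4 : |θ * (w t ω * (J1 A (t + 1) ω - DD' μ ℱ A t ω))| ≤ 1 := by
    rw [abs_mul, abs_mul, abs_of_nonneg h3.1]
    exact mul_le_one₀ hθ (mul_nonneg h3.1 (abs_nonneg _)) (mul_le_one₀ h3.2 (abs_nonneg _) h1)
  have h5 : |(Real.exp θ - 1 - θ) * (w t ω * DD' μ ℱ A t ω)| ≤ 1 := by
    rw [abs_of_nonneg (mul_nonneg f1 (mul_nonneg h3.1 h2.1))]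
    have h6 : θ ^ 2 ≤ 1 := by rw [← sq_abs]; exact pow_le_one₀ (abs_nonneg _) hθ
    exact mul_le_one₀ (by linarith) (mul_nonneg h3.1 h2.1) (mul_le_one₀ h3.2 h2.1 h2.2)
  exact (abs_sub _ _).trans (by linarith)

lemma conv_exp {θ w : ℝ} (h0 : 0 ≤ w) (h1 : w ≤ 1) : Real.exp (θ * w) - 1 ≤ w * (Real.exp θ - 1) := by
  have h := convexOn_exp.2 (mem_univ (0 : ℝ)) (mem_univ θ) (show 0 ≤ 1 - w by linarith) h0 (by ring)
  simp only [smul_eq_mul, mul_zero, zero_add, Real.exp_zero, mul_one] at h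
  rw [mul_comm θ w]
  linarith

/-- the exponential moment -/
theorem SS_exp (hA : ∀ n, MeasurableSet[ℱ n] (A n)) {θ : ℝ} (hθ : |θ| ≤ 1) {w : ℕ → Ω → ℝ}
    (hw : ∀ n, StronglyMeasurable[ℱ n] (w n)) (h01 : ∀ n ω, 0 ≤ w n ω ∧ w n ω ≤ 1) (N : ℕ) :
    ∫ ω, Real.exp (SS μ ℱ A θ w N ω) ∂μ ≤ 1 := by
  induction N with
  | zero => simp [SS]
  | succ N ih =>
    set φ : ℝ := Real.exp θ - 1 - θ with hφ
    obtain ⟨f1, f2⟩ := phi_facts hθ
    set D : Ω → ℝ := DD' μ ℱ A N with hD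
    set a : Ω → ℝ := fun ω => Real.exp (SS μ ℱ A θ w N ω) * Real.exp (-((θ + φ) * (w N ω * D ω))) with ha
    set b : Ω → ℝ := fun ω => Real.exp (θ * w N ω) - 1 with hb
    have hSm : StronglyMeasurable[ℱ N] (SS μ ℱ A θ w N) := SS_meas hA hw N
    have hDm : StronglyMeasurable[ℱ N] D := DD'_meas N
    have ham : StronglyMeasurable[ℱ N] a :=
      (Real.continuous_exp.comp_stronglyMeasurable hSm).mul
        (Real.continuous_exp.comp_stronglyMeasurable (((hw N).mul hDm).const_mul (θ + φ)).neg)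
    have hbm : StronglyMeasurable[ℱ N] b :=
      (Real.continuous_exp.comp_stronglyMeasurable ((hw N).const_mul θ)).sub (@stronglyMeasurable_const _ _ (ℱ N) _ _)
    have hS1 : ∀ ω, Real.exp (SS μ ℱ A θ w N ω) ≤ Real.exp (2 * N) := fun ω =>
      Real.exp_le_exp.2 ((le_abs_self _).trans (SS_abs hθ h01 N ω))
    have hD1 : ∀ ω, 0 ≤ D ω ∧ D ω ≤ 1 := fun ω => DD'_bd N ω
    have hwD : ∀ ω, 0 ≤ w N ω * D ω ∧ w N ω * D ω ≤ 1 := fun ω =>
      ⟨mul_nonneg (h01 N ω).1 (hD1 ω).1, mul_le_one₀ (h01 N ω).2 (hD1 ω).1 (hD1 ω).2⟩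
    have habs := abs_le.1 hθ
    have hθ2 : θ ^ 2 ≤ 1 := by rw [← sq_abs]; exact pow_le_one₀ (abs_nonneg _) hθ
    have ha1 : ∀ ω, |a ω| ≤ Real.exp (2 * N) * Real.exp 2 := fun ω => by
      simp only [ha]
      rw [abs_of_nonneg (by positivity)]
      apply mul_le_mul (hS1 ω) _ (Real.exp_pos _).le (Real.exp_pos _).le
      apply Real.exp_le_exp.2
      have := hwD ω
      nlinarith
    have hb1 : ∀ ω, |b ω| ≤ 3 := fun ω => by
      simp only [hb]
      have h3 := h01 N ω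
      have h4 : θ * w N ω ≤ 1 := by nlinarith
      have h5 : Real.exp (θ * w N ω) ≤ Real.exp 1 := Real.exp_le_exp.2 h4
      have h6 := Real.exp_one_lt_d9
      have h7 := Real.exp_pos (θ * w N ω)
      rw [abs_le]
      constructor <;> linarith
    have e1 : ∀ ω, Real.exp (SS μ ℱ A θ w (N + 1) ω) = a ω + a ω * b ω * D ω + (a ω * b ω) * (J1 A (N + 1) ω - D ω) := by
      intro ω
      have e2 : SS μ ℱ A θ w (N + 1) ω = SS μ ℱ A θ w N ω + -((θ + φ) * (w N ω * D ω)) + θ * w N ω * J1 A (N + 1) ω := by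
        unfold SS
        rw [Finset.sum_range_succ]
        simp only [hD, hφ]
        ring
      rw [e2, Real.exp_add, Real.exp_add]
      have e3 : Real.exp (θ * w N ω * J1 A (N + 1) ω) = 1 + b ω * J1 A (N + 1) ω := by
        unfold J1
        by_cases h : ω ∈ A (N + 1)
        · rw [indicator_of_mem h]
          simp only [hb]
          ring_nf
        · rw [indicator_of_notMem h]
          simp
      rw [e3]
      simp only [ha]
      ring
    have hab1 : ∀ ω, |a ω * b ω| ≤ Real.exp (2 * N) * Real.exp 2 * 3 := fun ω => by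
      rw [abs_mul]
      exact mul_le_mul (ha1 ω) (hb1 ω) (abs_nonneg _) (by positivity)
    have k1 := jkey_int (μ := μ) hA (n := N) (f := fun ω => a ω * b ω) (ham.mul hbm) hab1
    have i1 : Integrable (fun ω => a ω + a ω * b ω * D ω) μ := by
      refine intb (c := Real.exp (2 * N) * Real.exp 2 + Real.exp (2 * N) * Real.exp 2 * 3) ?_ fun ω => ?_
      · exact ((ham.add ((ham.mul hbm).mul hDm))).mono (ℱ.le _)
      · refine (abs_add_le _ _).trans (add_le_add (ha1 ω) ?_)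
        rw [abs_mul]
        calc |a ω * b ω| * |D ω| ≤ (Real.exp (2 * N) * Real.exp 2 * 3) * 1 := by
              apply mul_le_mul (hab1 ω) _ (abs_nonneg _) (by positivity)
              rw [abs_of_nonneg (hD1 ω).1]
              exact (hD1 ω).2
          _ = _ := mul_one _
    have i2 : Integrable (fun ω => (a ω * b ω) * (J1 A (N + 1) ω - D ω)) μ := by
      refine intb (c := Real.exp (2 * N) * Real.exp 2 * 3) ?_ fun ω => ?_
      · exact ((ham.mul hbm).mono (ℱ.le _)).mul (((J1_meas hA (N + 1)).mono (ℱ.le _)).sub (hDm.mono (ℱ.le _)))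
      · rw [abs_mul]
        calc |a ω * b ω| * |J1 A (N + 1) ω - D ω| ≤ (Real.exp (2 * N) * Real.exp 2 * 3) * 1 :=
              mul_le_mul (hab1 ω) (JD_abs N ω) (abs_nonneg _) (by positivity)
          _ = _ := mul_one _
    have i3 : Integrable (fun ω => Real.exp (SS μ ℱ A θ w N ω)) μ := by
      refine intb (c := Real.exp (2 * N)) ((Real.continuous_exp.comp_stronglyMeasurable hSm).mono (ℱ.le _)) fun ω => ?_
      rw [abs_of_nonneg (Real.exp_pos _).le]
      exact hS1 ω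
    have e4 : ∫ ω, Real.exp (SS μ ℱ A θ w (N + 1) ω) ∂μ = ∫ ω, (a ω + a ω * b ω * D ω) ∂μ := by
      have e0 : (fun ω => Real.exp (SS μ ℱ A θ w (N + 1) ω)) =
          fun ω => (a ω + a ω * b ω * D ω) + (a ω * b ω) * (J1 A (N + 1) ω - D ω) := funext e1
      rw [e0]
      have := integral_add i1 i2
      rw [this, k1, add_zero]
    rw [e4]
    refine le_trans (integral_mono i1 i3 fun ω => ?_) ih
    show a ω + a ω * b ω * D ω ≤ Real.exp (SS μ ℱ A θ w N ω)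
    have h3 := h01 N ω
    have h4 := hD1 ω
    have h5 : b ω * D ω ≤ w N ω * (Real.exp θ - 1) * D ω :=
      mul_le_mul_of_nonneg_right (conv_exp h3.1 h3.2) h4.1
    have h6 : 1 + b ω * D ω ≤ Real.exp ((θ + φ) * (w N ω * D ω)) := by
      have := Real.add_one_le_exp ((θ + φ) * (w N ω * D ω))
      have e5 : (θ + φ) * (w N ω * D ω) = w N ω * (Real.exp θ - 1) * D ω := by
        rw [hφ]
        ring
      linarith
    have h7 : a ω * Real.exp ((θ + φ) * (w N ω * D ω)) = Real.exp (SS μ ℱ A θ w N ω) := by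
      simp only [ha]
      rw [mul_assoc, ← Real.exp_add, neg_add_cancel, Real.exp_zero, mul_one]
    calc a ω + a ω * b ω * D ω = a ω * (1 + b ω * D ω) := by ring
      _ ≤ a ω * Real.exp ((θ + φ) * (w N ω * D ω)) := mul_le_mul_of_nonneg_left h6 (by simp only [ha]; positivity)
      _ = _ := h7

lemma tail_one (hA : ∀ n, MeasurableSet[ℱ n] (A n)) {θ : ℝ} (hθ : |θ| ≤ 1) {w : ℕ → Ω → ℝ}
    (hw : ∀ n, StronglyMeasurable[ℱ n] (w n)) (h01 : ∀ n ω, 0 ≤ w n ω ∧ w n ω ≤ 1) (N n : ℕ) (hn : 0 < n) :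
    μ.real {ω | 2 * Real.log n ≤ SS μ ℱ A θ w N ω} ≤ 1 / (n : ℝ) ^ 2 := by
  have hn' : (0 : ℝ) < n := by exact_mod_cast hn
  have i3 : Integrable (fun ω => Real.exp (SS μ ℱ A θ w N ω)) μ := by
    refine intb (c := Real.exp (2 * N)) ((Real.continuous_exp.comp_stronglyMeasurable (SS_meas hA hw N)).mono (ℱ.le _)) fun ω => ?_
    rw [abs_of_nonneg (Real.exp_pos _).le]
    exact Real.exp_le_exp.2 ((le_abs_self _).trans (SS_abs hθ h01 N ω))
  have h1 := mul_meas_ge_le_integral_of_nonneg (Eventually.of_forall fun ω => (Real.exp_pos (SS μ ℱ A θ w N ω)).le) i3 ((n : ℝ) ^ 2)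
  have h2 : {ω | (n : ℝ) ^ 2 ≤ Real.exp (SS μ ℱ A θ w N ω)} = {ω | 2 * Real.log n ≤ SS μ ℱ A θ w N ω} := by
    ext ω
    simp only [mem_ofPred_eq]
    rw [← Real.log_le_iff_le_exp (by positivity), Real.log_pow]
    norm_num
  rw [h2] at h1
  have h3 := SS_exp (μ := μ) hA hθ hw h01 N
  rw [le_div_iff₀ (by positivity)]
  linarith

/-- **concentration for a sequence of predictable families of trials** -/
theorem conc (hA : ∀ n, MeasurableSet[ℱ n] (A n)) {ε : ℝ} (hε : 0 < ε) (w : ℕ → ℕ → Ω → ℝ) (E : ℕ → ℕ)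
    (hw : ∀ n t, StronglyMeasurable[ℱ t] (w n t)) (h01 : ∀ n t ω, 0 ≤ w n t ω ∧ w n t ω ≤ 1) :
    ∀ᵐ ω ∂μ, ∀ᶠ n : ℕ in atTop,
      |∑ t ∈ Finset.range (E n), w n t ω * J1 A (t + 1) ω - ∑ t ∈ Finset.range (E n), w n t ω * dens μ ℱ A t ω| ≤
        ε * (∑ t ∈ Finset.range (E n), w n t ω * dens μ ℱ A t ω) + (2 / min 1 ε) * Real.log n := by
  set θ : ℝ := min 1 ε with hθ
  have hθ0 : 0 < θ := lt_min one_pos hε
  have hθ1 : |θ| ≤ 1 := by rw [abs_of_pos hθ0]; exact min_le_left _ _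
  have hθ1' : |-θ| ≤ 1 := by rwa [abs_neg]
  have hsum : ∀ η : ℝ, |η| ≤ 1 → ∀ᵐ ω ∂μ, ∀ᶠ n : ℕ in atTop, SS μ ℱ A η (w n) (E n) ω < 2 * Real.log n := by
    intro η hη
    have hs : ∑' n : ℕ, μ {ω | 2 * Real.log n ≤ SS μ ℱ A η (w n) (E n) ω} ≠ ∞ := by
      have h1 : Summable (fun n : ℕ => 1 / (n : ℝ) ^ 2) := Real.summable_one_div_nat_pow.2 (by norm_num)
      have h2 : Summable (fun n : ℕ => μ.real {ω | 2 * Real.log n ≤ SS μ ℱ A η (w n) (E n) ω}) := by
        refine Summable.of_norm_bounded_eventually_nat h1 ?_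
        filter_upwards [eventually_gt_atTop 0] with n hn
        rw [Real.norm_of_nonneg measureReal_nonneg]
        exact tail_one hA hη (hw n) (h01 n) (E n) n hn
      have h3 : ∑' n : ℕ, μ {ω | 2 * Real.log n ≤ SS μ ℱ A η (w n) (E n) ω} =
          ENNReal.ofReal (∑' n : ℕ, μ.real {ω | 2 * Real.log n ≤ SS μ ℱ A η (w n) (E n) ω}) := by
        rw [ENNReal.ofReal_tsum_of_nonneg (fun _ => measureReal_nonneg) h2]
        congr 1
        funext i
        exact (ofReal_measureReal (measure_ne_top _ _)).symm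
      rw [h3]
      exact ENNReal.ofReal_ne_top
    filter_upwards [ae_eventually_notMem hs] with ω hω
    filter_upwards [hω] with n hn
    simpa using hn
  filter_upwards [hsum θ hθ1, hsum (-θ) hθ1', DD'_ae (μ := μ) hA] with ω h1 h2 h3
  filter_upwards [h1, h2] with n h4 h5
  have e0 : ∀ t, dens μ ℱ A t ω = DD' μ ℱ A t ω := fun t => (h3 t).symm
  simp_rw [e0]
  set V : ℝ := ∑ t ∈ Finset.range (E n), w n t ω * DD' μ ℱ A t ω with hV
  set M : ℝ := ∑ t ∈ Finset.range (E n), w n t ω * J1 A (t + 1) ω with hM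
  have hV0 : 0 ≤ V := Finset.sum_nonneg fun t _ => mul_nonneg (h01 n t ω).1 (DD'_bd t ω).1
  have e1 : ∀ η : ℝ, SS μ ℱ A η (w n) (E n) ω = η * (M - V) - (Real.exp η - 1 - η) * V := by
    intro η
    unfold SS
    rw [Finset.sum_sub_distrib, ← Finset.mul_sum, ← Finset.mul_sum, hM, hV]
    congr 1
    rw [← Finset.sum_sub_distrib]
    congr 1
    exact Finset.sum_congr rfl fun t _ => by ring
  rw [e1] at h4 h5
  obtain ⟨f1, f2⟩ := phi_facts hθ1
  obtain ⟨f3, f4⟩ := phi_facts hθ1'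
  have f5 : θ ^ 2 ≤ θ * ε := by rw [sq]; exact mul_le_mul_of_nonneg_left (min_le_right _ _) hθ0.le
  have g1 : (Real.exp θ - 1 - θ) * V ≤ θ * ε * V := mul_le_mul_of_nonneg_right (f2.trans f5) hV0
  have g2 : (Real.exp (-θ) - 1 - -θ) * V ≤ θ * ε * V := by
    apply mul_le_mul_of_nonneg_right _ hV0
    rw [neg_sq] at f4
    exact f4.trans f5
  rw [abs_le]
  have h6 : θ * ((2 / θ) * Real.log n) = 2 * Real.log n := by field_simp
  constructor
  · have h7 : θ * (-(ε * V + 2 / θ * Real.log n)) ≤ θ * (M - V) := by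
      rw [mul_neg, mul_add, h6]
      linarith
    exact le_of_mul_le_mul_left h7 hθ0
  · have h7 : θ * (M - V) ≤ θ * (ε * V + 2 / θ * Real.log n) := by
      rw [mul_add, h6]
      linarith
    exact le_of_mul_le_mul_left h7 hθ0

/-- concentration in terms of a profile `ρ` of the density -/
theorem conc_rho (hA : ∀ n, MeasurableSet[ℱ n] (A n)) {ρ : ℕ → ℝ} (hρ0 : ∀ n, 0 ≤ ρ n) (hρ1 : ∃ c, ∀ n, ρ n ≤ c)
    (hd : ∀ᵐ ω ∂μ, ∀ ε : ℝ, 0 < ε → ∀ᶠ n : ℕ in atTop, |dens μ ℱ A n ω - ρ n| ≤ ε * ρ n)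
    (w : ℕ → ℕ → Ω → ℝ) (E : ℕ → ℕ)
    (hw : ∀ n t, StronglyMeasurable[ℱ t] (w n t)) (h01 : ∀ n t ω, 0 ≤ w n t ω ∧ w n t ω ≤ 1) :
    ∀ᵐ ω ∂μ, ∀ ε : ℝ, 0 < ε → ∃ C : ℝ, ∀ᶠ n : ℕ in atTop,
      |∑ t ∈ Finset.range (E n), w n t ω * J1 A (t + 1) ω - ∑ t ∈ Finset.range (E n), w n t ω * ρ t| ≤
        ε * (∑ t ∈ Finset.range (E n), w n t ω * ρ t) + C * Real.log n := by
  obtain ⟨c, hc⟩ := hρ1
  set e : ℕ → ℝ := fun k => 1 / ((k : ℝ) + 1) with he
  have he0 : ∀ k, 0 < e k := fun k => by simp only [he]; positivity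
  have hall : ∀ᵐ ω ∂μ, ∀ k, ∀ᶠ n : ℕ in atTop,
      |∑ t ∈ Finset.range (E n), w n t ω * J1 A (t + 1) ω - ∑ t ∈ Finset.range (E n), w n t ω * dens μ ℱ A t ω| ≤
        e k * (∑ t ∈ Finset.range (E n), w n t ω * dens μ ℱ A t ω) + (2 / min 1 (e k)) * Real.log n :=
    ae_all_iff.2 fun k => conc hA (he0 k) w E hw h01
  filter_upwards [hall, hd, DD'_ae (μ := μ) hA] with ω h1 h2 h3
  intro ε hε
  -- choose `k` with `e k` small
  obtain ⟨k, hk⟩ : ∃ k : ℕ, e k ≤ min (ε / 4) 1 := by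
    obtain ⟨k, hk⟩ := exists_nat_gt (1 / min (ε / 4) 1)
    refine ⟨k, ?_⟩
    have hm : 0 < min (ε / 4) 1 := lt_min (by positivity) one_pos
    simp only [he]
    rw [div_le_iff₀ (by positivity)]
    rw [div_lt_iff₀ hm] at hk
    nlinarith
  have hk1 : e k ≤ ε / 4 := hk.trans (min_le_left _ _)
  have hk2 : e k ≤ 1 := hk.trans (min_le_right _ _)
  obtain ⟨t₀, ht₀⟩ := eventually_atTop.1 (h2 (e k) (he0 k))
  have hD1 : ∀ t, 0 ≤ dens μ ℱ A t ω ∧ dens μ ℱ A t ω ≤ 1 := fun t => by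
    rw [← h3 t]
    exact DD'_bd t ω
  have hc0 : 0 ≤ c := (hρ0 0).trans (hc 0)
  -- the comparison of the compensators
  have hcmp : ∀ n, |∑ t ∈ Finset.range (E n), w n t ω * dens μ ℱ A t ω - ∑ t ∈ Finset.range (E n), w n t ω * ρ t| ≤
      e k * (∑ t ∈ Finset.range (E n), w n t ω * ρ t) + t₀ * (1 + c) := by
    intro n
    rw [← Finset.sum_sub_distrib]
    refine (Finset.abs_sum_le_sum_abs _ _).trans ?_
    have h4 : ∀ t ∈ Finset.range (E n), |w n t ω * dens μ ℱ A t ω - w n t ω * ρ t| ≤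
        e k * (w n t ω * ρ t) + (if t < t₀ then (1 + c) else 0) := by
      intro t _
      have h5 := h01 n t ω
      rw [← mul_sub, abs_mul, abs_of_nonneg h5.1]
      by_cases ht : t < t₀
      · rw [if_pos ht]
        have h6 : |dens μ ℱ A t ω - ρ t| ≤ 1 + c := by
          rw [abs_le]
          have := hD1 t
          have := hρ0 t
          have := hc t
          constructor <;> linarith
        have h7 : w n t ω * |dens μ ℱ A t ω - ρ t| ≤ 1 * (1 + c) :=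
          mul_le_mul h5.2 h6 (abs_nonneg _) zero_le_one
        have h8 : 0 ≤ e k * (w n t ω * ρ t) := mul_nonneg (he0 k).le (mul_nonneg h5.1 (hρ0 t))
        linarith
      · rw [if_neg ht, add_zero]
        have h6 := ht₀ t (by omega)
        calc w n t ω * |dens μ ℱ A t ω - ρ t| ≤ w n t ω * (e k * ρ t) := mul_le_mul_of_nonneg_left h6 h5.1
          _ = _ := by ring
    refine (Finset.sum_le_sum h4).trans ?_
    rw [Finset.sum_add_distrib, ← Finset.mul_sum]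
    apply add_le_add le_rfl
    rw [← Finset.sum_filter, Finset.sum_const, nsmul_eq_mul]
    apply mul_le_mul_of_nonneg_right _ (by linarith)
    have : ((Finset.range (E n)).filter (fun t => t < t₀)).card ≤ (Finset.range t₀).card :=
      Finset.card_le_card fun t ht => Finset.mem_range.2 (Finset.mem_filter.1 ht).2
    rw [Finset.card_range] at this
    exact_mod_cast this
  refine ⟨2 / min 1 (e k) + 1, ?_⟩
  filter_upwards [h1 k, tendsto_logN.eventually_ge_atTop (2 * (t₀ * (1 + c)))] with n h4 h5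
  have h6 := hcmp n
  set V := ∑ t ∈ Finset.range (E n), w n t ω * dens μ ℱ A t ω with hV
  set U := ∑ t ∈ Finset.range (E n), w n t ω * ρ t with hU
  set M := ∑ t ∈ Finset.range (E n), w n t ω * J1 A (t + 1) ω with hM
  have hU0 : 0 ≤ U := Finset.sum_nonneg fun t _ => mul_nonneg (h01 n t ω).1 (hρ0 t)
  have hT : 0 ≤ (t₀ : ℝ) * (1 + c) := by positivity
  have h7 := abs_le.1 h6
  have h8 : V ≤ 2 * U + t₀ * (1 + c) := by
    have : e k * U ≤ 1 * U := mul_le_mul_of_nonneg_right hk2 hU0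
    linarith [h7.2]
  have h9 : e k * V ≤ e k * (2 * U + t₀ * (1 + c)) := mul_le_mul_of_nonneg_left h8 (he0 k).le
  have h10 : e k * (t₀ * (1 + c)) ≤ 1 * (t₀ * (1 + c)) := mul_le_mul_of_nonneg_right hk2 hT
  have h11 : |M - U| ≤ |M - V| + |V - U| := abs_sub_le _ _ _
  have h12 : e k * U ≤ ε / 4 * U := mul_le_mul_of_nonneg_right hk1 hU0
  rw [add_mul, one_mul]
  nlinarith

/-- concentration in a sequential model -/
theorem conc_log (hA : ∀ n, MeasurableSet[ℱ n] (A n))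
    (hd : ∀ᵐ ω ∂μ, Tendsto (fun n : ℕ => dens μ ℱ A n ω * Real.log n) atTop (𝓝 1))
    (w : ℕ → ℕ → Ω → ℝ) (E : ℕ → ℕ)
    (hw : ∀ n t, StronglyMeasurable[ℱ t] (w n t)) (h01 : ∀ n t ω, 0 ≤ w n t ω ∧ w n t ω ≤ 1) :
    ∀ᵐ ω ∂μ, ∀ ε : ℝ, 0 < ε → ∃ C : ℝ, ∀ᶠ n : ℕ in atTop,
      |∑ t ∈ Finset.range (E n), w n t ω * J1 A (t + 1) ω - ∑ t ∈ Finset.range (E n), w n t ω / Real.log t| ≤
        ε * (∑ t ∈ Finset.range (E n), w n t ω / Real.log t) + C * Real.log n := by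
  have h := conc_rho (μ := μ) hA (ρ := fun t : ℕ => 1 / Real.log t) (fun t => div_nonneg zero_le_one (Real.log_natCast_nonneg t))
    ⟨2, fun t => (le_abs_self _).trans (inv_log_bd t)⟩ (by
      filter_upwards [hd] with ω hω
      intro ε hε
      have h1 := hω.eventually (Metric.ball_mem_nhds 1 hε)
      filter_upwards [h1, eventually_ge_atTop 3] with n hn hn3
      have hn3' : (3 : ℝ) ≤ n := by exact_mod_cast hn3
      have hL : 0 < Real.log n := Real.log_pos (by linarith)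
      have hn : dist (dens μ ℱ A n ω * Real.log n) 1 < ε := hn
      rw [Real.dist_eq] at hn
      have e1 : dens μ ℱ A n ω - 1 / Real.log n = (dens μ ℱ A n ω * Real.log n - 1) / Real.log n := by
        field_simp
      rw [e1, abs_div, abs_of_pos hL, mul_one_div]
      exact div_le_div_of_nonneg_right hn.le hL.le) w E hw h01
  filter_upwards [h] with ω hω
  intro ε hε
  obtain ⟨C, hC⟩ := hω ε hε
  refine ⟨C, ?_⟩
  filter_upwards [hC] with n hn
  simpa only [mul_one_div] using hn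

end Pool.Agent.N740.HK
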