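import Mathlib
import Pool.Agent.N740.PA.FL

/-!
# Sieving an interval at a slowly varying level
-/

set_option autoImplicit false
set_option linter.unusedSectionVars false

open Filter Topology

namespace Pool.Agent.N740.HK

/-- no prime factor at most `z` -/
def Free (z n : ℕ) : Prop := ∀ p : ℕ, p.Prime → p ≤ z → ¬ p ∣ n

noncomputable instance (z n : ℕ) : Decidable (Free z n) := Classical.propDecidable _

/-- `∏ (1 - 1/p)`, `p ≤ z` -/
noncomputable def GG (z : ℕ) : ℝ := ∏ p ∈ (Finset.Icc 1 z).filter Nat.Prime, (1 - 1 / (p : ℝ))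

lemma fac_pos {p : ℕ} (hp : p.Prime) : 0 < 1 - 1 / (p : ℝ) := by
  have : (2 : ℝ) ≤ p := by exact_mod_cast hp.two_le
  rw [sub_pos, div_lt_one (by linarith)]
  linarith

lemma GG_pos (z : ℕ) : 0 < GG z := Finset.prod_pos fun p hp => fac_pos (Finset.mem_filter.1 hp).2

lemma GG_le_one (z : ℕ) : GG z ≤ 1 := by
  refine Finset.prod_le_one (fun p hp => (fac_pos (Finset.mem_filter.1 hp).2).le) fun p _ => ?_
  have : (0 : ℝ) ≤ 1 / (p : ℝ) := by positivity
  linarith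

lemma GG_lower : ∀ z : ℕ, 1 ≤ z → 1 / (z : ℝ) ≤ GG z := by
  intro z hz
  induction z, hz using Nat.le_induction with
  | base =>
    have : (Finset.Icc 1 1).filter Nat.Prime = ∅ := by decide
    unfold GG
    rw [this]
    simp
  | succ z hz ih =>
    have hz' : (0 : ℝ) < z := by exact_mod_cast hz
    have e : (Finset.Icc 1 (z + 1)) = insert (z + 1) (Finset.Icc 1 z) := by
      ext m
      simp only [Finset.mem_Icc, Finset.mem_insert]
      omega
    have h1 : GG z * (1 - 1 / ((z + 1 : ℕ) : ℝ)) ≤ GG (z + 1) := by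
      unfold GG
      rw [e, Finset.filter_insert]
      split_ifs with hp
      · rw [Finset.prod_insert (by simp), mul_comm]
      · refine mul_le_of_le_one_right (GG_pos z).le ?_
        have : (0 : ℝ) ≤ 1 / ((z + 1 : ℕ) : ℝ) := by positivity
        linarith
    refine le_trans ?_ h1
    have h2 : 1 / ((z + 1 : ℕ) : ℝ) = 1 / (z : ℝ) * (1 - 1 / ((z + 1 : ℕ) : ℝ)) := by
      push_cast
      field_simp
      ring
    refine h2.le.trans (mul_le_mul_of_nonneg_right ih ?_)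
    rw [sub_nonneg, div_le_one (by positivity)]
    push_cast
    linarith

lemma modEq_count (y h d r : ℕ) (hd : 1 ≤ d) :
    |∑ m ∈ (Finset.Ioc y (y + h)).filter (fun m => m ≡ r [MOD d]), (1 : ℝ) - (h : ℝ) / (d : ℝ)| ≤ 1 := by
  have h1 := Nat.Ioc_filter_modEq_card y (y + h) hd r
  rw [Finset.sum_const, nsmul_eq_mul, mul_one]
  set N : ℕ := ((Finset.Ioc y (y + h)).filter (fun m => m ≡ r [MOD d])).card with hN
  have hd' : (0 : ℚ) < d := by exact_mod_cast hd
  set A : ℚ := ((y + h : ℕ) - (r : ℚ)) / (d : ℚ) with hA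
  set B : ℚ := ((y : ℚ) - (r : ℚ)) / (d : ℚ) with hB
  have hAB : A - B = (h : ℚ) / d := by
    rw [hA, hB, ← sub_div]
    push_cast
    congr 1
    ring
  have a1 := Int.floor_le A
  have a2 := Int.lt_floor_add_one A
  have b1 := Int.floor_le B
  have b2 := Int.lt_floor_add_one B
  have hh : (0 : ℚ) ≤ (h : ℚ) / d := by positivity
  have h2 : (N : ℤ) = ⌊A⌋ - ⌊B⌋ := by
    rw [h1]
    apply max_eq_left
    have : B ≤ A := by linarith
    have := Int.floor_le_floor this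
    linarith
  have h3 : (N : ℚ) = (⌊A⌋ : ℚ) - (⌊B⌋ : ℚ) := by exact_mod_cast h2
  have h4 : |(N : ℚ) - (h : ℚ) / d| ≤ 1 := by
    rw [h3, ← hAB, abs_le]
    constructor <;> linarith
  have h5 : ((|(N : ℚ) - (h : ℚ) / d| : ℚ) : ℝ) ≤ ((1 : ℚ) : ℝ) := Rat.cast_le.2 h4
  push_cast at h5
  exact h5

open Classical in
/-- the fundamental lemma for an interval -/
theorem sieve_int : ∃ C0 K0 : ℕ, 1 ≤ C0 ∧ 1 ≤ K0 ∧ ∀ b : ℕ, C0 ≤ b → ∀ v : ℕ, 2 ≤ v → ∀ y h : ℕ,
    |(((Finset.Ioc y (y + h)).filter (fun m => Free v m)).card : ℝ) - h * GG v| ≤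
      (1 / 2 : ℝ) ^ b * (h * GG v) + ((v : ℝ) + 3) * K0 * (v : ℝ) ^ (4 * (C0 * b)) := by
  obtain ⟨C0, K0, hC, hK, hFL⟩ := Pool.Agent.N740.PA.fl_w 1
  refine ⟨C0, K0, hC, hK, fun b hb v hv y h => ?_⟩
  obtain ⟨R, hR⟩ : ∃ R : ℕ → ℕ → Prop, ∀ p a, R p a ↔ a = 0 := ⟨fun _ a => a = 0, fun _ _ => Iff.rfl⟩
  set P : Finset ℕ := (Finset.Icc 1 v).filter Nat.Prime with hP
  have hcard : ∀ p ∈ P, ((Finset.range p).filter (fun a => R p a)).card = 1 := by
    intro p hp
    have hp2 := (Finset.mem_filter.1 hp).2.pos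
    rw [Finset.card_eq_one]
    refine ⟨0, ?_⟩
    ext a
    rw [Finset.mem_filter, Finset.mem_range, Finset.mem_singleton, hR]
    constructor
    · exact fun h => h.2
    · rintro rfl
      exact ⟨hp2, rfl⟩
  have h1 := hFL b hb v hv (Finset.Ioc y (y + h)) (fun _ => 1) h 1 P R (fun _ _ => zero_le_one)
    (Nat.cast_nonneg _) zero_le_one (fun p hp => ⟨(Finset.mem_filter.1 hp).2, (Finset.mem_Icc.1 (Finset.mem_filter.1 hp).1).2,
      (hcard p hp).le⟩) (fun d hd _ r => modEq_count y h d r hd)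
  have e1 : ∏ p ∈ P, (1 - (((Finset.range p).filter (fun a => R p a)).card : ℝ) / p) = GG v := by
    unfold GG
    refine Finset.prod_congr rfl fun p hp => ?_
    rw [hcard p hp, Nat.cast_one]
  have e2 : (Finset.Ioc y (y + h)).filter (fun n => ∀ p ∈ P, ¬ R p (n % p)) = (Finset.Ioc y (y + h)).filter (fun m => Free v m) := by
    apply Finset.filter_congr
    intro m _
    constructor
    · intro h2 p hp hpv hdvd
      exact h2 p (Finset.mem_filter.2 ⟨Finset.mem_Icc.2 ⟨hp.pos, hpv⟩, hp⟩) ((hR _ _).2 (Nat.mod_eq_zero_of_dvd hdvd))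
    · intro h2 p hp h3
      obtain ⟨h4, h5⟩ := Finset.mem_filter.1 hp
      exact h2 p h5 (Finset.mem_Icc.1 h4).2 (Nat.dvd_of_mod_eq_zero ((hR _ _).1 h3))
  rw [e1, e2] at h1
  have e3 : ∑ m ∈ (Finset.Ioc y (y + h)).filter (fun m => Free v m), (1 : ℝ) =
      (((Finset.Ioc y (y + h)).filter (fun m => Free v m)).card : ℝ) := by
    simp
  rw [e3] at h1
  have h2 := h1
  refine h2.trans (add_le_add le_rfl ?_)
  have h3 : (Pool.Agent.W41.JJ v : ℝ) + 2 ≤ (v : ℝ) + 3 := by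
    have : Pool.Agent.W41.JJ v ≤ v + 1 := by
      unfold Pool.Agent.W41.JJ
      have a1 : Nat.log 2 (Nat.log 2 v) ≤ Nat.log 2 v := Nat.log_le_self _ _
      have a2 : Nat.log 2 v ≤ v := Nat.log_le_self _ _
      omega
    have : (Pool.Agent.W41.JJ v : ℝ) ≤ (v : ℝ) + 1 := by exact_mod_cast this
    linarith
  have e4 : (v : ℝ) ^ (2 * (C0 * b)) * (K0 * (v : ℝ) ^ (2 * (C0 * b)) * 1) = K0 * (v : ℝ) ^ (4 * (C0 * b)) := by
    rw [show 4 * (C0 * b) = 2 * (C0 * b) + 2 * (C0 * b) by ring, pow_add]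
    ring
  rw [e4, ← mul_assoc]
  have : 0 ≤ (K0 : ℝ) * (v : ℝ) ^ (4 * (C0 * b)) := by positivity
  calc ((Pool.Agent.W41.JJ v : ℝ) + 2) * K0 * (v : ℝ) ^ (4 * (C0 * b)) = ((Pool.Agent.W41.JJ v : ℝ) + 2) * (K0 * (v : ℝ) ^ (4 * (C0 * b))) := by ring
    _ ≤ ((v : ℝ) + 3) * (K0 * (v : ℝ) ^ (4 * (C0 * b))) := mul_le_mul_of_nonneg_right h3 this
    _ = _ := by ring

/-- the normalised indicator of the sifted integers, minus one -/
noncomputable def DF (v m : ℕ) : ℝ := (if Free v m then (GG v)⁻¹ else 0) - 1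

lemma DF_abs {v Z : ℕ} (hv : v ≤ Z) (hZ : 1 ≤ Z) (m : ℕ) : |DF v m| ≤ Z := by
  classical
  unfold DF
  have hZ' : (1 : ℝ) ≤ Z := by exact_mod_cast hZ
  have hG : (GG v)⁻¹ ≤ Z := by
    rcases Nat.eq_zero_or_pos v with rfl | hv0
    · have : GG 0 = 1 := by unfold GG; simp
      rw [this, inv_one]
      exact hZ'
    · have h1 := GG_lower v hv0
      have hv' : (0 : ℝ) < v := by exact_mod_cast hv0
      calc (GG v)⁻¹ ≤ (1 / (v : ℝ))⁻¹ := inv_anti₀ (by positivity) h1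
        _ = v := by rw [one_div, inv_inv]
        _ ≤ Z := by exact_mod_cast hv
  have hG0 : 0 < (GG v)⁻¹ := inv_pos.2 (GG_pos v)
  split_ifs
  · rw [abs_le]
    constructor <;> linarith
  · rw [zero_sub, abs_neg, abs_one]
    exact hZ'

lemma DF_sum (v y h : ℕ) : ∑ m ∈ Finset.Ioc y (y + h), DF v m =
    (GG v)⁻¹ * ((((Finset.Ioc y (y + h)).filter (fun m => Free v m)).card : ℝ) - h * GG v) := by
  classical
  unfold DF
  rw [Finset.sum_sub_distrib, ← Finset.sum_filter, Finset.sum_const, Finset.sum_const, Nat.card_Ioc, Nat.add_sub_cancel_left,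
    nsmul_eq_mul, nsmul_eq_mul, mul_one]
  have := (GG_pos v).ne'
  field_simp

/-- one level -/
theorem one_level : ∃ C0 K0 : ℕ, 1 ≤ C0 ∧ 1 ≤ K0 ∧ ∀ b : ℕ, C0 ≤ b → ∀ v Z : ℕ, v ≤ Z → 1 ≤ Z → ∀ y h : ℕ,
    |∑ m ∈ Finset.Ioc y (y + h), DF v m| ≤ (1 / 2 : ℝ) ^ b * h + ((Z : ℝ) + 3) * K0 * (Z : ℝ) ^ (4 * (C0 * b) + 1) := by
  obtain ⟨C0, K0, hC, hK, hFL⟩ := sieve_int
  refine ⟨C0, K0, hC, hK, fun b hb v Z hvZ hZ y h => ?_⟩
  have hZ' : (1 : ℝ) ≤ Z := by exact_mod_cast hZ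
  have hpos : 0 ≤ ((Z : ℝ) + 3) * K0 * (Z : ℝ) ^ (4 * (C0 * b) + 1) := by positivity
  by_cases hv : 2 ≤ v
  · have hv' : (2 : ℝ) ≤ v := by exact_mod_cast hv
    have hvZ' : (v : ℝ) ≤ Z := by exact_mod_cast hvZ
    rw [DF_sum, abs_mul, abs_of_pos (inv_pos.2 (GG_pos v))]
    have h1 := hFL b hb v hv y h
    have hG := GG_pos v
    have hGi : (GG v)⁻¹ ≤ Z := by
      have h2 := GG_lower v (by omega)
      calc (GG v)⁻¹ ≤ (1 / (v : ℝ))⁻¹ := inv_anti₀ (by positivity) h2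
        _ = v := by rw [one_div, inv_inv]
        _ ≤ Z := hvZ'
    calc (GG v)⁻¹ * |(((Finset.Ioc y (y + h)).filter (fun m => Free v m)).card : ℝ) - h * GG v|
        ≤ (GG v)⁻¹ * ((1 / 2 : ℝ) ^ b * (h * GG v) + ((v : ℝ) + 3) * K0 * (v : ℝ) ^ (4 * (C0 * b))) :=
          mul_le_mul_of_nonneg_left h1 (inv_pos.2 hG).le
      _ = (1 / 2 : ℝ) ^ b * h + (GG v)⁻¹ * (((v : ℝ) + 3) * K0 * (v : ℝ) ^ (4 * (C0 * b))) := by
          field_simp
      _ ≤ (1 / 2 : ℝ) ^ b * h + Z * (((Z : ℝ) + 3) * K0 * (Z : ℝ) ^ (4 * (C0 * b))) := by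
          apply add_le_add le_rfl
          apply mul_le_mul hGi _ (by positivity) (by positivity)
          gcongr
      _ = _ := by rw [pow_succ]; ring
  · have hfree : ∀ m, Free v m := fun m p hp hpv => by
      have := hp.two_le
      omega
    have hG : GG v = 1 := by
      unfold GG
      have : (Finset.Icc 1 v).filter Nat.Prime = ∅ := by
        rw [Finset.filter_eq_empty_iff]
        intro p hp hpp
        have := (Finset.mem_Icc.1 hp).2
        have := hpp.two_le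
        omega
      rw [this]
      simp
    have h0 : ∑ m ∈ Finset.Ioc y (y + h), DF v m = 0 := by
      apply Finset.sum_eq_zero
      intro m _
      unfold DF
      rw [if_pos (hfree m), hG]
      norm_num
    rw [h0, abs_zero]
    positivity

lemma interval_filter (z : ℕ → ℕ) (hz : Monotone z) (x H v : ℕ) :
    ∃ y h, (Finset.Ioc x (x + H)).filter (fun m => z m = v) = Finset.Ioc y (y + h) := by
  classical
  set S := (Finset.Ioc x (x + H)).filter (fun m => z m = v) with hS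
  by_cases hne : S.Nonempty
  · set a := S.min' hne with ha
    set c := S.max' hne with hc
    have ha1 := Finset.mem_filter.1 (S.min'_mem hne)
    have hc1 := Finset.mem_filter.1 (S.max'_mem hne)
    have ha2 := Finset.mem_Ioc.1 ha1.1
    have hc2 := Finset.mem_Ioc.1 hc1.1
    have hac : a ≤ c := S.min'_le _ (S.max'_mem hne)
    refine ⟨a - 1, c - (a - 1), ?_⟩
    ext m
    rw [Finset.mem_Ioc]
    constructor
    · intro hm
      have h1 := S.min'_le m hm
      have h2 := S.le_max' m hm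
      omega
    · intro hm
      have h1 : a ≤ m := by omega
      have h2 : m ≤ c := by omega
      refine Finset.mem_filter.2 ⟨Finset.mem_Ioc.2 ⟨by omega, by omega⟩, ?_⟩
      have h3 := hz h1
      have h4 := hz h2
      have h5 : z a = v := ha1.2
      have h6 : z c = v := hc1.2
      omega
  · rw [Finset.not_nonempty_iff_eq_empty] at hne
    refine ⟨x, 0, ?_⟩
    rw [hne]
    simp

/-- **sieving an interval at a variable level** -/
theorem var_level : ∃ C0 K0 : ℕ, 1 ≤ C0 ∧ 1 ≤ K0 ∧ ∀ b : ℕ, C0 ≤ b → ∀ (z : ℕ → ℕ) (Z : ℕ), Monotone z → 1 ≤ Z → ∀ x H : ℕ,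
    z (x + H) ≤ Z → |∑ m ∈ Finset.Ioc x (x + H), DF (z m) m| ≤
      (1 / 2 : ℝ) ^ b * H + ((Z : ℝ) + 1) * (((Z : ℝ) + 3) * K0 * (Z : ℝ) ^ (4 * (C0 * b) + 1)) := by
  classical
  obtain ⟨C0, K0, hC, hK, h1⟩ := one_level
  refine ⟨C0, K0, hC, hK, fun b hb z Z hz hZ x H hzZ => ?_⟩
  set T : ℝ := ((Z : ℝ) + 3) * K0 * (Z : ℝ) ^ (4 * (C0 * b) + 1) with hT
  have hmaps : ∀ m ∈ Finset.Ioc x (x + H), z m ∈ Finset.range (Z + 1) := by
    intro m hm
    have := hz (Finset.mem_Ioc.1 hm).2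
    rw [Finset.mem_range]
    omega
  rw [← Finset.sum_fiberwise_of_maps_to hmaps]
  refine (Finset.abs_sum_le_sum_abs _ _).trans ?_
  have h2 : ∀ v ∈ Finset.range (Z + 1), |∑ m ∈ (Finset.Ioc x (x + H)).filter (fun m => z m = v), DF (z m) m| ≤
      (1 / 2 : ℝ) ^ b * (((Finset.Ioc x (x + H)).filter (fun m => z m = v)).card : ℝ) + T := by
    intro v hv
    have hvZ : v ≤ Z := by
      have := Finset.mem_range.1 hv
      omega
    obtain ⟨y, h, hyh⟩ := interval_filter z hz x H v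
    have e1 : ∑ m ∈ (Finset.Ioc x (x + H)).filter (fun m => z m = v), DF (z m) m =
        ∑ m ∈ (Finset.Ioc x (x + H)).filter (fun m => z m = v), DF v m :=
      Finset.sum_congr rfl fun m hm => by rw [(Finset.mem_filter.1 hm).2]
    rw [e1, hyh, Nat.card_Ioc, Nat.add_sub_cancel_left]
    exact h1 b hb v Z hvZ hZ y h
  refine (Finset.sum_le_sum h2).trans ?_
  rw [Finset.sum_add_distrib, ← Finset.mul_sum, Finset.sum_const, Finset.card_range, nsmul_eq_mul]
  have h3 : ∑ v ∈ Finset.range (Z + 1), ((((Finset.Ioc x (x + H)).filter (fun m => z m = v)).card : ℕ) : ℝ) = H := by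
    rw [← Nat.cast_sum, ← Finset.card_eq_sum_card_fiberwise hmaps, Nat.card_Ioc, Nat.add_sub_cancel_left]
  rw [h3]
  push_cast
  exact le_rfl

end Pool.Agent.N740.HK
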