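import Mathlib
import Pool.Agent.N740.HK.Gr
import Pool.Agent.N740.HK.Conc

/-!
# Short intervals in models sieved by small primes
-/

set_option autoImplicit false
set_option linter.unusedSectionVars false

open MeasureTheory Filter Set
open scoped ENNReal Topology

namespace Pool.Agent.N740.HK

open Pool.Agent.R528.RM

variable {Ω : Type} {m0 : MeasurableSpace Ω} {μ : Measure Ω} [IsProbabilityMeasure μ]
  {ℱ : Filtration ℕ m0} {A : ℕ → Set Ω}

lemma shift_sum (x H : ℕ) (g : ℕ → ℝ) :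
    ∑ t ∈ Finset.range (x + H), (if x ≤ t then (1 : ℝ) else 0) * g t = ∑ m ∈ Finset.Ioc x (x + H), g (m - 1) := by
  simp only [ite_mul, one_mul, zero_mul]
  rw [← Finset.sum_filter]
  refine Finset.sum_nbij' (fun t => t + 1) (fun m => m - 1) ?_ ?_ ?_ ?_ ?_
  · intro t ht
    have h1 := Finset.mem_filter.1 ht
    have h2 := Finset.mem_range.1 h1.1
    have h3 := h1.2
    rw [Finset.mem_Ioc]
    omega
  · intro m hm
    have h1 := Finset.mem_Ioc.1 hm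
    refine Finset.mem_filter.2 ⟨Finset.mem_range.2 ?_, ?_⟩ <;> omega
  · intro t _
    rfl
  · intro m hm
    have h1 := Finset.mem_Ioc.1 hm
    show m - 1 + 1 = m
    omega
  · intro t _
    rfl

/-- concentration in all windows -/
theorem conc_windows (hA : ∀ n, MeasurableSet[ℱ n] (A n)) {ρ : ℕ → ℝ} (hρ0 : ∀ n, 0 ≤ ρ n) (hρ1 : ∃ c, ∀ n, ρ n ≤ c)
    (hd : ∀ᵐ ω ∂μ, ∀ ε : ℝ, 0 < ε → ∀ᶠ n : ℕ in atTop, |dens μ ℱ A n ω - ρ n| ≤ ε * ρ n) :
    ∀ᵐ ω ∂μ, ∀ ε : ℝ, 0 < ε → ∃ C : ℝ, 0 ≤ C ∧ ∀ᶠ x : ℕ in atTop, ∀ H : ℕ, H ≤ x →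
      |∑ m ∈ Finset.Ioc x (x + H), J1 A m ω - ∑ m ∈ Finset.Ioc x (x + H), ρ (m - 1)| ≤
        ε * (∑ m ∈ Finset.Ioc x (x + H), ρ (m - 1)) + C * Real.log x := by
  have h := conc_rho (μ := μ) hA hρ0 hρ1 hd
    (fun n t _ => if (Nat.unpair n).1 ≤ t then (1 : ℝ) else 0) (fun n => (Nat.unpair n).1 + (Nat.unpair n).2)
    (fun n t => stronglyMeasurable_const) (fun n t ω => by
      split_ifs <;> constructor <;> norm_num)
  filter_upwards [h] with ω hω
  intro ε hε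
  obtain ⟨C, hC⟩ := hω ε hε
  obtain ⟨n₀, hn₀⟩ := eventually_atTop.1 hC
  refine ⟨3 * |C|, by positivity, ?_⟩
  filter_upwards [eventually_ge_atTop n₀, eventually_ge_atTop 3] with x hx hx3
  intro H hH
  have h1 := hn₀ (Nat.pair x H) (hx.trans (Nat.left_le_pair x H))
  simp only [Nat.unpair_pair] at h1
  rw [shift_sum, shift_sum] at h1
  have e1 : ∑ m ∈ Finset.Ioc x (x + H), J1 A (m - 1 + 1) ω = ∑ m ∈ Finset.Ioc x (x + H), J1 A m ω := by
    refine Finset.sum_congr rfl fun m hm => ?_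
    have := (Finset.mem_Ioc.1 hm).1
    rw [Nat.sub_add_cancel (by omega)]
  rw [e1] at h1
  refine h1.trans (add_le_add le_rfl ?_)
  have hx3' : (3 : ℝ) ≤ x := by exact_mod_cast hx3
  have hp : ((Nat.pair x H : ℕ) : ℝ) ≤ (x : ℝ) ^ 3 := by
    have h2 := Nat.pair_lt_max_add_one_sq x H
    rw [max_eq_left hH] at h2
    have h3 : (x + 1) ^ 2 ≤ x ^ 3 := by nlinarith
    exact_mod_cast h2.le.trans h3
  have hpos : (0 : ℝ) < ((Nat.pair x H : ℕ) : ℝ) := by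
    have := Nat.left_le_pair x H
    have : 0 < Nat.pair x H := by omega
    exact_mod_cast this
  have h4 : Real.log ((Nat.pair x H : ℕ) : ℝ) ≤ 3 * Real.log x := by
    have := Real.log_le_log hpos hp
    rwa [Real.log_pow] at this
  have h5 : 0 ≤ Real.log ((Nat.pair x H : ℕ) : ℝ) := Real.log_natCast_nonneg _
  calc C * Real.log ((Nat.pair x H : ℕ) : ℝ) ≤ |C| * Real.log ((Nat.pair x H : ℕ) : ℝ) :=
        mul_le_mul_of_nonneg_right (le_abs_self C) h5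
    _ ≤ |C| * (3 * Real.log x) := mul_le_mul_of_nonneg_left h4 (abs_nonneg C)
    _ = _ := by ring

/-- the density profile of the model of level `z` -/
noncomputable def rg (z : ℕ → ℕ) (t : ℕ) : ℝ := (1 + DF (z (t + 1)) (t + 1)) / Real.log t

lemma one_add_DF_nonneg (v m : ℕ) : 0 ≤ 1 + DF v m := by
  unfold DF
  have := (GG_pos v).le
  split_ifs
  · have : 0 ≤ (GG v)⁻¹ := inv_nonneg.2 this
    linarith
  · linarith

lemma rg_nonneg (z : ℕ → ℕ) (t : ℕ) : 0 ≤ rg z t :=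
  div_nonneg (one_add_DF_nonneg _ _) (Real.log_natCast_nonneg t)

lemma rg_window (z : ℕ → ℕ) {x : ℕ} (hx : 2 ≤ x) (H : ℕ) :
    (H + ∑ m ∈ Finset.Ioc x (x + H), DF (z m) m) / Real.log ((x + H : ℕ) : ℝ) ≤ ∑ m ∈ Finset.Ioc x (x + H), rg z (m - 1) ∧
    ∑ m ∈ Finset.Ioc x (x + H), rg z (m - 1) ≤ (H + ∑ m ∈ Finset.Ioc x (x + H), DF (z m) m) / Real.log x := by
  have hx' : (2 : ℝ) ≤ x := by exact_mod_cast hx
  have hL : 0 < Real.log x := Real.log_pos (by linarith)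
  have e0 : (H : ℝ) + ∑ m ∈ Finset.Ioc x (x + H), DF (z m) m = ∑ m ∈ Finset.Ioc x (x + H), (1 + DF (z m) m) := by
    rw [Finset.sum_add_distrib, Finset.sum_const, Nat.card_Ioc, Nat.add_sub_cancel_left, nsmul_eq_mul, mul_one]
  have e1 : ∀ m ∈ Finset.Ioc x (x + H), rg z (m - 1) = (1 + DF (z m) m) / Real.log ((m - 1 : ℕ) : ℝ) := by
    intro m hm
    have := (Finset.mem_Ioc.1 hm).1
    unfold rg
    rw [Nat.sub_add_cancel (by omega)]
  rw [e0, Finset.sum_congr rfl e1, Finset.sum_div, Finset.sum_div]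
  constructor
  · refine Finset.sum_le_sum fun m hm => ?_
    have h1 := Finset.mem_Ioc.1 hm
    have h2 : (x : ℝ) ≤ ((m - 1 : ℕ) : ℝ) := by
      have : x ≤ m - 1 := by omega
      exact_mod_cast this
    have h3 : ((m - 1 : ℕ) : ℝ) ≤ ((x + H : ℕ) : ℝ) := by
      have : m - 1 ≤ x + H := by omega
      exact_mod_cast this
    have h4 : 0 < Real.log ((m - 1 : ℕ) : ℝ) := Real.log_pos (by linarith)
    exact div_le_div_of_nonneg_left (one_add_DF_nonneg _ _) h4 (Real.log_le_log (by linarith) h3)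
  · refine Finset.sum_le_sum fun m hm => ?_
    have h1 := Finset.mem_Ioc.1 hm
    have h2 : (x : ℝ) ≤ ((m - 1 : ℕ) : ℝ) := by
      have : x ≤ m - 1 := by omega
      exact_mod_cast this
    exact div_le_div_of_nonneg_left (one_add_DF_nonneg _ _) hL (Real.log_le_log (by linarith) h2)

lemma ratio_lim (c : ℝ) : Tendsto (fun L : ℝ => (1 - c * L⁻¹)⁻¹) atTop (𝓝 1) := by
  have h1 : Tendsto (fun L : ℝ => 1 - c * L⁻¹) atTop (𝓝 (1 - c * 0)) :=
    tendsto_const_nhds.sub (tendsto_inv_atTop_zero.const_mul c)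
  have h2 := h1.inv₀ (by simp)
  simpa using h2

lemma upper_lim (β ε C c E0 : ℝ) {a s : ℝ} (ha : 2 < a) (hs : s < a) :
    Tendsto (fun L : ℝ => (1 + ε) * (((1 + L ^ (-a)) * (1 + β) + E0 * L ^ (-(a - s))) * (1 - c * L⁻¹)⁻¹) + C * L ^ (-(a - 2)))
      atTop (𝓝 ((1 + ε) * (1 + β))) := by
  have t1 : Tendsto (fun L : ℝ => L ^ (-a)) atTop (𝓝 0) := tendsto_rpow_neg_atTop (by linarith)
  have t2 : Tendsto (fun L : ℝ => L ^ (-(a - s))) atTop (𝓝 0) := tendsto_rpow_neg_atTop (by linarith)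
  have t3 : Tendsto (fun L : ℝ => L ^ (-(a - 2))) atTop (𝓝 0) := tendsto_rpow_neg_atTop (by linarith)
  have h := (((((t1.const_add 1).mul_const (1 + β)).add (t2.const_mul E0)).mul (ratio_lim c)).const_mul (1 + ε)).add
    (t3.const_mul C)
  have e : (1 + ε) * (((1 + 0) * (1 + β) + E0 * 0) * 1) + C * 0 = (1 + ε) * (1 + β) := by ring
  rw [e] at h
  exact h

lemma lower_lim (β ε C c E0 : ℝ) {a s : ℝ} (ha : 2 < a) (hs : s < a) :
    Tendsto (fun L : ℝ => (1 - ε) * (((1 - L ^ (-a)) * (1 - β) - E0 * L ^ (-(a - s))) * (1 - c * L⁻¹)⁻¹) - C * L ^ (-(a - 2)))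
      atTop (𝓝 ((1 - ε) * (1 - β))) := by
  have t1 : Tendsto (fun L : ℝ => L ^ (-a)) atTop (𝓝 0) := tendsto_rpow_neg_atTop (by linarith)
  have t2 : Tendsto (fun L : ℝ => L ^ (-(a - s))) atTop (𝓝 0) := tendsto_rpow_neg_atTop (by linarith)
  have t3 : Tendsto (fun L : ℝ => L ^ (-(a - 2))) atTop (𝓝 0) := tendsto_rpow_neg_atTop (by linarith)
  have h := (((((t1.const_sub 1).mul_const (1 - β)).sub (t2.const_mul E0)).mul (ratio_lim c)).const_mul (1 - ε)).sub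
    (t3.const_mul C)
  have e : (1 - ε) * (((1 - 0) * (1 - β) - E0 * 0) * 1) - C * 0 = (1 - ε) * (1 - β) := by ring
  rw [e] at h
  exact h

/-- floors -/
lemma floor_window {a : ℝ} : ∀ᶠ X : ℝ in atTop, 2 ≤ Real.log X ∧ 4 ≤ X ∧ Real.log X ^ a ≤ X / 4 ∧
    (⌊X⌋₊ ≤ ⌊X + Real.log X ^ a⌋₊) ∧ ⌊X + Real.log X ^ a⌋₊ - ⌊X⌋₊ ≤ ⌊X⌋₊ ∧
    Real.log X ^ a - 1 ≤ ((⌊X + Real.log X ^ a⌋₊ - ⌊X⌋₊ : ℕ) : ℝ) ∧ ((⌊X + Real.log X ^ a⌋₊ - ⌊X⌋₊ : ℕ) : ℝ) ≤ Real.log X ^ a + 1 ∧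
    X / 2 ≤ (⌊X⌋₊ : ℝ) ∧ ((⌊X + Real.log X ^ a⌋₊ : ℕ) : ℝ) ≤ 2 * X := by
  have h1 : ∀ᶠ X : ℝ in atTop, Real.log X ^ a ≤ X / 4 := by
    have h := (isLittleO_log_rpow_rpow_atTop a (zero_lt_one)).bound (c := 1 / 4) (by norm_num)
    filter_upwards [h, eventually_ge_atTop 1] with X hX hX1
    rw [Real.rpow_one, Real.norm_eq_abs, Real.norm_eq_abs, abs_of_nonneg (by linarith : (0 : ℝ) ≤ X)] at hX
    have := le_abs_self (Real.log X ^ a)
    linarith
  filter_upwards [h1, Real.tendsto_log_atTop.eventually_ge_atTop 2, eventually_ge_atTop 4] with X hX hL hX4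
  have hLa : 0 ≤ Real.log X ^ a := Real.rpow_nonneg (by linarith) _
  have f1 := Nat.floor_le (by linarith : (0 : ℝ) ≤ X)
  have f2 := Nat.lt_floor_add_one X
  have f3 := Nat.floor_le (by linarith : (0 : ℝ) ≤ X + Real.log X ^ a)
  have f4 := Nat.lt_floor_add_one (X + Real.log X ^ a)
  have hle : ⌊X⌋₊ ≤ ⌊X + Real.log X ^ a⌋₊ := Nat.floor_mono (by linarith)
  have hsub : ((⌊X + Real.log X ^ a⌋₊ - ⌊X⌋₊ : ℕ) : ℝ) = (⌊X + Real.log X ^ a⌋₊ : ℝ) - ⌊X⌋₊ := Nat.cast_sub hle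
  refine ⟨hL, hX4, hX, hle, ?_, ?_, ?_, ?_, ?_⟩
  · have : ((⌊X + Real.log X ^ a⌋₊ - ⌊X⌋₊ : ℕ) : ℝ) ≤ (⌊X⌋₊ : ℝ) := by
      rw [hsub]
      linarith
    exact_mod_cast this
  · rw [hsub]; linarith
  · rw [hsub]; linarith
  · linarith
  · linarith

/-- the deterministic part: the windows `(X, X + (log X)^a]` -/
theorem gran_core {z : ℕ → ℕ} (hz : Monotone z) {κ : ℝ} (hκ : 0 ≤ κ) (hzκ : ∀ᶠ n : ℕ in atTop, (z n : ℝ) ≤ Real.log n ^ κ)
    {χ : ℕ → ℝ} (hc : ∀ ε : ℝ, 0 < ε → ∃ C : ℝ, 0 ≤ C ∧ ∀ᶠ x : ℕ in atTop, ∀ H : ℕ, H ≤ x →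
      |∑ m ∈ Finset.Ioc x (x + H), χ m - ∑ m ∈ Finset.Ioc x (x + H), rg z (m - 1)| ≤
        ε * (∑ m ∈ Finset.Ioc x (x + H), rg z (m - 1)) + C * Real.log x)
    {C0 K0 b : ℕ} (hv : ∀ (z : ℕ → ℕ) (Z : ℕ), Monotone z → 1 ≤ Z → ∀ x H : ℕ,
      z (x + H) ≤ Z → |∑ m ∈ Finset.Ioc x (x + H), DF (z m) m| ≤
        (1 / 2 : ℝ) ^ b * H + ((Z : ℝ) + 1) * (((Z : ℝ) + 3) * K0 * (Z : ℝ) ^ (4 * (C0 * b) + 1)))
    {a : ℝ} (ha : 2 < a) (has : κ * (4 * (C0 * b) + 3 : ℕ) < a) {η : ℝ} (hη : 0 < η) :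
    ∀ᶠ X : ℝ in atTop, |Real.log X / Real.log X ^ a * (∑ m ∈ Finset.Ioc ⌊X⌋₊ ⌊X + Real.log X ^ a⌋₊, χ m) - 1| ≤
      (1 / 2 : ℝ) ^ b + η := by
  set β : ℝ := (1 / 2 : ℝ) ^ b with hβ
  have hβ0 : 0 < β := by positivity
  have hβ1 : β ≤ 1 := pow_le_one₀ (by norm_num) (by norm_num)
  set ε : ℝ := min (η / 8) (1 / 2) with hε
  have hε0 : 0 < ε := lt_min (by positivity) (by norm_num)
  have hε1 : ε ≤ η / 8 := min_le_left _ _
  have hε2 : ε ≤ 1 / 2 := min_le_right _ _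
  obtain ⟨C, hC0, hC⟩ := hc ε hε0
  set e0 : ℕ := 4 * (C0 * b) + 3 with he0
  set s : ℝ := κ * (e0 : ℕ) with hs
  set E0 : ℝ := 8 * K0 * (2 : ℝ) ^ s with hE0
  have hu := (upper_lim β ε C (Real.log 2) E0 ha has).comp Real.tendsto_log_atTop
  have hl := (lower_lim β ε C (-Real.log 2) E0 ha has).comp Real.tendsto_log_atTop
  have hu1 := hu.eventually (gt_mem_nhds (show (1 + ε) * (1 + β) < 1 + (β + η) by nlinarith))
  have hl1 := hl.eventually (lt_mem_nhds (show 1 - (β + η) < (1 - ε) * (1 - β) by nlinarith))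
  have hfl : Tendsto (fun X : ℝ => ⌊X⌋₊) atTop atTop := tendsto_nat_floor_atTop
  have hfl2 : Tendsto (fun X : ℝ => ⌊X + Real.log X ^ a⌋₊) atTop atTop := by
    refine tendsto_atTop_mono' _ ?_ hfl
    filter_upwards [floor_window (a := a)] with X hX
    exact hX.2.2.2.1
  filter_upwards [hu1, hl1, floor_window (a := a), hfl.eventually hC, hfl2.eventually hzκ,
    Real.tendsto_log_atTop.eventually_ge_atTop (4 : ℝ)] with X hu2 hl2 hX hCX hzX hL4
  obtain ⟨hL2, hX4, hXa, hxy, hHx, hH1, hH2, hx2, hy2⟩ := hX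
  set L := Real.log X with hL
  set x := ⌊X⌋₊ with hx
  set y := ⌊X + L ^ a⌋₊ with hy
  set H := y - x with hH
  have hyx : x + H = y := by omega
  have hxr : (2 : ℝ) ≤ x := by linarith
  have hx2' : 2 ≤ x := by exact_mod_cast hxr
  have hCx := hCX H hHx
  have hw := rg_window z hx2' H
  rw [hyx] at hCx hw
  set R := ∑ m ∈ Finset.Ioc x y, rg z (m - 1) with hR
  set D := ∑ m ∈ Finset.Ioc x y, DF (z m) m with hD
  set N := ∑ m ∈ Finset.Ioc x y, χ m with hN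
  have hlog2 : 0 < Real.log 2 := Real.log_pos (by norm_num)
  have hlog2' : Real.log 2 < 1 := by
    have := Real.log_two_lt_d9
    linarith
  have hlx1 : L - Real.log 2 ≤ Real.log x := by
    rw [hL, ← Real.log_div (by linarith) (by norm_num)]
    exact Real.log_le_log (by linarith) hx2
  have hlx2 : Real.log x ≤ L := Real.log_le_log (by linarith) (Nat.floor_le (by linarith))
  have hly : Real.log (y : ℝ) ≤ L + Real.log 2 := by
    have : L + Real.log 2 = Real.log (2 * X) := by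
      rw [Real.log_mul (by norm_num) (by linarith), hL]
      ring
    rw [this]
    refine Real.log_le_log ?_ hy2
    have : (x : ℝ) ≤ y := by exact_mod_cast hxy
    linarith
  have hLpos : 0 < L := by linarith
  -- the sieve error
  have hy0 : 0 < Real.log (y : ℝ) := Real.log_pos (by
    have : (x : ℝ) ≤ y := by exact_mod_cast hxy
    linarith)
  set Z : ℕ := ⌊(2 * L) ^ κ⌋₊ with hZ
  have h2L : (1 : ℝ) ≤ (2 * L) ^ κ := Real.one_le_rpow (by linarith) (by linarith)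
  have hZ1 : 1 ≤ Z := by
    rw [hZ, Nat.one_le_floor_iff]
    exact h2L
  have hZ2 : (Z : ℝ) ≤ (2 * L) ^ κ := Nat.floor_le (by linarith)
  have hzy : z y ≤ Z := by
    rw [hZ]
    apply Nat.le_floor
    refine hzX.trans (Real.rpow_le_rpow hy0.le ?_ (by linarith))
    linarith
  have hv1 := hv z Z hz hZ1 x H (by rw [hyx]; exact hzy)
  rw [hyx] at hv1
  have hZr : (1 : ℝ) ≤ Z := by exact_mod_cast hZ1
  have hErr : ((Z : ℝ) + 1) * (((Z : ℝ) + 3) * K0 * (Z : ℝ) ^ (4 * (C0 * b) + 1)) ≤ E0 * L ^ s := by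
    have h1 : ((Z : ℝ) + 1) * (((Z : ℝ) + 3) * K0 * (Z : ℝ) ^ (4 * (C0 * b) + 1)) ≤
        (2 * Z) * ((4 * Z) * K0 * (Z : ℝ) ^ (4 * (C0 * b) + 1)) := by
      gcongr <;> linarith
    have h2 : (2 * Z) * ((4 * Z) * K0 * (Z : ℝ) ^ (4 * (C0 * b) + 1)) = 8 * K0 * (Z : ℝ) ^ e0 := by
      rw [he0, show 4 * (C0 * b) + 3 = (4 * (C0 * b) + 1) + 2 by ring, pow_add]
      ring
    have h3 : (Z : ℝ) ^ e0 ≤ (2 : ℝ) ^ s * L ^ s := by
      calc (Z : ℝ) ^ e0 ≤ ((2 * L) ^ κ) ^ e0 := pow_le_pow_left₀ (by positivity) hZ2 _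
        _ = (2 * L) ^ s := by
            rw [← Real.rpow_natCast, ← Real.rpow_mul (by linarith)]
        _ = _ := Real.mul_rpow (by norm_num) hLpos.le
    calc _ ≤ 8 * K0 * (Z : ℝ) ^ e0 := h1.trans h2.le
      _ ≤ 8 * K0 * ((2 : ℝ) ^ s * L ^ s) := mul_le_mul_of_nonneg_left h3 (by positivity)
      _ = _ := by rw [hE0]; ring
  set Er := E0 * L ^ s with hEr
  have hD1 := abs_le.1 (hv1.trans (add_le_add le_rfl hErr))
  have hLa : 0 < L ^ a := Real.rpow_pos_of_pos hLpos a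
  have hLs : 0 < L ^ s := Real.rpow_pos_of_pos hLpos s
  have hEr0 : 0 ≤ Er := by
    rw [hEr, hE0]
    positivity
  -- powers
  have q1 : L ^ (-a) = 1 / L ^ a := by rw [Real.rpow_neg hLpos.le, one_div]
  have q2 : E0 * L ^ (-(a - s)) = Er / L ^ a := by
    rw [hEr, show -(a - s) = s - a by ring, Real.rpow_sub hLpos]
    ring
  have q3 : L ^ (-(a - 2)) = L ^ 2 / L ^ a := by
    rw [show -(a - 2) = 2 - a by ring, Real.rpow_sub hLpos, show (2 : ℝ) = ((2 : ℕ) : ℝ) by norm_num, Real.rpow_natCast]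
  have hCabs := abs_le.1 hCx
  have hR0 : 0 ≤ R := Finset.sum_nonneg fun m _ => rg_nonneg _ _
  have hClog : C * Real.log x ≤ C * L := mul_le_mul_of_nonneg_left hlx2 hC0
  rw [abs_le]
  constructor
  · -- lower bound
    have hl3 : 1 - (β + η) < (1 - ε) * (((1 - L ^ (-a)) * (1 - β) - E0 * L ^ (-(a - s))) * (1 - (-Real.log 2) * L⁻¹)⁻¹) -
        C * L ^ (-(a - 2)) := hl2
    rw [q1, q2, q3] at hl3
    have r1 : (1 - (-Real.log 2) * L⁻¹)⁻¹ = L / (L + Real.log 2) := by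
      rw [show (1 - (-Real.log 2) * L⁻¹) = (L + Real.log 2) / L by field_simp; ring, inv_div]
    rw [r1] at hl3
    set T := (L ^ a - 1) * (1 - β) - Er with hT
    have e3 : (1 - ε) * (((1 - 1 / L ^ a) * (1 - β) - Er / L ^ a) * (L / (L + Real.log 2))) - C * (L ^ 2 / L ^ a) =
        L / L ^ a * ((1 - ε) * (T / (L + Real.log 2)) - C * L) := by
      rw [hT]
      field_simp
    rw [e3] at hl3
    have hden : 0 < L + Real.log 2 := by linarith
    have h1 : T / (L + Real.log 2) ≤ R := by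
      rcases le_or_gt T 0 with hT0 | hT0
      · exact (div_nonpos_of_nonpos_of_nonneg hT0 hden.le).trans hR0
      · calc T / (L + Real.log 2) ≤ T / Real.log (y : ℝ) := div_le_div_of_nonneg_left hT0.le hy0 hly
          _ ≤ (H + D) / Real.log (y : ℝ) := by
              apply div_le_div_of_nonneg_right _ hy0.le
              rw [hT]
              nlinarith [hD1.1]
          _ ≤ R := hw.1
    have h2 : (1 - ε) * (T / (L + Real.log 2)) ≤ (1 - ε) * R := mul_le_mul_of_nonneg_left h1 (by linarith)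
    have h3 : (1 - ε) * (T / (L + Real.log 2)) - C * L ≤ N := by nlinarith [hCabs.1]
    have h4 : L / L ^ a * ((1 - ε) * (T / (L + Real.log 2)) - C * L) ≤ L / L ^ a * N :=
      mul_le_mul_of_nonneg_left h3 (by positivity)
    linarith
  · -- upper bound
    have hu3 : (1 + ε) * (((1 + L ^ (-a)) * (1 + β) + E0 * L ^ (-(a - s))) * (1 - Real.log 2 * L⁻¹)⁻¹) +
        C * L ^ (-(a - 2)) < 1 + (β + η) := hu2
    rw [q1, q2, q3] at hu3
    have hden : 0 < L - Real.log 2 := by linarith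
    have r1 : (1 - Real.log 2 * L⁻¹)⁻¹ = L / (L - Real.log 2) := by
      rw [show (1 - Real.log 2 * L⁻¹) = (L - Real.log 2) / L by field_simp, inv_div]
    rw [r1] at hu3
    set T := (L ^ a + 1) * (1 + β) + Er with hT
    have hT0 : 0 < T := by positivity
    have e3 : (1 + ε) * (((1 + 1 / L ^ a) * (1 + β) + Er / L ^ a) * (L / (L - Real.log 2))) + C * (L ^ 2 / L ^ a) =
        L / L ^ a * ((1 + ε) * (T / (L - Real.log 2)) + C * L) := by
      rw [hT]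
      field_simp
    rw [e3] at hu3
    have hlx0 : 0 < Real.log x := by linarith
    have h1 : R ≤ T / (L - Real.log 2) := by
      calc R ≤ (H + D) / Real.log x := hw.2
        _ ≤ T / Real.log x := by
            apply div_le_div_of_nonneg_right _ hlx0.le
            rw [hT]
            nlinarith [hD1.2]
        _ ≤ T / (L - Real.log 2) := div_le_div_of_nonneg_left hT0.le hden hlx1
    have h2 : (1 + ε) * R ≤ (1 + ε) * (T / (L - Real.log 2)) := mul_le_mul_of_nonneg_left h1 (by linarith)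
    have h3 : N ≤ (1 + ε) * (T / (L - Real.log 2)) + C * L := by nlinarith [hCabs.2]
    have h4 : L / L ^ a * N ≤ L / L ^ a * ((1 + ε) * (T / (L - Real.log 2)) + C * L) :=
      mul_le_mul_of_nonneg_left h3 (by positivity)
    linarith

end Pool.Agent.N740.HK
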