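import Mathlib
import Pool.Agent.N740.HK.Gr2

/-!
# Short intervals in models sieved by small primes: the final form
-/

set_option autoImplicit false
set_option linter.unusedSectionVars false

open MeasureTheory Filter Set
open scoped ENNReal Topology

namespace Pool.Agent.N740.HK

open Pool.Agent.R528.RM

variable {Ω : Type} {m0 : MeasurableSpace Ω} {μ : Measure Ω} [IsProbabilityMeasure μ]
  {ℱ : Filtration ℕ m0} {A : ℕ → Set Ω}

lemma rg_hd {z : ℕ → ℕ} (hempty : ∀ n, ¬ Free (z n) n → A n = ∅)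
    (hd : ∀ᵐ ω ∂μ, Tendsto (fun n : ℕ => dens μ ℱ A n ω * (Real.log n * GG (z (n + 1))))
      (atTop ⊓ 𝓟 {n : ℕ | Free (z (n + 1)) (n + 1)}) (𝓝 1)) :
    ∀ᵐ ω ∂μ, ∀ ε : ℝ, 0 < ε → ∀ᶠ n : ℕ in atTop, |dens μ ℱ A n ω - rg z n| ≤ ε * rg z n := by
  have h0 : ∀ᵐ ω ∂μ, ∀ n : ℕ, ¬ Free (z (n + 1)) (n + 1) → dens μ ℱ A n ω = 0 := by
    refine ae_all_iff.2 fun n => ?_
    by_cases hf : Free (z (n + 1)) (n + 1)
    · exact Eventually.of_forall fun ω h => absurd hf h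
    · have h1 : A (n + 1) = ∅ := hempty _ hf
      have h2 : dens μ ℱ A n = 0 := by
        have : dens μ ℱ A n = μ[(A (n + 1)).indicator (fun _ => (1 : ℝ)) | ℱ n] := rfl
        rw [this, h1, Set.indicator_empty]
        exact condExp_zero
      exact Eventually.of_forall fun ω _ => by rw [h2]; rfl
  filter_upwards [h0, hd] with ω h1 h2
  intro ε hε
  have h3 := h2.eventually (Metric.ball_mem_nhds 1 hε)
  rw [eventually_inf_principal] at h3
  filter_upwards [h3, eventually_ge_atTop 3] with n hn hn3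
  have hn3' : (3 : ℝ) ≤ n := by exact_mod_cast hn3
  have hL : 0 < Real.log n := Real.log_pos (by linarith)
  by_cases hf : Free (z (n + 1)) (n + 1)
  · have h4 : |dens μ ℱ A n ω * (Real.log n * GG (z (n + 1))) - 1| < ε := by
      have := hn hf
      rwa [Real.dist_eq] at this
    have hG := GG_pos (z (n + 1))
    have e1 : rg z n = 1 / (Real.log n * GG (z (n + 1))) := by
      unfold rg DF
      rw [if_pos hf]
      field_simp
      ring
    have e2 : dens μ ℱ A n ω - rg z n = (dens μ ℱ A n ω * (Real.log n * GG (z (n + 1))) - 1) / (Real.log n * GG (z (n + 1))) := by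
      rw [e1]
      field_simp
    rw [e2, abs_div, abs_of_pos (mul_pos hL hG), e1, mul_one_div]
    exact div_le_div_of_nonneg_right h4.le (mul_pos hL hG).le
  · have e1 : rg z n = 0 := by
      unfold rg DF
      rw [if_neg hf]
      norm_num
    rw [h1 n hf, e1]
    simp

lemma rg_bdd (hA : ∀ n, MeasurableSet[ℱ n] (A n)) {z : ℕ → ℕ}
    (hd : ∀ᵐ ω ∂μ, ∀ ε : ℝ, 0 < ε → ∀ᶠ n : ℕ in atTop, |dens μ ℱ A n ω - rg z n| ≤ ε * rg z n) :
    ∃ c, ∀ n, rg z n ≤ c := by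
  have hne : ∃ ω, (∀ ε : ℝ, 0 < ε → ∀ᶠ n : ℕ in atTop, |dens μ ℱ A n ω - rg z n| ≤ ε * rg z n) ∧
      ∀ n, DD' μ ℱ A n ω = dens μ ℱ A n ω := (hd.and (DD'_ae (μ := μ) hA)).exists
  obtain ⟨ω, h1, h2⟩ := hne
  obtain ⟨n₀, hn₀⟩ := eventually_atTop.1 (h1 (1 / 2) (by norm_num))
  refine ⟨2 + ∑ i ∈ Finset.range n₀, rg z i, fun n => ?_⟩
  have hs : 0 ≤ ∑ i ∈ Finset.range n₀, rg z i := Finset.sum_nonneg fun i _ => rg_nonneg z i
  rcases lt_or_ge n n₀ with h | h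
  · have := Finset.single_le_sum (f := fun i => rg z i) (fun i _ => rg_nonneg z i) (Finset.mem_range.2 h)
    linarith
  · have h3 := abs_le.1 (hn₀ n h)
    have h4 : dens μ ℱ A n ω ≤ 1 := by
      rw [← h2 n]
      exact (DD'_bd n ω).2
    linarith [h3.1]

/-- **intervals of length `(log x)^a` in models sieved by small primes** -/
theorem gran_all (κ : ℝ) : ∃ c : ℝ, 0 < c ∧ ∀ {Ω : Type} {m0 : MeasurableSpace Ω} (μ : Measure Ω) [IsProbabilityMeasure μ]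
    (ℱ : Filtration ℕ m0) (A : ℕ → Set Ω) (z : ℕ → ℕ), (∀ n, MeasurableSet[ℱ n] (A n)) → Monotone z →
    (∀ᶠ n : ℕ in atTop, (z n : ℝ) ≤ Real.log n ^ κ) → (∀ n, ¬ Free (z n) n → A n = ∅) →
    (∀ᵐ ω ∂μ, Tendsto (fun n : ℕ => dens μ ℱ A n ω * (Real.log n * GG (z (n + 1))))
      (atTop ⊓ 𝓟 {n : ℕ | Free (z (n + 1)) (n + 1)}) (𝓝 1)) →
    ∀ᵐ ω ∂μ, ∀ a : ℝ, 1 ≤ c * a → ∀ᶠ X : ℝ in atTop,
      |Real.log X / Real.log X ^ a * (∑ m ∈ Finset.Ioc ⌊X⌋₊ ⌊X + Real.log X ^ a⌋₊, J1 A m ω) - 1| ≤ Real.exp (-(c * a)) := by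
  obtain ⟨C0, K0, hC, hK, hv⟩ := var_level
  set κ1 : ℝ := max κ 1 with hκ1
  have hκ1' : 1 ≤ κ1 := le_max_right _ _
  have hC' : (1 : ℝ) ≤ C0 := by exact_mod_cast hC
  set c : ℝ := 1 / (24 * (C0 * κ1) * (C0 + 2)) with hc
  have hc0 : 0 < c := by positivity
  refine ⟨c, hc0, fun {Ω m0} μ _ ℱ A z hA hz hzκ hempty hd => ?_⟩
  have hd' := rg_hd (μ := μ) (ℱ := ℱ) hempty hd
  have hzκ1 : ∀ᶠ n : ℕ in atTop, (z n : ℝ) ≤ Real.log n ^ κ1 := by
    filter_upwards [hzκ, tendsto_logN.eventually_ge_atTop 1] with n hn hn1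
    exact hn.trans (Real.rpow_le_rpow_of_exponent_le hn1 (le_max_left _ _))
  filter_upwards [conc_windows (μ := μ) hA (rg_nonneg z) (rg_bdd (μ := μ) hA hd') hd'] with ω hω
  intro a ha
  have hD : 0 < 24 * (C0 * κ1) * ((C0 : ℝ) + 2) := by positivity
  have ha1 : 24 * (C0 * κ1) * ((C0 : ℝ) + 2) ≤ a := by
    rw [hc, one_div, ← div_eq_inv_mul, le_div_iff₀ hD, one_mul] at ha
    exact ha
  have hCκ : 1 ≤ C0 * κ1 := by nlinarith
  have hCκ0 : 0 < C0 * κ1 := by linarith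
  set q : ℝ := a / (4 * (C0 * κ1)) with hq
  have hqa : a = 4 * (C0 * κ1) * q := by
    rw [hq]
    field_simp
  have hq1 : 6 * ((C0 : ℝ) + 2) ≤ q := by
    rw [hq, le_div_iff₀ (by positivity)]
    calc 6 * ((C0 : ℝ) + 2) * (4 * (C0 * κ1)) = 24 * (C0 * κ1) * ((C0 : ℝ) + 2) := by ring
      _ ≤ a := ha1
  set b : ℕ := ⌊q - 1⌋₊ with hb
  have hb1 : (b : ℝ) ≤ q - 1 := Nat.floor_le (by linarith)
  have hb2 : q - 1 < (b : ℝ) + 1 := Nat.lt_floor_add_one _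
  have hbC : C0 ≤ b := by
    have : (C0 : ℝ) < b := by linarith
    exact_mod_cast this.le
  have ha2 : 2 < a := by nlinarith
  have has : κ1 * ((4 * (C0 * b) + 3 : ℕ) : ℝ) < a := by
    push_cast
    rw [hqa]
    have h1 : 4 * (C0 * (b : ℝ)) + 3 < 4 * (C0 * q) := by
      have : (C0 : ℝ) * b ≤ C0 * (q - 1) := mul_le_mul_of_nonneg_left hb1 (by linarith)
      nlinarith
    calc κ1 * (4 * (C0 * (b : ℝ)) + 3) < κ1 * (4 * (C0 * q)) := mul_lt_mul_of_pos_left h1 (by linarith)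
      _ = _ := by ring
  have key := gran_core hz (by linarith) hzκ1 hω (hv b hbC) ha2 has (η := (1 / 2 : ℝ) ^ b) (by positivity)
  filter_upwards [key] with X hX
  refine hX.trans ?_
  have hlog2 : (1 / 2 : ℝ) ≤ Real.log 2 := by
    have := Real.log_two_gt_d9
    linarith
  have e1 : (1 / 2 : ℝ) ^ b = Real.exp (-(b * Real.log 2)) := by
    rw [Real.exp_neg, Real.exp_nat_mul, Real.exp_log (by norm_num), one_div, inv_pow]
  have e2 : (1 / 2 : ℝ) ^ b + (1 / 2 : ℝ) ^ b = Real.exp (-((b - 1) * Real.log 2)) := by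
    rw [show -(((b : ℝ) - 1) * Real.log 2) = -(b * Real.log 2) + Real.log 2 by ring, Real.exp_add, Real.exp_log (by norm_num), ← e1]
    ring
  rw [e2]
  apply Real.exp_le_exp.2
  have h5 : c * a ≤ q / 4 := by
    have : c ≤ 1 / (16 * (C0 * κ1)) := by
      rw [hc]
      apply one_div_le_one_div_of_le (by positivity)
      nlinarith
    calc c * a ≤ 1 / (16 * (C0 * κ1)) * a := mul_le_mul_of_nonneg_right this (by linarith)
      _ = q / 4 := by
          rw [hq]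
          field_simp
          norm_num
  have h6 : q / 4 ≤ (b - 1) * Real.log 2 := by
    have h7 : q / 2 ≤ (b : ℝ) - 1 := by linarith
    have h8 : 0 ≤ (b : ℝ) - 1 := by linarith
    nlinarith
  linarith

/-- every `a > 2` is admissible when `z` is smaller than every power of the logarithm -/
theorem gran_small {Ω : Type} {m0 : MeasurableSpace Ω} (μ : Measure Ω) [IsProbabilityMeasure μ]
    (ℱ : Filtration ℕ m0) (A : ℕ → Set Ω) (z : ℕ → ℕ) (hA : ∀ n, MeasurableSet[ℱ n] (A n)) (hz : Monotone z)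
    (hzκ : ∀ κ : ℝ, 0 < κ → ∀ᶠ n : ℕ in atTop, (z n : ℝ) ≤ Real.log n ^ κ) (hempty : ∀ n, ¬ Free (z n) n → A n = ∅)
    (hd : ∀ᵐ ω ∂μ, Tendsto (fun n : ℕ => dens μ ℱ A n ω * (Real.log n * GG (z (n + 1))))
      (atTop ⊓ 𝓟 {n : ℕ | Free (z (n + 1)) (n + 1)}) (𝓝 1)) :
    ∀ᵐ ω ∂μ, ∀ a : ℝ, 2 < a →
      Tendsto (fun X : ℝ => Real.log X / Real.log X ^ a * (∑ m ∈ Finset.Ioc ⌊X⌋₊ ⌊X + Real.log X ^ a⌋₊, J1 A m ω)) atTop (𝓝 1) := by
  obtain ⟨C0, K0, hC, hK, hv⟩ := var_level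
  have hd' := rg_hd (μ := μ) (ℱ := ℱ) hempty hd
  filter_upwards [conc_windows (μ := μ) hA (rg_nonneg z) (rg_bdd (μ := μ) hA hd') hd'] with ω hω
  intro a ha
  rw [Metric.tendsto_nhds]
  intro ε hε
  obtain ⟨b0, hb0⟩ := exists_pow_lt_of_lt_one (show (0 : ℝ) < ε / 2 by positivity) (show (1 / 2 : ℝ) < 1 by norm_num)
  set b := max b0 C0 with hb
  have hbε : (1 / 2 : ℝ) ^ b ≤ (1 / 2 : ℝ) ^ b0 := pow_le_pow_of_le_one (by norm_num) (by norm_num) (le_max_left _ _)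
  set e0 : ℕ := 4 * (C0 * b) + 3 with he0
  have he : (0 : ℝ) < (e0 : ℝ) := by
    have : 0 < e0 := by omega
    exact_mod_cast this
  have hκ : 0 < a / (2 * e0) := by positivity
  have has : a / (2 * e0) * (e0 : ℕ) < a := by
    have : a / (2 * e0) * (e0 : ℕ) = a / 2 := by field_simp
    rw [this]
    linarith
  have key := gran_core hz hκ.le (hzκ _ hκ) hω (hv b (le_max_right _ _)) ha has (η := ε / 2) (by positivity)
  filter_upwards [key] with X hX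
  rw [Real.dist_eq]
  linarith

end Pool.Agent.N740.HK
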