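import Mathlib
import Pool.Agent.N740.HK.Conc
import Pool.Agent.N740.HK.Trials

/-!
# Moderate deviations of the number of chosen integers in a window
-/

set_option autoImplicit false
set_option linter.unusedSectionVars false

open MeasureTheory Filter Set
open scoped ENNReal Topology

namespace Pool.Agent.N740.HK

open Pool.Agent.R528.RM

variable {Ω : Type} {m0 : MeasurableSpace Ω} {μ : Measure Ω} [IsProbabilityMeasure μ]
  {ℱ : Filtration ℕ m0} {A : ℕ → Set Ω}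

/-- the exponential moment of one step -/
noncomputable def KK (x D : ℝ) : ℝ := Real.exp (-(x * D)) * (1 + D * (Real.exp x - 1))

lemma ex_id (x : ℝ) (n : ℕ) (ω : Ω) : Real.exp (x * (J1 A (n + 1) ω - DD' μ ℱ A n ω)) =
    KK x (DD' μ ℱ A n ω) + Real.exp (-(x * DD' μ ℱ A n ω)) * (Real.exp x - 1) * (J1 A (n + 1) ω - DD' μ ℱ A n ω) := by
  have e : Real.exp (x * J1 A (n + 1) ω) = 1 + (Real.exp x - 1) * J1 A (n + 1) ω := by
    unfold J1
    by_cases h : ω ∈ A (n + 1)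
    · rw [indicator_of_mem h]
      ring_nf
    · rw [indicator_of_notMem h]
      simp
  have e2 : x * (J1 A (n + 1) ω - DD' μ ℱ A n ω) = -(x * DD' μ ℱ A n ω) + x * J1 A (n + 1) ω := by ring
  rw [e2, Real.exp_add, e]
  unfold KK
  ring

lemma ed_bd (x : ℝ) (n : ℕ) (ω : Ω) : |Real.exp (-(x * DD' μ ℱ A n ω))| ≤ Real.exp |x| := by
  rw [abs_of_pos (Real.exp_pos _)]
  apply Real.exp_le_exp.2
  have h := DD'_bd (μ := μ) (ℱ := ℱ) (A := A) n ω
  have h1 := neg_abs_le x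
  have h2 := abs_nonneg x
  nlinarith

lemma e1_bd (x : ℝ) : |Real.exp x - 1| ≤ Real.exp |x| := by
  have h1 := Real.exp_pos x
  have h2 : Real.exp x ≤ Real.exp |x| := Real.exp_le_exp.2 (le_abs_self x)
  have h3 : (1 : ℝ) ≤ Real.exp |x| := Real.one_le_exp (abs_nonneg x)
  rw [abs_le]
  constructor <;> linarith

lemma ex_step (hA : ∀ n, MeasurableSet[ℱ n] (A n)) {n : ℕ} {F : Ω → ℝ} (hF : StronglyMeasurable[ℱ n] F) {c : ℝ}
    (hc : ∀ ω, |F ω| ≤ c) (x : ℝ) :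
    Integrable (fun ω => F ω * Real.exp (x * (J1 A (n + 1) ω - DD' μ ℱ A n ω))) μ ∧
    Integrable (fun ω => F ω * KK x (DD' μ ℱ A n ω)) μ ∧
    ∫ ω, F ω * Real.exp (x * (J1 A (n + 1) ω - DD' μ ℱ A n ω)) ∂μ = ∫ ω, F ω * KK x (DD' μ ℱ A n ω) ∂μ := by
  have hDm : StronglyMeasurable[ℱ n] (DD' μ ℱ A n) := DD'_meas n
  have hEm : StronglyMeasurable[ℱ n] (fun ω => Real.exp (-(x * DD' μ ℱ A n ω))) :=
    Real.continuous_exp.comp_stronglyMeasurable (hDm.const_mul x).neg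
  have hGm : StronglyMeasurable[ℱ n] (fun ω => F ω * (Real.exp (-(x * DD' μ ℱ A n ω)) * (Real.exp x - 1))) :=
    hF.mul (hEm.mul_const _)
  have hc0 : 0 ≤ c := (abs_nonneg _).trans (hc (Classical.choice (by
    by_contra h
    rw [not_nonempty_iff] at h
    exact IsProbabilityMeasure.ne_zero μ (Measure.eq_zero_of_isEmpty μ))))
  have hG : ∀ ω, |F ω * (Real.exp (-(x * DD' μ ℱ A n ω)) * (Real.exp x - 1))| ≤ c * (Real.exp |x| * Real.exp |x|) := by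
    intro ω
    rw [abs_mul, abs_mul]
    exact mul_le_mul (hc ω) (mul_le_mul (ed_bd x n ω) (e1_bd x) (abs_nonneg _) (Real.exp_pos _).le)
      (mul_nonneg (abs_nonneg _) (abs_nonneg _)) hc0
  have k1 := jkey_int (μ := μ) hA (n := n) hGm hG
  have hKm : StronglyMeasurable[ℱ n] (fun ω => F ω * KK x (DD' μ ℱ A n ω)) := by
    refine hF.mul ?_
    unfold KK
    exact hEm.mul ((@stronglyMeasurable_const _ _ (ℱ n) _ (1 : ℝ)).add (hDm.mul_const _))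
  have hKb : ∀ ω, |F ω * KK x (DD' μ ℱ A n ω)| ≤ c * (Real.exp |x| * (1 + Real.exp |x|)) := by
    intro ω
    unfold KK
    rw [abs_mul, abs_mul]
    refine mul_le_mul (hc ω) (mul_le_mul (ed_bd x n ω) ?_ (abs_nonneg _) (Real.exp_pos _).le)
      (mul_nonneg (abs_nonneg _) (abs_nonneg _)) hc0
    refine (abs_add_le _ _).trans ?_
    rw [abs_one, abs_mul]
    have h := DD'_bd (μ := μ) (ℱ := ℱ) (A := A) n ω
    have h1 : |DD' μ ℱ A n ω| ≤ 1 := by rw [abs_of_nonneg h.1]; exact h.2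
    have h2 := mul_le_mul h1 (e1_bd x) (abs_nonneg _) zero_le_one
    linarith
  have i1 : Integrable (fun ω => F ω * KK x (DD' μ ℱ A n ω)) μ := intb (hKm.mono (ℱ.le _)) hKb
  have i2 : Integrable (fun ω => F ω * (Real.exp (-(x * DD' μ ℱ A n ω)) * (Real.exp x - 1)) *
      (J1 A (n + 1) ω - DD' μ ℱ A n ω)) μ := by
    refine intb (c := c * (Real.exp |x| * Real.exp |x|)) ?_ fun ω => ?_
    · exact (hGm.mono (ℱ.le _)).mul (((J1_meas hA (n + 1)).mono (ℱ.le _)).sub (hDm.mono (ℱ.le _)))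
    · rw [abs_mul]
      calc _ ≤ (c * (Real.exp |x| * Real.exp |x|)) * 1 :=
            mul_le_mul (hG ω) (JD_abs n ω) (abs_nonneg _) (by positivity)
        _ = _ := mul_one _
  have e0 : (fun ω => F ω * Real.exp (x * (J1 A (n + 1) ω - DD' μ ℱ A n ω))) =
      fun ω => F ω * KK x (DD' μ ℱ A n ω) + F ω * (Real.exp (-(x * DD' μ ℱ A n ω)) * (Real.exp x - 1)) *
      (J1 A (n + 1) ω - DD' μ ℱ A n ω) := by
    funext ω
    rw [ex_id]
    ring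
  rw [e0]
  refine ⟨i1.add i2, i1, ?_⟩
  rw [integral_add i1 i2, k1, add_zero]

/-- the weighted sum over the window after `T` -/
noncomputable def SW (μ : Measure Ω) (ℱ : Filtration ℕ m0) (A : ℕ → Set Ω) (σ : ℕ → ℝ) (T j : ℕ) (ω : Ω) : ℝ :=
  ∑ i ∈ Finset.range j, σ i * (J1 A (T + i + 1) ω - DD' μ ℱ A (T + i) ω)

/-- the densities are between `l` and `u` -/
def GW (μ : Measure Ω) (ℱ : Filtration ℕ m0) (A : ℕ → Set Ω) (l u : ℝ) (T j : ℕ) : Set Ω :=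
  {ω | ∀ i, i < j → l ≤ DD' μ ℱ A (T + i) ω ∧ DD' μ ℱ A (T + i) ω ≤ u}

/-- the remaining quadratic weight -/
noncomputable def RW (σ : ℕ → ℝ) (H j : ℕ) : ℝ := ∑ i ∈ Finset.Ico j H, σ i ^ 2

lemma RW_nonneg (σ : ℕ → ℝ) (H j : ℕ) : 0 ≤ RW σ H j := Finset.sum_nonneg fun _ _ => sq_nonneg _

lemma RW_self (σ : ℕ → ℝ) (H : ℕ) : RW σ H H = 0 := by simp [RW]

lemma RW_step (σ : ℕ → ℝ) {H j : ℕ} (h : j < H) : RW σ H j = σ j ^ 2 + RW σ H (j + 1) := by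
  unfold RW
  exact Finset.sum_eq_sum_Ico_succ_bot h _

lemma SW_succ (σ : ℕ → ℝ) (T j : ℕ) (ω : Ω) : SW μ ℱ A σ T (j + 1) ω =
    SW μ ℱ A σ T j ω + σ j * (J1 A (T + j + 1) ω - DD' μ ℱ A (T + j) ω) := Finset.sum_range_succ _ _

lemma SW_meas (hA : ∀ n, MeasurableSet[ℱ n] (A n)) (σ : ℕ → ℝ) (T j : ℕ) : StronglyMeasurable[ℱ (T + j)] (SW μ ℱ A σ T j) := by
  have e : SW μ ℱ A σ T j = fun ω => ∑ i ∈ Finset.range j, σ i * (J1 A (T + i + 1) ω - DD' μ ℱ A (T + i) ω) := rfl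
  rw [e]
  refine Finset.stronglyMeasurable_fun_sum _ fun i hi => ?_
  have hi := Finset.mem_range.1 hi
  exact (((J1_meas hA (T + i + 1)).mono (ℱ.mono (by omega))).sub ((DD'_meas (T + i)).mono (ℱ.mono (by omega)))).const_mul _

lemma SW_abs {σ : ℕ → ℝ} (hσ : ∀ i, |σ i| ≤ 1) (T j : ℕ) (ω : Ω) : |SW μ ℱ A σ T j ω| ≤ j := by
  unfold SW
  refine (Finset.abs_sum_le_sum_abs _ _).trans ?_
  have h0 : ∑ t ∈ Finset.range j, (1 : ℝ) = j := by simp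
  rw [← h0]
  refine Finset.sum_le_sum fun t _ => ?_
  rw [abs_mul]
  exact mul_le_one₀ (hσ t) (abs_nonneg _) (JD_abs _ ω)

lemma GW_meas (l u : ℝ) (T j : ℕ) : MeasurableSet[ℱ (T + j)] (GW μ ℱ A l u T (j + 1)) := by
  have e : GW μ ℱ A l u T (j + 1) = ⋂ i ∈ Finset.range (j + 1), {ω | l ≤ DD' μ ℱ A (T + i) ω ∧ DD' μ ℱ A (T + i) ω ≤ u} := by
    ext ω
    simp [GW]
  rw [e]
  refine Finset.measurableSet_biInter _ fun i hi => ?_
  have hi := Finset.mem_range.1 hi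
  have h1 : Measurable[ℱ (T + j)] (DD' μ ℱ A (T + i)) := ((DD'_meas (T + i)).mono (ℱ.mono (by omega))).measurable
  exact (measurableSet_le (@measurable_const _ _ _ (ℱ (T + j)) _) h1).inter
    (measurableSet_le h1 (@measurable_const _ _ _ (ℱ (T + j)) _))

lemma GW_meas' (l u : ℝ) (T j : ℕ) : MeasurableSet[ℱ (T + j)] (GW μ ℱ A l u T j) := by
  cases j with
  | zero =>
    have : GW μ ℱ A l u T 0 = univ := by ext ω; simp [GW]
    rw [this]
    exact MeasurableSet.univ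
  | succ j => exact ℱ.mono (by omega) _ (GW_meas l u T j)

lemma GW_anti (l u : ℝ) (T j : ℕ) : GW μ ℱ A l u T (j + 1) ⊆ GW μ ℱ A l u T j := fun ω h i hi => h i (by omega)

/-- the exponential functional -/
noncomputable def EW (μ : Measure Ω) (ℱ : Filtration ℕ m0) (A : ℕ → Set Ω) (σ : ℕ → ℝ) (T H : ℕ) (x γ : ℝ) (j : ℕ) (ω : Ω) : ℝ :=
  Real.exp (x * SW μ ℱ A σ T j ω + γ * x ^ 2 * RW σ H j)

lemma EW_meas (hA : ∀ n, MeasurableSet[ℱ n] (A n)) (σ : ℕ → ℝ) (T H : ℕ) (x γ : ℝ) (j : ℕ) :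
    StronglyMeasurable[ℱ (T + j)] (EW μ ℱ A σ T H x γ j) :=
  Real.continuous_exp.comp_stronglyMeasurable (((SW_meas hA σ T j).const_mul x).add
    (@stronglyMeasurable_const _ _ (ℱ (T + j)) _ _))

lemma EW_abs {σ : ℕ → ℝ} (hσ : ∀ i, |σ i| ≤ 1) (T H : ℕ) (x γ : ℝ) (j : ℕ) (ω : Ω) :
    |EW μ ℱ A σ T H x γ j ω| ≤ Real.exp (|x| * j + γ * x ^ 2 * RW σ H j) := by
  unfold EW
  rw [abs_of_pos (Real.exp_pos _)]
  apply Real.exp_le_exp.2
  have h1 := SW_abs (μ := μ) (ℱ := ℱ) (A := A) hσ T j ω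
  have h2 : x * SW μ ℱ A σ T j ω ≤ |x| * j := by
    calc x * SW μ ℱ A σ T j ω ≤ |x * SW μ ℱ A σ T j ω| := le_abs_self _
      _ = |x| * |SW μ ℱ A σ T j ω| := abs_mul _ _
      _ ≤ |x| * j := mul_le_mul_of_nonneg_left h1 (abs_nonneg _)
  linarith

lemma EW_int (hA : ∀ n, MeasurableSet[ℱ n] (A n)) {σ : ℕ → ℝ} (hσ : ∀ i, |σ i| ≤ 1) (T H : ℕ) (x γ : ℝ) (j : ℕ) :
    Integrable (EW μ ℱ A σ T H x γ j) μ :=
  intb ((EW_meas hA σ T H x γ j).mono (ℱ.le _)) (EW_abs hσ T H x γ j)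

lemma EW_step (hA : ∀ n, MeasurableSet[ℱ n] (A n)) {σ : ℕ → ℝ} (hσ : ∀ i, |σ i| ≤ 1) {T H : ℕ} (x γ : ℝ) {j : ℕ} (hj : j < H)
    {C : Set Ω} (hC : MeasurableSet[ℱ (T + j)] C) :
    Integrable (fun ω => EW μ ℱ A σ T H x γ j ω * (KK (x * σ j) (DD' μ ℱ A (T + j) ω) * Real.exp (-(γ * (x * σ j) ^ 2)))) μ ∧
    ∫ ω in C, EW μ ℱ A σ T H x γ (j + 1) ω ∂μ = ∫ ω in C, EW μ ℱ A σ T H x γ j ω *
      (KK (x * σ j) (DD' μ ℱ A (T + j) ω) * Real.exp (-(γ * (x * σ j) ^ 2))) ∂μ := by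
  have hC' : MeasurableSet C := ℱ.le _ _ hC
  have key : ∀ C : Set Ω, MeasurableSet[ℱ (T + j)] C →
      Integrable (fun ω => C.indicator (fun ω => EW μ ℱ A σ T H x γ j ω * Real.exp (-(γ * (x * σ j) ^ 2))) ω *
        KK (x * σ j) (DD' μ ℱ A (T + j) ω)) μ ∧
      ∫ ω, C.indicator (fun ω => EW μ ℱ A σ T H x γ j ω * Real.exp (-(γ * (x * σ j) ^ 2))) ω *
        Real.exp ((x * σ j) * (J1 A (T + j + 1) ω - DD' μ ℱ A (T + j) ω)) ∂μ =
      ∫ ω, C.indicator (fun ω => EW μ ℱ A σ T H x γ j ω * Real.exp (-(γ * (x * σ j) ^ 2))) ω *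
        KK (x * σ j) (DD' μ ℱ A (T + j) ω) ∂μ := by
    intro C hC
    have hm : StronglyMeasurable[ℱ (T + j)] (C.indicator (fun ω => EW μ ℱ A σ T H x γ j ω * Real.exp (-(γ * (x * σ j) ^ 2)))) :=
      ((EW_meas hA σ T H x γ j).mul_const _).indicator hC
    have hb : ∀ ω, |C.indicator (fun ω => EW μ ℱ A σ T H x γ j ω * Real.exp (-(γ * (x * σ j) ^ 2))) ω| ≤
        Real.exp (|x| * j + γ * x ^ 2 * RW σ H j) * Real.exp (-(γ * (x * σ j) ^ 2)) := by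
      intro ω
      by_cases h : ω ∈ C
      · rw [indicator_of_mem h, abs_mul, abs_of_pos (Real.exp_pos (-(γ * (x * σ j) ^ 2)))]
        exact mul_le_mul_of_nonneg_right (EW_abs hσ T H x γ j ω) (Real.exp_pos _).le
      · rw [indicator_of_notMem h, abs_zero]
        positivity
    obtain ⟨_, h2, h3⟩ := ex_step (μ := μ) hA hm hb (x * σ j)
    exact ⟨h2, h3⟩
  constructor
  · have h := (key univ MeasurableSet.univ).1
    simp only [indicator_univ] at h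
    refine h.congr (Eventually.of_forall fun ω => ?_)
    show _ = _
    ring
  · have h := (key C hC).2
    rw [← integral_indicator hC', ← integral_indicator hC']
    have e1 : (fun ω => C.indicator (EW μ ℱ A σ T H x γ (j + 1)) ω) = fun ω =>
        C.indicator (fun ω => EW μ ℱ A σ T H x γ j ω * Real.exp (-(γ * (x * σ j) ^ 2))) ω *
        Real.exp ((x * σ j) * (J1 A (T + j + 1) ω - DD' μ ℱ A (T + j) ω)) := by
      funext ω
      by_cases hω : ω ∈ C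
      · rw [indicator_of_mem hω, indicator_of_mem hω]
        unfold EW
        rw [SW_succ, RW_step σ hj, ← Real.exp_add, ← Real.exp_add]
        congr 1
        ring
      · rw [indicator_of_notMem hω, indicator_of_notMem hω, zero_mul]
    have e2 : (fun ω => C.indicator (fun ω => EW μ ℱ A σ T H x γ j ω *
      (KK (x * σ j) (DD' μ ℱ A (T + j) ω) * Real.exp (-(γ * (x * σ j) ^ 2)))) ω) = fun ω =>
        C.indicator (fun ω => EW μ ℱ A σ T H x γ j ω * Real.exp (-(γ * (x * σ j) ^ 2))) ω *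
        KK (x * σ j) (DD' μ ℱ A (T + j) ω) := by
      funext ω
      by_cases hω : ω ∈ C
      · rw [indicator_of_mem hω, indicator_of_mem hω]
        ring
      · rw [indicator_of_notMem hω, indicator_of_notMem hω, zero_mul]
    rw [show (fun a => C.indicator (fun ω => EW μ ℱ A σ T H x γ (j + 1) ω) a) = _ from e1, e2, h]

/-- upper step -/
lemma EW_up (hA : ∀ n, MeasurableSet[ℱ n] (A n)) {σ : ℕ → ℝ} (hσ : ∀ i, |σ i| ≤ 1) {T H : ℕ} {x γ l u : ℝ} {j : ℕ} (hj : j < H)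
    (hγ : ∀ D, l ≤ D → D ≤ u → KK (x * σ j) D ≤ Real.exp (γ * (x * σ j) ^ 2))
    {C : Set Ω} (hC : MeasurableSet[ℱ (T + j)] C) (hCG : C ⊆ GW μ ℱ A l u T (j + 1)) :
    ∫ ω in C, EW μ ℱ A σ T H x γ (j + 1) ω ∂μ ≤ ∫ ω in C, EW μ ℱ A σ T H x γ j ω ∂μ := by
  obtain ⟨h1, h2⟩ := EW_step (μ := μ) hA hσ x γ hj hC
  rw [h2]
  refine setIntegral_mono_on h1.integrableOn (EW_int hA hσ T H x γ j).integrableOn (ℱ.le _ _ hC) fun ω hω => ?_
  have h3 := hCG hω j (by omega)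
  have h4 := hγ _ h3.1 h3.2
  have h5 : KK (x * σ j) (DD' μ ℱ A (T + j) ω) * Real.exp (-(γ * (x * σ j) ^ 2)) ≤ 1 := by
    calc _ ≤ Real.exp (γ * (x * σ j) ^ 2) * Real.exp (-(γ * (x * σ j) ^ 2)) :=
          mul_le_mul_of_nonneg_right h4 (Real.exp_pos _).le
      _ = 1 := by rw [← Real.exp_add, add_neg_cancel, Real.exp_zero]
  calc _ ≤ EW μ ℱ A σ T H x γ j ω * 1 := mul_le_mul_of_nonneg_left h5 (Real.exp_pos _).le
    _ = _ := mul_one _

/-- lower step -/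
lemma EW_lo (hA : ∀ n, MeasurableSet[ℱ n] (A n)) {σ : ℕ → ℝ} (hσ : ∀ i, |σ i| ≤ 1) {T H : ℕ} {x γ l u : ℝ} {j : ℕ} (hj : j < H)
    (hγ : ∀ D, l ≤ D → D ≤ u → Real.exp (γ * (x * σ j) ^ 2) ≤ KK (x * σ j) D)
    {C : Set Ω} (hC : MeasurableSet[ℱ (T + j)] C) (hCG : C ⊆ GW μ ℱ A l u T (j + 1)) :
    ∫ ω in C, EW μ ℱ A σ T H x γ j ω ∂μ ≤ ∫ ω in C, EW μ ℱ A σ T H x γ (j + 1) ω ∂μ := by
  obtain ⟨h1, h2⟩ := EW_step (μ := μ) hA hσ x γ hj hC
  rw [h2]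
  refine setIntegral_mono_on (EW_int hA hσ T H x γ j).integrableOn h1.integrableOn (ℱ.le _ _ hC) fun ω hω => ?_
  have h3 := hCG hω j (by omega)
  have h4 := hγ _ h3.1 h3.2
  have h5 : 1 ≤ KK (x * σ j) (DD' μ ℱ A (T + j) ω) * Real.exp (-(γ * (x * σ j) ^ 2)) := by
    calc (1 : ℝ) = Real.exp (γ * (x * σ j) ^ 2) * Real.exp (-(γ * (x * σ j) ^ 2)) := by
          rw [← Real.exp_add, add_neg_cancel, Real.exp_zero]
      _ ≤ _ := mul_le_mul_of_nonneg_right h4 (Real.exp_pos _).le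
  calc EW μ ℱ A σ T H x γ j ω = EW μ ℱ A σ T H x γ j ω * 1 := (mul_one _).symm
    _ ≤ _ := mul_le_mul_of_nonneg_left h5 (Real.exp_pos _).le

end Pool.Agent.N740.HK
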