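import Mathlib
import Pool.Agent.N740.HK.Fl

/-!
# Moderate deviations: the two inequalities
-/

set_option autoImplicit false
set_option linter.unusedSectionVars false

open MeasureTheory Filter Set
open scoped ENNReal Topology

namespace Pool.Agent.N740.HK

open Pool.Agent.R528.RM

variable {Ω : Type} {m0 : MeasurableSpace Ω} {μ : Measure Ω} [IsProbabilityMeasure μ]
  {ℱ : Filtration ℕ m0} {A : ℕ → Set Ω}

/-- the test function -/
noncomputable def qq (lam θ a b α β R s : ℝ) : ℝ :=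
  Real.exp (-(lam * b)) * Real.exp (lam * s + α * lam ^ 2 * R)
  - Real.exp (θ * a - lam * b) * Real.exp ((lam - θ) * s + β * (lam - θ) ^ 2 * R)
  - Real.exp (-(θ * b) - lam * b) * Real.exp ((lam + θ) * s + β * (lam + θ) ^ 2 * R)

lemma qq_le_one {lam θ a b α β R s : ℝ} (hlam : 0 < lam) (hθ : 0 < θ) (hα : 0 ≤ α) (hαβ : α ≤ β) (hR : 0 ≤ R) :
    qq lam θ a b α β R s ≤ 1 := by
  unfold qq
  rw [← Real.exp_add, ← Real.exp_add, ← Real.exp_add]
  have p2 := Real.exp_pos (θ * a - lam * b + ((lam - θ) * s + β * (lam - θ) ^ 2 * R))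
  have p3 := Real.exp_pos (-(θ * b) - lam * b + ((lam + θ) * s + β * (lam + θ) ^ 2 * R))
  by_cases h : lam * (s - b + α * lam * R) ≤ 0
  · have h1 : Real.exp (-(lam * b) + (lam * s + α * lam ^ 2 * R)) ≤ 1 := by
      rw [Real.exp_le_one_iff]
      nlinarith
    linarith
  · push Not at h
    have h2 : 0 < s - b + α * lam * R := by
      by_contra h3
      push Not at h3
      nlinarith
    have h4 : Real.exp (-(lam * b) + (lam * s + α * lam ^ 2 * R)) ≤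
        Real.exp (-(θ * b) - lam * b + ((lam + θ) * s + β * (lam + θ) ^ 2 * R)) := by
      apply Real.exp_le_exp.2
      have h5 : α * (lam + θ) ^ 2 * R ≤ β * (lam + θ) ^ 2 * R :=
        mul_le_mul_of_nonneg_right (mul_le_mul_of_nonneg_right hαβ (sq_nonneg _)) hR
      have h6 : 0 ≤ θ * (s - b + α * lam * R) := mul_nonneg hθ.le h2.le
      have h7 : 0 ≤ α * R * (lam * θ) := mul_nonneg (mul_nonneg hα hR) (mul_nonneg hlam.le hθ.le)
      have h8 : 0 ≤ α * R * θ ^ 2 := mul_nonneg (mul_nonneg hα hR) (sq_nonneg _)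
      nlinarith
    linarith

lemma qq_end {lam θ a b α β s : ℝ} (hθ : 0 < θ) (h : s < a) : qq lam θ a b α β 0 s ≤ 0 := by
  unfold qq
  rw [← Real.exp_add, ← Real.exp_add, ← Real.exp_add]
  have p3 := Real.exp_pos (-(θ * b) - lam * b + ((lam + θ) * s + β * (lam + θ) ^ 2 * 0))
  have h1 : Real.exp (-(lam * b) + (lam * s + α * lam ^ 2 * 0)) ≤
      Real.exp (θ * a - lam * b + ((lam - θ) * s + β * (lam - θ) ^ 2 * 0)) := by
    apply Real.exp_le_exp.2
    nlinarith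
  linarith

/-- the test process -/
noncomputable def QW (μ : Measure Ω) (ℱ : Filtration ℕ m0) (A : ℕ → Set Ω) (σ : ℕ → ℝ) (T H : ℕ) (lam θ a b α β : ℝ) (j : ℕ)
    (ω : Ω) : ℝ := qq lam θ a b α β (RW σ H j) (SW μ ℱ A σ T j ω)

lemma QW_eq (σ : ℕ → ℝ) (T H : ℕ) (lam θ a b α β : ℝ) (j : ℕ) : QW μ ℱ A σ T H lam θ a b α β j = fun ω =>
    Real.exp (-(lam * b)) * EW μ ℱ A σ T H lam α j ω - Real.exp (θ * a - lam * b) * EW μ ℱ A σ T H (lam - θ) β j ω
    - Real.exp (-(θ * b) - lam * b) * EW μ ℱ A σ T H (lam + θ) β j ω := rfl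

lemma QW_int (hA : ∀ n, MeasurableSet[ℱ n] (A n)) {σ : ℕ → ℝ} (hσ : ∀ i, |σ i| ≤ 1) (T H : ℕ) (lam θ a b α β : ℝ) (j : ℕ) :
    Integrable (QW μ ℱ A σ T H lam θ a b α β j) μ := by
  rw [QW_eq]
  exact (((EW_int hA hσ T H lam α j).const_mul _).sub ((EW_int hA hσ T H (lam - θ) β j).const_mul _)).sub
    ((EW_int hA hσ T H (lam + θ) β j).const_mul _)

lemma QW_set (hA : ∀ n, MeasurableSet[ℱ n] (A n)) {σ : ℕ → ℝ} (hσ : ∀ i, |σ i| ≤ 1) (T H : ℕ) (lam θ a b α β : ℝ) (j : ℕ)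
    (C : Set Ω) : ∫ ω in C, QW μ ℱ A σ T H lam θ a b α β j ω ∂μ =
    Real.exp (-(lam * b)) * ∫ ω in C, EW μ ℱ A σ T H lam α j ω ∂μ
    - Real.exp (θ * a - lam * b) * ∫ ω in C, EW μ ℱ A σ T H (lam - θ) β j ω ∂μ
    - Real.exp (-(θ * b) - lam * b) * ∫ ω in C, EW μ ℱ A σ T H (lam + θ) β j ω ∂μ := by
  have i1 := (((EW_int (μ := μ) hA hσ T H lam α j).const_mul (Real.exp (-(lam * b)))).integrableOn (s := C))
  have i2 := (((EW_int (μ := μ) hA hσ T H (lam - θ) β j).const_mul (Real.exp (θ * a - lam * b))).integrableOn (s := C))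
  have i3 := (((EW_int (μ := μ) hA hσ T H (lam + θ) β j).const_mul (Real.exp (-(θ * b) - lam * b))).integrableOn (s := C))
  rw [QW_eq]
  have h1 := integral_sub (i1.sub i2) i3
  have h2 := integral_sub i1 i2
  simp only [Pi.sub_apply] at h1 h2
  rw [h1, h2, integral_const_mul, integral_const_mul, integral_const_mul]

lemma QW_step (hA : ∀ n, MeasurableSet[ℱ n] (A n)) {σ : ℕ → ℝ} (hσ : ∀ i, |σ i| ≤ 1) {T H : ℕ} {lam θ a b α β l u : ℝ} {j : ℕ}
    (hj : j < H) (h1 : ∀ D, l ≤ D → D ≤ u → Real.exp (α * (lam * σ j) ^ 2) ≤ KK (lam * σ j) D)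
    (h2 : ∀ D, l ≤ D → D ≤ u → KK ((lam - θ) * σ j) D ≤ Real.exp (β * ((lam - θ) * σ j) ^ 2))
    (h3 : ∀ D, l ≤ D → D ≤ u → KK ((lam + θ) * σ j) D ≤ Real.exp (β * ((lam + θ) * σ j) ^ 2))
    {C : Set Ω} (hC : MeasurableSet[ℱ (T + j)] C) (hCG : C ⊆ GW μ ℱ A l u T (j + 1)) :
    ∫ ω in C, QW μ ℱ A σ T H lam θ a b α β j ω ∂μ ≤ ∫ ω in C, QW μ ℱ A σ T H lam θ a b α β (j + 1) ω ∂μ := by
  rw [QW_set hA hσ, QW_set hA hσ]
  have k1 := mul_le_mul_of_nonneg_left (EW_lo (μ := μ) (H := H) hA hσ hj h1 hC hCG) (Real.exp_pos (-(lam * b))).le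
  have k2 := mul_le_mul_of_nonneg_left (EW_up (μ := μ) (H := H) hA hσ hj h2 hC hCG) (Real.exp_pos (θ * a - lam * b)).le
  have k3 := mul_le_mul_of_nonneg_left (EW_up (μ := μ) (H := H) hA hσ hj h3 hC hCG) (Real.exp_pos (-(θ * b) - lam * b)).le
  linarith

lemma setInt_le_real {f : Ω → ℝ} (hf : Integrable f μ) (h : ∀ ω, f ω ≤ 1) {C : Set Ω} (hC : MeasurableSet C) :
    ∫ ω in C, f ω ∂μ ≤ μ.real C := by
  have h1 : ∫ ω in C, f ω ∂μ ≤ ∫ ω in C, (1 : ℝ) ∂μ :=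
    setIntegral_mono_on hf.integrableOn (integrable_const _).integrableOn hC fun ω _ => h ω
  simpa using h1

/-- **moderate deviations, lower bound** -/
theorem fl_lower (hA : ∀ n, MeasurableSet[ℱ n] (A n)) {σ : ℕ → ℝ} (hσ : ∀ i, |σ i| ≤ 1) {T H : ℕ} {lam θ a b α β l u : ℝ}
    (hlam : 0 < lam) (hθ : 0 < θ) (hα : 0 ≤ α) (hαβ : α ≤ β)
    (h1 : ∀ j D, l ≤ D → D ≤ u → Real.exp (α * (lam * σ j) ^ 2) ≤ KK (lam * σ j) D)
    (h2 : ∀ j D, l ≤ D → D ≤ u → KK ((lam - θ) * σ j) D ≤ Real.exp (β * ((lam - θ) * σ j) ^ 2))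
    (h3 : ∀ j D, l ≤ D → D ≤ u → KK ((lam + θ) * σ j) D ≤ Real.exp (β * ((lam + θ) * σ j) ^ 2))
    {C : Set Ω} (hC : MeasurableSet[ℱ T] C) :
    qq lam θ a b α β (RW σ H 0) 0 * μ.real C ≤
      μ.real (C ∩ ({ω | a ≤ SW μ ℱ A σ T H ω} ∪ (GW μ ℱ A l u T H)ᶜ)) := by
  set Q : ℕ → Ω → ℝ := QW μ ℱ A σ T H lam θ a b α β with hQ
  set G : ℕ → Set Ω := GW μ ℱ A l u T with hG
  have hC0 : MeasurableSet C := ℱ.le _ _ hC
  have hG0 : ∀ j, MeasurableSet (G j) := fun j => ℱ.le _ _ (GW_meas' l u T j)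
  have hQ1 : ∀ j ω, Q j ω ≤ 1 := fun j ω => qq_le_one hlam hθ hα hαβ (RW_nonneg _ _ _)
  have hQi : ∀ j, Integrable (Q j) μ := fun j => QW_int hA hσ T H lam θ a b α β j
  set Φ : ℕ → ℝ := fun j => ∫ ω in C ∩ G j, Q j ω ∂μ + μ.real (C \ G j) with hΦ
  have step : ∀ j, j < H → Φ j ≤ Φ (j + 1) := by
    intro j hj
    have hsub : G (j + 1) ⊆ G j := GW_anti l u T j
    have e1 : C ∩ G j ∩ G (j + 1) = C ∩ G (j + 1) := by
      rw [inter_assoc, inter_eq_right.2 hsub]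
    have e2 := integral_inter_add_sdiff (μ := μ) (s := C ∩ G j) (hG0 (j + 1)) (hQi j).integrableOn
    rw [e1] at e2
    have e3 : ∫ ω in (C ∩ G j) \ G (j + 1), Q j ω ∂μ ≤ μ.real ((C ∩ G j) \ G (j + 1)) :=
      setInt_le_real (hQi j) (hQ1 j) ((hC0.inter (hG0 j)).diff (hG0 (j + 1)))
    have e4 : ∫ ω in C ∩ G (j + 1), Q j ω ∂μ ≤ ∫ ω in C ∩ G (j + 1), Q (j + 1) ω ∂μ :=
      QW_step hA hσ hj (h1 j) (h2 j) (h3 j) ((ℱ.mono (by omega) _ hC).inter (GW_meas l u T j)) inter_subset_right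
    have e5 : μ.real (C \ G (j + 1)) = μ.real ((C ∩ G j) \ G (j + 1)) + μ.real (C \ G j) := by
      have e6 : C \ G (j + 1) = (C ∩ G j) \ G (j + 1) ∪ C \ G j := by
        ext ω
        simp only [Set.mem_sdiff, mem_union, mem_inter_iff]
        constructor
        · rintro ⟨a1, a2⟩
          by_cases a3 : ω ∈ G j
          · exact Or.inl ⟨⟨a1, a3⟩, a2⟩
          · exact Or.inr ⟨a1, a3⟩
        · rintro (⟨⟨a1, _⟩, a2⟩ | ⟨a1, a2⟩)
          · exact ⟨a1, a2⟩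
          · exact ⟨a1, fun a3 => a2 (hsub a3)⟩
      rw [e6]
      refine measureReal_union ?_ (hC0.diff (hG0 j))
      rw [Set.disjoint_left]
      rintro ω ⟨⟨_, a1⟩, _⟩ ⟨_, a2⟩
      exact a2 a1
    simp only [hΦ]
    rw [e5, ← e2]
    linarith
  have hmon : ∀ j, j ≤ H → Φ 0 ≤ Φ j := by
    intro j
    induction j with
    | zero => exact fun _ => le_rfl
    | succ j ih => exact fun hj => (ih (by omega)).trans (step j (by omega))
  have hfin := hmon H le_rfl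
  have hG00 : G 0 = univ := by ext ω; simp [hG, GW]
  have e0 : Φ 0 = qq lam θ a b α β (RW σ H 0) 0 * μ.real C := by
    simp only [hΦ, hG00, inter_univ, sdiff_univ, measureReal_empty, add_zero]
    have : ∀ ω, Q 0 ω = qq lam θ a b α β (RW σ H 0) 0 := by
      intro ω
      simp [hQ, QW, SW]
    simp only [this]
    rw [setIntegral_const, smul_eq_mul, mul_comm]
  have hSm : MeasurableSet {ω | a ≤ SW μ ℱ A σ T H ω} :=
    measurableSet_le measurable_const ((SW_meas hA σ T H).mono (ℱ.le _)).measurable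
  have e7 : ∫ ω in C ∩ G H, Q H ω ∂μ ≤ μ.real ((C ∩ G H) ∩ {ω | a ≤ SW μ ℱ A σ T H ω}) := by
    have e8 := integral_inter_add_sdiff (μ := μ) (s := C ∩ G H) hSm (hQi H).integrableOn
    have e9 : ∫ ω in (C ∩ G H) \ {ω | a ≤ SW μ ℱ A σ T H ω}, Q H ω ∂μ ≤ 0 := by
      apply setIntegral_nonpos (((hC0.inter (hG0 H))).diff hSm)
      rintro ω ⟨_, hω⟩
      simp only [mem_ofPred_eq, not_le] at hω
      simp only [hQ, QW, RW_self]
      exact qq_end hθ hω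
    have e10 := setInt_le_real (hQi H) (hQ1 H) ((hC0.inter (hG0 H)).inter hSm)
    linarith
  have e11 : μ.real (C ∩ ({ω | a ≤ SW μ ℱ A σ T H ω} ∪ (G H)ᶜ)) =
      μ.real ((C ∩ G H) ∩ {ω | a ≤ SW μ ℱ A σ T H ω}) + μ.real (C \ G H) := by
    have e12 : C ∩ ({ω | a ≤ SW μ ℱ A σ T H ω} ∪ (G H)ᶜ) = (C ∩ G H) ∩ {ω | a ≤ SW μ ℱ A σ T H ω} ∪ C \ G H := by
      ext ω
      simp only [Set.mem_sdiff, mem_union, mem_inter_iff, mem_compl_iff]
      tauto
    rw [e12]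
    refine measureReal_union ?_ (hC0.diff (hG0 H))
    rw [Set.disjoint_left]
    rintro ω ⟨⟨_, a1⟩, _⟩ ⟨_, a2⟩
    exact a2 a1
  rw [e11, ← e0]
  refine hfin.trans ?_
  simp only [hΦ]
  linarith

/-- **moderate deviations, upper bound for the maximum** -/
theorem fl_upper (hA : ∀ n, MeasurableSet[ℱ n] (A n)) {σ : ℕ → ℝ} (hσ : ∀ i, |σ i| ≤ 1) {T H : ℕ} {lam b β l u : ℝ}
    (hlam : 0 < lam) (hb : 0 < b) (hβ : 0 ≤ β)
    (h : ∀ j D, l ≤ D → D ≤ u → KK (lam * σ j) D ≤ Real.exp (β * (lam * σ j) ^ 2)) :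
    μ.real {ω | ∃ j, j ≤ H ∧ ω ∈ GW μ ℱ A l u T j ∧ b ≤ SW μ ℱ A σ T j ω} ≤ Real.exp (-(lam * b) + β * lam ^ 2 * RW σ H 0) := by
  set G : ℕ → Set Ω := GW μ ℱ A l u T with hG
  set X : ℕ → Set Ω := fun j => {ω | ∃ i, i ≤ j ∧ ω ∈ G i ∧ b ≤ SW μ ℱ A σ T i ω} with hX
  have hG0 : ∀ j, MeasurableSet (G j) := fun j => ℱ.le _ _ (GW_meas' l u T j)
  have hSm : ∀ j, MeasurableSet[ℱ (T + j)] {ω | b ≤ SW μ ℱ A σ T j ω} := fun j =>
    measurableSet_le (@measurable_const _ _ _ (ℱ (T + j)) _) (SW_meas hA σ T j).measurable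
  have hXm : ∀ j, MeasurableSet[ℱ (T + j)] (X j) := by
    intro j
    have e : X j = ⋃ i ∈ Finset.range (j + 1), G i ∩ {ω | b ≤ SW μ ℱ A σ T i ω} := by
      ext ω
      simp only [hX, mem_ofPred_eq, mem_iUnion, Finset.mem_range, exists_prop, mem_inter_iff]
      constructor
      · rintro ⟨i, a1, a2⟩
        exact ⟨i, by omega, a2⟩
      · rintro ⟨i, a1, a2⟩
        exact ⟨i, by omega, a2⟩
    rw [e]
    refine Finset.measurableSet_biUnion _ fun i hi => ?_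
    have hi := Finset.mem_range.1 hi
    exact (ℱ.mono (by omega) _ (GW_meas' l u T i)).inter (ℱ.mono (by omega) _ (hSm i))
  set E : ℕ → Ω → ℝ := fun j ω => Real.exp (-(lam * b)) * EW μ ℱ A σ T H lam β j ω with hE
  have hEi : ∀ j, Integrable (E j) μ := fun j => (EW_int hA hσ T H lam β j).const_mul _
  have hE0 : ∀ j ω, 0 ≤ E j ω := fun j ω => mul_nonneg (Real.exp_pos _).le (Real.exp_pos _).le
  set Ψ : ℕ → ℝ := fun j => μ.real (X j) + ∫ ω in G j \ X j, E j ω ∂μ with hΨ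
  have step : ∀ j, j < H → Ψ (j + 1) ≤ Ψ j := by
    intro j hj
    have hsub : G (j + 1) ⊆ G j := GW_anti l u T j
    have hX0 : MeasurableSet (X j) := ℱ.le _ _ (hXm j)
    have hS0 : MeasurableSet {ω | b ≤ SW μ ℱ A σ T (j + 1) ω} := ℱ.le _ _ (hSm (j + 1))
    set N : Set Ω := (G (j + 1) \ X j) ∩ {ω | b ≤ SW μ ℱ A σ T (j + 1) ω} with hN
    have hN0 : MeasurableSet N := ((hG0 (j + 1)).diff hX0).inter hS0
    have e1 : X (j + 1) = X j ∪ N := by
      ext ω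
      simp only [hX, hN, mem_union, mem_inter_iff, Set.mem_sdiff, mem_ofPred_eq]
      constructor
      · rintro ⟨i, a1, a2⟩
        by_cases a3 : i ≤ j
        · exact Or.inl ⟨i, a3, a2⟩
        · have a4 : i = j + 1 := by omega
          subst a4
          by_cases a5 : ∃ i, i ≤ j ∧ ω ∈ G i ∧ b ≤ SW μ ℱ A σ T i ω
          · exact Or.inl a5
          · exact Or.inr ⟨⟨a2.1, a5⟩, a2.2⟩
      · rintro (⟨i, a1, a2⟩ | ⟨⟨a1, _⟩, a3⟩)
        · exact ⟨i, by omega, a2⟩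
        · exact ⟨j + 1, le_rfl, a1, a3⟩
    have e2 : μ.real (X (j + 1)) = μ.real (X j) + μ.real N := by
      rw [e1]
      refine measureReal_union ?_ hN0
      rw [Set.disjoint_left]
      rintro ω a1 ⟨⟨_, a2⟩, _⟩
      exact a2 a1
    have e3 : G (j + 1) \ X (j + 1) = (G (j + 1) \ X j) \ {ω | b ≤ SW μ ℱ A σ T (j + 1) ω} := by
      rw [e1]
      ext ω
      simp only [hN, Set.mem_sdiff, mem_union, mem_inter_iff]
      tauto
    have e4 := integral_inter_add_sdiff (μ := μ) (s := G (j + 1) \ X j) hS0 (hEi (j + 1)).integrableOn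
    have e5 : μ.real N ≤ ∫ ω in N, E (j + 1) ω ∂μ := by
      have e6 : ∫ ω in N, (1 : ℝ) ∂μ ≤ ∫ ω in N, E (j + 1) ω ∂μ := by
        refine setIntegral_mono_on (integrable_const _).integrableOn (hEi (j + 1)).integrableOn hN0 ?_
        rintro ω ⟨_, hω⟩
        have hω' : b ≤ SW μ ℱ A σ T (j + 1) ω := hω
        simp only [hE, EW]
        rw [← Real.exp_add]
        apply Real.one_le_exp
        have a1 : 0 ≤ β * lam ^ 2 * RW σ H (j + 1) := mul_nonneg (mul_nonneg hβ (sq_nonneg _)) (RW_nonneg _ _ _)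
        nlinarith
      simpa using e6
    have e7 : ∫ ω in G (j + 1) \ X j, E (j + 1) ω ∂μ ≤ ∫ ω in G (j + 1) \ X j, E j ω ∂μ := by
      simp only [hE]
      rw [integral_const_mul, integral_const_mul]
      exact mul_le_mul_of_nonneg_left (EW_up (μ := μ) (H := H) hA hσ hj (h j) ((GW_meas l u T j).diff (hXm j)) sdiff_subset)
        (Real.exp_pos _).le
    have e8 : ∫ ω in G (j + 1) \ X j, E j ω ∂μ ≤ ∫ ω in G j \ X j, E j ω ∂μ :=
      setIntegral_mono_set (hEi j).integrableOn (Eventually.of_forall (hE0 j))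
        (HasSubset.Subset.eventuallyLE (sdiff_subset_sdiff_left hsub))
    simp only [hΨ]
    rw [e2, e3]
    linarith
  have hmon : ∀ j, j ≤ H → Ψ j ≤ Ψ 0 := by
    intro j
    induction j with
    | zero => exact fun _ => le_rfl
    | succ j ih => exact fun hj => (step j (by omega)).trans (ih (by omega))
  have hfin := hmon H le_rfl
  have hG00 : G 0 = univ := by ext ω; simp [hG, GW]
  have hX00 : X 0 = ∅ := by
    ext ω
    simp only [hX, mem_ofPred_eq, mem_empty_iff_false, iff_false]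
    rintro ⟨i, a1, _, a2⟩
    have a3 : i = 0 := by omega
    subst a3
    simp [SW] at a2
    linarith
  have e0 : Ψ 0 = Real.exp (-(lam * b) + β * lam ^ 2 * RW σ H 0) := by
    simp only [hΨ, hX00, hG00, measureReal_empty, sdiff_empty, zero_add]
    have : ∀ ω, E 0 ω = Real.exp (-(lam * b) + β * lam ^ 2 * RW σ H 0) := by
      intro ω
      simp [hE, EW, SW, ← Real.exp_add]
    simp only [this]
    simp
  have e1 : 0 ≤ ∫ ω in G H \ X H, E H ω ∂μ := setIntegral_nonneg ((hG0 H).diff (ℱ.le _ _ (hXm H))) fun ω _ => hE0 H ω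
  rw [← e0]
  have e2 : μ.real (X H) ≤ Ψ H := by
    simp only [hΨ]
    linarith
  exact e2.trans hfin

end Pool.Agent.N740.HK
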