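import Mathlib
import Pool.Agent.N740.HK.Gap2
import Pool.Agent.N740.HK.Lim

/-!
# First occurrence of long runs, in terms of the random set
-/

set_option autoImplicit false
set_option linter.unusedSectionVars false

open MeasureTheory Filter Set
open scoped ENNReal Topology NNReal

namespace Pool.Agent.N740.HK

open Pool.Agent.R528.RM

variable {Ω : Type} {m0 : MeasurableSpace Ω} {μ : Measure Ω} [IsProbabilityMeasure μ]
  {ℱ : Filtration ℕ m0} {A : ℕ → Set Ω}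

/-- gaps are not longer than `lam log² x` -/
def Up (S : Set ℕ) : Prop := ∀ lam : ℝ, 1 < lam → ∀ᶠ x : ℕ in atTop, ∃ r : ℕ, 1 ≤ r ∧ (r : ℝ) ≤ lam * Real.log x ^ 2 ∧ x + r ∈ S

/-- every gap occurs at every large scale -/
def Low (S : Set ℕ) : Prop := ∀ ε : ℝ, 0 < ε → ε < 1 → ∀ᶠ i : ℕ in atTop, ∀ g : ℕ, 1 ≤ g →
  (g : ℝ) ≤ (1 - ε) * Real.log ((2 : ℝ) ^ i) ^ 2 →
    ∃ P : ℕ, 2 ^ i < P ∧ P + g ≤ 2 ^ (i + 1) ∧ P ∈ S ∧ (∀ r, 1 ≤ r → r < g → P + r ∉ S) ∧ P + g ∈ S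

theorem up_ae (hA : ∀ n, MeasurableSet[ℱ n] (A n))
    (hd : ∀ᵐ ω ∂μ, Tendsto (fun n : ℕ => dens μ ℱ A n ω * Real.log n) atTop (𝓝 1)) :
    ∀ᵐ ω ∂μ, Up {k | ω ∈ A k} := by
  have h1 : ∀ k : ℕ, ∀ᵐ ω ∂μ, ∀ᶠ x : ℕ in atTop, ∃ r : ℕ, 1 ≤ r ∧ (r : ℝ) ≤ (1 + 1 / ((k : ℝ) + 1)) * Real.log x ^ 2 ∧ ω ∈ A (x + r) := by
    intro k
    set lam : ℝ := 1 + 1 / ((k : ℝ) + 1) with hlam
    have hk : 0 < 1 / ((k : ℝ) + 1) := by positivity
    have hlam1 : 1 < lam := by linarith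
    obtain ⟨s, hs0, hs1, hs⟩ : ∃ s : ℝ, 0 < s ∧ s < 1 ∧ 1 < lam * II s := by
      have hc : Continuous fun s : ℝ => lam * II s := by
        unfold II
        exact continuous_const.mul ((Real.continuous_mul_log.sub continuous_id).add continuous_const)
      have h0 : lam * II 0 = lam := by unfold II; simp
      have h2 : ∀ᶠ s in 𝓝 (0 : ℝ), 1 < lam * II s := by
        apply hc.continuousAt.eventually_const_lt
        show 1 < lam * II 0
        rw [h0]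
        exact hlam1
      have h3 : ∀ᶠ s in 𝓝[>] (0 : ℝ), 1 < lam * II s := h2.filter_mono nhdsWithin_le_nhds
      have h4 : ∀ᶠ s in 𝓝[>] (0 : ℝ), s ∈ Ioo (0 : ℝ) 1 := Ioo_mem_nhdsGT one_pos
      obtain ⟨s, h5, h6⟩ := (h3.and h4).exists
      exact ⟨s, h6.1, h6.2, h5⟩
    filter_upwards [windows hA hd (by linarith) hs0 hs] with ω hω
    filter_upwards [hω, tendsto_logN.eventually_gt_atTop 0] with x hx hx0
    have h7 := hx.2 hs1
    have h8 : 0 < cnt A x (wl lam x) ω := by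
      have : (0 : ℝ) < cnt A x (wl lam x) ω := lt_trans (by positivity) h7
      exact_mod_cast this
    classical
    unfold cnt at h8
    rw [Finset.sum_boole, Nat.cast_id, Finset.card_pos] at h8
    obtain ⟨r, hr⟩ := h8
    rw [Finset.mem_filter, Finset.mem_range] at hr
    refine ⟨1 + r, by omega, ?_, ?_⟩
    · have h9 : 1 + r ≤ wl lam x := by omega
      have h10 : ((1 + r : ℕ) : ℝ) ≤ wl lam x := by exact_mod_cast h9
      refine h10.trans (Nat.floor_le (by positivity))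
    · rw [← add_assoc]
      exact hr.2
  filter_upwards [ae_all_iff.2 h1] with ω hω
  intro lam hlam
  obtain ⟨k, hk⟩ := exists_nat_one_div_lt (show 0 < lam - 1 by linarith)
  filter_upwards [hω k] with x hx
  obtain ⟨r, h2, h3, h4⟩ := hx
  refine ⟨r, h2, h3.trans (mul_le_mul_of_nonneg_right (by linarith) (sq_nonneg _)), h4⟩

theorem low_ae (hA : ∀ n, MeasurableSet[ℱ n] (A n))
    (hd : ∀ᵐ ω ∂μ, Tendsto (fun n : ℕ => dens μ ℱ A n ω * Real.log n) atTop (𝓝 1)) :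
    ∀ᵐ ω ∂μ, Low {k | ω ∈ A k} := by
  have h1 : ∀ k : ℕ, ∀ᵐ ω ∂μ, ∀ᶠ i : ℕ in atTop, ∀ g : ℕ, 1 ≤ g →
      (g : ℝ) ≤ (1 - 1 / ((k : ℝ) + 2)) * Real.log ((2 : ℝ) ^ i) ^ 2 →
      ∃ P : ℕ, 2 ^ i < P ∧ P + g ≤ 2 ^ (i + 1) ∧ ω ∈ A P ∧ (∀ r, 1 ≤ r → r < g → ω ∉ A (P + r)) ∧ ω ∈ A (P + g) := by
    intro k
    refine all_gaps hA hd (by positivity) ?_
    rw [div_lt_one (by positivity)]
    have : (0 : ℝ) ≤ k := Nat.cast_nonneg k
    linarith
  filter_upwards [ae_all_iff.2 h1] with ω hω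
  intro ε hε _
  obtain ⟨k, hk⟩ := exists_nat_one_div_lt hε
  filter_upwards [hω k] with i hi g hg1 hg2
  refine hi g hg1 (hg2.trans (mul_le_mul_of_nonneg_right ?_ (sq_nonneg _)))
  have h2 : 1 / ((k : ℝ) + 2) ≤ 1 / ((k : ℝ) + 1) := by
    apply one_div_le_one_div_of_le (by positivity)
    linarith
  linarith

/-- the least member which follows at least `g` consecutive integers outside `S`, after a member -/
noncomputable def sh (S : Set ℕ) (g : ℕ) : ℕ := sInf {q | q ∈ S ∧ ∃ p ∈ S, p + g < q ∧ ∀ r, p < r → r < q → r ∉ S}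

lemma up_inf {S : Set ℕ} (h : Up S) : ∀ K : ℕ, ∃ q ∈ S, K ≤ q := by
  intro K
  obtain ⟨x, hx, hK⟩ := ((h 2 (by norm_num)).and (eventually_ge_atTop K)).exists
  obtain ⟨r, _, _, hr⟩ := hx
  exact ⟨x + r, hr, by omega⟩

/-- the scale: the least `i` with `g ≤ (1 - ε) L_i²` -/
lemma scale_i {ε : ℝ} (hε : 0 < ε) (hε1 : ε < 1) (g : ℕ) :
    ∃ i : ℕ, (g : ℝ) ≤ (1 - ε) * Real.log ((2 : ℝ) ^ i) ^ 2 ∧
      Real.log ((2 : ℝ) ^ (i + 1)) ≤ √((g : ℝ) / (1 - ε)) + 2 ∧ √((g : ℝ) / (1 - ε)) ≤ i := by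
  have hlog2 : 0 < Real.log 2 := Real.log_pos (by norm_num)
  have hl1 := Real.log_two_lt_d9
  obtain ⟨y, hy⟩ : ∃ y, y = √((g : ℝ) / (1 - ε)) := ⟨_, rfl⟩
  have hy0 : 0 ≤ y := by rw [hy]; exact Real.sqrt_nonneg _
  have hsq : y ^ 2 = (g : ℝ) / (1 - ε) := by
    rw [hy]
    exact Real.sq_sqrt (div_nonneg (Nat.cast_nonneg g) (by linarith))
  refine ⟨⌈y / Real.log 2⌉₊, ?_, ?_, ?_⟩
  · have h1 : y ≤ Real.log ((2 : ℝ) ^ ⌈y / Real.log 2⌉₊) := by
      rw [Real.log_pow]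
      have := Nat.le_ceil (y / Real.log 2)
      rw [div_le_iff₀ hlog2] at this
      exact this
    have h2 : y ^ 2 ≤ Real.log ((2 : ℝ) ^ ⌈y / Real.log 2⌉₊) ^ 2 := pow_le_pow_left₀ hy0 h1 2
    rw [hsq, div_le_iff₀ (by linarith)] at h2
    linarith
  · rw [← hy, Real.log_pow]
    have := (Nat.ceil_lt_add_one (show 0 ≤ y / Real.log 2 by positivity)).le
    push_cast
    have h3 : ((⌈y / Real.log 2⌉₊ : ℝ) + 1) * Real.log 2 ≤ (y / Real.log 2 + 2) * Real.log 2 :=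
      mul_le_mul_of_nonneg_right (by linarith) hlog2.le
    have h4 : (y / Real.log 2 + 2) * Real.log 2 = y + 2 * Real.log 2 := by field_simp
    linarith
  · rw [← hy]
    refine le_trans ?_ (Nat.le_ceil (y / Real.log 2))
    rw [le_div_iff₀ hlog2]
    nlinarith

/-- **first occurrences** -/
theorem shanks_law {S : Set ℕ} (hup : Up S) (hlow : Low S) :
    Tendsto (fun g : ℕ => Real.log (sh S g) / √(g : ℝ)) atTop (𝓝 1) := by
  have hsqrt : Tendsto (fun g : ℕ => √(g : ℝ)) atTop atTop := Real.tendsto_sqrt_atTop.comp tendsto_natCast_atTop_atTop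
  -- upper bound and nonemptiness
  have hU : ∀ ε : ℝ, 0 < ε → ε < 1 → ∀ᶠ g : ℕ in atTop,
      (∃ q, q ∈ S ∧ ∃ p ∈ S, p + g < q ∧ ∀ r, p < r → r < q → r ∉ S) ∧
      Real.log (sh S g) ≤ √(((g + 1 : ℕ) : ℝ) / (1 - ε)) + 2 := by
    intro ε hε hε1
    obtain ⟨i₀, hi₀⟩ := eventually_atTop.1 (hlow ε hε hε1)
    filter_upwards [hsqrt.eventually_ge_atTop i₀] with g hg
    obtain ⟨i, h1, h2, h3⟩ := scale_i hε hε1 (g + 1)
    have hi : i₀ ≤ i := by
      have h4 : √(g : ℝ) ≤ √(((g + 1 : ℕ) : ℝ) / (1 - ε)) := by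
        apply Real.sqrt_le_sqrt
        rw [le_div_iff₀ (by linarith)]
        push_cast
        have : (0 : ℝ) ≤ g := Nat.cast_nonneg g
        nlinarith
      have h5 : (i₀ : ℝ) ≤ i := hg.trans (h4.trans h3)
      exact_mod_cast h5
    obtain ⟨P, p1, p2, p3, p4, p5⟩ := hi₀ i hi (g + 1) (by omega) h1
    have hmem : P + (g + 1) ∈ {q | q ∈ S ∧ ∃ p ∈ S, p + g < q ∧ ∀ r, p < r → r < q → r ∉ S} := by
      refine ⟨p5, P, p3, by omega, fun r hr1 hr2 => ?_⟩
      have := p4 (r - P) (by omega) (by omega)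
      rwa [show P + (r - P) = r by omega] at this
    refine ⟨⟨_, hmem⟩, ?_⟩
    have h6 : sh S g ≤ P + (g + 1) := Nat.sInf_le hmem
    have h7 : sh S g ≤ 2 ^ (i + 1) := h6.trans p2
    have h8 : Real.log (sh S g) ≤ Real.log ((2 : ℝ) ^ (i + 1)) := by
      rcases Nat.eq_zero_or_pos (sh S g) with h0 | h0
      · rw [h0, Nat.cast_zero, Real.log_zero]
        exact Real.log_nonneg (one_le_pow₀ (by norm_num))
      · apply Real.log_le_log (by exact_mod_cast h0)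
        exact_mod_cast h7
    exact h8.trans h2
  -- lower bound
  have hL : ∀ lam : ℝ, 1 < lam → ∀ᶠ g : ℕ in atTop,
      (∃ q, q ∈ S ∧ ∃ p ∈ S, p + g < q ∧ ∀ r, p < r → r < q → r ∉ S) →
      √((g : ℝ) / lam) ≤ Real.log (sh S g) := by
    intro lam hlam
    obtain ⟨x₀, hx₀⟩ := eventually_atTop.1 (hup lam hlam)
    obtain ⟨s₀, hs₀, hs₁⟩ := up_inf hup x₀
    filter_upwards [eventually_ge_atTop s₀] with g hg hne
    have hmem : sh S g ∈ {q | q ∈ S ∧ ∃ p ∈ S, p + g < q ∧ ∀ r, p < r → r < q → r ∉ S} := Nat.sInf_mem hne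
    obtain ⟨q, hq⟩ : ∃ q, q = sh S g := ⟨_, rfl⟩
    rw [← hq] at hmem ⊢
    obtain ⟨h1, p, h2, h3, h4⟩ := hmem
    have hp : x₀ ≤ p := by
      by_contra hcon
      push Not at hcon
      have h5 : q ≤ s₀ := by
        by_contra hc
        push Not at hc
        exact h4 s₀ (by omega) hc hs₀
      omega
    obtain ⟨r, r1, r2, r3⟩ := hx₀ p hp
    have h6 : q ≤ p + r := by
      by_contra hc
      push Not at hc
      exact h4 (p + r) (by omega) hc r3
    have h7 : (g : ℝ) ≤ r := by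
      have : g ≤ r := by omega
      exact_mod_cast this
    have hpq : Real.log p ≤ Real.log q := by
      rcases Nat.eq_zero_or_pos p with h0 | h0
      · rw [h0, Nat.cast_zero, Real.log_zero]
        exact Real.log_natCast_nonneg q
      · apply Real.log_le_log (by exact_mod_cast h0)
        have : p ≤ q := by omega
        exact_mod_cast this
    have hp0 : 0 ≤ Real.log (p : ℝ) := Real.log_natCast_nonneg p
    rw [Real.sqrt_le_left (hp0.trans hpq), div_le_iff₀ (by linarith)]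
    calc (g : ℝ) ≤ r := h7
      _ ≤ lam * Real.log p ^ 2 := r2
      _ ≤ lam * Real.log q ^ 2 := mul_le_mul_of_nonneg_left (pow_le_pow_left₀ hp0 hpq 2) (by linarith)
      _ = _ := by ring
  -- conclusion
  rw [tendsto_order]
  constructor
  · intro a ha
    obtain ⟨b, hb0, hb1, hb2⟩ : ∃ b : ℝ, 0 < b ∧ b < 1 ∧ a < b := by
      refine ⟨max ((a + 1) / 2) (1 / 2), lt_of_lt_of_le (by norm_num) (le_max_right _ _), ?_, ?_⟩
      · exact max_lt (by linarith) (by norm_num)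
      · exact lt_of_lt_of_le (by linarith) (le_max_left _ _)
    have hlam : 1 < 1 / b ^ 2 := by
      rw [lt_div_iff₀ (by positivity), one_mul]
      nlinarith
    filter_upwards [hL (1 / b ^ 2) hlam, hU (1 / 2) (by norm_num) (by norm_num), eventually_gt_atTop 0] with g h1 h2 hg
    have h3 := h1 h2.1
    have hg0 : 0 < √(g : ℝ) := Real.sqrt_pos.2 (by exact_mod_cast hg)
    rw [lt_div_iff₀ hg0]
    have e : √((g : ℝ) / (1 / b ^ 2)) = b * √(g : ℝ) := by
      rw [div_div_eq_mul_div, div_one, Real.sqrt_mul (Nat.cast_nonneg g), Real.sqrt_sq hb0.le, mul_comm]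
    rw [e] at h3
    exact lt_of_lt_of_le (mul_lt_mul_of_pos_right hb2 hg0) h3
  · intro a ha
    -- choose ε with 1 / √(1 - ε) < a
    obtain ⟨b, hb1, hb2⟩ : ∃ b, 1 < b ∧ b < a := exists_between ha
    have hb0 : 0 < b := by linarith
    have hε : 0 < 1 - 1 / b ^ 2 := by
      have : 1 / b ^ 2 < 1 := by
        rw [div_lt_one (by positivity)]
        nlinarith
      linarith
    have hε1 : 1 - 1 / b ^ 2 < 1 := by
      have : 0 < 1 / b ^ 2 := by positivity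
      linarith
    have hdiv : Tendsto (fun g : ℕ => (a - b) * √(g : ℝ)) atTop atTop := hsqrt.const_mul_atTop (by linarith)
    filter_upwards [hU (1 - 1 / b ^ 2) hε hε1, eventually_gt_atTop 0, hdiv.eventually_gt_atTop (b + 2)] with g h1 hg h2
    have hg0 : 0 < √(g : ℝ) := Real.sqrt_pos.2 (by exact_mod_cast hg)
    rw [div_lt_iff₀ hg0]
    have e : √(((g + 1 : ℕ) : ℝ) / (1 - (1 - 1 / b ^ 2))) = √((g + 1 : ℕ) : ℝ) * b := by
      rw [show (1 : ℝ) - (1 - 1 / b ^ 2) = 1 / b ^ 2 by ring, div_div_eq_mul_div, div_one,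
        Real.sqrt_mul (Nat.cast_nonneg _), Real.sqrt_sq hb0.le]
    have h3 := h1.2
    rw [e] at h3
    have h4 : √((g + 1 : ℕ) : ℝ) ≤ √(g : ℝ) + 1 := by
      rw [Real.sqrt_le_left (by positivity)]
      push_cast
      have := Real.sq_sqrt (show (0 : ℝ) ≤ g from Nat.cast_nonneg g)
      nlinarith
    calc Real.log (sh S g) ≤ √((g + 1 : ℕ) : ℝ) * b + 2 := h3
      _ ≤ (√(g : ℝ) + 1) * b + 2 := by
        have := mul_le_mul_of_nonneg_right h4 hb0.le
        linarith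
      _ = b * √(g : ℝ) + (b + 2) := by ring
      _ < b * √(g : ℝ) + (a - b) * √(g : ℝ) := by linarith
      _ = a * √(g : ℝ) := by ring

end Pool.Agent.N740.HK
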