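import Mathlib
import Pool.Agent.N740.HK.Shk

/-!
# The least even number which is not yet a gap
-/

set_option autoImplicit false
set_option linter.unusedSectionVars false

open MeasureTheory Filter Set
open scoped ENNReal Topology NNReal

namespace Pool.Agent.N740.HK

open Pool.Agent.R528.RM

variable {Ω : Type} {m0 : MeasurableSpace Ω} {μ : Measure Ω} [IsProbabilityMeasure μ]
  {ℱ : Filtration ℕ m0} {A : ℕ → Set Ω}

/-- many members: a consequence of the law of large numbers -/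
def Dn (S : Set ℕ) : Prop := ∀ᶠ y : ℕ in atTop, ∀ x : ℕ, (x : ℝ) + 1 ≤ y / (2 * Real.log y) → pn S x ≤ 2 * y

theorem dn_ae (hA : ∀ n, MeasurableSet[ℱ n] (A n))
    (hd : ∀ᵐ ω ∂μ, Tendsto (fun n : ℕ => dens μ ℱ A n ω * Real.log n) atTop (𝓝 1)) :
    ∀ᵐ ω ∂μ, Dn {k | ω ∈ A k} := by
  classical
  obtain ⟨K, hK, h1⟩ := short hA hd (show (0 : ℝ) < 1 / 2 by norm_num)
  filter_upwards [h1] with ω hω
  have h2 : ∀ᶠ y : ℕ in atTop, K * Real.log y ^ 2 ≤ y := by
    have h3 := (Real.isLittleO_pow_log_id_atTop (n := 2)).def (show (0 : ℝ) < 1 / K by positivity)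
    filter_upwards [tendsto_natCast_atTop_atTop.eventually h3] with y hy
    simp only [id] at hy
    rw [Real.norm_of_nonneg (by positivity), Real.norm_of_nonneg (Nat.cast_nonneg y), div_mul_eq_mul_div, one_mul,
      le_div_iff₀ hK] at hy
    linarith
  filter_upwards [hω, h2, tendsto_logN.eventually_gt_atTop 0] with y h3 h4 h5 x hx
  have h6 := (abs_le.1 (h3 y h4 le_rfl)).1
  have h7 : (y : ℝ) / (2 * Real.log y) ≤ cnt A y y ω := by
    have e : (y : ℝ) / (2 * Real.log y) = (y : ℝ) / Real.log y - 1 / 2 * (y / Real.log y) := by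
      field_simp
      ring
    rw [e]
    linarith
  have h8 : (x : ℝ) + 1 ≤ cnt A y y ω := hx.trans h7
  have h9 : x + 1 ≤ cnt A y y ω := by exact_mod_cast h8
  have h10 : cnt A y y ω ≤ Nat.count (· ∈ {k | ω ∈ A k}) (2 * y + 1) := by
    unfold cnt
    rw [Finset.sum_boole, Nat.cast_id, Nat.count_eq_card_filter_range]
    have h11 : ((Finset.range y).filter fun r => ω ∈ A (y + 1 + r)).card =
        (((Finset.range y).filter fun r => ω ∈ A (y + 1 + r)).image (fun r => y + 1 + r)).card :=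
      (Finset.card_image_of_injective _ (fun a b h => by simpa using h)).symm
    rw [h11]
    refine Finset.card_le_card ?_
    intro n hn
    rw [Finset.mem_image] at hn
    obtain ⟨r, hr, rfl⟩ := hn
    rw [Finset.mem_filter, Finset.mem_range] at hr ⊢
    exact ⟨by omega, hr.2⟩
  have h12 : pn {k | ω ∈ A k} x < 2 * y + 1 := Nat.nth_lt_of_lt_count (by omega)
  omega

/-- the difference of the members number `n` and `n + 1` (the least member has number `1`) -/
noncomputable def df (S : Set ℕ) (n : ℕ) : ℕ := Nat.nth (· ∈ S) n - Nat.nth (· ∈ S) (n - 1)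

/-- the least positive even number which is not one of the first `x` differences -/
noncomputable def rr (S : Set ℕ) (x : ℕ) : ℕ := sInf {t | 0 < t ∧ Even t ∧ ∀ n, 1 ≤ n → n ≤ x → df S n ≠ t}

lemma df_eq {S : Set ℕ} {P t : ℕ} (hP : P ∈ S) (ht : 1 ≤ t) (hPt : P + t ∈ S) (hno : ∀ r, 1 ≤ r → r < t → P + r ∉ S) :
    ∃ n, 1 ≤ n ∧ n ≤ P + 1 ∧ df S n = t := by
  classical
  have h1 : ∀ r, r < t → Nat.count (· ∈ S) (P + 1 + r) = Nat.count (· ∈ S) P + 1 := by
    intro r
    induction r with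
    | zero =>
      intro _
      rw [add_zero, Nat.count_succ, if_pos hP]
    | succ r ih =>
      intro hr
      have := ih (by omega)
      rw [← add_assoc, Nat.count_succ, this, if_neg]
      have h2 := hno (1 + r) (by omega) (by omega)
      rwa [← add_assoc] at h2
  have h2 : Nat.count (· ∈ S) (P + t) = Nat.count (· ∈ S) P + 1 := by
    have := h1 (t - 1) (by omega)
    rwa [show P + 1 + (t - 1) = P + t by omega] at this
  refine ⟨Nat.count (· ∈ S) P + 1, by omega, ?_, ?_⟩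
  · have := Nat.count_le (p := (· ∈ S)) (n := P)
    omega
  · unfold df
    rw [← h2, Nat.nth_count (p := (· ∈ S)) hPt, h2, Nat.add_sub_cancel, Nat.nth_count (p := (· ∈ S)) hP]
    omega

/-- the next member -/
lemma next_le {S : Set ℕ} (hS : S.Infinite) {n q : ℕ} (hn : 1 ≤ n) (hq : q ∈ S) (h : pn S (n - 1) < q) : pn S n ≤ q := by
  obtain ⟨k, hk⟩ := exists_nth hq
  rw [← hk] at h ⊢
  have h1 : n - 1 < k := (nth_mono hS).lt_iff_lt.1 h
  exact (nth_mono hS).monotone (by omega)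

lemma pow_ev {η : ℝ} (hη : 0 < η) : ∀ᶠ x : ℕ in atTop,
    (x : ℝ) + 1 ≤ (⌈(x : ℝ) ^ (1 + η)⌉₊ : ℝ) / (2 * Real.log ⌈(x : ℝ) ^ (1 + η)⌉₊) ∧
    Real.log ((2 * ⌈(x : ℝ) ^ (1 + η)⌉₊ : ℕ) : ℝ) ≤ (1 + η) * Real.log x + 2 := by
  have h1 := (isLittleO_log_rpow_atTop hη).def (show (0 : ℝ) < 1 / (8 * (1 + η)) by positivity)
  have h2 := (tendsto_rpow_atTop hη).eventually_ge_atTop 16
  filter_upwards [tendsto_natCast_atTop_atTop.eventually h1, tendsto_natCast_atTop_atTop.eventually h2,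
    eventually_ge_atTop 2] with x h3 h4 h5
  have hx : (2 : ℝ) ≤ x := by exact_mod_cast h5
  have hx0 : (0 : ℝ) < x := by linarith
  have hL : 0 < Real.log x := Real.log_pos (by linarith)
  obtain ⟨y, hy⟩ : ∃ y, y = (x : ℝ) ^ (1 + η) := ⟨_, rfl⟩
  have hye : y = x * (x : ℝ) ^ η := by rw [hy, Real.rpow_add hx0, Real.rpow_one]
  have hy2 : 2 ≤ y := by rw [hye]; nlinarith
  have hc1 : y ≤ (⌈y⌉₊ : ℝ) := Nat.le_ceil y
  have hc2 : (⌈y⌉₊ : ℝ) ≤ 2 * y := by
    have := (Nat.ceil_lt_add_one (show 0 ≤ y by linarith)).le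
    linarith
  rw [← hy]
  have hlogy : Real.log y = (1 + η) * Real.log x := by rw [hy, Real.log_rpow hx0]
  have hl2 := Real.log_two_lt_d9
  have hceil0 : (0 : ℝ) < ⌈y⌉₊ := by linarith
  have hlogc : Real.log ⌈y⌉₊ ≤ Real.log 2 + (1 + η) * Real.log x := by
    rw [← hlogy, ← Real.log_mul (by norm_num) (by linarith)]
    exact Real.log_le_log hceil0 hc2
  have hlogc0 : 0 < Real.log ⌈y⌉₊ := Real.log_pos (by linarith)
  constructor
  · rw [Real.norm_of_nonneg hL.le, Real.norm_of_nonneg (Real.rpow_nonneg hx0.le _)] at h3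
    rw [le_div_iff₀ (by positivity)]
    have h6 : 8 * ((1 + η) * Real.log x) ≤ (x : ℝ) ^ η := by
      rw [div_mul_eq_mul_div, one_mul, le_div_iff₀ (by positivity)] at h3
      linarith
    have h7 : 2 * Real.log ⌈y⌉₊ ≤ (x : ℝ) ^ η / 2 := by linarith
    calc ((x : ℝ) + 1) * (2 * Real.log ⌈y⌉₊) ≤ ((x : ℝ) + 1) * ((x : ℝ) ^ η / 2) :=
          mul_le_mul_of_nonneg_left h7 (by linarith)
      _ ≤ (2 * (x : ℝ)) * ((x : ℝ) ^ η / 2) := mul_le_mul_of_nonneg_right (by linarith) (by positivity)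
      _ = y := by rw [hye]; ring
      _ ≤ _ := hc1
  · push_cast
    rw [Real.log_mul (by norm_num) hceil0.ne']
    linarith

/-- **the least even number which is not yet a gap** -/
theorem r_law {S : Set ℕ} (hup : Up S) (hlow : Low S) (hdn : Dn S) :
    Tendsto (fun x : ℕ => (rr S x : ℝ) / Real.log x ^ 2) atTop (𝓝 1) := by
  have hinf : S.Infinite := infinite_of (fun K => by
    obtain ⟨q, hq, hK⟩ := up_inf hup K
    exact ⟨q, hK, hq⟩)
  -- upper bound and membership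
  have hU : ∀ lam η : ℝ, 1 < lam → 0 < η → ∃ s₀ : ℝ, ∀ᶠ x : ℕ in atTop,
      rr S x ∈ {t | 0 < t ∧ Even t ∧ ∀ n, 1 ≤ n → n ≤ x → df S n ≠ t} ∧
      (rr S x : ℝ) ≤ s₀ + lam * ((1 + η) * Real.log x + 2) ^ 2 := by
    intro lam η hlam hη
    obtain ⟨x₀, hx₀⟩ := eventually_atTop.1 (hup lam hlam)
    obtain ⟨s₀, hs₀, hs₁⟩ := up_inf hup x₀
    refine ⟨s₀ + 2, ?_⟩
    have hceil : Tendsto (fun x : ℕ => ⌈(x : ℝ) ^ (1 + η)⌉₊) atTop atTop :=
      tendsto_nat_ceil_atTop.comp ((tendsto_rpow_atTop (by linarith)).comp tendsto_natCast_atTop_atTop)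
    filter_upwards [hceil.eventually hdn, pow_ev hη] with x h1 h2
    have h3 := h1 x h2.1
    obtain ⟨B, hB⟩ : ∃ B : ℝ, B = s₀ + lam * ((1 + η) * Real.log x + 2) ^ 2 := ⟨_, rfl⟩
    have hB0 : 0 ≤ B := by rw [hB]; positivity
    have hle : ∀ n, 1 ≤ n → n ≤ x → (df S n : ℝ) ≤ B := by
      intro n hn1 hn2
      obtain ⟨p, hp⟩ : ∃ p, p = pn S (n - 1) := ⟨_, rfl⟩
      have hpS : p ∈ S := by rw [hp]; exact nth_mem hinf _
      have hpx : p ≤ 2 * ⌈(x : ℝ) ^ (1 + η)⌉₊ := by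
        rw [hp]
        exact ((nth_mono hinf).monotone (by omega : n - 1 ≤ x)).trans h3
      have hdf : df S n = pn S n - p := by rw [hp]; rfl
      by_cases hpx0 : x₀ ≤ p
      · obtain ⟨r, r1, r2, r3⟩ := hx₀ p hpx0
        have h4 : pn S n ≤ p + r := next_le hinf hn1 r3 (by rw [← hp]; omega)
        have h5 : df S n ≤ r := by rw [hdf]; omega
        have h6 : (df S n : ℝ) ≤ r := by exact_mod_cast h5
        have h7 : Real.log p ≤ (1 + η) * Real.log x + 2 := by
          refine le_trans ?_ h2.2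
          rcases Nat.eq_zero_or_pos p with h0 | h0
          · rw [h0, Nat.cast_zero, Real.log_zero]
            exact Real.log_natCast_nonneg _
          · exact Real.log_le_log (by exact_mod_cast h0) (by exact_mod_cast hpx)
        have h8 : lam * Real.log p ^ 2 ≤ lam * ((1 + η) * Real.log x + 2) ^ 2 :=
          mul_le_mul_of_nonneg_left (pow_le_pow_left₀ (Real.log_natCast_nonneg p) h7 2) (by linarith)
        have h9 : (0 : ℝ) ≤ s₀ := Nat.cast_nonneg s₀
        rw [hB]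
        linarith
      · have h4 : pn S n ≤ s₀ := next_le hinf hn1 hs₀ (by rw [← hp]; omega)
        have h5 : df S n ≤ s₀ := by rw [hdf]; omega
        have h6 : (df S n : ℝ) ≤ s₀ := by exact_mod_cast h5
        have h8 : 0 ≤ lam * ((1 + η) * Real.log x + 2) ^ 2 := by positivity
        rw [hB]
        linarith
    have hmem : 2 * (⌊B / 2⌋₊ + 1) ∈ {t | 0 < t ∧ Even t ∧ ∀ n, 1 ≤ n → n ≤ x → df S n ≠ t} := by
      refine ⟨by omega, ⟨⌊B / 2⌋₊ + 1, by ring⟩, fun n hn1 hn2 heq => ?_⟩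
      have h4 := hle n hn1 hn2
      have h5 := Nat.lt_floor_add_one (B / 2)
      rw [heq] at h4
      push_cast at h4
      linarith
    refine ⟨Nat.sInf_mem ⟨_, hmem⟩, ?_⟩
    have h4 : rr S x ≤ 2 * (⌊B / 2⌋₊ + 1) := Nat.sInf_le hmem
    have h5 : (rr S x : ℝ) ≤ 2 * ((⌊B / 2⌋₊ : ℝ) + 1) := by exact_mod_cast h4
    have h6 : (⌊B / 2⌋₊ : ℝ) ≤ B / 2 := Nat.floor_le (by positivity)
    rw [hB] at h6 h5
    linarith
  -- lower bound
  have hL : ∀ ε : ℝ, 0 < ε → ε < 1 → ∀ᶠ x : ℕ in atTop,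
      rr S x ∈ {t | 0 < t ∧ Even t ∧ ∀ n, 1 ≤ n → n ≤ x → df S n ≠ t} →
      (1 - ε) * (Real.log x - 2) ^ 2 ≤ rr S x := by
    intro ε hε hε1
    obtain ⟨i₀, hi₀⟩ := eventually_atTop.1 (hlow ε hε hε1)
    filter_upwards [eventually_ge_atTop (2 ^ (i₀ + 1)), tendsto_logN.eventually_ge_atTop 2] with x hx hxL hmem
    obtain ⟨hm1, hm2, hm3⟩ := hmem
    have hx0 : x ≠ 0 := by
      have : 0 < 2 ^ (i₀ + 1) := by positivity
      omega
    obtain ⟨i, hi⟩ : ∃ i, Nat.log 2 x = i + 1 := by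
      have := Nat.le_log_of_pow_le (b := 2) (by norm_num) hx
      exact ⟨Nat.log 2 x - 1, by omega⟩
    have hii : i₀ ≤ i := by
      have := Nat.le_log_of_pow_le (b := 2) (by norm_num) hx
      omega
    have hpx : 2 ^ (i + 1) ≤ x := by rw [← hi]; exact Nat.pow_log_le_self 2 hx0
    have hpx2 : x < 2 ^ (i + 2) := by
      have := Nat.lt_pow_succ_log_self (b := 2) (by norm_num) x
      rwa [hi] at this
    by_contra hcon
    push Not at hcon
    have hlogx : Real.log x - 2 ≤ Real.log ((2 : ℝ) ^ i) := by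
      have h1 : (x : ℝ) ≤ 2 ^ (i + 2) := by exact_mod_cast hpx2.le
      have h2 : Real.log x ≤ Real.log ((2 : ℝ) ^ (i + 2)) := Real.log_le_log (by exact_mod_cast Nat.pos_of_ne_zero hx0) h1
      rw [Real.log_pow] at h2 ⊢
      push_cast at h2
      have := Real.log_two_lt_d9
      linarith
    have h3 : (rr S x : ℝ) ≤ (1 - ε) * Real.log ((2 : ℝ) ^ i) ^ 2 := by
      refine hcon.le.trans (mul_le_mul_of_nonneg_left ?_ (by linarith))
      exact pow_le_pow_left₀ (by linarith) hlogx 2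
    obtain ⟨P, p1, p2, p3, p4, p5⟩ := hi₀ i hii (rr S x) hm1 h3
    obtain ⟨n, n1, n2, n3⟩ := df_eq p3 hm1 p5 p4
    exact hm3 n n1 (by omega) n3
  have hlogt := tendsto_logN
  rw [tendsto_order]
  constructor
  · intro a ha
    obtain ⟨b, hb0, hb1, hb2⟩ : ∃ b : ℝ, 0 < b ∧ b < 1 ∧ a < b := by
      refine ⟨max ((a + 1) / 2) (1 / 2), lt_of_lt_of_le (by norm_num) (le_max_right _ _), ?_, ?_⟩
      · exact max_lt (by linarith) (by norm_num)
      · exact lt_of_lt_of_le (by linarith) (le_max_left _ _)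
    obtain ⟨s₀, hs₀⟩ := hU 2 1 (by norm_num) one_pos
    -- b < c < 1, (1 - ε) = c
    obtain ⟨c, hc1, hc2⟩ := exists_between hb1
    have hdiv : Tendsto (fun x : ℕ => (c - b) * Real.log x) atTop atTop := hlogt.const_mul_atTop (by linarith)
    filter_upwards [hL (1 - c) (by linarith) (by linarith), hs₀, hlogt.eventually_ge_atTop 2,
      hdiv.eventually_gt_atTop (4 * c)] with x h1 h2 h3 h4
    have h5 := h1 h2.1
    rw [lt_div_iff₀ (by positivity)]
    refine lt_of_lt_of_le ?_ h5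
    rw [show 1 - (1 - c) = c by ring]
    have h6 : a * Real.log x ^ 2 < b * Real.log x ^ 2 := mul_lt_mul_of_pos_right hb2 (by positivity)
    have h7 : 0 < Real.log x * ((c - b) * Real.log x - 4 * c) := mul_pos (by linarith) (by linarith)
    nlinarith
  · intro a ha
    obtain ⟨b, hb1, hb2⟩ := exists_between ha
    -- lam (1 + η)² = b
    have hb0 : 0 < b := by linarith
    obtain ⟨lam, hl1, hl2⟩ := exists_between hb1
    obtain ⟨η, hη0, hη⟩ : ∃ η : ℝ, 0 < η ∧ lam * (1 + η) ^ 2 < b := by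
      have hc : Continuous fun η : ℝ => lam * (1 + η) ^ 2 := by fun_prop
      have h2 : ∀ᶠ η in 𝓝 (0 : ℝ), lam * (1 + η) ^ 2 < b := by
        apply hc.continuousAt.eventually_lt_const
        simpa using hl2
      have h3 : ∀ᶠ η in 𝓝[>] (0 : ℝ), lam * (1 + η) ^ 2 < b := h2.filter_mono nhdsWithin_le_nhds
      obtain ⟨η, h5, h6⟩ := (h3.and self_mem_nhdsWithin).exists
      exact ⟨η, h6, h5⟩
    obtain ⟨s₀, hs₀⟩ := hU lam η hl1 hη0
    have hlim : Tendsto (fun L : ℝ => (s₀ + lam * ((1 + η) * L + 2) ^ 2) / L ^ 2) atTop (𝓝 (lam * (1 + η) ^ 2)) := by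
      have e1 : Tendsto (fun L : ℝ => s₀ / L ^ 2 + lam * ((1 + η) + 2 / L) ^ 2) atTop (𝓝 (0 + lam * ((1 + η) + 0) ^ 2)) := by
        apply Tendsto.add
        · exact tendsto_const_nhds.div_atTop (tendsto_pow_atTop (by norm_num))
        · exact ((tendsto_const_nhds.add (tendsto_const_nhds.div_atTop tendsto_id)).pow 2).const_mul lam
      rw [zero_add, add_zero] at e1
      refine e1.congr' ?_
      filter_upwards [eventually_gt_atTop 0] with L hL
      field_simp
    filter_upwards [hs₀, (hlim.comp hlogt).eventually_lt_const hη, hlogt.eventually_ge_atTop 2] with x h1 h2 h3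
    simp only [Function.comp_def] at h2
    have h4 : (rr S x : ℝ) / Real.log x ^ 2 ≤ (s₀ + lam * ((1 + η) * Real.log x + 2) ^ 2) / Real.log x ^ 2 :=
      div_le_div_of_nonneg_right h1.2 (by positivity)
    linarith

end Pool.Agent.N740.HK
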