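import Mathlib
import Pool.Agent.N740.HK.Fl2

/-!
# Moderate deviations: sequences of windows
-/

set_option autoImplicit false
set_option linter.unusedSectionVars false

open MeasureTheory Filter Set
open scoped ENNReal Topology

namespace Pool.Agent.N740.HK

open Pool.Agent.R528.RM

lemma exp3 {x : ℝ} (h : |x| ≤ 1) : |Real.exp x - 1 - x - x ^ 2 / 2| ≤ |x| ^ 3 / 4 := by
  have h1 := Real.exp_bound h (n := 3) (by norm_num)
  have h2 : ∑ m ∈ Finset.range 3, x ^ m / (m.factorial : ℝ) = 1 + x + x ^ 2 / 2 := by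
    simp [Finset.sum_range_succ, Nat.factorial]
  rw [h2] at h1
  have h3 : ((Nat.succ 3 : ℕ) : ℝ) / ((Nat.factorial 3 : ℕ) * (3 : ℕ) : ℝ) = 2 / 9 := by
    norm_num [Nat.factorial]
  have h4 : |x| ^ 3 * ((Nat.succ 3 : ℕ) / ((Nat.factorial 3 : ℕ) * (3 : ℕ) : ℝ)) ≤ |x| ^ 3 / 4 := by
    rw [h3]
    have := pow_nonneg (abs_nonneg x) 3
    linarith
  have h5 : Real.exp x - 1 - x - x ^ 2 / 2 = Real.exp x - (1 + x + x ^ 2 / 2) := by ring
  rw [h5]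
  exact h1.trans (by simpa using h4)

lemma KK_up {x D η L : ℝ} (hη : 0 < η) (hη1 : η ≤ 1) (hL : 0 < L) (hx : |x| ≤ η) (h0 : 0 ≤ D) (hD : D ≤ (1 + η) / L) :
    KK x D ≤ Real.exp ((1 + 2 * η) / (2 * L) * x ^ 2) := by
  unfold KK
  have h1 : 1 + D * (Real.exp x - 1) ≤ Real.exp (D * (Real.exp x - 1)) := by
    have := Real.add_one_le_exp (D * (Real.exp x - 1))
    linarith
  refine (mul_le_mul_of_nonneg_left h1 (Real.exp_pos _).le).trans ?_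
  rw [← Real.exp_add]
  apply Real.exp_le_exp.2
  have h2 := (abs_le.1 (exp3 (hx.trans hη1))).2
  have h3 : |x| ^ 3 = |x| * x ^ 2 := by rw [← sq_abs x]; ring
  rw [h3] at h2
  have hx2 := sq_nonneg x
  have h4 : |x| * x ^ 2 ≤ η * x ^ 2 := mul_le_mul_of_nonneg_right hx hx2
  have h5 : Real.exp x - 1 - x ≤ (1 + η / 2) * (x ^ 2 / 2) := by linarith
  have h6 : 0 ≤ (1 + η / 2) * (x ^ 2 / 2) := by positivity
  calc -(x * D) + D * (Real.exp x - 1) = D * (Real.exp x - 1 - x) := by ring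
    _ ≤ D * ((1 + η / 2) * (x ^ 2 / 2)) := mul_le_mul_of_nonneg_left h5 h0
    _ ≤ (1 + η) / L * ((1 + η / 2) * (x ^ 2 / 2)) := mul_le_mul_of_nonneg_right hD h6
    _ = ((1 + η) * (1 + η / 2)) / (2 * L) * x ^ 2 := by field_simp
    _ ≤ (1 + 2 * η) / (2 * L) * x ^ 2 := by
        apply mul_le_mul_of_nonneg_right _ hx2
        apply div_le_div_of_nonneg_right _ (by positivity)
        nlinarith

lemma KK_lo {x D η L : ℝ} (hη : 0 < η) (hη1 : η ≤ 1) (hL : 64 / η ≤ L) (hx : |x| ≤ η) (hx1 : |x| ≤ 1 / 4)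
    (h1 : (1 - η) / L ≤ D) (h0 : 0 ≤ D) (hD : D ≤ (1 + η) / L) :
    Real.exp ((1 - 2 * η) / (2 * L) * x ^ 2) ≤ KK x D := by
  have hL64 : 64 ≤ L := le_trans (by rw [le_div_iff₀ hη]; nlinarith) hL
  have hL0 : 0 < L := by linarith
  have hD2 : D ≤ 2 / L := hD.trans (div_le_div_of_nonneg_right (by linarith) hL0.le)
  have hD1 : D ≤ 1 := hD2.trans ((div_le_one hL0).2 (by linarith))
  have hx2 := sq_nonneg x
  have a1 := abs_le.1 (exp3 (hx.trans hη1))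
  have h3 : |x| ^ 3 = |x| * x ^ 2 := by rw [← sq_abs x]; ring
  rw [h3] at a1
  have h4 : |x| * x ^ 2 ≤ η * x ^ 2 := mul_le_mul_of_nonneg_right hx hx2
  have h5 : (1 - η / 2) * (x ^ 2 / 2) ≤ Real.exp x - 1 - x := by linarith [a1.1]
  set z : ℝ := D * (Real.exp x - 1) with hz
  have hexp : |Real.exp x - 1| ≤ 2 * |x| := by
    have b1 := a1.1
    have b2 := a1.2
    have b3 : x ^ 2 = |x| * |x| := by rw [← sq_abs x]; ring
    have b4 : 0 ≤ |x| := abs_nonneg x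
    have b5 := neg_abs_le x
    have b6 := le_abs_self x
    have b7 : |x| * |x| ≤ 1 / 4 * |x| := mul_le_mul_of_nonneg_right hx1 b4
    have b8 : |x| * x ^ 2 ≤ 1 / 4 * |x| := by
      rw [b3]
      nlinarith
    rw [abs_le]
    constructor <;> nlinarith
  have hz1 : |z| ≤ 2 * D * |x| := by
    rw [hz, abs_mul, abs_of_nonneg h0]
    nlinarith
  have hz2 : z ^ 2 ≤ 4 * D ^ 2 * x ^ 2 := by
    rw [← sq_abs z, ← sq_abs x]
    have := pow_le_pow_left₀ (abs_nonneg z) hz1 2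
    calc |z| ^ 2 ≤ (2 * D * |x|) ^ 2 := this
      _ = 4 * D ^ 2 * |x| ^ 2 := by ring
  have hz3 : |z| ≤ 1 / 2 := hz1.trans (by nlinarith [abs_nonneg x])
  have hz4 := abs_le.1 hz3
  have hlog : z - 2 * z ^ 2 ≤ Real.log (1 + z) := by
    have c1 : 0 < 1 + z := by linarith
    have c2 := Real.one_sub_inv_le_log_of_pos c1
    have c3 : z - 2 * z ^ 2 ≤ 1 - (1 + z)⁻¹ := by
      have c4 : 1 - (1 + z)⁻¹ = z / (1 + z) := by field_simp; ring
      rw [c4, le_div_iff₀ c1]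
      nlinarith [sq_nonneg z]
    linarith
  have hpos : 0 < 1 + z := by linarith
  unfold KK
  rw [← hz, ← Real.exp_log hpos, ← Real.exp_add]
  apply Real.exp_le_exp.2
  have d1 : D * ((1 - η / 2) * (x ^ 2 / 2)) ≤ D * (Real.exp x - 1 - x) := mul_le_mul_of_nonneg_left h5 h0
  have d2 : D ^ 2 * x ^ 2 ≤ D * (2 / L) * x ^ 2 := by
    apply mul_le_mul_of_nonneg_right _ hx2
    rw [sq]
    exact mul_le_mul_of_nonneg_left hD2 h0
  have d3 : 2 / L ≤ η / 32 := by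
    rw [div_le_iff₀ hL0]
    rw [div_le_iff₀ hη] at hL
    nlinarith
  have d4 : D * (2 / L) * x ^ 2 ≤ D * (η / 32) * x ^ 2 :=
    mul_le_mul_of_nonneg_right (mul_le_mul_of_nonneg_left d3 h0) hx2
  have d5 : D * ((1 - η) * (x ^ 2 / 2)) ≤ -(x * D) + Real.log (1 + z) := by
    have e1 : -(x * D) + z = D * (Real.exp x - 1 - x) := by rw [hz]; ring
    have e2 : D * ((1 - η) * (x ^ 2 / 2)) ≤ D * ((1 - η / 2) * (x ^ 2 / 2)) - 8 * (D * (η / 32) * x ^ 2) := by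
      have : 0 ≤ D * x ^ 2 := mul_nonneg h0 hx2
      nlinarith
    nlinarith
  refine le_trans ?_ d5
  by_cases hη2 : η ≤ 1
  · have e3 : (1 - η) / L * ((1 - η) * (x ^ 2 / 2)) ≤ D * ((1 - η) * (x ^ 2 / 2)) :=
      mul_le_mul_of_nonneg_right h1 (mul_nonneg (by linarith) (by positivity))
    refine le_trans ?_ e3
    have e4 : (1 - η) / L * ((1 - η) * (x ^ 2 / 2)) = ((1 - η) * (1 - η)) / (2 * L) * x ^ 2 := by field_simp
    rw [e4]
    apply mul_le_mul_of_nonneg_right _ hx2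
    apply div_le_div_of_nonneg_right _ (by positivity)
    nlinarith
  · exact absurd hη1 hη2

/-- the numbers in the lower bound -/
lemma qq_num {δ η r W L g : ℝ} (hδ : 0 < δ) (hδ1 : δ ≤ 1 / 4) (hη : 0 < η) (hηδ : η ≤ δ ^ 2 / 64) (hL : 0 < L)
    (hg : g = r ^ 2 * W / L) (hg0 : 0 ≤ g) (h : 0 ≤ 1 - 2 * Real.exp (-(g * δ ^ 2 / 8))) :
    Real.exp (-(g * (1 / 2 + 4 * δ))) * (1 - 2 * Real.exp (-(g * δ ^ 2 / 8))) ≤
      qq ((1 + δ) * r) (δ * r) (r * W / L) ((1 + 2 * δ) * (r * W / L)) ((1 - 2 * η) / (2 * L)) ((1 + 2 * η) / (2 * L)) W 0 := by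
  have hW : r * (r * W / L) = g := by rw [hg]; ring
  have hW2 : ∀ c y : ℝ, c / (2 * L) * (y * r) ^ 2 * W = c * y ^ 2 * g / 2 := by
    intro c y
    rw [hg]
    field_simp
  unfold qq
  rw [← Real.exp_add, ← Real.exp_add, ← Real.exp_add]
  have s1 : (1 + δ) * r - δ * r = 1 * r := by ring
  have s2 : (1 + δ) * r + δ * r = (1 + 2 * δ) * r := by ring
  rw [s1, s2, hW2, hW2, hW2]
  set e1 : ℝ := -((1 + δ) * r * ((1 + 2 * δ) * (r * W / L))) + ((1 + δ) * r * 0 + (1 - 2 * η) * (1 + δ) ^ 2 * g / 2) with he1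
  have g1 : e1 = g * (-((1 + δ) * (1 + 2 * δ)) + (1 - 2 * η) * (1 + δ) ^ 2 / 2) := by
    rw [he1]
    linear_combination (-(1 + δ) * (1 + 2 * δ)) * hW
  have g2 : δ * r * (r * W / L) - (1 + δ) * r * ((1 + 2 * δ) * (r * W / L)) +
      (1 * r * 0 + (1 + 2 * η) * 1 ^ 2 * g / 2) = g * (δ - (1 + δ) * (1 + 2 * δ) + (1 + 2 * η) / 2) := by
    linear_combination (δ - (1 + δ) * (1 + 2 * δ)) * hW
  have g3 : -(δ * r * ((1 + 2 * δ) * (r * W / L))) - (1 + δ) * r * ((1 + 2 * δ) * (r * W / L)) +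
      ((1 + 2 * δ) * r * 0 + (1 + 2 * η) * (1 + 2 * δ) ^ 2 * g / 2) =
      g * (-(δ * (1 + 2 * δ)) - (1 + δ) * (1 + 2 * δ) + (1 + 2 * η) * (1 + 2 * δ) ^ 2 / 2) := by
    linear_combination (-(δ * (1 + 2 * δ)) - (1 + δ) * (1 + 2 * δ)) * hW
  rw [g2, g3]
  have hδ2 : 0 < δ ^ 2 := by positivity
  have b1 : (1 + δ) ^ 2 ≤ 2 := by nlinarith
  have b2 : (1 + 2 * δ) ^ 2 ≤ 3 := by nlinarith
  have b3 : 0 ≤ (1 + δ) ^ 2 := sq_nonneg _
  have b4 : 0 ≤ (1 + 2 * δ) ^ 2 := sq_nonneg _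
  have k1 : -(g * (1 / 2 + 4 * δ)) ≤ e1 := by
    rw [g1]
    have : -(1 / 2 + 4 * δ) ≤ -((1 + δ) * (1 + 2 * δ)) + (1 - 2 * η) * (1 + δ) ^ 2 / 2 := by
      have c1 : η * (1 + δ) ^ 2 ≤ η * 2 := mul_le_mul_of_nonneg_left b1 hη.le
      nlinarith
    nlinarith
  have k2 : g * (δ - (1 + δ) * (1 + 2 * δ) + (1 + 2 * η) / 2) ≤ e1 + -(g * δ ^ 2 / 8) := by
    rw [g1]
    have : δ - (1 + δ) * (1 + 2 * δ) + (1 + 2 * η) / 2 ≤
        -((1 + δ) * (1 + 2 * δ)) + (1 - 2 * η) * (1 + δ) ^ 2 / 2 - δ ^ 2 / 8 := by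
      have c1 : η * (1 + δ) ^ 2 ≤ η * 2 := mul_le_mul_of_nonneg_left b1 hη.le
      nlinarith
    have := mul_le_mul_of_nonneg_left this hg0
    linarith
  have k3 : g * (-(δ * (1 + 2 * δ)) - (1 + δ) * (1 + 2 * δ) + (1 + 2 * η) * (1 + 2 * δ) ^ 2 / 2) ≤ e1 + -(g * δ ^ 2 / 8) := by
    rw [g1]
    have : -(δ * (1 + 2 * δ)) - (1 + δ) * (1 + 2 * δ) + (1 + 2 * η) * (1 + 2 * δ) ^ 2 / 2 ≤
        -((1 + δ) * (1 + 2 * δ)) + (1 - 2 * η) * (1 + δ) ^ 2 / 2 - δ ^ 2 / 8 := by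
      have c1 : η * (1 + δ) ^ 2 ≤ η * 2 := mul_le_mul_of_nonneg_left b1 hη.le
      have c2 : η * (1 + 2 * δ) ^ 2 ≤ η * 3 := mul_le_mul_of_nonneg_left b2 hη.le
      nlinarith
    have := mul_le_mul_of_nonneg_left this hg0
    linarith
  have m1 := Real.exp_le_exp.2 k1
  have m2 := Real.exp_le_exp.2 k2
  have m3 := Real.exp_le_exp.2 k3
  rw [Real.exp_add] at m2 m3
  have m4 := Real.exp_pos e1
  calc Real.exp (-(g * (1 / 2 + 4 * δ))) * (1 - 2 * Real.exp (-(g * δ ^ 2 / 8)))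
      ≤ Real.exp e1 * (1 - 2 * Real.exp (-(g * δ ^ 2 / 8))) := mul_le_mul_of_nonneg_right m1 h
    _ ≤ _ := by nlinarith

end Pool.Agent.N740.HK
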