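import Mathlib
import Pool.Agent.N740.HK.Fl3

/-!
# Moderate deviations: sequences of windows
-/

set_option autoImplicit false
set_option linter.unusedSectionVars false

open MeasureTheory Filter Set
open scoped ENNReal Topology

namespace Pool.Agent.N740.HK

open Pool.Agent.R528.RM

variable {Ω : Type} {m0 : MeasurableSpace Ω} {μ : Measure Ω} [IsProbabilityMeasure μ]
  {ℱ : Filtration ℕ m0} {A : ℕ → Set Ω}

lemma good_win (hA : ∀ n, MeasurableSet[ℱ n] (A n))
    (hd : ∀ᵐ ω ∂μ, Tendsto (fun n : ℕ => dens μ ℱ A n ω * Real.log n) atTop (𝓝 1)) :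
    ∀ᵐ ω ∂μ, ∀ η : ℝ, 0 < η → η ≤ 1 → ∀ᶠ T : ℕ in atTop, ∀ H : ℕ, H ≤ T →
      ω ∈ GW μ ℱ A ((1 - η) / Real.log T) ((1 + η) / Real.log T) T H := by
  filter_upwards [hd, DD'_ae (μ := μ) hA] with ω h1 h2 η hη hη1
  have h3 : ∀ᶠ n : ℕ in atTop, |dens μ ℱ A n ω * Real.log n - 1| < η / 4 := by
    have := Metric.tendsto_nhds.1 h1 (η / 4) (by positivity)
    exact this
  obtain ⟨n0, hn0⟩ := eventually_atTop.1 h3
  have hlog : ∀ᶠ T : ℕ in atTop, 4 / η ≤ Real.log (T : ℝ) :=
    (Real.tendsto_log_atTop.comp tendsto_natCast_atTop_atTop).eventually_ge_atTop _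
  filter_upwards [eventually_ge_atTop n0, hlog, eventually_gt_atTop 1] with T hT hL hT1 H hH
  intro i hi
  have hT0 : (0 : ℝ) < T := by exact_mod_cast (by omega : 0 < T)
  have k1 := abs_lt.1 (hn0 (T + i) (by omega))
  rw [h2 (T + i)]
  set t : ℝ := ((T + i : ℕ) : ℝ) with ht
  have hL0 : 0 < Real.log T := lt_of_lt_of_le (by positivity) hL
  have ht1 : (T : ℝ) ≤ t := by rw [ht]; push_cast; linarith [Nat.cast_nonneg (α := ℝ) i]
  have ht2 : t ≤ 2 * T := by
    have : T + i ≤ 2 * T := by omega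
    rw [ht]
    exact_mod_cast this
  have hl1 : Real.log T ≤ Real.log t := Real.log_le_log hT0 ht1
  have hl2 : Real.log t ≤ Real.log T + 1 := by
    have e1 : Real.log t ≤ Real.log (2 * T) := Real.log_le_log (by linarith) ht2
    rw [Real.log_mul (by norm_num) hT0.ne'] at e1
    have := Real.log_two_lt_d9
    linarith
  have hlt : 0 < Real.log t := by linarith
  constructor
  · rw [div_le_iff₀ hL0]
    by_cases hneg : 1 - η ≤ 0
    · have hD0 : 0 ≤ dens μ ℱ A (T + i) ω := by rw [← h2]; exact (DD'_bd _ _).1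
      exact hneg.trans (mul_nonneg hD0 hL0.le)
    · push Not at hneg
      have e1 : 1 - η / 4 ≤ dens μ ℱ A (T + i) ω * Real.log t := by linarith [k1.1]
      have hD0 : 0 ≤ dens μ ℱ A (T + i) ω := by rw [← h2]; exact (DD'_bd _ _).1
      have e2 : dens μ ℱ A (T + i) ω * Real.log t ≤ dens μ ℱ A (T + i) ω * (Real.log T + 1) :=
        mul_le_mul_of_nonneg_left hl2 hD0
      have e3 : Real.log T + 1 ≤ (1 + η / 4) * Real.log T := by
        have : 4 ≤ η * Real.log T := by
          calc (4 : ℝ) = η * (4 / η) := by field_simp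
            _ ≤ η * Real.log T := mul_le_mul_of_nonneg_left hL hη.le
        linarith
      have e4 : dens μ ℱ A (T + i) ω * (Real.log T + 1) ≤ dens μ ℱ A (T + i) ω * ((1 + η / 4) * Real.log T) :=
        mul_le_mul_of_nonneg_left e3 hD0
      set X : ℝ := dens μ ℱ A (T + i) ω * Real.log T with hX
      have e5 : 1 - η / 4 ≤ (1 + η / 4) * X := by
        have : dens μ ℱ A (T + i) ω * ((1 + η / 4) * Real.log T) = (1 + η / 4) * X := by rw [hX]; ring
        linarith
      by_contra hcon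
      push Not at hcon
      nlinarith
  · rw [le_div_iff₀ hL0]
    have hD0 : 0 ≤ dens μ ℱ A (T + i) ω := by rw [← h2]; exact (DD'_bd _ _).1
    have e1 : dens μ ℱ A (T + i) ω * Real.log T ≤ dens μ ℱ A (T + i) ω * Real.log t :=
      mul_le_mul_of_nonneg_left hl1 hD0
    linarith [k1.2]

/-- the size of the fluctuations -/
noncomputable def MM (W L Λ : ℝ) : ℝ := Real.sqrt (2 * W * Λ / L)

/-- **sequences of windows: upper bound** -/
theorem seq_upper (hA : ∀ n, MeasurableSet[ℱ n] (A n))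
    (hd : ∀ᵐ ω ∂μ, Tendsto (fun n : ℕ => dens μ ℱ A n ω * Real.log n) atTop (𝓝 1))
    {T H : ℕ → ℕ} {σ : ℕ → ℕ → ℝ} {W : ℕ → ℝ} (hσ : ∀ k i, |σ k i| ≤ 1) (hT : Tendsto T atTop atTop)
    (hH : ∀ᶠ k in atTop, H k ≤ T k) (hW0 : ∀ᶠ k in atTop, 0 < W k) (hW : ∀ᶠ k in atTop, RW (σ k) (H k) 0 ≤ W k)
    (hs : Tendsto (fun k : ℕ => Real.log k * Real.log (T k) / W k) atTop (𝓝 0)) :
    ∀ᵐ ω ∂μ, ∀ ε : ℝ, 0 < ε → ∀ᶠ k : ℕ in atTop, ∀ j, j ≤ H k →
      SW μ ℱ A (σ k) (T k) j ω ≤ (1 + ε) * MM (W k) (Real.log (T k)) (Real.log k) := by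
  have hTl : Tendsto (fun k : ℕ => Real.log (T k)) atTop atTop :=
    Real.tendsto_log_atTop.comp (tendsto_natCast_atTop_atTop.comp hT)
  have main : ∀ ε : ℝ, 0 < ε → ε ≤ 1 → ∀ᵐ ω ∂μ, ∀ᶠ k : ℕ in atTop, ∀ j, j ≤ H k →
      SW μ ℱ A (σ k) (T k) j ω ≤ (1 + ε) * MM (W k) (Real.log (T k)) (Real.log k) := by
    intro ε hε hε1
    set η : ℝ := ε / 4 with hη
    have hη0 : 0 < η := by positivity
    have hη1 : η ≤ 1 := by rw [hη]; linarith
    set E : ℕ → Set Ω := fun k => {ω | ∃ j, j ≤ H k ∧ ω ∈ GW μ ℱ A ((1 - η) / Real.log (T k)) ((1 + η) / Real.log (T k)) (T k) j ∧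
      (1 + ε) * MM (W k) (Real.log (T k)) (Real.log k) ≤ SW μ ℱ A (σ k) (T k) j ω} with hE
    have hr : Tendsto (fun k : ℕ => (1 + ε) * Real.sqrt (2 * (Real.log k * Real.log (T k) / W k))) atTop (𝓝 0) := by
      have h1 := ((hs.const_mul 2).sqrt).const_mul (1 + ε)
      rw [mul_zero, Real.sqrt_zero, mul_zero] at h1
      exact h1
    have hbd : ∀ᶠ k : ℕ in atTop, μ.real (E k) ≤ (k : ℝ) ^ (-(1 + ε)) := by
      filter_upwards [hW0, hW, hr.eventually_le_const hη0, hTl.eventually_gt_atTop 0, eventually_ge_atTop 3] with k w0 w1 r1 l1 k3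
      set L : ℝ := Real.log (T k) with hL
      set Λ : ℝ := Real.log k with hΛ
      have hk0 : (0 : ℝ) < k := by exact_mod_cast (by omega : 0 < k)
      have hΛ0 : 0 < Λ := Real.log_pos (by exact_mod_cast (by omega : 1 < k))
      set r : ℝ := (1 + ε) * Real.sqrt (2 * (Λ * L / W k)) with hrr
      set b : ℝ := (1 + ε) * MM (W k) L Λ with hb
      have hr0 : 0 < r := mul_pos (by linarith) (Real.sqrt_pos.2 (by positivity))
      have hb0 : 0 < b := mul_pos (by linarith) (Real.sqrt_pos.2 (by positivity))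
      have hrb : r * b = (1 + ε) ^ 2 * (2 * Λ) := by
        have e1 : Real.sqrt (2 * (Λ * L / W k)) * Real.sqrt (2 * W k * Λ / L) = 2 * Λ := by
          rw [← Real.sqrt_mul (by positivity)]
          have e2 : 2 * (Λ * L / W k) * (2 * W k * Λ / L) = (2 * Λ) ^ 2 := by field_simp
          rw [e2, Real.sqrt_sq (by positivity)]
        rw [hrr, hb]
        unfold MM
        linear_combination ((1 + ε) ^ 2) * e1
      have hr2 : r ^ 2 * W k / L = (1 + ε) ^ 2 * (2 * Λ) := by
        rw [hrr, mul_pow, Real.sq_sqrt (by positivity)]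
        field_simp
      have h1 := fl_upper (μ := μ) (T := T k) (H := H k) (l := (1 - η) / L) (u := (1 + η) / L) (β := (1 + 2 * η) / (2 * L))
        hA (hσ k) hr0 hb0 (by positivity) (fun j D hD1 hD2 => by
          refine KK_up hη0 hη1 l1 ?_ (le_trans (div_nonneg (by linarith) l1.le) hD1) hD2
          rw [abs_mul, abs_of_pos hr0]
          exact (mul_le_of_le_one_right hr0.le (hσ k j)).trans r1)
      refine h1.trans ?_
      rw [Real.rpow_def_of_pos hk0]
      apply Real.exp_le_exp.2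
      have h2 : (1 + 2 * η) / (2 * L) * r ^ 2 * RW (σ k) (H k) 0 ≤ (1 + 2 * η) / (2 * L) * r ^ 2 * W k :=
        mul_le_mul_of_nonneg_left w1 (by positivity)
      have h3 : (1 + 2 * η) / (2 * L) * r ^ 2 * W k = (1 + 2 * η) / 2 * ((1 + ε) ^ 2 * (2 * Λ)) := by
        rw [← hr2]
        field_simp
      have h4 : Real.log k = Λ := rfl
      rw [h4]
      have h5 : -(r * b) + (1 + 2 * η) / 2 * ((1 + ε) ^ 2 * (2 * Λ)) = -((1 + ε) ^ 2 * (1 - 2 * η) * Λ) := by
        rw [hrb]; ring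
      have h6 : (1 + ε) ≤ (1 + ε) ^ 2 * (1 - 2 * η) := by
        rw [hη]
        nlinarith [mul_pos hε hε]
      have h7 : (1 + ε) * Λ ≤ (1 + ε) ^ 2 * (1 - 2 * η) * Λ := mul_le_mul_of_nonneg_right h6 hΛ0.le
      linarith
    have hsum : ∑' k : ℕ, μ (E k) ≠ ∞ := by
      have h1 : Summable (fun k : ℕ => (k : ℝ) ^ (-(1 + ε))) := Real.summable_nat_rpow.2 (by linarith)
      have h2 : Summable (fun k : ℕ => μ.real (E k)) := by
        refine Summable.of_norm_bounded_eventually_nat h1 ?_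
        filter_upwards [hbd] with k hk
        rw [Real.norm_of_nonneg measureReal_nonneg]
        exact hk
      have h3 : ∑' n : ℕ, μ (E n) = ENNReal.ofReal (∑' n : ℕ, μ.real (E n)) := by
        rw [ENNReal.ofReal_tsum_of_nonneg (fun _ => measureReal_nonneg) h2]
        congr 1
        funext i
        exact (ofReal_measureReal (measure_ne_top _ _)).symm
      rw [h3]
      exact ENNReal.ofReal_ne_top
    filter_upwards [ae_eventually_notMem hsum, good_win (μ := μ) hA hd] with ω h1 h2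
    filter_upwards [h1, hT.eventually (h2 η hη0 hη1), hH] with k h3 h4 h5 j hj
    by_contra hcon
    push Not at hcon
    exact h3 ⟨j, hj, h4 j (hj.trans h5), hcon.le⟩
  have hall : ∀ᵐ ω ∂μ, ∀ m : ℕ, ∀ᶠ k : ℕ in atTop, ∀ j, j ≤ H k →
      SW μ ℱ A (σ k) (T k) j ω ≤ (1 + 1 / ((m : ℝ) + 1)) * MM (W k) (Real.log (T k)) (Real.log k) := by
    rw [ae_all_iff]
    intro m
    refine main _ (by positivity) ?_
    rw [div_le_one (by positivity)]
    linarith [Nat.cast_nonneg (α := ℝ) m]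
  filter_upwards [hall] with ω hω ε hε
  obtain ⟨m, hm⟩ := exists_nat_one_div_lt hε
  filter_upwards [hω m] with k hk j hj
  refine (hk j hj).trans (mul_le_mul_of_nonneg_right (by linarith) (Real.sqrt_nonneg _))

/-- **sequences of windows: lower bound** -/
theorem seq_lower (hA : ∀ n, MeasurableSet[ℱ n] (A n))
    (hd : ∀ᵐ ω ∂μ, Tendsto (fun n : ℕ => dens μ ℱ A n ω * Real.log n) atTop (𝓝 1))
    {T H : ℕ → ℕ} {σ : ℕ → ℕ → ℝ} {W : ℕ → ℝ} (hσ : ∀ k i, |σ k i| ≤ 1) (hT : Tendsto T atTop atTop)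
    (hH : ∀ᶠ k in atTop, H k ≤ T k) (hW0 : ∀ᶠ k in atTop, 0 < W k) (hW : ∀ᶠ k in atTop, RW (σ k) (H k) 0 = W k)
    (hs : Tendsto (fun k : ℕ => Real.log k * Real.log (T k) / W k) atTop (𝓝 0)) (hTH : ∀ k, T k + H k ≤ T (k + 1)) :
    ∀ᵐ ω ∂μ, ∀ ε : ℝ, 0 < ε → ∀ K : ℕ, ∃ k, K ≤ k ∧
      (1 - ε) * MM (W k) (Real.log (T k)) (Real.log k) ≤ SW μ ℱ A (σ k) (T k) (H k) ω := by
  have hTl : Tendsto (fun k : ℕ => Real.log (T k)) atTop atTop :=
    Real.tendsto_log_atTop.comp (tendsto_natCast_atTop_atTop.comp hT)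
  have hmono : Monotone T := monotone_nat_of_le_succ fun k => by have := hTH k; omega
  have main : ∀ ε : ℝ, 0 < ε → ε < 1 → ∀ᵐ ω ∂μ, ∀ K : ℕ, ∃ k, K ≤ k ∧
      (1 - ε) * MM (W k) (Real.log (T k)) (Real.log k) ≤ SW μ ℱ A (σ k) (T k) (H k) ω := by
    intro ε hε hε1
    set δ : ℝ := ε / 16 with hδ
    have hδ0 : 0 < δ := by positivity
    have hδ1 : δ ≤ 1 / 4 := by rw [hδ]; linarith
    set η : ℝ := δ ^ 2 / 64 with hη
    have hη0 : 0 < η := by positivity
    have hη1 : η ≤ 1 / 4 := by rw [hη]; nlinarith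
    set D : ℕ → Set Ω := fun k => {ω | (1 - ε) * MM (W k) (Real.log (T k)) (Real.log k) ≤ SW μ ℱ A (σ k) (T k) (H k) ω} ∪
      (GW μ ℱ A ((1 - η) / Real.log (T k)) ((1 + η) / Real.log (T k)) (T k) (H k))ᶜ with hD
    have hDm : ∀ k, MeasurableSet[ℱ (T (k + 1))] (D k) := by
      intro k
      refine ℱ.mono (hTH k) _ ?_
      exact (measurableSet_le (@measurable_const _ _ _ (ℱ (T k + H k)) _) (SW_meas hA (σ k) (T k) (H k)).measurable).union
        (GW_meas' _ _ _ _).compl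
    have hr : Tendsto (fun k : ℕ => 2 * Real.sqrt (2 * (Real.log k * Real.log (T k) / W k))) atTop (𝓝 0) := by
      have h1 := ((hs.const_mul 2).sqrt).const_mul 2
      rw [mul_zero, Real.sqrt_zero, mul_zero] at h1
      exact h1
    have hΛl : Tendsto (fun k : ℕ => Real.log (k : ℝ)) atTop atTop := Real.tendsto_log_atTop.comp tendsto_natCast_atTop_atTop
    have hp : ∃ k₀, ∀ k, k₀ ≤ k → ∀ C, MeasurableSet[ℱ (T k)] C → (1 / 2 * (1 / ((k : ℝ) + 1))) * μ.real C ≤ μ.real (C ∩ D k) := by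
      apply eventually_atTop.1
      filter_upwards [hW0, hW, hr.eventually_le_const hη0, hTl.eventually_ge_atTop (64 / η), eventually_ge_atTop 3,
        hΛl.eventually_ge_atTop (16 / ((1 - ε) ^ 2 * δ ^ 2))] with k w0 w1 r1 l1 k3 l2 C hC
      set L : ℝ := Real.log (T k) with hL
      set Λ : ℝ := Real.log k with hΛ
      have hL0 : 0 < L := lt_of_lt_of_le (by positivity) l1
      have hk0 : (0 : ℝ) < k := by exact_mod_cast (by omega : 0 < k)
      have hΛ0 : 0 < Λ := Real.log_pos (by exact_mod_cast (by omega : 1 < k))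
      have hε2 : 0 < 1 - ε := by linarith
      set r : ℝ := (1 - ε) * Real.sqrt (2 * (Λ * L / W k)) with hrr
      have hr0 : 0 < r := mul_pos hε2 (Real.sqrt_pos.2 (by positivity))
      have hr4 : 2 * r ≤ η := by
        refine le_trans ?_ r1
        rw [hrr]
        have h0 : 0 ≤ Real.sqrt (2 * (Λ * L / W k)) := Real.sqrt_nonneg _
        nlinarith
      have ha : r * W k / L = (1 - ε) * MM (W k) L Λ := by
        rw [hrr]
        unfold MM
        have e1 : Real.sqrt (2 * (Λ * L / W k)) * (W k / L) = Real.sqrt (2 * W k * Λ / L) := by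
          symm
          rw [Real.sqrt_eq_iff_mul_self_eq_of_pos (by positivity)]
          have e2 := Real.mul_self_sqrt (show 0 ≤ 2 * (Λ * L / W k) by positivity)
          calc Real.sqrt (2 * (Λ * L / W k)) * (W k / L) * (Real.sqrt (2 * (Λ * L / W k)) * (W k / L))
              = (Real.sqrt (2 * (Λ * L / W k)) * Real.sqrt (2 * (Λ * L / W k))) * (W k / L * (W k / L)) := by ring
            _ = 2 * W k * Λ / L := by rw [e2]; field_simp
        rw [← e1]
        ring
      set g : ℝ := r ^ 2 * W k / L with hg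
      have hg1 : g = (1 - ε) ^ 2 * (2 * Λ) := by
        rw [hg, hrr, mul_pow, Real.sq_sqrt (by positivity)]
        field_simp
      have hg0 : 0 ≤ g := by rw [hg1]; positivity
      have hδ2 : 0 < (1 - ε) ^ 2 * δ ^ 2 := by positivity
      have hexp : Real.exp (-(g * δ ^ 2 / 8)) ≤ 1 / 4 := by
        have e1 : 4 ≤ g * δ ^ 2 / 8 := by
          rw [hg1]
          rw [div_le_iff₀ hδ2] at l2
          nlinarith
        have e2 : Real.exp (-(g * δ ^ 2 / 8)) ≤ Real.exp (-4) := Real.exp_le_exp.2 (by linarith)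
        have e3 : Real.exp (-4) ≤ 1 / 4 := by
          rw [Real.exp_neg, inv_eq_one_div]
          apply one_div_le_one_div_of_le (by norm_num)
          have := Real.add_one_le_exp (4 : ℝ)
          linarith
        linarith
      have q1 := qq_num (W := W k) (r := r) hδ0 hδ1 hη0 le_rfl hL0 hg hg0 (by linarith)
      have q2 : Real.exp (-Λ) ≤ Real.exp (-(g * (1 / 2 + 4 * δ))) := by
        apply Real.exp_le_exp.2
        have e1 : g * (1 / 2 + 4 * δ) = ((1 - ε) ^ 2 * (1 + ε / 2)) * Λ := by rw [hg1, hδ]; ring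
        have e2 : (1 - ε) ^ 2 * (1 + ε / 2) ≤ 1 := by nlinarith [mul_pos hε hε]
        rw [e1]
        nlinarith
      have q3 : 1 / 2 * (1 / ((k : ℝ) + 1)) ≤
          Real.exp (-(g * (1 / 2 + 4 * δ))) * (1 - 2 * Real.exp (-(g * δ ^ 2 / 8))) := by
        have e1 : Real.exp (-Λ) = 1 / k := by rw [Real.exp_neg, hΛ, Real.exp_log hk0, one_div]
        have e2 : 1 / ((k : ℝ) + 1) ≤ 1 / k := one_div_le_one_div_of_le hk0 (by linarith)
        calc 1 / 2 * (1 / ((k : ℝ) + 1)) ≤ 1 / 2 * Real.exp (-Λ) := by rw [e1]; linarith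
          _ = Real.exp (-Λ) * (1 / 2) := by ring
          _ ≤ Real.exp (-(g * (1 / 2 + 4 * δ))) * (1 - 2 * Real.exp (-(g * δ ^ 2 / 8))) :=
              mul_le_mul q2 (by linarith) (by norm_num) (Real.exp_pos _).le
      have hηle : η ≤ 1 := by linarith
      have x1 : ∀ y : ℝ, 0 ≤ y → y ≤ 2 * r → ∀ j, |y * σ k j| ≤ η := by
        intro y y0 y1 j
        rw [abs_mul, abs_of_nonneg y0]
        exact ((mul_le_of_le_one_right y0 (hσ k j)).trans y1).trans hr4
      have hlow := fl_lower (μ := μ) (T := T k) (H := H k) (lam := (1 + δ) * r) (θ := δ * r) (a := r * W k / L)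
        (b := (1 + 2 * δ) * (r * W k / L)) (α := (1 - 2 * η) / (2 * L)) (β := (1 + 2 * η) / (2 * L))
        (l := (1 - η) / L) (u := (1 + η) / L)
        hA (hσ k) (by positivity) (by positivity) (div_nonneg (by linarith) (by positivity))
        (div_le_div_of_nonneg_right (by linarith) (by positivity))
        (fun j D' hD1 hD2 => KK_lo hη0 hηle l1 (x1 _ (by positivity) (by nlinarith) j)
          ((x1 _ (by positivity) (by nlinarith) j).trans hη1) hD1 (le_trans (div_nonneg (by linarith) hL0.le) hD1) hD2)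
        (fun j D' hD1 hD2 => by
          have e : (1 + δ) * r - δ * r = r := by ring
          rw [e]
          exact KK_up hη0 hηle hL0 (x1 _ hr0.le (by linarith) j) (le_trans (div_nonneg (by linarith) hL0.le) hD1) hD2)
        (fun j D' hD1 hD2 => by
          have e : (1 + δ) * r + δ * r = (1 + 2 * δ) * r := by ring
          rw [e]
          exact KK_up hη0 hηle hL0 (x1 _ (by positivity) (by nlinarith) j) (le_trans (div_nonneg (by linarith) hL0.le) hD1) hD2)
        hC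
      rw [w1] at hlow
      have e1 : {ω | r * W k / L ≤ SW μ ℱ A (σ k) (T k) (H k) ω} ∪
          (GW μ ℱ A ((1 - η) / L) ((1 + η) / L) (T k) (H k))ᶜ = D k := by
        rw [ha]
      rw [e1] at hlow
      exact (mul_le_mul_of_nonneg_right (q3.trans q1) measureReal_nonneg).trans hlow
    obtain ⟨k₀, hk₀⟩ := hp
    have hsum : Tendsto (fun n => ∑ k ∈ Finset.range n, (1 / 2 * (1 / ((k : ℝ) + 1)))) atTop atTop := by
      have h1 := Real.tendsto_sum_range_one_div_nat_succ_atTop.const_mul_atTop (show (0 : ℝ) < 1 / 2 by norm_num)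
      refine h1.congr fun n => ?_
      rw [Finset.mul_sum]
    have h1 := trials_io (μ := μ) (ℱ := ℱ) hmono hDm hk₀ hsum
    filter_upwards [h1, good_win (μ := μ) hA hd] with ω h2 h3 K
    have h4 : ∀ᶠ k in atTop, ω ∈ GW μ ℱ A ((1 - η) / Real.log (T k)) ((1 + η) / Real.log (T k)) (T k) (H k) := by
      filter_upwards [hT.eventually (h3 η hη0 (by linarith)), hH] with k h5 h6
      exact h5 _ h6
    obtain ⟨K', hK'⟩ := eventually_atTop.1 h4
    obtain ⟨k, hk, hk2⟩ := h2 (max K K')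
    refine ⟨k, (le_max_left _ _).trans hk, ?_⟩
    rcases hk2 with h5 | h5
    · exact h5
    · exact absurd (hK' k ((le_max_right _ _).trans hk)) h5
  have hall : ∀ᵐ ω ∂μ, ∀ m : ℕ, ∀ K : ℕ, ∃ k, K ≤ k ∧
      (1 - 1 / ((m : ℝ) + 2)) * MM (W k) (Real.log (T k)) (Real.log k) ≤ SW μ ℱ A (σ k) (T k) (H k) ω := by
    rw [ae_all_iff]
    intro m
    refine main _ (by positivity) ?_
    rw [div_lt_one (by positivity)]
    linarith [Nat.cast_nonneg (α := ℝ) m]
  filter_upwards [hall] with ω hω ε hε K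
  obtain ⟨m, hm⟩ := exists_nat_one_div_lt hε
  obtain ⟨k, hk, hk2⟩ := hω m K
  refine ⟨k, hk, le_trans (mul_le_mul_of_nonneg_right ?_ (Real.sqrt_nonneg _)) hk2⟩
  have h1 : 1 / ((m : ℝ) + 2) ≤ 1 / ((m : ℝ) + 1) := one_div_le_one_div_of_le (by positivity) (by linarith)
  linarith

end Pool.Agent.N740.HK
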