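import Mathlib
import Pool.Agent.N740.HK.Fl4

/-!
# The joint limit set of several signals is the unit ball
-/

set_option autoImplicit false
set_option linter.unusedSectionVars false

open MeasureTheory Filter Set
open scoped ENNReal Topology

namespace Pool.Agent.N740.HK

open Pool.Agent.R528.RM

section det

variable {ι : Type} [Fintype ι]

/-- the vector with rational coordinates -/
noncomputable def vv (a : ι → ℚ) : EuclideanSpace ℝ ι := WithLp.toLp 2 (fun i => (a i : ℝ))

lemma vv_dense : DenseRange (vv : (ι → ℚ) → EuclideanSpace ℝ ι) := by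
  have h1 : DenseRange (WithLp.toLp 2 : (ι → ℝ) → EuclideanSpace ℝ ι) :=
    (WithLp.toLp_surjective 2).denseRange
  have h2 : DenseRange (Pi.map (fun (_ : ι) (q : ℚ) => (q : ℝ))) := DenseRange.piMap fun _ => Rat.denseRange_cast
  exact h1.comp h2 (PiLp.continuous_toLp 2 _)

lemma inner_sum (x y : EuclideanSpace ℝ ι) : inner ℝ x y = ∑ i, x i * y i := by
  rw [PiLp.inner_apply]
  refine Finset.sum_congr rfl fun i _ => ?_
  rw [RCLike.inner_apply, conj_trivial, mul_comm]

lemma norm_sum (x : EuclideanSpace ℝ ι) : ‖x‖ ^ 2 = ∑ i, x i ^ 2 := by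
  rw [EuclideanSpace.norm_sq_eq]
  refine Finset.sum_congr rfl fun i _ => ?_
  rw [Real.norm_eq_abs, sq_abs]

/-- the deterministic part -/
theorem ball_det {X : ℕ → EuclideanSpace ℝ ι}
    (hU : ∀ a : ι → ℚ, ∀ ε : ℝ, 0 < ε → ∀ᶠ k in atTop, inner ℝ (vv a) (X k) ≤ (1 + ε) * ‖vv a‖)
    (hL : ∀ a : ι → ℚ, ∀ ε : ℝ, 0 < ε → ∃ᶠ k in atTop, (1 - ε) * ‖vv a‖ ≤ inner ℝ (vv a) (X k)) :
    (∀ ε : ℝ, 0 < ε → ∀ᶠ k in atTop, ‖X k‖ ≤ 1 + ε) ∧
    ∀ v : EuclideanSpace ℝ ι, ‖v‖ = 1 → ∀ ε : ℝ, 0 < ε → ∃ᶠ k in atTop, ‖X k - v‖ < ε := by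
  classical
  -- boundedness
  obtain ⟨R, hR0, hR⟩ : ∃ R : ℝ, 0 < R ∧ ∀ᶠ k in atTop, ‖X k‖ ≤ R := by
    refine ⟨4 * (Fintype.card ι : ℝ) + 1, by positivity, ?_⟩
    have h1 : ∀ᶠ k in atTop, ∀ i : ι, |X k i| ≤ 2 := by
      rw [eventually_all]
      intro i
      have key : ∀ s : ℚ, |(s : ℝ)| = 1 → ∀ᶠ k in atTop, (s : ℝ) * X k i ≤ 2 := by
        intro s hs
        have h2 := hU (Pi.single i s) 1 one_pos
        have e1 : ∀ k, inner ℝ (vv (Pi.single i s)) (X k) = (s : ℝ) * X k i := by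
          intro k
          rw [inner_sum, Finset.sum_eq_single i]
          · show ((Pi.single i s : ι → ℚ) i : ℝ) * X k i = _
            rw [Pi.single_eq_same]
          · intro j _ hj
            show ((Pi.single i s : ι → ℚ) j : ℝ) * X k j = 0
            rw [Pi.single_eq_of_ne hj]
            simp
          · intro h
            exact absurd (Finset.mem_univ i) h
        have e2 : ‖vv (Pi.single i s)‖ = 1 := by
          have h3 : ‖vv (Pi.single i s)‖ ^ 2 = 1 := by
            rw [norm_sum, Finset.sum_eq_single i]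
            · show ((Pi.single i s : ι → ℚ) i : ℝ) ^ 2 = _
              rw [Pi.single_eq_same, ← sq_abs, hs, one_pow]
            · intro j _ hj
              show ((Pi.single i s : ι → ℚ) j : ℝ) ^ 2 = 0
              rw [Pi.single_eq_of_ne hj]
              simp
            · intro h
              exact absurd (Finset.mem_univ i) h
          exact (pow_eq_one_iff_of_nonneg (norm_nonneg _) two_ne_zero).1 h3
        filter_upwards [h2] with k hk
        rw [e1, e2] at hk
        linarith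
      filter_upwards [key 1 (by simp), key (-1) (by simp)] with k k1 k2
      push_cast at k1 k2
      rw [abs_le]
      constructor <;> linarith
    filter_upwards [h1] with k hk
    have h2 : ‖X k‖ ^ 2 ≤ 4 * (Fintype.card ι : ℝ) := by
      rw [norm_sum]
      calc ∑ i, X k i ^ 2 ≤ ∑ _i : ι, (4 : ℝ) := Finset.sum_le_sum fun i _ => by
            have := hk i
            rw [← sq_abs]
            nlinarith [abs_nonneg (X k i)]
        _ = _ := by rw [Finset.sum_const, Finset.card_univ, nsmul_eq_mul]; ring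
    nlinarith [norm_nonneg (X k), Nat.cast_nonneg (α := ℝ) (Fintype.card ι)]
  -- arbitrary directions
  have hU' : ∀ v : EuclideanSpace ℝ ι, ∀ ε : ℝ, 0 < ε → ∀ᶠ k in atTop, inner ℝ v (X k) ≤ ‖v‖ + ε := by
    intro v ε hε
    obtain ⟨a, ha⟩ := vv_dense.exists_dist_lt v (show 0 < min (ε / (4 * R)) (ε / 4) by positivity)
    rw [dist_eq_norm] at ha
    have ha1 : ‖v - vv a‖ ≤ ε / (4 * R) := ha.le.trans (min_le_left _ _)
    have ha2 : ‖v - vv a‖ ≤ ε / 4 := ha.le.trans (min_le_right _ _)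
    set e : ℝ := ε / (4 * (‖vv a‖ + 1)) with he
    have he0 : 0 < e := by positivity
    filter_upwards [hU a e he0, hR] with k hk hk2
    have h1 : inner ℝ (v - vv a) (X k) ≤ ‖v - vv a‖ * ‖X k‖ := real_inner_le_norm _ _
    have h2 : ‖v - vv a‖ * ‖X k‖ ≤ ε / (4 * R) * R := mul_le_mul ha1 hk2 (norm_nonneg _) (by positivity)
    have h3 : ε / (4 * R) * R = ε / 4 := by field_simp
    have h4 : inner ℝ v (X k) = inner ℝ (v - vv a) (X k) + inner ℝ (vv a) (X k) := by
      rw [inner_sub_left]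
      ring
    have h5 : ‖vv a‖ ≤ ‖v‖ + ε / 4 := by
      have h6 := norm_sub_norm_le (vv a) v
      rw [norm_sub_rev] at h6
      linarith
    have h6 : e * ‖vv a‖ ≤ ε / 4 := by
      rw [he, div_mul_eq_mul_div, div_le_div_iff₀ (by positivity) (by norm_num)]
      nlinarith [norm_nonneg (vv a)]
    linarith
  have hL' : ∀ v : EuclideanSpace ℝ ι, ∀ ε : ℝ, 0 < ε → ∃ᶠ k in atTop, ‖v‖ - ε ≤ inner ℝ v (X k) := by
    intro v ε hε
    obtain ⟨a, ha⟩ := vv_dense.exists_dist_lt v (show 0 < min (ε / (4 * R)) (ε / 4) by positivity)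
    rw [dist_eq_norm] at ha
    have ha1 : ‖v - vv a‖ ≤ ε / (4 * R) := ha.le.trans (min_le_left _ _)
    have ha2 : ‖v - vv a‖ ≤ ε / 4 := ha.le.trans (min_le_right _ _)
    set e : ℝ := ε / (4 * (‖vv a‖ + 1)) with he
    have he0 : 0 < e := by positivity
    refine ((hL a e he0).and_eventually hR).mono ?_
    rintro k ⟨hk, hk2⟩
    have h1 := (abs_le.1 (abs_real_inner_le_norm (v - vv a) (X k))).1
    have h2 : ‖v - vv a‖ * ‖X k‖ ≤ ε / (4 * R) * R := mul_le_mul ha1 hk2 (norm_nonneg _) (by positivity)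
    have h3 : ε / (4 * R) * R = ε / 4 := by field_simp
    have h4 : inner ℝ v (X k) = inner ℝ (v - vv a) (X k) + inner ℝ (vv a) (X k) := by
      rw [inner_sub_left]
      ring
    have h5 : ‖v‖ ≤ ‖vv a‖ + ε / 4 := by
      have h6 := norm_sub_norm_le v (vv a)
      linarith
    have h6 : e * ‖vv a‖ ≤ ε / 4 := by
      rw [he, div_mul_eq_mul_div, div_le_div_iff₀ (by positivity) (by norm_num)]
      nlinarith [norm_nonneg (vv a)]
    linarith
  have part1 : ∀ ε : ℝ, 0 < ε → ∀ᶠ k in atTop, ‖X k‖ ≤ 1 + ε := by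
    intro ε hε
    obtain ⟨t, ht1, ht2, ht3⟩ := (isCompact_sphere (0 : EuclideanSpace ℝ ι) 1).finite_cover_balls
      (show 0 < ε / (2 * R) by positivity)
    have h1 : ∀ᶠ k in atTop, ∀ v ∈ ht2.toFinset, inner ℝ v (X k) ≤ ‖v‖ + ε / 2 := by
      rw [eventually_all_finset]
      intro v _
      exact hU' v (ε / 2) (by positivity)
    filter_upwards [h1, hR] with k hk hk2
    rcases eq_or_ne (X k) 0 with h0 | h0
    · rw [h0, norm_zero]
      linarith
    · have hn : 0 < ‖X k‖ := norm_pos_iff.2 h0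
      set u : EuclideanSpace ℝ ι := ‖X k‖⁻¹ • X k with hu
      have hu1 : ‖u‖ = 1 := by
        rw [hu, norm_smul, norm_inv, norm_norm]
        field_simp
      have hmem : u ∈ Metric.sphere (0 : EuclideanSpace ℝ ι) 1 := by
        rw [mem_sphere_zero_iff_norm]
        exact hu1
      have h2 := ht3 hmem
      simp only [mem_iUnion] at h2
      obtain ⟨v, hv, huv⟩ := h2
      rw [Metric.mem_ball, dist_eq_norm] at huv
      have hv1 : ‖v‖ = 1 := by
        have := ht1 hv
        rwa [mem_sphere_zero_iff_norm] at this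
      have h3 := hk v (ht2.mem_toFinset.2 hv)
      have h4 : inner ℝ u (X k) = ‖X k‖ := by
        rw [hu, real_inner_smul_left, real_inner_self_eq_norm_sq]
        field_simp
      have h5 : inner ℝ u (X k) = inner ℝ (u - v) (X k) + inner ℝ v (X k) := by
        rw [inner_sub_left]
        ring
      have h6 : inner ℝ (u - v) (X k) ≤ ‖u - v‖ * ‖X k‖ := real_inner_le_norm _ _
      have h7 : ‖u - v‖ * ‖X k‖ ≤ ε / (2 * R) * R := mul_le_mul huv.le hk2 (norm_nonneg _) (by positivity)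
      have h8 : ε / (2 * R) * R = ε / 2 := by field_simp
      linarith
  refine ⟨part1, fun v hv ε hε => ?_⟩
  set e : ℝ := min (ε ^ 2 / 8) 1 with he
  have he0 : 0 < e := by positivity
  have he1 : e ≤ ε ^ 2 / 8 := min_le_left _ _
  have he2 : e ≤ 1 := min_le_right _ _
  refine ((hL' v e he0).and_eventually (part1 e he0)).mono ?_
  rintro k ⟨h1, h2⟩
  have h3 : ‖X k - v‖ ^ 2 < ε ^ 2 := by
    rw [norm_sub_sq_real, real_inner_comm, hv]
    rw [hv] at h1
    have h4 : ‖X k‖ ^ 2 ≤ (1 + e) ^ 2 := pow_le_pow_left₀ (norm_nonneg _) h2 2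
    have h5 : 0 < ε ^ 2 := by positivity
    nlinarith
  exact lt_of_pow_lt_pow_left₀ 2 hε.le h3

end det

variable {Ω : Type} {m0 : MeasurableSpace Ω} {μ : Measure Ω} [IsProbabilityMeasure μ]
  {ℱ : Filtration ℕ m0} {A : ℕ → Set Ω}

/-- the normalised deviation of a signal -/
noncomputable def ND (μ : Measure Ω) (ℱ : Filtration ℕ m0) (A : ℕ → Set Ω) (T H : ℕ → ℕ) (W : ℕ → ℝ) (σ : ℕ → ℕ → ℝ)
    (k : ℕ) (ω : Ω) : ℝ :=
  SW μ ℱ A (σ k) (T k) (H k) ω / MM (W k) (Real.log (T k)) (Real.log k)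

/-- **the joint limit set** -/
theorem ball {ι : Type} [Fintype ι] (hA : ∀ n, MeasurableSet[ℱ n] (A n))
    (hd : ∀ᵐ ω ∂μ, Tendsto (fun n : ℕ => dens μ ℱ A n ω * Real.log n) atTop (𝓝 1))
    {T H : ℕ → ℕ} {σ : ι → ℕ → ℕ → ℝ} {W : ℕ → ℝ} (hσ : ∀ i k t, |σ i k t| ≤ 1)
    (hT : Tendsto T atTop atTop) (hH : ∀ᶠ k in atTop, H k ≤ T k)
    (hW0 : ∀ᶠ k in atTop, 0 < W k)
    (hG : ∀ a : ι → ℝ, Tendsto (fun k => RW (fun t => ∑ i, a i * σ i k t) (H k) 0 / W k) atTop (𝓝 (∑ i, a i ^ 2)))
    (hs : Tendsto (fun k : ℕ => Real.log k * Real.log (T k) / W k) atTop (𝓝 0)) (hTH : ∀ k, T k + H k ≤ T (k + 1)) :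
    ∀ᵐ ω ∂μ, (∀ ε : ℝ, 0 < ε → ∀ᶠ k in atTop, ∑ i, ND μ ℱ A T H W (σ i) k ω ^ 2 ≤ 1 + ε) ∧
      ∀ x : ι → ℝ, ∑ i, x i ^ 2 = 1 → ∀ ε : ℝ, 0 < ε → ∃ᶠ k in atTop, ∀ i, |ND μ ℱ A T H W (σ i) k ω - x i| < ε := by
  have hTl : Tendsto (fun k : ℕ => Real.log (T k)) atTop atTop :=
    Real.tendsto_log_atTop.comp (tendsto_natCast_atTop_atTop.comp hT)
  have main : ∀ a : ι → ℚ, ∀ᵐ ω ∂μ, ∀ ε : ℝ, 0 < ε →
      (∀ᶠ k in atTop, ∑ i, (a i : ℝ) * ND μ ℱ A T H W (σ i) k ω ≤ (1 + ε) * Real.sqrt (∑ i, (a i : ℝ) ^ 2)) ∧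
      (∃ᶠ k in atTop, (1 - ε) * Real.sqrt (∑ i, (a i : ℝ) ^ 2) ≤ ∑ i, (a i : ℝ) * ND μ ℱ A T H W (σ i) k ω) := by
    intro a
    by_cases h0 : ∑ i, (a i : ℝ) ^ 2 = 0
    · have ha : ∀ i, (a i : ℝ) = 0 := by
        intro i
        have h1 := (Finset.sum_eq_zero_iff_of_nonneg (fun i _ => sq_nonneg (a i : ℝ))).1 h0 i (Finset.mem_univ i)
        exact pow_eq_zero_iff two_ne_zero |>.1 h1
      refine Eventually.of_forall fun ω ε hε => ?_
      have e1 : ∀ k, ∑ i, (a i : ℝ) * ND μ ℱ A T H W (σ i) k ω = 0 := fun k =>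
        Finset.sum_eq_zero fun i _ => by rw [ha i, zero_mul]
      simp only [e1, h0, Real.sqrt_zero, mul_zero, le_refl]
      exact ⟨Eventually.of_forall fun _ => trivial, (Eventually.of_forall fun _ => trivial).frequently⟩
    · have hpos : 0 < ∑ i, (a i : ℝ) ^ 2 := lt_of_le_of_ne (Finset.sum_nonneg fun _ _ => sq_nonneg _) (Ne.symm h0)
      set S : ℝ := ∑ i, (a i : ℝ) ^ 2 with hS
      set C : ℝ := ∑ i, |(a i : ℝ)| + 1 with hC
      have hC0 : 0 < C := by positivity
      set τ : ℕ → ℕ → ℝ := fun k t => ∑ i, (a i / C) * σ i k t with hτ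
      have hτ1 : ∀ k t, |τ k t| ≤ 1 := by
        intro k t
        have e1 : τ k t = (∑ i, a i * σ i k t) / C := by
          simp only [hτ]
          rw [Finset.sum_div]
          exact Finset.sum_congr rfl fun i _ => by ring
        rw [e1, abs_div, abs_of_pos hC0, div_le_one hC0]
        refine (Finset.abs_sum_le_sum_abs _ _).trans ?_
        have : ∑ i, |(a i : ℝ) * σ i k t| ≤ ∑ i, |(a i : ℝ)| := Finset.sum_le_sum fun i _ => by
          rw [abs_mul]
          exact mul_le_of_le_one_right (abs_nonneg _) (hσ i k t)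
        linarith
      set V : ℕ → ℝ := fun k => RW (τ k) (H k) 0 with hV
      have hVW : Tendsto (fun k => V k / W k) atTop (𝓝 (S / C ^ 2)) := by
        have h1 := hG (fun i => a i / C)
        have e1 : ∑ i, ((a i : ℝ) / C) ^ 2 = S / C ^ 2 := by
          rw [hS, Finset.sum_div]
          exact Finset.sum_congr rfl fun i _ => by rw [div_pow]
        rw [e1] at h1
        exact h1
      have hSC : 0 < S / C ^ 2 := by positivity
      have hV0 : ∀ᶠ k in atTop, 0 < V k := by
        filter_upwards [hVW.eventually_const_lt hSC, hW0] with k h1 h2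
        by_contra hcon
        push Not at hcon
        have := div_nonpos_of_nonpos_of_nonneg hcon h2.le
        linarith
      have hsV : Tendsto (fun k : ℕ => Real.log k * Real.log (T k) / V k) atTop (𝓝 0) := by
        have h1 := hs.mul (hVW.inv₀ hSC.ne')
        rw [zero_mul] at h1
        refine h1.congr' ?_
        filter_upwards [hV0, hW0] with k h2 h3
        field_simp
      have hrat : Tendsto (fun k => C * (MM (V k) (Real.log (T k)) (Real.log k) / MM (W k) (Real.log (T k)) (Real.log k))) atTop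
          (𝓝 (Real.sqrt S)) := by
        have h1 := (hVW.sqrt).const_mul C
        have e1 : C * Real.sqrt (S / C ^ 2) = Real.sqrt S := by
          rw [Real.sqrt_div hpos.le, Real.sqrt_sq hC0.le]
          field_simp
        rw [e1] at h1
        refine h1.congr' ?_
        filter_upwards [hV0, hW0, hTl.eventually_gt_atTop 0, eventually_ge_atTop 3] with k h2 h3 h4 h5
        have hΛ : 0 < Real.log (k : ℝ) := Real.log_pos (by exact_mod_cast (by omega : 1 < k))
        unfold MM
        rw [← Real.sqrt_div (by positivity)]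
        congr 2
        field_simp
      have hMpos : ∀ᶠ k in atTop, 0 < MM (W k) (Real.log (T k)) (Real.log k) := by
        filter_upwards [hW0, hTl.eventually_gt_atTop 0, eventually_ge_atTop 3] with k h3 h4 h5
        have hΛ : 0 < Real.log (k : ℝ) := Real.log_pos (by exact_mod_cast (by omega : 1 < k))
        exact Real.sqrt_pos.2 (by positivity)
      have hlin : ∀ k ω, ∑ i, (a i : ℝ) * ND μ ℱ A T H W (σ i) k ω =
        C * SW μ ℱ A (τ k) (T k) (H k) ω / MM (W k) (Real.log (T k)) (Real.log k) := by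
        intro k ω
        have e1 : C * SW μ ℱ A (τ k) (T k) (H k) ω = ∑ i, a i * SW μ ℱ A (σ i k) (T k) (H k) ω := by
          unfold SW
          simp only [Finset.mul_sum]
          rw [Finset.sum_comm]
          refine Finset.sum_congr rfl fun t _ => ?_
          simp only [hτ, Finset.sum_mul, Finset.mul_sum]
          refine Finset.sum_congr rfl fun i _ => ?_
          field_simp
        rw [e1, Finset.sum_div]
        refine Finset.sum_congr rfl fun i _ => ?_
        unfold ND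
        ring
      filter_upwards [seq_upper (μ := μ) hA hd hτ1 hT hH hV0 (Eventually.of_forall fun k => le_rfl) hsV,
        seq_lower (μ := μ) hA hd hτ1 hT hH hV0 (Eventually.of_forall fun k => rfl) hsV hTH] with ω h1 h2 ε hε
      have hsq : 0 < Real.sqrt S := Real.sqrt_pos.2 hpos
      have hmin : 0 < min ε 1 := lt_min hε one_pos
      constructor
      · have h3 := h1 (min ε 1 / 4) (by positivity)
        have h4 : ∀ᶠ k in atTop, C * (MM (V k) (Real.log (T k)) (Real.log k) / MM (W k) (Real.log (T k)) (Real.log k)) ≤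
            (1 + min ε 1 / 4) * Real.sqrt S := hrat.eventually_le_const (by nlinarith)
        filter_upwards [h3, h4, hMpos] with k h5 h6 h7
        rw [hlin]
        have h8 := h5 (H k) le_rfl
        have m1 : min ε 1 ≤ ε := min_le_left _ _
        have m2 : min ε 1 ≤ 1 := min_le_right _ _
        calc C * SW μ ℱ A (τ k) (T k) (H k) ω / MM (W k) (Real.log (T k)) (Real.log k)
            ≤ C * ((1 + min ε 1 / 4) * MM (V k) (Real.log (T k)) (Real.log k)) / MM (W k) (Real.log (T k)) (Real.log k) :=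
              div_le_div_of_nonneg_right (mul_le_mul_of_nonneg_left h8 hC0.le) h7.le
          _ = (1 + min ε 1 / 4) * (C * (MM (V k) (Real.log (T k)) (Real.log k) / MM (W k) (Real.log (T k)) (Real.log k))) := by ring
          _ ≤ (1 + min ε 1 / 4) * ((1 + min ε 1 / 4) * Real.sqrt S) := mul_le_mul_of_nonneg_left h6 (by linarith)
          _ ≤ (1 + ε) * Real.sqrt S := by
              rw [← mul_assoc]
              apply mul_le_mul_of_nonneg_right _ hsq.le
              nlinarith
      · have h3 : ∃ᶠ k in atTop, (1 - min ε 1 / 4) * MM (V k) (Real.log (T k)) (Real.log k) ≤ SW μ ℱ A (τ k) (T k) (H k) ω := by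
          rw [frequently_atTop]
          exact fun K => h2 (min ε 1 / 4) (by positivity) K
        have h4 : ∀ᶠ k in atTop, (1 - min ε 1 / 4) * Real.sqrt S ≤
            C * (MM (V k) (Real.log (T k)) (Real.log k) / MM (W k) (Real.log (T k)) (Real.log k)) :=
          hrat.eventually_const_le (by nlinarith)
        refine (h3.and_eventually (h4.and hMpos)).mono ?_
        rintro k ⟨h5, h6, h7⟩
        rw [hlin]
        have m1 : min ε 1 ≤ ε := min_le_left _ _
        have m2 : min ε 1 ≤ 1 := min_le_right _ _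
        calc (1 - ε) * Real.sqrt S ≤ (1 - min ε 1 / 4) * ((1 - min ε 1 / 4) * Real.sqrt S) := by
              rw [← mul_assoc]
              apply mul_le_mul_of_nonneg_right _ hsq.le
              nlinarith
          _ ≤ (1 - min ε 1 / 4) * (C * (MM (V k) (Real.log (T k)) (Real.log k) / MM (W k) (Real.log (T k)) (Real.log k))) :=
              mul_le_mul_of_nonneg_left h6 (by linarith)
          _ = C * ((1 - min ε 1 / 4) * MM (V k) (Real.log (T k)) (Real.log k)) / MM (W k) (Real.log (T k)) (Real.log k) := by ring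
          _ ≤ _ := div_le_div_of_nonneg_right (mul_le_mul_of_nonneg_left h5 hC0.le) h7.le
  filter_upwards [ae_all_iff.2 main] with ω hω
  set X : ℕ → EuclideanSpace ℝ ι := fun k => WithLp.toLp 2 (fun i => ND μ ℱ A T H W (σ i) k ω) with hX
  have hnorm : ∀ a : ι → ℚ, ‖vv a‖ = Real.sqrt (∑ i, (a i : ℝ) ^ 2) := by
    intro a
    rw [← Real.sqrt_sq (norm_nonneg (vv a)), norm_sum]
    rfl
  have hinn : ∀ (a : ι → ℚ) k, inner ℝ (vv a) (X k) = ∑ i, (a i : ℝ) * ND μ ℱ A T H W (σ i) k ω := by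
    intro a k
    rw [inner_sum]
    rfl
  obtain ⟨p1, p2⟩ := ball_det (X := X) (fun a ε hε => by
      simp only [hnorm, hinn]
      exact (hω a ε hε).1) (fun a ε hε => by
      simp only [hnorm, hinn]
      exact (hω a ε hε).2)
  refine ⟨fun ε hε => ?_, fun x hx ε hε => ?_⟩
  · set e : ℝ := min ε 1 / 4 with he
    have he0 : 0 < e := by positivity
    have he1 : e ≤ ε / 4 := by rw [he]; linarith [min_le_left ε 1]
    have he2 : e ≤ 1 / 4 := by rw [he]; linarith [min_le_right ε 1]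
    filter_upwards [p1 e he0] with k hk
    have h1 : ∑ i, ND μ ℱ A T H W (σ i) k ω ^ 2 = ‖X k‖ ^ 2 := by
      rw [norm_sum]
    rw [h1]
    have h2 : ‖X k‖ ^ 2 ≤ (1 + e) ^ 2 := pow_le_pow_left₀ (norm_nonneg _) hk 2
    nlinarith
  · have hv : ‖(WithLp.toLp 2 x : EuclideanSpace ℝ ι)‖ = 1 := by
      have h1 : ‖(WithLp.toLp 2 x : EuclideanSpace ℝ ι)‖ ^ 2 = 1 := by
        rw [norm_sum]
        exact hx
      exact (pow_eq_one_iff_of_nonneg (norm_nonneg _) two_ne_zero).1 h1
    refine (p2 _ hv ε hε).mono ?_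
    intro k hk i
    have h1 : ‖(X k - WithLp.toLp 2 x) i‖ ≤ ‖X k - WithLp.toLp 2 x‖ := PiLp.norm_apply_le _ i
    rw [Real.norm_eq_abs] at h1
    exact lt_of_le_of_lt h1 hk

end Pool.Agent.N740.HK
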