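import Mathlib

/-!
# Integer polynomials at the natural numbers: growth and order
(the lemmas up to `ev_cmp` are those of `Pool/Agent/N9/AD/Poly2.lean`)
-/

set_option autoImplicit false
set_option linter.unusedSectionVars false

open Filter Set Polynomial
open scoped Topology

namespace Pool.Agent.N740.HK.Pl

lemma cP : Countable ℤ[X] := by
  have h := Polynomial.cardinalMk_le_max (R := ℤ)
  rw [← Cardinal.mk_le_aleph0_iff]
  refine h.trans ?_
  simp

/-- leading behaviour -/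
lemma lead (g : ℤ[X]) : ∃ φ : ℕ → ℝ, Tendsto φ atTop (𝓝 1) ∧ ∀ᶠ n : ℕ in atTop,
    ((g.eval (n : ℤ) : ℤ) : ℝ) = φ n * ((g.leadingCoeff : ℝ) * (n : ℝ) ^ g.natDegree) := by
  have hinj : Function.Injective (Int.castRingHom ℝ) := Int.cast_injective
  obtain ⟨φ, hφ, he⟩ := (Polynomial.isEquivalent_atTop_lead (g.map (Int.castRingHom ℝ))).exists_eq_mul
  refine ⟨fun n => φ n, hφ.comp tendsto_natCast_atTop_atTop, ?_⟩
  have h2 := (tendsto_natCast_atTop_atTop (R := ℝ)).eventually he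
  filter_upwards [h2] with n hn
  have e1 : eval (n : ℝ) (g.map (Int.castRingHom ℝ)) = ((g.eval (n : ℤ) : ℤ) : ℝ) := by
    simp
  rw [← e1, hn, Pi.mul_apply, Polynomial.leadingCoeff_map_of_injective hinj,
    Polynomial.natDegree_map_eq_of_injective hinj]
  rfl

lemma ev_pos (g : ℤ[X]) (hg : 0 < g.leadingCoeff) : ∀ᶠ n : ℕ in atTop, 0 < g.eval (n : ℤ) := by
  obtain ⟨φ, hφ, he⟩ := lead g
  filter_upwards [he, hφ.eventually_const_lt (show (0 : ℝ) < 1 by norm_num), eventually_ge_atTop 1] with n h1 h2 h3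
  have h4 : (0 : ℝ) < g.leadingCoeff := by exact_mod_cast hg
  have h5 : (0 : ℝ) < n := by exact_mod_cast h3
  have : (0 : ℝ) < ((g.eval (n : ℤ) : ℤ) : ℝ) := by
    rw [h1]
    positivity
  exact_mod_cast this

lemma ev_inc (g : ℤ[X]) (hg : 0 < g.leadingCoeff) (hd : 0 < g.natDegree) :
    ∃ n₀ : ℕ, ∀ a b : ℕ, n₀ ≤ a → a < b → g.eval (a : ℤ) < g.eval (b : ℤ) := by
  have hinj : Function.Injective (Int.castRingHom ℝ) := Int.cast_injective
  set P := g.map (Int.castRingHom ℝ) with hP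
  have e0 : ∀ n : ℕ, eval (n : ℝ) P = ((g.eval (n : ℤ) : ℤ) : ℝ) := by
    intro n
    rw [hP]
    simp
  have hlc : 0 < P.derivative.leadingCoeff := by
    rw [Polynomial.leadingCoeff_derivative, hP, Polynomial.leadingCoeff_map_of_injective hinj,
      Polynomial.natDegree_map_eq_of_injective hinj]
    have h4 : (0 : ℝ) < g.leadingCoeff := by exact_mod_cast hg
    have h5 : (0 : ℝ) < g.natDegree := by exact_mod_cast hd
    simp only [eq_intCast]
    positivity
  obtain ⟨φ, hφ, he⟩ := (Polynomial.isEquivalent_atTop_lead P.derivative).exists_eq_mul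
  have h1 : ∀ᶠ t : ℝ in atTop, 0 < eval t P.derivative := by
    filter_upwards [he, hφ.eventually_const_lt (show (0 : ℝ) < 1 by norm_num), eventually_gt_atTop (0 : ℝ)] with t h1 h2 h3
    rw [h1, Pi.mul_apply]
    positivity
  obtain ⟨t₀, ht₀⟩ := eventually_atTop.1 h1
  have hmono : StrictMonoOn (fun t => eval t P) (Set.Ici t₀) := by
    apply strictMonoOn_of_deriv_pos (convex_Ici t₀) P.continuousOn
    intro t ht
    rw [interior_Ici] at ht
    rw [Polynomial.deriv]
    exact ht₀ t (le_of_lt ht)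
  refine ⟨⌈t₀⌉₊, fun a b ha hab => ?_⟩
  have ha' : t₀ ≤ (a : ℝ) := (Nat.le_ceil t₀).trans (by exact_mod_cast ha)
  have hb' : t₀ ≤ (b : ℝ) := ha'.trans (by exact_mod_cast hab.le)
  have h2 := hmono ha' hb' (by exact_mod_cast hab)
  simp only [e0] at h2
  exact_mod_cast h2

lemma toNat_cast {g : ℤ[X]} {n : ℕ} (h : 0 < g.eval (n : ℤ)) :
    (((g.eval (n : ℤ)).toNat : ℕ) : ℝ) = ((g.eval (n : ℤ) : ℤ) : ℝ) := by
  have : (((g.eval (n : ℤ)).toNat : ℕ) : ℤ) = g.eval (n : ℤ) := Int.toNat_of_nonneg h.le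
  exact_mod_cast congrArg (Int.cast : ℤ → ℝ) this

lemma ev_log (g : ℤ[X]) (hg : 0 < g.leadingCoeff) : ∀ η : ℝ, 0 < η → ∀ᶠ n : ℕ in atTop,
    |Real.log ((g.eval (n : ℤ)).toNat : ℕ) - (g.natDegree : ℝ) * Real.log n| ≤ η * Real.log n := by
  intro η hη
  obtain ⟨φ, hφ, he⟩ := lead g
  have hlog : Tendsto (fun N : ℕ => Real.log (N : ℝ)) atTop atTop :=
    Real.tendsto_log_atTop.comp tendsto_natCast_atTop_atTop
  have h1 : Tendsto (fun n => Real.log (φ n)) atTop (𝓝 (Real.log 1)) :=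
    (Real.continuousAt_log one_ne_zero).tendsto.comp hφ
  rw [Real.log_one] at h1
  have h2 := h1.abs.eventually_lt_const (show |(0 : ℝ)| < 1 by norm_num)
  filter_upwards [he, h2, hφ.eventually_const_lt (show (0 : ℝ) < 1 by norm_num), eventually_ge_atTop 1,
    ev_pos g hg, hlog.eventually_ge_atTop ((|Real.log g.leadingCoeff| + 1) / η)] with n h1 h2 h3 h4 h5 h6
  have h7 : (0 : ℝ) < g.leadingCoeff := by exact_mod_cast hg
  have h8 : (0 : ℝ) < n := by exact_mod_cast h4
  rw [toNat_cast h5, h1, Real.log_mul h3.ne' (by positivity), Real.log_mul h7.ne' (by positivity),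
    Real.log_pow]
  have e1 : Real.log (φ n) + (Real.log g.leadingCoeff + g.natDegree * Real.log n) -
      g.natDegree * Real.log n = Real.log (φ n) + Real.log g.leadingCoeff := by ring
  rw [e1]
  rw [div_le_iff₀ hη] at h6
  have := abs_add_le (Real.log (φ n)) (Real.log g.leadingCoeff)
  linarith

lemma ev_pow (g : ℤ[X]) (hg : 0 < g.leadingCoeff) (E : ℕ) (hE : g.natDegree < E) :
    ∀ᶠ n : ℕ in atTop, (g.eval (n : ℤ)).toNat ≤ n ^ E := by
  obtain ⟨φ, hφ, he⟩ := lead g
  filter_upwards [he, hφ.eventually_lt_const (show (1 : ℝ) < 2 by norm_num), eventually_ge_atTop 1,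
    ev_pos g hg, tendsto_natCast_atTop_atTop.eventually_ge_atTop (2 * (g.leadingCoeff : ℝ))] with n h1 h2 h3 h4 h5
  have h7 : (0 : ℝ) < g.leadingCoeff := by exact_mod_cast hg
  have h8 : (1 : ℝ) ≤ n := by exact_mod_cast h3
  have h9 : (((g.eval (n : ℤ)).toNat : ℕ) : ℝ) ≤ (n : ℝ) ^ E := by
    rw [toNat_cast h4, h1]
    have e1 : φ n * ((g.leadingCoeff : ℝ) * (n : ℝ) ^ g.natDegree) ≤
        2 * ((g.leadingCoeff : ℝ) * (n : ℝ) ^ g.natDegree) := by gcongr
    have e2 : 2 * ((g.leadingCoeff : ℝ) * (n : ℝ) ^ g.natDegree) ≤ (n : ℝ) ^ (g.natDegree + 1) := by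
      rw [pow_succ]
      nlinarith [pow_pos (show (0 : ℝ) < n by linarith) g.natDegree]
    exact (e1.trans e2).trans (pow_le_pow_right₀ h8 hE)
  exact_mod_cast h9

/-- the sign of a difference -/
lemma ev_cmp (g h : ℤ[X]) (hne : g ≠ h) : (∀ᶠ n : ℕ in atTop, g.eval (n : ℤ) < h.eval (n : ℤ)) ∨
    (∀ᶠ n : ℕ in atTop, h.eval (n : ℤ) < g.eval (n : ℤ)) := by
  have h0 : (h - g).leadingCoeff ≠ 0 := by
    rw [Polynomial.leadingCoeff_ne_zero, sub_ne_zero]
    exact hne.symm
  rcases lt_or_gt_of_ne h0 with h1 | h1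
  · right
    have h2 : 0 < (g - h).leadingCoeff := by
      rw [← neg_sub h g, Polynomial.leadingCoeff_neg]
      omega
    filter_upwards [ev_pos _ h2] with n hn
    rw [Polynomial.eval_sub] at hn
    omega
  · left
    filter_upwards [ev_pos _ h1] with n hn
    rw [Polynomial.eval_sub] at hn
    omega


/-- there is an eventually largest element -/
lemma top_elt (F : Finset ℤ[X]) : F.Nonempty → ∃ g ∈ F, ∀ f ∈ F, f ≠ g →
    ∀ᶠ n : ℕ in atTop, f.eval (n : ℤ) < g.eval (n : ℤ) := by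
  classical
  induction F using Finset.induction_on with
  | empty => exact fun h => absurd h Finset.not_nonempty_empty
  | insert a F ha ih =>
    intro _
    rcases F.eq_empty_or_nonempty with h0 | h0
    · refine ⟨a, Finset.mem_insert_self _ _, fun f hf hne => ?_⟩
      rw [h0] at hf
      simp at hf
      exact absurd hf hne
    · obtain ⟨g, hg, hgt⟩ := ih h0
      have hne : a ≠ g := fun h => ha (h ▸ hg)
      rcases ev_cmp a g hne with h1 | h1
      · refine ⟨g, Finset.mem_insert_of_mem hg, fun f hf hfg => ?_⟩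
        rcases Finset.mem_insert.1 hf with rfl | hf
        · exact h1
        · exact hgt f hf hfg
      · refine ⟨a, Finset.mem_insert_self _ _, fun f hf hfa => ?_⟩
        rcases Finset.mem_insert.1 hf with rfl | hf
        · exact absurd rfl hfa
        · by_cases hfg : f = g
          · rw [hfg]; exact h1
          · filter_upwards [hgt f hf hfg, h1] with n h2 h3
            exact h2.trans h3

/-- the value as a natural number -/
noncomputable def vl (f : ℤ[X]) (n : ℕ) : ℕ := (f.eval (n : ℤ)).toNat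

lemma vl_cast {f : ℤ[X]} {n : ℕ} (h : 0 < f.eval (n : ℤ)) : ((vl f n : ℕ) : ℤ) = f.eval (n : ℤ) :=
  Int.toNat_of_nonneg h.le

/-- admissible polynomials -/
def Ad (f : ℤ[X]) : Prop := 0 < f.natDegree ∧ 0 < f.leadingCoeff

lemma vl_inc {f : ℤ[X]} (hf : Ad f) : ∀ᶠ n₀ : ℕ in atTop, ∀ a b : ℕ, n₀ ≤ a → a < b → vl f a < vl f b := by
  obtain ⟨m, hm⟩ := ev_inc f hf.2 hf.1
  obtain ⟨m', hm'⟩ := eventually_atTop.1 (ev_pos f hf.2)
  filter_upwards [eventually_ge_atTop m, eventually_ge_atTop m'] with n₀ h1 h2 a b h3 h4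
  have h5 := hm a b (h1.trans h3) h4
  have h6 := hm' a (h2.trans h3)
  unfold vl
  omega

lemma vl_lt {f g : ℤ[X]} (hf : 0 < f.leadingCoeff) (h : ∀ᶠ n : ℕ in atTop, f.eval (n : ℤ) < g.eval (n : ℤ)) :
    ∀ᶠ n : ℕ in atTop, vl f n < vl g n := by
  filter_upwards [h, ev_pos f hf] with n h1 h2
  unfold vl
  omega

lemma vl_pos {f : ℤ[X]} (hf : 0 < f.leadingCoeff) : ∀ᶠ n : ℕ in atTop, 1 ≤ vl f n := by
  filter_upwards [ev_pos f hf] with n h2
  unfold vl
  omega

/-- the values are at least `√n` and at most a power -/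
lemma vl_low {f : ℤ[X]} (hf : Ad f) : ∀ᶠ n : ℕ in atTop, n ≤ 2 * vl f n := by
  obtain ⟨m, hm⟩ := (vl_inc hf).exists
  have h1 : ∀ n, m ≤ n → n ≤ vl f n + m := by
    intro n hn
    induction n, hn using Nat.le_induction with
    | base => omega
    | succ n hn ih =>
      have := hm n (n + 1) hn (by omega)
      omega
  filter_upwards [eventually_ge_atTop (2 * m)] with n hn
  have := h1 n (by omega)
  omega

/-- the logarithm of `f(n) - 1` -/
lemma log_vl {f : ℤ[X]} (hf : Ad f) : ∀ η : ℝ, 0 < η → ∀ᶠ n : ℕ in atTop,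
    |Real.log ((vl f n - 1 : ℕ) : ℝ) - (f.natDegree : ℝ) * Real.log n| ≤ η * Real.log n := by
  intro η hη
  have hlog : Tendsto (fun N : ℕ => Real.log (N : ℝ)) atTop atTop :=
    Real.tendsto_log_atTop.comp tendsto_natCast_atTop_atTop
  filter_upwards [ev_log f hf.2 (η / 2) (by positivity), vl_low hf, eventually_ge_atTop 8,
    hlog.eventually_ge_atTop (2 / η * Real.log 2)] with n h1 h2 h3 h4
  have h1 : |Real.log ((vl f n : ℕ) : ℝ) - (f.natDegree : ℝ) * Real.log n| ≤ η / 2 * Real.log n := h1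
  have hv : 4 ≤ vl f n := by omega
  have hv' : (4 : ℝ) ≤ (vl f n : ℝ) := by exact_mod_cast hv
  have e1 : ((vl f n - 1 : ℕ) : ℝ) = (vl f n : ℝ) - 1 := by
    rw [Nat.cast_sub (by omega), Nat.cast_one]
  have h5 : Real.log ((vl f n - 1 : ℕ) : ℝ) ≤ Real.log (vl f n : ℝ) := by
    rw [e1]
    exact Real.log_le_log (by linarith) (by linarith)
  have h6 : Real.log (vl f n : ℝ) - Real.log 2 ≤ Real.log ((vl f n - 1 : ℕ) : ℝ) := by
    rw [← Real.log_div (by linarith) (by norm_num), e1]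
    exact Real.log_le_log (by linarith) (by linarith)
  have h7 : Real.log 2 ≤ η / 2 * Real.log n := by
    have := mul_le_mul_of_nonneg_left h4 (show 0 ≤ η / 2 by positivity)
    calc Real.log 2 = η / 2 * (2 / η * Real.log 2) := by field_simp
      _ ≤ _ := this
  have h8 := abs_le.1 h1
  rw [abs_le]
  constructor <;> linarith [h8.1, h8.2]

end Pool.Agent.N740.HK.Pl
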