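import Mathlib
import Pool.Agent.N740.HK.Gr3
import Pool.Agent.N740.HK.Pl

/-!
# Concentration for systems of polynomials
-/

set_option autoImplicit false
set_option linter.unusedSectionVars false

open MeasureTheory Filter Set Polynomial
open scoped ENNReal Topology

namespace Pool.Agent.N740.HK

open Pool.Agent.R528.RM Pl

variable {Ω : Type} {m0 : MeasurableSpace Ω} {μ : Measure Ω} [IsProbabilityMeasure μ]
  {ℱ : Filtration ℕ m0} {A : ℕ → Set Ω}

/-- swapping the summations -/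
lemma fiber_swap (x H n₀ T : ℕ) (V : ℕ → ℕ) (hV : ∀ n, n₀ ≤ n → 1 ≤ V n) (hT : ∀ n, n₀ ≤ n → n ≤ x + H → V n ≤ T)
    (hx : n₀ ≤ x) (g F : ℕ → ℝ) :
    ∑ t ∈ Finset.range T, (∑ n ∈ Finset.Ioc x (x + H), if n₀ ≤ n ∧ V n = t + 1 then g n else 0) * F t =
      ∑ n ∈ Finset.Ioc x (x + H), g n * F (V n - 1) := by
  simp only [Finset.sum_mul]
  rw [Finset.sum_comm]
  refine Finset.sum_congr rfl fun n hn => ?_
  have hn' := Finset.mem_Ioc.1 hn
  have h0 : n₀ ≤ n := by omega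
  have h1 := hV n h0
  have h2 := hT n h0 hn'.2
  rw [Finset.sum_eq_single (V n - 1)]
  · rw [if_pos ⟨h0, by omega⟩]
  · intro t _ ht
    rw [if_neg, zero_mul]
    rintro ⟨_, h⟩
    omega
  · intro h
    exact absurd (Finset.mem_range.2 (by omega)) h

/-- **concentration for systems** -/
theorem conc_sys (hA : ∀ n, MeasurableSet[ℱ n] (A n)) {ρ : ℕ → ℝ} (hρ0 : ∀ n, 0 ≤ ρ n) (hρ1 : ∃ c, ∀ n, ρ n ≤ c)
    (hd : ∀ᵐ ω ∂μ, ∀ ε : ℝ, 0 < ε → ∀ᶠ n : ℕ in atTop, |dens μ ℱ A n ω - ρ n| ≤ ε * ρ n) (k : ℕ) :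
    ∀ F : Finset ℤ[X], F.card = k → (∀ f ∈ F, Ad f) → ∀ u : ℕ → ℝ, (∀ n, 0 ≤ u n ∧ u n ≤ 1) →
    ∀ᵐ ω ∂μ, ∀ ε : ℝ, 0 < ε → ∃ C : ℝ, 0 ≤ C ∧ ∀ᶠ x : ℕ in atTop, ∀ H : ℕ, H ≤ x ^ 2 →
      |∑ n ∈ Finset.Ioc x (x + H), u n * ∏ f ∈ F, J1 A (vl f n) ω -
        ∑ n ∈ Finset.Ioc x (x + H), u n * ∏ f ∈ F, ρ (vl f n - 1)| ≤
        ε * (∑ n ∈ Finset.Ioc x (x + H), u n * ∏ f ∈ F, ρ (vl f n - 1)) + C * Real.log x := by
  classical
  induction k with
  | zero =>
    intro F hF _ u hu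
    rw [Finset.card_eq_zero] at hF
    subst hF
    refine Eventually.of_forall fun ω ε hε => ⟨0, le_rfl, Eventually.of_forall fun x H _ => ?_⟩
    simp only [Finset.prod_empty, sub_self, abs_zero, zero_mul, add_zero]
    exact mul_nonneg hε.le (Finset.sum_nonneg fun n _ => mul_nonneg (hu n).1 zero_le_one)
  | succ k ih =>
    intro F hF hAd u hu
    have hne : F.Nonempty := Finset.card_pos.1 (by omega)
    obtain ⟨g, hg, hgt⟩ := top_elt F hne
    set F' := F.erase g with hF'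
    have hcard : F'.card = k := by
      rw [hF', Finset.card_erase_of_mem hg, hF]
      omega
    have hAd' : ∀ f ∈ F', Ad f := fun f hf => hAd f (Finset.mem_of_mem_erase hf)
    obtain ⟨c, hc⟩ := hρ1
    set c' : ℝ := max c 1 with hc'
    have hc1 : 1 ≤ c' := le_max_right _ _
    have hc0 : 0 < c' := by linarith
    have hcρ : ∀ n, ρ n ≤ c' := fun n => (hc n).trans (le_max_left _ _)
    -- a common threshold
    have hthr : ∀ᶠ n₀ : ℕ in atTop, (∀ a b : ℕ, n₀ ≤ a → a < b → vl g a < vl g b) ∧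
        (∀ n, n₀ ≤ n → 1 ≤ vl g n) ∧ (∀ n, n₀ ≤ n → ∀ f ∈ F', vl f n < vl g n) := by
      have h1 : ∀ᶠ n : ℕ in atTop, ∀ f ∈ F', vl f n < vl g n := by
        rw [Filter.eventually_all_finset]
        intro f hf
        exact vl_lt (hAd' f hf).2 (hgt f (Finset.mem_of_mem_erase hf) (Finset.ne_of_mem_erase hf))
      filter_upwards [vl_inc (hAd g hg), eventually_forall_ge_atTop.2 (vl_pos (hAd g hg).2), eventually_forall_ge_atTop.2 h1]
        with n₀ h2 h3 h4
      exact ⟨h2, h3, h4⟩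
    obtain ⟨n₀, hinc, hpos, hlt⟩ := hthr.exists
    set w : ℕ → ℕ → Ω → ℝ := fun N t ω => ∑ n ∈ Finset.Ioc (Nat.unpair N).1 ((Nat.unpair N).1 + (Nat.unpair N).2),
      if n₀ ≤ n ∧ vl g n = t + 1 then u n * ∏ f ∈ F', J1 A (vl f n) ω else 0 with hw
    have hP01 : ∀ n ω, 0 ≤ ∏ f ∈ F', J1 A (vl f n) ω ∧ ∏ f ∈ F', J1 A (vl f n) ω ≤ 1 := fun n ω =>
      ⟨Finset.prod_nonneg fun f _ => (J1_01 _ ω).1, Finset.prod_le_one (fun f _ => (J1_01 _ ω).1) fun f _ => (J1_01 _ ω).2⟩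
    have huP : ∀ n ω, 0 ≤ u n * ∏ f ∈ F', J1 A (vl f n) ω ∧ u n * ∏ f ∈ F', J1 A (vl f n) ω ≤ 1 := fun n ω =>
      ⟨mul_nonneg (hu n).1 (hP01 n ω).1, mul_le_one₀ (hu n).2 (hP01 n ω).1 (hP01 n ω).2⟩
    have hwm : ∀ N t, StronglyMeasurable[ℱ t] (w N t) := by
      intro N t
      refine Finset.stronglyMeasurable_fun_sum _ fun n _ => ?_
      by_cases h : n₀ ≤ n ∧ vl g n = t + 1
      · simp only [if_pos h]
        refine StronglyMeasurable.const_mul (Finset.stronglyMeasurable_fun_prod _ fun f hf => ?_) _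
        have h1 := hlt n h.1 f hf
        exact (J1_meas hA (vl f n)).mono (ℱ.mono (by omega))
      · simp only [if_neg h]
        exact stronglyMeasurable_const
    have hw01 : ∀ N t ω, 0 ≤ w N t ω ∧ w N t ω ≤ 1 := by
      intro N t ω
      constructor
      · exact Finset.sum_nonneg fun n _ => by
          split_ifs
          · exact (huP n ω).1
          · exact le_rfl
      · simp only [hw]
        rw [← Finset.sum_filter]
        refine (Finset.sum_le_card_nsmul _ _ 1 fun n _ => (huP n ω).2).trans ?_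
        rw [nsmul_eq_mul, mul_one]
        have : ((Finset.Ioc (Nat.unpair N).1 ((Nat.unpair N).1 + (Nat.unpair N).2)).filter
            (fun n => n₀ ≤ n ∧ vl g n = t + 1)).card ≤ 1 := by
          rw [Finset.card_le_one]
          intro a ha b hb
          have h1 := (Finset.mem_filter.1 ha).2
          have h2 := (Finset.mem_filter.1 hb).2
          rcases Nat.lt_trichotomy a b with h3 | h3 | h3
          · have := hinc a b h1.1 h3
            omega
          · exact h3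
          · have := hinc b a h2.1 h3
            omega
        exact_mod_cast this
    have hconc := conc_rho (μ := μ) hA hρ0 ⟨c, hc⟩ hd w
      (fun N => vl g ((Nat.unpair N).1 + (Nat.unpair N).2)) hwm hw01
    have hih := ih F' hcard hAd' (fun n => u n * (ρ (vl g n - 1) / c')) (fun n => by
      have h1 : 0 ≤ ρ (vl g n - 1) / c' := div_nonneg (hρ0 _) hc0.le
      have h2 : ρ (vl g n - 1) / c' ≤ 1 := (div_le_one hc0).2 (hcρ _)
      exact ⟨mul_nonneg (hu n).1 h1, mul_le_one₀ (hu n).2 h1 h2⟩)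
    filter_upwards [hconc, hih] with ω h1 h2
    intro ε hε
    set ε' : ℝ := min (ε / 3) 1 with hε'
    have he0 : 0 < ε' := lt_min (by positivity) one_pos
    have he1 : ε' ≤ 1 := min_le_right _ _
    have he3 : 3 * ε' ≤ ε := by
      have := min_le_left (ε / 3) 1
      linarith
    obtain ⟨C1, hC1⟩ := h1 ε' he0
    obtain ⟨C2, hC2, hC2'⟩ := h2 ε' he0
    obtain ⟨N₀, hN₀⟩ := eventually_atTop.1 hC1
    refine ⟨6 * |C1| + 2 * (c' * C2), by positivity, ?_⟩
    filter_upwards [hC2', eventually_ge_atTop N₀, eventually_ge_atTop n₀, eventually_ge_atTop 2] with x hx1 hx2 hx3 hx4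
    intro H hH
    have h5 := hN₀ (Nat.pair x H) (hx2.trans (Nat.left_le_pair x H))
    have h6 := hx1 H hH
    simp only [hw, Nat.unpair_pair] at h5
    have hT : ∀ n, n₀ ≤ n → n ≤ x + H → vl g n ≤ vl g (x + H) := by
      intro n hn hn2
      rcases Nat.lt_or_ge n (x + H) with h | h
      · exact (hinc n (x + H) hn h).le
      · have : n = x + H := by omega
        rw [this]
    rw [fiber_swap x H n₀ _ (vl g) hpos hT hx3 _ (fun t => J1 A (t + 1) ω),
      fiber_swap x H n₀ _ (vl g) hpos hT hx3 _ (fun t => ρ t)] at h5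
    have e1 : ∑ n ∈ Finset.Ioc x (x + H), (u n * ∏ f ∈ F', J1 A (vl f n) ω) * J1 A (vl g n - 1 + 1) ω =
        ∑ n ∈ Finset.Ioc x (x + H), u n * ∏ f ∈ F, J1 A (vl f n) ω := by
      refine Finset.sum_congr rfl fun n hn => ?_
      have := hpos n (by have := (Finset.mem_Ioc.1 hn).1; omega)
      rw [Nat.sub_add_cancel this, ← Finset.mul_prod_erase F _ hg]
      ring
    have e2 : ∑ n ∈ Finset.Ioc x (x + H), (u n * ∏ f ∈ F', J1 A (vl f n) ω) * ρ (vl g n - 1) =
        c' * ∑ n ∈ Finset.Ioc x (x + H), (u n * (ρ (vl g n - 1) / c')) * ∏ f ∈ F', J1 A (vl f n) ω := by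
      rw [Finset.mul_sum]
      refine Finset.sum_congr rfl fun n _ => ?_
      field_simp
    have e3 : ∑ n ∈ Finset.Ioc x (x + H), u n * ∏ f ∈ F, ρ (vl f n - 1) =
        c' * ∑ n ∈ Finset.Ioc x (x + H), (u n * (ρ (vl g n - 1) / c')) * ∏ f ∈ F', ρ (vl f n - 1) := by
      rw [Finset.mul_sum]
      refine Finset.sum_congr rfl fun n _ => ?_
      rw [← Finset.mul_prod_erase F _ hg, ← hF']
      field_simp
    rw [e1, e2] at h5
    rw [e3]
    set S1 := ∑ n ∈ Finset.Ioc x (x + H), u n * ∏ f ∈ F, J1 A (vl f n) ω with hS1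
    set S2 := ∑ n ∈ Finset.Ioc x (x + H), (u n * (ρ (vl g n - 1) / c')) * ∏ f ∈ F', J1 A (vl f n) ω with hS2
    set S3 := ∑ n ∈ Finset.Ioc x (x + H), (u n * (ρ (vl g n - 1) / c')) * ∏ f ∈ F', ρ (vl f n - 1) with hS3
    have hS30 : 0 ≤ S3 := Finset.sum_nonneg fun n _ => mul_nonneg (mul_nonneg (hu n).1 (div_nonneg (hρ0 _) hc0.le))
      (Finset.prod_nonneg fun f _ => hρ0 _)
    have hx4' : (2 : ℝ) ≤ x := by exact_mod_cast hx4
    have hLx : 0 < Real.log x := Real.log_pos (by linarith)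
    have hp : ((Nat.pair x H : ℕ) : ℝ) ≤ (x : ℝ) ^ 6 := by
      have h2 := Nat.pair_lt_max_add_one_sq x H
      have h3 : max x H ≤ x ^ 2 := max_le (by nlinarith) hH
      have h4 : (max x H + 1) ^ 2 ≤ (x ^ 2 + 1) ^ 2 := Nat.pow_le_pow_left (by omega) 2
      have h7 : (x ^ 2 + 1) ^ 2 ≤ x ^ 6 := by
        have h8 : x ^ 2 + 1 ≤ x ^ 3 := by
          have : x ^ 3 = x ^ 2 * x := by ring
          nlinarith
        calc (x ^ 2 + 1) ^ 2 ≤ (x ^ 3) ^ 2 := Nat.pow_le_pow_left h8 2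
          _ = x ^ 6 := by ring
      exact_mod_cast (h2.le.trans h4).trans h7
    have hppos : (0 : ℝ) < ((Nat.pair x H : ℕ) : ℝ) := by
      have := Nat.left_le_pair x H
      have : 0 < Nat.pair x H := by omega
      exact_mod_cast this
    have h7 : Real.log ((Nat.pair x H : ℕ) : ℝ) ≤ 6 * Real.log x := by
      have := Real.log_le_log hppos hp
      rwa [Real.log_pow] at this
    have h8 : C1 * Real.log ((Nat.pair x H : ℕ) : ℝ) ≤ 6 * |C1| * Real.log x := by
      have h9 : 0 ≤ Real.log ((Nat.pair x H : ℕ) : ℝ) := Real.log_natCast_nonneg _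
      calc C1 * Real.log ((Nat.pair x H : ℕ) : ℝ) ≤ |C1| * Real.log ((Nat.pair x H : ℕ) : ℝ) :=
            mul_le_mul_of_nonneg_right (le_abs_self C1) h9
        _ ≤ |C1| * (6 * Real.log x) := mul_le_mul_of_nonneg_left h7 (abs_nonneg C1)
        _ = _ := by ring
    -- combining
    have a1 := abs_le.1 h6
    have g1 : c' * (S2 - S3) ≤ c' * (ε' * S3 + C2 * Real.log x) := mul_le_mul_of_nonneg_left a1.2 hc0.le
    have g2 : c' * (-(ε' * S3 + C2 * Real.log x)) ≤ c' * (S2 - S3) := mul_le_mul_of_nonneg_left a1.1 hc0.le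
    have a2 := abs_le.1 (h5.trans (add_le_add le_rfl h8))
    have hCL : 0 ≤ c' * C2 * Real.log x := by positivity
    have hcS : 0 ≤ c' * S3 := mul_nonneg hc0.le hS30
    have g3 : ε' * (c' * S2) ≤ ε' * (c' * S3) + ε' * (ε' * (c' * S3)) + ε' * (c' * C2 * Real.log x) := by
      have : c' * S2 ≤ c' * S3 + ε' * (c' * S3) + c' * C2 * Real.log x := by nlinarith
      have := mul_le_mul_of_nonneg_left this he0.le
      linarith
    have g4 : ε' * (ε' * (c' * S3)) ≤ 1 * (ε' * (c' * S3)) := mul_le_mul_of_nonneg_right he1 (mul_nonneg he0.le hcS)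
    have g5 : ε' * (c' * C2 * Real.log x) ≤ 1 * (c' * C2 * Real.log x) := mul_le_mul_of_nonneg_right he1 hCL
    have g6 : 3 * ε' * (c' * S3) ≤ ε * (c' * S3) := mul_le_mul_of_nonneg_right he3 hcS
    have e4 : (6 * |C1| + 2 * (c' * C2)) * Real.log x = 6 * |C1| * Real.log x + 2 * (c' * C2 * Real.log x) := by ring
    have e5 : c' * (ε' * S3 + C2 * Real.log x) = ε' * (c' * S3) + c' * C2 * Real.log x := by ring
    rw [e5] at g1
    have e6 : c' * (-(ε' * S3 + C2 * Real.log x)) = -(ε' * (c' * S3) + c' * C2 * Real.log x) := by ring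
    rw [e6] at g2
    rw [mul_sub] at g1 g2
    rw [e4, abs_le]
    constructor <;> linarith [a2.1, a2.2]

end Pool.Agent.N740.HK
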