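import Mathlib
import Pool.Agent.N740.HK.Bh1

/-!
# The sieve count for systems of polynomials, and the size of `∏ (1 - 1/p)` over a short range
-/

set_option autoImplicit false
set_option linter.unusedSectionVars false

open Filter Set Polynomial
open scoped Topology

namespace Pool.Agent.N740.HK

open Pl

open Classical in
/-- the number of residue classes mod `p` in which some member of the system is divisible by `p` -/
noncomputable def om (F : Finset ℤ[X]) (p : ℕ) : ℕ :=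
  ((Finset.range p).filter (fun a : ℕ => ∃ f ∈ F, (p : ℤ) ∣ f.eval (a : ℤ))).card

open Classical in
lemma root_one {f : ℤ[X]} (hlc : 0 < f.leadingCoeff) {p : ℕ} (hp : p.Prime) :
    ((Finset.range p).filter (fun a : ℕ => (p : ℤ) ∣ f.eval (a : ℤ))).card ≤ f.natDegree + f.leadingCoeff.natAbs := by
  rcases le_or_gt p f.leadingCoeff.natAbs with h | h
  · have h1 := Finset.card_filter_le (Finset.range p) (fun a : ℕ => (p : ℤ) ∣ f.eval (a : ℤ))
    rw [Finset.card_range] at h1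
    omega
  · have : Fact p.Prime := ⟨hp⟩
    set g : (ZMod p)[X] := f.map (Int.castRingHom (ZMod p)) with hg
    have hlc' : ((f.leadingCoeff : ℤ) : ZMod p) ≠ 0 := by
      rw [Ne, ZMod.intCast_zmod_eq_zero_iff_dvd]
      intro hd
      have := Int.le_of_dvd hlc hd
      omega
    have hg0 : g ≠ 0 := by
      intro h0
      have h1 : g.coeff f.natDegree = 0 := by rw [h0]; simp
      rw [hg, Polynomial.coeff_map, Polynomial.coeff_natDegree] at h1
      exact hlc' (by simpa using h1)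
    have hsub : ((Finset.range p).filter (fun a : ℕ => (p : ℤ) ∣ f.eval (a : ℤ))).image (fun a : ℕ => (a : ZMod p)) ⊆
        g.roots.toFinset := by
      intro y hy
      obtain ⟨a, ha, rfl⟩ := Finset.mem_image.1 hy
      rw [Multiset.mem_toFinset, Polynomial.mem_roots hg0, Polynomial.IsRoot.def, hg, Polynomial.eval_map]
      have h2 := (Finset.mem_filter.1 ha).2
      rw [← ZMod.intCast_zmod_eq_zero_iff_dvd] at h2
      have h3 := Polynomial.eval₂_hom (p := f) (Int.castRingHom (ZMod p)) (a : ℤ)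
      simp only [eq_intCast, Int.cast_natCast] at h3
      rw [h3]
      exact h2
    have hinj : Set.InjOn (fun a : ℕ => (a : ZMod p))
        ((Finset.range p).filter (fun a : ℕ => (p : ℤ) ∣ f.eval (a : ℤ)) : Finset ℕ) := by
      intro a ha b hb hab
      have ha' := Finset.mem_range.1 (Finset.mem_filter.1 (Finset.mem_coe.1 ha)).1
      have hb' := Finset.mem_range.1 (Finset.mem_filter.1 (Finset.mem_coe.1 hb)).1
      have h4 := (ZMod.natCast_eq_natCast_iff' a b p).1 hab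
      rwa [Nat.mod_eq_of_lt ha', Nat.mod_eq_of_lt hb'] at h4
    calc ((Finset.range p).filter (fun a : ℕ => (p : ℤ) ∣ f.eval (a : ℤ))).card
        = (((Finset.range p).filter (fun a : ℕ => (p : ℤ) ∣ f.eval (a : ℤ))).image (fun a : ℕ => (a : ZMod p))).card :=
          (Finset.card_image_of_injOn hinj).symm
      _ ≤ g.roots.toFinset.card := Finset.card_le_card hsub
      _ ≤ Multiset.card g.roots := Multiset.toFinset_card_le _
      _ ≤ g.natDegree := Polynomial.card_roots' g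
      _ ≤ f.natDegree := Polynomial.natDegree_map_le
      _ ≤ _ := Nat.le_add_right _ _

lemma om_le {F : Finset ℤ[X]} (hF : ∀ f ∈ F, Ad f) : ∃ κ : ℕ, ∀ p : ℕ, p.Prime → om F p ≤ κ := by
  classical
  refine ⟨∑ f ∈ F, (f.natDegree + f.leadingCoeff.natAbs), fun p hp => ?_⟩
  unfold om
  have e1 : (Finset.range p).filter (fun a : ℕ => ∃ f ∈ F, (p : ℤ) ∣ f.eval (a : ℤ)) =
      F.biUnion (fun f => (Finset.range p).filter (fun a : ℕ => (p : ℤ) ∣ f.eval (a : ℤ))) := by
    ext a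
    simp only [Finset.mem_filter, Finset.mem_biUnion, Finset.mem_range]
    constructor
    · rintro ⟨h1, f, hf, h2⟩
      exact ⟨f, hf, h1, h2⟩
    · rintro ⟨f, hf, h1, h2⟩
      exact ⟨h1, f, hf, h2⟩
  rw [e1]
  refine Finset.card_biUnion_le.trans (Finset.sum_le_sum fun f hf => ?_)
  exact root_one (hF f hf).2 hp

/-- `∏ (1 - ω(p)/p)` over the primes `p ≤ v` -/
noncomputable def VF (F : Finset ℤ[X]) (v : ℕ) : ℝ := ∏ p ∈ (Finset.Icc 1 v).filter Nat.Prime, (1 - (om F p : ℝ) / p)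

lemma om_le_p (F : Finset ℤ[X]) (p : ℕ) : om F p ≤ p := by
  classical
  unfold om
  exact (Finset.card_filter_le _ _).trans (Finset.card_range p).le

lemma VF_nonneg (F : Finset ℤ[X]) (v : ℕ) : 0 ≤ VF F v := by
  unfold VF
  refine Finset.prod_nonneg fun p hp => ?_
  have hp0 : (0 : ℝ) < p := by exact_mod_cast (Finset.mem_filter.1 hp).2.pos
  rw [sub_nonneg, div_le_one hp0]
  exact_mod_cast om_le_p F p

/-- all values are free of primes up to `v` -/
def SF (F : Finset ℤ[X]) (v n : ℕ) : Prop := ∀ p : ℕ, p.Prime → p ≤ v → ∀ f ∈ F, ¬ (p : ℤ) ∣ f.eval (n : ℤ)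

lemma dvd_mod (f : ℤ[X]) (p n : ℕ) : (p : ℤ) ∣ f.eval ((n % p : ℕ) : ℤ) ↔ (p : ℤ) ∣ f.eval (n : ℤ) := by
  obtain ⟨q, hq⟩ := Polynomial.sub_dvd_eval_sub ((n : ℕ) : ℤ) ((n % p : ℕ) : ℤ) f
  have h1 : (p : ℤ) ∣ (n : ℤ) - ((n % p : ℕ) : ℤ) := by
    refine ⟨((n / p : ℕ) : ℤ), ?_⟩
    have := Nat.div_add_mod n p
    have h2 : (p : ℤ) * ((n / p : ℕ) : ℤ) + ((n % p : ℕ) : ℤ) = n := by exact_mod_cast this
    linarith
  have h2 : (p : ℤ) ∣ f.eval (n : ℤ) - f.eval ((n % p : ℕ) : ℤ) := by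
    rw [hq]
    exact Dvd.dvd.mul_right h1 q
  constructor
  · intro h
    have := dvd_add h2 h
    simpa using this
  · intro h
    have := dvd_sub h h2
    simpa using this

open Classical in
/-- the fundamental lemma for systems of polynomials in an interval -/
theorem sieve_sys {F : Finset ℤ[X]} (hF : ∀ f ∈ F, Ad f) : ∃ C0 K0 : ℕ, ∀ b : ℕ, C0 ≤ b → ∀ v : ℕ, 2 ≤ v → ∀ y h : ℕ,
    |(((Finset.Ioc y (y + h)).filter (fun m => SF F v m)).card : ℝ) - h * VF F v| ≤
      (1 / 2 : ℝ) ^ b * (h * VF F v) + ((v : ℝ) + 3) * K0 * (v : ℝ) ^ (4 * (C0 * b)) := by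
  obtain ⟨κ, hκ⟩ := om_le hF
  obtain ⟨C0, K0, hC, hK, hFL⟩ := Pool.Agent.N740.PA.fl_w κ
  refine ⟨C0, K0, fun b hb v hv y h => ?_⟩
  obtain ⟨R, hR⟩ : ∃ R : ℕ → ℕ → Prop, ∀ p a, R p a ↔ ∃ f ∈ F, (p : ℤ) ∣ f.eval (a : ℤ) :=
    ⟨fun p a => ∃ f ∈ F, (p : ℤ) ∣ f.eval (a : ℤ), fun _ _ => Iff.rfl⟩
  set P : Finset ℕ := (Finset.Icc 1 v).filter Nat.Prime with hP
  have hcard : ∀ p, ((Finset.range p).filter (fun a => R p a)).card = om F p := by
    intro p
    unfold om
    congr 1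
    apply Finset.filter_congr
    intro a _
    exact hR p a
  have h1 := hFL b hb v hv (Finset.Ioc y (y + h)) (fun _ => 1) h 1 P R (fun _ _ => zero_le_one)
    (Nat.cast_nonneg _) zero_le_one (fun p hp => ⟨(Finset.mem_filter.1 hp).2, (Finset.mem_Icc.1 (Finset.mem_filter.1 hp).1).2,
      (hcard p).le.trans (hκ p (Finset.mem_filter.1 hp).2)⟩) (fun d hd _ r => modEq_count y h d r hd)
  have e1 : ∏ p ∈ P, (1 - (((Finset.range p).filter (fun a => R p a)).card : ℝ) / p) = VF F v := by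
    unfold VF
    refine Finset.prod_congr rfl fun p hp => ?_
    rw [hcard p]
  have e2 : (Finset.Ioc y (y + h)).filter (fun n => ∀ p ∈ P, ¬ R p (n % p)) = (Finset.Ioc y (y + h)).filter (fun m => SF F v m) := by
    apply Finset.filter_congr
    intro m _
    constructor
    · intro h2 p hp hpv f hf hdvd
      exact h2 p (Finset.mem_filter.2 ⟨Finset.mem_Icc.2 ⟨hp.pos, hpv⟩, hp⟩) ((hR _ _).2 ⟨f, hf, (dvd_mod f p m).2 hdvd⟩)
    · intro h2 p hp h3
      obtain ⟨h4, h5⟩ := Finset.mem_filter.1 hp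
      obtain ⟨f, hf, h6⟩ := (hR _ _).1 h3
      exact h2 p h5 (Finset.mem_Icc.1 h4).2 f hf ((dvd_mod f p m).1 h6)
  rw [e1, e2] at h1
  have e3 : ∑ m ∈ (Finset.Ioc y (y + h)).filter (fun m => SF F v m), (1 : ℝ) =
      (((Finset.Ioc y (y + h)).filter (fun m => SF F v m)).card : ℝ) := by
    simp
  rw [e3] at h1
  refine h1.trans (add_le_add le_rfl ?_)
  have h3 : (Pool.Agent.W41.JJ v : ℝ) + 2 ≤ (v : ℝ) + 3 := by
    have : Pool.Agent.W41.JJ v ≤ v + 1 := by
      unfold Pool.Agent.W41.JJ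
      have a1 : Nat.log 2 (Nat.log 2 v) ≤ Nat.log 2 v := Nat.log_le_self _ _
      have a2 : Nat.log 2 v ≤ v := Nat.log_le_self _ _
      omega
    have : (Pool.Agent.W41.JJ v : ℝ) ≤ (v : ℝ) + 1 := by exact_mod_cast this
    linarith
  have e4 : (v : ℝ) ^ (2 * (C0 * b)) * (K0 * (v : ℝ) ^ (2 * (C0 * b)) * 1) = K0 * (v : ℝ) ^ (4 * (C0 * b)) := by
    rw [show 4 * (C0 * b) = 2 * (C0 * b) + 2 * (C0 * b) by ring, pow_add]
    ring
  rw [e4]
  have : 0 ≤ (K0 : ℝ) * (v : ℝ) ^ (4 * (C0 * b)) := by positivity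
  calc ((Pool.Agent.W41.JJ v : ℝ) + 2) * (K0 * (v : ℝ) ^ (4 * (C0 * b))) ≤ ((v : ℝ) + 3) * (K0 * (v : ℝ) ^ (4 * (C0 * b))) :=
        mul_le_mul_of_nonneg_right h3 this
    _ = _ := by ring

lemma GG_split {v w : ℕ} (hvw : v ≤ w) : GG w = GG v * ∏ p ∈ (Finset.Ioc v w).filter Nat.Prime, (1 - 1 / (p : ℝ)) := by
  unfold GG
  rw [← Finset.prod_union]
  · congr 1
    ext p
    simp only [Finset.mem_filter, Finset.mem_union, Finset.mem_Icc, Finset.mem_Ioc]
    constructor
    · rintro ⟨⟨h1, h2⟩, h3⟩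
      rcases le_or_gt p v with h4 | h4
      · exact Or.inl ⟨⟨h1, h4⟩, h3⟩
      · exact Or.inr ⟨⟨h4, h2⟩, h3⟩
    · rintro (⟨⟨h1, h2⟩, h3⟩ | ⟨⟨h1, h2⟩, h3⟩)
      · exact ⟨⟨h1, h2.trans hvw⟩, h3⟩
      · exact ⟨⟨by omega, h2⟩, h3⟩
  · rw [Finset.disjoint_left]
    intro p h1 h2
    have := (Finset.mem_Icc.1 (Finset.mem_filter.1 h1).1).2
    have := (Finset.mem_Ioc.1 (Finset.mem_filter.1 h2).1).1
    omega

lemma GG_anti {v w : ℕ} (h : v ≤ w) : GG w ≤ GG v := by
  rw [GG_split h]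
  refine mul_le_of_le_one_right (GG_pos v).le (Finset.prod_le_one (fun p hp => (fac_pos (Finset.mem_filter.1 hp).2).le)
    fun p _ => ?_)
  have : 0 ≤ 1 / (p : ℝ) := by positivity
  linarith

lemma one_sub_sum_le (Q : Finset ℕ) (g : ℕ → ℝ) : (∀ p ∈ Q, 0 ≤ g p ∧ g p ≤ 1) → 1 - ∑ p ∈ Q, g p ≤ ∏ p ∈ Q, (1 - g p) := by
  classical
  induction Q using Finset.induction_on with
  | empty => intro _; simp
  | insert a Q ha ih =>
    intro h
    rw [Finset.sum_insert ha, Finset.prod_insert ha]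
    have h1 := ih fun p hp => h p (Finset.mem_insert_of_mem hp)
    have h2 := h a (Finset.mem_insert_self _ _)
    have h3 : ∏ p ∈ Q, (1 - g p) ≤ 1 := Finset.prod_le_one (fun p hp => by
      have := (h p (Finset.mem_insert_of_mem hp)).2
      linarith) fun p hp => by
      have := (h p (Finset.mem_insert_of_mem hp)).1
      linarith
    nlinarith [h2.1, h2.2]

/-- `∏ (1 - 1/p)` is almost constant between `v` and `B v` -/
lemma GG_reg (B : ℕ) : ∀ θ : ℝ, 0 < θ → ∀ᶠ v : ℕ in atTop, ∀ w : ℕ, v ≤ w → w ≤ B * v → (1 - θ) * GG v ≤ GG w := by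
  intro θ hθ
  filter_upwards [tendsto_logN.eventually_ge_atTop (B * Real.log 4 / θ), eventually_ge_atTop 2] with v hv hv2 w hvw hwB
  have hv2' : (2 : ℝ) ≤ v := by exact_mod_cast hv2
  have hL : 0 < Real.log v := Real.log_pos (by linarith)
  set Q : Finset ℕ := (Finset.Ioc v w).filter Nat.Prime with hQ
  have hsplit : GG w = GG v * ∏ p ∈ Q, (1 - 1 / (p : ℝ)) := GG_split hvw
  -- the number of primes
  have hprod : (v : ℝ) ^ Q.card ≤ (4 : ℝ) ^ w := by
    have h1 : v ^ Q.card ≤ ∏ p ∈ Q, p := by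
      rw [← Finset.prod_const]
      refine Finset.prod_le_prod' fun p hp => ?_
      exact (Finset.mem_Ioc.1 (Finset.mem_filter.1 hp).1).1.le
    have h2 : ∏ p ∈ Q, p ≤ primorial w := by
      unfold primorial
      refine Finset.prod_le_prod_of_subset_of_one_le' ?_ fun p hp _ => ?_
      · intro p hp
        obtain ⟨h3, h4⟩ := Finset.mem_filter.1 hp
        exact Finset.mem_filter.2 ⟨Finset.mem_range.2 (by have := (Finset.mem_Ioc.1 h3).2; omega), h4⟩
      · exact (Finset.mem_filter.1 hp).2.pos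
    exact_mod_cast (h1.trans h2).trans (primorial_le_four_pow w)
  have hcard : (Q.card : ℝ) * Real.log v ≤ w * Real.log 4 := by
    have := Real.log_le_log (by positivity) hprod
    rwa [Real.log_pow, Real.log_pow] at this
  have hw : (w : ℝ) ≤ B * v := by exact_mod_cast hwB
  have hlog4 : 0 < Real.log 4 := Real.log_pos (by norm_num)
  have hQv : (Q.card : ℝ) / v ≤ θ := by
    rw [div_le_iff₀ (by linarith)]
    have h1 : B * Real.log 4 ≤ θ * Real.log v := by
      rw [div_le_iff₀ hθ] at hv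
      linarith
    have h2 : (Q.card : ℝ) * Real.log v ≤ (θ * v) * Real.log v := by
      calc (Q.card : ℝ) * Real.log v ≤ w * Real.log 4 := hcard
        _ ≤ (B * v) * Real.log 4 := mul_le_mul_of_nonneg_right hw hlog4.le
        _ = v * (B * Real.log 4) := by ring
        _ ≤ v * (θ * Real.log v) := mul_le_mul_of_nonneg_left h1 (by linarith)
        _ = _ := by ring
    exact le_of_mul_le_mul_right h2 hL
  have hlow : 1 - ∑ p ∈ Q, 1 / (p : ℝ) ≤ ∏ p ∈ Q, (1 - 1 / (p : ℝ)) := by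
    refine one_sub_sum_le Q (fun p => 1 / (p : ℝ)) fun p hp => ⟨by positivity, ?_⟩
    have hp1 : (1 : ℝ) ≤ p := by exact_mod_cast (Finset.mem_filter.1 hp).2.pos
    rw [div_le_one (by linarith)]
    exact hp1
  have hsum : ∑ p ∈ Q, 1 / (p : ℝ) ≤ Q.card / v := by
    calc ∑ p ∈ Q, 1 / (p : ℝ) ≤ ∑ p ∈ Q, 1 / (v : ℝ) := by
          refine Finset.sum_le_sum fun p hp => ?_
          have h3 : (v : ℝ) ≤ p := by exact_mod_cast (Finset.mem_Ioc.1 (Finset.mem_filter.1 hp).1).1.le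
          exact one_div_le_one_div_of_le (by linarith) h3
      _ = Q.card / v := by
          rw [Finset.sum_const, nsmul_eq_mul]
          ring
  rw [hsplit, mul_comm]
  exact mul_le_mul_of_nonneg_left (by linarith) (GG_pos v).le

end Pool.Agent.N740.HK
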