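import Mathlib
import Pool.Agent.N740.HK.Bh2

/-!
# The expected number of prime values in short intervals: the deterministic part
-/

set_option autoImplicit false
set_option linter.unusedSectionVars false

open Filter Set Polynomial
open scoped Topology

namespace Pool.Agent.N740.HK

open Pl

lemma one_DF (v m : ℕ) : 1 + DF v m = by
    classical
    exact if Free v m then (GG v)⁻¹ else 0 := by
  unfold DF
  split_ifs <;> ring

lemma pt_bd {F : Finset ℤ[X]} {z : ℕ → ℕ} {n v w : ℕ} (hpos : ∀ f ∈ F, 0 < f.eval (n : ℤ))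
    (hlev : ∀ f ∈ F, v ≤ z (vl f n) ∧ z (vl f n) ≤ w) :
    (SF F w n → ((GG v)⁻¹) ^ F.card ≤ ∏ f ∈ F, (1 + DF (z (vl f n)) (vl f n))) ∧
    (SF F v n → ∏ f ∈ F, (1 + DF (z (vl f n)) (vl f n)) ≤ ((GG w)⁻¹) ^ F.card) ∧
    (¬ SF F v n → ∏ f ∈ F, (1 + DF (z (vl f n)) (vl f n)) = 0) := by
  classical
  have hdvd : ∀ f ∈ F, ∀ p : ℕ, p ∣ vl f n ↔ (p : ℤ) ∣ f.eval (n : ℤ) := by
    intro f hf p
    rw [← vl_cast (hpos f hf)]
    exact Int.natCast_dvd_natCast.symm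
  refine ⟨fun h => ?_, fun h => ?_, fun h => ?_⟩
  · rw [← Finset.prod_const]
    refine Finset.prod_le_prod (fun f _ => (inv_pos.2 (GG_pos v)).le) fun f hf => ?_
    have hfree : Free (z (vl f n)) (vl f n) := by
      intro p hp hpz hd
      exact h p hp (hpz.trans (hlev f hf).2) f hf ((hdvd f hf p).1 hd)
    have e1 := one_DF (z (vl f n)) (vl f n)
    rw [e1, if_pos hfree]
    exact inv_anti₀ (GG_pos _) (GG_anti (hlev f hf).1)
  · rw [← Finset.prod_const]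
    refine Finset.prod_le_prod (fun f _ => one_add_DF_nonneg _ _) fun f hf => ?_
    rw [one_DF]
    split_ifs
    · exact inv_anti₀ (GG_pos _) (GG_anti (hlev f hf).2)
    · exact (inv_pos.2 (GG_pos w)).le
  · unfold SF at h
    push Not at h
    obtain ⟨p, hp, hpv, f, hf, hd⟩ := h
    refine Finset.prod_eq_zero hf ?_
    rw [one_DF, if_neg]
    intro hfree
    exact hfree p hp (hpv.trans (hlev f hf).1) ((hdvd f hf p).2 hd)

lemma log_bd {F : Finset ℤ[X]} (hF : ∀ f ∈ F, Ad f) : ∀ θ : ℝ, 0 < θ → ∃ δ : ℝ, 0 < δ ∧ ∀ᶠ x : ℕ in atTop, ∀ n : ℕ, x < n →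
    (n : ℝ) ≤ x + (x : ℝ) ^ (1 + δ) →
    (1 - θ) * ((∏ f ∈ F, (f.natDegree : ℝ)) * Real.log x ^ F.card) ≤ ∏ f ∈ F, Real.log ((vl f n - 1 : ℕ) : ℝ) ∧
    ∏ f ∈ F, Real.log ((vl f n - 1 : ℕ) : ℝ) ≤ (1 + θ) * ((∏ f ∈ F, (f.natDegree : ℝ)) * Real.log x ^ F.card) := by
  intro θ hθ
  set k := F.card with hk
  obtain ⟨η, hη0, hη1, hη2, hη3⟩ : ∃ η : ℝ, 0 < η ∧ η < 1 / 8 ∧ 1 - θ < (1 - 4 * η) ^ k ∧ (1 + 4 * η) ^ k < 1 + θ := by
    have c1 : Tendsto (fun η : ℝ => (1 - 4 * η) ^ k) (𝓝 0) (𝓝 1) := by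
      have : Continuous (fun η : ℝ => (1 - 4 * η) ^ k) := by fun_prop
      simpa using this.tendsto 0
    have c2 : Tendsto (fun η : ℝ => (1 + 4 * η) ^ k) (𝓝 0) (𝓝 1) := by
      have : Continuous (fun η : ℝ => (1 + 4 * η) ^ k) := by fun_prop
      simpa using this.tendsto 0
    have h1 := c1.eventually_const_lt (show 1 - θ < 1 by linarith)
    have h2 := c2.eventually_lt_const (show 1 < 1 + θ by linarith)
    have h3 : ∀ᶠ η : ℝ in 𝓝 0, η < 1 / 8 := eventually_lt_nhds (by norm_num)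
    have h4 : ∀ᶠ η : ℝ in 𝓝[>] 0, 0 < η := self_mem_nhdsWithin
    obtain ⟨η, ⟨⟨h5, h6⟩, h7⟩, h8⟩ := (((h1.and h2).and h3).filter_mono nhdsWithin_le_nhds |>.and h4).exists
    exact ⟨η, h8, h7, h5, h6⟩
  refine ⟨η, hη0, ?_⟩
  have hall : ∀ᶠ n : ℕ in atTop, ∀ f ∈ F, |Real.log ((vl f n - 1 : ℕ) : ℝ) - (f.natDegree : ℝ) * Real.log n| ≤ η * Real.log n := by
    rw [Filter.eventually_all_finset]
    exact fun f hf => log_vl (hF f hf) η hη0
  filter_upwards [eventually_forall_ge_atTop.2 hall, tendsto_logN.eventually_ge_atTop (Real.log 2 / η), eventually_ge_atTop 2]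
    with x h1 h2 h3 n hn hnx
  have hx2 : (2 : ℝ) ≤ x := by exact_mod_cast h3
  have hxn : (x : ℝ) ≤ n := by exact_mod_cast hn.le
  have hL : 0 < Real.log x := Real.log_pos (by linarith)
  have hLn : Real.log x ≤ Real.log n := Real.log_le_log (by linarith) hxn
  have hlog2 : Real.log 2 ≤ η * Real.log x := by
    rw [div_le_iff₀ hη0] at h2
    linarith
  have hpow : (x : ℝ) ≤ (x : ℝ) ^ (1 + η) := by
    have := Real.rpow_le_rpow_of_exponent_le (show (1 : ℝ) ≤ x by linarith) (show (1 : ℝ) ≤ 1 + η by linarith)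
    rwa [Real.rpow_one] at this
  have hLn2 : Real.log n ≤ (1 + 2 * η) * Real.log x := by
    have h4 : (n : ℝ) ≤ 2 * (x : ℝ) ^ (1 + η) := by linarith
    have h5 := Real.log_le_log (by linarith) h4
    rw [Real.log_mul (by norm_num) (by positivity), Real.log_rpow (by linarith)] at h5
    linarith
  have hfac : ∀ f ∈ F, (1 - 4 * η) * ((f.natDegree : ℝ) * Real.log x) ≤ Real.log ((vl f n - 1 : ℕ) : ℝ) ∧
      Real.log ((vl f n - 1 : ℕ) : ℝ) ≤ (1 + 4 * η) * ((f.natDegree : ℝ) * Real.log x) := by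
    intro f hf
    have h4 := abs_le.1 (h1 n hn.le f hf)
    have hd : (1 : ℝ) ≤ f.natDegree := by exact_mod_cast (hF f hf).1
    set d := (f.natDegree : ℝ)
    set L := Real.log x
    set Ln := Real.log n
    have hdL : 0 < d * L := by positivity
    have g1 : η * L ≤ η * (d * L) := by
      have : L ≤ d * L := le_mul_of_one_le_left hL.le hd
      exact mul_le_mul_of_nonneg_left this hη0.le
    have g2 : d * Ln ≤ d * ((1 + 2 * η) * L) := mul_le_mul_of_nonneg_left hLn2 (by linarith)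
    have g3 : η * Ln ≤ η * ((1 + 2 * η) * L) := mul_le_mul_of_nonneg_left hLn2 hη0.le
    have g4 : η * ((1 + 2 * η) * L) ≤ (1 + 2 * η) * (η * (d * L)) := by nlinarith
    constructor
    · have g5 : (d - η) * L ≤ (d - η) * Ln := mul_le_mul_of_nonneg_left hLn (by linarith)
      nlinarith
    · have g6 : (1 + 2 * η) * (η * (d * L)) ≤ (1 + 1 / 4) * (η * (d * L)) :=
        mul_le_mul_of_nonneg_right (by linarith) (mul_nonneg hη0.le hdL.le)
      nlinarith
  have hD : ∀ c : ℝ, ∏ f ∈ F, (c * ((f.natDegree : ℝ) * Real.log x)) =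
      c ^ k * ((∏ f ∈ F, (f.natDegree : ℝ)) * Real.log x ^ k) := by
    intro c
    rw [Finset.prod_mul_distrib, Finset.prod_mul_distrib, Finset.prod_const, Finset.prod_const]
  have hP : 0 ≤ (∏ f ∈ F, (f.natDegree : ℝ)) * Real.log x ^ k :=
    mul_nonneg (Finset.prod_nonneg fun f _ => Nat.cast_nonneg _) (by positivity)
  constructor
  · calc (1 - θ) * ((∏ f ∈ F, (f.natDegree : ℝ)) * Real.log x ^ k) ≤ (1 - 4 * η) ^ k * ((∏ f ∈ F, (f.natDegree : ℝ)) * Real.log x ^ k) :=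
          mul_le_mul_of_nonneg_right hη2.le hP
      _ = ∏ f ∈ F, ((1 - 4 * η) * ((f.natDegree : ℝ) * Real.log x)) := (hD _).symm
      _ ≤ _ := Finset.prod_le_prod (fun f _ => mul_nonneg (by linarith) (by positivity)) fun f hf => (hfac f hf).1
  · calc ∏ f ∈ F, Real.log ((vl f n - 1 : ℕ) : ℝ) ≤ ∏ f ∈ F, ((1 + 4 * η) * ((f.natDegree : ℝ) * Real.log x)) :=
          Finset.prod_le_prod (fun f _ => Real.log_natCast_nonneg _) fun f hf => (hfac f hf).2
      _ = (1 + 4 * η) ^ k * ((∏ f ∈ F, (f.natDegree : ℝ)) * Real.log x ^ k) := hD _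
      _ ≤ _ := mul_le_mul_of_nonneg_right hη3.le hP

lemma sqrt_tendsto : Tendsto Nat.sqrt atTop atTop := by
  refine tendsto_atTop.2 fun b => ?_
  filter_upwards [eventually_ge_atTop (b * b)] with n hn
  exact Nat.le_sqrt.2 hn

/-- the regularity between `√x` and a power of `x` -/
lemma lev_reg {z : ℕ → ℕ} (hz : Monotone z) (hreg : ∀ m : ℕ, ∃ B : ℕ, ∀ᶠ n : ℕ in atTop, z (n ^ m) ≤ B * z n) (E : ℕ) :
    ∃ B : ℕ, ∀ᶠ x : ℕ in atTop, z (x ^ E) ≤ B * z (Nat.sqrt x) := by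
  obtain ⟨B, hB⟩ := hreg (4 * E)
  refine ⟨B, ?_⟩
  filter_upwards [sqrt_tendsto.eventually hB, eventually_ge_atTop 4] with x h1 h2
  refine (hz ?_).trans h1
  have h3 : 2 ≤ Nat.sqrt x := Nat.le_sqrt.2 (by omega)
  have h4 : x ≤ Nat.sqrt x ^ 4 := by
    have h5 := Nat.lt_succ_sqrt x
    have h6 : (Nat.sqrt x).succ ≤ Nat.sqrt x ^ 2 := by
      have : Nat.sqrt x ^ 2 = Nat.sqrt x * Nat.sqrt x := pow_two _
      rw [this]
      have : 2 * Nat.sqrt x ≤ Nat.sqrt x * Nat.sqrt x := Nat.mul_le_mul_right _ h3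
      omega
    calc x ≤ (Nat.sqrt x).succ * (Nat.sqrt x).succ := h5.le
      _ ≤ Nat.sqrt x ^ 2 * Nat.sqrt x ^ 2 := Nat.mul_le_mul h6 h6
      _ = _ := by ring
  calc x ^ E ≤ (Nat.sqrt x ^ 4) ^ E := Nat.pow_le_pow_left h4 E
    _ = Nat.sqrt x ^ (4 * E) := by rw [← pow_mul]

/-- the ratio of the two levels -/
lemma GG_ratio {z : ℕ → ℕ} (hz : Monotone z) (hzt : Tendsto z atTop atTop)
    (hreg : ∀ m : ℕ, ∃ B : ℕ, ∀ᶠ n : ℕ in atTop, z (n ^ m) ≤ B * z n) {E : ℕ} (hE : 1 ≤ E) :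
    Tendsto (fun x : ℕ => GG (z (x ^ E)) / GG (z (Nat.sqrt x))) atTop (𝓝 1) := by
  obtain ⟨B, hB⟩ := lev_reg hz hreg E
  rw [Metric.tendsto_nhds]
  intro ε hε
  have h1 := (hzt.comp sqrt_tendsto).eventually (GG_reg B (ε / 2) (by positivity))
  filter_upwards [h1, hB, eventually_ge_atTop 1] with x h1 h2 h3
  have hle : Nat.sqrt x ≤ x ^ E := (Nat.sqrt_le_self x).trans (Nat.le_self_pow (by omega) x)
  have h4 := h1 (z (x ^ E)) (hz hle) h2
  have hG : 0 < GG (z (Nat.sqrt x)) := GG_pos _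
  have h5 : GG (z (x ^ E)) / GG (z (Nat.sqrt x)) ≤ 1 := (div_le_one hG).2 (GG_anti (hz hle))
  have h6 : 1 - ε / 2 ≤ GG (z (x ^ E)) / GG (z (Nat.sqrt x)) := (le_div_iff₀ hG).2 h4
  rw [Real.dist_eq, abs_lt]
  constructor <;> linarith

/-- **the expected number of prime values in short intervals** -/
theorem sys_det {F : Finset ℤ[X]} (hF : ∀ f ∈ F, Ad f) {z : ℕ → ℕ} (hz : Monotone z) (hzt : Tendsto z atTop atTop)
    {κ : ℕ} (hzκ : ∀ᶠ n : ℕ in atTop, (z n : ℝ) ≤ Real.log n ^ κ)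
    (hreg : ∀ m : ℕ, ∃ B : ℕ, ∀ᶠ n : ℕ in atTop, z (n ^ m) ≤ B * z n) {C : ℝ}
    (hC : Tendsto (fun v => VF F v / GG v ^ F.card) atTop (𝓝 C)) :
    ∀ θ : ℝ, 0 < θ → ∃ a : ℕ, ∃ δ : ℝ, 0 < δ ∧ δ ≤ 1 ∧ ∀ᶠ x : ℕ in atTop, ∀ H : ℕ, Real.log x ^ a ≤ H → (H : ℝ) ≤ (x : ℝ) ^ (1 + δ) →
      |(∑ n ∈ Finset.Ioc x (x + H), ∏ f ∈ F, rg z (vl f n - 1)) * ((∏ f ∈ F, (f.natDegree : ℝ)) * Real.log x ^ F.card) / H - C| ≤ θ := by
  classical
  intro θ hθ
  set k := F.card with hk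
  have hC0 : 0 ≤ C := ge_of_tendsto' hC fun v => div_nonneg (VF_nonneg F v) (pow_nonneg (GG_pos v).le k)
  -- the small parameter
  obtain ⟨t, ht0, ht1, hup, hlo⟩ : ∃ t : ℝ, 0 < t ∧ t < 1 / 2 ∧
      ((C + t) + t * (C + t) + t) / (1 - t) < C + θ ∧ C - θ < ((C - t) - t * (C + t) - t) / (1 + t) := by
    have c1 : Tendsto (fun t : ℝ => ((C + t) + t * (C + t) + t) / (1 - t)) (𝓝 0) (𝓝 C) := by
      have : ContinuousAt (fun t : ℝ => ((C + t) + t * (C + t) + t) / (1 - t)) 0 := by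
        refine ContinuousAt.div (by fun_prop) (by fun_prop) (by norm_num)
      simpa [ContinuousAt] using this
    have c2 : Tendsto (fun t : ℝ => ((C - t) - t * (C + t) - t) / (1 + t)) (𝓝 0) (𝓝 C) := by
      have : ContinuousAt (fun t : ℝ => ((C - t) - t * (C + t) - t) / (1 + t)) 0 := by
        refine ContinuousAt.div (by fun_prop) (by fun_prop) (by norm_num)
      simpa [ContinuousAt] using this
    have h1 := c1.eventually_lt_const (show C < C + θ by linarith)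
    have h2 := c2.eventually_const_lt (show C - θ < C by linarith)
    have h3 : ∀ᶠ η : ℝ in 𝓝 0, η < 1 / 2 := eventually_lt_nhds (by norm_num)
    have h4 : ∀ᶠ η : ℝ in 𝓝[>] 0, 0 < η := self_mem_nhdsWithin
    obtain ⟨η, ⟨⟨h5, h6⟩, h7⟩, h8⟩ := (((h1.and h2).and h3).filter_mono nhdsWithin_le_nhds |>.and h4).exists
    exact ⟨η, h8, h7, h5, h6⟩
  obtain ⟨C0, K0, hsv⟩ := sieve_sys hF
  obtain ⟨b0, hb0⟩ := exists_pow_lt_of_lt_one ht0 (show (1 / 2 : ℝ) < 1 by norm_num)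
  set b := max b0 C0 with hb
  have hbt : (1 / 2 : ℝ) ^ b ≤ t :=
    (pow_le_pow_of_le_one (by norm_num) (by norm_num) (le_max_left b0 C0)).trans hb0.le
  have hsv' := hsv b (le_max_right _ _)
  obtain ⟨δ0, hδ0, hlb⟩ := log_bd hF t ht0
  set δ := min δ0 1 with hδ
  have hδpos : 0 < δ := lt_min hδ0 one_pos
  -- the exponents
  set E0 : ℕ := (∑ f ∈ F, f.natDegree) + 1 with hE0
  set E : ℕ := 3 * E0 with hE
  set e : ℕ := 4 * (C0 * b) + k + 1 with he
  set a : ℕ := (κ + 1) * e + 1 with ha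
  have hW1 : Tendsto (fun x : ℕ => VF F (z (Nat.sqrt x)) / GG (z (x ^ E)) ^ k) atTop (𝓝 C) := by
    have h1 := hC.comp (hzt.comp sqrt_tendsto)
    have h2 := ((GG_ratio hz hzt hreg (E := E) (by omega)).inv₀ one_ne_zero).pow k
    have h3 := h1.mul h2
    rw [inv_one, one_pow, mul_one] at h3
    refine h3.congr fun x => ?_
    have g1 := (GG_pos (z (Nat.sqrt x))).ne'
    have g2 := (GG_pos (z (x ^ E))).ne'
    simp only [Function.comp]
    rw [inv_div, div_pow]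
    field_simp
  have hxE : Tendsto (fun x : ℕ => x ^ E) atTop atTop := tendsto_pow_atTop (by omega)
  have hW2 : Tendsto (fun x : ℕ => VF F (z (x ^ E)) / GG (z (Nat.sqrt x)) ^ k) atTop (𝓝 C) := by
    have h1 := hC.comp (hzt.comp hxE)
    have h2 := (GG_ratio hz hzt hreg (E := E) (by omega)).pow k
    have h3 := h1.mul h2
    rw [one_pow, mul_one] at h3
    refine h3.congr fun x => ?_
    have g1 := (GG_pos (z (Nat.sqrt x))).ne'
    have g2 := (GG_pos (z (x ^ E))).ne'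
    simp only [Function.comp]
    rw [div_pow]
    field_simp
  refine ⟨a, δ, hδpos, min_le_right _ _, ?_⟩
  -- facts on the values
  have hvals : ∀ᶠ n : ℕ in atTop, ∀ f ∈ F, 0 < f.eval (n : ℤ) ∧ n ≤ 2 * vl f n ∧ vl f n ≤ n ^ E0 := by
    rw [Filter.eventually_all_finset]
    intro f hf
    have hd : f.natDegree < E0 := by
      have := Finset.single_le_sum (f := fun f : ℤ[X] => f.natDegree) (fun _ _ => Nat.zero_le _) hf
      omega
    filter_upwards [ev_pos f (hF f hf).2, vl_low (hF f hf), ev_pow f (hF f hf).2 E0 hd] with n h1 h2 h3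
    exact ⟨h1, h2, h3⟩
  have hz2 : ∀ᶠ x : ℕ in atTop, 2 ≤ z (Nat.sqrt x) := (hzt.comp sqrt_tendsto).eventually_ge_atTop 2
  have hzL : ∀ᶠ x : ℕ in atTop, (z (x ^ E) : ℝ) ≤ Real.log x ^ (κ + 1) := by
    filter_upwards [hxE.eventually hzκ, tendsto_logN.eventually_ge_atTop ((E : ℝ) ^ κ)] with x h1 h2
    refine h1.trans ?_
    have h3 : Real.log ((x ^ E : ℕ) : ℝ) = E * Real.log x := by
      push_cast
      rw [Real.log_pow]
    rw [h3, mul_pow, pow_succ, mul_comm]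
    exact mul_le_mul_of_nonneg_left h2 (pow_nonneg (Real.log_natCast_nonneg x) κ)
  filter_upwards [eventually_forall_ge_atTop.2 hvals, hz2, hzL, hlb, hW1.eventually_lt_const (show C < C + t by linarith),
    hW2.eventually_const_lt (show C - t < C by linarith), hW2.eventually_lt_const (show C < C + t by linarith),
    tendsto_logN.eventually_ge_atTop (max 1 (4 * K0 / t)), eventually_ge_atTop 4]
    with x hx1 hx2 hx3 hx4 hx5 hx6 hx6' hx7 hx8 H hH1 hH2
  have hx8' : (4 : ℝ) ≤ x := by exact_mod_cast hx8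
  set L := Real.log x with hL
  have hL1 : 1 ≤ L := (le_max_left _ _).trans hx7
  have hL2 : 4 * K0 / t ≤ L := (le_max_right _ _).trans hx7
  set v := z (Nat.sqrt x) with hv
  set w := z (x ^ E) with hw
  have hvw : v ≤ w := hz ((Nat.sqrt_le_self x).trans (Nat.le_self_pow (by omega) x))
  have hw2 : 2 ≤ w := hx2.trans hvw
  set D : ℝ := (∏ f ∈ F, (f.natDegree : ℝ)) with hD
  have hDpos : 0 < D := Finset.prod_pos fun f hf => by exact_mod_cast (hF f hf).1
  set P : ℝ := D * L ^ k with hP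
  have hPpos : 0 < P := by positivity
  have hHpos : (0 : ℝ) < H := lt_of_lt_of_le (by positivity) hH1
  -- the window
  have hHδ : (H : ℝ) ≤ (x : ℝ) ^ (1 + δ0) :=
    hH2.trans (Real.rpow_le_rpow_of_exponent_le (by linarith) (by have := min_le_left δ0 1; linarith))
  have hHx2 : H ≤ x ^ 2 := by
    have h1 : (H : ℝ) ≤ (x : ℝ) ^ (2 : ℝ) :=
      hH2.trans (Real.rpow_le_rpow_of_exponent_le (by linarith) (by have := min_le_right δ0 1; linarith))
    rw [Real.rpow_two] at h1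
    exact_mod_cast h1
  have hpt : ∀ n ∈ Finset.Ioc x (x + H), (∀ f ∈ F, 0 < f.eval (n : ℤ)) ∧ (∀ f ∈ F, v ≤ z (vl f n) ∧ z (vl f n) ≤ w) ∧
      (1 - t) * P ≤ ∏ f ∈ F, Real.log ((vl f n - 1 : ℕ) : ℝ) ∧ ∏ f ∈ F, Real.log ((vl f n - 1 : ℕ) : ℝ) ≤ (1 + t) * P := by
    intro n hn
    have hn' := Finset.mem_Ioc.1 hn
    have h1 := hx1 n hn'.1.le
    refine ⟨fun f hf => (h1 f hf).1, fun f hf => ⟨hz ?_, hz ?_⟩, ?_⟩
    · have h2 := (h1 f hf).2.1
      have h3 : 2 ≤ Nat.sqrt x := Nat.le_sqrt.2 (by omega)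
      have h4 := Nat.sqrt_le x
      have : 2 * Nat.sqrt x ≤ Nat.sqrt x * Nat.sqrt x := Nat.mul_le_mul_right _ h3
      omega
    · have h2 := (h1 f hf).2.2
      have h3 : n ≤ x ^ 3 := by
        have h4 : x ^ 3 = x * x ^ 2 := by ring
        have h5 : x + x ^ 2 ≤ x ^ 3 := by
          rw [h4]
          nlinarith
        omega
      calc vl f n ≤ n ^ E0 := h2
        _ ≤ (x ^ 3) ^ E0 := Nat.pow_le_pow_left h3 E0
        _ = x ^ E := by rw [← pow_mul]
    · have h2 : (n : ℝ) ≤ x + (x : ℝ) ^ (1 + δ0) := by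
        have : (n : ℝ) ≤ x + H := by exact_mod_cast hn'.2
        linarith
      exact hx4 n hn'.1 h2
  have hrg : ∀ n ∈ Finset.Ioc x (x + H), ∏ f ∈ F, rg z (vl f n - 1) =
      (∏ f ∈ F, (1 + DF (z (vl f n)) (vl f n))) / ∏ f ∈ F, Real.log ((vl f n - 1 : ℕ) : ℝ) := by
    intro n hn
    rw [← Finset.prod_div_distrib]
    refine Finset.prod_congr rfl fun f hf => ?_
    have h1 := (hpt n hn).1 f hf
    have h2 : 1 ≤ vl f n := by
      unfold vl
      omega
    unfold rg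
    rw [Nat.sub_add_cancel h2]
  set S := ∑ n ∈ Finset.Ioc x (x + H), ∏ f ∈ F, rg z (vl f n - 1) with hS
  set N : ℕ → ℝ := fun y => (((Finset.Ioc x (x + H)).filter (fun m => SF F y m)).card : ℝ) with hN
  have hgv := GG_pos v
  have hgw := GG_pos w
  have hupS : S ≤ N v * (((GG w)⁻¹) ^ k / ((1 - t) * P)) := by
    rw [hS, hN]
    simp only
    rw [Finset.card_filter, Nat.cast_sum, Finset.sum_mul]
    refine Finset.sum_le_sum fun n hn => ?_
    obtain ⟨h1, h2, h3, h4⟩ := hpt n hn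
    obtain ⟨g1, g2, g3⟩ := pt_bd h1 h2
    have hpos : 0 < (1 - t) * P := mul_pos (by linarith) hPpos
    rw [hrg n hn]
    by_cases hs : SF F v n
    · rw [if_pos hs, Nat.cast_one, one_mul]
      exact div_le_div₀ (by positivity) (g2 hs) hpos h3
    · rw [if_neg hs, g3 hs]
      simp
  have hloS : N w * (((GG v)⁻¹) ^ k / ((1 + t) * P)) ≤ S := by
    rw [hS, hN]
    simp only
    rw [Finset.card_filter, Nat.cast_sum, Finset.sum_mul]
    refine Finset.sum_le_sum fun n hn => ?_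
    obtain ⟨h1, h2, h3, h4⟩ := hpt n hn
    obtain ⟨g1, g2, g3⟩ := pt_bd h1 h2
    have hpos : 0 < (1 - t) * P := mul_pos (by linarith) hPpos
    have hlp : 0 < ∏ f ∈ F, Real.log ((vl f n - 1 : ℕ) : ℝ) := lt_of_lt_of_le hpos h3
    have hprod : 0 ≤ ∏ f ∈ F, (1 + DF (z (vl f n)) (vl f n)) := Finset.prod_nonneg fun f _ => one_add_DF_nonneg _ _
    rw [hrg n hn]
    by_cases hs : SF F w n
    · rw [if_pos hs, Nat.cast_one, one_mul]
      exact div_le_div₀ hprod (g1 hs) hlp h4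
    · rw [if_neg hs]
      simp only [Nat.cast_zero, zero_mul]
      exact div_nonneg hprod hlp.le
  -- the error term
  have herr : ∀ y s : ℕ, y ≤ w → 2 ≤ y → s ≤ w → 1 ≤ s → (((y : ℝ) + 3) * K0 * (y : ℝ) ^ (4 * (C0 * b))) * ((GG s)⁻¹) ^ k ≤ t * H := by
    intro y s hy hy2 hs hs1
    have hy' : (y : ℝ) ≤ w := by exact_mod_cast hy
    have hs' : (s : ℝ) ≤ w := by exact_mod_cast hs
    have hw2' : (2 : ℝ) ≤ w := by exact_mod_cast hw2
    have hs1' : (1 : ℝ) ≤ s := by exact_mod_cast hs1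
    have h1 : (GG s)⁻¹ ≤ w := by
      have := inv_anti₀ (by positivity) (GG_lower s hs1)
      rw [one_div, inv_inv] at this
      exact this.trans hs'
    have h2 : ((GG s)⁻¹) ^ k ≤ (w : ℝ) ^ k := pow_le_pow_left₀ (inv_pos.2 (GG_pos s)).le h1 k
    have h3 : ((y : ℝ) + 3) * K0 * (y : ℝ) ^ (4 * (C0 * b)) ≤ (4 * w) * K0 * (w : ℝ) ^ (4 * (C0 * b)) := by
      have : (y : ℝ) + 3 ≤ 4 * w := by linarith
      gcongr
    have h4 : (w : ℝ) ^ e ≤ L ^ ((κ + 1) * e) := by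
      rw [pow_mul]
      exact pow_le_pow_left₀ (Nat.cast_nonneg _) hx3 e
    calc (((y : ℝ) + 3) * K0 * (y : ℝ) ^ (4 * (C0 * b))) * ((GG s)⁻¹) ^ k ≤
          ((4 * w) * K0 * (w : ℝ) ^ (4 * (C0 * b))) * (w : ℝ) ^ k :=
            mul_le_mul h3 h2 (pow_nonneg (inv_pos.2 (GG_pos s)).le k) (by positivity)
      _ = 4 * K0 * (w : ℝ) ^ e := by
          rw [he, pow_add, pow_add, pow_one]
          ring
      _ ≤ 4 * K0 * L ^ ((κ + 1) * e) := mul_le_mul_of_nonneg_left h4 (by positivity)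
      _ ≤ (t * L) * L ^ ((κ + 1) * e) := by
          refine mul_le_mul_of_nonneg_right ?_ (by positivity)
          rw [div_le_iff₀ ht0] at hL2
          linarith
      _ = t * L ^ a := by
          rw [ha, pow_succ]
          ring
      _ ≤ t * H := mul_le_mul_of_nonneg_left hH1 ht0.le
  have hsv1 := abs_le.1 (hsv' v hx2 x H)
  have hsv2 := abs_le.1 (hsv' w hw2 x H)
  have he1 := herr v w hvw hx2 le_rfl (by omega)
  have he2 := herr w v le_rfl hw2 hvw (by omega)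
  -- normalised quantities
  have hVv := VF_nonneg F v
  have hVw := VF_nonneg F w
  have f1 : VF F v / GG w ^ k = VF F v * ((GG w)⁻¹) ^ k := by rw [inv_pow]; rfl
  have f2 : VF F w / GG v ^ k = VF F w * ((GG v)⁻¹) ^ k := by rw [inv_pow]; rfl
  rw [f1] at hx5
  rw [f2] at hx6 hx6'
  set Gw := ((GG w)⁻¹) ^ k with hGw
  set Gv := ((GG v)⁻¹) ^ k with hGv
  have hGw0 : 0 < Gw := by positivity
  have hGv0 : 0 < Gv := by positivity
  have hu : N v * Gw ≤ ((C + t) + t * (C + t) + t) * H := by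
    have h1 : N v ≤ (1 + t) * (H * VF F v) + ((v : ℝ) + 3) * K0 * (v : ℝ) ^ (4 * (C0 * b)) := by
      have h2 : (1 / 2 : ℝ) ^ b * (H * VF F v) ≤ t * (H * VF F v) :=
        mul_le_mul_of_nonneg_right hbt (mul_nonneg hHpos.le hVv)
      have := hsv1.2
      simp only [hN]
      linarith
    calc N v * Gw ≤ ((1 + t) * (H * VF F v) + ((v : ℝ) + 3) * K0 * (v : ℝ) ^ (4 * (C0 * b))) * Gw :=
          mul_le_mul_of_nonneg_right h1 hGw0.le
      _ = (1 + t) * H * (VF F v * Gw) + (((v : ℝ) + 3) * K0 * (v : ℝ) ^ (4 * (C0 * b))) * Gw := by ring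
      _ ≤ (1 + t) * H * (C + t) + t * H :=
          add_le_add (mul_le_mul_of_nonneg_left hx5.le (by positivity)) he1
      _ = _ := by ring
  have hl : ((C - t) - t * (C + t) - t) * H ≤ N w * Gv := by
    have h1 : H * VF F w - t * (H * VF F w) - ((w : ℝ) + 3) * K0 * (w : ℝ) ^ (4 * (C0 * b)) ≤ N w := by
      have h2 : (1 / 2 : ℝ) ^ b * (H * VF F w) ≤ t * (H * VF F w) :=
        mul_le_mul_of_nonneg_right hbt (mul_nonneg hHpos.le hVw)
      have := hsv2.1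
      simp only [hN]
      linarith
    have h3 : (C - t) * H ≤ (VF F w * Gv) * H := mul_le_mul_of_nonneg_right hx6.le hHpos.le
    have h4 : t * ((VF F w * Gv) * H) ≤ t * ((C + t) * H) :=
      mul_le_mul_of_nonneg_left (mul_le_mul_of_nonneg_right hx6'.le hHpos.le) ht0.le
    calc ((C - t) - t * (C + t) - t) * H ≤ (VF F w * Gv) * H - t * ((VF F w * Gv) * H) -
          (((w : ℝ) + 3) * K0 * (w : ℝ) ^ (4 * (C0 * b))) * Gv := by linarith
      _ = (H * VF F w - t * (H * VF F w) - ((w : ℝ) + 3) * K0 * (w : ℝ) ^ (4 * (C0 * b))) * Gv := by ring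
      _ ≤ N w * Gv := mul_le_mul_of_nonneg_right h1 hGv0.le
  have hQu : S * P / H ≤ ((C + t) + t * (C + t) + t) / (1 - t) := by
    rw [div_le_div_iff₀ hHpos (by linarith)]
    have h1 : S * P * (1 - t) ≤ (N v * (Gw / ((1 - t) * P))) * P * (1 - t) :=
      mul_le_mul_of_nonneg_right (mul_le_mul_of_nonneg_right hupS hPpos.le) (by linarith)
    have h2 : (N v * (Gw / ((1 - t) * P))) * P * (1 - t) = N v * Gw := by
      have : (1 : ℝ) - t ≠ 0 := by linarith
      field_simp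
    linarith
  have hQl : ((C - t) - t * (C + t) - t) / (1 + t) ≤ S * P / H := by
    rw [div_le_div_iff₀ (by linarith) hHpos]
    have h1 : (N w * (Gv / ((1 + t) * P))) * P * (1 + t) ≤ S * P * (1 + t) :=
      mul_le_mul_of_nonneg_right (mul_le_mul_of_nonneg_right hloS hPpos.le) (by linarith)
    have h2 : (N w * (Gv / ((1 + t) * P))) * P * (1 + t) = N w * Gv := by
      have : (1 : ℝ) + t ≠ 0 := by linarith
      field_simp
    linarith
  rw [abs_le]
  constructor <;> linarith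

end Pool.Agent.N740.HK
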