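import Mathlib
import Pool.Agent.N740.HK.Bh3

/-!
# The law for all systems of polynomials, in short intervals and up to `n`
-/

set_option autoImplicit false
set_option linter.unusedSectionVars false

open MeasureTheory Filter Set Polynomial
open scoped ENNReal Topology

namespace Pool.Agent.N740.HK

open Pool.Agent.R528.RM Pl

lemma log_pow_div (a : ℕ) (c : ℝ) (hc : 0 < c) : ∀ᶠ n : ℕ in atTop, Real.log n ^ a ≤ c * n := by
  have h := (isLittleO_log_rpow_rpow_atTop (a : ℝ) (zero_lt_one)).bound (c := c) hc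
  filter_upwards [tendsto_natCast_atTop_atTop.eventually h, eventually_ge_atTop 1] with n hn h1
  have h1' : (1 : ℝ) ≤ n := by exact_mod_cast h1
  rw [Real.rpow_one, Real.norm_eq_abs, Real.norm_eq_abs, Real.rpow_natCast, abs_of_nonneg (by positivity : (0 : ℝ) ≤ n)] at hn
  exact (le_abs_self _).trans hn

lemma log_pow_rpow (a : ℕ) (δ : ℝ) (hδ : 0 < δ) : ∀ᶠ n : ℕ in atTop, 2 * Real.log n ^ a ≤ (n : ℝ) ^ δ := by
  have h := (isLittleO_log_rpow_rpow_atTop (a : ℝ) hδ).bound (c := 1 / 2) (by norm_num)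
  filter_upwards [tendsto_natCast_atTop_atTop.eventually h, eventually_ge_atTop 1] with n hn h1
  have h1' : (1 : ℝ) ≤ n := by exact_mod_cast h1
  rw [Real.norm_eq_abs, Real.norm_eq_abs, Real.rpow_natCast, abs_of_nonneg (by positivity : (0 : ℝ) ≤ (n : ℝ) ^ δ)] at hn
  have := (le_abs_self _).trans hn
  linarith

/-- from the windows to the full counts -/
theorem full_of_windows {g : ℕ → ℝ} (hg : ∀ n, 0 ≤ g n ∧ g n ≤ 1) {D C : ℝ} (hD : 0 ≤ D) (k : ℕ)
    (h : ∀ θ : ℝ, 0 < θ → ∃ a : ℕ, ∃ δ : ℝ, 0 < δ ∧ ∀ᶠ x : ℕ in atTop, ∀ H : ℕ, Real.log x ^ a ≤ H → (H : ℝ) ≤ (x : ℝ) ^ (1 + δ) →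
      |(∑ n ∈ Finset.Ioc x (x + H), g n) * (D * Real.log x ^ k) / H - C| ≤ θ) :
    Tendsto (fun n : ℕ => (∑ m ∈ Finset.Ioc 0 n, g m) * (D * Real.log n ^ k) / n) atTop (𝓝 C) := by
  set X : ℕ → ℕ := fun n => ⌊(n : ℝ) / Real.log n ^ (k + 1)⌋₊ with hX
  have hXle : ∀ᶠ n : ℕ in atTop, (X n : ℝ) ≤ n / Real.log n ^ (k + 1) ∧ X n ≤ n ∧ (X n : ℝ) / n ≤ 1 / Real.log n := by
    filter_upwards [tendsto_logN.eventually_ge_atTop 1, eventually_ge_atTop 1] with n h1 h2
    have h2' : (1 : ℝ) ≤ n := by exact_mod_cast h2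
    have h3 : (X n : ℝ) ≤ n / Real.log n ^ (k + 1) := Nat.floor_le (by positivity)
    have h4 : Real.log n ≤ Real.log n ^ (k + 1) := by
      have := pow_le_pow_right₀ h1 (show 1 ≤ k + 1 by omega)
      rwa [pow_one] at this
    have h5 : (X n : ℝ) ≤ n / Real.log n := h3.trans (div_le_div_of_nonneg_left (by positivity) (by positivity) h4)
    refine ⟨h3, ?_, ?_⟩
    · have : (X n : ℝ) ≤ n := h5.trans (div_le_self (by positivity) h1)
      exact_mod_cast this
    · rw [div_le_div_iff₀ (by linarith) (by linarith), one_mul]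
      rw [le_div_iff₀ (by linarith)] at h5
      exact h5
  have hXge : ∀ δ : ℝ, 0 < δ → δ < 1 → ∀ᶠ n : ℕ in atTop, (n : ℝ) ^ (1 - δ) ≤ X n := by
    intro δ h0 h1
    filter_upwards [log_pow_rpow (k + 1) δ h0, eventually_ge_atTop 3] with n h2 h3
    have h3' : (3 : ℝ) ≤ n := by exact_mod_cast h3
    have hL : 0 < Real.log n := Real.log_pos (by linarith)
    have h4 : 1 ≤ (n : ℝ) ^ (1 - δ) := Real.one_le_rpow (by linarith) (by linarith)
    have h5 : 2 * (n : ℝ) ^ (1 - δ) ≤ n / Real.log n ^ (k + 1) := by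
      rw [le_div_iff₀ (by positivity)]
      calc 2 * (n : ℝ) ^ (1 - δ) * Real.log n ^ (k + 1) = (n : ℝ) ^ (1 - δ) * (2 * Real.log n ^ (k + 1)) := by ring
        _ ≤ (n : ℝ) ^ (1 - δ) * (n : ℝ) ^ δ := mul_le_mul_of_nonneg_left h2 (by positivity)
        _ = n := by rw [← Real.rpow_add (by linarith), sub_add_cancel, Real.rpow_one]
    have h6 := Nat.lt_floor_add_one ((n : ℝ) / Real.log n ^ (k + 1))
    have h7 : (n : ℝ) / Real.log n ^ (k + 1) < (X n : ℝ) + 1 := h6
    linarith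
  have hXlog : ∀ δ : ℝ, 0 < δ → δ < 1 → ∀ᶠ n : ℕ in atTop, (1 - δ) * Real.log n ≤ Real.log (X n) := by
    intro δ h0 h1
    filter_upwards [hXge δ h0 h1, eventually_ge_atTop 3] with n h2 h3
    have h3' : (3 : ℝ) ≤ n := by exact_mod_cast h3
    rw [← Real.log_rpow (by linarith)]
    exact Real.log_le_log (by positivity) h2
  have hXtop : Tendsto X atTop atTop := by
    have h1 : Tendsto (fun n : ℕ => Real.log (X n)) atTop atTop := by
      refine tendsto_atTop_mono' _ (hXlog (1 / 2) (by norm_num) (by norm_num)) ?_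
      exact tendsto_logN.const_mul_atTop (by norm_num)
    refine tendsto_atTop.2 fun b => ?_
    filter_upwards [h1.eventually_gt_atTop (Real.log b), h1.eventually_gt_atTop 0] with n hn hn0
    by_contra hcon
    have h2 : X n ≤ b := by omega
    have h3 : 0 < X n := by
      rcases Nat.eq_zero_or_pos (X n) with h | h
      · rw [h, Nat.cast_zero, Real.log_zero] at hn0
        exact absurd hn0 (lt_irrefl _)
      · exact h
    have h4 : Real.log (X n) ≤ Real.log b := Real.log_le_log (by exact_mod_cast h3) (by exact_mod_cast h2)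
    linarith
  have hr : Tendsto (fun n : ℕ => Real.log (X n) / Real.log n) atTop (𝓝 1) := by
    rw [Metric.tendsto_nhds]
    intro ε hε
    have hε' : 0 < min (ε / 2) (1 / 2) := lt_min (by positivity) (by norm_num)
    filter_upwards [hXlog (min (ε / 2) (1 / 2)) hε' (lt_of_le_of_lt (min_le_right _ _) (by norm_num)), hXle,
      tendsto_logN.eventually_gt_atTop 0, hXtop.eventually_ge_atTop 1] with n h1 h2 h3 h4
    have h4' : (1 : ℝ) ≤ X n := by exact_mod_cast h4
    have h5 : Real.log (X n) / Real.log n ≤ 1 := by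
      rw [div_le_one h3]
      exact Real.log_le_log (by linarith) (by exact_mod_cast h2.2.1)
    have h6 : 1 - min (ε / 2) (1 / 2) ≤ Real.log (X n) / Real.log n := by
      rw [le_div_iff₀ h3]
      exact h1
    have h7 := min_le_left (ε / 2) (1 / 2)
    rw [Real.dist_eq, abs_lt]
    constructor <;> linarith
  have hs0 : Tendsto (fun n : ℕ => (X n : ℝ) / n) atTop (𝓝 0) := by
    refine squeeze_zero' (Eventually.of_forall fun n => by positivity) (hXle.mono fun n hn => hn.2.2) ?_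
    have := tendsto_logN.inv_tendsto_atTop
    refine this.congr fun n => ?_
    simp
  have hH : ∀ᶠ n : ℕ in atTop, ((n - X n : ℕ) : ℝ) = n - X n := by
    filter_upwards [hXle] with n hn
    exact Nat.cast_sub hn.2.1
  have hs : Tendsto (fun n : ℕ => ((n - X n : ℕ) : ℝ) / n) atTop (𝓝 1) := by
    have h1 := hs0.const_sub 1
    rw [sub_zero] at h1
    refine h1.congr' ?_
    filter_upwards [hH, eventually_ge_atTop 1] with n h2 h3
    have h3' : (0 : ℝ) < n := by exact_mod_cast h3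
    rw [h2]
    field_simp
  have hA : Tendsto (fun n : ℕ => (∑ m ∈ Finset.Ioc (X n) (X n + (n - X n)), g m) * (D * Real.log (X n) ^ k) / ((n - X n : ℕ) : ℝ)) atTop (𝓝 C) := by
    rw [Metric.tendsto_nhds]
    intro ε hε
    obtain ⟨a, δ, hδ, h1⟩ := h (ε / 2) (by positivity)
    have hδ' : 0 < 1 - 1 / (1 + δ) := by
      rw [sub_pos, div_lt_one (by linarith)]
      linarith
    have hδ'' : 1 - 1 / (1 + δ) < 1 := by
      have : 0 < 1 / (1 + δ) := by positivity
      linarith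
    filter_upwards [hXtop.eventually h1, hXge _ hδ' hδ'', hH, hs.eventually_const_lt (show (1 / 2 : ℝ) < 1 by norm_num),
      log_pow_div a (1 / 2) (by norm_num), hXle, eventually_ge_atTop 3, hXtop.eventually_ge_atTop 1] with n h2 h3 h4 h5 h6 h7 h8 h9
    have h8' : (3 : ℝ) ≤ n := by exact_mod_cast h8
    have h9' : (1 : ℝ) ≤ X n := by exact_mod_cast h9
    have h10 : (1 / 2 : ℝ) * n ≤ ((n - X n : ℕ) : ℝ) := by
      rw [lt_div_iff₀ (by linarith)] at h5
      exact h5.le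
    have h11 : Real.log (X n) ^ a ≤ ((n - X n : ℕ) : ℝ) := by
      refine le_trans ?_ (h6.trans h10)
      exact pow_le_pow_left₀ (Real.log_natCast_nonneg _) (Real.log_le_log (by linarith) (by exact_mod_cast h7.2.1)) a
    have h12 : ((n - X n : ℕ) : ℝ) ≤ (X n : ℝ) ^ (1 + δ) := by
      rw [h4]
      have h13 : (n : ℝ) ≤ (X n : ℝ) ^ (1 + δ) := by
        have e1 : (1 : ℝ) - (1 - 1 / (1 + δ)) = 1 / (1 + δ) := by ring
        rw [e1] at h3
        have h14 := Real.rpow_le_rpow (by positivity) h3 (show 0 ≤ 1 + δ by linarith)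
        rw [← Real.rpow_mul (by linarith), one_div_mul_cancel (by linarith), Real.rpow_one] at h14
        exact h14
      linarith
    have h15 := h2 _ h11 h12
    rw [Real.dist_eq]
    linarith
  have hrk := (hr.inv₀ one_ne_zero).pow k
  rw [inv_one, one_pow] at hrk
  have hmain := (hA.mul hrk).mul hs
  rw [mul_one, mul_one] at hmain
  -- the first part
  have hfirst : Tendsto (fun n : ℕ => (∑ m ∈ Finset.Ioc 0 (X n), g m) * (D * Real.log n ^ k) / n) atTop (𝓝 0) := by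
    have hup : Tendsto (fun n : ℕ => D * (Real.log n)⁻¹) atTop (𝓝 0) := by
      have := tendsto_logN.inv_tendsto_atTop.const_mul D
      rw [mul_zero] at this
      exact this
    refine squeeze_zero' (Eventually.of_forall fun n => ?_) ?_ hup
    · have h1 : 0 ≤ ∑ m ∈ Finset.Ioc 0 (X n), g m := Finset.sum_nonneg fun m _ => (hg m).1
      have h2 : 0 ≤ Real.log (n : ℝ) := Real.log_natCast_nonneg n
      positivity
    · filter_upwards [hXle, tendsto_logN.eventually_gt_atTop 0, eventually_ge_atTop 1] with n h1 h2 h3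
      have h3' : (0 : ℝ) < n := by exact_mod_cast h3
      have h4 : ∑ m ∈ Finset.Ioc 0 (X n), g m ≤ X n := by
        calc ∑ m ∈ Finset.Ioc 0 (X n), g m ≤ ∑ m ∈ Finset.Ioc 0 (X n), (1 : ℝ) := Finset.sum_le_sum fun m _ => (hg m).2
          _ = X n := by simp
      rw [div_le_iff₀ h3']
      calc (∑ m ∈ Finset.Ioc 0 (X n), g m) * (D * Real.log n ^ k) ≤ (n / Real.log n ^ (k + 1)) * (D * Real.log n ^ k) :=
            mul_le_mul_of_nonneg_right (h4.trans h1.1) (by positivity)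
        _ = D * (Real.log n)⁻¹ * n := by
            rw [pow_succ]
            field_simp
  have hfin := hfirst.add hmain
  rw [zero_add] at hfin
  refine hfin.congr' ?_
  filter_upwards [hXle, tendsto_logN.eventually_gt_atTop 0, hXtop.eventually_ge_atTop 2, hs.eventually_const_lt (show (1 / 2 : ℝ) < 1 by norm_num),
    eventually_ge_atTop 1] with n h1 h2 h3 h4 h5
  have h5' : (0 : ℝ) < n := by exact_mod_cast h5
  have h3' : (2 : ℝ) ≤ X n := by exact_mod_cast h3
  have hLX : 0 < Real.log (X n) := Real.log_pos (by linarith)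
  have hHp : 0 < ((n - X n : ℕ) : ℝ) := by
    rw [lt_div_iff₀ h5'] at h4
    linarith
  have e1 : X n + (n - X n) = n := by omega
  have e2 : ∑ m ∈ Finset.Ioc 0 n, g m = ∑ m ∈ Finset.Ioc 0 (X n), g m + ∑ m ∈ Finset.Ioc (X n) n, g m :=
    (Finset.sum_Ioc_consecutive g (Nat.zero_le _) h1.2.1).symm
  rw [e1, e2, add_mul, add_div]
  congr 1
  rw [inv_div, div_pow]
  field_simp

variable {Ω : Type} {m0 : MeasurableSpace Ω} {μ : Measure Ω} [IsProbabilityMeasure μ]
  {ℱ : Filtration ℕ m0} {A : ℕ → Set Ω}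

/-- **the law for all systems of polynomials** -/
theorem bh_all (hA : ∀ n, MeasurableSet[ℱ n] (A n)) {z : ℕ → ℕ} (hz : Monotone z) (hzt : Tendsto z atTop atTop)
    {κ : ℕ} (hzκ : ∀ᶠ n : ℕ in atTop, (z n : ℝ) ≤ Real.log n ^ κ)
    (hreg : ∀ m : ℕ, ∃ B : ℕ, ∀ᶠ n : ℕ in atTop, z (n ^ m) ≤ B * z n)
    (hempty : ∀ n, ¬ Free (z n) n → A n = ∅)
    (hd : ∀ᵐ ω ∂μ, Tendsto (fun n : ℕ => dens μ ℱ A n ω * (Real.log n * GG (z (n + 1))))
      (atTop ⊓ 𝓟 {n : ℕ | Free (z (n + 1)) (n + 1)}) (𝓝 1)) :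
    ∀ᵐ ω ∂μ, ∀ F : Finset ℤ[X], (∀ f ∈ F, Ad f) → ∀ C : ℝ, Tendsto (fun v => VF F v / GG v ^ F.card) atTop (𝓝 C) →
      ∀ θ : ℝ, 0 < θ → ∃ a : ℕ, ∃ δ : ℝ, 0 < δ ∧ ∀ᶠ x : ℕ in atTop, ∀ H : ℕ, Real.log x ^ a ≤ H → (H : ℝ) ≤ (x : ℝ) ^ (1 + δ) →
        |(∑ n ∈ Finset.Ioc x (x + H), ∏ f ∈ F, J1 A (vl f n) ω) * ((∏ f ∈ F, (f.natDegree : ℝ)) * Real.log x ^ F.card) / H - C| ≤ θ := by
  classical
  have hd' := rg_hd (μ := μ) (ℱ := ℱ) hempty hd
  have hcP := cP
  have hall : ∀ᵐ ω ∂μ, ∀ F : Finset ℤ[X], (∀ f ∈ F, Ad f) → ∀ ε : ℝ, 0 < ε → ∃ C : ℝ, 0 ≤ C ∧ ∀ᶠ x : ℕ in atTop, ∀ H : ℕ, H ≤ x ^ 2 →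
      |∑ n ∈ Finset.Ioc x (x + H), 1 * ∏ f ∈ F, J1 A (vl f n) ω -
        ∑ n ∈ Finset.Ioc x (x + H), 1 * ∏ f ∈ F, rg z (vl f n - 1)| ≤
        ε * (∑ n ∈ Finset.Ioc x (x + H), 1 * ∏ f ∈ F, rg z (vl f n - 1)) + C * Real.log x := by
    rw [ae_all_iff]
    intro F
    by_cases hF : ∀ f ∈ F, Ad f
    · filter_upwards [conc_sys (μ := μ) hA (rg_nonneg z) (rg_bdd (μ := μ) hA hd') hd' F.card F rfl hF (fun _ => 1)
        (fun _ => ⟨zero_le_one, le_rfl⟩)] with ω hω _
      exact hω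
    · exact Eventually.of_forall fun ω h => absurd h hF
  filter_upwards [hall] with ω hω
  intro F hF C hC θ hθ
  have hC0 : 0 ≤ C := ge_of_tendsto' hC fun v => div_nonneg (VF_nonneg F v) (pow_nonneg (GG_pos v).le _)
  set k := F.card with hk
  set D : ℝ := (∏ f ∈ F, (f.natDegree : ℝ)) with hD
  have hDpos : 0 < D := Finset.prod_pos fun f hf => by exact_mod_cast (hF f hf).1
  -- parameters
  set t : ℝ := min (θ / 4) 1 with ht
  have ht0 : 0 < t := lt_min (by positivity) one_pos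
  have ht1 : t ≤ 1 := min_le_right _ _
  have htθ : t ≤ θ / 4 := min_le_left _ _
  set ε : ℝ := t / (C + 1) with hε
  have hε0 : 0 < ε := by positivity
  have hεC : ε * (C + t) ≤ t := by
    rw [hε, div_mul_eq_mul_div, div_le_iff₀ (by linarith)]
    exact mul_le_mul_of_nonneg_left (by linarith) ht0.le
  obtain ⟨a0, δ, hδ, hδ1, hdet⟩ := sys_det hF hz hzt hzκ hreg hC t ht0
  obtain ⟨C1, hC1, hconc⟩ := hω F hF ε hε0
  refine ⟨max a0 (k + 2), δ, hδ, ?_⟩
  filter_upwards [hdet, hconc, tendsto_logN.eventually_ge_atTop (max 1 (C1 * D / t)), eventually_ge_atTop 3]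
    with x h1 h2 h3 h4 H hH1 hH2
  have h4' : (3 : ℝ) ≤ x := by exact_mod_cast h4
  set L := Real.log x with hL
  have hL1 : 1 ≤ L := (le_max_left _ _).trans h3
  have hL2 : C1 * D / t ≤ L := (le_max_right _ _).trans h3
  have hHa : L ^ a0 ≤ H := (pow_le_pow_right₀ hL1 (le_max_left _ _)).trans hH1
  have hHk : L ^ (k + 2) ≤ H := (pow_le_pow_right₀ hL1 (le_max_right _ _)).trans hH1
  have hHpos : (0 : ℝ) < H := lt_of_lt_of_le (by positivity) hHa
  have hHx2 : H ≤ x ^ 2 := by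
    have h5 : (H : ℝ) ≤ (x : ℝ) ^ (2 : ℝ) :=
      hH2.trans (Real.rpow_le_rpow_of_exponent_le (by linarith) (by linarith))
    rw [Real.rpow_two] at h5
    exact_mod_cast h5
  have h5 := h1 H hHa hH2
  have h6 := h2 H hHx2
  simp only [one_mul] at h6
  set S1 := ∑ n ∈ Finset.Ioc x (x + H), ∏ f ∈ F, J1 A (vl f n) ω with hS1
  set S3 := ∑ n ∈ Finset.Ioc x (x + H), ∏ f ∈ F, rg z (vl f n - 1) with hS3
  set P : ℝ := D * L ^ k with hP
  have hPpos : 0 < P := by positivity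
  have hPH : 0 < P / H := by positivity
  have h7 := abs_le.1 h5
  have h8 : |S1 * P / H - S3 * P / H| ≤ ε * (S3 * P / H) + C1 * L * (P / H) := by
    have e1 : S1 * P / H - S3 * P / H = (S1 - S3) * (P / H) := by ring
    rw [e1, abs_mul, abs_of_pos hPH]
    calc |S1 - S3| * (P / H) ≤ (ε * S3 + C1 * L) * (P / H) := mul_le_mul_of_nonneg_right h6 hPH.le
      _ = _ := by ring
  have h9 : C1 * L * (P / H) ≤ t := by
    have e1 : C1 * L * (P / H) = (C1 * D) * L ^ (k + 1) / H := by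
      rw [hP, pow_succ]
      ring
    rw [e1, div_le_iff₀ hHpos]
    rw [div_le_iff₀ ht0] at hL2
    calc (C1 * D) * L ^ (k + 1) ≤ (L * t) * L ^ (k + 1) := mul_le_mul_of_nonneg_right hL2 (by positivity)
      _ = t * L ^ (k + 2) := by ring
      _ ≤ t * H := mul_le_mul_of_nonneg_left hHk ht0.le
  have h10 : ε * (S3 * P / H) ≤ ε * (C + t) := mul_le_mul_of_nonneg_left (by linarith [h7.2]) hε0.le
  have h11 := abs_le.1 (h8.trans (add_le_add (h10.trans hεC) h9))
  rw [abs_le]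
  constructor <;> linarith [h7.1, h7.2, h11.1, h11.2]

end Pool.Agent.N740.HK
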