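import Mathlib
import Pool.Agent.N740.HK.Bh4

/-!
# The constants of the two shapes of prime quadruples
-/

set_option autoImplicit false
set_option linter.unusedSectionVars false

open Filter Set Polynomial
open scoped Topology

namespace Pool.Agent.N740.HK

open Pl

/-- regularity at `n^2` gives it at all powers -/
lemma reg_pow {z : ℕ → ℕ} (hz : Monotone z) (h : ∃ B : ℕ, ∀ᶠ n : ℕ in atTop, z (n ^ 2) ≤ B * z n) :
    ∀ m : ℕ, ∃ B : ℕ, ∀ᶠ n : ℕ in atTop, z (n ^ m) ≤ B * z n := by
  obtain ⟨B, hB⟩ := h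
  have h1 : ∀ j : ℕ, ∀ᶠ n : ℕ in atTop, z (n ^ (2 ^ j)) ≤ B ^ j * z n := by
    intro j
    induction j with
    | zero => exact Eventually.of_forall fun n => by simp
    | succ j ih =>
      have h2 : Tendsto (fun n : ℕ => n ^ (2 ^ j)) atTop atTop := tendsto_pow_atTop (by positivity)
      filter_upwards [ih, h2.eventually hB] with n h3 h4
      calc z (n ^ (2 ^ (j + 1))) = z ((n ^ (2 ^ j)) ^ 2) := by rw [← pow_mul, pow_succ]
        _ ≤ B * z (n ^ (2 ^ j)) := h4
        _ ≤ B * (B ^ j * z n) := Nat.mul_le_mul_left _ h3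
        _ = B ^ (j + 1) * z n := by ring
  intro m
  refine ⟨B ^ m, ?_⟩
  filter_upwards [h1 m, eventually_ge_atTop 1] with n h2 h3
  exact (hz (Nat.pow_le_pow_right h3 (Nat.lt_two_pow_self).le)).trans h2

/-- the system of the shifts of `X` by the members of `h` -/
noncomputable def sh (h : Finset ℕ) : Finset ℤ[X] := by
  classical
  exact h.image (fun b : ℕ => X + Polynomial.C (b : ℤ))

lemma sh_inj : Function.Injective (fun b : ℕ => (X + Polynomial.C (b : ℤ) : ℤ[X])) := by
  intro a b hab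
  have h1 := congrArg (Polynomial.eval 0) hab
  simp only [Polynomial.eval_add, Polynomial.eval_X, Polynomial.eval_C, zero_add] at h1
  exact_mod_cast h1

lemma sh_card (h : Finset ℕ) : (sh h).card = h.card := by
  classical
  unfold sh
  exact Finset.card_image_of_injective h sh_inj

lemma sh_ad (h : Finset ℕ) : ∀ f ∈ sh h, Ad f := by
  classical
  intro f hf
  unfold sh at hf
  obtain ⟨b, _, rfl⟩ := Finset.mem_image.1 hf
  refine ⟨?_, ?_⟩
  · rw [Polynomial.natDegree_X_add_C]
    exact one_pos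
  · rw [Polynomial.leadingCoeff_X_add_C]
    exact one_pos

lemma sh_deg (h : Finset ℕ) : ∏ f ∈ sh h, (f.natDegree : ℝ) = 1 := by
  classical
  refine Finset.prod_eq_one fun f hf => ?_
  unfold sh at hf
  obtain ⟨b, _, rfl⟩ := Finset.mem_image.1 hf
  rw [Polynomial.natDegree_X_add_C, Nat.cast_one]

lemma sh_mem (h : Finset ℕ) (P : ℤ[X] → Prop) : (∀ f ∈ sh h, P f) ↔ ∀ b ∈ h, P (X + Polynomial.C (b : ℤ)) := by
  classical
  unfold sh
  constructor
  · intro H b hb
    exact H _ (Finset.mem_image_of_mem _ hb)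
  · intro H f hf
    obtain ⟨b, hb, rfl⟩ := Finset.mem_image.1 hf
    exact H b hb

lemma om_sh (h : Finset ℕ) (p : ℕ) : om (sh h) p = ((Finset.range p).filter (fun a => ∃ b ∈ h, p ∣ a + b)).card := by
  classical
  unfold om
  congr 1
  apply Finset.filter_congr
  intro a _
  have h1 := sh_mem h (fun f => ¬ (p : ℤ) ∣ f.eval (a : ℤ))
  have h2 : ∀ b : ℕ, (p : ℤ) ∣ (X + Polynomial.C (b : ℤ) : ℤ[X]).eval (a : ℤ) ↔ p ∣ a + b := by
    intro b
    rw [Polynomial.eval_add, Polynomial.eval_X, Polynomial.eval_C]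
    norm_cast
  simp only [h2] at h1
  have h3 := not_congr h1
  push Not at h3
  exact h3

lemma small_dvd {a b p : ℕ} (ha : a < p) (hb : b < p) (hb0 : 0 < b) : p ∣ a + b ↔ a = p - b := by
  constructor
  · rintro ⟨c, hc⟩
    have h1 : c < 2 := by
      by_contra h
      have : p * 2 ≤ p * c := Nat.mul_le_mul_left _ (by omega)
      omega
    interval_cases c
    · omega
    · omega
  · intro h
    refine ⟨1, ?_⟩
    omega

lemma small_dvd0 {a p : ℕ} (ha : a < p) : p ∣ a + 0 ↔ a = 0 := by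
  rw [add_zero]
  constructor
  · intro h
    exact Nat.eq_zero_of_dvd_of_lt h ha
  · rintro rfl
    exact dvd_zero p

lemma om_four {b1 b2 b3 p : ℕ} (h1 : 0 < b1) (h12 : b1 < b2) (h23 : b2 < b3) (h3 : b3 < p) : om (sh {0, b1, b2, b3}) p = 4 := by
  classical
  rw [om_sh]
  have e1 : (Finset.range p).filter (fun a => ∃ b ∈ ({0, b1, b2, b3} : Finset ℕ), p ∣ a + b) = {0, p - b1, p - b2, p - b3} := by
    ext a
    simp only [Finset.mem_filter, Finset.mem_range, Finset.mem_insert, Finset.mem_singleton, exists_eq_or_imp, exists_eq_left]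
    constructor
    · rintro ⟨ha, h⟩
      rw [small_dvd0 ha, small_dvd ha (by omega) h1, small_dvd ha (by omega) (by omega), small_dvd ha h3 (by omega)] at h
      exact h
    · intro h
      have ha : a < p := by omega
      refine ⟨ha, ?_⟩
      rw [small_dvd0 ha, small_dvd ha (by omega) h1, small_dvd ha (by omega) (by omega), small_dvd ha h3 (by omega)]
      exact h
  rw [e1]
  rw [Finset.card_insert_of_notMem, Finset.card_insert_of_notMem, Finset.card_insert_of_notMem, Finset.card_singleton]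
  · simp only [Finset.mem_singleton]; omega
  · simp only [Finset.mem_insert, Finset.mem_singleton]; omega
  · simp only [Finset.mem_insert, Finset.mem_singleton]; omega

/-- the partial products of the constant `E` -/
noncomputable def qd (y : ℕ) : ℝ := 27 / 2 * ∏ p ∈ ((Finset.Icc 1 y).filter Nat.Prime).filter (fun p => 3 < p),
  (p : ℝ) ^ 3 * (p - 4) / (p - 1) ^ 4

lemma split3 {y : ℕ} (hy : 3 ≤ y) (g : ℕ → ℝ) : ∏ p ∈ (Finset.Icc 1 y).filter Nat.Prime, g p =
    (g 2 * g 3) * ∏ p ∈ ((Finset.Icc 1 y).filter Nat.Prime).filter (fun p => 3 < p), g p := by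
  rw [← Finset.prod_filter_mul_prod_filter_not ((Finset.Icc 1 y).filter Nat.Prime) (fun p => 3 < p), mul_comm]
  congr 1
  have e1 : ((Finset.Icc 1 y).filter Nat.Prime).filter (fun p => ¬ 3 < p) = {2, 3} := by
    ext p
    simp only [Finset.mem_filter, Finset.mem_Icc, Finset.mem_insert, Finset.mem_singleton]
    constructor
    · rintro ⟨⟨⟨h1, h2⟩, h3⟩, h4⟩
      have h5 := h3.two_le
      omega
    · rintro (rfl | rfl)
      · exact ⟨⟨⟨by omega, by omega⟩, Nat.prime_two⟩, by omega⟩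
      · exact ⟨⟨⟨by omega, by omega⟩, Nat.prime_three⟩, by omega⟩
  rw [e1, Finset.prod_insert (by simp), Finset.prod_singleton]

lemma ser_eq (F : Finset ℤ[X]) (y : ℕ) : VF F y / GG y ^ F.card =
    ∏ p ∈ (Finset.Icc 1 y).filter Nat.Prime, (1 - (om F p : ℝ) / p) / (1 - 1 / (p : ℝ)) ^ F.card := by
  unfold VF GG
  rw [Finset.prod_div_distrib, Finset.prod_pow]

lemma loc4 {p : ℕ} (hp : 3 < p) : (1 - ((4 : ℕ) : ℝ) / p) / (1 - 1 / (p : ℝ)) ^ 4 = (p : ℝ) ^ 3 * (p - 4) / (p - 1) ^ 4 := by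
  have h1 : (3 : ℝ) < p := by exact_mod_cast hp
  have h2 : (p : ℝ) - 1 ≠ 0 := by linarith
  have h3 : (p : ℝ) ≠ 0 := by linarith
  have e1 : 1 - ((4 : ℕ) : ℝ) / p = (p - 4) / p := by
    push_cast
    field_simp
  have e2 : 1 - 1 / (p : ℝ) = (p - 1) / p := by field_simp
  rw [e1, e2, div_pow]
  field_simp

lemma card_0268 : (sh {0, 2, 6, 8}).card = 4 := by
  rw [sh_card]
  rfl

lemma card_04610 : (sh {0, 4, 6, 10}).card = 4 := by
  rw [sh_card]
  rfl

lemma shape1 {y : ℕ} (hy : 3 ≤ y) : VF (sh {0, 2, 6, 8}) y / GG y ^ (sh {0, 2, 6, 8}).card = qd y := by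
  have h2 : om (sh {0, 2, 6, 8}) 2 = 1 := by rw [om_sh]; decide
  have h3 : om (sh {0, 2, 6, 8}) 3 = 2 := by rw [om_sh]; decide
  have h5 : om (sh {0, 2, 6, 8}) 5 = 4 := by rw [om_sh]; decide
  have h7 : om (sh {0, 2, 6, 8}) 7 = 4 := by rw [om_sh]; decide
  rw [ser_eq, split3 hy, h2, h3, card_0268]
  unfold qd
  congr 1
  · norm_num
  · refine Finset.prod_congr rfl fun p hp => ?_
    obtain ⟨h8, h9⟩ := Finset.mem_filter.1 hp
    have hpr := (Finset.mem_filter.1 h8).2
    have h4 : om (sh {0, 2, 6, 8}) p = 4 := by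
      rcases lt_or_ge 8 p with h | h
      · exact om_four (by norm_num) (by norm_num) (by norm_num) h
      · interval_cases p
        · exact absurd hpr (by norm_num)
        · exact h5
        · exact absurd hpr (by norm_num)
        · exact h7
        · exact absurd hpr (by norm_num)
    rw [h4, loc4 h9]

lemma shape2 {y : ℕ} (hy : 5 ≤ y) : VF (sh {0, 4, 6, 10}) y / GG y ^ (sh {0, 4, 6, 10}).card = 2 * qd y := by
  have h2 : om (sh {0, 4, 6, 10}) 2 = 1 := by rw [om_sh]; decide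
  have h3 : om (sh {0, 4, 6, 10}) 3 = 2 := by rw [om_sh]; decide
  have h5 : om (sh {0, 4, 6, 10}) 5 = 3 := by rw [om_sh]; decide
  have h7 : om (sh {0, 4, 6, 10}) 7 = 4 := by rw [om_sh]; decide
  rw [ser_eq, split3 (by omega), h2, h3, card_04610]
  unfold qd
  set Q := ((Finset.Icc 1 y).filter Nat.Prime).filter (fun p => 3 < p) with hQ
  have h5Q : 5 ∈ Q := Finset.mem_filter.2 ⟨Finset.mem_filter.2 ⟨Finset.mem_Icc.2 ⟨by omega, hy⟩, Nat.prime_five⟩, by omega⟩
  have e1 : ∏ p ∈ Q, (1 - (om (sh {0, 4, 6, 10}) p : ℝ) / p) / (1 - 1 / (p : ℝ)) ^ 4 =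
      ∏ p ∈ Q, ((p : ℝ) ^ 3 * (p - 4) / (p - 1) ^ 4) * (if p = 5 then 2 else 1) := by
    refine Finset.prod_congr rfl fun p hp => ?_
    obtain ⟨h8, h9⟩ := Finset.mem_filter.1 hp
    have hpr := (Finset.mem_filter.1 h8).2
    by_cases hp5 : p = 5
    · subst hp5
      rw [h5, if_pos rfl]
      norm_num
    · rw [if_neg hp5, mul_one]
      have h4 : om (sh {0, 4, 6, 10}) p = 4 := by
        rcases lt_or_ge 10 p with h | h
        · exact om_four (by norm_num) (by norm_num) (by norm_num) h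
        · interval_cases p
          · exact absurd hpr (by norm_num)
          · exact absurd rfl hp5
          · exact absurd hpr (by norm_num)
          · exact h7
          · exact absurd hpr (by norm_num)
          · exact absurd hpr (by norm_num)
          · exact absurd hpr (by norm_num)
      rw [h4, loc4 h9]
  rw [e1, Finset.prod_mul_distrib, Finset.prod_ite_eq' Q 5 (fun _ => (2 : ℝ)), if_pos h5Q]
  norm_num
  ring

/-- lower bound for the products over all integers -/
lemma prod_int (y : ℕ) : 4 ≤ y → ∏ n ∈ Finset.Icc 5 y, ((n : ℝ) ^ 3 * (n - 4) / (n - 1) ^ 4) =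
    6 * (y : ℝ) ^ 3 / (64 * ((y - 1) * (y - 2) * (y - 3))) := by
  intro hy
  induction y, hy using Nat.le_induction with
  | base => norm_num
  | succ y hy ih =>
    have hy' : (4 : ℝ) ≤ y := by exact_mod_cast hy
    rw [Finset.prod_Icc_succ_top (by omega), ih]
    push_cast
    have h1 : (y : ℝ) - 1 ≠ 0 := by linarith
    have h2 : (y : ℝ) - 2 ≠ 0 := by linarith
    have h3 : (y : ℝ) - 3 ≠ 0 := by linarith
    have h4 : (y : ℝ) ≠ 0 := by linarith
    have e1 : (y : ℝ) + 1 - 1 = y := by ring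
    have e2 : (y : ℝ) + 1 - 2 = y - 1 := by ring
    have e3 : (y : ℝ) + 1 - 3 = y - 2 := by ring
    have e4 : (y : ℝ) + 1 - 4 = y - 3 := by ring
    rw [e1, e2, e3, e4]
    field_simp

lemma fac4 {n : ℕ} (hn : 5 ≤ n) : 0 < (n : ℝ) ^ 3 * (n - 4) / (n - 1) ^ 4 ∧ (n : ℝ) ^ 3 * (n - 4) / (n - 1) ^ 4 ≤ 1 := by
  have hn' : (5 : ℝ) ≤ n := by exact_mod_cast hn
  constructor
  · have : (0 : ℝ) < n - 4 := by linarith
    have : (0 : ℝ) < n - 1 := by linarith
    positivity
  · rw [div_le_one (pow_pos (by linarith) 4)]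
    nlinarith

/-- the constant exists and is positive -/
lemma qd_lim : ∃ E : ℝ, 0 < E ∧ Tendsto qd atTop (𝓝 E) := by
  have hfac : ∀ y p, p ∈ ((Finset.Icc 1 y).filter Nat.Prime).filter (fun p => 3 < p) → 5 ≤ p := by
    intro y p hp
    obtain ⟨h8, h9⟩ := Finset.mem_filter.1 hp
    have hpr := (Finset.mem_filter.1 h8).2
    rcases Nat.lt_or_ge 4 p with h | h
    · exact h
    · have : p = 4 := by omega
      rw [this] at hpr
      exact absurd hpr (by norm_num)
  have hanti : Antitone qd := by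
    intro y w hyw
    unfold qd
    refine mul_le_mul_of_nonneg_left ?_ (by norm_num)
    have hsub : ((Finset.Icc 1 y).filter Nat.Prime).filter (fun p => 3 < p) ⊆ ((Finset.Icc 1 w).filter Nat.Prime).filter (fun p => 3 < p) :=
      Finset.filter_subset_filter _ (Finset.filter_subset_filter _ (Finset.Icc_subset_Icc le_rfl hyw))
    rw [← Finset.prod_sdiff hsub]
    refine mul_le_of_le_one_left (Finset.prod_nonneg fun p hp => (fac4 (hfac y p hp)).1.le) ?_
    refine Finset.prod_le_one (fun p hp => (fac4 (hfac w p (Finset.mem_sdiff.1 hp).1)).1.le) fun p hp => (fac4 (hfac w p (Finset.mem_sdiff.1 hp).1)).2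
  have hlow : ∀ y, 1 ≤ qd y := by
    intro y
    have h1 : qd (y + 4) ≤ qd y := hanti (by omega)
    refine le_trans ?_ h1
    set w := y + 4 with hw
    have hw4 : 4 ≤ w := by omega
    have hw' : (4 : ℝ) ≤ w := by exact_mod_cast hw4
    have h2 : (6 : ℝ) / 64 ≤ ∏ n ∈ Finset.Icc 5 w, ((n : ℝ) ^ 3 * (n - 4) / (n - 1) ^ 4) := by
      rw [prod_int w hw4, div_le_div_iff₀ (by norm_num) (by
        have : (0 : ℝ) < w - 1 := by linarith
        have : (0 : ℝ) < w - 2 := by linarith
        have : (0 : ℝ) < w - 3 := by linarith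
        positivity)]
      nlinarith
    have h3 : ∏ n ∈ Finset.Icc 5 w, ((n : ℝ) ^ 3 * (n - 4) / (n - 1) ^ 4) ≤
        ∏ p ∈ ((Finset.Icc 1 w).filter Nat.Prime).filter (fun p => 3 < p), ((p : ℝ) ^ 3 * (p - 4) / (p - 1) ^ 4) := by
      have hsub : ((Finset.Icc 1 w).filter Nat.Prime).filter (fun p => 3 < p) ⊆ Finset.Icc 5 w := by
        intro p hp
        have h4 := hfac w p hp
        have h5 := (Finset.mem_Icc.1 (Finset.mem_filter.1 (Finset.mem_filter.1 hp).1).1).2
        exact Finset.mem_Icc.2 ⟨h4, h5⟩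
      rw [← Finset.prod_sdiff hsub]
      refine mul_le_of_le_one_left (Finset.prod_nonneg fun p hp => (fac4 (hfac w p hp)).1.le) ?_
      refine Finset.prod_le_one (fun p hp => (fac4 (Finset.mem_Icc.1 (Finset.mem_sdiff.1 hp).1).1).1.le)
        fun p hp => (fac4 (Finset.mem_Icc.1 (Finset.mem_sdiff.1 hp).1).1).2
    unfold qd
    linarith [h2.trans h3]
  have hbdd : BddBelow (Set.range qd) := ⟨1, by rintro _ ⟨y, rfl⟩; exact hlow y⟩
  have hlim := tendsto_atTop_ciInf hanti hbdd
  exact ⟨⨅ i, qd i, lt_of_lt_of_le one_pos (ge_of_tendsto' hlim hlow), hlim⟩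

end Pool.Agent.N740.HK
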