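import Mathlib
import Pool.Agent.N740.HK.Fl4

/-!
# The joint limit set of two parts of the windows: the unit disc
-/

set_option autoImplicit false
set_option linter.unusedSectionVars false

open MeasureTheory Filter Set
open scoped ENNReal Topology

namespace Pool.Agent.N740.HK

open Pool.Agent.R528.RM

/-- the deterministic part -/
theorem disc_det {X Y Z : ℕ → ℝ}
    (hU : ∀ a b c : ℤ, ∀ ε : ℝ, 0 < ε → ∀ᶠ k in atTop, a * X k + b * Y k + c * Z k ≤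
      (1 + ε) * Real.sqrt ((a : ℝ) ^ 2 + (b : ℝ) ^ 2 + (c : ℝ) ^ 2))
    (hL : ∀ a b c : ℤ, ∀ ε : ℝ, 0 < ε → ∃ᶠ k in atTop,
      (1 - ε) * Real.sqrt ((a : ℝ) ^ 2 + (b : ℝ) ^ 2 + (c : ℝ) ^ 2) ≤ a * X k + b * Y k + c * Z k) :
    (∀ ε : ℝ, 0 < ε → ∀ᶠ k in atTop, X k ^ 2 + Y k ^ 2 + Z k ^ 2 ≤ 1 + ε) ∧
    ∀ x y : ℝ, x ^ 2 + y ^ 2 ≤ 1 → ∀ ε : ℝ, 0 < ε → ∃ᶠ k in atTop, |X k - x| < ε ∧ |Y k - y| < ε := by
  have b1 : ∀ᶠ k in atTop, |X k| ≤ 2 ∧ |Y k| ≤ 2 ∧ |Z k| ≤ 2 := by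
    have h1 := hU 1 0 0 1 one_pos
    have h2 := hU (-1) 0 0 1 one_pos
    have h3 := hU 0 1 0 1 one_pos
    have h4 := hU 0 (-1) 0 1 one_pos
    have h5 := hU 0 0 1 1 one_pos
    have h6 := hU 0 0 (-1) 1 one_pos
    filter_upwards [h1, h2, h3, h4, h5, h6] with k g1 g2 g3 g4 g5 g6
    norm_num at g1 g2 g3 g4 g5 g6
    refine ⟨abs_le.2 ⟨by linarith, by linarith⟩, abs_le.2 ⟨by linarith, by linarith⟩, abs_le.2 ⟨by linarith, by linarith⟩⟩
  have fl : ∀ (N : ℕ), 0 < N → ∀ x : ℝ, |x| ≤ 2 → |x - ⌊N * x⌋ / N| ≤ 1 / N ∧ ⌊N * x⌋ ∈ Finset.Icc (-(2 * N : ℤ)) (2 * N) := by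
    intro N hN x hx
    have hN' : (0 : ℝ) < N := by exact_mod_cast hN
    have h1 := Int.floor_le (N * x)
    have h2 := Int.lt_floor_add_one (N * x)
    have hx' := abs_le.1 hx
    constructor
    · rw [abs_le]
      have e : x - ⌊N * x⌋ / N = (N * x - ⌊N * x⌋) / N := by field_simp
      rw [e]
      constructor
      · have : (0 : ℝ) ≤ (N * x - ⌊N * x⌋) / N := div_nonneg (by linarith) hN'.le
        have h3 : (0 : ℝ) ≤ 1 / N := by positivity
        linarith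
      · exact div_le_div_of_nonneg_right (by linarith) hN'.le
    · rw [Finset.mem_Icc]
      constructor
      · rw [Int.le_floor]
        push_cast
        nlinarith
      · have : (⌊N * x⌋ : ℝ) ≤ 2 * N := h1.trans (by nlinarith)
        exact_mod_cast this
  have sq3 : ∀ a b c : ℝ, ∀ a' b' c' d : ℝ, 0 ≤ d → |a - a'| ≤ d → |b - b'| ≤ d → |c - c'| ≤ d →
      Real.sqrt (a ^ 2 + b ^ 2 + c ^ 2) ≤ Real.sqrt (a' ^ 2 + b' ^ 2 + c' ^ 2) + 2 * d := by
    intro a b c a' b' c' d hd h1 h2 h3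
    rw [Real.sqrt_le_left (by positivity)]
    set s : ℝ := Real.sqrt (a' ^ 2 + b' ^ 2 + c' ^ 2) with hs
    have hs2 : s ^ 2 = a' ^ 2 + b' ^ 2 + c' ^ 2 := Real.sq_sqrt (by positivity)
    have hs0 : 0 ≤ s := Real.sqrt_nonneg _
    have e1 : ∀ u u' : ℝ, |u - u'| ≤ d → (u - u') ^ 2 ≤ d ^ 2 := fun u u' h => by
      rw [← sq_abs]
      exact pow_le_pow_left₀ (abs_nonneg _) h 2
    have k1 := e1 _ _ h1
    have k2 := e1 _ _ h2
    have k3 := e1 _ _ h3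
    -- Cauchy
    have k4 : a' * (a - a') + b' * (b - b') + c' * (c - c') ≤ s * (2 * d) := by
      have k5 : (a' * (a - a') + b' * (b - b') + c' * (c - c')) ^ 2 ≤
          (a' ^ 2 + b' ^ 2 + c' ^ 2) * ((a - a') ^ 2 + (b - b') ^ 2 + (c - c') ^ 2) := by
        nlinarith [sq_nonneg (a' * (b - b') - b' * (a - a')), sq_nonneg (a' * (c - c') - c' * (a - a')),
          sq_nonneg (b' * (c - c') - c' * (b - b'))]
      have k6 : (a' ^ 2 + b' ^ 2 + c' ^ 2) * ((a - a') ^ 2 + (b - b') ^ 2 + (c - c') ^ 2) ≤ (s * (2 * d)) ^ 2 := by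
        rw [← hs2, mul_pow]
        apply mul_le_mul_of_nonneg_left _ (sq_nonneg _)
        nlinarith
      exact abs_le_of_sq_le_sq' (k5.trans k6) (by positivity) |>.2
    nlinarith [sq_nonneg d]
  have part1 : ∀ ε : ℝ, 0 < ε → ∀ᶠ k in atTop, X k ^ 2 + Y k ^ 2 + Z k ^ 2 ≤ 1 + ε := by
    intro ε hε
    set e : ℝ := min ε 1 / 32 with he
    have he0 : 0 < e := by positivity
    have he1 : e ≤ ε / 32 := by rw [he]; linarith [min_le_left ε 1]
    have he2 : e ≤ 1 / 32 := by rw [he]; linarith [min_le_right ε 1]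
    obtain ⟨N, hN⟩ := exists_nat_gt (1 / e)
    have hN0' : (0 : ℝ) < N := lt_trans (by positivity) hN
    have hN0 : 0 < N := by exact_mod_cast hN0'
    have hNe : 1 / (N : ℝ) ≤ e := by
      rw [div_le_iff₀ hN0']
      rw [div_lt_iff₀ he0] at hN
      linarith
    have hall : ∀ᶠ k in atTop, ∀ p ∈ (Finset.Icc (-(2 * N : ℤ)) (2 * N)) ×ˢ ((Finset.Icc (-(2 * N : ℤ)) (2 * N)) ×ˢ
        (Finset.Icc (-(2 * N : ℤ)) (2 * N))), p.1 * X k + p.2.1 * Y k + p.2.2 * Z k ≤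
      (1 + e) * Real.sqrt ((p.1 : ℝ) ^ 2 + (p.2.1 : ℝ) ^ 2 + (p.2.2 : ℝ) ^ 2) := by
      rw [eventually_all_finset]
      intro p _
      exact hU _ _ _ e he0
    filter_upwards [b1, hall] with k hb hk
    obtain ⟨hx1, hy1, hz1⟩ := hb
    obtain ⟨fx, fx'⟩ := fl N hN0 _ hx1
    obtain ⟨fy, fy'⟩ := fl N hN0 _ hy1
    obtain ⟨fz, fz'⟩ := fl N hN0 _ hz1
    have h1 := hk (⌊N * X k⌋, ⌊N * Y k⌋, ⌊N * Z k⌋) (by simp only [Finset.mem_product]; exact ⟨fx', fy', fz'⟩)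
    simp only at h1
    set x : ℝ := X k
    set y : ℝ := Y k
    set z : ℝ := Z k
    set p : ℝ := (⌊N * x⌋ : ℝ) / N with hp
    set q : ℝ := (⌊N * y⌋ : ℝ) / N with hq
    set r : ℝ := (⌊N * z⌋ : ℝ) / N with hr
    have hsc : Real.sqrt ((⌊N * x⌋ : ℝ) ^ 2 + (⌊N * y⌋ : ℝ) ^ 2 + (⌊N * z⌋ : ℝ) ^ 2) = N * Real.sqrt (p ^ 2 + q ^ 2 + r ^ 2) := by
      have : (⌊N * x⌋ : ℝ) ^ 2 + (⌊N * y⌋ : ℝ) ^ 2 + (⌊N * z⌋ : ℝ) ^ 2 = (N : ℝ) ^ 2 * (p ^ 2 + q ^ 2 + r ^ 2) := by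
        rw [hp, hq, hr]
        field_simp
      rw [this, Real.sqrt_mul (by positivity), Real.sqrt_sq hN0'.le]
    rw [hsc] at h1
    have h2 : p * x + q * y + r * z ≤ (1 + e) * Real.sqrt (p ^ 2 + q ^ 2 + r ^ 2) := by
      have h3 : (⌊N * x⌋ : ℝ) * x + ⌊N * y⌋ * y + ⌊N * z⌋ * z = N * (p * x + q * y + r * z) := by
        rw [hp, hq, hr]
        field_simp
      rw [h3] at h1
      have h4 : (N : ℝ) * (p * x + q * y + r * z) ≤ N * ((1 + e) * Real.sqrt (p ^ 2 + q ^ 2 + r ^ 2)) := by linarith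
      exact le_of_mul_le_mul_left h4 hN0'
    set s : ℝ := Real.sqrt (x ^ 2 + y ^ 2 + z ^ 2) with hs
    have hs2 : s ^ 2 = x ^ 2 + y ^ 2 + z ^ 2 := Real.sq_sqrt (by positivity)
    have hs0 : 0 ≤ s := Real.sqrt_nonneg _
    have h5 : Real.sqrt (p ^ 2 + q ^ 2 + r ^ 2) ≤ s + 2 * e :=
      sq3 p q r x y z e he0.le (by rw [abs_sub_comm]; exact fx.trans hNe) (by rw [abs_sub_comm]; exact fy.trans hNe)
        (by rw [abs_sub_comm]; exact fz.trans hNe)
    have hm : ∀ u u' : ℝ, |u| ≤ 2 → |u - u'| ≤ e → u * u ≤ u' * u + 2 * e := by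
      intro u u' h6 h7
      have h8 : (u - u') * u ≤ e * 2 := by
        calc (u - u') * u ≤ |(u - u') * u| := le_abs_self _
          _ = |u - u'| * |u| := abs_mul _ _
          _ ≤ e * 2 := mul_le_mul h7 h6 (abs_nonneg _) he0.le
      linarith
    have h6 := hm x p hx1 (fx.trans hNe)
    have h7 := hm y q hy1 (fy.trans hNe)
    have h8 := hm z r hz1 (fz.trans hNe)
    have h9 : s ^ 2 ≤ (1 + e) * (s + 2 * e) + 6 * e := by
      have : (1 + e) * Real.sqrt (p ^ 2 + q ^ 2 + r ^ 2) ≤ (1 + e) * (s + 2 * e) := mul_le_mul_of_nonneg_left h5 (by linarith)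
      nlinarith
    have h10 : s ≤ 1 + 10 * e := by
      by_contra hcon
      push Not at hcon
      nlinarith
    rw [← hs2]
    nlinarith
  refine ⟨part1, fun x y hxy ε hε => ?_⟩
  set z : ℝ := Real.sqrt (1 - x ^ 2 - y ^ 2) with hz
  have hz2 : z ^ 2 = 1 - x ^ 2 - y ^ 2 := Real.sq_sqrt (by linarith)
  have hv : x ^ 2 + y ^ 2 + z ^ 2 = 1 := by rw [hz2]; ring
  have hone : ∀ u : ℝ, u ^ 2 ≤ 1 → |u| ≤ 2 := fun u hu => by
    rw [abs_le]
    constructor <;> nlinarith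
  have hx1 := hone x (by nlinarith [sq_nonneg y])
  have hy1 := hone y (by nlinarith [sq_nonneg x])
  have hz1 := hone z (by nlinarith [sq_nonneg x, sq_nonneg y])
  set e : ℝ := min (ε ^ 2) 1 / 64 with he
  have he0 : 0 < e := by positivity
  have he1 : e ≤ ε ^ 2 / 64 := by rw [he]; linarith [min_le_left (ε ^ 2) 1]
  have he2 : e ≤ 1 / 64 := by rw [he]; linarith [min_le_right (ε ^ 2) 1]
  obtain ⟨N, hN⟩ := exists_nat_gt (1 / e)
  have hN0' : (0 : ℝ) < N := lt_trans (by positivity) hN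
  have hN0 : 0 < N := by exact_mod_cast hN0'
  have hNe : 1 / (N : ℝ) ≤ e := by
    rw [div_le_iff₀ hN0']
    rw [div_lt_iff₀ he0] at hN
    linarith
  refine ((hL ⌊N * x⌋ ⌊N * y⌋ ⌊N * z⌋ e he0).and_eventually (b1.and (part1 e he0))).mono ?_
  rintro k ⟨h1, ⟨hX, hY, hZ⟩, h3⟩
  have fx := (fl N hN0 _ hx1).1.trans hNe
  have fy := (fl N hN0 _ hy1).1.trans hNe
  have fz := (fl N hN0 _ hz1).1.trans hNe
  set p : ℝ := (⌊N * x⌋ : ℝ) / N with hp
  set q : ℝ := (⌊N * y⌋ : ℝ) / N with hq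
  set r : ℝ := (⌊N * z⌋ : ℝ) / N with hr
  have hsc : Real.sqrt ((⌊N * x⌋ : ℝ) ^ 2 + (⌊N * y⌋ : ℝ) ^ 2 + (⌊N * z⌋ : ℝ) ^ 2) = N * Real.sqrt (p ^ 2 + q ^ 2 + r ^ 2) := by
    have : (⌊N * x⌋ : ℝ) ^ 2 + (⌊N * y⌋ : ℝ) ^ 2 + (⌊N * z⌋ : ℝ) ^ 2 = (N : ℝ) ^ 2 * (p ^ 2 + q ^ 2 + r ^ 2) := by
      rw [hp, hq, hr]
      field_simp
    rw [this, Real.sqrt_mul (by positivity), Real.sqrt_sq hN0'.le]
  rw [hsc] at h1
  have h2 : (1 - e) * Real.sqrt (p ^ 2 + q ^ 2 + r ^ 2) ≤ p * X k + q * Y k + r * Z k := by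
    have h4 : (⌊N * x⌋ : ℝ) * X k + ⌊N * y⌋ * Y k + ⌊N * z⌋ * Z k = N * (p * X k + q * Y k + r * Z k) := by
      rw [hp, hq, hr]
      field_simp
    rw [h4] at h1
    have h5 : (N : ℝ) * ((1 - e) * Real.sqrt (p ^ 2 + q ^ 2 + r ^ 2)) ≤ N * (p * X k + q * Y k + r * Z k) := by linarith
    exact le_of_mul_le_mul_left h5 hN0'
  have h5 : 1 ≤ Real.sqrt (p ^ 2 + q ^ 2 + r ^ 2) + 2 * e := by
    have := sq3 x y z p q r e he0.le fx fy fz
    rwa [hv, Real.sqrt_one] at this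
  have hm : ∀ u u' U : ℝ, |U| ≤ 2 → |u - u'| ≤ e → u' * U ≤ u * U + 2 * e := by
    intro u u' U h6 h7
    have h8 : (u' - u) * U ≤ e * 2 := by
      calc (u' - u) * U ≤ |(u' - u) * U| := le_abs_self _
        _ = |u' - u| * |U| := abs_mul _ _
        _ ≤ e * 2 := mul_le_mul (by rwa [abs_sub_comm]) h6 (abs_nonneg _) he0.le
    linarith
  have h6 := hm x p _ hX fx
  have h7 := hm y q _ hY fy
  have h8 := hm z r _ hZ fz
  have h9 : 1 - 10 * e ≤ x * X k + y * Y k + z * Z k := by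
    have : (1 - e) * (1 - 2 * e) ≤ (1 - e) * Real.sqrt (p ^ 2 + q ^ 2 + r ^ 2) :=
      mul_le_mul_of_nonneg_left (by linarith) (by linarith)
    nlinarith
  have h10 : (X k - x) ^ 2 + (Y k - y) ^ 2 + (Z k - z) ^ 2 ≤ 21 * e := by
    have : (X k - x) ^ 2 + (Y k - y) ^ 2 + (Z k - z) ^ 2 = (X k ^ 2 + Y k ^ 2 + Z k ^ 2) - 2 * (x * X k + y * Y k + z * Z k) +
      (x ^ 2 + y ^ 2 + z ^ 2) := by ring
    rw [this, hv]
    linarith
  have hε2 : 0 < ε ^ 2 := by positivity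
  have h11 : 21 * e < ε ^ 2 := by linarith
  constructor
  · exact abs_lt_of_sq_lt_sq (by nlinarith [sq_nonneg (Y k - y), sq_nonneg (Z k - z)]) hε.le
  · exact abs_lt_of_sq_lt_sq (by nlinarith [sq_nonneg (X k - x), sq_nonneg (Z k - z)]) hε.le

variable {Ω : Type} {m0 : MeasurableSpace Ω} {μ : Measure Ω} [IsProbabilityMeasure μ]
  {ℱ : Filtration ℕ m0} {A : ℕ → Set Ω}

/-- **the joint limit set** -/
theorem disc (hA : ∀ n, MeasurableSet[ℱ n] (A n))
    (hd : ∀ᵐ ω ∂μ, Tendsto (fun n : ℕ => dens μ ℱ A n ω * Real.log n) atTop (𝓝 1))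
    {T H : ℕ → ℕ} {σ₁ σ₂ σ₃ : ℕ → ℕ → ℝ} {W : ℕ → ℝ} (hσ₁ : ∀ k i, |σ₁ k i| ≤ 1) (hσ₂ : ∀ k i, |σ₂ k i| ≤ 1)
    (hσ₃ : ∀ k i, |σ₃ k i| ≤ 1) (hT : Tendsto T atTop atTop) (hH : ∀ᶠ k in atTop, H k ≤ T k)
    (hW0 : ∀ᶠ k in atTop, 0 < W k)
    (hG : ∀ a b c : ℝ, Tendsto (fun k => RW (fun i => a * σ₁ k i + b * σ₂ k i + c * σ₃ k i) (H k) 0 / W k) atTop
      (𝓝 (a ^ 2 + b ^ 2 + c ^ 2)))
    (hs : Tendsto (fun k : ℕ => Real.log k * Real.log (T k) / W k) atTop (𝓝 0)) (hTH : ∀ k, T k + H k ≤ T (k + 1)) :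
    ∀ᵐ ω ∂μ, (∀ ε : ℝ, 0 < ε → ∀ᶠ k in atTop,
        (SW μ ℱ A (σ₁ k) (T k) (H k) ω / MM (W k) (Real.log (T k)) (Real.log k)) ^ 2 +
        (SW μ ℱ A (σ₂ k) (T k) (H k) ω / MM (W k) (Real.log (T k)) (Real.log k)) ^ 2 +
        (SW μ ℱ A (σ₃ k) (T k) (H k) ω / MM (W k) (Real.log (T k)) (Real.log k)) ^ 2 ≤ 1 + ε) ∧
      ∀ x y : ℝ, x ^ 2 + y ^ 2 ≤ 1 → ∀ ε : ℝ, 0 < ε → ∃ᶠ k in atTop,
        |SW μ ℱ A (σ₁ k) (T k) (H k) ω / MM (W k) (Real.log (T k)) (Real.log k) - x| < ε ∧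
        |SW μ ℱ A (σ₂ k) (T k) (H k) ω / MM (W k) (Real.log (T k)) (Real.log k) - y| < ε := by
  have hTl : Tendsto (fun k : ℕ => Real.log (T k)) atTop atTop :=
    Real.tendsto_log_atTop.comp (tendsto_natCast_atTop_atTop.comp hT)
  have main : ∀ a b c : ℤ, ∀ᵐ ω ∂μ, ∀ ε : ℝ, 0 < ε →
      (∀ᶠ k in atTop, a * (SW μ ℱ A (σ₁ k) (T k) (H k) ω / MM (W k) (Real.log (T k)) (Real.log k)) +
        b * (SW μ ℱ A (σ₂ k) (T k) (H k) ω / MM (W k) (Real.log (T k)) (Real.log k)) +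
        c * (SW μ ℱ A (σ₃ k) (T k) (H k) ω / MM (W k) (Real.log (T k)) (Real.log k)) ≤
        (1 + ε) * Real.sqrt ((a : ℝ) ^ 2 + (b : ℝ) ^ 2 + (c : ℝ) ^ 2)) ∧
      (∃ᶠ k in atTop, (1 - ε) * Real.sqrt ((a : ℝ) ^ 2 + (b : ℝ) ^ 2 + (c : ℝ) ^ 2) ≤
        a * (SW μ ℱ A (σ₁ k) (T k) (H k) ω / MM (W k) (Real.log (T k)) (Real.log k)) +
        b * (SW μ ℱ A (σ₂ k) (T k) (H k) ω / MM (W k) (Real.log (T k)) (Real.log k)) +
        c * (SW μ ℱ A (σ₃ k) (T k) (H k) ω / MM (W k) (Real.log (T k)) (Real.log k))) := by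
    intro a b c
    by_cases h0 : (a : ℝ) ^ 2 + (b : ℝ) ^ 2 + (c : ℝ) ^ 2 = 0
    · have ha : (a : ℝ) = 0 := by nlinarith [sq_nonneg (a : ℝ), sq_nonneg (b : ℝ), sq_nonneg (c : ℝ)]
      have hb : (b : ℝ) = 0 := by nlinarith [sq_nonneg (a : ℝ), sq_nonneg (b : ℝ), sq_nonneg (c : ℝ)]
      have hc : (c : ℝ) = 0 := by nlinarith [sq_nonneg (a : ℝ), sq_nonneg (b : ℝ), sq_nonneg (c : ℝ)]
      refine Eventually.of_forall fun ω ε hε => ?_
      rw [ha, hb, hc]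
      constructor
      · exact Eventually.of_forall fun k => by simp
      · exact (Eventually.of_forall fun k => by simp).frequently
    · have hpos : 0 < (a : ℝ) ^ 2 + (b : ℝ) ^ 2 + (c : ℝ) ^ 2 := lt_of_le_of_ne (by positivity) (Ne.symm h0)
      set S : ℝ := (a : ℝ) ^ 2 + (b : ℝ) ^ 2 + (c : ℝ) ^ 2 with hS
      set C : ℝ := |(a : ℝ)| + |(b : ℝ)| + |(c : ℝ)| + 1 with hC
      have hC0 : 0 < C := by positivity
      set τ : ℕ → ℕ → ℝ := fun k i => (a / C) * σ₁ k i + (b / C) * σ₂ k i + (c / C) * σ₃ k i with hτ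
      have hτ1 : ∀ k i, |τ k i| ≤ 1 := by
        intro k i
        have e1 : τ k i = (a * σ₁ k i + b * σ₂ k i + c * σ₃ k i) / C := by simp only [hτ]; field_simp
        rw [e1, abs_div, abs_of_pos hC0, div_le_one hC0]
        have e2 : ∀ u v : ℝ, |v| ≤ 1 → |u * v| ≤ |u| := fun u v hv => by
          rw [abs_mul]
          exact mul_le_of_le_one_right (abs_nonneg _) hv
        have e3 := e2 a _ (hσ₁ k i)
        have e4 := e2 b _ (hσ₂ k i)
        have e5 := e2 c _ (hσ₃ k i)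
        have e6 := abs_add_le ((a : ℝ) * σ₁ k i + b * σ₂ k i) (c * σ₃ k i)
        have e7 := abs_add_le ((a : ℝ) * σ₁ k i) (b * σ₂ k i)
        linarith
      set V : ℕ → ℝ := fun k => RW (τ k) (H k) 0 with hV
      have hVW : Tendsto (fun k => V k / W k) atTop (𝓝 (S / C ^ 2)) := by
        have h1 := hG (a / C) (b / C) (c / C)
        have e1 : ((a : ℝ) / C) ^ 2 + ((b : ℝ) / C) ^ 2 + ((c : ℝ) / C) ^ 2 = S / C ^ 2 := by
          rw [hS]; field_simp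
        rw [e1] at h1
        exact h1
      have hSC : 0 < S / C ^ 2 := by positivity
      have hV0 : ∀ᶠ k in atTop, 0 < V k := by
        filter_upwards [hVW.eventually_const_lt hSC, hW0] with k h1 h2
        by_contra hcon
        push Not at hcon
        have := div_nonpos_of_nonpos_of_nonneg hcon h2.le
        linarith
      have hsV : Tendsto (fun k : ℕ => Real.log k * Real.log (T k) / V k) atTop (𝓝 0) := by
        have h1 := hs.mul (hVW.inv₀ hSC.ne')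
        rw [zero_mul] at h1
        refine h1.congr' ?_
        filter_upwards [hV0, hW0] with k h2 h3
        field_simp
      have hrat : Tendsto (fun k => C * (MM (V k) (Real.log (T k)) (Real.log k) / MM (W k) (Real.log (T k)) (Real.log k))) atTop
          (𝓝 (Real.sqrt S)) := by
        have h1 := (hVW.sqrt).const_mul C
        have e1 : C * Real.sqrt (S / C ^ 2) = Real.sqrt S := by
          rw [Real.sqrt_div hpos.le, Real.sqrt_sq hC0.le]
          field_simp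
        rw [e1] at h1
        refine h1.congr' ?_
        filter_upwards [hV0, hW0, hTl.eventually_gt_atTop 0, eventually_ge_atTop 3] with k h2 h3 h4 h5
        have hΛ : 0 < Real.log (k : ℝ) := Real.log_pos (by exact_mod_cast (by omega : 1 < k))
        unfold MM
        rw [← Real.sqrt_div (by positivity)]
        congr 2
        field_simp
      have hMpos : ∀ᶠ k in atTop, 0 < MM (W k) (Real.log (T k)) (Real.log k) := by
        filter_upwards [hW0, hTl.eventually_gt_atTop 0, eventually_ge_atTop 3] with k h3 h4 h5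
        have hΛ : 0 < Real.log (k : ℝ) := Real.log_pos (by exact_mod_cast (by omega : 1 < k))
        exact Real.sqrt_pos.2 (by positivity)
      have hlin : ∀ k ω, a * (SW μ ℱ A (σ₁ k) (T k) (H k) ω / MM (W k) (Real.log (T k)) (Real.log k)) +
        b * (SW μ ℱ A (σ₂ k) (T k) (H k) ω / MM (W k) (Real.log (T k)) (Real.log k)) +
        c * (SW μ ℱ A (σ₃ k) (T k) (H k) ω / MM (W k) (Real.log (T k)) (Real.log k)) =
        C * SW μ ℱ A (τ k) (T k) (H k) ω / MM (W k) (Real.log (T k)) (Real.log k) := by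
        intro k ω
        have e1 : C * SW μ ℱ A (τ k) (T k) (H k) ω = a * SW μ ℱ A (σ₁ k) (T k) (H k) ω + b * SW μ ℱ A (σ₂ k) (T k) (H k) ω +
            c * SW μ ℱ A (σ₃ k) (T k) (H k) ω := by
          unfold SW
          rw [Finset.mul_sum, Finset.mul_sum, Finset.mul_sum, Finset.mul_sum, ← Finset.sum_add_distrib, ← Finset.sum_add_distrib]
          refine Finset.sum_congr rfl fun i _ => ?_
          simp only [hτ]
          field_simp
        rw [e1]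
        ring
      filter_upwards [seq_upper (μ := μ) hA hd hτ1 hT hH hV0 (Eventually.of_forall fun k => le_rfl) hsV,
        seq_lower (μ := μ) hA hd hτ1 hT hH hV0 (Eventually.of_forall fun k => rfl) hsV hTH] with ω h1 h2 ε hε
      have hsq : 0 < Real.sqrt S := Real.sqrt_pos.2 hpos
      have hmin : 0 < min ε 1 := lt_min hε one_pos
      constructor
      · have h3 := h1 (min ε 1 / 4) (by positivity)
        have h4 : ∀ᶠ k in atTop, C * (MM (V k) (Real.log (T k)) (Real.log k) / MM (W k) (Real.log (T k)) (Real.log k)) ≤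
            (1 + min ε 1 / 4) * Real.sqrt S := hrat.eventually_le_const (by nlinarith)
        filter_upwards [h3, h4, hMpos] with k h5 h6 h7
        rw [hlin]
        have h8 := h5 (H k) le_rfl
        have m1 : min ε 1 ≤ ε := min_le_left _ _
        have m2 : min ε 1 ≤ 1 := min_le_right _ _
        calc C * SW μ ℱ A (τ k) (T k) (H k) ω / MM (W k) (Real.log (T k)) (Real.log k)
            ≤ C * ((1 + min ε 1 / 4) * MM (V k) (Real.log (T k)) (Real.log k)) / MM (W k) (Real.log (T k)) (Real.log k) :=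
              div_le_div_of_nonneg_right (mul_le_mul_of_nonneg_left h8 hC0.le) h7.le
          _ = (1 + min ε 1 / 4) * (C * (MM (V k) (Real.log (T k)) (Real.log k) / MM (W k) (Real.log (T k)) (Real.log k))) := by ring
          _ ≤ (1 + min ε 1 / 4) * ((1 + min ε 1 / 4) * Real.sqrt S) := mul_le_mul_of_nonneg_left h6 (by linarith)
          _ ≤ (1 + ε) * Real.sqrt S := by
              rw [← mul_assoc]
              apply mul_le_mul_of_nonneg_right _ hsq.le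
              nlinarith
      · have h3 : ∃ᶠ k in atTop, (1 - min ε 1 / 4) * MM (V k) (Real.log (T k)) (Real.log k) ≤ SW μ ℱ A (τ k) (T k) (H k) ω := by
          rw [frequently_atTop]
          exact fun K => h2 (min ε 1 / 4) (by positivity) K
        have h4 : ∀ᶠ k in atTop, (1 - min ε 1 / 4) * Real.sqrt S ≤
            C * (MM (V k) (Real.log (T k)) (Real.log k) / MM (W k) (Real.log (T k)) (Real.log k)) :=
          hrat.eventually_const_le (by nlinarith)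
        refine (h3.and_eventually (h4.and hMpos)).mono ?_
        rintro k ⟨h5, h6, h7⟩
        rw [hlin]
        have m1 : min ε 1 ≤ ε := min_le_left _ _
        have m2 : min ε 1 ≤ 1 := min_le_right _ _
        calc (1 - ε) * Real.sqrt S ≤ (1 - min ε 1 / 4) * ((1 - min ε 1 / 4) * Real.sqrt S) := by
              rw [← mul_assoc]
              apply mul_le_mul_of_nonneg_right _ hsq.le
              nlinarith
          _ ≤ (1 - min ε 1 / 4) * (C * (MM (V k) (Real.log (T k)) (Real.log k) / MM (W k) (Real.log (T k)) (Real.log k))) :=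
              mul_le_mul_of_nonneg_left h6 (by linarith)
          _ = C * ((1 - min ε 1 / 4) * MM (V k) (Real.log (T k)) (Real.log k)) / MM (W k) (Real.log (T k)) (Real.log k) := by ring
          _ ≤ _ := div_le_div_of_nonneg_right (mul_le_mul_of_nonneg_left h5 hC0.le) h7.le
  have hall : ∀ᵐ ω ∂μ, ∀ p : ℤ × ℤ × ℤ, ∀ ε : ℝ, 0 < ε →
      (∀ᶠ k in atTop, p.1 * (SW μ ℱ A (σ₁ k) (T k) (H k) ω / MM (W k) (Real.log (T k)) (Real.log k)) +
        p.2.1 * (SW μ ℱ A (σ₂ k) (T k) (H k) ω / MM (W k) (Real.log (T k)) (Real.log k)) +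
        p.2.2 * (SW μ ℱ A (σ₃ k) (T k) (H k) ω / MM (W k) (Real.log (T k)) (Real.log k)) ≤
        (1 + ε) * Real.sqrt ((p.1 : ℝ) ^ 2 + (p.2.1 : ℝ) ^ 2 + (p.2.2 : ℝ) ^ 2)) ∧
      (∃ᶠ k in atTop, (1 - ε) * Real.sqrt ((p.1 : ℝ) ^ 2 + (p.2.1 : ℝ) ^ 2 + (p.2.2 : ℝ) ^ 2) ≤
        p.1 * (SW μ ℱ A (σ₁ k) (T k) (H k) ω / MM (W k) (Real.log (T k)) (Real.log k)) +
        p.2.1 * (SW μ ℱ A (σ₂ k) (T k) (H k) ω / MM (W k) (Real.log (T k)) (Real.log k)) +
        p.2.2 * (SW μ ℱ A (σ₃ k) (T k) (H k) ω / MM (W k) (Real.log (T k)) (Real.log k))) :=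
    ae_all_iff.2 fun p => main p.1 p.2.1 p.2.2
  filter_upwards [hall] with ω hω
  exact disc_det (fun a b c ε hε => (hω (a, b, c) ε hε).1) (fun a b c ε hε => (hω (a, b, c) ε hε).2)

end Pool.Agent.N740.HK
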