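import Mathlib
import Pool.Agent.N740.HK.Disc

/-!
# The two intervals of Oppermann
-/

set_option autoImplicit false
set_option linter.unusedSectionVars false

open MeasureTheory Filter Set
open scoped ENNReal Topology

namespace Pool.Agent.N740.HK

open Pool.Agent.R528.RM

/-- left interval -/
noncomputable def sL (n i : ℕ) : ℝ := if i + 1 < n then 1 else 0
/-- right interval -/
noncomputable def sR (n i : ℕ) : ℝ := if n ≤ i ∧ i + 1 < 2 * n then 1 else 0
/-- left interval, alternating -/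
noncomputable def sA (n i : ℕ) : ℝ := if i + 1 < n then (-1) ^ i else 0

lemma sL_abs (n i : ℕ) : |sL n i| ≤ 1 := by unfold sL; split_ifs <;> simp
lemma sR_abs (n i : ℕ) : |sR n i| ≤ 1 := by unfold sR; split_ifs <;> simp
lemma sA_abs (n i : ℕ) : |sA n i| ≤ 1 := by unfold sA; split_ifs <;> simp

lemma split_sum (F : ℕ → ℝ → ℝ → ℝ → ℝ) (hF : ∀ i, F i 0 0 0 = 0) (m : ℕ) :
    ∑ i ∈ Finset.range (2 * (m + 1)), F i (sL (m + 1) i) (sR (m + 1) i) (sA (m + 1) i) =
      ∑ i ∈ Finset.range m, F i 1 0 ((-1) ^ i) + ∑ i ∈ Finset.range m, F (m + 1 + i) 0 1 0 := by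
  rw [two_mul, Finset.sum_range_add, Finset.sum_range_succ, Finset.sum_range_succ]
  have e1 : ∀ i ∈ Finset.range m, F i (sL (m + 1) i) (sR (m + 1) i) (sA (m + 1) i) = F i 1 0 ((-1) ^ i) := by
    intro i hi
    have hi := Finset.mem_range.1 hi
    unfold sL sR sA
    rw [if_pos (by omega), if_neg (by omega), if_pos (by omega)]
  have e2 : ∀ i ∈ Finset.range m, F (m + 1 + i) (sL (m + 1) (m + 1 + i)) (sR (m + 1) (m + 1 + i)) (sA (m + 1) (m + 1 + i)) =
      F (m + 1 + i) 0 1 0 := by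
    intro i hi
    have hi := Finset.mem_range.1 hi
    unfold sL sR sA
    rw [if_neg (by omega), if_pos (by omega), if_neg (by omega)]
  have e3 : F m (sL (m + 1) m) (sR (m + 1) m) (sA (m + 1) m) = 0 := by
    unfold sL sR sA
    rw [if_neg (by omega), if_neg (by omega), if_neg (by omega)]
    exact hF m
  have e4 : F (m + 1 + m) (sL (m + 1) (m + 1 + m)) (sR (m + 1) (m + 1 + m)) (sA (m + 1) (m + 1 + m)) = 0 := by
    unfold sL sR sA
    rw [if_neg (by omega), if_neg (by omega), if_neg (by omega)]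
    exact hF _
  rw [Finset.sum_congr rfl e1, Finset.sum_congr rfl e2, e3, e4, add_zero, add_zero]

lemma alt_sum (m : ℕ) : |∑ i ∈ Finset.range m, (-1 : ℝ) ^ i| ≤ 1 := by
  have h : ∑ i ∈ Finset.range m, (-1 : ℝ) ^ i = if Even m then 0 else 1 := by
    induction m with
    | zero => simp
    | succ m ih =>
      rw [Finset.sum_range_succ, ih]
      by_cases h : Even m
      · have h2 : ¬ Even (m + 1) := by rw [Nat.even_add_one]; exact not_not.2 h
        rw [if_pos h, if_neg h2, h.neg_one_pow]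
        norm_num
      · have h2 : Even (m + 1) := by rw [Nat.even_add_one]; exact h
        rw [if_neg h, if_pos h2, (Nat.not_even_iff_odd.1 h).neg_one_pow]
        norm_num
  rw [h]
  split_ifs <;> simp

lemma gram (a b c : ℝ) (m : ℕ) : RW (fun i => a * sL (m + 1) i + b * sR (m + 1) i + c * sA (m + 1) i) (2 * (m + 1)) 0 =
    m * (a ^ 2 + b ^ 2 + c ^ 2) + 2 * a * c * ∑ i ∈ Finset.range m, (-1 : ℝ) ^ i := by
  unfold RW
  rw [← Finset.range_eq_Ico]
  have h := split_sum (fun _ u v w => (a * u + b * v + c * w) ^ 2) (fun i => by simp) m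
  rw [h]
  have e1 : ∀ i ∈ Finset.range m, (a * 1 + b * 0 + c * (-1 : ℝ) ^ i) ^ 2 = (a ^ 2 + c ^ 2) + 2 * a * c * (-1 : ℝ) ^ i := by
    intro i _
    have : ((-1 : ℝ) ^ i) ^ 2 = 1 := by rw [← pow_mul, mul_comm, pow_mul]; norm_num
    linear_combination c ^ 2 * this
  rw [Finset.sum_congr rfl e1, Finset.sum_add_distrib, ← Finset.mul_sum]
  simp only [Finset.sum_const, Finset.card_range, nsmul_eq_mul]
  ring

lemma gram_lim (a b c : ℝ) : Tendsto (fun n : ℕ => RW (fun i => a * sL n i + b * sR n i + c * sA n i) (2 * n) 0 / (n : ℝ)) atTop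
    (𝓝 (a ^ 2 + b ^ 2 + c ^ 2)) := by
  rw [← tendsto_add_atTop_iff_nat 1]
  have h1 : Tendsto (fun m : ℕ => (1 : ℝ) / ((m : ℝ) + 1)) atTop (𝓝 0) := tendsto_one_div_add_atTop_nhds_zero_nat
  have h2 : Tendsto (fun m : ℕ => (∑ i ∈ Finset.range m, (-1 : ℝ) ^ i) * (1 / ((m : ℝ) + 1))) atTop (𝓝 0) := by
    refine squeeze_zero_norm (fun m => ?_) h1
    rw [norm_mul, Real.norm_eq_abs, Real.norm_of_nonneg (by positivity : (0 : ℝ) ≤ 1 / ((m : ℝ) + 1))]
    exact mul_le_of_le_one_left (by positivity) (alt_sum m)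
  have h3 := ((h1.const_mul (a ^ 2 + b ^ 2 + c ^ 2)).const_sub (a ^ 2 + b ^ 2 + c ^ 2)).add (h2.const_mul (2 * a * c))
  rw [mul_zero, mul_zero, sub_zero, add_zero] at h3
  refine h3.congr fun m => ?_
  have : ((m : ℝ) + 1) ≠ 0 := by positivity
  rw [gram]
  push_cast
  field_simp
  ring

lemma log_T : Tendsto (fun n : ℕ => Real.log ((n * n - n : ℕ) : ℝ) / Real.log n) atTop (𝓝 2) := by
  have hl : Tendsto (fun n : ℕ => Real.log (n : ℝ)) atTop atTop := Real.tendsto_log_atTop.comp tendsto_natCast_atTop_atTop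
  have h1 : Tendsto (fun n : ℕ => 2 - Real.log 2 / Real.log (n : ℝ)) atTop (𝓝 2) := by
    have := (hl.const_div_atTop (Real.log 2)).const_sub 2
    rwa [sub_zero] at this
  refine tendsto_of_tendsto_of_tendsto_of_le_of_le' h1 tendsto_const_nhds ?_ ?_
  · filter_upwards [eventually_ge_atTop 3] with n hn
    have hn3 : (3 : ℝ) ≤ n := by exact_mod_cast hn
    have hlog : 0 < Real.log (n : ℝ) := Real.log_pos (by linarith)
    rw [Nat.cast_sub (by nlinarith), Nat.cast_mul]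
    rw [le_div_iff₀ hlog, sub_mul, div_mul_cancel₀ _ hlog.ne']
    have : Real.log ((n : ℝ) * n / 2) ≤ Real.log ((n : ℝ) * n - n) := Real.log_le_log (by positivity) (by nlinarith)
    rw [Real.log_div (by positivity) (by norm_num), Real.log_mul (by positivity) (by positivity)] at this
    linarith
  · filter_upwards [eventually_ge_atTop 3] with n hn
    have hn3 : (3 : ℝ) ≤ n := by exact_mod_cast hn
    have hlog : 0 < Real.log (n : ℝ) := Real.log_pos (by linarith)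
    rw [Nat.cast_sub (by nlinarith), Nat.cast_mul, div_le_iff₀ hlog]
    have : Real.log ((n : ℝ) * n - n) ≤ Real.log ((n : ℝ) * n) := Real.log_le_log (by nlinarith) (by linarith)
    rw [Real.log_mul (by positivity) (by positivity)] at this
    linarith

lemma MM_lim : Tendsto (fun n : ℕ => MM (n : ℝ) (Real.log ((n * n - n : ℕ) : ℝ)) (Real.log n) / Real.sqrt n) atTop (𝓝 1) := by
  have hl : Tendsto (fun n : ℕ => Real.log (n : ℝ)) atTop atTop := Real.tendsto_log_atTop.comp tendsto_natCast_atTop_atTop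
  have h1 := ((log_T.inv₀ (by norm_num)).const_mul 2).sqrt
  have e1 : Real.sqrt (2 * (2 : ℝ)⁻¹) = 1 := by norm_num
  rw [e1] at h1
  refine h1.congr' ?_
  filter_upwards [log_T.eventually_const_lt (show (1 : ℝ) < 2 by norm_num), eventually_ge_atTop 3] with n h2 hn
  have hn3 : (3 : ℝ) ≤ n := by exact_mod_cast hn
  have hlog : 0 < Real.log (n : ℝ) := Real.log_pos (by linarith)
  have hT : 0 < Real.log ((n * n - n : ℕ) : ℝ) := by
    rw [lt_div_iff₀ hlog] at h2
    linarith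
  unfold MM
  rw [← Real.sqrt_div (by positivity)]
  congr 1
  field_simp

lemma small_T : Tendsto (fun n : ℕ => Real.log n * Real.log ((n * n - n : ℕ) : ℝ) / (n : ℝ)) atTop (𝓝 0) := by
  have h1 : Tendsto (fun x : ℝ => Real.log x ^ 2 / x) atTop (𝓝 0) := by
    have := isLittleO_log_rpow_rpow_atTop (s := 1) 2 one_pos
    simp only [Real.rpow_two, Real.rpow_one] at this
    exact this.tendsto_div_nhds_zero
  have h2 := (h1.comp tendsto_natCast_atTop_atTop).mul log_T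
  rw [zero_mul] at h2
  refine h2.congr' ?_
  filter_upwards [eventually_ge_atTop 3] with n hn
  have hn3 : (3 : ℝ) ≤ n := by exact_mod_cast hn
  have hlog : 0 < Real.log (n : ℝ) := Real.log_pos (by linarith)
  simp only [Function.comp]
  field_simp

variable {Ω : Type} {m0 : MeasurableSpace Ω} {μ : Measure Ω} [IsProbabilityMeasure μ]
  {ℱ : Filtration ℕ m0} {A : ℕ → Set Ω}

/-- the number of chosen integers in the open interval `(a, b)` minus its compensator -/
noncomputable def exc (μ : Measure Ω) (ℱ : Filtration ℕ m0) (A : ℕ → Set Ω) (a b : ℕ) (ω : Ω) : ℝ :=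
  ∑ r ∈ Finset.Ioo a b, ((A r).indicator (fun _ => (1 : ℝ)) ω - (μ[(A r).indicator (fun _ => (1 : ℝ)) | ℱ (r - 1)]) ω)

lemma Ioo_sum (f : ℕ → ℝ) (a m : ℕ) : ∑ r ∈ Finset.Ioo a (a + m + 1), f r = ∑ i ∈ Finset.range m, f (a + i + 1) := by
  have : Finset.Ioo a (a + m + 1) = Finset.Ico (a + 1) (a + 1 + m) := by
    ext r
    simp only [Finset.mem_Ioo, Finset.mem_Ico]
    omega
  rw [this, Finset.sum_Ico_eq_sum_range, Nat.add_sub_cancel_left]
  refine Finset.sum_congr rfl fun i _ => ?_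
  congr 1
  omega

lemma exc_left {ω : Ω} (hD : ∀ n, DD' μ ℱ A n ω = dens μ ℱ A n ω) (m : ℕ) :
    exc μ ℱ A ((m + 1) * (m + 1) - (m + 1)) ((m + 1) * (m + 1)) ω =
      SW μ ℱ A (sL (m + 1)) ((m + 1) * (m + 1) - (m + 1)) (2 * (m + 1)) ω := by
  set T : ℕ := (m + 1) * (m + 1) - (m + 1) with hT
  have h1 : (m + 1) * (m + 1) = T + m + 1 := by
    have : m + 1 ≤ (m + 1) * (m + 1) := Nat.le_mul_of_pos_left _ (by omega)
    omega
  unfold exc SW
  rw [h1, Ioo_sum]
  have h := split_sum (fun i u _ _ => u * (J1 A (T + i + 1) ω - DD' μ ℱ A (T + i) ω)) (fun i => by simp) m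
  rw [h]
  simp only [zero_mul, Finset.sum_const_zero, add_zero, one_mul]
  refine Finset.sum_congr rfl fun i _ => ?_
  rw [hD]
  rfl

lemma exc_right {ω : Ω} (hD : ∀ n, DD' μ ℱ A n ω = dens μ ℱ A n ω) (m : ℕ) :
    exc μ ℱ A ((m + 1) * (m + 1)) ((m + 1) * (m + 1) + (m + 1)) ω =
      SW μ ℱ A (sR (m + 1)) ((m + 1) * (m + 1) - (m + 1)) (2 * (m + 1)) ω := by
  set T : ℕ := (m + 1) * (m + 1) - (m + 1) with hT
  have h1 : (m + 1) * (m + 1) = T + (m + 1) := by
    have : m + 1 ≤ (m + 1) * (m + 1) := Nat.le_mul_of_pos_left _ (by omega)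
    omega
  unfold exc SW
  rw [h1, show T + (m + 1) + (m + 1) = T + (m + 1) + m + 1 by ring, Ioo_sum]
  have h := split_sum (fun i _ v _ => v * (J1 A (T + i + 1) ω - DD' μ ℱ A (T + i) ω)) (fun i => by simp) m
  rw [h]
  simp only [zero_mul, Finset.sum_const_zero, zero_add, one_mul]
  refine Finset.sum_congr rfl fun i _ => ?_
  rw [hD, show T + (m + 1) + i + 1 = T + (m + 1 + i) + 1 by ring]
  rfl

/-- **the intervals of Oppermann** -/
theorem oppermann (hA : ∀ n, MeasurableSet[ℱ n] (A n))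
    (hd : ∀ᵐ ω ∂μ, Tendsto (fun n : ℕ => dens μ ℱ A n ω * Real.log n) atTop (𝓝 1)) :
    ∀ᵐ ω ∂μ, (∀ ε : ℝ, 0 < ε → ∀ᶠ n : ℕ in atTop,
        (exc μ ℱ A (n * n - n) (n * n) ω / Real.sqrt n) ^ 2 + (exc μ ℱ A (n * n) (n * n + n) ω / Real.sqrt n) ^ 2 ≤ 1 + ε) ∧
      ∀ x y : ℝ, x ^ 2 + y ^ 2 ≤ 1 → ∀ ε : ℝ, 0 < ε → ∃ᶠ n : ℕ in atTop,
        |exc μ ℱ A (n * n - n) (n * n) ω / Real.sqrt n - x| < ε ∧ |exc μ ℱ A (n * n) (n * n + n) ω / Real.sqrt n - y| < ε := by
  have hT : Tendsto (fun n : ℕ => n * n - n) atTop atTop := by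
    refine tendsto_atTop_mono' atTop ?_ tendsto_id
    filter_upwards [eventually_ge_atTop 2] with n hn
    have : 2 * n ≤ n * n := Nat.mul_le_mul_right n hn
    simp only [id]
    omega
  have hTH : ∀ k : ℕ, (k * k - k) + 2 * k ≤ (k + 1) * (k + 1) - (k + 1) := by
    intro k
    have h1 : k ≤ k * k := Nat.le_mul_self k
    have h2 : (k + 1) * (k + 1) = k * k + 2 * k + 1 := by ring
    omega
  have hH : ∀ᶠ k : ℕ in atTop, 2 * k ≤ k * k - k := by
    filter_upwards [eventually_ge_atTop 3] with k hk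
    have : 3 * k ≤ k * k := Nat.mul_le_mul_right k hk
    omega
  have main := disc (μ := μ) hA hd (T := fun n => n * n - n) (H := fun n => 2 * n) (σ₁ := sL) (σ₂ := sR) (σ₃ := sA)
    (W := fun n => (n : ℝ)) sL_abs sR_abs sA_abs hT hH (by
      filter_upwards [eventually_gt_atTop 0] with n hn
      exact_mod_cast hn) gram_lim small_T hTH
  filter_upwards [main, DD'_ae (μ := μ) hA] with ω h1 hD
  obtain ⟨h2, h3⟩ := h1
  have hc := MM_lim
  have key : ∀ᶠ n : ℕ in atTop, exc μ ℱ A (n * n - n) (n * n) ω / Real.sqrt n =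
      (MM (n : ℝ) (Real.log ((n * n - n : ℕ) : ℝ)) (Real.log n) / Real.sqrt n) *
        (SW μ ℱ A (sL n) (n * n - n) (2 * n) ω / MM (n : ℝ) (Real.log ((n * n - n : ℕ) : ℝ)) (Real.log n)) ∧
      exc μ ℱ A (n * n) (n * n + n) ω / Real.sqrt n =
      (MM (n : ℝ) (Real.log ((n * n - n : ℕ) : ℝ)) (Real.log n) / Real.sqrt n) *
        (SW μ ℱ A (sR n) (n * n - n) (2 * n) ω / MM (n : ℝ) (Real.log ((n * n - n : ℕ) : ℝ)) (Real.log n)) := by
    filter_upwards [hc.eventually_const_lt (show (0 : ℝ) < 1 by norm_num), eventually_gt_atTop 0] with n h4 h5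
    obtain ⟨m, rfl⟩ : ∃ m, n = m + 1 := ⟨n - 1, by omega⟩
    rw [exc_left hD, exc_right hD]
    have h6 : MM ((m + 1 : ℕ) : ℝ) (Real.log (((m + 1) * (m + 1) - (m + 1) : ℕ) : ℝ)) (Real.log ((m + 1 : ℕ) : ℝ)) ≠ 0 := by
      intro h
      rw [h, zero_div] at h4
      exact lt_irrefl _ h4
    have h7 : Real.sqrt ((m + 1 : ℕ) : ℝ) ≠ 0 := (Real.sqrt_pos.2 (by positivity)).ne'
    constructor <;> field_simp
  have hclose : ∀ e : ℝ, 0 < e → ∀ᶠ n : ℕ in atTop,
      |MM (n : ℝ) (Real.log ((n * n - n : ℕ) : ℝ)) (Real.log n) / Real.sqrt n - 1| < e := by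
    intro e he
    exact Metric.tendsto_nhds.1 hc e he
  constructor
  · intro ε hε
    set e : ℝ := min ε 1 / 8 with he
    have he0 : 0 < e := by positivity
    have he1 : e ≤ ε / 8 := by rw [he]; linarith [min_le_left ε 1]
    have he2 : e ≤ 1 / 8 := by rw [he]; linarith [min_le_right ε 1]
    filter_upwards [h2 e he0, key, hclose e he0] with n h4 h5 h6
    rw [h5.1, h5.2]
    set c : ℝ := MM (n : ℝ) (Real.log ((n * n - n : ℕ) : ℝ)) (Real.log n) / Real.sqrt n with hcdef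
    set X : ℝ := SW μ ℱ A (sL n) (n * n - n) (2 * n) ω / MM (n : ℝ) (Real.log ((n * n - n : ℕ) : ℝ)) (Real.log n) with hX
    set Y : ℝ := SW μ ℱ A (sR n) (n * n - n) (2 * n) ω / MM (n : ℝ) (Real.log ((n * n - n : ℕ) : ℝ)) (Real.log n) with hY
    have h7 : X ^ 2 + Y ^ 2 ≤ 1 + e := by
      have := sq_nonneg (SW μ ℱ A (sA n) (n * n - n) (2 * n) ω / MM (n : ℝ) (Real.log ((n * n - n : ℕ) : ℝ)) (Real.log n))
      linarith
    have h8 := abs_lt.1 h6
    have h9 : c ^ 2 ≤ (1 + e) ^ 2 := by nlinarith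
    have h10 : (c * X) ^ 2 + (c * Y) ^ 2 = c ^ 2 * (X ^ 2 + Y ^ 2) := by ring
    rw [h10]
    have h11 : c ^ 2 * (X ^ 2 + Y ^ 2) ≤ (1 + e) ^ 2 * (1 + e) :=
      mul_le_mul h9 h7 (by positivity) (by positivity)
    nlinarith [mul_pos he0 he0]
  · intro x y hxy ε hε
    refine ((h3 x y hxy (ε / 2) (by positivity)).and_eventually
      ((h2 1 one_pos).and (key.and (hclose (ε / 8) (by positivity))))).mono ?_
    rintro n ⟨⟨h4, h5⟩, h6, ⟨h7, h8⟩, h9⟩
    rw [h7, h8]
    set c : ℝ := MM (n : ℝ) (Real.log ((n * n - n : ℕ) : ℝ)) (Real.log n) / Real.sqrt n with hcdef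
    set X : ℝ := SW μ ℱ A (sL n) (n * n - n) (2 * n) ω / MM (n : ℝ) (Real.log ((n * n - n : ℕ) : ℝ)) (Real.log n) with hX
    set Y : ℝ := SW μ ℱ A (sR n) (n * n - n) (2 * n) ω / MM (n : ℝ) (Real.log ((n * n - n : ℕ) : ℝ)) (Real.log n) with hY
    have hZ := sq_nonneg (SW μ ℱ A (sA n) (n * n - n) (2 * n) ω / MM (n : ℝ) (Real.log ((n * n - n : ℕ) : ℝ)) (Real.log n))
    have hXb : |X| ≤ 2 := abs_le_of_sq_le_sq (by nlinarith [sq_nonneg Y]) (by norm_num)
    have hYb : |Y| ≤ 2 := abs_le_of_sq_le_sq (by nlinarith [sq_nonneg X]) (by norm_num)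
    have hm : ∀ U u : ℝ, |U| ≤ 2 → |U - u| < ε / 2 → |c * U - u| < ε := by
      intro U u h10 h11
      have h12 : c * U - u = (c - 1) * U + (U - u) := by ring
      rw [h12]
      refine (abs_add_le _ _).trans_lt ?_
      rw [abs_mul]
      have : |c - 1| * |U| ≤ ε / 8 * 2 := mul_le_mul h9.le h10 (abs_nonneg _) (by positivity)
      linarith
    exact ⟨hm X x hXb h4, hm Y y hYb h5⟩

end Pool.Agent.N740.HK
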