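import Mathlib
import Pool.Agent.N740.HK.Tgt

/-!
# The targets `p_n + 2 P(n)` for integer valued polynomials
-/

set_option autoImplicit false
set_option linter.unusedSectionVars false

open MeasureTheory Filter Set Polynomial
open scoped Topology

namespace Pool.Agent.N740.HK

open Pool.Agent.R528.RM

lemma count_poly : Countable ℚ[X] := by
  rw [← Cardinal.mk_le_aleph0_iff]
  refine Polynomial.cardinalMk_le_max.trans ?_
  rw [max_le_iff]
  exact ⟨Cardinal.mk_le_aleph0, le_rfl⟩

lemma ratio_lead {Q : ℝ[X]} (h : Q ≠ 0) :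
    Tendsto (fun x : ℝ => Q.eval x / (Q.leadingCoeff * x ^ Q.natDegree)) atTop (𝓝 1) := by
  have h1 := Polynomial.isEquivalent_atTop_lead Q
  rw [Asymptotics.isEquivalent_iff_tendsto_one] at h1
  · exact h1
  · filter_upwards [eventually_gt_atTop (0 : ℝ)] with x hx
    have := Polynomial.leadingCoeff_ne_zero.2 h
    positivity

lemma sign_poly (Q : ℝ[X]) : (∀ᶠ x : ℝ in atTop, 0 ≤ Q.eval x) ∨ (∀ᶠ x : ℝ in atTop, Q.eval x < 0) := by
  by_cases h0 : Q = 0
  · left
    rw [h0]
    simp
  have h := ratio_lead h0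
  have h2 : ∀ᶠ x : ℝ in atTop, 0 < Q.eval x / (Q.leadingCoeff * x ^ Q.natDegree) := h.eventually_const_lt one_pos
  rcases lt_or_gt_of_ne (Polynomial.leadingCoeff_ne_zero.2 h0) with h1 | h1
  · right
    filter_upwards [h2, eventually_gt_atTop (0 : ℝ)] with x hx hx0
    have h3 : Q.leadingCoeff * x ^ Q.natDegree < 0 := mul_neg_of_neg_of_pos h1 (by positivity)
    by_contra hcon
    push Not at hcon
    have := div_nonpos_of_nonneg_of_nonpos hcon h3.le
    linarith
  · left
    filter_upwards [h2, eventually_gt_atTop (0 : ℝ)] with x hx hx0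
    have h3 : 0 < Q.leadingCoeff * x ^ Q.natDegree := mul_pos h1 (by positivity)
    by_contra hcon
    push Not at hcon
    have := div_nonpos_of_nonpos_of_nonneg hcon.le h3.le
    linarith

/-- the values of an integer valued polynomial -/
lemma poly_fn (P : ℚ[X]) (hP : ∀ m : ℤ, ∃ k : ℤ, P.eval (m : ℚ) = k) (hlc : 0 < P.leadingCoeff) :
    ∃ v : ℕ → ℤ, (∀ n : ℕ, P.eval (n : ℚ) = v n) ∧ (∃ n₀, ∀ n, n₀ ≤ n → 1 ≤ v n ∧ v n ≤ v (n + 1)) ∧
      Tendsto (fun n : ℕ => Real.log (2 * (v (n + 1) : ℝ)) / Real.log n) atTop (𝓝 (P.natDegree : ℝ)) := by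
  choose v0 hv0 using hP
  set v : ℕ → ℤ := fun n => v0 n with hv
  set R : ℝ[X] := P.map (algebraMap ℚ ℝ) with hR
  have hev : ∀ n : ℕ, P.eval (n : ℚ) = v n := fun n => by
    have := hv0 n
    push_cast at this
    exact this
  have hRev : ∀ n : ℕ, R.eval (n : ℝ) = (v n : ℝ) := fun n => by
    have h1 : (n : ℝ) = algebraMap ℚ ℝ (n : ℚ) := by simp
    rw [hR, Polynomial.eval_map, h1, Polynomial.eval₂_at_apply, hev]
    simp
  have hdeg : R.natDegree = P.natDegree := Polynomial.natDegree_map _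
  have hlR : R.leadingCoeff = (P.leadingCoeff : ℝ) := by
    rw [hR, Polynomial.leadingCoeff_map]
    rfl
  have hlR0 : 0 < R.leadingCoeff := by rw [hlR]; exact_mod_cast hlc
  have hR0 : R ≠ 0 := Polynomial.leadingCoeff_ne_zero.1 hlR0.ne'
  have hrat := (ratio_lead hR0).comp tendsto_natCast_atTop_atTop
  have hpos : ∀ᶠ n : ℕ in atTop, 0 < v n := by
    filter_upwards [hrat.eventually_const_lt one_pos, eventually_gt_atTop 0] with n hn hn0
    have hn0' : (0 : ℝ) < n := by exact_mod_cast hn0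
    simp only [Function.comp] at hn
    rw [hRev] at hn
    have h3 : 0 < R.leadingCoeff * (n : ℝ) ^ R.natDegree := mul_pos hlR0 (by positivity)
    have h4 : (0 : ℝ) < v n := by
      by_contra hcon
      push Not at hcon
      have := div_nonpos_of_nonpos_of_nonneg hcon h3.le
      linarith
    exact_mod_cast h4
  have hmono : ∀ᶠ n : ℕ in atTop, v n ≤ v (n + 1) := by
    have hQe : ∀ x : ℝ, (R.comp (X + C 1) - R).eval x = R.eval (x + 1) - R.eval x := fun x => by simp
    have hQn : ∀ n : ℕ, (R.comp (X + C 1) - R).eval (n : ℝ) = (v (n + 1) : ℝ) - v n := fun n => by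
      rw [hQe, hRev, ← hRev (n + 1)]
      push_cast
      rfl
    rcases sign_poly (R.comp (X + C 1) - R) with h | h
    · filter_upwards [tendsto_natCast_atTop_atTop.eventually h] with n hn
      rw [hQn] at hn
      have : (v n : ℝ) ≤ v (n + 1) := by linarith
      exact_mod_cast this
    · exfalso
      have h1 : ∀ᶠ n : ℕ in atTop, v (n + 1) < v n := by
        filter_upwards [tendsto_natCast_atTop_atTop.eventually h] with n hn
        rw [hQn] at hn
        have : (v (n + 1) : ℝ) < v n := by linarith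
        exact_mod_cast this
      obtain ⟨n₁, hn₁⟩ := eventually_atTop.1 (h1.and hpos)
      have h2 : ∀ k : ℕ, v (n₁ + k) ≤ v n₁ - k := by
        intro k
        induction k with
        | zero => simp
        | succ k ih =>
          have := (hn₁ (n₁ + k) (by omega)).1
          rw [← add_assoc]
          push_cast
          linarith
      have h3 := h2 (v n₁).toNat
      have h4 := (hn₁ n₁ le_rfl).2
      have h5 := (hn₁ (n₁ + (v n₁).toNat) (by omega)).2
      rw [Int.toNat_of_nonneg h4.le] at h3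
      linarith
  refine ⟨v, hev, ?_, ?_⟩
  · obtain ⟨n₀, hn₀⟩ := eventually_atTop.1 (hpos.and hmono)
    exact ⟨n₀, fun n hn => ⟨(hn₀ n hn).1, (hn₀ n hn).2⟩⟩
  · have h1 : Tendsto (fun n : ℕ => (R.eval ((n + 1 : ℕ) : ℝ)) / (R.leadingCoeff * ((n + 1 : ℕ) : ℝ) ^ R.natDegree)) atTop (𝓝 1) :=
      (tendsto_add_atTop_iff_nat (f := fun n : ℕ => (R.eval (n : ℝ)) / (R.leadingCoeff * (n : ℝ) ^ R.natDegree)) 1).2 hrat
    have h2 := (Real.continuousAt_log one_ne_zero).tendsto.comp h1
    rw [Real.log_one] at h2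
    have h3 : Tendsto (fun n : ℕ => Real.log ((n + 1 : ℕ) : ℝ) / Real.log n) atTop (𝓝 1) := by
      have h4 : Tendsto (fun n : ℕ => Real.log (1 + 1 / (n : ℝ))) atTop (𝓝 0) := by
        have h5 : Tendsto (fun n : ℕ => 1 + (1 : ℝ) / n) atTop (𝓝 (1 + 0)) :=
          tendsto_const_nhds.add tendsto_one_div_atTop_nhds_zero_nat
        rw [add_zero] at h5
        have := (Real.continuousAt_log one_ne_zero).tendsto.comp h5
        rw [Real.log_one] at this
        exact this
      have h5 := (h4.div_atTop tendsto_logN).add_const 1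
      rw [zero_add] at h5
      refine h5.congr' ?_
      filter_upwards [eventually_ge_atTop 2] with n hn
      have hn' : (2 : ℝ) ≤ n := by exact_mod_cast hn
      have hL : 0 < Real.log n := Real.log_pos (by linarith)
      have : ((n + 1 : ℕ) : ℝ) = n * (1 + 1 / n) := by
        push_cast
        field_simp
      rw [this, Real.log_mul (by positivity) (by positivity)]
      field_simp
      ring
    have h4 := ((h2.div_atTop tendsto_logN).add ((tendsto_const_nhds (x := Real.log (2 * R.leadingCoeff))).div_atTop tendsto_logN)).add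
      (h3.const_mul (R.natDegree : ℝ))
    rw [add_zero, zero_add, mul_one, hdeg] at h4
    refine h4.congr' ?_
    filter_upwards [eventually_ge_atTop 2, (tendsto_add_atTop_nat 1).eventually hpos] with n hn hp
    have hp' : (0 : ℝ) < v (n + 1) := by exact_mod_cast hp
    have hn1 : (0 : ℝ) < ((n + 1 : ℕ) : ℝ) := by positivity
    simp only [Function.comp]
    rw [hRev, Real.log_div hp'.ne' (by positivity), Real.log_mul hlR0.ne' (by positivity), Real.log_pow,
      Real.log_mul (by norm_num : (2 : ℝ) ≠ 0) hlR0.ne', Real.log_mul (by norm_num : (2 : ℝ) ≠ 0) hp'.ne']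
    ring

variable {Ω : Type} {m0 : MeasurableSpace Ω} {μ : Measure Ω} [IsProbabilityMeasure μ]
  {ℱ : Filtration ℕ m0} {A : ℕ → Set Ω}

open Classical in
/-- `m + 1` is of the form `p_(n+1) + 2 v (n+1)` with `n ≥ n₀` -/
def TG (A : ℕ → Set Ω) (v : ℕ → ℤ) (n₀ : ℕ) (m : ℕ) : Set Ω :=
  ⋃ n : ℕ, ⋃ j : ℕ, {ω | (n₀ ≤ n ∧ j ≤ m ∧ (j : ℤ) + 2 * v (n + 1) = m + 1) ∧ ω ∈ A j ∧
    Nat.count (fun i => ω ∈ A i) j = n}

open Classical in
lemma TG_meas (hA : ∀ n, MeasurableSet[ℱ n] (A n)) (v : ℕ → ℤ) (n₀ m : ℕ) : MeasurableSet[ℱ m] (TG A v n₀ m) := by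
  refine MeasurableSet.iUnion fun n => MeasurableSet.iUnion fun j => ?_
  by_cases h : n₀ ≤ n ∧ j ≤ m ∧ (j : ℤ) + 2 * v (n + 1) = m + 1
  · have e : {ω | (n₀ ≤ n ∧ j ≤ m ∧ (j : ℤ) + 2 * v (n + 1) = m + 1) ∧ ω ∈ A j ∧
        Nat.count (fun i => ω ∈ A i) j = n} = A j ∩ (fun ω => ∑ i ∈ Finset.range j, J1 A i ω) ⁻¹' {(n : ℝ)} := by
      ext ω
      simp only [mem_ofPred_eq, mem_inter_iff, mem_preimage, mem_singleton_iff, sum_J1, Nat.cast_inj]
      exact ⟨fun h' => h'.2, fun h' => ⟨h, h'⟩⟩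
    rw [e]
    have h1 : StronglyMeasurable[ℱ m] (fun ω => ∑ i ∈ Finset.range j, J1 A i ω) := by
      refine Finset.stronglyMeasurable_fun_sum _ fun i hi => ?_
      have hi := Finset.mem_range.1 hi
      exact (J1_meas hA i).mono (ℱ.mono (by omega))
    exact (ℱ.mono h.2.1 _ (hA j)).inter (h1.measurable (measurableSet_singleton _))
  · have e : {ω | (n₀ ≤ n ∧ j ≤ m ∧ (j : ℤ) + 2 * v (n + 1) = m + 1) ∧ ω ∈ A j ∧
        Nat.count (fun i => ω ∈ A i) j = n} = ∅ := by
      ext ω
      simp only [mem_ofPred_eq, mem_empty_iff_false, iff_false]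
      exact fun h' => h h'.1
    rw [e]
    exact @MeasurableSet.empty _ (ℱ m)

open Classical in
/-- the law for a sequence of shifts -/
theorem shift_law (hA : ∀ n, MeasurableSet[ℱ n] (A n))
    (hd : ∀ᵐ ω ∂μ, Tendsto (fun n : ℕ => dens μ ℱ A n ω * Real.log n) atTop (𝓝 1)) (v : ℕ → ℤ) (n₀ : ℕ)
    (hv : ∀ n, n₀ ≤ n → 1 ≤ v n ∧ v n ≤ v (n + 1)) {D : ℝ}
    (hD : Tendsto (fun n : ℕ => Real.log (2 * (v (n + 1) : ℝ)) / Real.log n) atTop (𝓝 D)) :
    ∀ᵐ ω ∂μ, (rset A ω).Infinite ∧ Tendsto (fun N : ℕ => (∑ n ∈ Finset.range N,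
      (if ∃ q : ℕ, ω ∈ A q ∧ (q : ℤ) = pn (rset A ω) n + 2 * v (n + 1) then (1 : ℝ) else 0)) * (max 1 D * Real.log N) / N) atTop (𝓝 1) := by
  filter_upwards [targets (μ := μ) hA hd (TG A v n₀) (TG_meas hA v n₀), cnt_law (μ := μ) hA hd] with ω h1 h2
  have hS := inf_of_law h2
  refine ⟨hS, ?_⟩
  have hlp := log_pn h2
  set p : ℕ → ℕ := pn (rset A ω) with hp
  set T : ℕ → ℕ := fun n => p (n + n₀) + 2 * (v (n + n₀ + 1)).toNat with hT
  have hv0 : ∀ n, 1 ≤ v (n + n₀ + 1) := fun n => (hv _ (by omega)).1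
  have hTz : ∀ n, (T n : ℤ) = p (n + n₀) + 2 * v (n + n₀ + 1) := fun n => by
    simp only [hT]
    push_cast
    rw [Int.toNat_of_nonneg (by linarith [hv0 n])]
  have hTm : StrictMono T := by
    refine strictMono_nat_of_lt_succ fun n => ?_
    have e1 := nth_mono hS (show n + n₀ < n + 1 + n₀ by omega)
    have e2 := (hv (n + n₀ + 1) (by omega)).2
    have e3 := hTz n
    have e4 := hTz (n + 1)
    rw [show n + 1 + n₀ + 1 = n + n₀ + 1 + 1 by ring] at e4
    have e5 : (p (n + n₀) : ℤ) < p (n + 1 + n₀) := by exact_mod_cast e1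
    have : (T n : ℤ) < T (n + 1) := by linarith
    exact_mod_cast this
  have hT1 : ∀ n, 1 ≤ T n := fun n => by
    have := hTz n
    have := hv0 n
    omega
  have hTB : ∀ m, ω ∈ TG A v n₀ m ↔ ∃ n, T n = m + 1 := by
    intro m
    simp only [TG, mem_iUnion, mem_ofPred_eq]
    constructor
    · rintro ⟨n, j, ⟨hn, hj, hjm⟩, hjA, hc⟩
      refine ⟨n - n₀, ?_⟩
      have e1 : p n = j := by
        rw [hp, ← hc]
        exact Nat.nth_count (p := fun i => ω ∈ A i) hjA
      have e2 := hTz (n - n₀)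
      rw [Nat.sub_add_cancel hn, e1, hjm] at e2
      exact_mod_cast e2
    · rintro ⟨n, hn⟩
      have e1 := hTz n
      have e2 := hv0 n
      refine ⟨n + n₀, p (n + n₀), ⟨by omega, by omega, by omega⟩, nth_mem hS _, ?_⟩
      exact Nat.count_nth_of_infinite hS _
  have hM : 0 < max 1 D := lt_of_lt_of_le one_pos (le_max_left _ _)
  have hlogT : Tendsto (fun n : ℕ => Real.log (T n) / Real.log n) atTop (𝓝 (max 1 D)) := by
    -- with the unshifted index
    have k1 : Tendsto (fun n : ℕ => Real.log ((p n : ℝ) + 2 * v (n + 1)) / Real.log n) atTop (𝓝 (max 1 D)) := by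
      have k2 : Tendsto (fun n : ℕ => max (Real.log (p n) / Real.log n) (Real.log (2 * (v (n + 1) : ℝ)) / Real.log n)) atTop
          (𝓝 (max 1 D)) := hlp.max hD
      have k3 := ((tendsto_const_nhds (x := Real.log 2)).div_atTop tendsto_logN).add k2
      rw [zero_add] at k3
      refine tendsto_of_tendsto_of_tendsto_of_le_of_le' k2 k3 ?_ ?_
      · filter_upwards [eventually_ge_atTop 2, eventually_ge_atTop n₀, (tendsto_nth hS).eventually_gt_atTop 0] with n hn hn' hpn
        have hn2 : (2 : ℝ) ≤ n := by exact_mod_cast hn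
        have hL : 0 < Real.log n := Real.log_pos (by linarith)
        have hpn' : (0 : ℝ) < p n := by exact_mod_cast hpn
        have hvn : (1 : ℝ) ≤ v (n + 1) := by exact_mod_cast (hv (n + 1) (by omega)).1
        rw [max_div_div_right hL.le]
        apply div_le_div_of_nonneg_right _ hL.le
        apply max_le
        · exact Real.log_le_log hpn' (by linarith)
        · exact Real.log_le_log (by linarith) (by linarith)
      · filter_upwards [eventually_ge_atTop 2, eventually_ge_atTop n₀, (tendsto_nth hS).eventually_gt_atTop 0] with n hn hn' hpn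
        have hn2 : (2 : ℝ) ≤ n := by exact_mod_cast hn
        have hL : 0 < Real.log n := Real.log_pos (by linarith)
        have hpn' : (0 : ℝ) < p n := by exact_mod_cast hpn
        have hvn : (1 : ℝ) ≤ v (n + 1) := by exact_mod_cast (hv (n + 1) (by omega)).1
        rw [max_div_div_right hL.le, ← add_div]
        apply div_le_div_of_nonneg_right _ hL.le
        rcases le_total (p n : ℝ) (2 * v (n + 1)) with hle | hle
        · refine le_trans ?_ (add_le_add_right (le_max_right _ _) _)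
          rw [← Real.log_mul (by norm_num) (by linarith)]
          exact Real.log_le_log (by linarith) (by linarith)
        · refine le_trans ?_ (add_le_add_right (le_max_left _ _) _)
          rw [← Real.log_mul (by norm_num) (by linarith)]
          exact Real.log_le_log (by linarith) (by linarith)
    have k4 : Tendsto (fun n : ℕ => Real.log ((p (n + n₀) : ℝ) + 2 * v (n + n₀ + 1)) / Real.log ((n + n₀ : ℕ) : ℝ)) atTop
        (𝓝 (max 1 D)) :=
      (tendsto_add_atTop_iff_nat (f := fun n : ℕ => Real.log ((p n : ℝ) + 2 * v (n + 1)) / Real.log n) n₀).2 k1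
    have k5 : Tendsto (fun N : ℕ => Real.log ((N + n₀ : ℕ) : ℝ) / Real.log N) atTop (𝓝 1) := log_shift n₀
    have k6 := k4.mul k5
    rw [mul_one] at k6
    refine k6.congr' ?_
    filter_upwards [eventually_ge_atTop 2] with n hn
    have hn2 : (2 : ℝ) ≤ n := by exact_mod_cast hn
    have hL : 0 < Real.log n := Real.log_pos (by linarith)
    have hL' : 0 < Real.log ((n + n₀ : ℕ) : ℝ) := by
      apply Real.log_pos
      push_cast
      have : (0 : ℝ) ≤ n₀ := Nat.cast_nonneg _
      linarith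
    have e1 : (T n : ℝ) = (p (n + n₀) : ℝ) + 2 * v (n + n₀ + 1) := by
      have := hTz n
      exact_mod_cast this
    rw [e1]
    field_simp
  have h3 := h1 T hTm hT1 hTB (max 1 D) hM hlogT
  apply shift_dens n₀
  refine h3.congr fun N => ?_
  congr 2
  refine Finset.sum_congr rfl fun n _ => ?_
  unfold J1
  by_cases h : ω ∈ A (T n)
  · rw [indicator_of_mem h, if_pos ⟨T n, h, hTz n⟩]
  · rw [indicator_of_notMem h, if_neg]
    rintro ⟨q, hq, hq'⟩
    rw [← hTz n] at hq'
    have : q = T n := by exact_mod_cast hq'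
    rw [this] at hq
    exact h hq

end Pool.Agent.N740.HK
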