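import Mathlib
import Pool.Agent.N740.HK.Opp

/-!
# Windows `(x, x + x^θ)`: the grid
-/

set_option autoImplicit false
set_option linter.unusedSectionVars false

open MeasureTheory Filter Set
open scoped ENNReal Topology

namespace Pool.Agent.N740.HK

open Pool.Agent.R528.RM

/-- the grid -/
noncomputable def TT (p c : ℝ) (k : ℕ) : ℕ := ⌊(c * k) ^ p⌋₊

lemma TT_mono {p c : ℝ} (hp : 0 ≤ p) (hc : 0 < c) : Monotone (TT p c) := by
  intro a b hab
  unfold TT
  apply Nat.floor_mono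
  apply Real.rpow_le_rpow (by positivity) _ hp
  exact mul_le_mul_of_nonneg_left (by exact_mod_cast hab) hc.le

lemma ck_tend {c : ℝ} (hc : 0 < c) : Tendsto (fun k : ℕ => c * (k : ℝ)) atTop atTop :=
  tendsto_natCast_atTop_atTop.const_mul_atTop hc

lemma f_tend {p c : ℝ} (hp : 0 < p) (hc : 0 < c) : Tendsto (fun k : ℕ => (c * (k : ℝ)) ^ p) atTop atTop :=
  (tendsto_rpow_atTop hp).comp (ck_tend hc)

lemma TT_ratio {p c : ℝ} (hp : 0 < p) (hc : 0 < c) : Tendsto (fun k : ℕ => (TT p c k : ℝ) / (c * k) ^ p) atTop (𝓝 1) :=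
  (tendsto_nat_floor_div_atTop (R := ℝ)).comp (f_tend hp hc)

lemma TT_tend {p c : ℝ} (hp : 0 < p) (hc : 0 < c) : Tendsto (TT p c) atTop atTop :=
  tendsto_nat_floor_atTop.comp (f_tend hp hc)

lemma TT_log {p c : ℝ} (hp : 0 < p) (hc : 0 < c) :
    Tendsto (fun k : ℕ => Real.log (TT p c k) / Real.log k) atTop (𝓝 p) := by
  have hl : Tendsto (fun k : ℕ => Real.log (k : ℝ)) atTop atTop := Real.tendsto_log_atTop.comp tendsto_natCast_atTop_atTop
  have h1 : Tendsto (fun k : ℕ => Real.log ((TT p c k : ℝ) / (c * k) ^ p)) atTop (𝓝 0) := by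
    have := (Real.continuousAt_log one_ne_zero).tendsto.comp (TT_ratio hp hc)
    rwa [Real.log_one] at this
  have h2 : Tendsto (fun k : ℕ => p + (p * Real.log c + Real.log ((TT p c k : ℝ) / (c * k) ^ p)) / Real.log k) atTop
      (𝓝 (p + 0)) := by
    refine tendsto_const_nhds.add ?_
    exact (tendsto_const_nhds.add h1).div_atTop hl
  rw [add_zero] at h2
  refine h2.congr' ?_
  filter_upwards [hl.eventually_gt_atTop 0, eventually_gt_atTop 0, (TT_tend hp hc).eventually_gt_atTop 0] with k h3 h4 h5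
  have hk : (0 : ℝ) < k := by exact_mod_cast h4
  have hT : (0 : ℝ) < TT p c k := by exact_mod_cast h5
  have hf : 0 < (c * (k : ℝ)) ^ p := Real.rpow_pos_of_pos (by positivity) _
  rw [Real.log_div hT.ne' hf.ne', Real.log_rpow (by positivity), Real.log_mul hc.ne' hk.ne']
  field_simp
  ring

lemma slope_lim (p : ℝ) : Tendsto (fun k : ℕ => (k : ℝ) * ((1 + 1 / (k : ℝ)) ^ p - 1)) atTop (𝓝 p) := by
  have h1 : HasDerivAt (fun x : ℝ => x ^ p) (p * 1 ^ (p - 1)) 1 := Real.hasDerivAt_rpow_const (Or.inl one_ne_zero)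
  rw [Real.one_rpow, mul_one] at h1
  have h2 := hasDerivAt_iff_tendsto_slope.1 h1
  have h3 : Tendsto (fun k : ℕ => 1 + 1 / (k : ℝ)) atTop (𝓝[≠] 1) := by
    rw [tendsto_nhdsWithin_iff]
    constructor
    · have := tendsto_const_nhds (x := (1 : ℝ)) |>.add (tendsto_one_div_atTop_nhds_zero_nat (𝕜 := ℝ))
      rwa [add_zero] at this
    · filter_upwards [eventually_gt_atTop 0] with k hk
      have : (0 : ℝ) < 1 / (k : ℝ) := by positivity
      simp only [mem_compl_iff, mem_singleton_iff]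
      linarith
  refine (h2.comp h3).congr' ?_
  filter_upwards [eventually_gt_atTop 0] with k hk
  have hk' : (0 : ℝ) < k := by exact_mod_cast hk
  simp only [Function.comp, slope, vsub_eq_sub, smul_eq_mul, Real.one_rpow]
  rw [add_sub_cancel_left, one_div, inv_inv]

lemma TT_theta {θ p c : ℝ} (hθ : θ < 1) (hpθ : p = 1 / (1 - θ)) (hp : 0 < p) (hc : 0 < c) :
    Tendsto (fun k : ℕ => (TT p c k : ℝ) ^ θ / (c * k) ^ (p - 1)) atTop (𝓝 1) := by
  have h1 := (TT_ratio hp hc).rpow_const (p := θ) (Or.inl one_ne_zero)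
  rw [Real.one_rpow] at h1
  refine h1.congr' ?_
  filter_upwards [eventually_gt_atTop 0] with k hk
  have hk' : (0 : ℝ) < k := by exact_mod_cast hk
  have hck : 0 < c * (k : ℝ) := by positivity
  rw [Real.div_rpow (Nat.cast_nonneg _) (Real.rpow_nonneg hck.le _), ← Real.rpow_mul hck.le]
  congr 2
  have : 1 - θ ≠ 0 := by linarith
  rw [hpθ]
  field_simp
  ring

lemma TT_step {θ p c : ℝ} (hθ0 : 0 < θ) (hθ : θ < 1) (hpθ : p = 1 / (1 - θ)) (hc : 0 < c) :
    Tendsto (fun k : ℕ => ((TT p c (k + 1) : ℝ) - TT p c k) / (TT p c k : ℝ) ^ θ) atTop (𝓝 (c * p)) := by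
  have hp1 : 1 < p := by
    rw [hpθ, lt_div_iff₀ (by linarith)]
    linarith
  have hp : 0 < p := by linarith
  have hg : Tendsto (fun k : ℕ => (c * (k : ℝ)) ^ (p - 1)) atTop atTop := f_tend (by linarith) hc
  have h1 : Tendsto (fun k : ℕ => c * ((k : ℝ) * ((1 + 1 / (k : ℝ)) ^ p - 1))) atTop (𝓝 (c * p)) := (slope_lim p).const_mul c
  -- errors of the floors
  have h2 : Tendsto (fun k : ℕ => (((TT p c (k + 1) : ℝ) - (c * ((k + 1 : ℕ) : ℝ)) ^ p) - ((TT p c k : ℝ) - (c * (k : ℝ)) ^ p)) /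
      (c * (k : ℝ)) ^ (p - 1)) atTop (𝓝 0) := by
    have hb : ∀ k : ℕ, |(TT p c k : ℝ) - (c * (k : ℝ)) ^ p| ≤ 1 := by
      intro k
      have h0 : 0 ≤ (c * (k : ℝ)) ^ p := Real.rpow_nonneg (by positivity) _
      have a1 := Nat.floor_le h0
      have a2 := Nat.lt_floor_add_one ((c * (k : ℝ)) ^ p)
      unfold TT
      rw [abs_le]
      constructor <;> linarith
    have hz : Tendsto (fun k : ℕ => 2 / (c * (k : ℝ)) ^ (p - 1)) atTop (𝓝 0) := hg.const_div_atTop 2
    refine squeeze_zero_norm' ?_ hz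
    filter_upwards [hg.eventually_gt_atTop 0] with k hk
    rw [norm_div, Real.norm_of_nonneg hk.le, Real.norm_eq_abs]
    apply div_le_div_of_nonneg_right _ hk.le
    have b1 := hb (k + 1)
    have b2 := hb k
    refine (abs_sub _ _).trans ?_
    linarith
  have h3 := h1.add h2
  rw [add_zero] at h3
  have h4 := h3.mul ((TT_theta hθ hpθ hp hc).inv₀ one_ne_zero)
  rw [inv_one, mul_one] at h4
  refine h4.congr' ?_
  filter_upwards [eventually_gt_atTop 0, hg.eventually_gt_atTop 0, (TT_tend hp hc).eventually_gt_atTop 0] with k hk hg0 hT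
  have hk' : (0 : ℝ) < k := by exact_mod_cast hk
  have hT' : (0 : ℝ) < TT p c k := by exact_mod_cast hT
  have hTθ : 0 < (TT p c k : ℝ) ^ θ := Real.rpow_pos_of_pos hT' _
  have hck : 0 < c * (k : ℝ) := by positivity
  have e1 : (c * ((k + 1 : ℕ) : ℝ)) ^ p = (c * k) * (c * k) ^ (p - 1) * (1 + 1 / (k : ℝ)) ^ p := by
    have e2 : c * ((k + 1 : ℕ) : ℝ) = (c * k) * (1 + 1 / (k : ℝ)) := by
      push_cast
      field_simp
    have e3 : (c * k) * (c * k) ^ (p - 1) = (c * (k : ℝ)) ^ p := by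
      have := Real.rpow_add hck 1 (p - 1)
      rw [Real.rpow_one, add_sub_cancel] at this
      exact this.symm
    rw [e2, Real.mul_rpow hck.le (by positivity), e3]
  have e4 : (c * (k : ℝ)) ^ p = (c * k) * (c * k) ^ (p - 1) := by
    have := Real.rpow_add hck 1 (p - 1)
    rw [Real.rpow_one, add_sub_cancel] at this
    exact this
  rw [e1, e4, inv_div]
  field_simp
  ring

lemma bracket {T : ℕ → ℕ} (hT : Tendsto T atTop atTop) {K a : ℕ} (ha : T K ≤ a) : ∃ k, K ≤ k ∧ T k ≤ a ∧ a < T (k + 1) := by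
  classical
  have h1 : ∃ j, a < T (K + j) := by
    obtain ⟨n, hn⟩ := eventually_atTop.1 (hT.eventually_gt_atTop a)
    exact ⟨n, hn _ (by omega)⟩
  have h2 := Nat.find_spec h1
  have h3 : Nat.find h1 ≠ 0 := by
    intro h
    rw [h] at h2
    simp only [add_zero] at h2
    omega
  obtain ⟨j, hj⟩ : ∃ j, Nat.find h1 = j + 1 := ⟨Nat.find h1 - 1, by omega⟩
  have h4 := Nat.find_min h1 (show j < Nat.find h1 by omega)
  rw [hj] at h2
  refine ⟨K + j, by omega, by omega, ?_⟩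
  rw [show K + j + 1 = K + (j + 1) by ring]
  exact h2

end Pool.Agent.N740.HK
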