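import Mathlib
import Pool.Agent.N740.HK.Pow

/-!
# Windows `(x, x + x^θ)`: exact size of the fluctuations
-/

set_option autoImplicit false
set_option linter.unusedSectionVars false

open MeasureTheory Filter Set
open scoped ENNReal Topology

namespace Pool.Agent.N740.HK

open Pool.Agent.R528.RM

variable {Ω : Type} {m0 : MeasurableSpace Ω} {μ : Measure Ω} [IsProbabilityMeasure μ]
  {ℱ : Filtration ℕ m0} {A : ℕ → Set Ω}

lemma exc_SW {ω : Ω} (hD : ∀ n, DD' μ ℱ A n ω = dens μ ℱ A n ω) {T a b : ℕ} (hTa : T ≤ a) (hab : a + 1 ≤ b) :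
    exc μ ℱ A a b ω = SW μ ℱ A (fun _ => 1) T (b - 1 - T) ω - SW μ ℱ A (fun _ => 1) T (a - T) ω := by
  obtain ⟨j, rfl⟩ := Nat.exists_eq_add_of_le hTa
  obtain ⟨m, hm⟩ := Nat.exists_eq_add_of_le hab
  have hb : b = T + j + m + 1 := by omega
  subst hb
  unfold exc SW
  rw [Ioo_sum, show T + j + m + 1 - 1 - T = j + m by omega, show T + j - T = j by omega, Finset.sum_range_add,
    add_sub_cancel_left]
  refine Finset.sum_congr rfl fun i _ => ?_
  rw [one_mul, hD, show T + (j + i) = T + j + i by ring]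
  rfl

lemma SW_neg (T j : ℕ) (ω : Ω) : SW μ ℱ A (fun _ => -1) T j ω = -SW μ ℱ A (fun _ => 1) T j ω := by
  unfold SW
  rw [← Finset.sum_neg_distrib]
  exact Finset.sum_congr rfl fun i _ => by ring

lemma RW_const {s : ℝ} (hs : s ^ 2 = 1) (H : ℕ) : RW (fun _ => s) H 0 = H := by
  unfold RW
  simp [hs]

/-- the ratio of the two normalisations -/
lemma MM_ratio {θ p c κ : ℝ} (hθ0 : 0 < θ) (hθ : θ < 1) (hpθ : p = 1 / (1 - θ)) (hc : 0 < c) (hκ : 0 < κ) {H : ℕ → ℕ}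
    (hH : Tendsto (fun k => (H k : ℝ) / (TT p c k : ℝ) ^ θ) atTop (𝓝 κ)) :
    Tendsto (fun k : ℕ => MM (H k) (Real.log (TT p c k)) (Real.log k) / Real.sqrt (2 * (1 - θ) * (TT p c k : ℝ) ^ θ)) atTop
      (𝓝 (Real.sqrt κ)) := by
  have hp : 0 < p := by rw [hpθ]; exact div_pos one_pos (by linarith)
  have hθ' : 0 < 1 - θ := by linarith
  have h1 := ((hH.mul ((TT_log hp hc).inv₀ hp.ne')).mul_const (1 / (1 - θ))).sqrt
  have e1 : κ * p⁻¹ * (1 / (1 - θ)) = κ := by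
    rw [hpθ]
    field_simp
  rw [e1] at h1
  refine h1.congr' ?_
  have hl : Tendsto (fun k : ℕ => Real.log (k : ℝ)) atTop atTop := Real.tendsto_log_atTop.comp tendsto_natCast_atTop_atTop
  have hTl : Tendsto (fun k : ℕ => Real.log (TT p c k)) atTop atTop :=
    Real.tendsto_log_atTop.comp (tendsto_natCast_atTop_atTop.comp (TT_tend hp hc))
  filter_upwards [hl.eventually_gt_atTop 0, hTl.eventually_gt_atTop 0, (TT_tend hp hc).eventually_gt_atTop 0] with k h2 h3 h4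
  have hT : (0 : ℝ) < TT p c k := by exact_mod_cast h4
  have hTθ : 0 < (TT p c k : ℝ) ^ θ := Real.rpow_pos_of_pos hT _
  have hHn : (0 : ℝ) ≤ H k := Nat.cast_nonneg _
  unfold MM
  rw [← Real.sqrt_div (by positivity)]
  congr 1
  field_simp

/-- the hypotheses of the sequence theorems -/
lemma hyp_small {θ p c κ : ℝ} (hθ0 : 0 < θ) (hθ : θ < 1) (hpθ : p = 1 / (1 - θ)) (hc : 0 < c) (hκ : 0 < κ) {H : ℕ → ℕ}
    (hH : Tendsto (fun k => (H k : ℝ) / (TT p c k : ℝ) ^ θ) atTop (𝓝 κ)) :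
    (∀ᶠ k in atTop, H k ≤ TT p c k) ∧ (∀ᶠ k in atTop, (0 : ℝ) < H k) ∧
    Tendsto (fun k : ℕ => Real.log k * Real.log (TT p c k) / (H k : ℝ)) atTop (𝓝 0) := by
  have hp : 0 < p := by rw [hpθ]; exact div_pos one_pos (by linarith)
  have hTr : Tendsto (fun k : ℕ => (TT p c k : ℝ)) atTop atTop := tendsto_natCast_atTop_atTop.comp (TT_tend hp hc)
  have hpos : ∀ᶠ k in atTop, (0 : ℝ) < H k := by
    filter_upwards [hH.eventually_const_lt hκ, hTr.eventually_gt_atTop 0] with k h1 h2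
    have hTθ : 0 < (TT p c k : ℝ) ^ θ := Real.rpow_pos_of_pos h2 _
    by_contra hcon
    push Not at hcon
    have := div_nonpos_of_nonpos_of_nonneg hcon hTθ.le
    linarith
  refine ⟨?_, hpos, ?_⟩
  · have h1 : Tendsto (fun x : ℝ => x ^ (θ - 1)) atTop (𝓝 0) := by
      have := tendsto_rpow_neg_atTop (show (0 : ℝ) < 1 - θ by linarith)
      rwa [neg_sub] at this
    have h2 := hH.mul (h1.comp hTr)
    rw [mul_zero] at h2
    filter_upwards [h2.eventually_lt_const one_pos, hTr.eventually_gt_atTop 0] with k h3 h4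
    simp only [Function.comp] at h3
    have hTθ : 0 < (TT p c k : ℝ) ^ θ := Real.rpow_pos_of_pos h4 _
    have e : (TT p c k : ℝ) ^ (θ - 1) = (TT p c k : ℝ) ^ θ / TT p c k := Real.rpow_sub_one h4.ne' θ
    rw [e, div_mul_div_comm, mul_comm (H k : ℝ), mul_div_mul_left _ _ hTθ.ne', div_lt_one h4] at h3
    exact_mod_cast h3.le
  · have h1 : Tendsto (fun x : ℝ => Real.log x ^ 2 / x ^ θ) atTop (𝓝 0) := by
      have := isLittleO_log_rpow_rpow_atTop (s := θ) 2 hθ0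
      simp only [Real.rpow_two] at this
      exact this.tendsto_div_nhds_zero
    have h2 := ((h1.comp hTr).mul ((TT_log hp hc).inv₀ hp.ne')).mul (hH.inv₀ hκ.ne')
    rw [zero_mul, zero_mul] at h2
    have hl : Tendsto (fun k : ℕ => Real.log (k : ℝ)) atTop atTop := Real.tendsto_log_atTop.comp tendsto_natCast_atTop_atTop
    have hTl : Tendsto (fun k : ℕ => Real.log (TT p c k)) atTop atTop := Real.tendsto_log_atTop.comp hTr
    refine h2.congr' ?_
    filter_upwards [hpos, hl.eventually_gt_atTop 0, hTl.eventually_gt_atTop 0, hTr.eventually_gt_atTop 0] with k h3 h4 h5 h6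
    have hTθ : 0 < (TT p c k : ℝ) ^ θ := Real.rpow_pos_of_pos h6 _
    simp only [Function.comp]
    field_simp

lemma ceil_ratio {y : ℕ → ℝ} (hy : Tendsto y atTop atTop) {κ : ℝ} (hκ : 0 < κ) :
    Tendsto (fun k => ((⌈κ * y k⌉₊ : ℕ) : ℝ) / y k) atTop (𝓝 κ) := by
  have h1 := ((tendsto_nat_ceil_div_atTop (R := ℝ)).comp (hy.const_mul_atTop hκ)).mul_const κ
  rw [one_mul] at h1
  refine h1.congr' ?_
  filter_upwards [hy.eventually_gt_atTop 0] with k hk
  simp only [Function.comp]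
  field_simp

/-- **upper half** -/
theorem pow_upper (hA : ∀ n, MeasurableSet[ℱ n] (A n))
    (hd : ∀ᵐ ω ∂μ, Tendsto (fun n : ℕ => dens μ ℱ A n ω * Real.log n) atTop (𝓝 1)) {θ : ℝ} (hθ0 : 0 < θ) (hθ : θ < 1) :
    ∀ᵐ ω ∂μ, ∀ ε : ℝ, 0 < ε → ∀ᶠ x : ℝ in atTop,
      |exc μ ℱ A ⌊x⌋₊ ⌈x + x ^ θ⌉₊ ω| ≤ (1 + ε) * Real.sqrt (2 * (1 - θ) * x ^ θ) := by
  set p : ℝ := 1 / (1 - θ) with hpθ
  have hp1 : 1 < p := by
    rw [hpθ, lt_div_iff₀ (by linarith)]
    linarith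
  have hp : 0 < p := by linarith
  have main : ∀ D : ℝ, 0 < D → D ≤ 1 → ∀ᵐ ω ∂μ, ∀ᶠ x : ℝ in atTop,
      |exc μ ℱ A ⌊x⌋₊ ⌈x + x ^ θ⌉₊ ω| ≤ ((1 + D) * (Real.sqrt (1 + 4 * D) + Real.sqrt (3 * D))) *
        Real.sqrt (2 * (1 - θ) * x ^ θ) := by
    intro D hD hD1
    set c : ℝ := D / p with hc
    have hc0 : 0 < c := div_pos hD hp
    have hcp : c * p = D := by rw [hc]; field_simp
    set T : ℕ → ℕ := TT p c with hT
    have hTr : Tendsto (fun k : ℕ => (T k : ℝ)) atTop atTop := tendsto_natCast_atTop_atTop.comp (TT_tend hp hc0)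
    have hy : Tendsto (fun k : ℕ => (T k : ℝ) ^ θ) atTop atTop := (tendsto_rpow_atTop hθ0).comp hTr
    set H : ℕ → ℕ := fun k => ⌈(1 + 3 * D) * (T k : ℝ) ^ θ⌉₊ with hH
    set H' : ℕ → ℕ := fun k => ⌈(2 * D) * (T k : ℝ) ^ θ⌉₊ with hH'
    have hHr : Tendsto (fun k => (H k : ℝ) / (T k : ℝ) ^ θ) atTop (𝓝 (1 + 3 * D)) := ceil_ratio hy (by linarith)
    have hHr' : Tendsto (fun k => (H' k : ℝ) / (T k : ℝ) ^ θ) atTop (𝓝 (2 * D)) := ceil_ratio hy (by linarith)
    obtain ⟨a1, a2, a3⟩ := hyp_small hθ0 hθ hpθ hc0 (show 0 < 1 + 3 * D by linarith) hHr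
    obtain ⟨b1, b2, b3⟩ := hyp_small hθ0 hθ hpθ hc0 (show 0 < 2 * D by linarith) hHr'
    have r1 := MM_ratio hθ0 hθ hpθ hc0 (show 0 < 1 + 3 * D by linarith) hHr
    have r2 := MM_ratio hθ0 hθ hpθ hc0 (show 0 < 2 * D by linarith) hHr'
    have hone : ∀ (k i : ℕ), |((fun _ _ => 1 : ℕ → ℕ → ℝ) k i)| ≤ 1 := fun _ _ => by simp
    have hmone : ∀ (k i : ℕ), |((fun _ _ => -1 : ℕ → ℕ → ℝ) k i)| ≤ 1 := fun _ _ => by simp
    have u1 := seq_upper (μ := μ) hA hd (T := T) (H := H) (σ := fun _ _ => 1) (W := fun k => (H k : ℝ)) hone (TT_tend hp hc0) a1 a2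
      (Eventually.of_forall fun k => (RW_const (by norm_num) _).le) a3
    have u2 := seq_upper (μ := μ) hA hd (T := T) (H := H) (σ := fun _ _ => -1) (W := fun k => (H k : ℝ)) hmone (TT_tend hp hc0) a1 a2
      (Eventually.of_forall fun k => (RW_const (by norm_num) _).le) a3
    have u3 := seq_upper (μ := μ) hA hd (T := T) (H := H') (σ := fun _ _ => 1) (W := fun k => (H' k : ℝ)) hone (TT_tend hp hc0) b1 b2
      (Eventually.of_forall fun k => (RW_const (by norm_num) _).le) b3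
    have u4 := seq_upper (μ := μ) hA hd (T := T) (H := H') (σ := fun _ _ => -1) (W := fun k => (H' k : ℝ)) hmone (TT_tend hp hc0) b1 b2
      (Eventually.of_forall fun k => (RW_const (by norm_num) _).le) b3
    have hst := TT_step hθ0 hθ hpθ hc0
    rw [hcp] at hst
    have hneg : Tendsto (fun k : ℕ => (T k : ℝ) ^ (θ - 1)) atTop (𝓝 0) := by
      have := (tendsto_rpow_neg_atTop (show (0 : ℝ) < 1 - θ by linarith)).comp hTr
      rwa [neg_sub] at this
    filter_upwards [u1, u2, u3, u4, DD'_ae (μ := μ) hA] with ω v1 v2 v3 v4 hDD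
    have ev : ∀ᶠ k : ℕ in atTop, (∀ j, j ≤ H k → |SW μ ℱ A (fun _ => 1) (T k) j ω| ≤
          (1 + D) * (Real.sqrt (1 + 4 * D) * Real.sqrt (2 * (1 - θ) * (T k : ℝ) ^ θ))) ∧
        (∀ j, j ≤ H' k → |SW μ ℱ A (fun _ => 1) (T k) j ω| ≤
          (1 + D) * (Real.sqrt (3 * D) * Real.sqrt (2 * (1 - θ) * (T k : ℝ) ^ θ))) ∧
        (T (k + 1) : ℝ) - T k ≤ 2 * D * (T k : ℝ) ^ θ ∧ (T (k + 1) : ℝ) ^ θ ≤ (1 + D) * (T k : ℝ) ^ θ := by
      filter_upwards [v1 D hD, v2 D hD, v3 D hD, v4 D hD, r1.eventually_lt_const (show Real.sqrt (1 + 3 * D) < Real.sqrt (1 + 4 * D) from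
        Real.sqrt_lt_sqrt (by linarith) (by linarith)), r2.eventually_lt_const (show Real.sqrt (2 * D) < Real.sqrt (3 * D) from
        Real.sqrt_lt_sqrt (by linarith) (by linarith)), hst.eventually_lt_const (show D < 2 * D by linarith),
        hTr.eventually_gt_atTop 0, hneg.eventually_lt_const (show (0 : ℝ) < 1 / 2 by norm_num)] with k w1 w2 w3 w4 w5 w6 w7 w8 w9
      have hTθ : 0 < (T k : ℝ) ^ θ := Real.rpow_pos_of_pos w8 _
      have hN : 0 < Real.sqrt (2 * (1 - θ) * (T k : ℝ) ^ θ) := Real.sqrt_pos.2 (mul_pos (by linarith) hTθ)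
      rw [div_lt_iff₀ hN] at w5 w6
      rw [div_lt_iff₀ hTθ] at w7
      refine ⟨fun j hj => ?_, fun j hj => ?_, w7.le, ?_⟩
      · have c1 := w1 j hj
        have c2 := w2 j hj
        rw [SW_neg] at c2
        have c3 : (1 + D) * MM (H k) (Real.log (T k)) (Real.log k) ≤
            (1 + D) * (Real.sqrt (1 + 4 * D) * Real.sqrt (2 * (1 - θ) * (T k : ℝ) ^ θ)) :=
          mul_le_mul_of_nonneg_left w5.le (by linarith)
        rw [abs_le]
        constructor <;> linarith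
      · have c1 := w3 j hj
        have c2 := w4 j hj
        rw [SW_neg] at c2
        have c3 : (1 + D) * MM (H' k) (Real.log (T k)) (Real.log k) ≤
            (1 + D) * (Real.sqrt (3 * D) * Real.sqrt (2 * (1 - θ) * (T k : ℝ) ^ θ)) :=
          mul_le_mul_of_nonneg_left w6.le (by linarith)
        rw [abs_le]
        constructor <;> linarith
      · have hmono : (T k : ℝ) ≤ T (k + 1) := by exact_mod_cast TT_mono hp.le hc0 (Nat.le_succ k)
        have e1 : (T (k + 1) : ℝ) = T k * (T (k + 1) / T k) := by field_simp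
        have h1 : 1 ≤ (T (k + 1) : ℝ) / T k := by rw [le_div_iff₀ w8]; linarith
        rw [e1, Real.mul_rpow w8.le (by positivity), mul_comm]
        apply mul_le_mul_of_nonneg_right _ hTθ.le
        have h2 : ((T (k + 1) : ℝ) / T k) ^ θ ≤ (T (k + 1) : ℝ) / T k := by
          have := Real.rpow_le_rpow_of_exponent_le h1 hθ.le
          rwa [Real.rpow_one] at this
        refine h2.trans ?_
        rw [div_le_iff₀ w8]
        have h3 : (T k : ℝ) ^ θ = T k * (T k : ℝ) ^ (θ - 1) := by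
          have := Real.rpow_add w8 1 (θ - 1)
          rw [Real.rpow_one, add_sub_cancel] at this
          exact this
        have h4 : (T k : ℝ) * (T k : ℝ) ^ (θ - 1) ≤ T k * (1 / 2) := mul_le_mul_of_nonneg_left w9.le w8.le
        nlinarith
    obtain ⟨K, hK⟩ := eventually_atTop.1 ev
    filter_upwards [eventually_ge_atTop ((T K : ℝ) + 1), eventually_ge_atTop 1] with x hx hx1
    have hx0 : 0 ≤ x := by linarith
    have hTK : T K ≤ ⌊x⌋₊ := Nat.le_floor (by linarith)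
    obtain ⟨k, hk, hk1, hk2⟩ := bracket (TT_tend hp hc0) hTK
    obtain ⟨g1, g2, g3, g4⟩ := hK k hk
    have hxθ : 1 ≤ x ^ θ := Real.one_le_rpow hx1 hθ0.le
    set a : ℕ := ⌊x⌋₊ with ha
    set b : ℕ := ⌈x + x ^ θ⌉₊ with hb
    have ha1 : (a : ℝ) ≤ x := Nat.floor_le hx0
    have hb1 : x + x ^ θ ≤ b := Nat.le_ceil _
    have hb2 : (b : ℝ) < x + x ^ θ + 1 := Nat.ceil_lt_add_one (by positivity)
    have hab : a + 1 ≤ b := by
      have : (a : ℝ) + 1 ≤ b := by linarith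
      exact_mod_cast this
    have hk1 : T k ≤ a := hk1
    have hTb : T k ≤ b - 1 := by omega
    have hb0 : 1 ≤ b := by omega
    have hxT : x < T (k + 1) := by
      have := (Nat.floor_lt hx0).1 hk2
      exact this
    have hTkx : (T k : ℝ) ≤ x := le_trans (by exact_mod_cast hk1) ha1
    have hTk0 : (0 : ℝ) ≤ T k := Nat.cast_nonneg _
    have j1 : a - T k ≤ H' k := by
      have : ((a - T k : ℕ) : ℝ) ≤ (2 * D) * (T k : ℝ) ^ θ := by
        rw [Nat.cast_sub hk1]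
        linarith
      have := this.trans (Nat.le_ceil _)
      exact_mod_cast this
    have j2 : b - 1 - T k ≤ H k := by
      have h5 : ((b - 1 - T k : ℕ) : ℝ) ≤ (1 + 3 * D) * (T k : ℝ) ^ θ := by
        rw [Nat.cast_sub hTb, Nat.cast_sub hb0, Nat.cast_one]
        have h6 : x ^ θ ≤ (T (k + 1) : ℝ) ^ θ := Real.rpow_le_rpow hx0 hxT.le hθ0.le
        linarith
      have := h5.trans (Nat.le_ceil _)
      exact_mod_cast this
    rw [exc_SW hDD hk1 hab]
    have h7 := g1 _ j2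
    have h8 := g2 _ j1
    have h9 : Real.sqrt (2 * (1 - θ) * (T k : ℝ) ^ θ) ≤ Real.sqrt (2 * (1 - θ) * x ^ θ) := by
      apply Real.sqrt_le_sqrt
      apply mul_le_mul_of_nonneg_left _ (by linarith)
      exact Real.rpow_le_rpow hTk0 hTkx hθ0.le
    refine (abs_sub _ _).trans ((add_le_add h7 h8).trans ?_)
    have h10 : 0 ≤ Real.sqrt (1 + 4 * D) := Real.sqrt_nonneg _
    have h11 : 0 ≤ Real.sqrt (3 * D) := Real.sqrt_nonneg _
    calc (1 + D) * (Real.sqrt (1 + 4 * D) * Real.sqrt (2 * (1 - θ) * (T k : ℝ) ^ θ)) +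
          (1 + D) * (Real.sqrt (3 * D) * Real.sqrt (2 * (1 - θ) * (T k : ℝ) ^ θ))
        = ((1 + D) * (Real.sqrt (1 + 4 * D) + Real.sqrt (3 * D))) * Real.sqrt (2 * (1 - θ) * (T k : ℝ) ^ θ) := by ring
      _ ≤ _ := mul_le_mul_of_nonneg_left h9 (by positivity)
  have hall : ∀ᵐ ω ∂μ, ∀ m : ℕ, ∀ᶠ x : ℝ in atTop,
      |exc μ ℱ A ⌊x⌋₊ ⌈x + x ^ θ⌉₊ ω| ≤ ((1 + 1 / ((m : ℝ) + 1)) * (Real.sqrt (1 + 4 * (1 / ((m : ℝ) + 1))) +
        Real.sqrt (3 * (1 / ((m : ℝ) + 1))))) * Real.sqrt (2 * (1 - θ) * x ^ θ) := by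
    rw [ae_all_iff]
    intro m
    refine main _ (by positivity) ?_
    rw [div_le_one (by positivity)]
    linarith [Nat.cast_nonneg (α := ℝ) m]
  have hlim : Tendsto (fun m : ℕ => (1 + 1 / ((m : ℝ) + 1)) * (Real.sqrt (1 + 4 * (1 / ((m : ℝ) + 1))) +
        Real.sqrt (3 * (1 / ((m : ℝ) + 1))))) atTop (𝓝 1) := by
    have h0 : Tendsto (fun m : ℕ => 1 / ((m : ℝ) + 1)) atTop (𝓝 0) := tendsto_one_div_add_atTop_nhds_zero_nat
    have h1 := (h0.const_add 1).mul ((((h0.const_mul 4).const_add 1).sqrt).add ((h0.const_mul 3).sqrt))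
    simpa using h1
  filter_upwards [hall] with ω hω ε hε
  obtain ⟨m, hm⟩ := (hlim.eventually_lt_const (show (1 : ℝ) < 1 + ε by linarith)).exists
  filter_upwards [hω m] with x hx
  exact hx.trans (mul_le_mul_of_nonneg_right hm.le (Real.sqrt_nonneg _))

end Pool.Agent.N740.HK
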