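import Mathlib
import Pool.Agent.N740.HK.Pow2

/-!
# Windows `(x, x + x^θ)`: the limit set
-/

set_option autoImplicit false
set_option linter.unusedSectionVars false

open MeasureTheory Filter Set
open scoped ENNReal Topology

namespace Pool.Agent.N740.HK

open Pool.Agent.R528.RM

lemma per4 {g : ℕ → ℝ} (h : ∀ n, g n + g (n + 1) + g (n + 2) + g (n + 3) = 0) (h1 : ∀ n, |g n| ≤ 1) :
    ∀ n, |∑ i ∈ Finset.range n, g i| ≤ 3 := by
  intro n
  induction n using Nat.strong_induction_on with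
  | _ n ih =>
    by_cases hn : n < 4
    · refine (Finset.abs_sum_le_sum_abs _ _).trans ?_
      have h2 : ∑ i ∈ Finset.range n, |g i| ≤ ∑ i ∈ Finset.range n, (1 : ℝ) := Finset.sum_le_sum fun i _ => h1 i
      refine h2.trans ?_
      simp only [Finset.sum_const, Finset.card_range, nsmul_eq_mul, mul_one]
      have : n ≤ 3 := by omega
      exact_mod_cast this
    · obtain ⟨m, rfl⟩ : ∃ m, n = m + 4 := ⟨n - 4, by omega⟩
      rw [Finset.sum_range_succ, Finset.sum_range_succ, Finset.sum_range_succ, Finset.sum_range_succ]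
      have h3 := ih m (by omega)
      have h4 := h m
      have e : ∑ i ∈ Finset.range m, g i + g m + g (m + 1) + g (m + 2) + g (m + 3) = ∑ i ∈ Finset.range m, g i := by linarith
      rw [e]
      exact h3

/-- alternating signs -/
noncomputable def s1 (i : ℕ) : ℝ := (-1) ^ i
/-- alternating signs, period four -/
noncomputable def s2 (i : ℕ) : ℝ := (-1) ^ (i / 2)

lemma s1_sq (i : ℕ) : s1 i ^ 2 = 1 := by unfold s1; rw [← pow_mul, mul_comm, pow_mul]; norm_num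
lemma s2_sq (i : ℕ) : s2 i ^ 2 = 1 := by unfold s2; rw [← pow_mul, mul_comm, pow_mul]; norm_num
lemma s1_abs (i : ℕ) : |s1 i| ≤ 1 := by unfold s1; rw [abs_pow, abs_neg, abs_one, one_pow]
lemma s2_abs (i : ℕ) : |s2 i| ≤ 1 := by unfold s2; rw [abs_pow, abs_neg, abs_one, one_pow]
lemma s1_succ (i : ℕ) : s1 (i + 1) = -s1 i := by unfold s1; rw [pow_succ]; ring
lemma s2_two (i : ℕ) : s2 (i + 2) = -s2 i := by
  unfold s2
  rw [show (i + 2) / 2 = i / 2 + 1 by omega, pow_succ]; ring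

lemma sum_s1 (n : ℕ) : |∑ i ∈ Finset.range n, s1 i| ≤ 3 :=
  per4 (fun n => by
    have e1 : s1 (n + 1) = -s1 n := s1_succ n
    have e2 : s1 (n + 2) = -s1 (n + 1) := s1_succ (n + 1)
    have e3 : s1 (n + 3) = -s1 (n + 2) := s1_succ (n + 2)
    linarith) s1_abs n

lemma sum_s2 (n : ℕ) : |∑ i ∈ Finset.range n, s2 i| ≤ 3 :=
  per4 (fun n => by rw [show n + 3 = n + 1 + 2 by ring, s2_two, s2_two]; ring) s2_abs n

lemma sum_s12 (n : ℕ) : |∑ i ∈ Finset.range n, s1 i * s2 i| ≤ 3 := by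
  refine per4 (fun n => ?_) (fun n => ?_) n
  · have h1 : s1 (n + 2) = s1 n := by rw [show n + 2 = n + 1 + 1 by ring, s1_succ, s1_succ]; ring
    have h2 : s1 (n + 3) = s1 (n + 1) := by rw [show n + 3 = n + 1 + 1 + 1 by ring, s1_succ, s1_succ]; ring
    rw [h1, h2, show n + 3 = n + 1 + 2 by ring, s2_two, s2_two]
    ring
  · rw [abs_mul]
    exact mul_le_one₀ (s1_abs n) (abs_nonneg _) (s2_abs n)

lemma gram2 (a b c : ℝ) {H : ℕ → ℕ} (hH : Tendsto H atTop atTop) :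
    Tendsto (fun k => RW (fun i => a * 1 + b * s1 i + c * s2 i) (H k) 0 / (H k : ℝ)) atTop (𝓝 (a ^ 2 + b ^ 2 + c ^ 2)) := by
  have h1 : ∀ n : ℕ, RW (fun i => a * 1 + b * s1 i + c * s2 i) n 0 = n * (a ^ 2 + b ^ 2 + c ^ 2) +
      (2 * a * b * ∑ i ∈ Finset.range n, s1 i + 2 * a * c * ∑ i ∈ Finset.range n, s2 i +
        2 * b * c * ∑ i ∈ Finset.range n, s1 i * s2 i) := by
    intro n
    unfold RW
    rw [← Finset.range_eq_Ico]
    have : ∀ i ∈ Finset.range n, (a * 1 + b * s1 i + c * s2 i) ^ 2 = (a ^ 2 + b ^ 2 + c ^ 2) + (2 * a * b * s1 i + 2 * a * c * s2 i +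
        2 * b * c * (s1 i * s2 i)) := by
      intro i _
      linear_combination b ^ 2 * s1_sq i + c ^ 2 * s2_sq i
    rw [Finset.sum_congr rfl this]
    simp only [Finset.sum_add_distrib, ← Finset.mul_sum, Finset.sum_const, Finset.card_range, nsmul_eq_mul]
    ring
  set C : ℝ := |2 * a * b| * 3 + |2 * a * c| * 3 + |2 * b * c| * 3 with hC
  have hHr : Tendsto (fun k => (H k : ℝ)) atTop atTop := tendsto_natCast_atTop_atTop.comp hH
  have h2 : Tendsto (fun k => (2 * a * b * ∑ i ∈ Finset.range (H k), s1 i + 2 * a * c * ∑ i ∈ Finset.range (H k), s2 i +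
        2 * b * c * ∑ i ∈ Finset.range (H k), s1 i * s2 i) / (H k : ℝ)) atTop (𝓝 0) := by
    refine squeeze_zero_norm' ?_ (hHr.const_div_atTop C)
    filter_upwards [hHr.eventually_gt_atTop 0] with k hk
    rw [norm_div, Real.norm_of_nonneg hk.le, Real.norm_eq_abs]
    apply div_le_div_of_nonneg_right _ hk.le
    refine (abs_add_le _ _).trans ?_
    refine (add_le_add_left (abs_add_le _ _) _).trans ?_
    rw [abs_mul (2 * a * b), abs_mul (2 * a * c), abs_mul (2 * b * c)]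
    have e1 := mul_le_mul_of_nonneg_left (sum_s1 (H k)) (abs_nonneg (2 * a * b))
    have e2 := mul_le_mul_of_nonneg_left (sum_s2 (H k)) (abs_nonneg (2 * a * c))
    have e3 := mul_le_mul_of_nonneg_left (sum_s12 (H k)) (abs_nonneg (2 * b * c))
    linarith
  have h3 := h2.const_add (a ^ 2 + b ^ 2 + c ^ 2)
  rw [add_zero] at h3
  refine h3.congr' ?_
  filter_upwards [hHr.eventually_gt_atTop 0] with k hk
  rw [h1]
  field_simp

variable {Ω : Type} {m0 : MeasurableSpace Ω} {μ : Measure Ω} [IsProbabilityMeasure μ]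
  {ℱ : Filtration ℕ m0} {A : ℕ → Set Ω}

/-- **the limit set for a sequence of disjoint windows** -/
theorem seq_set (hA : ∀ n, MeasurableSet[ℱ n] (A n))
    (hd : ∀ᵐ ω ∂μ, Tendsto (fun n : ℕ => dens μ ℱ A n ω * Real.log n) atTop (𝓝 1))
    {T H : ℕ → ℕ} (hT : Tendsto T atTop atTop) (hHt : Tendsto H atTop atTop)
    (hH : ∀ᶠ k in atTop, H k ≤ T k) (hs : Tendsto (fun k : ℕ => Real.log k * Real.log (T k) / (H k : ℝ)) atTop (𝓝 0))
    (hTH : ∀ k, T k + H k ≤ T (k + 1)) :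
    ∀ᵐ ω ∂μ, (∀ᶠ k in atTop, |SW μ ℱ A (fun _ => 1) (T k) (H k) ω / MM (H k) (Real.log (T k)) (Real.log k)| ≤ 2) ∧
      ∀ x : ℝ, |x| ≤ 1 → ∀ ε : ℝ, 0 < ε → ∃ᶠ k in atTop,
        |SW μ ℱ A (fun _ => 1) (T k) (H k) ω / MM (H k) (Real.log (T k)) (Real.log k) - x| < ε := by
  have main := disc (μ := μ) hA hd (T := T) (H := H) (σ₁ := fun _ _ => 1) (σ₂ := fun _ i => s1 i) (σ₃ := fun _ i => s2 i)
    (W := fun k => (H k : ℝ)) (fun _ _ => by simp) (fun _ i => s1_abs i) (fun _ i => s2_abs i) hT hH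
    ((tendsto_natCast_atTop_atTop.comp hHt).eventually_gt_atTop 0) (fun a b c => gram2 a b c hHt) hs hTH
  filter_upwards [main] with ω h1
  obtain ⟨h2, h3⟩ := h1
  constructor
  · filter_upwards [h2 1 one_pos] with k hk
    refine abs_le_of_sq_le_sq ?_ (by norm_num)
    have e1 := sq_nonneg (SW μ ℱ A (fun i => s1 i) (T k) (H k) ω / MM (H k) (Real.log (T k)) (Real.log k))
    have e2 := sq_nonneg (SW μ ℱ A (fun i => s2 i) (T k) (H k) ω / MM (H k) (Real.log (T k)) (Real.log k))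
    linarith
  · intro x hx ε hε
    have hx2 : x ^ 2 + 0 ^ 2 ≤ 1 := by
      rw [← sq_abs]
      have := abs_nonneg x
      nlinarith
    exact (h3 x 0 hx2 ε hε).mono fun k hk => hk.1

/-- **the law for the windows `(x, x + x^θ)`** -/
theorem pow_law (hA : ∀ n, MeasurableSet[ℱ n] (A n))
    (hd : ∀ᵐ ω ∂μ, Tendsto (fun n : ℕ => dens μ ℱ A n ω * Real.log n) atTop (𝓝 1)) {θ : ℝ} (hθ0 : 0 < θ) (hθ : θ < 1) :
    ∀ᵐ ω ∂μ, ∀ z : ℝ, |z| ≤ 1 → ∀ ε : ℝ, 0 < ε → ∃ᶠ x : ℝ in atTop,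
      |exc μ ℱ A ⌊x⌋₊ ⌈x + x ^ θ⌉₊ ω / Real.sqrt (2 * (1 - θ) * x ^ θ) - z| < ε := by
  set p : ℝ := 1 / (1 - θ) with hpθ
  have hp1 : 1 < p := by
    rw [hpθ, lt_div_iff₀ (by linarith)]
    linarith
  have hp : 0 < p := by linarith
  set T : ℕ → ℕ := TT p 2 with hT
  have hTt : Tendsto T atTop atTop := TT_tend hp two_pos
  have hTr : Tendsto (fun k : ℕ => (T k : ℝ)) atTop atTop := tendsto_natCast_atTop_atTop.comp hTt
  have hy : Tendsto (fun k : ℕ => (T k : ℝ) ^ θ) atTop atTop := (tendsto_rpow_atTop hθ0).comp hTr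
  set H : ℕ → ℕ := fun k => ⌈(T k : ℝ) + (T k : ℝ) ^ θ⌉₊ - 1 - T k with hH
  have hTH : ∀ k, T k + H k ≤ T (k + 1) := by
    intro k
    have hmono : T k ≤ T (k + 1) := TT_mono hp.le two_pos (Nat.le_succ k)
    have hceil : ⌈(T k : ℝ) + (T k : ℝ) ^ θ⌉₊ ≤ T (k + 1) + 1 := by
      rw [Nat.ceil_le]
      push_cast
      have h1 : (2 * ((k + 1 : ℕ) : ℝ)) ^ p < T (k + 1) + 1 := Nat.lt_floor_add_one _
      have hf0 : 0 ≤ (2 * (k : ℝ)) ^ p := Real.rpow_nonneg (by positivity) _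
      have h2 : (T k : ℝ) ≤ (2 * (k : ℝ)) ^ p := Nat.floor_le hf0
      have h3 : (T k : ℝ) ^ θ ≤ (2 * (k : ℝ)) ^ (p - 1) := by
        have h4 := Real.rpow_le_rpow (Nat.cast_nonneg _) h2 hθ0.le
        rw [← Real.rpow_mul (by positivity)] at h4
        have e : p * θ = p - 1 := by
          have : 1 - θ ≠ 0 := by linarith
          rw [hpθ]
          field_simp
          ring
        rwa [e] at h4
      have h5 : (2 * (k : ℝ)) ^ p + (2 * (k : ℝ)) ^ (p - 1) ≤ (2 * ((k + 1 : ℕ) : ℝ)) ^ p := by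
        rcases Nat.eq_zero_or_pos k with rfl | hk
        · simp only [Nat.cast_zero, mul_zero]
          rw [Real.zero_rpow hp.ne', Real.zero_rpow (by linarith : p - 1 ≠ 0), add_zero]
          positivity
        · have hk' : (0 : ℝ) < k := by exact_mod_cast hk
          have h2k : 0 < 2 * (k : ℝ) := by positivity
          have e1 : 2 * ((k + 1 : ℕ) : ℝ) = (2 * k) * (1 + 1 / (k : ℝ)) := by
            push_cast
            field_simp
          have e2 : (2 * (k : ℝ)) ^ p = (2 * k) * (2 * (k : ℝ)) ^ (p - 1) := by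
            have := Real.rpow_add h2k 1 (p - 1)
            rw [Real.rpow_one, add_sub_cancel] at this
            exact this
          have hb := one_add_mul_self_le_rpow_one_add (show (-1 : ℝ) ≤ 1 / (k : ℝ) by
            have : (0 : ℝ) < 1 / (k : ℝ) := by positivity
            linarith) hp1.le
          rw [e1, Real.mul_rpow h2k.le (by positivity)]
          have hg : 0 < (2 * (k : ℝ)) ^ (p - 1) := Real.rpow_pos_of_pos h2k _
          have h6 : (2 * (k : ℝ)) ^ p * (1 + p * (1 / (k : ℝ))) ≤ (2 * (k : ℝ)) ^ p * (1 + 1 / (k : ℝ)) ^ p :=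
            mul_le_mul_of_nonneg_left hb hf0
          have h7 : (2 * (k : ℝ)) ^ p * (1 + p * (1 / (k : ℝ))) = (2 * (k : ℝ)) ^ p + 2 * p * (2 * (k : ℝ)) ^ (p - 1) := by
            rw [e2]
            field_simp
          rw [h7] at h6
          nlinarith
      linarith
    simp only [hH]
    omega
  have hbd : ∀ k, 1 ≤ (T k : ℝ) ^ θ → T k + 1 ≤ ⌈(T k : ℝ) + (T k : ℝ) ^ θ⌉₊ ∧ (T k : ℝ) ^ θ - 1 ≤ H k ∧ (H k : ℝ) ≤ (T k : ℝ) ^ θ := by
    intro k hk
    have h1 := Nat.le_ceil ((T k : ℝ) + (T k : ℝ) ^ θ)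
    have h2 := Nat.ceil_lt_add_one (show 0 ≤ (T k : ℝ) + (T k : ℝ) ^ θ by positivity)
    have h3 : T k + 1 ≤ ⌈(T k : ℝ) + (T k : ℝ) ^ θ⌉₊ := by
      have : (T k : ℝ) + 1 ≤ ⌈(T k : ℝ) + (T k : ℝ) ^ θ⌉₊ := by linarith
      exact_mod_cast this
    have h4 : (H k : ℝ) = (⌈(T k : ℝ) + (T k : ℝ) ^ θ⌉₊ : ℝ) - 1 - T k := by
      simp only [hH]
      rw [Nat.cast_sub (by omega), Nat.cast_sub (by omega), Nat.cast_one]
    refine ⟨h3, ?_, ?_⟩ <;> linarith
  have hHr : Tendsto (fun k => (H k : ℝ) / (T k : ℝ) ^ θ) atTop (𝓝 1) := by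
    have h1 : Tendsto (fun k => 1 - 1 / (T k : ℝ) ^ θ) atTop (𝓝 1) := by
      have := (hy.const_div_atTop 1).const_sub 1
      rwa [sub_zero] at this
    refine tendsto_of_tendsto_of_tendsto_of_le_of_le' h1 tendsto_const_nhds ?_ ?_
    · filter_upwards [hy.eventually_ge_atTop 1] with k hk
      have h0 : 0 < (T k : ℝ) ^ θ := by linarith
      rw [le_div_iff₀ h0, sub_mul, div_mul_cancel₀ _ h0.ne', one_mul]
      exact (hbd k hk).2.1
    · filter_upwards [hy.eventually_ge_atTop 1] with k hk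
      have h0 : 0 < (T k : ℝ) ^ θ := by linarith
      rw [div_le_one h0]
      exact (hbd k hk).2.2
  have hHt : Tendsto H atTop atTop := by
    have h1 : Tendsto (fun k => (H k : ℝ)) atTop atTop := by
      refine tendsto_atTop_mono' atTop ?_ (tendsto_atTop_add_const_right atTop (-1 : ℝ) hy)
      filter_upwards [hy.eventually_ge_atTop 1] with k hk
      have := (hbd k hk).2.1
      linarith
    exact tendsto_natCast_atTop_iff.1 h1
  obtain ⟨a1, a2, a3⟩ := hyp_small hθ0 hθ hpθ two_pos one_pos hHr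
  have r1 := MM_ratio hθ0 hθ hpθ two_pos one_pos hHr
  rw [Real.sqrt_one] at r1
  filter_upwards [seq_set (μ := μ) hA hd hTt hHt a1 a3 hTH, DD'_ae (μ := μ) hA] with ω h1 hD z hz ε hε
  obtain ⟨h2, h3⟩ := h1
  have hclose : ∀ᶠ k in atTop, |MM (H k) (Real.log (T k)) (Real.log k) / Real.sqrt (2 * (1 - θ) * (T k : ℝ) ^ θ) - 1| < ε / 8 :=
    Metric.tendsto_nhds.1 r1 (ε / 8) (by positivity)
  have h4 : ∃ᶠ k in atTop, |exc μ ℱ A ⌊(T k : ℝ)⌋₊ ⌈(T k : ℝ) + (T k : ℝ) ^ θ⌉₊ ω / Real.sqrt (2 * (1 - θ) * (T k : ℝ) ^ θ) - z| < ε := by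
    refine ((h3 z hz (ε / 2) (by positivity)).and_eventually (h2.and (hclose.and ((hy.eventually_ge_atTop 1).and
      (r1.eventually_const_lt (show (0 : ℝ) < 1 by norm_num)))))).mono ?_
    rintro k ⟨g1, g2, g3, g4, g5⟩
    have hTθ : 0 < (T k : ℝ) ^ θ := by linarith
    have hN : 0 < Real.sqrt (2 * (1 - θ) * (T k : ℝ) ^ θ) := Real.sqrt_pos.2 (mul_pos (by linarith) hTθ)
    have hM : MM (H k) (Real.log (T k)) (Real.log k) ≠ 0 := by
      intro h
      rw [h, zero_div] at g5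
      exact lt_irrefl _ g5
    rw [Nat.floor_natCast, exc_SW hD le_rfl (hbd k g4).1, Nat.sub_self]
    have e0 : SW μ ℱ A (fun _ => 1) (T k) 0 ω = 0 := by simp [SW]
    rw [e0, sub_zero]
    have e1 : ⌈(T k : ℝ) + (T k : ℝ) ^ θ⌉₊ - 1 - T k = H k := rfl
    rw [e1]
    set U : ℝ := SW μ ℱ A (fun _ => 1) (T k) (H k) ω / MM (H k) (Real.log (T k)) (Real.log k) with hU
    set q : ℝ := MM (H k) (Real.log (T k)) (Real.log k) / Real.sqrt (2 * (1 - θ) * (T k : ℝ) ^ θ) with hq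
    have e2 : SW μ ℱ A (fun _ => 1) (T k) (H k) ω / Real.sqrt (2 * (1 - θ) * (T k : ℝ) ^ θ) - z = (q - 1) * U + (U - z) := by
      rw [hU, hq]
      field_simp
      ring
    rw [e2]
    refine (abs_add_le _ _).trans_lt ?_
    rw [abs_mul]
    have : |q - 1| * |U| ≤ ε / 8 * 2 := mul_le_mul g3.le g2 (abs_nonneg _) (by positivity)
    linarith
  rw [frequently_atTop]
  intro X
  obtain ⟨k, hk1, hk2⟩ := (h4.and_eventually (hTr.eventually_ge_atTop X)).exists
  exact ⟨T k, hk2, hk1⟩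

/-- **a chosen integer in every window** -/
theorem pow_nonempty (hA : ∀ n, MeasurableSet[ℱ n] (A n))
    (hd : ∀ᵐ ω ∂μ, Tendsto (fun n : ℕ => dens μ ℱ A n ω * Real.log n) atTop (𝓝 1)) {θ : ℝ} (hθ0 : 0 < θ) (hθ : θ < 1) :
    ∀ᵐ ω ∂μ, ∀ᶠ x : ℝ in atTop, ∃ q : ℕ, x < q ∧ (q : ℝ) < x + x ^ θ ∧ ω ∈ A q := by
  filter_upwards [pow_upper (μ := μ) hA hd hθ0 hθ, good_win (μ := μ) hA hd, DD'_ae (μ := μ) hA] with ω h1 h2 hD
  have h3 := (tendsto_nat_floor_atTop (α := ℝ)).eventually (h2 (1 / 2) (by norm_num) (by norm_num))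
  have h4 : ∀ᶠ x : ℝ in atTop, Real.log x ≤ 1 / 32 * x ^ (θ / 2) := by
    have := (isLittleO_log_rpow_atTop (show 0 < θ / 2 by positivity)).def (show (0 : ℝ) < 1 / 32 by norm_num)
    filter_upwards [this, eventually_ge_atTop 1] with x hx hx1
    rw [Real.norm_of_nonneg (Real.log_nonneg hx1), Real.norm_of_nonneg (Real.rpow_nonneg (by linarith) _)] at hx
    exact hx
  have h5 : ∀ᶠ x : ℝ in atTop, x ^ θ ≤ x / 2 := by
    have h6 : Tendsto (fun x : ℝ => x ^ (θ - 1)) atTop (𝓝 0) := by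
      have := tendsto_rpow_neg_atTop (show (0 : ℝ) < 1 - θ by linarith)
      rwa [neg_sub] at this
    filter_upwards [h6.eventually_lt_const (show (0 : ℝ) < 1 / 2 by norm_num), eventually_gt_atTop 0] with x hx hx0
    have e : x ^ θ = x * x ^ (θ - 1) := by
      have := Real.rpow_add hx0 1 (θ - 1)
      rw [Real.rpow_one, add_sub_cancel] at this
      exact this
    rw [e]
    nlinarith
  filter_upwards [h1 1 one_pos, h3, h4, h5, eventually_ge_atTop 4, (tendsto_rpow_atTop hθ0).eventually_ge_atTop 4]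
    with x g1 g2 g3 g4 hx4 g5
  have hx0 : 0 ≤ x := by linarith
  set a : ℕ := ⌊x⌋₊ with ha
  set b : ℕ := ⌈x + x ^ θ⌉₊ with hb
  have ha1 : (a : ℝ) ≤ x := Nat.floor_le hx0
  have ha2 : x < a + 1 := Nat.lt_floor_add_one x
  have hb1 : x + x ^ θ ≤ b := Nat.le_ceil _
  have hb2 : (b : ℝ) < x + x ^ θ + 1 := Nat.ceil_lt_add_one (by positivity)
  have hab : a + 1 ≤ b := by
    have : (a : ℝ) + 1 ≤ b := by linarith
    exact_mod_cast this
  obtain ⟨m, hm⟩ := Nat.exists_eq_add_of_le hab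
  have hbm : b = a + m + 1 := by omega
  have hmr : x ^ θ - 1 ≤ m := by
    have : (b : ℝ) = a + m + 1 := by exact_mod_cast hbm
    linarith
  have hma : m ≤ a := by
    have h6 : (m : ℝ) < a + 1 := by
      have : (b : ℝ) = a + m + 1 := by exact_mod_cast hbm
      linarith
    have : m < a + 1 := by exact_mod_cast h6
    omega
  by_contra hcon
  push Not at hcon
  have hno : ∀ i, i < m → ω ∉ A (a + i + 1) := by
    intro i hi
    refine hcon (a + i + 1) ((Nat.floor_lt hx0).1 (by omega)) ?_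
    exact Nat.lt_ceil.1 (by omega)
  have h6 : exc μ ℱ A a b ω = -∑ i ∈ Finset.range m, DD' μ ℱ A (a + i) ω := by
    unfold exc
    rw [hbm, Ioo_sum, ← Finset.sum_neg_distrib]
    refine Finset.sum_congr rfl fun i hi => ?_
    have hi := Finset.mem_range.1 hi
    rw [indicator_of_notMem (hno i hi), hD, zero_sub]
    rfl
  have ha3 : (3 : ℝ) ≤ a := by linarith
  have hloga : 0 < Real.log a := Real.log_pos (by linarith)
  have h7 : (m : ℝ) * ((1 - 1 / 2) / Real.log a) ≤ ∑ i ∈ Finset.range m, DD' μ ℱ A (a + i) ω := by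
    have : ∑ i ∈ Finset.range m, ((1 - 1 / 2) / Real.log (a : ℝ)) = (m : ℝ) * ((1 - 1 / 2) / Real.log a) := by simp
    rw [← this]
    refine Finset.sum_le_sum fun i hi => ?_
    have hi := Finset.mem_range.1 hi
    exact (g2 m hma i hi).1
  have h8 : (m : ℝ) * ((1 - 1 / 2) / Real.log a) ≤ 2 * Real.sqrt (2 * (1 - θ) * x ^ θ) := by
    rw [h6, abs_neg] at g1
    have := (le_abs_self _).trans g1
    linarith
  set y : ℝ := x ^ (θ / 2) with hy
  have hy0 : 0 < y := Real.rpow_pos_of_pos (by linarith) _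
  have hyy : x ^ θ = y ^ 2 := by
    rw [hy, ← Real.rpow_natCast, ← Real.rpow_mul hx0]
    congr 1
    push_cast
    ring
  have h9 : Real.sqrt (2 * (1 - θ) * x ^ θ) ≤ 2 * y := by
    rw [Real.sqrt_le_left (by positivity), hyy]
    nlinarith [sq_nonneg y]
  have hlog2 : Real.log a ≤ 1 / 32 * y := (Real.log_le_log (by linarith) ha1).trans g3
  have h10 : (m : ℝ) * (1 - 1 / 2) ≤ 4 * y * Real.log a := by
    rw [mul_div_assoc', div_le_iff₀ hloga] at h8
    nlinarith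
  nlinarith

end Pool.Agent.N740.HK
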