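import Mathlib
import Pool.Agent.N740.HK.Ball

/-!
# Windows cut into equal parts
-/

set_option autoImplicit false
set_option linter.unusedSectionVars false

open MeasureTheory Filter Set
open scoped ENNReal Topology

namespace Pool.Agent.N740.HK

open Pool.Agent.R528.RM

/-- the end points of the parts -/
def cp (m H i : ℕ) : ℕ := i * H / m

lemma cp_zero (m H : ℕ) : cp m H 0 = 0 := by simp [cp]

lemma cp_last {m : ℕ} (hm : 0 < m) (H : ℕ) : cp m H m = H := by
  unfold cp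
  exact Nat.mul_div_cancel_left H hm

lemma cp_mono (m H : ℕ) : Monotone (cp m H) := fun i j hij => by
  unfold cp
  exact Nat.div_le_div_right (Nat.mul_le_mul_right _ hij)

lemma cp_len {m : ℕ} (hm : 0 < m) (H i : ℕ) :
    |((cp m H (i + 1) - cp m H i : ℕ) : ℝ) - (H : ℝ) / m| ≤ 1 := by
  have hm' : (0 : ℝ) < m := by exact_mod_cast hm
  rw [Nat.cast_sub (cp_mono m H (Nat.le_succ i))]
  have key : ∀ j : ℕ, (cp m H j : ℝ) ≤ (j * H : ℝ) / m ∧ (j * H : ℝ) / m < (cp m H j : ℝ) + 1 := by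
    intro j
    unfold cp
    constructor
    · rw [le_div_iff₀ hm']
      have := Nat.div_mul_le_self (j * H) m
      exact_mod_cast this
    · rw [div_lt_iff₀ hm']
      have := Nat.lt_div_mul_add (a := j * H) hm
      have h2 : j * H < (j * H / m + 1) * m := by
        rw [add_mul, one_mul]
        exact this
      exact_mod_cast h2
  have h1 := key i
  have h2 := key (i + 1)
  have e : (((i + 1 : ℕ) : ℝ) * H) / m = (i * H : ℝ) / m + (H : ℝ) / m := by
    push_cast
    ring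
  rw [e] at h2
  rw [abs_le]
  constructor <;> linarith [h1.1, h1.2, h2.1, h2.2]

/-- the indicator of a part -/
noncomputable def sp (m H i t : ℕ) : ℝ := if cp m H i ≤ t ∧ t < cp m H (i + 1) then 1 else 0

/-- the alternating signal -/
noncomputable def sq (m t : ℕ) : ℝ := (-1) ^ t / Real.sqrt m

lemma sp_abs (m H i t : ℕ) : |sp m H i t| ≤ 1 := by
  unfold sp
  split_ifs <;> simp

lemma sq_abs_le {m : ℕ} (hm : 0 < m) (t : ℕ) : |sq m t| ≤ 1 := by
  unfold sq
  have h1 : (1 : ℝ) ≤ Real.sqrt m := by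
    rw [Real.one_le_sqrt]
    exact_mod_cast hm
  rw [abs_div, abs_pow, abs_neg, abs_one, one_pow, abs_of_nonneg (Real.sqrt_nonneg _), div_le_one (by linarith)]
  exact h1

lemma blocks_sum {c : ℕ → ℕ} (hc : Monotone c) (h0 : c 0 = 0) (F : ℕ → ℝ) (n : ℕ) :
    ∑ t ∈ Finset.range (c n), F t = ∑ i ∈ Finset.range n, ∑ t ∈ Finset.Ico (c i) (c (i + 1)), F t := by
  induction n with
  | zero => simp [h0]
  | succ n ih =>
    rw [Finset.sum_range_succ, ← ih, Finset.range_eq_Ico, Finset.range_eq_Ico]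
    exact (Finset.sum_Ico_consecutive F (Nat.zero_le _) (hc (Nat.le_succ n))).symm

lemma alt_Ico (a b : ℕ) : |∑ t ∈ Finset.Ico a b, (-1 : ℝ) ^ t| ≤ 1 := by
  have h : ∀ n : ℕ, ∑ i ∈ Finset.range n, (-1 : ℝ) ^ i = if Even n then 0 else 1 := by
    intro n
    induction n with
    | zero => simp
    | succ n ih =>
      rw [Finset.sum_range_succ, ih]
      by_cases h : Even n
      · rw [if_pos h, if_neg (by rw [Nat.even_add_one]; exact not_not.2 h), h.neg_one_pow]
        norm_num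
      · rw [if_neg h, if_pos (by rw [Nat.even_add_one]; exact h), (Nat.not_even_iff_odd.1 h).neg_one_pow]
        norm_num
  rcases le_total a b with hab | hab
  · rw [Finset.sum_Ico_eq_sub _ hab, h, h]
    split_ifs <;> norm_num
  · rw [Finset.Ico_eq_empty_of_le hab]
    simp

lemma part_sum {m : ℕ} (H : ℕ) (b : ℕ → ℝ) {i t : ℕ} (hi : i < m) (h1 : cp m H i ≤ t) (h2 : t < cp m H (i + 1)) :
    ∑ j ∈ Finset.range m, b j * sp m H j t = b i := by
  rw [Finset.sum_eq_single i]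
  · unfold sp
    rw [if_pos ⟨h1, h2⟩, mul_one]
  · intro j _ hji
    unfold sp
    rw [if_neg, mul_zero]
    rintro ⟨h3, h4⟩
    rcases lt_or_gt_of_ne hji with h | h
    · have := cp_mono m H (show j + 1 ≤ i by omega)
      omega
    · have := cp_mono m H (show i + 1 ≤ j by omega)
      omega
  · intro h
    exact absurd (Finset.mem_range.2 hi) h

lemma gram {m : ℕ} (hm : 0 < m) (H : ℕ) (α : ℝ) (b : ℕ → ℝ) :
    |∑ t ∈ Finset.range H, (α * sq m t + ∑ j ∈ Finset.range m, b j * sp m H j t) ^ 2 -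
      (H : ℝ) / m * (α ^ 2 + ∑ j ∈ Finset.range m, b j ^ 2)| ≤ 2 * (α ^ 2 + ∑ j ∈ Finset.range m, b j ^ 2) := by
  have hm' : (0 : ℝ) < m := by exact_mod_cast hm
  set β : ℝ := α / Real.sqrt m with hβ
  have hβ2 : m * β ^ 2 = α ^ 2 := by
    rw [hβ, div_pow, Real.sq_sqrt hm'.le]
    field_simp
  have e1 : ∑ t ∈ Finset.range H, (α * sq m t + ∑ j ∈ Finset.range m, b j * sp m H j t) ^ 2 =
      ∑ i ∈ Finset.range m, ∑ t ∈ Finset.Ico (cp m H i) (cp m H (i + 1)), (β * (-1) ^ t + b i) ^ 2 := by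
    have := blocks_sum (cp_mono m H) (cp_zero m H) (fun t => (α * sq m t + ∑ j ∈ Finset.range m, b j * sp m H j t) ^ 2) m
    rw [cp_last hm] at this
    rw [this]
    refine Finset.sum_congr rfl fun i hi => Finset.sum_congr rfl fun t ht => ?_
    rw [part_sum H b (Finset.mem_range.1 hi) (Finset.mem_Ico.1 ht).1 (Finset.mem_Ico.1 ht).2]
    unfold sq
    rw [hβ]
    ring
  have e2 : (H : ℝ) / m * (α ^ 2 + ∑ j ∈ Finset.range m, b j ^ 2) =
      ∑ i ∈ Finset.range m, (H : ℝ) / m * (β ^ 2 + b i ^ 2) := by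
    rw [← Finset.mul_sum, Finset.sum_add_distrib, Finset.sum_const, Finset.card_range, nsmul_eq_mul, hβ2]
  have e3 : 2 * (α ^ 2 + ∑ j ∈ Finset.range m, b j ^ 2) = ∑ i ∈ Finset.range m, 2 * (β ^ 2 + b i ^ 2) := by
    rw [← Finset.mul_sum, Finset.sum_add_distrib, Finset.sum_const, Finset.card_range, nsmul_eq_mul, hβ2]
  rw [e1, e2, e3, ← Finset.sum_sub_distrib]
  refine (Finset.abs_sum_le_sum_abs _ _).trans (Finset.sum_le_sum fun i _ => ?_)
  have e4 : ∑ t ∈ Finset.Ico (cp m H i) (cp m H (i + 1)), (β * (-1) ^ t + b i) ^ 2 =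
      ((cp m H (i + 1) - cp m H i : ℕ) : ℝ) * (β ^ 2 + b i ^ 2) +
        2 * (β * b i) * ∑ t ∈ Finset.Ico (cp m H i) (cp m H (i + 1)), (-1 : ℝ) ^ t := by
    rw [Finset.mul_sum]
    have : ((cp m H (i + 1) - cp m H i : ℕ) : ℝ) * (β ^ 2 + b i ^ 2) =
        ∑ _t ∈ Finset.Ico (cp m H i) (cp m H (i + 1)), (β ^ 2 + b i ^ 2) := by
      rw [Finset.sum_const, Nat.card_Ico, nsmul_eq_mul]
    rw [this, ← Finset.sum_add_distrib]
    refine Finset.sum_congr rfl fun t _ => ?_
    have h1 : ((-1 : ℝ) ^ t) ^ 2 = 1 := by rw [← pow_mul, mul_comm, pow_mul]; simp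
    calc (β * (-1) ^ t + b i) ^ 2 = β ^ 2 * ((-1 : ℝ) ^ t) ^ 2 + b i ^ 2 + 2 * (β * b i) * (-1) ^ t := by ring
      _ = _ := by rw [h1, mul_one]
  rw [e4]
  have h1 := cp_len hm H i
  have h2 := alt_Ico (cp m H i) (cp m H (i + 1))
  set u : ℝ := ((cp m H (i + 1) - cp m H i : ℕ) : ℝ)
  set s : ℝ := ∑ t ∈ Finset.Ico (cp m H i) (cp m H (i + 1)), (-1 : ℝ) ^ t
  have e5 : u * (β ^ 2 + b i ^ 2) + 2 * (β * b i) * s - (H : ℝ) / m * (β ^ 2 + b i ^ 2) =
      (u - (H : ℝ) / m) * (β ^ 2 + b i ^ 2) + 2 * (β * b i) * s := by ring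
  rw [e5]
  have h3 : |(u - (H : ℝ) / m) * (β ^ 2 + b i ^ 2)| ≤ 1 * (β ^ 2 + b i ^ 2) := by
    rw [abs_mul, abs_of_nonneg (show (0 : ℝ) ≤ β ^ 2 + b i ^ 2 by positivity)]
    exact mul_le_mul_of_nonneg_right h1 (by positivity)
  have h4 : |2 * (β * b i) * s| ≤ (β ^ 2 + b i ^ 2) * 1 := by
    rw [abs_mul]
    apply mul_le_mul _ h2 (abs_nonneg _) (by positivity)
    rw [abs_le]
    constructor <;> nlinarith [sq_nonneg (β - b i), sq_nonneg (β + b i)]
  have h5 := abs_add_le ((u - (H : ℝ) / m) * (β ^ 2 + b i ^ 2)) (2 * (β * b i) * s)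
  linarith

variable {Ω : Type} {m0 : MeasurableSpace Ω} {μ : Measure Ω} [IsProbabilityMeasure μ]
  {ℱ : Filtration ℕ m0} {A : ℕ → Set Ω}

/-- **windows cut into `m` equal parts**: the limit set is the closed unit ball -/
theorem parts {m : ℕ} (hm : 0 < m) (hA : ∀ n, MeasurableSet[ℱ n] (A n))
    (hd : ∀ᵐ ω ∂μ, Tendsto (fun n : ℕ => dens μ ℱ A n ω * Real.log n) atTop (𝓝 1))
    {T H : ℕ → ℕ} (hT : Tendsto T atTop atTop) (hH : ∀ᶠ k in atTop, H k ≤ T k) (hH2 : Tendsto H atTop atTop)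
    (hs : Tendsto (fun k : ℕ => Real.log k * Real.log (T k) / (H k : ℝ)) atTop (𝓝 0)) (hTH : ∀ k, T k + H k ≤ T (k + 1)) :
    ∀ᵐ ω ∂μ, (∀ ε : ℝ, 0 < ε → ∀ᶠ k in atTop,
        ∑ i : Fin m, ND μ ℱ A T H (fun k => (H k : ℝ) / m) (fun k t => sp m (H k) i t) k ω ^ 2 ≤ 1 + ε) ∧
      ∀ x : Fin m → ℝ, ∑ i, x i ^ 2 ≤ 1 → ∀ ε : ℝ, 0 < ε → ∃ᶠ k in atTop, ∀ i : Fin m,
        |ND μ ℱ A T H (fun k => (H k : ℝ) / m) (fun k t => sp m (H k) i t) k ω - x i| < ε := by
  have hm' : (0 : ℝ) < m := by exact_mod_cast hm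
  set σ : Option (Fin m) → ℕ → ℕ → ℝ := fun o k t => o.elim (sq m t) (fun i => sp m (H k) i t) with hσd
  have hHr : Tendsto (fun k => (H k : ℝ)) atTop atTop := tendsto_natCast_atTop_atTop.comp hH2
  have h := ball (ι := Option (Fin m)) (μ := μ) hA hd (σ := σ) (W := fun k => (H k : ℝ) / m) (fun o k t => by
      cases o with
      | none => exact sq_abs_le hm t
      | some i => exact sp_abs _ _ _ _) hT hH (by
      filter_upwards [hHr.eventually_gt_atTop 0] with k hk
      positivity) (fun a => by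
      set b : ℕ → ℝ := fun i => if h : i < m then a (some ⟨i, h⟩) else 0 with hb
      have hbF : ∀ i : Fin m, a (some i) = b i := by
        intro i
        simp only [hb]
        rw [dif_pos i.2]
      have e1 : ∑ i, a i ^ 2 = a none ^ 2 + ∑ j ∈ Finset.range m, b j ^ 2 := by
        rw [Fintype.sum_option, ← Fin.sum_univ_eq_sum_range (fun j => b j ^ 2) m]
        congr 1
        exact Finset.sum_congr rfl fun i _ => by rw [hbF]
      have e2 : ∀ k, RW (fun t => ∑ i, a i * σ i k t) (H k) 0 =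
          ∑ t ∈ Finset.range (H k), (a none * sq m t + ∑ j ∈ Finset.range m, b j * sp m (H k) j t) ^ 2 := by
        intro k
        unfold RW
        rw [Finset.range_eq_Ico]
        refine Finset.sum_congr rfl fun t _ => ?_
        congr 1
        show ∑ i, a i * σ i k t = _
        rw [Fintype.sum_option, ← Fin.sum_univ_eq_sum_range (fun j => b j * sp m (H k) j t) m]
        congr 1
        exact Finset.sum_congr rfl fun i _ => by rw [hbF]; rfl
      rw [e1]
      set S : ℝ := a none ^ 2 + ∑ j ∈ Finset.range m, b j ^ 2 with hS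
      rw [tendsto_iff_norm_sub_tendsto_zero]
      have h0 : Tendsto (fun k => 2 * S * m / (H k : ℝ)) atTop (𝓝 0) := hHr.const_div_atTop _
      refine squeeze_zero' (Eventually.of_forall fun k => norm_nonneg _) ?_ h0
      filter_upwards [hHr.eventually_gt_atTop 0] with k hk
      have h1 := gram hm (H k) (a none) b
      rw [← e2 k] at h1
      rw [Real.norm_eq_abs]
      have e3 : RW (fun t => ∑ i, a i * σ i k t) (H k) 0 / ((H k : ℝ) / m) - S =
          (RW (fun t => ∑ i, a i * σ i k t) (H k) 0 - (H k : ℝ) / m * S) / ((H k : ℝ) / m) := by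
        field_simp
      rw [e3, abs_div, abs_of_pos (show 0 < (H k : ℝ) / m by positivity), div_le_iff₀ (by positivity)]
      refine h1.trans (le_of_eq ?_)
      rw [← hS]
      field_simp) (by
      have h1 := hs.const_mul (m : ℝ)
      rw [mul_zero] at h1
      refine h1.congr fun k => ?_
      rw [div_div_eq_mul_div]
      ring) hTH
  filter_upwards [h] with ω hω
  refine ⟨fun ε hε => ?_, fun x hx ε hε => ?_⟩
  · filter_upwards [hω.1 ε hε] with k hk
    rw [Fintype.sum_option] at hk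
    refine le_trans ?_ hk
    exact le_add_of_nonneg_left (sq_nonneg _)
  · set y : Option (Fin m) → ℝ := fun o => o.elim (Real.sqrt (1 - ∑ i, x i ^ 2)) x with hy
    have hy1 : ∑ o, y o ^ 2 = 1 := by
      rw [Fintype.sum_option]
      show Real.sqrt (1 - ∑ i, x i ^ 2) ^ 2 + ∑ i, x i ^ 2 = 1
      rw [Real.sq_sqrt (by linarith)]
      ring
    refine (hω.2 y hy1 ε hε).mono ?_
    intro k hk i
    exact hk (some i)

end Pool.Agent.N740.HK
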