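import Mathlib
import Pool.Agent.N740.HK.Str

/-!
# The limit set of the vector of the excesses of the parts
-/

set_option autoImplicit false
set_option linter.unusedSectionVars false

open MeasureTheory Filter Set
open scoped ENNReal Topology

namespace Pool.Agent.N740.HK

open Pool.Agent.R528.RM

lemma ball_scale {ι : Type} [Fintype ι] {X : ℕ → ι → ℝ} {r : ℕ → ℝ} (hr : Tendsto r atTop (𝓝 1))
    (h1 : ∀ ε : ℝ, 0 < ε → ∀ᶠ k in atTop, ∑ i, X k i ^ 2 ≤ 1 + ε)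
    (h2 : ∀ x : ι → ℝ, ∑ i, x i ^ 2 ≤ 1 → ∀ ε : ℝ, 0 < ε → ∃ᶠ k in atTop, ∀ i, |X k i - x i| < ε) :
    (∀ ε : ℝ, 0 < ε → ∀ᶠ k in atTop, ∑ i, (r k * X k i) ^ 2 ≤ 1 + ε) ∧
    ∀ x : ι → ℝ, ∑ i, x i ^ 2 ≤ 1 → ∀ ε : ℝ, 0 < ε → ∃ᶠ k in atTop, ∀ i, |r k * X k i - x i| < ε := by
  constructor
  · intro ε hε
    set e : ℝ := min ε 1 / 4 with he
    have he0 : 0 < e := by positivity
    have he1 : e ≤ ε / 4 := by rw [he]; linarith [min_le_left ε 1]
    have he2 : e ≤ 1 / 4 := by rw [he]; linarith [min_le_right ε 1]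
    have hr2 : Tendsto (fun k => r k ^ 2) atTop (𝓝 (1 ^ 2)) := hr.pow 2
    rw [one_pow] at hr2
    filter_upwards [h1 e he0, hr2.eventually_le_const (show (1 : ℝ) < 1 + e by linarith)] with k g1 g2
    have e1 : ∑ i, (r k * X k i) ^ 2 = r k ^ 2 * ∑ i, X k i ^ 2 := by
      rw [Finset.mul_sum]
      exact Finset.sum_congr rfl fun i _ => by ring
    rw [e1]
    have h0 : 0 ≤ ∑ i, X k i ^ 2 := Finset.sum_nonneg fun _ _ => sq_nonneg _
    calc r k ^ 2 * ∑ i, X k i ^ 2 ≤ (1 + e) * (1 + e) := mul_le_mul g2 g1 h0 (by linarith)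
      _ ≤ 1 + ε := by nlinarith
  · intro x hx ε hε
    have hr3 : Tendsto (fun k => |r k - 1|) atTop (𝓝 0) := by
      have := (hr.sub_const 1).abs
      rwa [sub_self, abs_zero] at this
    refine ((h2 x hx (ε / 2) (by positivity)).and_eventually
      ((h1 1 one_pos).and (hr3.eventually_lt_const (show (0 : ℝ) < ε / 8 by positivity)))).mono ?_
    rintro k ⟨g1, g2, g3⟩ i
    have h3 : |X k i| ≤ 2 := by
      have h4 : X k i ^ 2 ≤ ∑ i, X k i ^ 2 := Finset.single_le_sum (f := fun i => X k i ^ 2) (fun _ _ => sq_nonneg _) (Finset.mem_univ i)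
      exact abs_le_of_sq_le_sq (by linarith) (by norm_num)
    have e1 : r k * X k i - x i = (r k - 1) * X k i + (X k i - x i) := by ring
    rw [e1]
    have h5 := abs_add_le ((r k - 1) * X k i) (X k i - x i)
    have h6 : |(r k - 1) * X k i| ≤ ε / 8 * 2 := by
      rw [abs_mul]
      exact mul_le_mul g3.le h3 (abs_nonneg _) (by positivity)
    have h7 := g1 i
    linarith

lemma ball_cluster {ι : Type} [Fintype ι] {Y : ℕ → ι → ℝ} (h1 : ∀ ε : ℝ, 0 < ε → ∀ᶠ k in atTop, ∑ i, Y k i ^ 2 ≤ 1 + ε)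
    (h2 : ∀ x : ι → ℝ, ∑ i, x i ^ 2 ≤ 1 → ∀ ε : ℝ, 0 < ε → ∃ᶠ k in atTop, ∀ i, |Y k i - x i| < ε) :
    {x : ι → ℝ | MapClusterPt x atTop Y} = {x : ι → ℝ | ∑ i, x i ^ 2 ≤ 1} := by
  ext x
  simp only [mem_ofPred_eq]
  constructor
  · intro hx
    by_contra hcon
    push Not at hcon
    set ε : ℝ := (∑ i, x i ^ 2 - 1) / 2 with hε
    have hε0 : 0 < ε := by rw [hε]; linarith
    have hopen : IsOpen {w : ι → ℝ | 1 + ε < ∑ i, w i ^ 2} :=
      isOpen_lt continuous_const (continuous_finsetSum _ fun i _ => (continuous_apply i).pow 2)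
    have hmem : x ∈ {w : ι → ℝ | 1 + ε < ∑ i, w i ^ 2} := by
      show 1 + ε < ∑ i, x i ^ 2
      rw [hε]
      linarith
    have h5 := (mapClusterPt_iff_frequently.1 hx) _ (hopen.mem_nhds hmem)
    obtain ⟨n, h6, h7⟩ := (h5.and_eventually (h1 ε hε0)).exists
    have h6' : 1 + ε < ∑ i, Y n i ^ 2 := h6
    linarith
  · intro hx
    rw [mapClusterPt_iff_frequently]
    intro s hs
    obtain ⟨ε, hε, hsub⟩ := Metric.mem_nhds_iff.1 hs
    refine (h2 x hx ε hε).mono ?_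
    intro n hn
    apply hsub
    rw [Metric.mem_ball, dist_pi_lt_iff hε]
    intro i
    rw [Real.dist_eq]
    exact hn i

variable {Ω : Type} {m0 : MeasurableSpace Ω} {μ : Measure Ω} [IsProbabilityMeasure μ]
  {ℱ : Filtration ℕ m0} {A : ℕ → Set Ω}

/-- the number of chosen integers in `(a, b]` minus the sum of the conditional probabilities -/
noncomputable def exI (μ : Measure Ω) (ℱ : Filtration ℕ m0) (A : ℕ → Set Ω) (a b : ℕ) (ω : Ω) : ℝ :=
  ∑ r ∈ Finset.Ioc a b, ((A r).indicator (fun _ => (1 : ℝ)) ω - (μ[(A r).indicator (fun _ => (1 : ℝ)) | ℱ (r - 1)]) ω)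

lemma sum_Ioc_shift (T a b : ℕ) (F : ℕ → ℝ) : ∑ r ∈ Finset.Ioc (T + a) (T + b), F r = ∑ t ∈ Finset.Ico a b, F (T + t + 1) := by
  refine (Finset.sum_nbij' (fun t => T + t + 1) (fun r => r - T - 1) ?_ ?_ ?_ ?_ ?_).symm
  · intro t ht
    have := Finset.mem_Ico.1 ht
    rw [Finset.mem_Ioc]
    omega
  · intro r hr
    have := Finset.mem_Ioc.1 hr
    rw [Finset.mem_Ico]
    omega
  · intro t _
    show T + t + 1 - T - 1 = t
    omega
  · intro r hr
    have := Finset.mem_Ioc.1 hr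
    show T + (r - T - 1) + 1 = r
    omega
  · intro t _
    rfl

lemma SW_part {ω : Ω} (hD : ∀ n, DD' μ ℱ A n ω = dens μ ℱ A n ω) (m T H i : ℕ) (hi : cp m H (i + 1) ≤ H) :
    SW μ ℱ A (sp m H i) T H ω = exI μ ℱ A (T + cp m H i) (T + cp m H (i + 1)) ω := by
  unfold exI
  rw [sum_Ioc_shift]
  unfold SW
  have e1 : ∀ t, sp m H i t * (J1 A (T + t + 1) ω - DD' μ ℱ A (T + t) ω) =
      if cp m H i ≤ t ∧ t < cp m H (i + 1) then (J1 A (T + t + 1) ω - DD' μ ℱ A (T + t) ω) else 0 := by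
    intro t
    unfold sp
    split_ifs <;> simp
  simp only [e1]
  rw [← Finset.sum_filter]
  have e2 : (Finset.range H).filter (fun t => cp m H i ≤ t ∧ t < cp m H (i + 1)) = Finset.Ico (cp m H i) (cp m H (i + 1)) := by
    ext t
    simp only [Finset.mem_filter, Finset.mem_range, Finset.mem_Ico]
    omega
  rw [e2]
  refine Finset.sum_congr rfl fun t _ => ?_
  rw [hD, Nat.add_sub_cancel]
  rfl

lemma cp_le {m : ℕ} (hm : 0 < m) (H : ℕ) {i : ℕ} (hi : i ≤ m) : cp m H i ≤ H := by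
  have := cp_mono m H hi
  rwa [cp_last hm] at this

/-- **the limit set for windows cut into parts** with a prescribed normalisation `g k / √m` -/
theorem strassen (hA : ∀ n, MeasurableSet[ℱ n] (A n))
    (hd : ∀ᵐ ω ∂μ, Tendsto (fun n : ℕ => dens μ ℱ A n ω * Real.log n) atTop (𝓝 1))
    {T H : ℕ → ℕ} (hT : Tendsto T atTop atTop) (hH : ∀ᶠ k in atTop, H k ≤ T k) (hH2 : Tendsto H atTop atTop)
    (hs : Tendsto (fun k : ℕ => Real.log k * Real.log (T k) / (H k : ℝ)) atTop (𝓝 0)) (hTH : ∀ k, T k + H k ≤ T (k + 1))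
    {g : ℕ → ℝ} (hg0 : ∀ᶠ k in atTop, 0 < g k)
    (hg : Tendsto (fun k => 2 * (H k : ℝ) * Real.log k / Real.log (T k) / g k ^ 2) atTop (𝓝 1)) :
    ∀ᵐ ω ∂μ, ∀ m : ℕ, 0 < m →
      {x : Fin m → ℝ | MapClusterPt x atTop (fun (k : ℕ) (i : Fin m) =>
        exI μ ℱ A (T k + cp m (H k) i) (T k + cp m (H k) (i + 1)) ω / (g k / Real.sqrt m))} = {x : Fin m → ℝ | ∑ i, x i ^ 2 ≤ 1} ∧
      ∀ ε : ℝ, 0 < ε → ∀ᶠ k in atTop,
        ∑ i : Fin m, (exI μ ℱ A (T k + cp m (H k) i) (T k + cp m (H k) (i + 1)) ω / (g k / Real.sqrt m)) ^ 2 ≤ 1 + ε := by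
  have hall : ∀ᵐ ω ∂μ, ∀ m : ℕ, 0 < m → (∀ ε : ℝ, 0 < ε → ∀ᶠ k in atTop,
        ∑ i : Fin m, ND μ ℱ A T H (fun k => (H k : ℝ) / m) (fun k t => sp m (H k) i t) k ω ^ 2 ≤ 1 + ε) ∧
      ∀ x : Fin m → ℝ, ∑ i, x i ^ 2 ≤ 1 → ∀ ε : ℝ, 0 < ε → ∃ᶠ k in atTop, ∀ i : Fin m,
        |ND μ ℱ A T H (fun k => (H k : ℝ) / m) (fun k t => sp m (H k) i t) k ω - x i| < ε := by
    refine ae_all_iff.2 fun m => ?_
    rcases Nat.eq_zero_or_pos m with rfl | hm
    · exact Eventually.of_forall fun ω h => absurd h (lt_irrefl _)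
    · filter_upwards [parts hm (μ := μ) hA hd hT hH hH2 hs hTH] with ω hω _
      exact hω
  filter_upwards [hall, DD'_ae (μ := μ) hA] with ω h1 hD m hm
  obtain ⟨p1, p2⟩ := h1 m hm
  have hm' : (0 : ℝ) < m := by exact_mod_cast hm
  have hsm : 0 < Real.sqrt m := Real.sqrt_pos.2 hm'
  -- the ratio of the normalisations
  set r : ℕ → ℝ := fun k => MM ((H k : ℝ) / m) (Real.log (T k)) (Real.log k) / (g k / Real.sqrt m) with hr
  have hr1 : Tendsto r atTop (𝓝 1) := by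
    have h2 := hg.sqrt
    rw [Real.sqrt_one] at h2
    refine h2.congr' ?_
    filter_upwards [hg0] with k hk
    simp only [hr]
    unfold MM
    have e1 : 2 * ((H k : ℝ) / m) * Real.log k / Real.log (T k) = (2 * (H k : ℝ) * Real.log k / Real.log (T k)) / m := by ring
    rw [e1, Real.sqrt_div' _ hm'.le, Real.sqrt_div' _ (sq_nonneg (g k)), Real.sqrt_sq hk.le]
    field_simp
  have hTl : Tendsto (fun k : ℕ => Real.log (T k)) atTop atTop :=
    Real.tendsto_log_atTop.comp (tendsto_natCast_atTop_atTop.comp hT)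
  have hHr : Tendsto (fun k => (H k : ℝ)) atTop atTop := tendsto_natCast_atTop_atTop.comp hH2
  have heq : ∀ᶠ k in atTop, ∀ i : Fin m,
      exI μ ℱ A (T k + cp m (H k) i) (T k + cp m (H k) (i + 1)) ω / (g k / Real.sqrt m) =
      r k * ND μ ℱ A T H (fun k => (H k : ℝ) / m) (fun k t => sp m (H k) i t) k ω := by
    filter_upwards [hg0, hTl.eventually_gt_atTop 0, hHr.eventually_gt_atTop 0, eventually_ge_atTop 3] with k k1 k2 k3 k4 i
    have hΛ : 0 < Real.log (k : ℝ) := Real.log_pos (by exact_mod_cast (by omega : 1 < k))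
    have hMM : 0 < MM ((H k : ℝ) / m) (Real.log (T k)) (Real.log k) := Real.sqrt_pos.2 (by positivity)
    unfold ND
    have e1 : SW μ ℱ A (fun t => sp m (H k) i t) (T k) (H k) ω =
        exI μ ℱ A (T k + cp m (H k) i) (T k + cp m (H k) (i + 1)) ω := SW_part hD m (T k) (H k) i (cp_le hm _ i.2)
    rw [e1]
    simp only [hr]
    field_simp
  obtain ⟨q1, q2⟩ := ball_scale hr1 p1 p2
  have q3 : ∀ ε : ℝ, 0 < ε → ∀ᶠ k in atTop,
        ∑ i : Fin m, (exI μ ℱ A (T k + cp m (H k) i) (T k + cp m (H k) (i + 1)) ω / (g k / Real.sqrt m)) ^ 2 ≤ 1 + ε := by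
    intro ε hε
    filter_upwards [q1 ε hε, heq] with k k1 k2
    simp only [k2]
    exact k1
  refine ⟨ball_cluster q3 (fun x hx ε hε => ?_), q3⟩
  refine ((q2 x hx ε hε).and_eventually heq).mono ?_
  rintro k ⟨k1, k2⟩ i
  rw [k2]
  exact k1 i

end Pool.Agent.N740.HK
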