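import Mathlib
import Pool.Agent.N740.HK.Str2

/-!
# The number of chosen integers in the parts
-/

set_option autoImplicit false
set_option linter.unusedSectionVars false

open MeasureTheory Filter Set
open scoped ENNReal Topology

namespace Pool.Agent.N740.HK

open Pool.Agent.R528.RM

variable {Ω : Type} {m0 : MeasurableSpace Ω} {μ : Measure Ω} [IsProbabilityMeasure μ]
  {ℱ : Filtration ℕ m0} {A : ℕ → Set Ω}

/-- the number of chosen integers in `(a, b]` -/
noncomputable def cnI (A : ℕ → Set Ω) (a b : ℕ) (ω : Ω) : ℝ :=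
  ∑ r ∈ Finset.Ioc a b, (A r).indicator (fun _ => (1 : ℝ)) ω

theorem part_count (hA : ∀ n, MeasurableSet[ℱ n] (A n))
    (hd : ∀ᵐ ω ∂μ, Tendsto (fun n : ℕ => dens μ ℱ A n ω * Real.log n) atTop (𝓝 1))
    {T H : ℕ → ℕ} (hT : Tendsto T atTop atTop) (hH : ∀ᶠ k in atTop, H k ≤ T k) (hH2 : Tendsto H atTop atTop)
    (hs : Tendsto (fun k : ℕ => Real.log k * Real.log (T k) / (H k : ℝ)) atTop (𝓝 0)) (hTH : ∀ k, T k + H k ≤ T (k + 1)) :
    ∀ᵐ ω ∂μ, ∀ m : ℕ, 0 < m → ∀ i : Fin m, Tendsto (fun k : ℕ =>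
        cnI A (T k + cp m (H k) i) (T k + cp m (H k) (i + 1)) ω * Real.log (T k) / ((H k : ℝ) / m)) atTop (𝓝 1) := by
  have hall : ∀ᵐ ω ∂μ, ∀ m : ℕ, 0 < m → (∀ ε : ℝ, 0 < ε → ∀ᶠ k in atTop,
        ∑ i : Fin m, ND μ ℱ A T H (fun k => (H k : ℝ) / m) (fun k t => sp m (H k) i t) k ω ^ 2 ≤ 1 + ε) := by
    refine ae_all_iff.2 fun m => ?_
    rcases Nat.eq_zero_or_pos m with rfl | hm
    · exact Eventually.of_forall fun ω h => absurd h (lt_irrefl _)
    · filter_upwards [parts hm (μ := μ) hA hd hT hH hH2 hs hTH] with ω hω _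
      exact hω.1
  have hTl : Tendsto (fun k : ℕ => Real.log (T k)) atTop atTop :=
    Real.tendsto_log_atTop.comp (tendsto_natCast_atTop_atTop.comp hT)
  have hHr : Tendsto (fun k => (H k : ℝ)) atTop atTop := tendsto_natCast_atTop_atTop.comp hH2
  filter_upwards [hall, DD'_ae (μ := μ) hA, good_win (μ := μ) hA hd] with ω h1 hD hg m hm i
  have hm' : (0 : ℝ) < m := by exact_mod_cast hm
  rw [Metric.tendsto_nhds]
  intro ε hε
  set η : ℝ := min ε 1 / 8 with hη
  have hη0 : 0 < η := by positivity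
  have hη1 : η ≤ ε / 8 := by rw [hη]; linarith [min_le_left ε 1]
  have hη2 : η ≤ 1 / 8 := by rw [hη]; linarith [min_le_right ε 1]
  -- the size of the deviation
  have hs1 : Tendsto (fun k : ℕ => 2 * Real.sqrt (2 * m * (Real.log k * Real.log (T k) / (H k : ℝ)))) atTop (𝓝 0) := by
    have h2 := ((hs.const_mul (2 * (m : ℝ))).sqrt).const_mul 2
    rwa [mul_zero, Real.sqrt_zero, mul_zero] at h2
  have hlen : Tendsto (fun k : ℕ => (m : ℝ) / (H k : ℝ)) atTop (𝓝 0) := hHr.const_div_atTop _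
  filter_upwards [h1 m hm 1 one_pos, hT.eventually (hg η hη0 (by linarith)), hH, hs1.eventually_lt_const hη0,
    hlen.eventually_lt_const hη0, hTl.eventually_gt_atTop 0, hHr.eventually_gt_atTop 0, eventually_ge_atTop 3] with
    k k1 k2 k3 k4 k5 k6 k7 k8
  have hΛ : 0 < Real.log (k : ℝ) := Real.log_pos (by exact_mod_cast (by omega : 1 < k))
  set L : ℝ := Real.log (T k) with hL
  set c := cp m (H k) i with hc
  set d := cp m (H k) (i + 1) with hdd
  have hcd : c ≤ d := cp_mono m (H k) (Nat.le_succ _)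
  have hdH : d ≤ H k := cp_le hm _ i.2
  have hgood := k2 (H k) k3
  -- the compensator
  have hcomp : ∀ t ∈ Finset.Ico c d, (1 - η) / L ≤ DD' μ ℱ A (T k + t) ω ∧ DD' μ ℱ A (T k + t) ω ≤ (1 + η) / L := by
    intro t ht
    have := Finset.mem_Ico.1 ht
    exact hgood t (by omega)
  set u : ℝ := ((d - c : ℕ) : ℝ) with hu
  have hu1 := cp_len hm (H k) i
  rw [← hc, ← hdd, ← hu] at hu1
  have hu0 : 0 ≤ u := Nat.cast_nonneg _
  set V : ℝ := ∑ t ∈ Finset.Ico c d, DD' μ ℱ A (T k + t) ω with hV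
  have hV1 : u * ((1 - η) / L) ≤ V := by
    have : u * ((1 - η) / L) = ∑ _t ∈ Finset.Ico c d, (1 - η) / L := by
      rw [Finset.sum_const, Nat.card_Ico, nsmul_eq_mul]
    rw [this]
    exact Finset.sum_le_sum fun t ht => (hcomp t ht).1
  have hV2 : V ≤ u * ((1 + η) / L) := by
    have : u * ((1 + η) / L) = ∑ _t ∈ Finset.Ico c d, (1 + η) / L := by
      rw [Finset.sum_const, Nat.card_Ico, nsmul_eq_mul]
    rw [this]
    exact Finset.sum_le_sum fun t ht => (hcomp t ht).2
  -- the deviation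
  set E : ℝ := SW μ ℱ A (fun t => sp m (H k) i t) (T k) (H k) ω with hE
  set M : ℝ := MM ((H k : ℝ) / m) L (Real.log k) with hM
  have hMpos : 0 < M := Real.sqrt_pos.2 (by positivity)
  have hE1 : |E| ≤ 2 * M := by
    have h4 : (E / M) ^ 2 ≤ ∑ i : Fin m, ND μ ℱ A T H (fun k => (H k : ℝ) / m) (fun k t => sp m (H k) i t) k ω ^ 2 :=
      Finset.single_le_sum (f := fun i : Fin m => ND μ ℱ A T H (fun k => (H k : ℝ) / m) (fun k t => sp m (H k) i t) k ω ^ 2)
        (fun _ _ => sq_nonneg _) (Finset.mem_univ i)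
    have h5 : |E / M| ≤ 2 := abs_le_of_sq_le_sq (by linarith) (by norm_num)
    rw [abs_div, abs_of_pos hMpos, div_le_iff₀ hMpos] at h5
    exact h5
  have hN : cnI A (T k + c) (T k + d) ω = E + V := by
    have e1 : E = exI μ ℱ A (T k + c) (T k + d) ω := SW_part hD m (T k) (H k) i hdH
    rw [e1]
    unfold exI cnI
    rw [hV, sum_Ioc_shift, sum_Ioc_shift, ← Finset.sum_add_distrib]
    refine Finset.sum_congr rfl fun t _ => ?_
    rw [hD, Nat.add_sub_cancel]
    unfold dens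
    ring
  rw [Real.dist_eq, hN]
  have e2 : (E + V) * L / ((H k : ℝ) / m) - 1 = E * L / ((H k : ℝ) / m) + (V * L / ((H k : ℝ) / m) - 1) := by ring
  rw [e2]
  have h6 : |E * L / ((H k : ℝ) / m)| ≤ η := by
    rw [abs_div, abs_mul, abs_of_pos k6, abs_of_pos (show 0 < (H k : ℝ) / m by positivity)]
    have e3 : 2 * M * L / ((H k : ℝ) / m) = 2 * Real.sqrt (2 * m * (Real.log k * L / (H k : ℝ))) := by
      have : Real.sqrt (2 * m * (Real.log k * L / (H k : ℝ))) = M * (L / ((H k : ℝ) / m)) := by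
        rw [hM]
        unfold MM
        rw [← Real.sqrt_sq (show 0 ≤ L / ((H k : ℝ) / m) by positivity), ← Real.sqrt_mul (by positivity)]
        congr 1
        field_simp
      rw [this]
      ring
    calc |E| * L / ((H k : ℝ) / m) ≤ 2 * M * L / ((H k : ℝ) / m) := by
          apply div_le_div_of_nonneg_right _ (by positivity)
          exact mul_le_mul_of_nonneg_right hE1 k6.le
      _ = 2 * Real.sqrt (2 * m * (Real.log k * L / (H k : ℝ))) := e3
      _ ≤ η := k4.le
  have hu2 : |u * (m / (H k : ℝ)) - 1| ≤ η := by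
    have e3 : u * (m / (H k : ℝ)) - 1 = (u - (H k : ℝ) / m) * (m / (H k : ℝ)) := by
      field_simp
    rw [e3, abs_mul, abs_of_pos (show 0 < (m : ℝ) / (H k : ℝ) by positivity)]
    calc |u - (H k : ℝ) / m| * (m / (H k : ℝ)) ≤ 1 * (m / (H k : ℝ)) := mul_le_mul_of_nonneg_right hu1 (by positivity)
      _ ≤ η := by rw [one_mul]; exact k5.le
  have hu3 := abs_le.1 hu2
  set w : ℝ := u * (m / (H k : ℝ)) with hw
  have h7 : V * L / ((H k : ℝ) / m) ≤ (1 + η) * w := by
    calc V * L / ((H k : ℝ) / m) ≤ u * ((1 + η) / L) * L / ((H k : ℝ) / m) := by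
          apply div_le_div_of_nonneg_right _ (by positivity)
          exact mul_le_mul_of_nonneg_right hV2 k6.le
      _ = (1 + η) * w := by rw [hw]; field_simp
  have h8 : (1 - η) * w ≤ V * L / ((H k : ℝ) / m) := by
    calc (1 - η) * w = u * ((1 - η) / L) * L / ((H k : ℝ) / m) := by rw [hw]; field_simp
      _ ≤ V * L / ((H k : ℝ) / m) := by
          apply div_le_div_of_nonneg_right _ (by positivity)
          exact mul_le_mul_of_nonneg_right hV1 k6.le
  have h9 : |V * L / ((H k : ℝ) / m) - 1| ≤ 3 * η := by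
    rw [abs_le]
    constructor <;> nlinarith [hu3.1, hu3.2]
  have h10 := abs_add_le (E * L / ((H k : ℝ) / m)) (V * L / ((H k : ℝ) / m) - 1)
  linarith

end Pool.Agent.N740.HK
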