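import Mathlib
import Pool.Agent.N740.HK.Str3

/-!
# Windows of polynomial growth
-/

set_option autoImplicit false

open MeasureTheory Filter Set
open scoped ENNReal Topology

namespace Pool.Agent.N740.HK

open Pool.Agent.R528.RM

lemma logk_tendsto : Tendsto (fun k : ℕ => Real.log k) atTop atTop :=
  Real.tendsto_log_atTop.comp tendsto_natCast_atTop_atTop

/-- `log k / log T → 1 / c` for `T` of the order of `k ^ c` -/
lemma log_ratio_pow {T : ℕ → ℕ} {c : ℕ} {C : ℝ} (hc : 0 < c) (hC : 1 ≤ C)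
    (h : ∀ᶠ k : ℕ in atTop, (k : ℝ) ^ c ≤ C * T k ∧ (T k : ℝ) ≤ C * (k : ℝ) ^ c) :
    Tendsto (fun k : ℕ => Real.log k / Real.log (T k)) atTop (𝓝 (1 / (c : ℝ))) := by
  have hc' : (0 : ℝ) < c := by exact_mod_cast hc
  have h0 : Tendsto (fun k : ℕ => Real.log C / Real.log k) atTop (𝓝 0) := logk_tendsto.const_div_atTop _
  have h1 : Tendsto (fun k : ℕ => (c : ℝ) - Real.log C / Real.log k) atTop (𝓝 (c - 0)) := tendsto_const_nhds.sub h0
  have h2 : Tendsto (fun k : ℕ => (c : ℝ) + Real.log C / Real.log k) atTop (𝓝 (c + 0)) := tendsto_const_nhds.add h0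
  rw [sub_zero] at h1
  rw [add_zero] at h2
  have key : ∀ᶠ k : ℕ in atTop, (c : ℝ) - Real.log C / Real.log k ≤ Real.log (T k) / Real.log k ∧
      Real.log (T k) / Real.log k ≤ (c : ℝ) + Real.log C / Real.log k := by
    filter_upwards [h, eventually_ge_atTop 3] with k hk hk3
    have hk3' : (3 : ℝ) ≤ k := by exact_mod_cast hk3
    have hL : 0 < Real.log k := Real.log_pos (by linarith)
    have hT0 : (0 : ℝ) < T k := by
      have : (0 : ℝ) < (k : ℝ) ^ c := by positivity
      have h3 := this.trans_le hk.1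
      exact pos_of_mul_pos_right h3 (by linarith)
    have a1 : c * Real.log k ≤ Real.log C + Real.log (T k) := by
      rw [← Real.log_pow, ← Real.log_mul (by linarith) hT0.ne']
      exact Real.log_le_log (by positivity) hk.1
    have a2 : Real.log (T k) ≤ Real.log C + c * Real.log k := by
      rw [← Real.log_pow, ← Real.log_mul (by linarith) (by positivity)]
      exact Real.log_le_log hT0 hk.2
    constructor
    · rw [le_div_iff₀ hL, sub_mul, div_mul_cancel₀ _ hL.ne']
      linarith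
    · rw [div_le_iff₀ hL, add_mul, div_mul_cancel₀ _ hL.ne']
      linarith
  have h3 : Tendsto (fun k : ℕ => Real.log (T k) / Real.log k) atTop (𝓝 c) :=
    tendsto_of_tendsto_of_tendsto_of_le_of_le' h1 h2 (key.mono fun _ h => h.1) (key.mono fun _ h => h.2)
  have h4 := h3.inv₀ hc'.ne'
  rw [← one_div] at h4
  refine h4.congr fun k => ?_
  rw [inv_div]

/-- the smallness hypothesis when `log k / log T` and `H / k ^ d` have limits -/
lemma small_of {T H : ℕ → ℕ} {ρ β : ℝ} {d : ℕ} (hd : 0 < d) (hρ0 : ρ ≠ 0) (hβ0 : β ≠ 0)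
    (hρ : Tendsto (fun k : ℕ => Real.log k / Real.log (T k)) atTop (𝓝 ρ))
    (hβ : Tendsto (fun k : ℕ => (H k : ℝ) / (k : ℝ) ^ d) atTop (𝓝 β)) :
    Tendsto (fun k : ℕ => Real.log k * Real.log (T k) / (H k : ℝ)) atTop (𝓝 0) := by
  have h1 : Tendsto (fun k : ℕ => Real.log (k : ℝ) ^ 2 / (k : ℝ) ^ d) atTop (𝓝 0) := by
    have := (Real.isLittleO_pow_log_id_atTop (n := 2)).tendsto_div_nhds_zero.comp (tendsto_natCast_atTop_atTop (R := ℝ))
    refine squeeze_zero' (Eventually.of_forall fun k => by positivity) ?_ this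
    filter_upwards [eventually_ge_atTop 1] with k hk
    have hk' : (1 : ℝ) ≤ k := by exact_mod_cast hk
    show Real.log (k : ℝ) ^ 2 / (k : ℝ) ^ d ≤ Real.log (k : ℝ) ^ 2 / (k : ℝ)
    apply div_le_div_of_nonneg_left (sq_nonneg _) (by linarith)
    exact le_self_pow₀ hk' hd.ne'
  have h2 := (h1.mul (hρ.inv₀ hρ0)).mul (hβ.inv₀ hβ0)
  rw [zero_mul, zero_mul] at h2
  refine h2.congr' ?_
  filter_upwards [eventually_ge_atTop 3] with k hk
  have hk' : (3 : ℝ) ≤ k := by exact_mod_cast hk
  have hL : 0 < Real.log k := Real.log_pos (by linarith)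
  rw [inv_div, inv_div]
  field_simp

end Pool.Agent.N740.HK
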