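import Mathlib
import Pool.Agent.N740.HK.Str4

/-!
# Successive windows
-/

set_option autoImplicit false
set_option linter.unusedSectionVars false

open MeasureTheory Filter Set
open scoped ENNReal Topology

namespace Pool.Agent.N740.HK

open Pool.Agent.R528.RM

lemma gram_lim {ι : Type} [Fintype ι] [DecidableEq ι] {σ : ι → ℕ → ℕ → ℝ} {H : ℕ → ℕ} {W : ℕ → ℝ}
    (h : ∀ i i', Tendsto (fun k => (∑ t ∈ Finset.range (H k), σ i k t * σ i' k t) / W k) atTop (𝓝 (if i = i' then 1 else 0)))
    (a : ι → ℝ) :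
    Tendsto (fun k => RW (fun t => ∑ i, a i * σ i k t) (H k) 0 / W k) atTop (𝓝 (∑ i, a i ^ 2)) := by
  have e : ∀ k, RW (fun t => ∑ i, a i * σ i k t) (H k) 0 / W k =
      ∑ i, ∑ i', a i * a i' * ((∑ t ∈ Finset.range (H k), σ i k t * σ i' k t) / W k) := by
    intro k
    unfold RW
    rw [← Finset.range_eq_Ico]
    have e1 : ∀ t, (∑ i, a i * σ i k t) ^ 2 = ∑ i, ∑ i', a i * a i' * (σ i k t * σ i' k t) := by
      intro t
      rw [pow_two, Finset.sum_mul_sum]
      refine Finset.sum_congr rfl fun i _ => Finset.sum_congr rfl fun i' _ => by ring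
    simp only [e1]
    rw [Finset.sum_comm, Finset.sum_div]
    refine Finset.sum_congr rfl fun i _ => ?_
    rw [Finset.sum_comm, Finset.sum_div]
    refine Finset.sum_congr rfl fun i' _ => ?_
    rw [← Finset.mul_sum, mul_div_assoc]
  simp only [e]
  have e2 : ∑ i, a i ^ 2 = ∑ i, ∑ i', a i * a i' * (if i = i' then 1 else 0) := by
    refine Finset.sum_congr rfl fun i _ => ?_
    rw [Finset.sum_eq_single i]
    · rw [if_pos rfl]; ring
    · intro j _ hj
      rw [if_neg (Ne.symm hj), mul_zero]
    · intro hh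
      exact absurd (Finset.mem_univ i) hh
  rw [e2]
  exact tendsto_finsetSum _ fun i _ => tendsto_finsetSum _ fun i' _ => (h i i').const_mul _

variable {Ω : Type} {m0 : MeasurableSpace Ω} {μ : Measure Ω} [IsProbabilityMeasure μ]
  {ℱ : Filtration ℕ m0} {A : ℕ → Set Ω}

/-- the signal of the `i`-th window after the `k`-th -/
noncomputable def wS (S : ℕ → ℕ) (k i t : ℕ) : ℝ := if S (k + i) < S k + t + 1 ∧ S k + t + 1 < S (k + i + 1) then 1 else 0

/-- the alternating signal of the `k`-th window -/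
noncomputable def aS (S : ℕ → ℕ) (k t : ℕ) : ℝ := (-1) ^ t * wS S k 0 t

lemma wS_abs (S : ℕ → ℕ) (k i t : ℕ) : |wS S k i t| ≤ 1 := by
  unfold wS
  split_ifs <;> simp

lemma aS_abs (S : ℕ → ℕ) (k t : ℕ) : |aS S k t| ≤ 1 := by
  unfold aS
  rw [abs_mul, abs_pow, abs_neg, abs_one, one_pow, one_mul]
  exact wS_abs S k 0 t

lemma wS_sum {S : ℕ → ℕ} (hS : StrictMono S) (k m : ℕ) {i : ℕ} (hi : i < m) (F : ℕ → ℝ) :
    ∑ t ∈ Finset.range (S (k + m) - S k), wS S k i t * F t =
      ∑ t ∈ Finset.Ico (S (k + i) - S k) (S (k + i + 1) - S k - 1), F t := by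
  unfold wS
  simp only [ite_mul, one_mul, zero_mul]
  rw [← Finset.sum_filter]
  congr 1
  ext t
  simp only [Finset.mem_filter, Finset.mem_range, Finset.mem_Ico]
  have h1 := hS.monotone (show k ≤ k + i by omega)
  have h2 := hS.monotone (show k + i + 1 ≤ k + m by omega)
  have h3 := hS (show k + i < k + i + 1 by omega)
  omega

lemma wS_disj {S : ℕ → ℕ} (hS : StrictMono S) (k : ℕ) {i i' : ℕ} (h : i ≠ i') (t : ℕ) : wS S k i t * wS S k i' t = 0 := by
  unfold wS
  by_cases h1 : S (k + i) < S k + t + 1 ∧ S k + t + 1 < S (k + i + 1)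
  · rw [if_pos h1, if_neg, mul_zero]
    rintro ⟨h2, h3⟩
    rcases lt_or_gt_of_ne h with h4 | h4
    · have := hS.monotone (show k + i + 1 ≤ k + i' by omega)
      omega
    · have := hS.monotone (show k + i' + 1 ≤ k + i by omega)
      omega
  · rw [if_neg h1, zero_mul]

/-- the excess in an open interval -/
noncomputable def exO (μ : Measure Ω) (ℱ : Filtration ℕ m0) (A : ℕ → Set Ω) (a b : ℕ) (ω : Ω) : ℝ :=
  ∑ r ∈ Finset.Ioo a b, ((A r).indicator (fun _ => (1 : ℝ)) ω - (μ[(A r).indicator (fun _ => (1 : ℝ)) | ℱ (r - 1)]) ω)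

lemma SW_wS {ω : Ω} (hD : ∀ n, DD' μ ℱ A n ω = dens μ ℱ A n ω) {S : ℕ → ℕ} (hS : StrictMono S) (k m : ℕ) {i : ℕ} (hi : i < m) :
    SW μ ℱ A (wS S k i) (S k) (S (k + m) - S k) ω = exO μ ℱ A (S (k + i)) (S (k + i + 1)) ω := by
  have h1 := hS.monotone (show k ≤ k + i by omega)
  have h3 := hS (show k + i < k + i + 1 by omega)
  unfold SW
  rw [wS_sum hS k m hi]
  have e1 : Finset.Ioo (S (k + i)) (S (k + i + 1)) = Finset.Ioc (S k + (S (k + i) - S k)) (S k + (S (k + i + 1) - S k - 1)) := by
    ext r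
    simp only [Finset.mem_Ioo, Finset.mem_Ioc]
    omega
  unfold exO
  rw [e1, sum_Ioc_shift]
  refine Finset.sum_congr rfl fun t _ => ?_
  rw [hD, Nat.add_sub_cancel]
  rfl

/-- **successive windows** -/
theorem succ_windows (hA : ∀ n, MeasurableSet[ℱ n] (A n))
    (hd : ∀ᵐ ω ∂μ, Tendsto (fun n : ℕ => dens μ ℱ A n ω * Real.log n) atTop (𝓝 1))
    {S : ℕ → ℕ} (hS : StrictMono S) {w : ℕ → ℝ} {ρ : ℝ} (hρ0 : 0 < ρ) (hw0 : Tendsto w atTop atTop)
    (h1 : Tendsto (fun k => ((S (k + 1) : ℝ) - S k) / w k) atTop (𝓝 1))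
    (h2 : ∀ i : ℕ, Tendsto (fun k => w (k + i) / w k) atTop (𝓝 1))
    (h3 : Tendsto (fun k : ℕ => Real.log k / Real.log (S k)) atTop (𝓝 ρ))
    (h4 : Tendsto (fun k : ℕ => Real.log k * Real.log (S k) / w k) atTop (𝓝 0))
    (h5 : ∀ m : ℕ, ∀ᶠ k in atTop, S (k + m) - S k ≤ S k) :
    ∀ᵐ ω ∂μ, ∀ m : ℕ, 0 < m →
      {x : Fin m → ℝ | MapClusterPt x atTop (fun (k : ℕ) (i : Fin m) =>
        exO μ ℱ A (S (k + i)) (S (k + i + 1)) ω / Real.sqrt (2 * ρ * w k))} = {x : Fin m → ℝ | ∑ i, x i ^ 2 ≤ 1} ∧
      ∀ ε : ℝ, 0 < ε → ∀ᶠ k in atTop,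
        ∑ i : Fin m, (exO μ ℱ A (S (k + i)) (S (k + i + 1)) ω / Real.sqrt (2 * ρ * w k)) ^ 2 ≤ 1 + ε := by
  classical
  -- the lengths
  have hlen : ∀ i : ℕ, Tendsto (fun k => ((S (k + i + 1) - S k - 1 - (S (k + i) - S k) : ℕ) : ℝ) / w k) atTop (𝓝 1) := by
    intro i
    have g1 : Tendsto (fun k => ((S (k + i + 1) : ℝ) - S (k + i)) / w (k + i)) atTop (𝓝 1) :=
      h1.comp (tendsto_add_atTop_nat i)
    have g2 := g1.mul (h2 i)
    have g3 : Tendsto (fun k => 1 / w k) atTop (𝓝 0) := hw0.const_div_atTop _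
    have g4 := g2.sub g3
    rw [one_mul, sub_zero] at g4
    refine g4.congr' ?_
    filter_upwards [hw0.eventually_gt_atTop 0, (hw0.comp (tendsto_add_atTop_nat i)).eventually_gt_atTop 0] with k k1 k2
    have k2 : 0 < w (k + i) := k2
    have a1 := hS.monotone (show k ≤ k + i by omega)
    have a2 := hS (show k + i < k + i + 1 by omega)
    have e1 : S (k + i + 1) - S k - 1 - (S (k + i) - S k) = S (k + i + 1) - S (k + i) - 1 := by omega
    rw [e1, Nat.cast_sub (by omega), Nat.cast_sub a2.le, Nat.cast_one]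
    field_simp
  have main : ∀ m : ℕ, 0 < m → ∀ s : ℕ, ∀ᵐ ω ∂μ,
      (∀ ε : ℝ, 0 < ε → ∀ᶠ j : ℕ in atTop,
        ∑ i : Fin m, (exO μ ℱ A (S (j * m + s + i)) (S (j * m + s + i + 1)) ω / Real.sqrt (2 * ρ * w (j * m + s))) ^ 2 ≤ 1 + ε) ∧
      ∀ x : Fin m → ℝ, ∑ i, x i ^ 2 ≤ 1 → ∀ ε : ℝ, 0 < ε → ∃ᶠ j : ℕ in atTop, ∀ i : Fin m,
        |exO μ ℱ A (S (j * m + s + i)) (S (j * m + s + i + 1)) ω / Real.sqrt (2 * ρ * w (j * m + s)) - x i| < ε := by
    intro m hm s
    set κ : ℕ → ℕ := fun j => j * m + s with hκ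
    have hκt : Tendsto κ atTop atTop := by
      refine tendsto_atTop_mono' atTop (Eventually.of_forall fun j => ?_) tendsto_id
      simp only [hκ, id]
      nlinarith
    set T : ℕ → ℕ := fun j => S (κ j) with hTd
    set H : ℕ → ℕ := fun j => S (κ j + m) - S (κ j) with hHd
    set σ : Option (Fin m) → ℕ → ℕ → ℝ := fun o j t => o.elim (aS S (κ j) t) (fun i => wS S (κ j) i t) with hσd
    have hlogκ : Tendsto (fun j : ℕ => Real.log j / Real.log (κ j)) atTop (𝓝 1) := by
      have := log_ratio_pow (T := κ) (c := 1) (C := (m : ℝ) + s + 1) one_pos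
        (by nlinarith [Nat.cast_nonneg (α := ℝ) m, Nat.cast_nonneg (α := ℝ) s]) (by
          filter_upwards [eventually_ge_atTop 1] with j hj
          have hj' : (1 : ℝ) ≤ j := by exact_mod_cast hj
          have hm' : (1 : ℝ) ≤ m := by exact_mod_cast hm
          have hs' : (0 : ℝ) ≤ s := Nat.cast_nonneg _
          simp only [hκ, pow_one]
          push_cast
          constructor
          · have a1 : (j : ℝ) ≤ j * m + s := by nlinarith
            have a2 : (0 : ℝ) ≤ j * m + s := by positivity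
            nlinarith
          · nlinarith)
      simpa using this
    have hlogT : Tendsto (fun j : ℕ => Real.log j / Real.log (T j)) atTop (𝓝 ρ) := by
      have g := hlogκ.mul (h3.comp hκt)
      rw [one_mul] at g
      refine g.congr' ?_
      filter_upwards [hκt.eventually_ge_atTop 3] with j hj
      have hj' : (3 : ℝ) ≤ κ j := by exact_mod_cast hj
      have hL : 0 < Real.log (κ j) := Real.log_pos (by linarith)
      show Real.log j / Real.log (κ j) * (Real.log (κ j) / Real.log (S (κ j))) = Real.log j / Real.log (S (κ j))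
      field_simp
    have hT : Tendsto T atTop atTop := hS.tendsto_atTop.comp hκt
    have hH : ∀ᶠ j in atTop, H j ≤ T j := hκt.eventually (h5 m)
    have hTH : ∀ j, T j + H j ≤ T (j + 1) := by
      intro j
      have e1 : κ (j + 1) = κ j + m := by simp only [hκ]; ring
      have e2 := hS.monotone (show κ j ≤ κ j + m by omega)
      simp only [hTd, hHd, e1]
      omega
    have hW0 : ∀ᶠ j in atTop, 0 < w (κ j) := hκt.eventually (hw0.eventually_gt_atTop 0)
    have hlen' : ∀ i : ℕ, Tendsto (fun j => ((S (κ j + i + 1) - S (κ j) - 1 - (S (κ j + i) - S (κ j)) : ℕ) : ℝ) / w (κ j)) atTop (𝓝 1) :=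
      fun i => (hlen i).comp hκt
    have halt : Tendsto (fun j => (∑ t ∈ Finset.Ico (S (κ j + 0) - S (κ j)) (S (κ j + 0 + 1) - S (κ j) - 1), (-1 : ℝ) ^ t) / w (κ j))
        atTop (𝓝 0) := by
      have g3 : Tendsto (fun k => 1 / w (κ k)) atTop (𝓝 0) := (hw0.comp hκt).const_div_atTop _
      rw [tendsto_zero_iff_abs_tendsto_zero]
      refine squeeze_zero' (Eventually.of_forall fun _ => abs_nonneg _) ?_ g3
      filter_upwards [hW0] with j hj
      rw [Function.comp_apply, abs_div, abs_of_pos hj]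
      exact div_le_div_of_nonneg_right (alt_Ico _ _) hj.le
    have hG := gram_lim (ι := Option (Fin m)) (σ := σ) (H := H) (W := fun j => w (κ j)) (fun i i' => by
      have hww : ∀ i : Fin m, Tendsto (fun j => (∑ t ∈ Finset.range (H j), wS S (κ j) i t * wS S (κ j) i t) / w (κ j)) atTop (𝓝 1) := by
        intro i
        refine (hlen' i).congr fun j => ?_
        congr 1
        have e1 : ∀ t, wS S (κ j) i t * wS S (κ j) i t = wS S (κ j) i t * 1 := by
          intro t
          unfold wS
          split_ifs <;> simp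
        simp only [e1]
        rw [wS_sum hS (κ j) m i.2, Finset.sum_const, Nat.card_Ico, nsmul_eq_mul, mul_one]
      cases i with
      | none =>
        cases i' with
        | none =>
          rw [if_pos rfl]
          refine (hww ⟨0, hm⟩).congr fun j => ?_
          congr 1
          refine Finset.sum_congr rfl fun t _ => ?_
          show _ = aS S (κ j) t * aS S (κ j) t
          unfold aS
          have h1 : ((-1 : ℝ) ^ t) * ((-1 : ℝ) ^ t) = 1 := by rw [← mul_pow]; simp
          calc wS S (κ j) 0 t * wS S (κ j) 0 t = ((-1 : ℝ) ^ t * (-1 : ℝ) ^ t) * (wS S (κ j) 0 t * wS S (κ j) 0 t) := by rw [h1, one_mul]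
            _ = _ := by ring
        | some i' =>
          rw [if_neg (by simp)]
          rcases Nat.eq_zero_or_pos (i' : ℕ) with h0 | h0
          · refine halt.congr fun j => ?_
            congr 1
            have e1 : ∀ t, σ none j t * σ (some i') j t = wS S (κ j) 0 t * (-1) ^ t := by
              intro t
              show aS S (κ j) t * wS S (κ j) i' t = _
              rw [h0]
              unfold aS wS
              split_ifs <;> simp
            simp only [e1]
            rw [wS_sum hS (κ j) m hm]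
          · refine tendsto_const_nhds.congr fun j => ?_
            have e1 : ∀ t, σ none j t * σ (some i') j t = 0 := by
              intro t
              show aS S (κ j) t * wS S (κ j) i' t = _
              unfold aS
              rw [mul_assoc, wS_disj hS (κ j) (by omega : (0 : ℕ) ≠ i'), mul_zero]
            simp only [e1, Finset.sum_const_zero, zero_div]
      | some i =>
        cases i' with
        | none =>
          rw [if_neg (by simp)]
          rcases Nat.eq_zero_or_pos (i : ℕ) with h0 | h0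
          · refine halt.congr fun j => ?_
            congr 1
            have e1 : ∀ t, σ (some i) j t * σ none j t = wS S (κ j) 0 t * (-1) ^ t := by
              intro t
              show wS S (κ j) i t * aS S (κ j) t = _
              rw [h0]
              unfold aS wS
              split_ifs <;> simp
            simp only [e1]
            rw [wS_sum hS (κ j) m hm]
          · refine tendsto_const_nhds.congr fun j => ?_
            have e1 : ∀ t, σ (some i) j t * σ none j t = 0 := by
              intro t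
              show wS S (κ j) i t * aS S (κ j) t = _
              unfold aS
              rw [mul_left_comm, wS_disj hS (κ j) (by omega : (i : ℕ) ≠ 0), mul_zero]
            simp only [e1, Finset.sum_const_zero, zero_div]
        | some i' =>
          by_cases hii : i = i'
          · subst hii
            rw [if_pos rfl]
            exact hww i
          · rw [if_neg (by simpa using hii)]
            refine tendsto_const_nhds.congr fun j => ?_
            have e1 : ∀ t, σ (some i) j t * σ (some i') j t = 0 := by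
              intro t
              exact wS_disj hS (κ j) (fun h => hii (Fin.ext h)) t
            simp only [e1, Finset.sum_const_zero, zero_div])
    have hs : Tendsto (fun j : ℕ => Real.log j * Real.log (T j) / w (κ j)) atTop (𝓝 0) := by
      have g := hlogκ.mul (h4.comp hκt)
      rw [one_mul] at g
      refine g.congr' ?_
      filter_upwards [hκt.eventually_ge_atTop 3] with j hj
      have hj' : (3 : ℝ) ≤ κ j := by exact_mod_cast hj
      have hL : 0 < Real.log (κ j) := Real.log_pos (by linarith)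
      show Real.log j / Real.log (κ j) * (Real.log (κ j) * Real.log (S (κ j)) / w (κ j)) =
        Real.log j * Real.log (S (κ j)) / w (κ j)
      field_simp
    have hb := ball (ι := Option (Fin m)) (μ := μ) hA hd (σ := σ) (W := fun j => w (κ j)) (fun o k t => by
      cases o with
      | none => exact aS_abs _ _ _
      | some i => exact wS_abs _ _ _ _) hT hH hW0 hG hs hTH
    -- the normalisation
    have hTl : Tendsto (fun k : ℕ => Real.log (T k)) atTop atTop :=
      Real.tendsto_log_atTop.comp (tendsto_natCast_atTop_atTop.comp hT)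
    set r : ℕ → ℝ := fun j => MM (w (κ j)) (Real.log (T j)) (Real.log j) / Real.sqrt (2 * ρ * w (κ j)) with hr
    have hr1 : Tendsto r atTop (𝓝 1) := by
      have g := (hlogT.div_const ρ).sqrt
      rw [div_self hρ0.ne', Real.sqrt_one] at g
      refine g.congr' ?_
      filter_upwards [hW0, hTl.eventually_gt_atTop 0] with j j1 j2
      simp only [hr]
      unfold MM
      rw [← Real.sqrt_div' _ (by positivity)]
      congr 1
      field_simp
    filter_upwards [hb, DD'_ae (μ := μ) hA] with ω hω hD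
    have heq : ∀ᶠ j in atTop, ∀ i : Fin m,
        exO μ ℱ A (S (j * m + s + i)) (S (j * m + s + i + 1)) ω / Real.sqrt (2 * ρ * w (j * m + s)) =
        r j * ND μ ℱ A T H (fun j => w (κ j)) (σ (some i)) j ω := by
      filter_upwards [hW0, hTl.eventually_gt_atTop 0, eventually_ge_atTop 3] with j k1 k2 k4 i
      have hΛ : 0 < Real.log (j : ℝ) := Real.log_pos (by exact_mod_cast (by omega : 1 < j))
      have hMM : 0 < MM (w (κ j)) (Real.log (T j)) (Real.log j) := Real.sqrt_pos.2 (by positivity)
      unfold ND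
      have e1 : SW μ ℱ A (σ (some i) j) (T j) (H j) ω = exO μ ℱ A (S (κ j + i)) (S (κ j + i + 1)) ω := SW_wS hD hS (κ j) m i.2
      rw [e1]
      simp only [hr, hκ]
      simp only [hκ] at hMM
      field_simp
    have p1 : ∀ ε : ℝ, 0 < ε → ∀ᶠ j in atTop, ∑ i : Fin m, ND μ ℱ A T H (fun j => w (κ j)) (σ (some i)) j ω ^ 2 ≤ 1 + ε := by
      intro ε hε
      filter_upwards [hω.1 ε hε] with j hj
      rw [Fintype.sum_option] at hj
      exact (le_add_of_nonneg_left (sq_nonneg _)).trans hj
    have p2 : ∀ x : Fin m → ℝ, ∑ i, x i ^ 2 ≤ 1 → ∀ ε : ℝ, 0 < ε → ∃ᶠ j in atTop, ∀ i : Fin m,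
        |ND μ ℱ A T H (fun j => w (κ j)) (σ (some i)) j ω - x i| < ε := by
      intro x hx ε hε
      set y : Option (Fin m) → ℝ := fun o => o.elim (Real.sqrt (1 - ∑ i, x i ^ 2)) x with hy
      have hy1 : ∑ o, y o ^ 2 = 1 := by
        rw [Fintype.sum_option]
        show Real.sqrt (1 - ∑ i, x i ^ 2) ^ 2 + ∑ i, x i ^ 2 = 1
        rw [Real.sq_sqrt (by linarith)]
        ring
      refine (hω.2 y hy1 ε hε).mono ?_
      intro k hk i
      exact hk (some i)
    obtain ⟨q1, q2⟩ := ball_scale hr1 p1 p2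
    constructor
    · intro ε hε
      filter_upwards [q1 ε hε, heq] with j k1 k2
      simp only [k2]
      exact k1
    · intro x hx ε hε
      refine ((q2 x hx ε hε).and_eventually heq).mono ?_
      rintro k ⟨k1, k2⟩ i
      rw [k2]
      exact k1 i
  have hall : ∀ᵐ ω ∂μ, ∀ m : ℕ, 0 < m → ∀ s : ℕ,
      (∀ ε : ℝ, 0 < ε → ∀ᶠ j : ℕ in atTop,
        ∑ i : Fin m, (exO μ ℱ A (S (j * m + s + i)) (S (j * m + s + i + 1)) ω / Real.sqrt (2 * ρ * w (j * m + s))) ^ 2 ≤ 1 + ε) ∧
      ∀ x : Fin m → ℝ, ∑ i, x i ^ 2 ≤ 1 → ∀ ε : ℝ, 0 < ε → ∃ᶠ j : ℕ in atTop, ∀ i : Fin m,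
        |exO μ ℱ A (S (j * m + s + i)) (S (j * m + s + i + 1)) ω / Real.sqrt (2 * ρ * w (j * m + s)) - x i| < ε := by
    refine ae_all_iff.2 fun m => ?_
    rcases Nat.eq_zero_or_pos m with rfl | hm
    · exact Eventually.of_forall fun ω h => absurd h (lt_irrefl _)
    · have := ae_all_iff.2 (main m hm)
      filter_upwards [this] with ω hω _
      exact hω
  filter_upwards [hall] with ω hω m hm
  have q3 : ∀ ε : ℝ, 0 < ε → ∀ᶠ k in atTop,
        ∑ i : Fin m, (exO μ ℱ A (S (k + i)) (S (k + i + 1)) ω / Real.sqrt (2 * ρ * w k)) ^ 2 ≤ 1 + ε := by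
    intro ε hε
    have g1 : ∀ᶠ j : ℕ in atTop, ∀ s ∈ Finset.range m,
        ∑ i : Fin m, (exO μ ℱ A (S (j * m + s + i)) (S (j * m + s + i + 1)) ω / Real.sqrt (2 * ρ * w (j * m + s))) ^ 2 ≤ 1 + ε := by
      rw [eventually_all_finset]
      intro s _
      exact (hω m hm s).1 ε hε
    have g2 : Tendsto (fun k : ℕ => k / m) atTop atTop := Nat.tendsto_div_const_atTop hm.ne'
    filter_upwards [g2.eventually g1] with k hk
    have h6 := hk (k % m) (Finset.mem_range.2 (Nat.mod_lt _ hm))
    have e1 : k / m * m + k % m = k := Nat.div_add_mod' k m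
    rwa [e1] at h6
  refine ⟨ball_cluster q3 (fun x hx ε hε => ?_), q3⟩
  have g1 := (hω m hm 0).2 x hx ε hε
  simp only [add_zero] at g1
  have g2 : Tendsto (fun j : ℕ => j * m) atTop atTop :=
    tendsto_atTop_mono (fun j => Nat.le_mul_of_pos_right j hm) tendsto_id
  exact g2.frequently g1

end Pool.Agent.N740.HK
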