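import Mathlib
import Pool.Agent.N740.HK.Bh5

/-!
# Uniform concentration for tuples
-/

set_option autoImplicit false
set_option linter.unusedSectionVars false

open MeasureTheory Filter Set Polynomial
open scoped ENNReal Topology

namespace Pool.Agent.N740.HK

open Pool.Agent.R528.RM Pl

variable {Ω : Type} {m0 : MeasurableSpace Ω} {μ : Measure Ω} [IsProbabilityMeasure μ]
  {ℱ : Filtration ℕ m0} {A : ℕ → Set Ω}

/-- **concentration for a sequence of windows and shift sets** -/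
theorem conc_fam (hA : ∀ n, MeasurableSet[ℱ n] (A n)) {ρ : ℕ → ℝ} (hρ0 : ∀ n, 0 ≤ ρ n) (hρ1 : ∃ c, ∀ n, ρ n ≤ c)
    (hd : ∀ᵐ ω ∂μ, ∀ ε : ℝ, 0 < ε → ∀ᶠ n : ℕ in atTop, |dens μ ℱ A n ω - ρ n| ≤ ε * ρ n) (k : ℕ) :
    ∀ D : ℕ → Finset ℕ, (∀ j, (D j).card = k) → ∀ x H : ℕ → ℕ, ∀ u : ℕ → ℕ → ℝ, (∀ j n, 0 ≤ u j n ∧ u j n ≤ 1) →
    ∀ᵐ ω ∂μ, ∀ ε : ℝ, 0 < ε → ∃ C : ℝ, 0 ≤ C ∧ ∀ᶠ j : ℕ in atTop,
      |∑ n ∈ Finset.Ioc (x j) (x j + H j), u j n * ∏ d ∈ D j, J1 A (n + d) ω -
        ∑ n ∈ Finset.Ioc (x j) (x j + H j), u j n * ∏ d ∈ D j, ρ (n + d - 1)| ≤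
        ε * (∑ n ∈ Finset.Ioc (x j) (x j + H j), u j n * ∏ d ∈ D j, ρ (n + d - 1)) + C * Real.log j := by
  classical
  induction k with
  | zero =>
    intro D hD x H u hu
    refine Eventually.of_forall fun ω ε hε => ⟨0, le_rfl, Eventually.of_forall fun j => ?_⟩
    have hDj := Finset.card_eq_zero.1 (hD j)
    rw [hDj]
    simp only [Finset.prod_empty, sub_self, abs_zero, zero_mul, add_zero]
    exact mul_nonneg hε.le (Finset.sum_nonneg fun n _ => mul_nonneg (hu j n).1 zero_le_one)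
  | succ k ih =>
    intro D hD x H u hu
    obtain ⟨c, hc⟩ := hρ1
    set c' : ℝ := max c 1 with hc'
    have hc1 : 1 ≤ c' := le_max_right _ _
    have hc0 : 0 < c' := by linarith
    have hcρ : ∀ n, ρ n ≤ c' := fun n => (hc n).trans (le_max_left _ _)
    have hne : ∀ j, (D j).Nonempty := fun j => Finset.card_pos.1 (by rw [hD j]; omega)
    set g : ℕ → ℕ := fun j => (D j).max' (hne j) with hg
    have hgm : ∀ j, g j ∈ D j := fun j => Finset.max'_mem _ _
    set D' : ℕ → Finset ℕ := fun j => (D j).erase (g j) with hD'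
    have hcard : ∀ j, (D' j).card = k := by
      intro j
      simp only [hD']
      rw [Finset.card_erase_of_mem (hgm j), hD j]
      omega
    have hlt : ∀ j, ∀ d ∈ D' j, d < g j := by
      intro j d hd'
      have h1 := Finset.le_max' (D j) d (Finset.mem_of_mem_erase hd')
      have h2 := Finset.ne_of_mem_erase hd'
      exact lt_of_le_of_ne h1 h2
    set w : ℕ → ℕ → Ω → ℝ := fun N t ω =>
      if x N < t + 1 - g N ∧ t + 1 ≤ x N + H N + g N then u N (t + 1 - g N) * ∏ d ∈ D' N, J1 A (t + 1 - g N + d) ω else 0 with hw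
    have hP01 : ∀ j n ω, 0 ≤ ∏ d ∈ D' j, J1 A (n + d) ω ∧ ∏ d ∈ D' j, J1 A (n + d) ω ≤ 1 := fun j n ω =>
      ⟨Finset.prod_nonneg fun f _ => (J1_01 _ ω).1, Finset.prod_le_one (fun f _ => (J1_01 _ ω).1) fun f _ => (J1_01 _ ω).2⟩
    have hwm : ∀ N t, StronglyMeasurable[ℱ t] (w N t) := by
      intro N t
      simp only [hw]
      by_cases h : x N < t + 1 - g N ∧ t + 1 ≤ x N + H N + g N
      · simp only [if_pos h]
        refine StronglyMeasurable.const_mul (Finset.stronglyMeasurable_fun_prod _ fun d hd' => ?_) _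
        have h1 := hlt N d hd'
        exact (J1_meas hA _).mono (ℱ.mono (by omega))
      · simp only [if_neg h]
        exact stronglyMeasurable_const
    have hw01 : ∀ N t ω, 0 ≤ w N t ω ∧ w N t ω ≤ 1 := by
      intro N t ω
      simp only [hw]
      split_ifs
      · exact ⟨mul_nonneg (hu _ _).1 (hP01 _ _ ω).1, mul_le_one₀ (hu _ _).2 (hP01 _ _ ω).1 (hP01 _ _ ω).2⟩
      · exact ⟨le_rfl, zero_le_one⟩
    have hconc := conc_rho (μ := μ) hA hρ0 ⟨c, hc⟩ hd w (fun N => x N + H N + g N) hwm hw01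
    have hih := ih D' hcard x H (fun j n => u j n * (ρ (n + g j - 1) / c')) (fun j n => by
      have h1 : 0 ≤ ρ (n + g j - 1) / c' := div_nonneg (hρ0 _) hc0.le
      have h2 : ρ (n + g j - 1) / c' ≤ 1 := (div_le_one hc0).2 (hcρ _)
      exact ⟨mul_nonneg (hu j n).1 h1, mul_le_one₀ (hu j n).2 h1 h2⟩)
    -- the change of variables
    have hswap : ∀ N (F : ℕ → ℝ) (ω : Ω), ∑ t ∈ Finset.range (x N + H N + g N), w N t ω * F t =
        ∑ n ∈ Finset.Ioc (x N) (x N + H N), (u N n * ∏ d ∈ D' N, J1 A (n + d) ω) * F (n + g N - 1) := by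
      intro N F ω
      simp only [hw, ite_mul, zero_mul]
      rw [← Finset.sum_filter]
      refine Finset.sum_nbij' (fun t => t + 1 - g N) (fun n => n + g N - 1) ?_ ?_ ?_ ?_ ?_
      · intro t ht
        have h1 := Finset.mem_filter.1 ht
        have h2 := Finset.mem_range.1 h1.1
        have h3 := h1.2
        rw [Finset.mem_Ioc]
        omega
      · intro n hn
        have h1 := Finset.mem_Ioc.1 hn
        refine Finset.mem_filter.2 ⟨Finset.mem_range.2 ?_, ?_⟩ <;> omega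
      · intro t ht
        have h1 := Finset.mem_filter.1 ht
        have h3 := h1.2
        show t + 1 - g N + g N - 1 = t
        omega
      · intro n hn
        have h1 := Finset.mem_Ioc.1 hn
        show n + g N - 1 + 1 - g N = n
        omega
      · intro t ht
        have h1 := Finset.mem_filter.1 ht
        have h3 := h1.2
        have e : t + 1 - g N + g N - 1 = t := by omega
        rw [e]
    filter_upwards [hconc, hih] with ω h1 h2
    intro ε hε
    set ε' : ℝ := min (ε / 3) 1 with hε'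
    have he0 : 0 < ε' := lt_min (by positivity) one_pos
    have he1 : ε' ≤ 1 := min_le_right _ _
    have he3 : 3 * ε' ≤ ε := by
      have := min_le_left (ε / 3) 1
      linarith
    obtain ⟨C1, hC1⟩ := h1 ε' he0
    obtain ⟨C2, hC2, hC2'⟩ := h2 ε' he0
    refine ⟨|C1| + 2 * (c' * C2), by positivity, ?_⟩
    filter_upwards [hC2', hC1, eventually_ge_atTop 2] with j hx1 h5 hj
    have h6 := hx1
    rw [hswap j (fun t => J1 A (t + 1) ω) ω, hswap j (fun t => ρ t) ω] at h5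
    have e1 : ∑ n ∈ Finset.Ioc (x j) (x j + H j), (u j n * ∏ d ∈ D' j, J1 A (n + d) ω) * J1 A (n + g j - 1 + 1) ω =
        ∑ n ∈ Finset.Ioc (x j) (x j + H j), u j n * ∏ d ∈ D j, J1 A (n + d) ω := by
      refine Finset.sum_congr rfl fun n hn => ?_
      have := (Finset.mem_Ioc.1 hn).1
      have e : n + g j - 1 + 1 = n + g j := by omega
      rw [e, ← Finset.mul_prod_erase (D j) _ (hgm j)]
      ring
    have e2 : ∑ n ∈ Finset.Ioc (x j) (x j + H j), (u j n * ∏ d ∈ D' j, J1 A (n + d) ω) * ρ (n + g j - 1) =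
        c' * ∑ n ∈ Finset.Ioc (x j) (x j + H j), (u j n * (ρ (n + g j - 1) / c')) * ∏ d ∈ D' j, J1 A (n + d) ω := by
      rw [Finset.mul_sum]
      refine Finset.sum_congr rfl fun n _ => ?_
      field_simp
    have e3 : ∑ n ∈ Finset.Ioc (x j) (x j + H j), u j n * ∏ d ∈ D j, ρ (n + d - 1) =
        c' * ∑ n ∈ Finset.Ioc (x j) (x j + H j), (u j n * (ρ (n + g j - 1) / c')) * ∏ d ∈ D' j, ρ (n + d - 1) := by
      rw [Finset.mul_sum]
      refine Finset.sum_congr rfl fun n _ => ?_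
      rw [← Finset.mul_prod_erase (D j) _ (hgm j)]
      simp only [hD']
      field_simp
    rw [e1, e2] at h5
    rw [e3]
    set S1 := ∑ n ∈ Finset.Ioc (x j) (x j + H j), u j n * ∏ d ∈ D j, J1 A (n + d) ω with hS1
    set S2 := ∑ n ∈ Finset.Ioc (x j) (x j + H j), (u j n * (ρ (n + g j - 1) / c')) * ∏ d ∈ D' j, J1 A (n + d) ω with hS2
    set S3 := ∑ n ∈ Finset.Ioc (x j) (x j + H j), (u j n * (ρ (n + g j - 1) / c')) * ∏ d ∈ D' j, ρ (n + d - 1) with hS3
    have hS30 : 0 ≤ S3 := Finset.sum_nonneg fun n _ => mul_nonneg (mul_nonneg (hu j n).1 (div_nonneg (hρ0 _) hc0.le))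
      (Finset.prod_nonneg fun f _ => hρ0 _)
    have hj' : (2 : ℝ) ≤ j := by exact_mod_cast hj
    have hLx : 0 < Real.log j := Real.log_pos (by linarith)
    have h8 : C1 * Real.log j ≤ |C1| * Real.log j := mul_le_mul_of_nonneg_right (le_abs_self C1) hLx.le
    have a1 := abs_le.1 h6
    have g1 : c' * (S2 - S3) ≤ c' * (ε' * S3 + C2 * Real.log j) := mul_le_mul_of_nonneg_left a1.2 hc0.le
    have g2 : c' * (-(ε' * S3 + C2 * Real.log j)) ≤ c' * (S2 - S3) := mul_le_mul_of_nonneg_left a1.1 hc0.le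
    have a2 := abs_le.1 (h5.trans (add_le_add le_rfl h8))
    have hCL : 0 ≤ c' * C2 * Real.log j := by positivity
    have hcS : 0 ≤ c' * S3 := mul_nonneg hc0.le hS30
    have g3 : ε' * (c' * S2) ≤ ε' * (c' * S3) + ε' * (ε' * (c' * S3)) + ε' * (c' * C2 * Real.log j) := by
      have : c' * S2 ≤ c' * S3 + ε' * (c' * S3) + c' * C2 * Real.log j := by nlinarith
      have := mul_le_mul_of_nonneg_left this he0.le
      linarith
    have g4 : ε' * (ε' * (c' * S3)) ≤ 1 * (ε' * (c' * S3)) := mul_le_mul_of_nonneg_right he1 (mul_nonneg he0.le hcS)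
    have g5 : ε' * (c' * C2 * Real.log j) ≤ 1 * (c' * C2 * Real.log j) := mul_le_mul_of_nonneg_right he1 hCL
    have g6 : 3 * ε' * (c' * S3) ≤ ε * (c' * S3) := mul_le_mul_of_nonneg_right he3 hcS
    have e4 : (|C1| + 2 * (c' * C2)) * Real.log j = |C1| * Real.log j + 2 * (c' * C2 * Real.log j) := by ring
    have e5 : c' * (ε' * S3 + C2 * Real.log j) = ε' * (c' * S3) + c' * C2 * Real.log j := by ring
    rw [e5] at g1
    have e6 : c' * (-(ε' * S3 + C2 * Real.log j)) = -(ε' * (c' * S3) + c' * C2 * Real.log j) := by ring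
    rw [e6] at g2
    rw [mul_sub] at g1 g2
    rw [e4, abs_le]
    constructor <;> linarith [a2.1, a2.2]

/-- decoding a list of length `k` -/
def dec : ℕ → ℕ → List ℕ
  | 0, _ => []
  | k + 1, j => (Nat.unpair j).1 :: dec k (Nat.unpair j).2

lemma dec_surj (M : ℕ) : ∀ (k : ℕ) (l : List ℕ), l.length = k → (∀ a ∈ l, a ≤ M) → ∃ j, dec k j = l ∧ j + 1 ≤ (M + 1) ^ (2 ^ k) := by
  intro k
  induction k with
  | zero =>
    intro l hl _
    refine ⟨0, ?_, by simp⟩
    rw [List.length_eq_zero_iff.1 hl]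
    rfl
  | succ k ih =>
    intro l hl hM
    match l, hl with
    | a :: l, hl =>
      have hl' : l.length = k := by simpa using hl
      obtain ⟨j, hj, hjb⟩ := ih l hl' fun b hb => hM b (List.mem_cons_of_mem a hb)
      refine ⟨Nat.pair a j, ?_, ?_⟩
      · show (Nat.unpair (Nat.pair a j)).1 :: dec k (Nat.unpair (Nat.pair a j)).2 = _
        rw [Nat.unpair_pair, hj]
      · have h1 := Nat.pair_lt_max_add_one_sq a j
        have h2 : a + 1 ≤ (M + 1) ^ (2 ^ k) := by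
          have h3 : a ≤ M := hM a List.mem_cons_self
          have h4 : M + 1 ≤ (M + 1) ^ (2 ^ k) := Nat.le_self_pow (by positivity) _
          omega
        have h3 : max a j + 1 ≤ (M + 1) ^ (2 ^ k) := by
          rcases le_total a j with h | h
          · rw [max_eq_right h]; exact hjb
          · rw [max_eq_left h]; exact h2
        calc Nat.pair a j + 1 ≤ (max a j + 1) ^ 2 := h1
          _ ≤ ((M + 1) ^ (2 ^ k)) ^ 2 := Nat.pow_le_pow_left h3 2
          _ = _ := by rw [← pow_mul, pow_succ]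

/-- **uniform concentration for tuples** -/
theorem conc_unif (hA : ∀ n, MeasurableSet[ℱ n] (A n)) {ρ : ℕ → ℝ} (hρ0 : ∀ n, 0 ≤ ρ n) (hρ1 : ∃ c, ∀ n, ρ n ≤ c)
    (hd : ∀ᵐ ω ∂μ, ∀ ε : ℝ, 0 < ε → ∀ᶠ n : ℕ in atTop, |dens μ ℱ A n ω - ρ n| ≤ ε * ρ n) :
    ∀ᵐ ω ∂μ, ∀ k : ℕ, ∀ ε : ℝ, 0 < ε → ∃ C : ℝ, 0 ≤ C ∧ ∀ᶠ x : ℕ in atTop, ∀ H : ℕ, H ≤ x ^ 2 → ∀ D : Finset ℕ,
      D.card = k → (∀ d ∈ D, d ≤ x ^ 2) →
      |∑ n ∈ Finset.Ioc x (x + H), ∏ d ∈ D, J1 A (n + d) ω - ∑ n ∈ Finset.Ioc x (x + H), ∏ d ∈ D, ρ (n + d - 1)| ≤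
        ε * (∑ n ∈ Finset.Ioc x (x + H), ∏ d ∈ D, ρ (n + d - 1)) + C * Real.log x := by
  classical
  rw [ae_all_iff]
  intro k
  -- the decoded data
  set ls : ℕ → List ℕ := fun j => dec (k + 2) j with hls
  set Dd : ℕ → Finset ℕ := fun j => if ((ls j).drop 2).toFinset.card = k then ((ls j).drop 2).toFinset else Finset.range k with hDd
  have hDk : ∀ j, (Dd j).card = k := by
    intro j
    simp only [hDd]
    split_ifs with h
    · exact h
    · exact Finset.card_range k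
  have h0 := conc_fam (μ := μ) hA hρ0 hρ1 hd k Dd hDk (fun j => (ls j).getD 0 0) (fun j => (ls j).getD 1 0) (fun _ _ => 1)
    (fun _ _ => ⟨zero_le_one, le_rfl⟩)
  filter_upwards [h0] with ω hω
  intro ε hε
  obtain ⟨C, hC, hC'⟩ := hω ε hε
  obtain ⟨N₀, hN₀⟩ := eventually_atTop.1 hC'
  refine ⟨C * (3 * 2 ^ (k + 2)), by positivity, ?_⟩
  filter_upwards [eventually_ge_atTop N₀, eventually_ge_atTop 2] with x hx1 hx2 H hH D hD hDx
  have hlen : (x :: H :: D.toList).length = k + 2 := by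
    simp [hD]
  have hle : ∀ a ∈ (x :: H :: D.toList), a ≤ x ^ 2 := by
    intro a ha
    rcases List.mem_cons.1 ha with rfl | ha
    · nlinarith
    rcases List.mem_cons.1 ha with rfl | ha
    · exact hH
    · exact hDx a (Finset.mem_toList.1 ha)
  obtain ⟨j, hj, hjb⟩ := dec_surj (x ^ 2) (k + 2) _ hlen hle
  have e1 : ls j = x :: H :: D.toList := hj
  have hjx : x ≤ j := by
    have h2 : dec (k + 2) j = (Nat.unpair j).1 :: dec (k + 1) (Nat.unpair j).2 := rfl
    rw [h2] at hj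
    have h3 : (Nat.unpair j).1 = x := (List.cons.inj hj).1
    rw [← h3]
    exact Nat.unpair_left_le j
  have h4 := hN₀ j (hx1.trans hjx)
  have e2 : Dd j = D := by
    simp only [hDd]
    rw [e1]
    simp [hD]
  rw [e2, e1] at h4
  simp only [List.getD_cons_zero, List.getD_cons_succ, one_mul] at h4
  refine h4.trans (add_le_add le_rfl ?_)
  have hx2' : (2 : ℝ) ≤ x := by exact_mod_cast hx2
  have hjpos : (0 : ℝ) < j := by exact_mod_cast (by omega : 0 < j)
  have h5 : (j : ℝ) ≤ ((x : ℝ) ^ 3) ^ (2 ^ (k + 2)) := by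
    have h6 : j ≤ (x ^ 3) ^ (2 ^ (k + 2)) := by
      have h7 : x ^ 2 + 1 ≤ x ^ 3 := by
        have : x ^ 3 = x ^ 2 * x := by ring
        nlinarith
      have h8 := Nat.pow_le_pow_left h7 (2 ^ (k + 2))
      omega
    exact_mod_cast h6
  have h6 := Real.log_le_log hjpos h5
  rw [← pow_mul, Real.log_pow] at h6
  push_cast at h6
  calc C * Real.log j ≤ C * (3 * 2 ^ (k + 2) * Real.log x) := mul_le_mul_of_nonneg_left h6 hC
    _ = _ := by ring

end Pool.Agent.N740.HK
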