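import Mathlib
import Pool.Agent.N740.HK.Bh5

/-!
# Uniform bounds for singular series
-/

set_option autoImplicit false
set_option linter.unusedSectionVars false

open Filter Set Polynomial
open scoped Topology

namespace Pool.Agent.N740.HK

open Pl

lemma om_sh_le (D : Finset ℕ) {p : ℕ} (hp : p.Prime) : om (sh D) p ≤ D.card := by
  classical
  rw [om_sh]
  have e1 : (Finset.range p).filter (fun a => ∃ b ∈ D, p ∣ a + b) =
      D.biUnion (fun b => (Finset.range p).filter (fun a => p ∣ a + b)) := by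
    ext a
    simp only [Finset.mem_filter, Finset.mem_biUnion, Finset.mem_range]
    constructor
    · rintro ⟨h1, f, hf, h2⟩
      exact ⟨f, hf, h1, h2⟩
    · rintro ⟨f, hf, h1, h2⟩
      exact ⟨h1, f, hf, h2⟩
  rw [e1]
  refine (Finset.card_biUnion_le_card_mul _ _ 1 fun b _ => ?_).trans (by rw [mul_one])
  rw [Finset.card_le_one]
  intro a ha a' ha'
  obtain ⟨h1, h2⟩ := Finset.mem_filter.1 ha
  obtain ⟨h3, h4⟩ := Finset.mem_filter.1 ha'
  have h5 := Finset.mem_range.1 h1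
  have h6 := Finset.mem_range.1 h3
  rcases Nat.lt_trichotomy a a' with h | h | h
  · have h7 := (Nat.dvd_sub h4 h2)
    have e : a' + b - (a + b) = a' - a := by omega
    rw [e] at h7
    have := Nat.le_of_dvd (by omega) h7
    omega
  · exact h
  · have h7 := (Nat.dvd_sub h2 h4)
    have e : a + b - (a' + b) = a - a' := by omega
    rw [e] at h7
    have := Nat.le_of_dvd (by omega) h7
    omega

lemma om_pos {D : Finset ℕ} (hD : D.Nonempty) {p : ℕ} (hp : p.Prime) : 1 ≤ om (sh D) p := by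
  classical
  obtain ⟨b, hb⟩ := hD
  rw [om_sh, Nat.one_le_iff_ne_zero, Finset.card_ne_zero]
  refine ⟨(p - b % p) % p, Finset.mem_filter.2 ⟨Finset.mem_range.2 (Nat.mod_lt _ hp.pos), b, hb, ?_⟩⟩
  have h1 := Nat.mod_lt b hp.pos
  have h2 := Nat.div_add_mod b p
  have h3 : p ∣ (p - b % p) + b := by
    refine ⟨b / p + 1, ?_⟩
    have : p * (b / p + 1) = p * (b / p) + p := by ring
    omega
  rw [Nat.dvd_iff_mod_eq_zero] at h3 ⊢
  rw [Nat.add_mod, Nat.mod_mod, ← Nat.add_mod]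
  exact h3

/-- the discriminant of a set of shifts -/
def dsc (D : Finset ℕ) : ℕ := ∏ q ∈ (D ×ˢ D).filter (fun q => q.1 < q.2), (q.2 - q.1)

lemma dsc_pos (D : Finset ℕ) : 0 < dsc D := by
  unfold dsc
  refine Finset.prod_pos fun q hq => ?_
  have := (Finset.mem_filter.1 hq).2
  omega

lemma dsc_le {D : Finset ℕ} {M : ℕ} (hM : ∀ d ∈ D, d ≤ M) (hM1 : 1 ≤ M) : dsc D ≤ M ^ (D.card ^ 2) := by
  unfold dsc
  calc ∏ q ∈ (D ×ˢ D).filter (fun q => q.1 < q.2), (q.2 - q.1) ≤ ∏ q ∈ (D ×ˢ D).filter (fun q => q.1 < q.2), M := by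
        refine Finset.prod_le_prod' fun q hq => ?_
        have h1 := Finset.mem_product.1 (Finset.mem_filter.1 hq).1
        have := hM _ h1.2
        omega
    _ = M ^ ((D ×ˢ D).filter (fun q => q.1 < q.2)).card := Finset.prod_const M
    _ ≤ M ^ (D.card ^ 2) := by
        refine Nat.pow_le_pow_right hM1 ?_
        calc ((D ×ˢ D).filter (fun q => q.1 < q.2)).card ≤ (D ×ˢ D).card := Finset.card_filter_le _ _
          _ = D.card ^ 2 := by rw [Finset.card_product, pow_two]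

lemma om_full {D : Finset ℕ} {p : ℕ} (hp : p.Prime) (hd : ¬ p ∣ dsc D) : om (sh D) p = D.card := by
  classical
  refine le_antisymm (om_sh_le D hp) ?_
  rw [om_sh]
  have hphi : ∀ b, p ∣ (p - b % p) % p + b := by
    intro b
    have h1 := Nat.mod_lt b hp.pos
    have h2 := Nat.div_add_mod b p
    have h3 : p ∣ (p - b % p) + b := by
      refine ⟨b / p + 1, ?_⟩
      have : p * (b / p + 1) = p * (b / p) + p := by ring
      omega
    rw [Nat.dvd_iff_mod_eq_zero] at h3 ⊢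
    rw [Nat.add_mod, Nat.mod_mod, ← Nat.add_mod]
    exact h3
  have hinj : Set.InjOn (fun b => (p - b % p) % p) (D : Set ℕ) := by
    intro b hb b' hb' h
    by_contra hne
    have h0 : (p - b % p) % p = (p - b' % p) % p := h
    have h1 := hphi b
    have h2 := hphi b'
    rw [h0] at h1
    have key : ∀ c c' : ℕ, c ∈ D → c' ∈ D → c < c' → p ∣ (p - b' % p) % p + c → p ∣ (p - b' % p) % p + c' → False := by
      intro c c' hc hc' hlt g1 g2
      have h3 := Nat.dvd_sub g2 g1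
      have e : (p - b' % p) % p + c' - ((p - b' % p) % p + c) = c' - c := by omega
      rw [e] at h3
      apply hd
      unfold dsc
      exact h3.trans (Finset.dvd_prod_of_mem (fun q : ℕ × ℕ => q.2 - q.1)
        (Finset.mem_filter.2 ⟨Finset.mem_product.2 ⟨hc, hc'⟩, hlt⟩ : (c, c') ∈ (D ×ˢ D).filter (fun q => q.1 < q.2)))
    rcases Nat.lt_or_gt_of_ne hne with h3 | h3
    · exact key b b' (Finset.mem_coe.1 hb) (Finset.mem_coe.1 hb') h3 h1 h2
    · exact key b' b (Finset.mem_coe.1 hb') (Finset.mem_coe.1 hb) h3 h2 h1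
  rw [← Finset.card_image_of_injOn hinj]
  refine Finset.card_le_card fun a ha => ?_
  obtain ⟨b, hb, rfl⟩ := Finset.mem_image.1 ha
  exact Finset.mem_filter.2 ⟨Finset.mem_range.2 (Nat.mod_lt _ hp.pos), b, hb, hphi b⟩

/-- the local factor -/
noncomputable def lf (D : Finset ℕ) (p : ℕ) : ℝ := (1 - (om (sh D) p : ℝ) / p) / (1 - 1 / (p : ℝ)) ^ D.card

/-- the partial products of the singular series -/
noncomputable def cs (D : Finset ℕ) (y : ℕ) : ℝ := ∏ p ∈ (Finset.Icc 1 y).filter Nat.Prime, lf D p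

lemma cs_eq (D : Finset ℕ) (y : ℕ) : VF (sh D) y / GG y ^ D.card = cs D y := by
  have := ser_eq (sh D) y
  rw [sh_card] at this
  exact this

lemma lf_nonneg (D : Finset ℕ) {p : ℕ} (hp : p.Prime) : 0 ≤ lf D p := by
  unfold lf
  have h1 := fac_pos hp
  have hp0 : (0 : ℝ) < p := by exact_mod_cast hp.pos
  have h2 : (om (sh D) p : ℝ) / p ≤ 1 := by
    rw [div_le_one hp0]
    exact_mod_cast om_le_p _ p
  have h3 : 0 ≤ 1 - (om (sh D) p : ℝ) / p := by linarith
  positivity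

lemma cs_nonneg (D : Finset ℕ) (y : ℕ) : 0 ≤ cs D y :=
  Finset.prod_nonneg fun p hp => lf_nonneg D (Finset.mem_filter.1 hp).2

lemma cs_split (D : Finset ℕ) {v y : ℕ} (hvy : v ≤ y) : cs D y = cs D v * ∏ p ∈ (Finset.Ioc v y).filter Nat.Prime, lf D p := by
  unfold cs
  rw [← Finset.prod_union]
  · congr 1
    ext p
    simp only [Finset.mem_filter, Finset.mem_union, Finset.mem_Icc, Finset.mem_Ioc]
    constructor
    · rintro ⟨⟨h1, h2⟩, h3⟩
      rcases le_or_gt p v with h4 | h4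
      · exact Or.inl ⟨⟨h1, h4⟩, h3⟩
      · exact Or.inr ⟨⟨h4, h2⟩, h3⟩
    · rintro (⟨⟨h1, h2⟩, h3⟩ | ⟨⟨h1, h2⟩, h3⟩)
      · exact ⟨⟨h1, h2.trans hvy⟩, h3⟩
      · exact ⟨⟨by omega, h2⟩, h3⟩
  · rw [Finset.disjoint_left]
    intro p h1 h2
    have := (Finset.mem_Icc.1 (Finset.mem_filter.1 h1).1).2
    have := (Finset.mem_Ioc.1 (Finset.mem_filter.1 h2).1).1
    omega

/-- `(1 - t)^k (1 + k t) ≤ 1` -/
lemma bern (k : ℕ) {t : ℝ} (h0 : 0 ≤ t) (h1 : t ≤ 1) : (1 - t) ^ k * (1 + k * t) ≤ 1 := by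
  induction k with
  | zero => simp
  | succ k ih =>
    have h2 : 0 ≤ (1 - t) ^ k := pow_nonneg (by linarith) k
    have h3 : (1 - t) * (1 + (k + 1 : ℕ) * t) ≤ 1 + k * t := by
      push_cast
      nlinarith [mul_nonneg (Nat.cast_nonneg (α := ℝ) k) (mul_nonneg h0 h0), mul_nonneg h0 h0]
    calc (1 - t) ^ (k + 1) * (1 + (k + 1 : ℕ) * t) = (1 - t) ^ k * ((1 - t) * (1 + (k + 1 : ℕ) * t)) := by ring
      _ ≤ (1 - t) ^ k * (1 + k * t) := mul_le_mul_of_nonneg_left h3 h2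
      _ ≤ 1 := ih

lemma lf_low (D : Finset ℕ) {p : ℕ} (hp : p.Prime) (hk : D.card ≤ p) : 1 - (D.card : ℝ) ^ 2 / p ^ 2 ≤ lf D p := by
  have hp0 : (0 : ℝ) < p := by exact_mod_cast hp.pos
  have h1 := fac_pos hp
  set t : ℝ := 1 / (p : ℝ) with ht
  have ht0 : 0 < t := by positivity
  have ht1 : t ≤ 1 := by linarith
  have hkt : (D.card : ℝ) * t ≤ 1 := by
    rw [ht, mul_one_div, div_le_one hp0]
    exact_mod_cast hk
  have h2 : 1 - D.card * t ≤ 1 - (om (sh D) p : ℝ) / p := by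
    have : (om (sh D) p : ℝ) ≤ D.card := by exact_mod_cast om_sh_le D hp
    have h3 : (om (sh D) p : ℝ) / p ≤ D.card / p := by gcongr
    have h4 : (D.card : ℝ) / p = D.card * t := by rw [ht, mul_one_div]
    linarith
  unfold lf
  rw [le_div_iff₀ (pow_pos h1 _)]
  have e : (D.card : ℝ) ^ 2 / p ^ 2 = (D.card * t) ^ 2 := by rw [ht]; ring
  rw [e]
  calc (1 - (D.card * t) ^ 2) * (1 - t) ^ D.card = (1 - D.card * t) * ((1 - t) ^ D.card * (1 + D.card * t)) := by ring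
    _ ≤ (1 - D.card * t) * 1 := mul_le_mul_of_nonneg_left (bern _ ht0.le ht1) (by linarith)
    _ ≤ _ := by linarith

lemma lf_up_full {D : Finset ℕ} {p : ℕ} (hp : p.Prime) (hd : ¬ p ∣ dsc D) : lf D p ≤ 1 := by
  have h1 := fac_pos hp
  unfold lf
  rw [om_full hp hd, div_le_one (pow_pos h1 _)]
  have h2 := one_add_mul_le_pow (a := -(1 / (p : ℝ))) (by
    have : 1 / (p : ℝ) ≤ 1 := by linarith
    linarith) D.card
  have e1 : (1 : ℝ) + -(1 / (p : ℝ)) = 1 - 1 / p := by ring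
  rw [e1] at h2
  calc 1 - (D.card : ℝ) / p = 1 + D.card * -(1 / (p : ℝ)) := by ring
    _ ≤ _ := h2

lemma lf_up {D : Finset ℕ} {p : ℕ} (hp : p.Prime) (hk : 2 * D.card ≤ p) : lf D p ≤ 1 + 2 * D.card / p := by
  have hp0 : (0 : ℝ) < p := by exact_mod_cast hp.pos
  have h1 := fac_pos hp
  unfold lf
  rw [div_le_iff₀ (pow_pos h1 _)]
  have h2 := one_add_mul_le_pow (a := -(1 / (p : ℝ))) (by
    have : 1 / (p : ℝ) ≤ 1 := by linarith
    linarith) D.card
  have e1 : (1 : ℝ) + -(1 / (p : ℝ)) = 1 - 1 / p := by ring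
  rw [e1] at h2
  have h3 : 2 * ((D.card : ℝ) / p) ≤ 1 := by
    rw [← mul_div_assoc, div_le_one hp0]
    exact_mod_cast hk
  set s : ℝ := (D.card : ℝ) / p with hs
  have hs0 : 0 ≤ s := by positivity
  have h4 : 1 - s ≤ (1 - 1 / (p : ℝ)) ^ D.card := by
    calc 1 - s = 1 + D.card * -(1 / (p : ℝ)) := by rw [hs]; ring
      _ ≤ _ := h2
  have e2 : 2 * (D.card : ℝ) / p = 2 * s := by rw [hs]; ring
  rw [e2]
  have h5 : 0 ≤ (om (sh D) p : ℝ) / p := by positivity
  calc 1 - (om (sh D) p : ℝ) / p ≤ 1 := by linarith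
    _ ≤ (1 + 2 * s) * (1 - s) := by nlinarith
    _ ≤ (1 + 2 * s) * (1 - 1 / (p : ℝ)) ^ D.card := mul_le_mul_of_nonneg_left h4 (by linarith)

lemma sum_sq_inv (v y : ℕ) (hv : 1 ≤ v) : ∑ p ∈ Finset.Ioc v y, 1 / (p : ℝ) ^ 2 ≤ 1 / (v : ℝ) := by
  rcases le_or_gt y v with h | h
  · rw [Finset.Ioc_eq_empty (by omega), Finset.sum_empty]
    positivity
  · have hkey : ∀ y, v ≤ y → ∑ p ∈ Finset.Ioc v y, 1 / (p : ℝ) ^ 2 ≤ 1 / (v : ℝ) - 1 / (y : ℝ) := by
      intro y hy
      induction y, hy using Nat.le_induction with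
      | base => simp
      | succ y hy ih =>
        have hy0 : (0 : ℝ) < y := by exact_mod_cast (by omega : 0 < y)
        rw [Finset.sum_Ioc_succ_top (by omega)]
        have h2 : 1 / ((y + 1 : ℕ) : ℝ) ^ 2 ≤ 1 / (y : ℝ) - 1 / ((y + 1 : ℕ) : ℝ) := by
          push_cast
          rw [div_sub_div _ _ hy0.ne' (by positivity), div_le_div_iff₀ (by positivity) (by positivity)]
          nlinarith
        linarith
    have := hkey y h.le
    have h2 : (0 : ℝ) ≤ 1 / (y : ℝ) := by positivity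
    linarith

/-- the tail of the product from below -/
lemma tail_low (D : Finset ℕ) {v y : ℕ} (hv : 1 ≤ v) (hk : D.card ≤ v) :
    1 - (D.card : ℝ) ^ 2 / v ≤ ∏ p ∈ (Finset.Ioc v y).filter Nat.Prime, lf D p := by
  have hk' : ∀ p ∈ (Finset.Ioc v y).filter Nat.Prime, (D.card : ℝ) ^ 2 / p ^ 2 ≤ 1 := by
    intro p hp
    have h1 := (Finset.mem_Ioc.1 (Finset.mem_filter.1 hp).1).1
    have h2 : (D.card : ℝ) ≤ p := by exact_mod_cast (by omega : D.card ≤ p)
    have h3 : (0 : ℝ) < p := by exact_mod_cast (by omega : 0 < p)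
    rw [div_le_one (by positivity)]
    exact pow_le_pow_left₀ (Nat.cast_nonneg _) h2 2
  have h1 := one_sub_sum_le ((Finset.Ioc v y).filter Nat.Prime) (fun p => (D.card : ℝ) ^ 2 / p ^ 2)
    fun p hp => ⟨by positivity, hk' p hp⟩
  have h2 : ∑ p ∈ (Finset.Ioc v y).filter Nat.Prime, (D.card : ℝ) ^ 2 / (p : ℝ) ^ 2 ≤ (D.card : ℝ) ^ 2 / v := by
    calc ∑ p ∈ (Finset.Ioc v y).filter Nat.Prime, (D.card : ℝ) ^ 2 / (p : ℝ) ^ 2 ≤
          ∑ p ∈ Finset.Ioc v y, (D.card : ℝ) ^ 2 / (p : ℝ) ^ 2 :=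
            Finset.sum_le_sum_of_subset_of_nonneg (Finset.filter_subset _ _) fun p _ _ => by positivity
      _ = (D.card : ℝ) ^ 2 * ∑ p ∈ Finset.Ioc v y, 1 / (p : ℝ) ^ 2 := by
          rw [Finset.mul_sum]
          refine Finset.sum_congr rfl fun p _ => ?_
          ring
      _ ≤ (D.card : ℝ) ^ 2 * (1 / v) := mul_le_mul_of_nonneg_left (sum_sq_inv v y hv) (by positivity)
      _ = _ := by ring
  refine le_trans (by linarith) (h1.trans ?_)
  refine Finset.prod_le_prod (fun p hp => by have := hk' p hp; linarith) fun p hp => ?_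
  have h3 := (Finset.mem_Ioc.1 (Finset.mem_filter.1 hp).1).1
  exact lf_low D (Finset.mem_filter.1 hp).2 (by omega)

/-- the tail of the product from above -/
lemma tail_up {D : Finset ℕ} {v y M : ℕ} (hv : 2 ≤ v) (hk : 2 * D.card ≤ v) (hM : ∀ d ∈ D, d ≤ M) (hM1 : 1 ≤ M) {K : ℝ}
    (hK : Real.log M ≤ K * v) :
    ∏ p ∈ (Finset.Ioc v y).filter Nat.Prime, lf D p ≤ Real.exp (2 * D.card ^ 3 * K / Real.log v) := by
  classical
  have hv' : (2 : ℝ) ≤ v := by exact_mod_cast hv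
  have hLv : 0 < Real.log v := Real.log_pos (by linarith)
  set Q := (Finset.Ioc v y).filter Nat.Prime with hQ
  set Bd := Q.filter (fun p => p ∣ dsc D) with hBd
  have h1 : ∏ p ∈ Q, lf D p ≤ (1 + 2 * (D.card : ℝ) / v) ^ Bd.card := by
    rw [← Finset.prod_filter_mul_prod_filter_not Q (fun p => p ∣ dsc D)]
    have h2 : ∏ p ∈ Q.filter (fun p => ¬ p ∣ dsc D), lf D p ≤ 1 := by
      refine Finset.prod_le_one (fun p hp => ?_) fun p hp => ?_
      · exact lf_nonneg D (Finset.mem_filter.1 (Finset.mem_filter.1 hp).1).2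
      · exact lf_up_full (Finset.mem_filter.1 (Finset.mem_filter.1 hp).1).2 (Finset.mem_filter.1 hp).2
    have h3 : ∏ p ∈ Bd, lf D p ≤ (1 + 2 * (D.card : ℝ) / v) ^ Bd.card := by
      rw [← Finset.prod_const]
      refine Finset.prod_le_prod (fun p hp => lf_nonneg D (Finset.mem_filter.1 (Finset.mem_filter.1 hp).1).2) fun p hp => ?_
      have h4 := (Finset.mem_filter.1 hp).1
      have h5 := (Finset.mem_Ioc.1 (Finset.mem_filter.1 h4).1).1
      have h6 : (v : ℝ) ≤ p := by exact_mod_cast h5.le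
      refine (lf_up (Finset.mem_filter.1 h4).2 (by omega)).trans ?_
      gcongr
    have h4 : 0 ≤ ∏ p ∈ Bd, lf D p := Finset.prod_nonneg fun p hp => lf_nonneg D (Finset.mem_filter.1 (Finset.mem_filter.1 hp).1).2
    calc (∏ p ∈ Bd, lf D p) * ∏ p ∈ Q.filter (fun p => ¬ p ∣ dsc D), lf D p ≤ (∏ p ∈ Bd, lf D p) * 1 :=
          mul_le_mul_of_nonneg_left h2 h4
      _ ≤ _ := by rw [mul_one]; exact h3
  -- the number of bad primes
  have h2 : v ^ Bd.card ≤ M ^ (D.card ^ 2) := by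
    have h3 : v ^ Bd.card ≤ ∏ p ∈ Bd, p := by
      rw [← Finset.prod_const]
      refine Finset.prod_le_prod' fun p hp => ?_
      exact (Finset.mem_Ioc.1 (Finset.mem_filter.1 (Finset.mem_filter.1 hp).1).1).1.le
    have h4 : ∏ p ∈ Bd, p ∣ dsc D :=
      Finset.prod_primes_dvd _ (fun p hp => (Finset.mem_filter.1 (Finset.mem_filter.1 hp).1).2.prime)
        fun p hp => (Finset.mem_filter.1 hp).2
    exact (h3.trans (Nat.le_of_dvd (dsc_pos D) h4)).trans (dsc_le hM hM1)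
  have h3 : (Bd.card : ℝ) * Real.log v ≤ D.card ^ 2 * (K * v) := by
    have h4 : ((v : ℝ)) ^ Bd.card ≤ (M : ℝ) ^ (D.card ^ 2) := by exact_mod_cast h2
    have h5 := Real.log_le_log (by positivity) h4
    rw [Real.log_pow, Real.log_pow] at h5
    push_cast at h5
    exact h5.trans (mul_le_mul_of_nonneg_left hK (by positivity))
  refine h1.trans ?_
  have h4 : (1 + 2 * (D.card : ℝ) / v) ^ Bd.card ≤ Real.exp (Bd.card * (2 * D.card / v)) := by
    rw [Real.exp_nat_mul]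
    refine pow_le_pow_left₀ (by positivity) ?_ _
    have := Real.add_one_le_exp (2 * (D.card : ℝ) / v)
    linarith
  refine h4.trans (Real.exp_le_exp.2 ?_)
  rw [le_div_iff₀ hLv]
  calc (Bd.card : ℝ) * (2 * D.card / v) * Real.log v = (2 * D.card / v) * ((Bd.card : ℝ) * Real.log v) := by ring
    _ ≤ (2 * D.card / v) * (D.card ^ 2 * (K * v)) := mul_le_mul_of_nonneg_left h3 (by positivity)
    _ = 2 * D.card ^ 3 * K := by
        field_simp

/-- the products of admissible sets are bounded below -/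
lemma cs_lower (k : ℕ) : ∃ c : ℝ, 0 < c ∧ ∀ D : Finset ℕ, D.card = k → (∀ p : ℕ, p.Prime → om (sh D) p < p) → ∀ y, c ≤ cs D y := by
  set P0 : ℕ := 2 * k ^ 2 + k + 1 with hP0
  set R : ℝ := ∏ p ∈ (Finset.Icc 1 P0).filter Nat.Prime, (1 / (p : ℝ)) with hR
  have hR0 : 0 < R := Finset.prod_pos fun p hp => by
    have : (0 : ℝ) < p := by exact_mod_cast (Finset.mem_filter.1 hp).2.pos
    positivity
  refine ⟨R * (1 / 2), by positivity, fun D hD hadm y => ?_⟩
  have hlf : ∀ p : ℕ, p.Prime → 1 / (p : ℝ) ≤ lf D p := by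
    intro p hp
    have hp0 : (0 : ℝ) < p := by exact_mod_cast hp.pos
    have h1 := fac_pos hp
    have h2 : (om (sh D) p : ℝ) + 1 ≤ p := by exact_mod_cast hadm p hp
    unfold lf
    have h3 : (1 - 1 / (p : ℝ)) ^ D.card ≤ 1 := pow_le_one₀ h1.le (by
      have : 0 < 1 / (p : ℝ) := by positivity
      linarith)
    have h4 : 1 / (p : ℝ) ≤ 1 - (om (sh D) p : ℝ) / p := by
      rw [le_sub_iff_add_le, ← add_div, div_le_one hp0]
      linarith
    rw [le_div_iff₀ (pow_pos h1 _)]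
    calc 1 / (p : ℝ) * (1 - 1 / (p : ℝ)) ^ D.card ≤ 1 / (p : ℝ) * 1 := mul_le_mul_of_nonneg_left h3 (by positivity)
      _ ≤ _ := by rw [mul_one]; exact h4
  -- the part up to `P0`
  have hsmall : ∀ w, w ≤ P0 → R ≤ cs D w := by
    intro w hw
    have hsub : (Finset.Icc 1 w).filter Nat.Prime ⊆ (Finset.Icc 1 P0).filter Nat.Prime :=
      Finset.filter_subset_filter _ (Finset.Icc_subset_Icc le_rfl hw)
    have h1 : R ≤ ∏ p ∈ (Finset.Icc 1 w).filter Nat.Prime, (1 / (p : ℝ)) := by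
      rw [hR, ← Finset.prod_sdiff hsub]
      refine mul_le_of_le_one_left (Finset.prod_nonneg fun p _ => by positivity) ?_
      refine Finset.prod_le_one (fun p _ => by positivity) fun p hp => ?_
      have hp1 : (1 : ℝ) ≤ p := by exact_mod_cast (Finset.mem_filter.1 (Finset.mem_sdiff.1 hp).1).2.pos
      rw [div_le_one (by linarith)]
      exact hp1
    refine h1.trans ?_
    unfold cs
    exact Finset.prod_le_prod (fun p _ => by positivity) fun p hp => hlf p (Finset.mem_filter.1 hp).2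
  rcases le_or_gt y P0 with h | h
  · have := hsmall y h
    linarith
  · rw [cs_split D h.le]
    have h1 := hsmall P0 le_rfl
    have h2 := tail_low D (v := P0) (y := y) (by omega) (by omega)
    have h3 : (1 : ℝ) / 2 ≤ 1 - (D.card : ℝ) ^ 2 / P0 := by
      rw [hD]
      have h4 : (k : ℝ) ^ 2 / P0 ≤ 1 / 2 := by
        rw [div_le_div_iff₀ (by positivity) (by norm_num)]
        rw [hP0]
        push_cast
        nlinarith [Nat.cast_nonneg (α := ℝ) k]
      linarith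
    exact mul_le_mul h1 (h3.trans h2) (by norm_num) (cs_nonneg D P0)

/-- existence of the singular series -/
lemma cs_lim (D : Finset ℕ) : ∃ S : ℝ, Tendsto (cs D) atTop (𝓝 S) := by
  set N := dsc D with hN
  have hanti : Antitone (fun n => cs D (n + N)) := by
    intro a b hab
    show cs D (b + N) ≤ cs D (a + N)
    rw [cs_split D (show a + N ≤ b + N by omega)]
    refine mul_le_of_le_one_right (cs_nonneg D _) (Finset.prod_le_one (fun p hp => lf_nonneg D (Finset.mem_filter.1 hp).2)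
      fun p hp => ?_)
    refine lf_up_full (Finset.mem_filter.1 hp).2 fun hdvd => ?_
    have h1 := Nat.le_of_dvd (dsc_pos D) hdvd
    have h2 := (Finset.mem_Ioc.1 (Finset.mem_filter.1 hp).1).1
    omega
  have hbdd : BddBelow (Set.range (fun n => cs D (n + N))) := ⟨0, by rintro _ ⟨y, rfl⟩; exact cs_nonneg D _⟩
  exact ⟨_, (tendsto_add_atTop_iff_nat N).1 (tendsto_atTop_ciInf hanti hbdd)⟩

open Classical in
/-- the sieve for all systems with at most `κ` classes -/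
theorem sieve_K (κ : ℕ) : ∃ C0 K0 : ℕ, ∀ F : Finset ℤ[X], (∀ p : ℕ, p.Prime → om F p ≤ κ) → ∀ b : ℕ, C0 ≤ b → ∀ v : ℕ, 2 ≤ v → ∀ y h : ℕ,
    |(((Finset.Ioc y (y + h)).filter (fun m => SF F v m)).card : ℝ) - h * VF F v| ≤
      (1 / 2 : ℝ) ^ b * (h * VF F v) + ((v : ℝ) + 3) * K0 * (v : ℝ) ^ (4 * (C0 * b)) := by
  obtain ⟨C0, K0, hC, hK, hFL⟩ := Pool.Agent.N740.PA.fl_w κ
  refine ⟨C0, K0, fun F hκ b hb v hv y h => ?_⟩
  obtain ⟨R, hR⟩ : ∃ R : ℕ → ℕ → Prop, ∀ p a, R p a ↔ ∃ f ∈ F, (p : ℤ) ∣ f.eval (a : ℤ) :=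
    ⟨fun p a => ∃ f ∈ F, (p : ℤ) ∣ f.eval (a : ℤ), fun _ _ => Iff.rfl⟩
  set P : Finset ℕ := (Finset.Icc 1 v).filter Nat.Prime with hP
  have hcard : ∀ p, ((Finset.range p).filter (fun a => R p a)).card = om F p := by
    intro p
    unfold om
    congr 1
    apply Finset.filter_congr
    intro a _
    exact hR p a
  have h1 := hFL b hb v hv (Finset.Ioc y (y + h)) (fun _ => 1) h 1 P R (fun _ _ => zero_le_one)
    (Nat.cast_nonneg _) zero_le_one (fun p hp => ⟨(Finset.mem_filter.1 hp).2, (Finset.mem_Icc.1 (Finset.mem_filter.1 hp).1).2,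
      (hcard p).le.trans (hκ p (Finset.mem_filter.1 hp).2)⟩) (fun d hd _ r => modEq_count y h d r hd)
  have e1 : ∏ p ∈ P, (1 - (((Finset.range p).filter (fun a => R p a)).card : ℝ) / p) = VF F v := by
    unfold VF
    refine Finset.prod_congr rfl fun p hp => ?_
    rw [hcard p]
  have e2 : (Finset.Ioc y (y + h)).filter (fun n => ∀ p ∈ P, ¬ R p (n % p)) = (Finset.Ioc y (y + h)).filter (fun m => SF F v m) := by
    apply Finset.filter_congr
    intro m _
    constructor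
    · intro h2 p hp hpv f hf hdvd
      exact h2 p (Finset.mem_filter.2 ⟨Finset.mem_Icc.2 ⟨hp.pos, hpv⟩, hp⟩) ((hR _ _).2 ⟨f, hf, (dvd_mod f p m).2 hdvd⟩)
    · intro h2 p hp h3
      obtain ⟨h4, h5⟩ := Finset.mem_filter.1 hp
      obtain ⟨f, hf, h6⟩ := (hR _ _).1 h3
      exact h2 p h5 (Finset.mem_Icc.1 h4).2 f hf ((dvd_mod f p m).1 h6)
  rw [e1, e2] at h1
  have e3 : ∑ m ∈ (Finset.Ioc y (y + h)).filter (fun m => SF F v m), (1 : ℝ) =
      (((Finset.Ioc y (y + h)).filter (fun m => SF F v m)).card : ℝ) := by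
    simp
  rw [e3] at h1
  refine h1.trans (add_le_add le_rfl ?_)
  have h3 : (Pool.Agent.W41.JJ v : ℝ) + 2 ≤ (v : ℝ) + 3 := by
    have : Pool.Agent.W41.JJ v ≤ v + 1 := by
      unfold Pool.Agent.W41.JJ
      have a1 : Nat.log 2 (Nat.log 2 v) ≤ Nat.log 2 v := Nat.log_le_self _ _
      have a2 : Nat.log 2 v ≤ v := Nat.log_le_self _ _
      omega
    have : (Pool.Agent.W41.JJ v : ℝ) ≤ (v : ℝ) + 1 := by exact_mod_cast this
    linarith
  have e4 : (v : ℝ) ^ (2 * (C0 * b)) * (K0 * (v : ℝ) ^ (2 * (C0 * b)) * 1) = K0 * (v : ℝ) ^ (4 * (C0 * b)) := by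
    rw [show 4 * (C0 * b) = 2 * (C0 * b) + 2 * (C0 * b) by ring, pow_add]
    ring
  rw [e4]
  have : 0 ≤ (K0 : ℝ) * (v : ℝ) ^ (4 * (C0 * b)) := by positivity
  calc ((Pool.Agent.W41.JJ v : ℝ) + 2) * (K0 * (v : ℝ) ^ (4 * (C0 * b))) ≤ ((v : ℝ) + 3) * (K0 * (v : ℝ) ^ (4 * (C0 * b))) :=
        mul_le_mul_of_nonneg_right h3 this
    _ = _ := by ring

end Pool.Agent.N740.HK
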