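import Mathlib
import Pool.Agent.N740.HK.Un1
import Pool.Agent.N740.HK.Un2

/-!
# The uniform law for tuples
-/

set_option autoImplicit false
set_option linter.unusedSectionVars false

open MeasureTheory Filter Set Polynomial
open scoped ENNReal Topology

namespace Pool.Agent.N740.HK

open Pool.Agent.R528.RM Pl

lemma vl_sh (d n : ℕ) : vl (X + Polynomial.C (d : ℤ)) n = n + d := by
  unfold vl
  rw [Polynomial.eval_add, Polynomial.eval_X, Polynomial.eval_C]
  have : ((n : ℤ) + (d : ℤ)) = ((n + d : ℕ) : ℤ) := by push_cast; rfl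
  rw [this, Int.toNat_natCast]

lemma sh_prod (D : Finset ℕ) (n : ℕ) (G : ℕ → ℝ) : ∏ f ∈ sh D, G (vl f n) = ∏ d ∈ D, G (n + d) := by
  classical
  unfold sh
  rw [Finset.prod_image (fun a _ b _ h => sh_inj h)]
  refine Finset.prod_congr rfl fun d _ => ?_
  rw [vl_sh]

/-- **the expected number, uniformly** -/
theorem un_det {z : ℕ → ℕ} (hz : Monotone z) (hzt : Tendsto z atTop atTop)
    {κ : ℕ} (hzκ : ∀ᶠ n : ℕ in atTop, (z n : ℝ) ≤ Real.log n ^ κ)
    (hreg : ∀ m : ℕ, ∃ B : ℕ, ∀ᶠ n : ℕ in atTop, z (n ^ m) ≤ B * z n) (k K : ℕ) :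
    ∀ θ : ℝ, 0 < θ → ∃ a : ℕ, ∃ δ : ℝ, 0 < δ ∧ δ ≤ 1 ∧ ∀ᶠ x : ℕ in atTop, ∀ H : ℕ, Real.log x ^ a ≤ H → (H : ℝ) ≤ (x : ℝ) ^ (1 + δ) →
      ∀ D : Finset ℕ, D.card = k → (∀ d ∈ D, (d : ℝ) ≤ (x : ℝ) ^ (1 + δ)) → (∀ d ∈ D, Real.log d ≤ K * z x) →
      (∀ p : ℕ, p.Prime → om (sh D) p < p) → ∀ S : ℝ, Tendsto (cs D) atTop (𝓝 S) →
      |(∑ n ∈ Finset.Ioc x (x + H), ∏ d ∈ D, rg z (n + d - 1)) * Real.log x ^ k / H - S| ≤ θ * S := by
  classical
  intro θ hθ
  obtain ⟨c, hc0, hcl⟩ := cs_lower k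
  -- the small parameter
  obtain ⟨t, ht0, ht1, hup, hlo, hpos'⟩ : ∃ t : ℝ, 0 < t ∧ t < 1 / 2 ∧
      ((1 + t) / (1 - t) + t) / (1 - t) < 1 + θ ∧ 1 - θ < ((1 - t) ^ 3 - t) / (1 + t) ^ 2 ∧ 0 < (1 - t) ^ 3 - t := by
    have c1 : Tendsto (fun t : ℝ => ((1 + t) / (1 - t) + t) / (1 - t)) (𝓝 0) (𝓝 1) := by
      have : ContinuousAt (fun t : ℝ => ((1 + t) / (1 - t) + t) / (1 - t)) 0 := by
        refine ContinuousAt.div (ContinuousAt.add (ContinuousAt.div (by fun_prop) (by fun_prop) (by norm_num)) (by fun_prop))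
          (by fun_prop) (by norm_num)
      simpa [ContinuousAt] using this
    have c2 : Tendsto (fun t : ℝ => ((1 - t) ^ 3 - t) / (1 + t) ^ 2) (𝓝 0) (𝓝 1) := by
      have : ContinuousAt (fun t : ℝ => ((1 - t) ^ 3 - t) / (1 + t) ^ 2) 0 := by
        refine ContinuousAt.div (by fun_prop) (by fun_prop) (by norm_num)
      simpa [ContinuousAt] using this
    have c3 : Tendsto (fun t : ℝ => (1 - t) ^ 3 - t) (𝓝 0) (𝓝 1) := by
      have : ContinuousAt (fun t : ℝ => (1 - t) ^ 3 - t) 0 := by fun_prop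
      simpa [ContinuousAt] using this
    have h1 := c1.eventually_lt_const (show 1 < 1 + θ by linarith)
    have h2 := c2.eventually_const_lt (show 1 - θ < 1 by linarith)
    have h2' := c3.eventually_const_lt (show (0 : ℝ) < 1 by norm_num)
    have h3 : ∀ᶠ η : ℝ in 𝓝 0, η < 1 / 2 := eventually_lt_nhds (by norm_num)
    have h4 : ∀ᶠ η : ℝ in 𝓝[>] 0, 0 < η := self_mem_nhdsWithin
    obtain ⟨η, ⟨⟨⟨h5, h6⟩, h6'⟩, h7⟩, h8⟩ := ((((h1.and h2).and h2').and h3).filter_mono nhdsWithin_le_nhds |>.and h4).exists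
    exact ⟨η, h8, h7, h5, h6, h6'⟩
  obtain ⟨δ, hδ0, hδ1, hδt⟩ : ∃ δ : ℝ, 0 < δ ∧ δ < 1 ∧ (1 + 2 * δ) ^ k < 1 + t := by
    have c1 : Tendsto (fun δ : ℝ => (1 + 2 * δ) ^ k) (𝓝 0) (𝓝 1) := by
      have : Continuous (fun δ : ℝ => (1 + 2 * δ) ^ k) := by fun_prop
      simpa using this.tendsto 0
    have h1 := c1.eventually_lt_const (show 1 < 1 + t by linarith)
    have h3 : ∀ᶠ η : ℝ in 𝓝 0, η < 1 := eventually_lt_nhds (by norm_num)
    have h4 : ∀ᶠ η : ℝ in 𝓝[>] 0, 0 < η := self_mem_nhdsWithin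
    obtain ⟨η, ⟨h5, h7⟩, h8⟩ := ((h1.and h3).filter_mono nhdsWithin_le_nhds |>.and h4).exists
    exact ⟨η, h8, h7, h5⟩
  obtain ⟨q, hq0, hq1, hqt⟩ : ∃ q : ℝ, 0 < q ∧ q < 1 ∧ 1 - t < (1 - q) ^ k := by
    have c1 : Tendsto (fun q : ℝ => (1 - q) ^ k) (𝓝 0) (𝓝 1) := by
      have : Continuous (fun q : ℝ => (1 - q) ^ k) := by fun_prop
      simpa using this.tendsto 0
    have h1 := c1.eventually_const_lt (show 1 - t < 1 by linarith)
    have h3 : ∀ᶠ η : ℝ in 𝓝 0, η < 1 := eventually_lt_nhds (by norm_num)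
    have h4 : ∀ᶠ η : ℝ in 𝓝[>] 0, 0 < η := self_mem_nhdsWithin
    obtain ⟨η, ⟨h5, h7⟩, h8⟩ := ((h1.and h3).filter_mono nhdsWithin_le_nhds |>.and h4).exists
    exact ⟨η, h8, h7, h5⟩
  obtain ⟨C0, K0, hsv⟩ := sieve_K k
  obtain ⟨b0, hb0⟩ := exists_pow_lt_of_lt_one ht0 (show (1 / 2 : ℝ) < 1 by norm_num)
  set b := max b0 C0 with hb
  have hbt : (1 / 2 : ℝ) ^ b ≤ t :=
    (pow_le_pow_of_le_one (by norm_num) (by norm_num) (le_max_left b0 C0)).trans hb0.le
  set e : ℕ := 4 * (C0 * b) + k + 1 with he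
  set a : ℕ := (κ + 1) * e + 1 with ha
  obtain ⟨B, hB⟩ := hreg 3
  refine ⟨a, δ, hδ0, hδ1.le, ?_⟩
  have hx3 : Tendsto (fun x : ℕ => x ^ 3) atTop atTop := tendsto_pow_atTop (by norm_num)
  have hzL : ∀ᶠ x : ℕ in atTop, (z (x ^ 3) : ℝ) ≤ Real.log x ^ (κ + 1) := by
    filter_upwards [hx3.eventually hzκ, tendsto_logN.eventually_ge_atTop ((3 : ℝ) ^ κ)] with x h1 h2
    refine h1.trans ?_
    have h3 : Real.log ((x ^ 3 : ℕ) : ℝ) = 3 * Real.log x := by
      push_cast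
      rw [Real.log_pow]
      norm_num
    rw [h3, mul_pow, pow_succ, mul_comm]
    exact mul_le_mul_of_nonneg_left h2 (pow_nonneg (Real.log_natCast_nonneg x) κ)
  have hGr : ∀ᶠ x : ℕ in atTop, (1 - q) * GG (z x) ≤ GG (z (x ^ 3)) := by
    filter_upwards [hzt.eventually (GG_reg B q hq0), hB, eventually_ge_atTop 1] with x h1 h2 h3
    exact h1 _ (hz (Nat.le_self_pow (by norm_num) x)) h2
  have hlogz : Tendsto (fun x : ℕ => Real.log (z x)) atTop atTop := tendsto_logN.comp hzt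
  have hexp : ∀ᶠ x : ℕ in atTop, Real.exp (2 * (k : ℝ) ^ 3 * K / Real.log (z x)) ≤ 1 + t := by
    have h1 : Tendsto (fun x : ℕ => 2 * (k : ℝ) ^ 3 * K / Real.log (z x)) atTop (𝓝 0) := hlogz.const_div_atTop _
    have h2 := (Real.continuous_exp.tendsto 0).comp h1
    rw [Real.exp_zero] at h2
    exact (h2.eventually_lt_const (show 1 < 1 + t by linarith)).mono fun x hx => le_of_lt hx
  have hkz : ∀ᶠ x : ℕ in atTop, (k : ℝ) ^ 2 / z x ≤ t := by
    have h1 : Tendsto (fun x : ℕ => (k : ℝ) ^ 2 / z x) atTop (𝓝 0) :=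
      (tendsto_natCast_atTop_atTop.comp hzt).const_div_atTop _
    exact (h1.eventually_lt_const ht0).mono fun x hx => le_of_lt hx
  filter_upwards [hzL, hGr, hexp, hkz, hzt.eventually_ge_atTop (2 * k + 2),
    tendsto_logN.eventually_ge_atTop (max 1 (4 * K0 / (t * c))), tendsto_logN.eventually_ge_atTop (Real.log 3 / δ),
    eventually_ge_atTop 4]
    with x hx3' hx4 hx5 hx6 hx7 hx8 hx9 hx10 H hH1 hH2 D hD hDx hDz hadm S hS
  have hx10' : (4 : ℝ) ≤ x := by exact_mod_cast hx10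
  set L := Real.log x with hL
  have hL1 : 1 ≤ L := (le_max_left _ _).trans hx8
  have hL2 : 4 * K0 / (t * c) ≤ L := (le_max_right _ _).trans hx8
  set v := z x with hv
  set w := z (x ^ 3) with hw
  have hvw : v ≤ w := hz (Nat.le_self_pow (by norm_num) x)
  have hv2 : 2 ≤ v := by omega
  have hw2 : 2 ≤ w := hv2.trans hvw
  have hHpos : (0 : ℝ) < H := lt_of_lt_of_le (by positivity) hH1
  have hP : 0 < L ^ k := by positivity
  -- the constants
  set M := max (D.sup id) 1 with hM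
  have hMD : ∀ d ∈ D, d ≤ M := fun d hd => (Finset.le_sup (f := id) hd).trans (le_max_left _ _)
  have hMlog : Real.log M ≤ (K : ℝ) * v := by
    rcases D.eq_empty_or_nonempty with h | h
    · have : M = 1 := by rw [hM, h]; simp
      rw [this, Nat.cast_one, Real.log_one]
      positivity
    · rcases le_total (D.sup id) 1 with h1 | h1
      · have : M = 1 := max_eq_right h1
        rw [this, Nat.cast_one, Real.log_one]
        positivity
      · have h2 : M = D.sup id := max_eq_left h1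
        obtain ⟨d, hd, hde⟩ := Finset.exists_mem_eq_sup D h id
        rw [h2, hde]
        exact hDz d hd
  have htail : ∀ y, v ≤ y → (1 - t) * cs D v ≤ cs D y ∧ cs D y ≤ (1 + t) * cs D v := by
    intro y hy
    rw [cs_split D hy]
    have h0 := cs_nonneg D v
    have h1 := tail_low D (v := v) (y := y) (by omega) (by omega)
    have h2 := tail_up (D := D) (v := v) (y := y) (M := M) hv2 (by omega) hMD (le_max_right _ _) hMlog
    rw [hD] at h1 h2
    have h3 : Real.exp (2 * (k : ℝ) ^ 3 * K / Real.log v) ≤ 1 + t := hx5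
    constructor
    · rw [mul_comm]
      exact mul_le_mul_of_nonneg_left (by linarith) h0
    · rw [mul_comm]
      exact mul_le_mul_of_nonneg_right (h2.trans h3) h0
  set cv := cs D v with hcv
  have hcvc : c ≤ cv := hcl D hD hadm v
  have hcv0 : 0 < cv := lt_of_lt_of_le hc0 hcvc
  have hS1 : (1 - t) * cv ≤ S := ge_of_tendsto hS ((eventually_ge_atTop v).mono fun y hy => (htail y hy).1)
  have hS2 : S ≤ (1 + t) * cv := le_of_tendsto hS ((eventually_ge_atTop v).mono fun y hy => (htail y hy).2)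
  have hS0 : 0 < S := lt_of_lt_of_le (mul_pos (by linarith) hcv0) hS1
  have hgv := GG_pos v
  have hgw := GG_pos w
  have hVv : VF (sh D) v = cv * GG v ^ k := by
    have := cs_eq D v
    rw [hD] at this
    rw [hcv, ← this]
    field_simp
  have hVw : VF (sh D) w = cs D w * GG w ^ k := by
    have := cs_eq D w
    rw [hD] at this
    rw [← this]
    field_simp
  have hGk : (1 - t) * GG v ^ k ≤ GG w ^ k := by
    have h1 : ((1 - q) * GG v) ^ k ≤ GG w ^ k := pow_le_pow_left₀ (mul_nonneg (by linarith) hgv.le) hx4 k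
    rw [mul_pow] at h1
    exact (mul_le_mul_of_nonneg_right hqt.le (by positivity)).trans h1
  -- the window
  have hpt : ∀ n ∈ Finset.Ioc x (x + H), (∀ f ∈ sh D, 0 < f.eval (n : ℤ)) ∧ (∀ f ∈ sh D, v ≤ z (vl f n) ∧ z (vl f n) ≤ w) ∧
      L ^ k ≤ ∏ d ∈ D, Real.log ((n + d - 1 : ℕ) : ℝ) ∧ ∏ d ∈ D, Real.log ((n + d - 1 : ℕ) : ℝ) ≤ (1 + t) * L ^ k := by
    intro n hn
    have hn' := Finset.mem_Ioc.1 hn
    have hnd : ∀ d ∈ D, ((n + d : ℕ) : ℝ) ≤ 3 * (x : ℝ) ^ (1 + δ) := by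
      intro d hd
      have h1 : (n : ℝ) ≤ x + H := by exact_mod_cast hn'.2
      have h2 : (x : ℝ) ≤ (x : ℝ) ^ (1 + δ) := by
        have := Real.rpow_le_rpow_of_exponent_le (show (1 : ℝ) ≤ x by linarith) (show (1 : ℝ) ≤ 1 + δ by linarith)
        rwa [Real.rpow_one] at this
      have h3 := hDx d hd
      push_cast
      linarith
    refine ⟨?_, ?_, ?_, ?_⟩
    · rw [sh_mem]
      intro d hd
      rw [Polynomial.eval_add, Polynomial.eval_X, Polynomial.eval_C]
      have : 0 < n := by omega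
      positivity
    · rw [sh_mem]
      intro d hd
      rw [vl_sh]
      refine ⟨hz (by omega), hz ?_⟩
      have h1 := hnd d hd
      have h2 : (x : ℝ) ^ (1 + δ) ≤ (x : ℝ) ^ (2 : ℝ) :=
        Real.rpow_le_rpow_of_exponent_le (by linarith) (by linarith)
      rw [Real.rpow_two] at h2
      have h3 : ((n + d : ℕ) : ℝ) ≤ ((x ^ 3 : ℕ) : ℝ) := by
        push_cast at h1 ⊢
        have h4 : 3 * (x : ℝ) ^ 2 ≤ (x : ℝ) ^ 3 := by nlinarith [sq_nonneg (x : ℝ)]
        linarith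
      exact_mod_cast h3
    · rw [← hD, ← Finset.prod_const]
      refine Finset.prod_le_prod (fun d _ => by linarith) fun d hd => ?_
      refine Real.log_le_log (by linarith) ?_
      have : x ≤ n + d - 1 := by omega
      exact_mod_cast this
    · have h1 : ∏ d ∈ D, Real.log ((n + d - 1 : ℕ) : ℝ) ≤ ∏ d ∈ D, ((1 + 2 * δ) * L) := by
        refine Finset.prod_le_prod (fun d _ => Real.log_natCast_nonneg _) fun d hd => ?_
        have h2 := hnd d hd
        have h3 : ((n + d - 1 : ℕ) : ℝ) ≤ 3 * (x : ℝ) ^ (1 + δ) := by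
          refine le_trans ?_ h2
          exact_mod_cast Nat.sub_le _ _
        have h4 : (0 : ℝ) < ((n + d - 1 : ℕ) : ℝ) := by
          have : 0 < n + d - 1 := by omega
          exact_mod_cast this
        have h5 := Real.log_le_log h4 h3
        rw [Real.log_mul (by norm_num) (by positivity), Real.log_rpow (by linarith)] at h5
        have h6 : Real.log 3 ≤ δ * L := by
          rw [div_le_iff₀ hδ0] at hx9
          linarith
        have h7 : (1 + 2 * δ) * L = δ * L + (1 + δ) * L := by ring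
        rw [h7]
        linarith
      rw [Finset.prod_const, hD, mul_pow] at h1
      exact h1.trans (mul_le_mul_of_nonneg_right hδt.le hP.le)
  have hrg : ∀ n ∈ Finset.Ioc x (x + H), ∏ d ∈ D, rg z (n + d - 1) =
      (∏ f ∈ sh D, (1 + DF (z (vl f n)) (vl f n))) / ∏ d ∈ D, Real.log ((n + d - 1 : ℕ) : ℝ) := by
    intro n hn
    have hn' := Finset.mem_Ioc.1 hn
    rw [sh_prod D n (fun m => 1 + DF (z m) m), ← Finset.prod_div_distrib]
    refine Finset.prod_congr rfl fun d hd => ?_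
    unfold rg
    rw [Nat.sub_add_cancel (by omega)]
  set S3 := ∑ n ∈ Finset.Ioc x (x + H), ∏ d ∈ D, rg z (n + d - 1) with hS3
  set N : ℕ → ℝ := fun y => (((Finset.Ioc x (x + H)).filter (fun m => SF (sh D) y m)).card : ℝ) with hN
  have hcd : (sh D).card = k := by rw [sh_card, hD]
  have hupS : S3 ≤ N v * (((GG w)⁻¹) ^ k / L ^ k) := by
    rw [hS3, hN]
    simp only
    rw [Finset.card_filter, Nat.cast_sum, Finset.sum_mul]
    refine Finset.sum_le_sum fun n hn => ?_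
    obtain ⟨h1, h2, h3, h4⟩ := hpt n hn
    obtain ⟨g1, g2, g3⟩ := pt_bd h1 h2
    rw [hcd] at g1 g2
    rw [hrg n hn]
    by_cases hs : SF (sh D) v n
    · rw [if_pos hs, Nat.cast_one, one_mul]
      exact div_le_div₀ (by positivity) (g2 hs) hP h3
    · rw [if_neg hs, g3 hs]
      simp
  have hloS : N w * (((GG v)⁻¹) ^ k / ((1 + t) * L ^ k)) ≤ S3 := by
    rw [hS3, hN]
    simp only
    rw [Finset.card_filter, Nat.cast_sum, Finset.sum_mul]
    refine Finset.sum_le_sum fun n hn => ?_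
    obtain ⟨h1, h2, h3, h4⟩ := hpt n hn
    obtain ⟨g1, g2, g3⟩ := pt_bd h1 h2
    rw [hcd] at g1 g2
    have hlp : 0 < ∏ d ∈ D, Real.log ((n + d - 1 : ℕ) : ℝ) := lt_of_lt_of_le hP h3
    have hprod : 0 ≤ ∏ f ∈ sh D, (1 + DF (z (vl f n)) (vl f n)) := Finset.prod_nonneg fun f _ => one_add_DF_nonneg _ _
    rw [hrg n hn]
    by_cases hs : SF (sh D) w n
    · rw [if_pos hs, Nat.cast_one, one_mul]
      exact div_le_div₀ hprod (g1 hs) hlp h4
    · rw [if_neg hs]
      simp only [Nat.cast_zero, zero_mul]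
      exact div_nonneg hprod hlp.le
  -- the error term
  have herr : ∀ y s : ℕ, y ≤ w → 2 ≤ y → s ≤ w → 1 ≤ s →
      (((y : ℝ) + 3) * K0 * (y : ℝ) ^ (4 * (C0 * b))) * ((GG s)⁻¹) ^ k ≤ t * c * H := by
    intro y s hy hy2 hs hs1
    have hy' : (y : ℝ) ≤ w := by exact_mod_cast hy
    have hs' : (s : ℝ) ≤ w := by exact_mod_cast hs
    have hw2' : (2 : ℝ) ≤ w := by exact_mod_cast hw2
    have h1 : (GG s)⁻¹ ≤ w := by
      have := inv_anti₀ (by positivity) (GG_lower s hs1)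
      rw [one_div, inv_inv] at this
      exact this.trans hs'
    have h2 : ((GG s)⁻¹) ^ k ≤ (w : ℝ) ^ k := pow_le_pow_left₀ (inv_pos.2 (GG_pos s)).le h1 k
    have h3 : ((y : ℝ) + 3) * K0 * (y : ℝ) ^ (4 * (C0 * b)) ≤ (4 * w) * K0 * (w : ℝ) ^ (4 * (C0 * b)) := by
      have : (y : ℝ) + 3 ≤ 4 * w := by linarith
      gcongr
    have h4 : (w : ℝ) ^ e ≤ L ^ ((κ + 1) * e) := by
      rw [pow_mul]
      exact pow_le_pow_left₀ (Nat.cast_nonneg _) hx3' e
    have htc : 0 < t * c := mul_pos ht0 hc0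
    calc (((y : ℝ) + 3) * K0 * (y : ℝ) ^ (4 * (C0 * b))) * ((GG s)⁻¹) ^ k ≤
          ((4 * w) * K0 * (w : ℝ) ^ (4 * (C0 * b))) * (w : ℝ) ^ k :=
            mul_le_mul h3 h2 (pow_nonneg (inv_pos.2 (GG_pos s)).le k) (by positivity)
      _ = 4 * K0 * (w : ℝ) ^ e := by
          rw [he, pow_add, pow_add, pow_one]
          ring
      _ ≤ 4 * K0 * L ^ ((κ + 1) * e) := mul_le_mul_of_nonneg_left h4 (by positivity)
      _ ≤ (t * c * L) * L ^ ((κ + 1) * e) := by
          refine mul_le_mul_of_nonneg_right ?_ (by positivity)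
          rw [div_le_iff₀ htc] at hL2
          linarith
      _ = t * c * L ^ a := by
          rw [ha, pow_succ]
          ring
      _ ≤ t * c * H := mul_le_mul_of_nonneg_left hH1 htc.le
  have hom : ∀ p : ℕ, p.Prime → om (sh D) p ≤ k := fun p hp => (om_sh_le D hp).trans hD.le
  have hsv' := hsv (sh D) hom b (le_max_right _ _)
  have hsv1 := abs_le.1 (hsv' v hv2 x H)
  have hsv2 := abs_le.1 (hsv' w hw2 x H)
  have he1 := herr v w hvw hv2 le_rfl (by omega)
  have he2 := herr w v le_rfl hw2 hvw (by omega)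
  set Gw := ((GG w)⁻¹) ^ k with hGw
  set Gv := ((GG v)⁻¹) ^ k with hGv
  have hGw0 : 0 < Gw := by positivity
  have hGv0 : 0 < Gv := by positivity
  have hVv0 : 0 ≤ VF (sh D) v := VF_nonneg _ _
  have hVw0 : 0 ≤ VF (sh D) w := VF_nonneg _ _
  -- `VF v * Gw ≤ cv / (1 - t)`
  have k1 : VF (sh D) v * Gw ≤ cv / (1 - t) := by
    rw [hVv, hGw, inv_pow, le_div_iff₀ (by linarith)]
    have h1 : cv * GG v ^ k * (GG w ^ k)⁻¹ * (1 - t) = cv * ((1 - t) * GG v ^ k) / GG w ^ k := by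
      field_simp
    rw [h1, div_le_iff₀ (by positivity)]
    exact mul_le_mul_of_nonneg_left hGk hcv0.le
  have k2 : (1 - t) * (1 - t) * cv ≤ VF (sh D) w * Gv := by
    rw [hVw, hGv, inv_pow]
    have h1 : cs D w * GG w ^ k * (GG v ^ k)⁻¹ = cs D w * (GG w ^ k / GG v ^ k) := by
      field_simp
    rw [h1]
    have h2 : 1 - t ≤ GG w ^ k / GG v ^ k := (le_div_iff₀ (by positivity)).2 hGk
    have h3 := (htail w hvw).1
    calc (1 - t) * (1 - t) * cv = ((1 - t) * cv) * (1 - t) := by ring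
      _ ≤ cs D w * (GG w ^ k / GG v ^ k) := mul_le_mul h3 h2 (by linarith) (cs_nonneg D w)
  have hu : N v * Gw ≤ cv * ((1 + t) / (1 - t) + t) * H := by
    have h1 : N v ≤ (1 + t) * (H * VF (sh D) v) + ((v : ℝ) + 3) * K0 * (v : ℝ) ^ (4 * (C0 * b)) := by
      have h2 : (1 / 2 : ℝ) ^ b * (H * VF (sh D) v) ≤ t * (H * VF (sh D) v) :=
        mul_le_mul_of_nonneg_right hbt (mul_nonneg hHpos.le hVv0)
      have := hsv1.2
      simp only [hN]
      linarith
    have h5 : t * c * H ≤ t * cv * H :=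
      mul_le_mul_of_nonneg_right (mul_le_mul_of_nonneg_left hcvc ht0.le) hHpos.le
    calc N v * Gw ≤ ((1 + t) * (H * VF (sh D) v) + ((v : ℝ) + 3) * K0 * (v : ℝ) ^ (4 * (C0 * b))) * Gw :=
          mul_le_mul_of_nonneg_right h1 hGw0.le
      _ = (1 + t) * H * (VF (sh D) v * Gw) + (((v : ℝ) + 3) * K0 * (v : ℝ) ^ (4 * (C0 * b))) * Gw := by ring
      _ ≤ (1 + t) * H * (cv / (1 - t)) + t * cv * H :=
          add_le_add (mul_le_mul_of_nonneg_left k1 (by positivity)) (he1.trans h5)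
      _ = _ := by ring
  have hl : cv * ((1 - t) ^ 3 - t) * H ≤ N w * Gv := by
    have h1 : (1 - t) * (H * VF (sh D) w) - ((w : ℝ) + 3) * K0 * (w : ℝ) ^ (4 * (C0 * b)) ≤ N w := by
      have h2 : (1 / 2 : ℝ) ^ b * (H * VF (sh D) w) ≤ t * (H * VF (sh D) w) :=
        mul_le_mul_of_nonneg_right hbt (mul_nonneg hHpos.le hVw0)
      have := hsv2.1
      simp only [hN]
      linarith
    have h5 : t * c * H ≤ t * cv * H :=
      mul_le_mul_of_nonneg_right (mul_le_mul_of_nonneg_left hcvc ht0.le) hHpos.le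
    have h6 : (1 - t) * H * ((1 - t) * (1 - t) * cv) ≤ (1 - t) * H * (VF (sh D) w * Gv) :=
      mul_le_mul_of_nonneg_left k2 (mul_nonneg (by linarith) hHpos.le)
    calc cv * ((1 - t) ^ 3 - t) * H = (1 - t) * H * ((1 - t) * (1 - t) * cv) - t * cv * H := by ring
      _ ≤ (1 - t) * H * (VF (sh D) w * Gv) - (((w : ℝ) + 3) * K0 * (w : ℝ) ^ (4 * (C0 * b))) * Gv := by linarith
      _ = ((1 - t) * (H * VF (sh D) w) - ((w : ℝ) + 3) * K0 * (w : ℝ) ^ (4 * (C0 * b))) * Gv := by ring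
      _ ≤ N w * Gv := mul_le_mul_of_nonneg_right h1 hGv0.le
  have hQu : S3 * L ^ k / H ≤ cv * ((1 + t) / (1 - t) + t) := by
    rw [div_le_iff₀ hHpos]
    have h1 : S3 * L ^ k ≤ (N v * (Gw / L ^ k)) * L ^ k := mul_le_mul_of_nonneg_right hupS hP.le
    have h2 : (N v * (Gw / L ^ k)) * L ^ k = N v * Gw := by field_simp
    linarith
  have hQl : cv * ((1 - t) ^ 3 - t) / (1 + t) ≤ S3 * L ^ k / H := by
    rw [div_le_div_iff₀ (by linarith) hHpos]
    have h1 : (N w * (Gv / ((1 + t) * L ^ k))) * L ^ k * (1 + t) ≤ S3 * L ^ k * (1 + t) :=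
      mul_le_mul_of_nonneg_right (mul_le_mul_of_nonneg_right hloS hP.le) (by linarith)
    have h2 : (N w * (Gv / ((1 + t) * L ^ k))) * L ^ k * (1 + t) = N w * Gv := by
      have : (1 : ℝ) + t ≠ 0 := by linarith
      field_simp
    linarith
  -- comparison with `S`
  have r1 : cv ≤ S / (1 - t) := by
    rw [le_div_iff₀ (by linarith)]
    linarith
  have r2 : S / (1 + t) ≤ cv := by
    rw [div_le_iff₀ (by linarith)]
    linarith
  have hA1 : S3 * L ^ k / H ≤ (1 + θ) * S := by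
    calc S3 * L ^ k / H ≤ cv * ((1 + t) / (1 - t) + t) := hQu
      _ ≤ (S / (1 - t)) * ((1 + t) / (1 - t) + t) := mul_le_mul_of_nonneg_right r1 (by
          have : 0 < (1 + t) / (1 - t) := div_pos (by linarith) (by linarith)
          linarith)
      _ = (((1 + t) / (1 - t) + t) / (1 - t)) * S := by ring
      _ ≤ _ := mul_le_mul_of_nonneg_right hup.le hS0.le
  have hA2 : (1 - θ) * S ≤ S3 * L ^ k / H := by
    calc (1 - θ) * S ≤ (((1 - t) ^ 3 - t) / (1 + t) ^ 2) * S := mul_le_mul_of_nonneg_right hlo.le hS0.le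
      _ = (S / (1 + t)) * ((1 - t) ^ 3 - t) / (1 + t) := by
          have : (1 : ℝ) + t ≠ 0 := by linarith
          field_simp
      _ ≤ cv * ((1 - t) ^ 3 - t) / (1 + t) :=
          div_le_div_of_nonneg_right (mul_le_mul_of_nonneg_right r2 hpos'.le) (by linarith)
      _ ≤ _ := hQl
  rw [abs_le]
  constructor <;> linarith

end Pool.Agent.N740.HK
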