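import Mathlib
import Pool.Agent.N740.HK.Un3

/-!
# The uniform law for tuples: the models
-/

set_option autoImplicit false
set_option linter.unusedSectionVars false

open MeasureTheory Filter Set Polynomial
open scoped ENNReal Topology

namespace Pool.Agent.N740.HK

open Pool.Agent.R528.RM Pl

lemma om_cover {D : Finset ℕ} {p : ℕ} (hp : p.Prime) (h : ¬ om (sh D) p < p) (n : ℕ) : ∃ b ∈ D, p ∣ n + b := by
  classical
  rw [om_sh] at h
  have h1 : (Finset.range p).filter (fun a => ∃ b ∈ D, p ∣ a + b) = Finset.range p := by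
    refine Finset.eq_of_subset_of_card_le (Finset.filter_subset _ _) ?_
    rw [Finset.card_range]
    omega
  have h2 : n % p ∈ (Finset.range p).filter (fun a => ∃ b ∈ D, p ∣ a + b) := by
    rw [h1]
    exact Finset.mem_range.2 (Nat.mod_lt _ hp.pos)
  obtain ⟨b, hb, h3⟩ := (Finset.mem_filter.1 h2).2
  refine ⟨b, hb, ?_⟩
  rw [Nat.dvd_iff_mod_eq_zero] at h3 ⊢
  rw [Nat.add_mod, Nat.mod_mod, ← Nat.add_mod] at h3
  exact h3

lemma cs_zero {D : Finset ℕ} {p : ℕ} (hp : p.Prime) (h : ¬ om (sh D) p < p) : Tendsto (cs D) atTop (𝓝 0) := by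
  have hp0 : (0 : ℝ) < p := by exact_mod_cast hp.pos
  have h1 : lf D p = 0 := by
    have h2 : om (sh D) p = p := le_antisymm (om_le_p _ p) (not_lt.1 h)
    unfold lf
    rw [h2, div_self hp0.ne', sub_self, zero_div]
  refine tendsto_const_nhds.congr' ?_
  filter_upwards [eventually_ge_atTop p] with y hy
  exact (Finset.prod_eq_zero (Finset.mem_filter.2 ⟨Finset.mem_Icc.2 ⟨hp.pos, hy⟩, hp⟩) h1).symm

variable {Ω : Type} {m0 : MeasurableSpace Ω} {μ : Measure Ω} [IsProbabilityMeasure μ]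
  {ℱ : Filtration ℕ m0} {A : ℕ → Set Ω}

/-- **the uniform law for tuples in windows** -/
theorem un_all (hA : ∀ n, MeasurableSet[ℱ n] (A n)) {z : ℕ → ℕ} (hz : Monotone z) (hzt : Tendsto z atTop atTop)
    {κ : ℕ} (hzκ : ∀ᶠ n : ℕ in atTop, (z n : ℝ) ≤ Real.log n ^ κ)
    (hreg : ∀ m : ℕ, ∃ B : ℕ, ∀ᶠ n : ℕ in atTop, z (n ^ m) ≤ B * z n)
    (hempty : ∀ n, ¬ Free (z n) n → A n = ∅)
    (hd : ∀ᵐ ω ∂μ, Tendsto (fun n : ℕ => dens μ ℱ A n ω * (Real.log n * GG (z (n + 1))))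
      (atTop ⊓ 𝓟 {n : ℕ | Free (z (n + 1)) (n + 1)}) (𝓝 1)) :
    ∀ᵐ ω ∂μ, ∀ k K : ℕ, ∀ θ : ℝ, 0 < θ → ∃ a : ℕ, ∃ δ : ℝ, 0 < δ ∧ δ ≤ 1 ∧ ∀ᶠ x : ℕ in atTop, ∀ H : ℕ,
      Real.log x ^ a ≤ H → (H : ℝ) ≤ (x : ℝ) ^ (1 + δ) →
      ∀ D : Finset ℕ, D.card = k → (∀ d ∈ D, (d : ℝ) ≤ (x : ℝ) ^ (1 + δ)) → (∀ d ∈ D, Real.log d ≤ K * z x) →
      ∀ S : ℝ, Tendsto (cs D) atTop (𝓝 S) →
      |(∑ n ∈ Finset.Ioc x (x + H), ∏ d ∈ D, J1 A (n + d) ω) * Real.log x ^ k / H - S| ≤ θ * S := by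
  classical
  have hd' := rg_hd (μ := μ) (ℱ := ℱ) hempty hd
  filter_upwards [conc_unif (μ := μ) hA (rg_nonneg z) (rg_bdd (μ := μ) hA hd') hd'] with ω hω
  intro k K θ hθ
  obtain ⟨c, hc0, hcl⟩ := cs_lower k
  set t : ℝ := min (θ / 4) 1 with ht
  have ht0 : 0 < t := lt_min (by positivity) one_pos
  have ht1 : t ≤ 1 := min_le_right _ _
  have htθ : t ≤ θ / 4 := min_le_left _ _
  obtain ⟨a0, δ, hδ, hδ1, hdet⟩ := un_det hz hzt hzκ hreg k K t ht0
  obtain ⟨C1, hC1, hconc⟩ := hω k (t / 2) (by positivity)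
  refine ⟨max a0 (k + 2), δ, hδ, hδ1, ?_⟩
  filter_upwards [hdet, hconc, tendsto_logN.eventually_ge_atTop (max 1 (C1 / (t * c))), eventually_ge_atTop 3,
    hzt.eventually_ge_atTop k] with x h1 h2 h3 h4 hzk H hH1 hH2 D hD hDx hDz S hS
  have h4' : (3 : ℝ) ≤ x := by exact_mod_cast h4
  set L := Real.log x with hL
  have hL1 : 1 ≤ L := (le_max_left _ _).trans h3
  have hL2 : C1 / (t * c) ≤ L := (le_max_right _ _).trans h3
  by_cases hadm : ∀ p : ℕ, p.Prime → om (sh D) p < p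
  · have hHa : L ^ a0 ≤ H := (pow_le_pow_right₀ hL1 (le_max_left _ _)).trans hH1
    have hHk : L ^ (k + 2) ≤ H := (pow_le_pow_right₀ hL1 (le_max_right _ _)).trans hH1
    have hHpos : (0 : ℝ) < H := lt_of_lt_of_le (by positivity) hHa
    have hx2 : (x : ℝ) ^ (1 + δ) ≤ (x : ℝ) ^ 2 := by
      have h5 : (x : ℝ) ^ (1 + δ) ≤ (x : ℝ) ^ (2 : ℝ) := Real.rpow_le_rpow_of_exponent_le (by linarith) (by linarith)
      rwa [Real.rpow_two] at h5
    have hHx2 : H ≤ x ^ 2 := by exact_mod_cast hH2.trans hx2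
    have hDx2 : ∀ d ∈ D, d ≤ x ^ 2 := fun d hd => by exact_mod_cast (hDx d hd).trans hx2
    have h5 := h1 H hHa hH2 D hD hDx hDz hadm S hS
    have h6 := h2 H hHx2 D hD hDx2
    have hSc : c ≤ S := ge_of_tendsto' hS fun y => hcl D hD hadm y
    have hS0 : 0 < S := lt_of_lt_of_le hc0 hSc
    set S1 := ∑ n ∈ Finset.Ioc x (x + H), ∏ d ∈ D, J1 A (n + d) ω with hS1
    set S3 := ∑ n ∈ Finset.Ioc x (x + H), ∏ d ∈ D, rg z (n + d - 1) with hS3
    have hPH : 0 < L ^ k / H := by positivity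
    have h7 := abs_le.1 h5
    have h8 : |S1 * L ^ k / H - S3 * L ^ k / H| ≤ t / 2 * (S3 * L ^ k / H) + C1 * L * (L ^ k / H) := by
      have e1 : S1 * L ^ k / H - S3 * L ^ k / H = (S1 - S3) * (L ^ k / H) := by ring
      rw [e1, abs_mul, abs_of_pos hPH]
      calc |S1 - S3| * (L ^ k / H) ≤ (t / 2 * S3 + C1 * L) * (L ^ k / H) := mul_le_mul_of_nonneg_right h6 hPH.le
        _ = _ := by ring
    have htc : 0 < t * c := mul_pos ht0 hc0
    have h9 : C1 * L * (L ^ k / H) ≤ t * S := by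
      have e1 : C1 * L * (L ^ k / H) = C1 * L ^ (k + 1) / H := by
        rw [pow_succ]
        ring
      rw [e1, div_le_iff₀ hHpos]
      rw [div_le_iff₀ htc] at hL2
      calc C1 * L ^ (k + 1) ≤ (L * (t * c)) * L ^ (k + 1) := mul_le_mul_of_nonneg_right hL2 (by positivity)
        _ = t * c * L ^ (k + 2) := by ring
        _ ≤ t * c * H := mul_le_mul_of_nonneg_left hHk htc.le
        _ ≤ t * S * H := mul_le_mul_of_nonneg_right (mul_le_mul_of_nonneg_left hSc ht0.le) hHpos.le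
    have h10 : t / 2 * (S3 * L ^ k / H) ≤ t * S := by
      have h11 : S3 * L ^ k / H ≤ 2 * S := by
        have : t * S ≤ 1 * S := mul_le_mul_of_nonneg_right ht1 hS0.le
        linarith [h7.2]
      calc t / 2 * (S3 * L ^ k / H) ≤ t / 2 * (2 * S) := mul_le_mul_of_nonneg_left h11 (by positivity)
        _ = t * S := by ring
    have h12 := abs_le.1 (h8.trans (add_le_add h10 h9))
    have h13 : 4 * (t * S) ≤ θ * S := by
      have := mul_le_mul_of_nonneg_right htθ hS0.le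
      linarith
    rw [abs_le]
    have htS : 0 < t * S := mul_pos ht0 hS0
    constructor <;> linarith [h7.1, h7.2, h12.1, h12.2]
  · push Not at hadm
    obtain ⟨p, hp, hpp⟩ := hadm
    have hpk : p ≤ k := hpp.trans ((om_sh_le D hp).trans hD.le)
    have hS0 : S = 0 := tendsto_nhds_unique hS (cs_zero hp (not_lt.2 hpp))
    have h0 : ∑ n ∈ Finset.Ioc x (x + H), ∏ d ∈ D, J1 A (n + d) ω = 0 := by
      refine Finset.sum_eq_zero fun n hn => ?_
      have hn' := Finset.mem_Ioc.1 hn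
      obtain ⟨d, hd, hdvd⟩ := om_cover hp (not_lt.2 hpp) n
      refine Finset.prod_eq_zero hd ?_
      have h5 : A (n + d) = ∅ := by
        refine hempty _ fun hf => ?_
        exact hf p hp (hpk.trans (hzk.trans (hz (by omega)))) hdvd
      unfold J1
      rw [h5, Set.indicator_empty]
    rw [h0, hS0]
    simp

/-- **from the windows to the counts up to `x`** -/
theorem un_full {J : ℕ → ℝ} (hJ : ∀ n, 0 ≤ J n ∧ J n ≤ 1) {z : ℕ → ℕ} (hz : Monotone z)
    (hreg : ∀ m : ℕ, ∃ B : ℕ, ∀ᶠ n : ℕ in atTop, z (n ^ m) ≤ B * z n) (k : ℕ)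
    (hwin : ∀ K : ℕ, ∀ θ : ℝ, 0 < θ → ∃ a : ℕ, ∃ δ : ℝ, 0 < δ ∧ δ ≤ 1 ∧ ∀ᶠ x : ℕ in atTop, ∀ H : ℕ,
      Real.log x ^ a ≤ H → (H : ℝ) ≤ (x : ℝ) ^ (1 + δ) →
      ∀ D : Finset ℕ, D.card = k → (∀ d ∈ D, (d : ℝ) ≤ (x : ℝ) ^ (1 + δ)) → (∀ d ∈ D, Real.log d ≤ K * z x) →
      ∀ S : ℝ, Tendsto (cs D) atTop (𝓝 S) →
      |(∑ n ∈ Finset.Ioc x (x + H), ∏ d ∈ D, J (n + d)) * Real.log x ^ k / H - S| ≤ θ * S) :
    ∀ K : ℕ, ∀ θ : ℝ, 0 < θ → ∀ᶠ x : ℕ in atTop, ∀ D : Finset ℕ, D.card = k → (∀ d ∈ D, d ≤ x) →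
      (∀ d ∈ D, Real.log d ≤ K * z x) → ∀ S : ℝ, Tendsto (cs D) atTop (𝓝 S) → S ≠ 0 →
      |(∑ n ∈ Finset.Ioc 0 x, ∏ d ∈ D, J (n + d)) * Real.log x ^ k / x - S| ≤ θ * S := by
  classical
  intro K θ hθ
  obtain ⟨c, hc0, hcl⟩ := cs_lower k
  set t : ℝ := min (θ / 4) (1 / 4) with ht
  have ht0 : 0 < t := lt_min (by positivity) (by norm_num)
  have ht1 : t ≤ 1 / 4 := min_le_right _ _
  have htθ : t ≤ θ / 4 := min_le_left _ _
  obtain ⟨B, hB⟩ := hreg 2
  obtain ⟨a, δ, hδ, hδ1, hw⟩ := hwin (K * B) t ht0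
  obtain ⟨s, hs0, hs1, hs2, hs3⟩ : ∃ s : ℝ, 0 < s ∧ s < 1 / 2 ∧ 1 < (1 + δ) * (1 - s) ∧ 1 < (1 + t) * (1 - s) ^ k := by
    have c1 : Tendsto (fun s : ℝ => (1 + δ) * (1 - s)) (𝓝 0) (𝓝 (1 + δ)) := by
      have : Continuous (fun s : ℝ => (1 + δ) * (1 - s)) := by fun_prop
      simpa using this.tendsto 0
    have c2 : Tendsto (fun s : ℝ => (1 + t) * (1 - s) ^ k) (𝓝 0) (𝓝 (1 + t)) := by
      have : Continuous (fun s : ℝ => (1 + t) * (1 - s) ^ k) := by fun_prop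
      simpa using this.tendsto 0
    have h1 := c1.eventually_const_lt (show 1 < 1 + δ by linarith)
    have h2 := c2.eventually_const_lt (show 1 < 1 + t by linarith)
    have h3 : ∀ᶠ η : ℝ in 𝓝 0, η < 1 / 2 := eventually_lt_nhds (by norm_num)
    have h4 : ∀ᶠ η : ℝ in 𝓝[>] 0, 0 < η := self_mem_nhdsWithin
    obtain ⟨η, ⟨⟨h5, h6⟩, h7⟩, h8⟩ := (((h1.and h2).and h3).filter_mono nhdsWithin_le_nhds |>.and h4).exists
    exact ⟨η, h8, h7, h5, h6⟩
  set X : ℕ → ℕ := fun n => ⌊(n : ℝ) / Real.log n ^ (k + 1)⌋₊ with hX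
  have hXge : ∀ᶠ n : ℕ in atTop, (n : ℝ) ^ (1 - s) ≤ X n := by
    filter_upwards [log_pow_rpow (k + 1) s hs0, eventually_ge_atTop 3] with n h2 h3
    have h3' : (3 : ℝ) ≤ n := by exact_mod_cast h3
    have hL : 0 < Real.log n := Real.log_pos (by linarith)
    have h4 : 1 ≤ (n : ℝ) ^ (1 - s) := Real.one_le_rpow (by linarith) (by linarith)
    have h5 : 2 * (n : ℝ) ^ (1 - s) ≤ n / Real.log n ^ (k + 1) := by
      rw [le_div_iff₀ (by positivity)]
      calc 2 * (n : ℝ) ^ (1 - s) * Real.log n ^ (k + 1) = (n : ℝ) ^ (1 - s) * (2 * Real.log n ^ (k + 1)) := by ring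
        _ ≤ (n : ℝ) ^ (1 - s) * (n : ℝ) ^ s := mul_le_mul_of_nonneg_left h2 (by positivity)
        _ = n := by rw [← Real.rpow_add (by linarith), sub_add_cancel, Real.rpow_one]
    have h7 : (n : ℝ) / Real.log n ^ (k + 1) < (X n : ℝ) + 1 := Nat.lt_floor_add_one _
    linarith
  have hXtop : Tendsto X atTop atTop := by
    rw [← tendsto_natCast_atTop_iff (R := ℝ)]
    refine tendsto_atTop_mono' _ hXge ?_
    exact (tendsto_rpow_atTop (by linarith)).comp tendsto_natCast_atTop_atTop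
  filter_upwards [hXge, hXtop.eventually hw, hXtop.eventually hB, hXtop.eventually_ge_atTop 3,
    tendsto_logN.eventually_ge_atTop (max 1 (max (1 / t) (1 / (t * c)))), log_pow_div a (1 / 2) (by norm_num), eventually_ge_atTop 3]
    with x h1 h2 h3 h4 h5 h6 h7 D hD hDx hDz S hS hS0
  have h7' : (3 : ℝ) ≤ x := by exact_mod_cast h7
  have h4' : (3 : ℝ) ≤ X x := by exact_mod_cast h4
  set L := Real.log x with hL
  have hL1 : 1 ≤ L := (le_max_left _ _).trans h5
  have hL2 : 1 / t ≤ L := ((le_max_left _ _).trans (le_max_right _ _)).trans h5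
  have hL3 : 1 / (t * c) ≤ L := ((le_max_right _ _).trans (le_max_right _ _)).trans h5
  have hadm : ∀ p : ℕ, p.Prime → om (sh D) p < p := by
    intro p hp
    by_contra hcon
    exact hS0 (tendsto_nhds_unique hS (cs_zero hp hcon))
  have hSc : c ≤ S := ge_of_tendsto' hS fun y => hcl D hD hadm y
  have hSp : 0 < S := lt_of_lt_of_le hc0 hSc
  have hXle : (X x : ℝ) ≤ x / L ^ (k + 1) := Nat.floor_le (by positivity)
  have hLk : L ≤ L ^ (k + 1) := by
    have := pow_le_pow_right₀ hL1 (show 1 ≤ k + 1 by omega)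
    rwa [pow_one] at this
  have hXL : (X x : ℝ) ≤ x / L := hXle.trans (div_le_div_of_nonneg_left (by positivity) (by positivity) hLk)
  have hXt : (X x : ℝ) ≤ t * x := by
    refine hXL.trans ?_
    rw [div_le_iff₀ (by linarith)]
    rw [div_le_iff₀ ht0] at hL2
    nlinarith
  have hXx : X x ≤ x := by
    have : (X x : ℝ) ≤ x := by nlinarith
    exact_mod_cast this
  have hH : ((x - X x : ℕ) : ℝ) = x - X x := Nat.cast_sub hXx
  have hH1 : (1 - t) * x ≤ ((x - X x : ℕ) : ℝ) := by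
    rw [hH]
    linarith
  have hHpos : (0 : ℝ) < ((x - X x : ℕ) : ℝ) := lt_of_lt_of_le (mul_pos (by linarith) (by linarith)) hH1
  have hlogX : Real.log (X x) ≤ L := Real.log_le_log (by linarith) (by exact_mod_cast hXx)
  have hlogX2 : (1 - s) * L ≤ Real.log (X x) := by
    rw [← Real.log_rpow (by linarith)]
    exact Real.log_le_log (by positivity) h1
  have hlogXp : 0 < Real.log (X x) := Real.log_pos (by linarith)
  have hxδ : (x : ℝ) ≤ (X x : ℝ) ^ (1 + δ) := by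
    have h8 := Real.rpow_le_rpow (by positivity) h1 (show 0 ≤ 1 + δ by linarith)
    rw [← Real.rpow_mul (by linarith)] at h8
    refine le_trans ?_ h8
    have := Real.rpow_le_rpow_of_exponent_le (show (1 : ℝ) ≤ x by linarith) (show (1 : ℝ) ≤ (1 - s) * (1 + δ) by linarith)
    rwa [Real.rpow_one] at this
  have hx2 : x ≤ X x ^ 2 := by
    have h8 := Real.rpow_le_rpow (by positivity) h1 (show (0 : ℝ) ≤ 2 by norm_num)
    rw [← Real.rpow_mul (by linarith), Real.rpow_two] at h8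
    have h9 := Real.rpow_le_rpow_of_exponent_le (show (1 : ℝ) ≤ x by linarith) (show (1 : ℝ) ≤ (1 - s) * 2 by linarith)
    rw [Real.rpow_one] at h9
    exact_mod_cast h9.trans h8
  have h8 : Real.log (X x) ^ a ≤ ((x - X x : ℕ) : ℝ) := by
    refine le_trans (pow_le_pow_left₀ hlogXp.le hlogX a) (h6.trans ?_)
    refine le_trans ?_ hH1
    nlinarith
  have h9 : ((x - X x : ℕ) : ℝ) ≤ (X x : ℝ) ^ (1 + δ) := by
    rw [hH]
    linarith
  have h10 : ∀ d ∈ D, (d : ℝ) ≤ (X x : ℝ) ^ (1 + δ) := fun d hd =>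
    (show (d : ℝ) ≤ x by exact_mod_cast hDx d hd).trans hxδ
  have h11 : ∀ d ∈ D, Real.log d ≤ ((K * B : ℕ) : ℝ) * z (X x) := by
    intro d hd
    have h12 : z x ≤ B * z (X x) := (hz hx2).trans h3
    have h13 : (z x : ℝ) ≤ B * z (X x) := by exact_mod_cast h12
    calc Real.log d ≤ K * z x := hDz d hd
      _ ≤ K * (B * z (X x)) := mul_le_mul_of_nonneg_left h13 (Nat.cast_nonneg _)
      _ = _ := by push_cast; ring
  have h12 := h2 _ h8 h9 D hD h10 h11 S hS
  have e1 : X x + (x - X x) = x := by omega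
  rw [e1] at h12
  have hsplit : ∑ n ∈ Finset.Ioc 0 x, ∏ d ∈ D, J (n + d) =
      ∑ n ∈ Finset.Ioc 0 (X x), ∏ d ∈ D, J (n + d) + ∑ n ∈ Finset.Ioc (X x) x, ∏ d ∈ D, J (n + d) :=
    (Finset.sum_Ioc_consecutive _ (Nat.zero_le _) hXx).symm
  set W := ∑ n ∈ Finset.Ioc (X x) x, ∏ d ∈ D, J (n + d) with hW
  set T0 := ∑ n ∈ Finset.Ioc 0 (X x), ∏ d ∈ D, J (n + d) with hT0
  have hg : ∀ n, 0 ≤ ∏ d ∈ D, J (n + d) ∧ ∏ d ∈ D, J (n + d) ≤ 1 := fun n =>
    ⟨Finset.prod_nonneg fun d _ => (hJ _).1, Finset.prod_le_one (fun d _ => (hJ _).1) fun d _ => (hJ _).2⟩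
  have hT00 : 0 ≤ T0 := Finset.sum_nonneg fun n _ => (hg n).1
  have hT01 : T0 ≤ X x := by
    calc T0 ≤ ∑ n ∈ Finset.Ioc 0 (X x), (1 : ℝ) := Finset.sum_le_sum fun n _ => (hg n).2
      _ = X x := by simp
  have hW0 : 0 ≤ W := Finset.sum_nonneg fun n _ => (hg n).1
  have hx0 : (0 : ℝ) < x := by linarith
  have p1 : 0 ≤ T0 * L ^ k / x := by positivity
  have p2 : T0 * L ^ k / x ≤ t * S := by
    rw [div_le_iff₀ hx0]
    have htc : 0 < t * c := mul_pos ht0 hc0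
    have h13 : T0 * L ^ k ≤ (x / L ^ (k + 1)) * L ^ k := mul_le_mul_of_nonneg_right (hT01.trans hXle) (by positivity)
    have h14 : (x / L ^ (k + 1)) * L ^ k = x / L := by
      rw [pow_succ]
      field_simp
    rw [h14] at h13
    refine h13.trans ?_
    rw [div_le_iff₀ (by linarith)]
    rw [div_le_iff₀ htc] at hL3
    have h15 : t * c ≤ t * S := mul_le_mul_of_nonneg_left hSc ht0.le
    have h16 : 1 ≤ L * (t * S) := by nlinarith
    nlinarith
  set V := W * Real.log (X x) ^ k / ((x - X x : ℕ) : ℝ) with hV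
  have h13 := abs_le.1 h12
  have hV0 : 0 ≤ V := by positivity
  have hWV : W * L ^ k / x = V * (L ^ k / Real.log (X x) ^ k) * (((x - X x : ℕ) : ℝ) / x) := by
    rw [hV]
    field_simp
  have q1 : 1 ≤ L ^ k / Real.log (X x) ^ k := by
    rw [le_div_iff₀ (by positivity), one_mul]
    exact pow_le_pow_left₀ hlogXp.le hlogX k
  have q2 : L ^ k / Real.log (X x) ^ k ≤ 1 + t := by
    rw [div_le_iff₀ (by positivity)]
    have h14 : ((1 - s) * L) ^ k ≤ Real.log (X x) ^ k := pow_le_pow_left₀ (mul_nonneg (by linarith) (by linarith)) hlogX2 k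
    rw [mul_pow] at h14
    have h15 : L ^ k ≤ (1 + t) * ((1 - s) ^ k * L ^ k) := by
      have : 0 < L ^ k := by positivity
      nlinarith
    exact h15.trans (mul_le_mul_of_nonneg_left h14 (by linarith))
  have q3 : ((x - X x : ℕ) : ℝ) / x ≤ 1 := by
    rw [div_le_one hx0, hH]
    linarith
  have q4 : 1 - t ≤ ((x - X x : ℕ) : ℝ) / x := by
    rw [le_div_iff₀ hx0]
    exact hH1
  have r1 : W * L ^ k / x ≤ (1 + t) * (1 + t) * S := by
    rw [hWV]
    have h14 : V ≤ (1 + t) * S := by linarith [h13.2]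
    calc V * (L ^ k / Real.log (X x) ^ k) * (((x - X x : ℕ) : ℝ) / x) ≤ V * (L ^ k / Real.log (X x) ^ k) * 1 :=
          mul_le_mul_of_nonneg_left q3 (mul_nonneg hV0 (by positivity))
      _ = V * (L ^ k / Real.log (X x) ^ k) := mul_one _
      _ ≤ ((1 + t) * S) * (1 + t) := mul_le_mul h14 q2 (by positivity) (by positivity)
      _ = _ := by ring
  have r2 : (1 - t) * (1 - t) * S ≤ W * L ^ k / x := by
    rw [hWV]
    have h14 : (1 - t) * S ≤ V := by linarith [h13.1]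
    calc (1 - t) * (1 - t) * S = ((1 - t) * S) * 1 * (1 - t) := by ring
      _ ≤ V * (L ^ k / Real.log (X x) ^ k) * (((x - X x : ℕ) : ℝ) / x) := by
          refine mul_le_mul (mul_le_mul h14 q1 zero_le_one hV0) q4 (by linarith) ?_
          exact mul_nonneg hV0 (by positivity)
  rw [hsplit, add_mul, add_div, abs_le]
  have htS : 0 < t * S := mul_pos ht0 hSp
  have htt : t * (t * S) ≤ 1 / 4 * (t * S) := mul_le_mul_of_nonneg_right ht1 htS.le
  have hθS : 4 * (t * S) ≤ θ * S := by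
    have := mul_le_mul_of_nonneg_right htθ hSp.le
    linarith
  have e2 : (1 + t) * (1 + t) * S = S + 2 * (t * S) + t * (t * S) := by ring
  have e3 : (1 - t) * (1 - t) * S = S - 2 * (t * S) + t * (t * S) := by ring
  have htt0 : 0 ≤ t * (t * S) := by positivity
  rw [e2] at r1
  rw [e3] at r2
  constructor <;> linarith

/-- the number of classes -/
lemma om_image (D : Finset ℕ) {p : ℕ} (hp : 0 < p) : om (sh D) p = (D.image (fun d => d % p)).card := by
  classical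
  rw [om_sh]
  refine Finset.card_bij' (fun a _ => (p - a) % p) (fun r _ => (p - r) % p) ?_ ?_ ?_ ?_
  · intro a ha
    obtain ⟨h1, b, hb, h2⟩ := Finset.mem_filter.1 ha
    have h3 := Finset.mem_range.1 h1
    refine Finset.mem_image.2 ⟨b, hb, ?_⟩
    show b % p = (p - a) % p
    have h4 : b + a ≡ (p - a) + a [MOD p] := by
      have e : p - a + a = p := by omega
      rw [e]
      have h5 : p ∣ b + a := by rwa [add_comm]
      exact ((Nat.modEq_zero_iff_dvd.2 h5)).trans (Nat.modEq_zero_iff_dvd.2 dvd_rfl).symm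
    exact Nat.ModEq.add_right_cancel' a h4
  · intro r hr
    obtain ⟨b, hb, rfl⟩ := Finset.mem_image.1 hr
    refine Finset.mem_filter.2 ⟨Finset.mem_range.2 (Nat.mod_lt _ hp), b, hb, ?_⟩
    have h1 := Nat.mod_lt b hp
    have h2 := Nat.div_add_mod b p
    have h3 : p ∣ (p - b % p) + b := by
      refine ⟨b / p + 1, ?_⟩
      have : p * (b / p + 1) = p * (b / p) + p := by ring
      omega
    rw [Nat.dvd_iff_mod_eq_zero] at h3 ⊢
    rw [Nat.add_mod, Nat.mod_mod, ← Nat.add_mod]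
    exact h3
  · intro a ha
    have h3 := Finset.mem_range.1 (Finset.mem_filter.1 ha).1
    show (p - (p - a) % p) % p = a
    rcases Nat.eq_zero_or_pos a with h | h
    · subst h
      simp
    · rw [Nat.mod_eq_of_lt (show p - a < p by omega)]
      rw [Nat.mod_eq_of_lt (show p - (p - a) < p by omega)]
      omega
  · intro r hr
    obtain ⟨b, hb, rfl⟩ := Finset.mem_image.1 hr
    have h1 := Nat.mod_lt b hp
    show (p - (p - b % p) % p) % p = b % p
    rcases Nat.eq_zero_or_pos (b % p) with h | h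
    · rw [h]
      simp
    · rw [Nat.mod_eq_of_lt (show p - b % p < p by omega)]
      rw [Nat.mod_eq_of_lt (show p - (p - b % p) < p by omega)]
      omega

end Pool.Agent.N740.HK
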