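import Mathlib
import Pool.Agent.N740.HK.Conc

/-!
# A square root bound for weighted sums of centred trials
-/

set_option autoImplicit false
set_option linter.unusedSectionVars false

open MeasureTheory Filter Set
open scoped ENNReal Topology

namespace Pool.Agent.N740.HK

open Pool.Agent.R528.RM

variable {Ω : Type} {m0 : MeasurableSpace Ω} {μ : Measure Ω} [IsProbabilityMeasure μ]
  {ℱ : Filtration ℕ m0} {A : ℕ → Set Ω}

/-- the centred trial -/
noncomputable def Yc (μ : Measure Ω) (ℱ : Filtration ℕ m0) (A : ℕ → Set Ω) (t : ℕ) (ω : Ω) : ℝ :=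
  J1 A (t + 1) ω - DD' μ ℱ A t ω

lemma SS_ev (hA : ∀ n, MeasurableSet[ℱ n] (A n)) (η : ℕ → ℝ) (hη : ∀ n, |η n| ≤ 1) (w : ℕ → ℕ → Ω → ℝ) (E : ℕ → ℕ)
    (hw : ∀ n t, StronglyMeasurable[ℱ t] (w n t)) (h01 : ∀ n t ω, 0 ≤ w n t ω ∧ w n t ω ≤ 1) :
    ∀ᵐ ω ∂μ, ∀ᶠ n : ℕ in atTop, SS μ ℱ A (η n) (w n) (E n) ω < 2 * Real.log n := by
  have hs : ∑' n : ℕ, μ {ω | 2 * Real.log n ≤ SS μ ℱ A (η n) (w n) (E n) ω} ≠ ∞ := by
    have h1 : Summable (fun n : ℕ => 1 / (n : ℝ) ^ 2) := Real.summable_one_div_nat_pow.2 (by norm_num)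
    have h2 : Summable (fun n : ℕ => μ.real {ω | 2 * Real.log n ≤ SS μ ℱ A (η n) (w n) (E n) ω}) := by
      refine Summable.of_norm_bounded_eventually_nat h1 ?_
      filter_upwards [eventually_gt_atTop 0] with n hn
      rw [Real.norm_of_nonneg measureReal_nonneg]
      exact tail_one hA (hη n) (hw n) (h01 n) (E n) n hn
    have h3 : ∑' n : ℕ, μ {ω | 2 * Real.log n ≤ SS μ ℱ A (η n) (w n) (E n) ω} =
        ENNReal.ofReal (∑' n : ℕ, μ.real {ω | 2 * Real.log n ≤ SS μ ℱ A (η n) (w n) (E n) ω}) := by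
      rw [ENNReal.ofReal_tsum_of_nonneg (fun _ => measureReal_nonneg) h2]
      congr 1
      funext i
      exact (ofReal_measureReal (measure_ne_top _ _)).symm
    rw [h3]
    exact ENNReal.ofReal_ne_top
  filter_upwards [ae_eventually_notMem hs] with ω hω
  filter_upwards [hω] with n hn
  simpa using hn

/-- **the square root bound** -/
theorem sq_conc (hA : ∀ n, MeasurableSet[ℱ n] (A n)) (w : ℕ → ℕ → Ω → ℝ) (E : ℕ → ℕ) (Q : ℕ → ℝ) (hQ1 : ∀ n, 1 ≤ Q n)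
    (hw : ∀ n t, StronglyMeasurable[ℱ t] (w n t)) (h01 : ∀ n t ω, 0 ≤ w n t ω ∧ w n t ω ≤ 1)
    (hQ : ∀ n ω, ∑ t ∈ Finset.range (E n), w n t ω ≤ Q n) :
    ∀ᵐ ω ∂μ, ∀ᶠ n : ℕ in atTop,
      |∑ t ∈ Finset.range (E n), w n t ω * Yc μ ℱ A t ω| ≤ 3 * √(Q n * Real.log n) + 3 * Real.log n := by
  set θ : ℕ → ℝ := fun n => min 1 (√(Real.log n / Q n)) with hθ
  have hθ0 : ∀ n, 0 ≤ θ n := fun n => le_min zero_le_one (Real.sqrt_nonneg _)
  have hθ1 : ∀ n, |θ n| ≤ 1 := fun n => by rw [abs_of_nonneg (hθ0 n)]; exact min_le_left _ _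
  have hθ1' : ∀ n, |-θ n| ≤ 1 := fun n => by rw [abs_neg]; exact hθ1 n
  filter_upwards [SS_ev (μ := μ) hA θ hθ1 w E hw h01, SS_ev (μ := μ) hA (fun n => -θ n) hθ1' w E hw h01] with ω h1 h2
  filter_upwards [h1, h2, eventually_ge_atTop 3] with n h4 h5 hn3
  have hn3' : (3 : ℝ) ≤ n := by exact_mod_cast hn3
  have hL : 0 < Real.log n := Real.log_pos (by linarith)
  set L := Real.log (n : ℝ) with hLd
  have hQ0 : 0 < Q n := lt_of_lt_of_le one_pos (hQ1 n)
  set V : ℝ := ∑ t ∈ Finset.range (E n), w n t ω * DD' μ ℱ A t ω with hV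
  set M : ℝ := ∑ t ∈ Finset.range (E n), w n t ω * Yc μ ℱ A t ω with hM
  have hV0 : 0 ≤ V := Finset.sum_nonneg fun t _ => mul_nonneg (h01 n t ω).1 (DD'_bd t ω).1
  have hVQ : V ≤ Q n := by
    refine le_trans (Finset.sum_le_sum fun t _ => ?_) (hQ n ω)
    exact mul_le_of_le_one_right (h01 n t ω).1 (DD'_bd t ω).2
  have e1 : ∀ η : ℝ, SS μ ℱ A η (w n) (E n) ω = η * M - (Real.exp η - 1 - η) * V := by
    intro η
    unfold SS Yc at *
    rw [Finset.sum_sub_distrib, ← Finset.mul_sum, ← Finset.mul_sum, hM, hV]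
  rw [e1] at h4 h5
  obtain ⟨f1, f2⟩ := phi_facts (hθ1 n)
  obtain ⟨f3, f4⟩ := phi_facts (hθ1' n)
  have g1 : (Real.exp (θ n) - 1 - θ n) * V ≤ θ n ^ 2 * Q n := mul_le_mul f2 hVQ hV0 (sq_nonneg _)
  have g2 : (Real.exp (-θ n) - 1 - -θ n) * V ≤ θ n ^ 2 * Q n := by
    rw [neg_sq] at f4
    exact mul_le_mul f4 hVQ hV0 (sq_nonneg _)
  have hθp : 0 < θ n := lt_min one_pos (Real.sqrt_pos.2 (div_pos hL hQ0))
  have habs : θ n * |M| ≤ 2 * L + θ n ^ 2 * Q n := by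
    rcases abs_cases M with ⟨h, _⟩ | ⟨h, _⟩ <;> rw [h] <;> nlinarith
  rcases le_total L (Q n) with hc | hc
  · have hθe : θ n = √(L / Q n) := by
      simp only [hθ]
      apply min_eq_right
      rw [Real.sqrt_le_iff, one_pow]
      exact ⟨zero_le_one, (div_le_one hQ0).2 hc⟩
    set q := √(Q n * L) with hq
    have hq0 : 0 < q := Real.sqrt_pos.2 (mul_pos hQ0 hL)
    have e2 : θ n * q = L := by
      rw [hθe, hq, ← Real.sqrt_mul (by positivity)]
      have : L / Q n * (Q n * L) = L ^ 2 := by field_simp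
      rw [this, Real.sqrt_sq hL.le]
    have e3 : θ n ^ 2 * Q n = L := by
      rw [hθe, Real.sq_sqrt (by positivity)]
      field_simp
    rw [e3] at habs
    have h6 : θ n * |M| ≤ θ n * (3 * q) := by linarith
    have h7 := le_of_mul_le_mul_left h6 hθp
    linarith
  · have hθe : θ n = 1 := by
      simp only [hθ]
      apply min_eq_left
      rw [Real.one_le_sqrt]
      exact (one_le_div hQ0).2 hc
    rw [hθe] at habs
    have := Real.sqrt_nonneg (Q n * L)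
    linarith

end Pool.Agent.N740.HK
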