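import Mathlib

/-!
# Expanding the second moment over windows
-/

set_option autoImplicit false
set_option linter.unusedSectionVars false

open Filter Set
open scoped Topology

namespace Pool.Agent.N740.HK.Vr

/-- the indicator of the window -/
noncomputable def I (H x t : ℕ) : ℝ := if x ≤ t ∧ t < x + H then 1 else 0

/-- the number of windows containing `s` and `t` -/
noncomputable def cc (X H s t : ℕ) : ℝ := ∑ x ∈ Finset.Icc 2 X, I H x s * I H x t

lemma I_nonneg (H x t : ℕ) : 0 ≤ I H x t := by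
  unfold I
  split_ifs <;> norm_num

lemma I_le (H x t : ℕ) : I H x t ≤ 1 := by
  unfold I
  split_ifs <;> norm_num

lemma I_sq (H x t : ℕ) : I H x t * I H x t = I H x t := by
  unfold I
  split_ifs <;> norm_num

lemma cc_nonneg (X H s t : ℕ) : 0 ≤ cc X H s t :=
  Finset.sum_nonneg fun x _ => mul_nonneg (I_nonneg _ _ _) (I_nonneg _ _ _)

lemma I_sum_x (X H t : ℕ) : ∑ x ∈ Finset.Icc 2 X, I H x t ≤ H := by
  unfold I
  rw [← Finset.sum_filter, Finset.sum_const, nsmul_eq_mul, mul_one]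
  have h : (Finset.filter (fun x => x ≤ t ∧ t < x + H) (Finset.Icc 2 X)) ⊆ Finset.Ico (t + 1 - H) (t + 1) := by
    intro x hx
    have := (Finset.mem_filter.1 hx).2
    rw [Finset.mem_Ico]
    omega
  have h2 := Finset.card_le_card h
  rw [Nat.card_Ico] at h2
  have h3 : t + 1 - (t + 1 - H) ≤ H := by omega
  exact_mod_cast h2.trans h3

lemma I_sum_t (T H x : ℕ) : ∑ t ∈ Finset.range T, I H x t ≤ H := by
  unfold I
  rw [← Finset.sum_filter, Finset.sum_const, nsmul_eq_mul, mul_one]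
  have h : (Finset.filter (fun t => x ≤ t ∧ t < x + H) (Finset.range T)) ⊆ Finset.Ico x (x + H) := by
    intro t ht
    rw [Finset.mem_Ico]
    exact (Finset.mem_filter.1 ht).2
  have h2 := Finset.card_le_card h
  rw [Nat.card_Ico, Nat.add_sub_cancel_left] at h2
  exact_mod_cast h2

lemma cc_le_sum (X H s t : ℕ) : cc X H s t ≤ ∑ x ∈ Finset.Icc 2 X, I H x t :=
  Finset.sum_le_sum fun x _ => mul_le_of_le_one_left (I_nonneg _ _ _) (I_le _ _ _)

lemma cc_le (X H s t : ℕ) : cc X H s t ≤ H := (cc_le_sum X H s t).trans (I_sum_x X H t)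

lemma cc_diag (X H t : ℕ) : cc X H t t = ∑ x ∈ Finset.Icc 2 X, I H x t := by
  unfold cc
  exact Finset.sum_congr rfl fun x _ => I_sq _ _ _

lemma cc_sum (X H t : ℕ) : ∑ s ∈ Finset.range t, cc X H s t ≤ (H : ℝ) * H := by
  unfold cc
  rw [Finset.sum_comm]
  calc ∑ x ∈ Finset.Icc 2 X, ∑ s ∈ Finset.range t, I H x s * I H x t
      = ∑ x ∈ Finset.Icc 2 X, (∑ s ∈ Finset.range t, I H x s) * I H x t := by simp_rw [Finset.sum_mul]
    _ ≤ ∑ x ∈ Finset.Icc 2 X, (H : ℝ) * I H x t :=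
        Finset.sum_le_sum fun x _ => mul_le_mul_of_nonneg_right (I_sum_t t H x) (I_nonneg _ _ _)
    _ = (H : ℝ) * ∑ x ∈ Finset.Icc 2 X, I H x t := by rw [Finset.mul_sum]
    _ ≤ _ := mul_le_mul_of_nonneg_left (I_sum_x X H t) (Nat.cast_nonneg _)

lemma I_win {X H x : ℕ} (hx : x ∈ Finset.Icc 2 X) (u : ℕ → ℝ) :
    ∑ t ∈ Finset.range (X + H), I H x t * u t = ∑ t ∈ Finset.Ico x (x + H), u t := by
  have hx' := Finset.mem_Icc.1 hx
  unfold I
  simp only [ite_mul, one_mul, zero_mul]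
  rw [← Finset.sum_filter]
  refine Finset.sum_congr ?_ fun _ _ => rfl
  ext t
  rw [Finset.mem_filter, Finset.mem_range, Finset.mem_Ico]
  omega

lemma sq_sum (a : ℕ → ℝ) (E : ℕ) :
    (∑ t ∈ Finset.range E, a t) ^ 2 = ∑ t ∈ Finset.range E, a t ^ 2 + 2 * ∑ t ∈ Finset.range E, a t * ∑ s ∈ Finset.range t, a s := by
  induction E with
  | zero => simp
  | succ E ih =>
    rw [Finset.sum_range_succ, Finset.sum_range_succ, Finset.sum_range_succ, add_sq, ih]
    ring

lemma expand (X H : ℕ) (u : ℕ → ℝ) :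
    ∑ x ∈ Finset.Icc 2 X, (∑ t ∈ Finset.Ico x (x + H), u t) ^ 2 =
      ∑ t ∈ Finset.range (X + H), cc X H t t * u t ^ 2 +
      2 * ∑ t ∈ Finset.range (X + H), u t * ∑ s ∈ Finset.range t, cc X H s t * u s := by
  have h1 : ∀ x ∈ Finset.Icc 2 X, (∑ t ∈ Finset.Ico x (x + H), u t) ^ 2 =
      ∑ t ∈ Finset.range (X + H), I H x t * u t ^ 2 +
      2 * ∑ t ∈ Finset.range (X + H), u t * ∑ s ∈ Finset.range t, I H x s * I H x t * u s := by
    intro x hx
    rw [← I_win hx, sq_sum]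
    congr 1
    · refine Finset.sum_congr rfl fun t _ => ?_
      rw [mul_pow, sq (I H x t), I_sq]
    · congr 1
      refine Finset.sum_congr rfl fun t _ => ?_
      rw [Finset.mul_sum, Finset.mul_sum]
      refine Finset.sum_congr rfl fun s _ => by ring
  rw [Finset.sum_congr rfl h1, Finset.sum_add_distrib, ← Finset.mul_sum]
  congr 1
  · rw [Finset.sum_comm]
    refine Finset.sum_congr rfl fun t _ => ?_
    rw [cc_diag, Finset.sum_mul]
  · congr 1
    rw [Finset.sum_comm]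
    refine Finset.sum_congr rfl fun t _ => ?_
    rw [← Finset.mul_sum]
    congr 1
    rw [Finset.sum_comm]
    refine Finset.sum_congr rfl fun s _ => ?_
    unfold cc
    rw [Finset.sum_mul]

lemma cc_total {X : ℕ} (H : ℕ) (hX : 1 ≤ X) : ∑ t ∈ Finset.range (X + H), cc X H t t = ((X : ℝ) - 1) * H := by
  simp_rw [cc_diag]
  rw [Finset.sum_comm]
  have h1 : ∀ x ∈ Finset.Icc 2 X, ∑ t ∈ Finset.range (X + H), I H x t = (H : ℝ) := by
    intro x hx
    have := I_win (H := H) hx (fun _ => 1)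
    simp only [mul_one] at this
    rw [this, Finset.sum_const, nsmul_eq_mul, mul_one, Nat.card_Ico, Nat.add_sub_cancel_left]
  rw [Finset.sum_congr rfl h1, Finset.sum_const, nsmul_eq_mul, Nat.card_Icc]
  congr 1
  have : X + 1 - 2 = X - 1 := by omega
  rw [this, Nat.cast_sub hX, Nat.cast_one]

end Pool.Agent.N740.HK.Vr
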