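import Mathlib
import Pool.Agent.N740.HK.Vr1
import Pool.Agent.N740.HK.Vr2

/-!
# The cross term
-/

set_option autoImplicit false
set_option linter.unusedSectionVars false

open MeasureTheory Filter Set
open scoped ENNReal Topology

namespace Pool.Agent.N740.HK.Vr

open Pool.Agent.R528.RM

variable {Ω : Type} {m0 : MeasurableSpace Ω} {μ : Measure Ω} [IsProbabilityMeasure μ]
  {ℱ : Filtration ℕ m0} {A : ℕ → Set Ω}

/-- the maximal logarithm -/
noncomputable def Lg (X : ℕ) : ℝ := Real.log ((2 * X + 1 : ℕ) : ℝ)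

/-- the logarithm of `t + 1` -/
noncomputable def lg (t : ℕ) : ℝ := Real.log ((t + 1 : ℕ) : ℝ)

/-- the inner sum -/
noncomputable def Z (μ : Measure Ω) (ℱ : Filtration ℕ m0) (A : ℕ → Set Ω) (X H t : ℕ) (ω : Ω) : ℝ :=
  ∑ s ∈ Finset.range t, cc X H s t * (lg s * Yc μ ℱ A s ω)

/-- normalised logarithm -/
noncomputable def mn (X t : ℕ) : ℝ := min 1 (lg t / Lg X)

lemma lg_nonneg (t : ℕ) : 0 ≤ lg t := Real.log_natCast_nonneg _

lemma Lg_nonneg (X : ℕ) : 0 ≤ Lg X := Real.log_natCast_nonneg _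

lemma mn_nonneg (X t : ℕ) : 0 ≤ mn X t := le_min zero_le_one (div_nonneg (lg_nonneg t) (Lg_nonneg X))

lemma mn_le (X t : ℕ) : mn X t ≤ 1 := min_le_left _ _

lemma Lg_pos {X : ℕ} (hX : 1 ≤ X) : 0 < Lg X := by
  unfold Lg
  apply Real.log_pos
  have : 1 < 2 * X + 1 := by omega
  exact_mod_cast this

lemma lg_eq {X t : ℕ} (hX : 1 ≤ X) (ht : t ≤ 2 * X) : lg t = Lg X * mn X t := by
  have h1 : lg t ≤ Lg X := by
    unfold lg Lg
    apply Real.log_le_log
    · positivity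
    · have : t + 1 ≤ 2 * X + 1 := by omega
      exact_mod_cast this
  have h2 := Lg_pos hX
  unfold mn
  rw [min_eq_right ((div_le_one h2).2 h1)]
  field_simp

lemma pair_log {X H t : ℕ} (hX : 10 ≤ X) (hH : H ≤ X) (ht : t ≤ 2 * X) :
    Real.log ((Nat.pair X (Nat.pair H t) : ℕ) : ℝ) ≤ 6 * Real.log X ∧ Real.log ((Nat.pair X H : ℕ) : ℝ) ≤ 6 * Real.log X := by
  have hX' : (10 : ℝ) ≤ X := by exact_mod_cast hX
  have key : ∀ m : ℕ, 0 < m → m ≤ X ^ 6 → Real.log (m : ℝ) ≤ 6 * Real.log X := by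
    intro m hm h
    have h1 : Real.log (m : ℝ) ≤ Real.log ((X : ℝ) ^ 6) := by
      apply Real.log_le_log
      · exact_mod_cast hm
      · exact_mod_cast h
    rw [Real.log_pow] at h1
    exact_mod_cast h1
  have h1 : Nat.pair H t < (2 * X + 1) ^ 2 := by
    refine (Nat.pair_lt_max_add_one_sq H t).trans_le (Nat.pow_le_pow_left ?_ 2)
    have : max H t ≤ 2 * X := max_le (by omega) ht
    omega
  have h3 : (2 * X + 1) ^ 2 ≤ X ^ 2 * 5 := by nlinarith
  have h4 : Nat.pair X (Nat.pair H t) < (X ^ 2 * 5 + 1) ^ 2 := by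
    refine (Nat.pair_lt_max_add_one_sq _ _).trans_le (Nat.pow_le_pow_left ?_ 2)
    have : max X (Nat.pair H t) ≤ X ^ 2 * 5 := max_le (by nlinarith) (by omega)
    omega
  have h5 : (X ^ 2 * 5 + 1) ^ 2 ≤ X ^ 6 := by
    have h6 : X ^ 2 * 5 + 1 ≤ X ^ 3 := by
      have : X ^ 3 = X ^ 2 * X := by ring
      rw [this]
      nlinarith [sq_nonneg X]
    calc (X ^ 2 * 5 + 1) ^ 2 ≤ (X ^ 3) ^ 2 := Nat.pow_le_pow_left h6 2
      _ = X ^ 6 := by ring
  have h6 : Nat.pair X H < (X + 1) ^ 2 := by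
    refine (Nat.pair_lt_max_add_one_sq _ _).trans_le (Nat.pow_le_pow_left ?_ 2)
    have : max X H ≤ X := max_le le_rfl hH
    omega
  have h7 : (X + 1) ^ 2 ≤ (X ^ 2 * 5 + 1) ^ 2 := Nat.pow_le_pow_left (by nlinarith) 2
  refine ⟨key _ ?_ (by omega), key _ ?_ (by omega)⟩
  · have := Nat.left_le_pair X (Nat.pair H t)
    omega
  · have := Nat.left_le_pair X H
    omega

lemma Yc_meas (hA : ∀ n, MeasurableSet[ℱ n] (A n)) {s t : ℕ} (h : s < t) : StronglyMeasurable[ℱ t] (Yc μ ℱ A s) := by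
  have h2 : StronglyMeasurable[ℱ t] (J1 A (s + 1)) := (J1_meas hA (s + 1)).mono (ℱ.mono h)
  have h3 : StronglyMeasurable[ℱ t] (DD' μ ℱ A s) := (DD'_meas s).mono (ℱ.mono h.le)
  exact h2.sub h3

lemma Z_meas (hA : ∀ n, MeasurableSet[ℱ n] (A n)) (X H t : ℕ) : StronglyMeasurable[ℱ t] (Z μ ℱ A X H t) := by
  have e : Z μ ℱ A X H t = fun ω => ∑ s ∈ Finset.range t, cc X H s t * (lg s * Yc μ ℱ A s ω) := rfl
  rw [e]
  refine Finset.stronglyMeasurable_fun_sum _ fun s hs => ?_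
  exact ((Yc_meas hA (Finset.mem_range.1 hs)).const_mul (lg s)).const_mul (cc X H s t)

/-- the bound for the inner sum -/
noncomputable def BB (X H : ℕ) : ℝ := H * Lg X * (3 * √(H * (6 * Real.log X)) + 18 * Real.log X)

lemma BB_pos {X H : ℕ} (hX : 10 ≤ X) (hH : 1 ≤ H) : 0 < BB X H := by
  have hX' : (10 : ℝ) ≤ X := by exact_mod_cast hX
  have hH' : (1 : ℝ) ≤ H := by exact_mod_cast hH
  have h1 := Lg_pos (X := X) (by omega)
  have h2 : 0 < Real.log (X : ℝ) := Real.log_pos (by linarith)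
  unfold BB
  positivity

theorem Z_bd (hA : ∀ n, MeasurableSet[ℱ n] (A n)) :
    ∀ᵐ ω ∂μ, ∀ᶠ X : ℕ in atTop, ∀ H : ℕ, 1 ≤ H → H ≤ X → ∀ t : ℕ, t ≤ 2 * X → |Z μ ℱ A X H t ω| ≤ BB X H := by
  set w : ℕ → ℕ → Ω → ℝ := fun n s _ => cc (Nat.unpair n).1 (Nat.unpair (Nat.unpair n).2).1 s (Nat.unpair (Nat.unpair n).2).2 *
    mn (Nat.unpair n).1 s / max 1 (((Nat.unpair (Nat.unpair n).2).1 : ℕ) : ℝ) with hw
  have hmx : ∀ H : ℕ, 0 < max (1 : ℝ) (H : ℝ) := fun H => lt_of_lt_of_le one_pos (le_max_left _ _)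
  have h01 : ∀ n t ω, 0 ≤ w n t ω ∧ w n t ω ≤ 1 := by
    intro n t ω
    simp only [hw]
    have h1 := hmx (Nat.unpair (Nat.unpair n).2).1
    refine ⟨div_nonneg (mul_nonneg (cc_nonneg _ _ _ _) (mn_nonneg _ _)) h1.le, ?_⟩
    rw [div_le_one h1]
    exact (mul_le_of_le_one_right (cc_nonneg _ _ _ _) (mn_le _ _)).trans ((cc_le _ _ _ _).trans (le_max_right _ _))
  have hQ : ∀ n (ω : Ω), ∑ t ∈ Finset.range (Nat.unpair (Nat.unpair n).2).2, w n t ω ≤ max 1 (((Nat.unpair (Nat.unpair n).2).1 : ℕ) : ℝ) := by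
    intro n ω
    simp only [hw]
    set H := (Nat.unpair (Nat.unpair n).2).1
    set t := (Nat.unpair (Nat.unpair n).2).2
    have h1 := hmx H
    rw [← Finset.sum_div, div_le_iff₀ h1]
    calc ∑ i ∈ Finset.range t, cc (Nat.unpair n).1 H i t * mn (Nat.unpair n).1 i
        ≤ ∑ i ∈ Finset.range t, cc (Nat.unpair n).1 H i t :=
          Finset.sum_le_sum fun i _ => mul_le_of_le_one_right (cc_nonneg _ _ _ _) (mn_le _ _)
      _ ≤ (H : ℝ) * H := cc_sum _ _ _
      _ ≤ _ := mul_le_mul (le_max_right _ _) (le_max_right _ _) (Nat.cast_nonneg _) h1.le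
  filter_upwards [sq_conc (μ := μ) hA w (fun n => (Nat.unpair (Nat.unpair n).2).2)
    (fun n => max 1 (((Nat.unpair (Nat.unpair n).2).1 : ℕ) : ℝ)) (fun n => le_max_left _ _)
    (fun n t => stronglyMeasurable_const) h01 hQ] with ω hω
  obtain ⟨n₀, hn₀⟩ := eventually_atTop.1 hω
  filter_upwards [eventually_ge_atTop (max n₀ 10)] with X hX H hH1 hH t ht
  have hX1 : n₀ ≤ X := (le_max_left _ _).trans hX
  have hX2 : 10 ≤ X := (le_max_right _ _).trans hX
  have h1 := hn₀ (Nat.pair X (Nat.pair H t)) (hX1.trans (Nat.left_le_pair _ _))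
  simp only [hw, Nat.unpair_pair] at h1
  have hH' : (1 : ℝ) ≤ H := by exact_mod_cast hH1
  have hH0 : (0 : ℝ) < H := by linarith
  rw [max_eq_right hH'] at h1
  obtain ⟨p1, p2⟩ := pair_log hX2 hH ht
  have hl0 : 0 ≤ Real.log ((Nat.pair X (Nat.pair H t) : ℕ) : ℝ) := Real.log_natCast_nonneg _
  have hLg := Lg_pos (X := X) (by omega)
  have e1 : Z μ ℱ A X H t ω = H * Lg X * ∑ s ∈ Finset.range t, cc X H s t * mn X s / (H : ℝ) * Yc μ ℱ A s ω := by
    unfold Z
    rw [Finset.mul_sum]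
    refine Finset.sum_congr rfl fun s hs => ?_
    have := Finset.mem_range.1 hs
    rw [lg_eq (X := X) (by omega) (by omega : s ≤ 2 * X)]
    field_simp
  rw [e1, abs_mul, abs_of_nonneg (by positivity)]
  unfold BB
  apply mul_le_mul_of_nonneg_left _ (by positivity)
  refine h1.trans ?_
  have h2 : √((H : ℝ) * Real.log ((Nat.pair X (Nat.pair H t) : ℕ) : ℝ)) ≤ √(H * (6 * Real.log X)) :=
    Real.sqrt_le_sqrt (mul_le_mul_of_nonneg_left p1 hH0.le)
  linarith

/-- the clipped value -/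
noncomputable def clip (x : ℝ) : ℝ := max (-1) (min 1 x)

lemma clip_bd (x : ℝ) : -1 ≤ clip x ∧ clip x ≤ 1 :=
  ⟨le_max_left _ _, max_le (by norm_num) (min_le_left _ _)⟩

lemma clip_eq {x : ℝ} (h : |x| ≤ 1) : clip x = x := by
  have := abs_le.1 h
  unfold clip
  rw [min_eq_right this.2, max_eq_right this.1]

lemma clip_cont : Continuous clip := continuous_const.max (continuous_const.min continuous_id)

theorem cross_bd (hA : ∀ n, MeasurableSet[ℱ n] (A n)) :
    ∀ᵐ ω ∂μ, ∀ᶠ X : ℕ in atTop, ∀ H : ℕ, 1 ≤ H → H ≤ X →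
      |∑ t ∈ Finset.range (X + H), (lg t * Yc μ ℱ A t ω) * Z μ ℱ A X H t ω| ≤
        Lg X * BB X H * (2 * (3 * √(2 * X * (6 * Real.log X)) + 18 * Real.log X)) := by
  have main : ∀ σ : ℝ, |σ| ≤ 1 → ∀ᵐ ω ∂μ, ∀ᶠ X : ℕ in atTop, ∀ H : ℕ, 1 ≤ H → H ≤ X →
      |∑ t ∈ Finset.range (X + H), (mn X t * ((1 + σ * clip (Z μ ℱ A X H t ω / BB X H)) / 2)) * Yc μ ℱ A t ω| ≤
        3 * √(2 * X * (6 * Real.log X)) + 18 * Real.log X := by
    intro σ hσ
    have hσ' := abs_le.1 hσ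
    set w : ℕ → ℕ → Ω → ℝ := fun n t ω => mn (Nat.unpair n).1 t *
      ((1 + σ * clip (Z μ ℱ A (Nat.unpair n).1 (Nat.unpair n).2 t ω / BB (Nat.unpair n).1 (Nat.unpair n).2)) / 2) with hw
    have hb : ∀ x : ℝ, 0 ≤ (1 + σ * clip x) / 2 ∧ (1 + σ * clip x) / 2 ≤ 1 := by
      intro x
      have h1 : |σ * clip x| ≤ 1 := by
        rw [abs_mul]
        exact mul_le_one₀ hσ (abs_nonneg _) (abs_le.2 (clip_bd x))
      have h2 := abs_le.1 h1
      constructor <;> linarith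
    have h01 : ∀ n t ω, 0 ≤ w n t ω ∧ w n t ω ≤ 1 := by
      intro n t ω
      simp only [hw]
      obtain ⟨b1, b2⟩ := hb (Z μ ℱ A (Nat.unpair n).1 (Nat.unpair n).2 t ω / BB (Nat.unpair n).1 (Nat.unpair n).2)
      exact ⟨mul_nonneg (mn_nonneg _ _) b1, mul_le_one₀ (mn_le _ _) b1 b2⟩
    have hm : ∀ n t, StronglyMeasurable[ℱ t] (w n t) := by
      intro n t
      have h1 := Z_meas (μ := μ) hA (Nat.unpair n).1 (Nat.unpair n).2 t
      have h2 : StronglyMeasurable[ℱ t] (fun ω => clip (Z μ ℱ A (Nat.unpair n).1 (Nat.unpair n).2 t ω * (BB (Nat.unpair n).1 (Nat.unpair n).2)⁻¹)) :=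
        clip_cont.comp_stronglyMeasurable (h1.mul_const _)
      have h3 : StronglyMeasurable[ℱ t] (fun ω => mn (Nat.unpair n).1 t *
          ((1 + σ * clip (Z μ ℱ A (Nat.unpair n).1 (Nat.unpair n).2 t ω * (BB (Nat.unpair n).1 (Nat.unpair n).2)⁻¹)) * (2 : ℝ)⁻¹)) :=
        (((@stronglyMeasurable_const _ _ (ℱ t) _ (1 : ℝ)).add (h2.const_mul σ)).mul_const _).const_mul _
      simpa only [hw, div_eq_mul_inv] using h3
    have hQ : ∀ n (ω : Ω), ∑ t ∈ Finset.range ((Nat.unpair n).1 + (Nat.unpair n).2), w n t ω ≤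
        max 1 ((((Nat.unpair n).1 + (Nat.unpair n).2 : ℕ)) : ℝ) := by
      intro n ω
      refine le_trans (Finset.sum_le_sum fun t _ => (h01 n t ω).2) ?_
      rw [Finset.sum_const, Finset.card_range, nsmul_eq_mul, mul_one]
      exact le_max_right _ _
    filter_upwards [sq_conc (μ := μ) hA w (fun n => (Nat.unpair n).1 + (Nat.unpair n).2)
      (fun n => max 1 ((((Nat.unpair n).1 + (Nat.unpair n).2 : ℕ)) : ℝ)) (fun n => le_max_left _ _) hm h01 hQ] with ω hω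
    obtain ⟨n₀, hn₀⟩ := eventually_atTop.1 hω
    filter_upwards [eventually_ge_atTop (max n₀ 10)] with X hX H hH1 hH
    have hX1 : n₀ ≤ X := (le_max_left _ _).trans hX
    have hX2 : 10 ≤ X := (le_max_right _ _).trans hX
    have h1 := hn₀ (Nat.pair X H) (hX1.trans (Nat.left_le_pair _ _))
    simp only [hw, Nat.unpair_pair] at h1
    refine h1.trans ?_
    obtain ⟨p1, p2⟩ := pair_log (t := 0) hX2 hH (by omega)
    have hl0 : 0 ≤ Real.log ((Nat.pair X H : ℕ) : ℝ) := Real.log_natCast_nonneg _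
    have hE : max (1 : ℝ) ((X + H : ℕ) : ℝ) ≤ 2 * X := by
      apply max_le
      · have : (10 : ℝ) ≤ X := by exact_mod_cast hX2
        linarith
      · have : (H : ℝ) ≤ X := by exact_mod_cast hH
        push_cast
        linarith
    have h2 : √(max (1 : ℝ) ((X + H : ℕ) : ℝ) * Real.log ((Nat.pair X H : ℕ) : ℝ)) ≤ √(2 * X * (6 * Real.log X)) :=
      Real.sqrt_le_sqrt (mul_le_mul hE p2 hl0 (by positivity))
    linarith
  filter_upwards [main 1 (by norm_num), main (-1) (by norm_num), Z_bd (μ := μ) hA] with ω h1 h2 h3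
  filter_upwards [h1, h2, h3, eventually_ge_atTop 10] with X g1 g2 g3 hX H hH1 hH
  have k1 := g1 H hH1 hH
  have k2 := g2 H hH1 hH
  have hB := BB_pos hX hH1
  have hLg := Lg_pos (X := X) (by omega)
  have e1 : ∑ t ∈ Finset.range (X + H), (lg t * Yc μ ℱ A t ω) * Z μ ℱ A X H t ω =
      Lg X * BB X H * (∑ t ∈ Finset.range (X + H), (mn X t * ((1 + 1 * clip (Z μ ℱ A X H t ω / BB X H)) / 2)) * Yc μ ℱ A t ω -
        ∑ t ∈ Finset.range (X + H), (mn X t * ((1 + (-1) * clip (Z μ ℱ A X H t ω / BB X H)) / 2)) * Yc μ ℱ A t ω) := by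
    rw [← Finset.sum_sub_distrib, Finset.mul_sum]
    refine Finset.sum_congr rfl fun t ht => ?_
    have ht := Finset.mem_range.1 ht
    have hz := g3 H hH1 hH t (by omega)
    have hc : clip (Z μ ℱ A X H t ω / BB X H) = Z μ ℱ A X H t ω / BB X H := by
      apply clip_eq
      rw [abs_div, abs_of_pos hB]
      exact (div_le_one hB).2 hz
    rw [hc, lg_eq (X := X) (by omega) (by omega : t ≤ 2 * X)]
    field_simp
    ring
  rw [e1, abs_mul, abs_of_nonneg (by positivity)]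
  apply mul_le_mul_of_nonneg_left _ (by positivity)
  exact (abs_sub _ _).trans (by linarith)

/-- the numerical estimate -/
lemma cross_num {ε : ℝ} (hε : 0 < ε) : ∀ᶠ X : ℕ in atTop, ∀ H : ℕ, 1 ≤ H → (H : ℝ) * Real.log X ^ 5 ≤ X →
    2 * (Lg X * BB X H * (2 * (3 * √(2 * X * (6 * Real.log X)) + 18 * Real.log X))) ≤ ε * (X * H * Real.log X) := by
  have hlog : Tendsto (fun X : ℕ => Real.log (X : ℝ)) atTop atTop := Real.tendsto_log_atTop.comp tendsto_natCast_atTop_atTop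
  have h6 : ∀ᶠ X : ℕ in atTop, 324 * Real.log (X : ℝ) ^ 6 ≤ X := by
    have h0 := (Real.isLittleO_pow_log_id_atTop (n := 6)).comp_tendsto (tendsto_natCast_atTop_atTop (R := ℝ))
    filter_upwards [h0.bound (show (0 : ℝ) < 1 / 324 by norm_num), eventually_ge_atTop 1] with X hX hX1
    simp only [Function.comp, id, Real.norm_eq_abs] at hX
    have := (le_abs_self _).trans hX
    rw [abs_of_nonneg (Nat.cast_nonneg X)] at this
    linarith
  filter_upwards [h6, hlog.eventually_ge_atTop (max 1 ((2080 / ε) ^ 2)), eventually_ge_atTop 10] with X h6 hL hX H hH1 hH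
  have hX' : (10 : ℝ) ≤ X := by exact_mod_cast hX
  have hH' : (1 : ℝ) ≤ H := by exact_mod_cast hH1
  set L := Real.log (X : ℝ) with hLd
  have hL1 : 1 ≤ L := (le_max_left _ _).trans hL
  have hL2 : (2080 / ε) ^ 2 ≤ L := (le_max_right _ _).trans hL
  have hL0 : 0 < L := by linarith
  set q := √(X : ℝ) with hq
  set r := √L with hr
  have hq2 : q ^ 2 = X := Real.sq_sqrt (by linarith)
  have hr2 : r ^ 2 = L := Real.sq_sqrt hL0.le
  have hq0 : 0 < q := Real.sqrt_pos.2 (by linarith)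
  have hr0 : 0 < r := Real.sqrt_pos.2 hL0
  have hr1 : 1 ≤ r := Real.one_le_sqrt.2 hL1
  have hrε : 2080 / ε ≤ r := Real.le_sqrt_of_sq_le hL2
  have hLg : Lg X ≤ 2 * L := by
    unfold Lg
    have h1 : Real.log ((2 * X + 1 : ℕ) : ℝ) ≤ Real.log ((X : ℝ) ^ 2) := by
      apply Real.log_le_log (by positivity)
      push_cast
      nlinarith
    rw [Real.log_pow] at h1
    exact_mod_cast h1
  have hLg0 := Lg_nonneg X
  have s1 : √((H : ℝ) * (6 * L)) ≤ 3 * (q / L ^ 2) := by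
    rw [Real.sqrt_le_left (by positivity)]
    have h1 : (3 * (q / L ^ 2)) ^ 2 = 9 * X / L ^ 4 := by
      rw [← hq2]
      field_simp
      norm_num
    rw [h1, le_div_iff₀ (by positivity)]
    nlinarith
  have s2 : √(2 * (X : ℝ) * (6 * L)) ≤ 4 * (q * r) := by
    rw [Real.sqrt_le_left (by positivity), mul_pow, mul_pow, hq2, hr2]
    nlinarith [mul_pos (show (0 : ℝ) < X by linarith) hL0]
  have s3 : 18 * L ≤ q / L ^ 2 := by
    rw [le_div_iff₀ (by positivity)]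
    apply Real.le_sqrt_of_sq_le
    calc (18 * L * L ^ 2) ^ 2 = 324 * L ^ 6 := by ring
      _ ≤ (X : ℝ) := h6
  have s4 : q / L ^ 2 ≤ q * r := by
    rw [div_le_iff₀ (by positivity)]
    have : 1 ≤ L ^ 2 := one_le_pow₀ hL1
    calc q = q * 1 * 1 := by ring
      _ ≤ q * r * L ^ 2 := by gcongr
  have t1 : 3 * √((H : ℝ) * (6 * L)) + 18 * L ≤ 10 * (q / L ^ 2) := by linarith
  have t2 : 3 * √(2 * (X : ℝ) * (6 * L)) + 18 * L ≤ 13 * (q * r) := by linarith
  have t0 : 0 ≤ 3 * √((H : ℝ) * (6 * L)) + 18 * L := by positivity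
  have t3 : BB X H ≤ H * (2 * L) * (10 * (q / L ^ 2)) := by
    unfold BB
    rw [← hLd]
    gcongr
  have t4 : 0 ≤ BB X H := (BB_pos hX hH1).le
  have hfin : 2 * ((2 * L) * (H * (2 * L) * (10 * (q / L ^ 2))) * (2 * (13 * (q * r)))) = 2080 * r * (X * H) := by
    rw [← hq2]
    field_simp
    ring
  calc 2 * (Lg X * BB X H * (2 * (3 * √(2 * X * (6 * L)) + 18 * L)))
      ≤ 2 * ((2 * L) * (H * (2 * L) * (10 * (q / L ^ 2))) * (2 * (13 * (q * r)))) := by gcongr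
    _ = 2080 * r * (X * H) := hfin
    _ ≤ ε * r * r * (X * H) := by
        apply mul_le_mul_of_nonneg_right _ (by positivity)
        apply mul_le_mul_of_nonneg_right _ hr0.le
        rw [div_le_iff₀ hε] at hrε
        linarith
    _ = ε * (X * H * L) := by rw [← hr2]; ring

end Pool.Agent.N740.HK.Vr
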