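import Mathlib
import Pool.Agent.N740.HK.Vr4
import Pool.Agent.N740.HK.Gr3

/-!
# The variance for general profiles of the density
-/

set_option autoImplicit false
set_option linter.unusedSectionVars false

open MeasureTheory Filter Set
open scoped ENNReal Topology

namespace Pool.Agent.N740.HK.Vr

open Pool.Agent.R528.RM

variable {Ω : Type} {m0 : MeasurableSpace Ω} {μ : Measure Ω} [IsProbabilityMeasure μ]
  {ℱ : Filtration ℕ m0} {A : ℕ → Set Ω}

lemma cc_sum_eq (X H : ℕ) (hX : 1 ≤ X) (G : ℕ → ℝ) :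
    ∑ t ∈ Finset.range (X + H), cc X H t t * G t =
      ∑ j ∈ Finset.range H, (∑ t ∈ Finset.range (X + 1 + j), G t - ∑ t ∈ Finset.range (2 + j), G t) := by
  have h1 : ∑ t ∈ Finset.range (X + H), cc X H t t * G t = ∑ x ∈ Finset.Icc 2 X, ∑ t ∈ Finset.Ico x (x + H), G t := by
    have h2 : ∀ x ∈ Finset.Icc 2 X, ∑ t ∈ Finset.Ico x (x + H), G t = ∑ t ∈ Finset.range (X + H), I H x t * G t :=
      fun x hx => (I_win hx G).symm
    rw [Finset.sum_congr rfl h2, Finset.sum_comm]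
    refine Finset.sum_congr rfl fun t _ => ?_
    rw [cc_diag, Finset.sum_mul]
  rw [h1]
  have h3 : ∀ x ∈ Finset.Icc 2 X, ∑ t ∈ Finset.Ico x (x + H), G t = ∑ j ∈ Finset.range H, G (x + j) := by
    intro x _
    rw [Finset.sum_Ico_eq_sum_range, Nat.add_sub_cancel_left]
  rw [Finset.sum_congr rfl h3, Finset.sum_comm]
  refine Finset.sum_congr rfl fun j _ => ?_
  have h4 : Finset.Icc 2 X = Finset.Ico 2 (X + 1) := by
    ext x
    rw [Finset.mem_Icc, Finset.mem_Ico]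
    omega
  rw [h4, Finset.sum_Ico_add' G 2 (X + 1) j, Finset.sum_Ico_eq_sub _ (by omega)]

theorem T_asym {G : ℕ → ℝ} (hG : ∀ t, 0 ≤ G t)
    (hR : ∀ ε : ℝ, 0 < ε → ∀ᶠ y : ℕ in atTop, |∑ t ∈ Finset.range y, G t - y * Real.log y| ≤ ε * (y * Real.log y))
    {ε : ℝ} (hε : 0 < ε) (hε1 : ε ≤ 1) : ∀ᶠ X : ℕ in atTop, ∀ H : ℕ, (H : ℝ) * Real.log X ^ 5 ≤ X →
    |∑ t ∈ Finset.range (X + H), cc X H t t * G t - X * H * Real.log X| ≤ ε * (X * H * Real.log X) := by
  have hlog : Tendsto (fun X : ℕ => Real.log (X : ℝ)) atTop atTop := Real.tendsto_log_atTop.comp tendsto_natCast_atTop_atTop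
  have hmono : ∀ a b : ℕ, a ≤ b → ∑ t ∈ Finset.range a, G t ≤ ∑ t ∈ Finset.range b, G t := fun a b hab =>
    Finset.sum_le_sum_of_subset_of_nonneg (Finset.range_subset_range.2 hab) fun t _ _ => hG t
  obtain ⟨y₀, hy₀⟩ := eventually_atTop.1 (hR (ε / 4) (by positivity))
  filter_upwards [hlog.eventually_ge_atTop (64 / ε), eventually_ge_atTop (max y₀ 10),
    tendsto_natCast_atTop_atTop.eventually_ge_atTop (64 * (y₀ + 4) / ε)] with X hL hX hXε H hH
  have hX1 : y₀ ≤ X := (le_max_left _ _).trans hX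
  have hX2 : 10 ≤ X := (le_max_right _ _).trans hX
  have hX' : (10 : ℝ) ≤ X := by exact_mod_cast hX2
  have hH0 : (0 : ℝ) ≤ H := Nat.cast_nonneg _
  set L := Real.log (X : ℝ) with hLd
  have hL1 : 64 ≤ ε * L := by
    rw [div_le_iff₀ hε] at hL
    linarith
  have hL2 : 64 ≤ L := by nlinarith
  have hHs : (H : ℝ) ≤ ε / 64 * X := by
    have h1 : L ≤ L ^ 5 := le_self_pow₀ (by linarith) (by norm_num)
    have h2 : (H : ℝ) * L ≤ X := (mul_le_mul_of_nonneg_left h1 hH0).trans hH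
    have h3 : 64 * (H : ℝ) ≤ ε * X := by
      calc 64 * (H : ℝ) ≤ (ε * L) * H := mul_le_mul_of_nonneg_right hL1 hH0
        _ = ε * (H * L) := by ring
        _ ≤ ε * X := mul_le_mul_of_nonneg_left h2 hε.le
    linarith
  have hy4 : (y₀ : ℝ) + 4 ≤ ε / 64 * X := by
    have : 64 * ((y₀ : ℝ) + 4) / ε ≤ X := hXε
    rw [div_le_iff₀ hε] at this
    linarith
  set M : ℕ := H + 1 + y₀ + 2 with hM
  have hMX : (M : ℝ) ≤ ε / 32 * X := by
    rw [hM]
    push_cast
    linarith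
  have hM0 : (0 : ℝ) < M := by
    rw [hM]
    push_cast
    linarith [(Nat.cast_nonneg y₀ : (0 : ℝ) ≤ (y₀ : ℝ))]
  have hML : Real.log (M : ℝ) ≤ L := Real.log_le_log hM0 (by nlinarith)
  have hML0 : 0 ≤ Real.log (M : ℝ) := Real.log_natCast_nonneg _
  have hXL : 0 < (X : ℝ) * L := by positivity
  have hRM : ∑ t ∈ Finset.range M, G t ≤ ε / 8 * (X * L) := by
    have h1 := (abs_le.1 (hy₀ M (by omega))).2
    have h2 : (M : ℝ) * Real.log M ≤ ε / 32 * X * L := mul_le_mul hMX hML hML0 (by positivity)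
    nlinarith [mul_nonneg hM0.le hML0]
  have hup : ∑ t ∈ Finset.range (X + H + 1), G t ≤ (1 + 3 * ε / 4) * (X * L) := by
    have h1 := (abs_le.1 (hy₀ (X + H + 1) (by omega))).2
    have h2 : ((X + H + 1 : ℕ) : ℝ) ≤ (1 + ε / 8) * X := by
      push_cast
      nlinarith
    have h3 : Real.log ((X + H + 1 : ℕ) : ℝ) ≤ (1 + ε / 64) * L := by
      have h4 : Real.log ((X + H + 1 : ℕ) : ℝ) ≤ Real.log (2 * (X : ℝ)) := by
        apply Real.log_le_log (by positivity)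
        push_cast
        nlinarith
      rw [Real.log_mul (by norm_num) (by positivity)] at h4
      have := Real.log_two_lt_d9
      linarith
    have h5 : ((X + H + 1 : ℕ) : ℝ) * Real.log ((X + H + 1 : ℕ) : ℝ) ≤ (1 + ε / 8) * X * ((1 + ε / 64) * L) :=
      mul_le_mul h2 h3 (Real.log_natCast_nonneg _) (by positivity)
    have h6 : ∑ t ∈ Finset.range (X + H + 1), G t ≤ (1 + ε / 4) * ((1 + ε / 8) * X * ((1 + ε / 64) * L)) := by
      have : (1 + ε / 4) * (((X + H + 1 : ℕ) : ℝ) * Real.log ((X + H + 1 : ℕ) : ℝ)) ≤ (1 + ε / 4) * ((1 + ε / 8) * X * ((1 + ε / 64) * L)) :=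
        mul_le_mul_of_nonneg_left h5 (by positivity)
      linarith
    refine h6.trans ?_
    have h7 : (1 + ε / 4) * ((1 + ε / 8) * (1 + ε / 64)) ≤ 1 + 3 * ε / 4 := by nlinarith [mul_pos hε hε]
    calc (1 + ε / 4) * ((1 + ε / 8) * X * ((1 + ε / 64) * L)) = (1 + ε / 4) * ((1 + ε / 8) * (1 + ε / 64)) * (X * L) := by ring
      _ ≤ _ := mul_le_mul_of_nonneg_right h7 hXL.le
  have hlow : (1 - ε / 4) * (X * L) ≤ ∑ t ∈ Finset.range X, G t := by
    have h1 := (abs_le.1 (hy₀ X hX1)).1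
    linarith
  rw [cc_sum_eq X H (by omega)]
  have hterm : ∀ j ∈ Finset.range H, (1 - ε) * (X * L) ≤ ∑ t ∈ Finset.range (X + 1 + j), G t - ∑ t ∈ Finset.range (2 + j), G t ∧
      ∑ t ∈ Finset.range (X + 1 + j), G t - ∑ t ∈ Finset.range (2 + j), G t ≤ (1 + ε) * (X * L) := by
    intro j hj
    have hj := Finset.mem_range.1 hj
    have a1 := hmono X (X + 1 + j) (by omega)
    have a2 := hmono (X + 1 + j) (X + H + 1) (by omega)
    have a3 := hmono (2 + j) M (by omega)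
    have a4 : 0 ≤ ∑ t ∈ Finset.range (2 + j), G t := Finset.sum_nonneg fun t _ => hG t
    have a5 : 0 ≤ ε * (X * L) := by positivity
    constructor <;> nlinarith
  have s1 : ∑ j ∈ Finset.range H, (1 - ε) * ((X : ℝ) * L) ≤ ∑ j ∈ Finset.range H, (∑ t ∈ Finset.range (X + 1 + j), G t - ∑ t ∈ Finset.range (2 + j), G t) :=
    Finset.sum_le_sum fun j hj => (hterm j hj).1
  have s2 : ∑ j ∈ Finset.range H, (∑ t ∈ Finset.range (X + 1 + j), G t - ∑ t ∈ Finset.range (2 + j), G t) ≤ ∑ j ∈ Finset.range H, (1 + ε) * ((X : ℝ) * L) :=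
    Finset.sum_le_sum fun j hj => (hterm j hj).2
  rw [Finset.sum_const, Finset.card_range, nsmul_eq_mul] at s1 s2
  rw [abs_le]
  constructor <;> nlinarith

end Pool.Agent.N740.HK.Vr
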