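import Mathlib
import Pool.Agent.N740.HK.Vr5

/-!
# The diagonal and the variance for general profiles
-/

set_option autoImplicit false
set_option linter.unusedSectionVars false

open MeasureTheory Filter Set
open scoped ENNReal Topology

namespace Pool.Agent.N740.HK.Vr

open Pool.Agent.R528.RM

variable {Ω : Type} {m0 : MeasurableSpace Ω} {μ : Measure Ω} [IsProbabilityMeasure μ]
  {ℱ : Filtration ℕ m0} {A : ℕ → Set Ω}

/-- **the diagonal** -/
theorem diag_r (hA : ∀ n, MeasurableSet[ℱ n] (A n)) {ρ : ℕ → ℝ} (hρ0 : ∀ n, 0 ≤ ρ n) (hρ1 : ∃ c, ∀ n, ρ n ≤ c)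
    (hρt : Tendsto ρ atTop (𝓝 0))
    (hd : ∀ᵐ ω ∂μ, ∀ ε : ℝ, 0 < ε → ∀ᶠ n : ℕ in atTop, |dens μ ℱ A n ω - ρ n| ≤ ε * ρ n)
    (hR : ∀ ε : ℝ, 0 < ε → ∀ᶠ y : ℕ in atTop, |∑ t ∈ Finset.range y, lg t ^ 2 * ρ t - y * Real.log y| ≤ ε * (y * Real.log y)) :
    ∀ᵐ ω ∂μ, ∀ ε : ℝ, 0 < ε → ∀ᶠ X : ℕ in atTop, ∀ H : ℕ, 1 ≤ H → (H : ℝ) * Real.log X ^ 5 ≤ X →
      |∑ t ∈ Finset.range (X + H), cc X H t t * (lg t * Yc μ ℱ A t ω) ^ 2 - X * H * Real.log X| ≤
        ε * (X * H * Real.log X) := by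
  set w : ℕ → ℕ → Ω → ℝ := fun n t _ => cc (Nat.unpair n).1 (Nat.unpair n).2 t t * mn (Nat.unpair n).1 t ^ 2 /
    max 1 (((Nat.unpair n).2 : ℕ) : ℝ) with hw
  have hmx : ∀ H : ℕ, 0 < max (1 : ℝ) (H : ℝ) := fun H => lt_of_lt_of_le one_pos (le_max_left _ _)
  have h01 : ∀ n t ω, 0 ≤ w n t ω ∧ w n t ω ≤ 1 := by
    intro n t ω
    simp only [hw]
    have h1 := hmx (Nat.unpair n).2
    refine ⟨div_nonneg (mul_nonneg (cc_nonneg _ _ _ _) (sq_nonneg _)) h1.le, ?_⟩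
    rw [div_le_one h1]
    exact (mul_le_of_le_one_right (cc_nonneg _ _ _ _) (pow_le_one₀ (mn_nonneg _ _) (mn_le _ _))).trans
      ((cc_le _ _ _ _).trans (le_max_right _ _))
  have hlog : Tendsto (fun X : ℕ => Real.log (X : ℝ)) atTop atTop := Real.tendsto_log_atTop.comp tendsto_natCast_atTop_atTop
  filter_upwards [conc_rho (μ := μ) hA hρ0 hρ1 hd w (fun n => (Nat.unpair n).1 + (Nat.unpair n).2) (fun n t => stronglyMeasurable_const) h01,
    hd, DD'_ae (μ := μ) hA] with ω h1 h2 h3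
  intro ε hε
  -- small parameter
  set η : ℝ := min 1 (ε / 32) with hη
  have hη0 : 0 < η := lt_min one_pos (by positivity)
  have hη1 : η ≤ 1 := min_le_left _ _
  have hη2 : η ≤ ε / 32 := min_le_right _ _
  obtain ⟨C, hC⟩ := h1 η hη0
  obtain ⟨n₀, hn₀⟩ := eventually_atTop.1 hC
  -- the densities
  have hD : ∀ᶠ t : ℕ in atTop, DD' μ ℱ A t ω ≤ 2 * ρ t ∧ DD' μ ℱ A t ω ≤ η := by
    filter_upwards [h2 1 one_pos, hρt.eventually_lt_const (show (0 : ℝ) < η / 2 by positivity)] with t a1 a2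
    rw [h3 t]
    have b1 : dens μ ℱ A t ω ≤ 2 * ρ t := by linarith [(abs_le.1 a1).2]
    exact ⟨b1, by linarith⟩
  obtain ⟨t₀, ht₀⟩ := eventually_atTop.1 hD
  have hsmall : ∀ᶠ X : ℕ in atTop, 24 * |C| * Real.log (X : ℝ) ^ 3 + 3 * t₀ * lg t₀ ^ 2 ≤ η * (X * Real.log X) := by
    have h0 := ((Real.isLittleO_pow_log_id_atTop (n := 2)).comp_tendsto (tendsto_natCast_atTop_atTop (R := ℝ))).bound
      (show (0 : ℝ) < η / (2 * (24 * |C| + 1)) by positivity)
    filter_upwards [h0, eventually_ge_atTop 10, hlog.eventually_ge_atTop 1,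
      tendsto_natCast_atTop_atTop.eventually_ge_atTop (2 * (3 * t₀ * lg t₀ ^ 2) / η)] with X k1 k2 k3 k4
    simp only [Function.comp, id, Real.norm_eq_abs] at k1
    rw [abs_of_nonneg (sq_nonneg _), abs_of_nonneg (Nat.cast_nonneg X : (0 : ℝ) ≤ X)] at k1
    have k5 : 24 * |C| * Real.log (X : ℝ) ^ 2 ≤ η / 2 * X := by
      have h5 : (24 * |C| + 1) * Real.log (X : ℝ) ^ 2 ≤ (24 * |C| + 1) * (η / (2 * (24 * |C| + 1)) * X) :=
        mul_le_mul_of_nonneg_left k1 (by positivity)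
      have h6 : (24 * |C| + 1) * (η / (2 * (24 * |C| + 1)) * X) = η / 2 * X := by field_simp
      nlinarith [sq_nonneg (Real.log (X : ℝ))]
    have k6 : 24 * |C| * Real.log (X : ℝ) ^ 3 ≤ η / 2 * (X * Real.log X) := by
      have := mul_le_mul_of_nonneg_right k5 (show 0 ≤ Real.log (X : ℝ) by linarith)
      calc 24 * |C| * Real.log (X : ℝ) ^ 3 = 24 * |C| * Real.log (X : ℝ) ^ 2 * Real.log X := by ring
        _ ≤ η / 2 * X * Real.log X := this
        _ = _ := by ring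
    have k7 : 3 * t₀ * lg t₀ ^ 2 ≤ η / 2 * X := by
      rw [div_le_iff₀ hη0] at k4
      linarith
    have k8 : η / 2 * X ≤ η / 2 * (X * Real.log X) := by
      have : (X : ℝ) * 1 ≤ X * Real.log X := mul_le_mul_of_nonneg_left k3 (Nat.cast_nonneg _)
      rw [mul_one] at this
      exact mul_le_mul_of_nonneg_left this (by positivity)
    linarith
  filter_upwards [T_asym (G := fun t => lg t ^ 2 * ρ t) (fun t => mul_nonneg (sq_nonneg _) (hρ0 t)) hR hη0 hη1, hsmall,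
    eventually_ge_atTop (max n₀ 10), hlog.eventually_ge_atTop 1] with X hT hsm hX hXL H hH1 hH5
  have hH : H ≤ X := by
    have h5 : (H : ℝ) * 1 ≤ H * Real.log X ^ 5 := mul_le_mul_of_nonneg_left (one_le_pow₀ hXL) (Nat.cast_nonneg _)
    have h6 : (H : ℝ) ≤ X := by linarith
    exact_mod_cast h6
  have hX1 : n₀ ≤ X := (le_max_left _ _).trans hX
  have hX2 : 10 ≤ X := (le_max_right _ _).trans hX
  have hX' : (10 : ℝ) ≤ X := by exact_mod_cast hX2
  have hH' : (1 : ℝ) ≤ H := by exact_mod_cast hH1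
  set L := Real.log (X : ℝ) with hLd
  have hL0 : 0 < L := Real.log_pos (by linarith)
  set P : ℝ := X * H * L with hP
  have hP0 : 0 < P := by positivity
  have g0 := hT H hH5
  set TT : ℝ := ∑ t ∈ Finset.range (X + H), cc X H t t * (lg t ^ 2 * ρ t) with hTT
  have g1 := hn₀ (Nat.pair X H) (hX1.trans (Nat.left_le_pair _ _))
  simp only [hw, Nat.unpair_pair] at g1
  rw [max_eq_right hH'] at g1
  obtain ⟨_, p2⟩ := pair_log (t := 0) hX2 hH (by omega)
  have hl0 : 0 ≤ Real.log ((Nat.pair X H : ℕ) : ℝ) := Real.log_natCast_nonneg _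
  have hLg := Lg_pos (X := X) (by omega)
  have hLg2 : Lg X ≤ 2 * L := by
    unfold Lg
    have h1 : Real.log ((2 * X + 1 : ℕ) : ℝ) ≤ Real.log ((X : ℝ) ^ 2) := by
      apply Real.log_le_log (by positivity)
      push_cast
      nlinarith
    rw [Real.log_pow] at h1
    exact_mod_cast h1
  -- the sum of the trials
  set SJ : ℝ := ∑ t ∈ Finset.range (X + H), cc X H t t * lg t ^ 2 * J1 A (t + 1) ω with hSJ
  have e1 : SJ = H * Lg X ^ 2 * ∑ t ∈ Finset.range (X + H), cc X H t t * mn X t ^ 2 / (H : ℝ) * J1 A (t + 1) ω := by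
    rw [hSJ, Finset.mul_sum]
    refine Finset.sum_congr rfl fun t ht => ?_
    have := Finset.mem_range.1 ht
    rw [lg_eq (X := X) (by omega) (by omega : t ≤ 2 * X)]
    field_simp
  have e2 : TT = H * Lg X ^ 2 * ∑ t ∈ Finset.range (X + H), cc X H t t * mn X t ^ 2 / (H : ℝ) * ρ t := by
    rw [hTT, Finset.mul_sum]
    refine Finset.sum_congr rfl fun t ht => ?_
    have := Finset.mem_range.1 ht
    rw [lg_eq (X := X) (by omega) (by omega : t ≤ 2 * X)]
    field_simp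
  have g2 : |SJ - TT| ≤ η * TT + H * (24 * |C| * L ^ 3) := by
    rw [e1, e2, ← mul_sub, abs_mul, abs_of_nonneg (by positivity)]
    refine (mul_le_mul_of_nonneg_left g1 (by positivity)).trans ?_
    rw [mul_add]
    have h5 : (H : ℝ) * Lg X ^ 2 * (C * Real.log ((Nat.pair X H : ℕ) : ℝ)) ≤ H * (24 * |C| * L ^ 3) := by
      calc (H : ℝ) * Lg X ^ 2 * (C * Real.log ((Nat.pair X H : ℕ) : ℝ)) ≤ H * (2 * L) ^ 2 * (|C| * (6 * L)) := by
            have : C * Real.log ((Nat.pair X H : ℕ) : ℝ) ≤ |C| * (6 * L) :=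
              mul_le_mul (le_abs_self C) p2 hl0 (abs_nonneg _)
            have h6 : 0 ≤ |C| * (6 * L) := by positivity
            calc (H : ℝ) * Lg X ^ 2 * (C * Real.log ((Nat.pair X H : ℕ) : ℝ)) ≤ H * Lg X ^ 2 * (|C| * (6 * L)) :=
                  mul_le_mul_of_nonneg_left this (by positivity)
              _ ≤ _ := by gcongr
        _ = _ := by ring
    have h6 : (H : ℝ) * Lg X ^ 2 * (η * ∑ t ∈ Finset.range (X + H), cc X H t t * mn X t ^ 2 / (H : ℝ) * ρ t) =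
        η * (H * Lg X ^ 2 * ∑ t ∈ Finset.range (X + H), cc X H t t * mn X t ^ 2 / (H : ℝ) * ρ t) := by ring
    linarith
  -- the remainder
  have g3 : |∑ t ∈ Finset.range (X + H), cc X H t t * (lg t * Yc μ ℱ A t ω) ^ 2 - SJ| ≤
      2 * η * SJ + 2 * η * TT + H * (3 * t₀ * lg t₀ ^ 2) := by
    rw [hSJ, ← Finset.sum_sub_distrib]
    refine (Finset.abs_sum_le_sum_abs _ _).trans ?_
    have hpt : ∀ t ∈ Finset.range (X + H), |cc X H t t * (lg t * Yc μ ℱ A t ω) ^ 2 - cc X H t t * lg t ^ 2 * J1 A (t + 1) ω| ≤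
        2 * η * (cc X H t t * lg t ^ 2 * J1 A (t + 1) ω) + 2 * η * (cc X H t t * (lg t ^ 2 * ρ t)) +
        (if t < t₀ then (H : ℝ) * (3 * lg t₀ ^ 2) else 0) := by
      intro t _
      have hJ : J1 A (t + 1) ω = 0 ∨ J1 A (t + 1) ω = 1 := by
        unfold J1
        by_cases h : ω ∈ A (t + 1)
        · right
          simp [h]
        · left
          simp [h]
      have hJ2 : J1 A (t + 1) ω ^ 2 = J1 A (t + 1) ω := by rcases hJ with h | h <;> rw [h] <;> norm_num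
      have hJ0 : 0 ≤ J1 A (t + 1) ω := by rcases hJ with h | h <;> rw [h]; norm_num
      have hJ1 : J1 A (t + 1) ω ≤ 1 := by rcases hJ with h | h <;> rw [h]; norm_num
      obtain ⟨d0, d1⟩ := DD'_bd (μ := μ) (ℱ := ℱ) (A := A) t ω
      set J := J1 A (t + 1) ω with hJd
      set D := DD' μ ℱ A t ω with hDd
      have e3 : cc X H t t * (lg t * Yc μ ℱ A t ω) ^ 2 - cc X H t t * lg t ^ 2 * J =
          (cc X H t t * lg t ^ 2) * (D ^ 2 - 2 * J * D) := by
        unfold Yc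
        rw [← hJd, ← hDd]
        have : (J - D) ^ 2 = J - 2 * J * D + D ^ 2 := by rw [sub_sq, hJ2]
        rw [mul_pow, this]
        ring
      have hc0 := cc_nonneg X H t t
      have hcl : 0 ≤ cc X H t t * lg t ^ 2 := mul_nonneg hc0 (sq_nonneg _)
      rw [e3, abs_mul, abs_of_nonneg hcl]
      have h5 : |D ^ 2 - 2 * J * D| ≤ D * (2 * J + D) := by
        rw [abs_le]
        constructor <;> nlinarith [mul_nonneg hJ0 d0]
      by_cases ht : t < t₀
      · rw [if_pos ht]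
        have h6 : D * (2 * J + D) ≤ 3 := by nlinarith
        have h7 : cc X H t t * lg t ^ 2 ≤ H * lg t₀ ^ 2 := by
          apply mul_le_mul (cc_le _ _ _ _) _ (sq_nonneg _) (Nat.cast_nonneg _)
          apply pow_le_pow_left₀ (lg_nonneg t)
          unfold lg
          apply Real.log_le_log (by positivity)
          have : t + 1 ≤ t₀ + 1 := by omega
          exact_mod_cast this
        have h8 : cc X H t t * lg t ^ 2 * |D ^ 2 - 2 * J * D| ≤ H * lg t₀ ^ 2 * 3 :=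
          mul_le_mul h7 (h5.trans h6) (abs_nonneg _) (by positivity)
        have h9 : 0 ≤ 2 * η * (cc X H t t * lg t ^ 2 * J) := by positivity
        have h10 : 0 ≤ 2 * η * (cc X H t t * (lg t ^ 2 * ρ t)) := mul_nonneg (by positivity) (mul_nonneg hc0 (mul_nonneg (sq_nonneg _) (hρ0 t)))
        linarith
      · rw [if_neg ht, add_zero]
        obtain ⟨k1, k2⟩ := ht₀ t (by omega)
        have h6 : D * (2 * J + D) ≤ η * (2 * J + 2 * ρ t) :=
          mul_le_mul k2 (by linarith) (by positivity) hη0.le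
        calc cc X H t t * lg t ^ 2 * |D ^ 2 - 2 * J * D| ≤ cc X H t t * lg t ^ 2 * (η * (2 * J + 2 * ρ t)) :=
              mul_le_mul_of_nonneg_left (h5.trans h6) hcl
          _ = _ := by ring
    refine (Finset.sum_le_sum hpt).trans ?_
    rw [Finset.sum_add_distrib, Finset.sum_add_distrib, ← Finset.mul_sum, ← Finset.mul_sum]
    have h5 : ∑ t ∈ Finset.range (X + H), (if t < t₀ then (H : ℝ) * (3 * lg t₀ ^ 2) else 0) ≤ H * (3 * t₀ * lg t₀ ^ 2) := by
      rw [← Finset.sum_filter, Finset.sum_const, nsmul_eq_mul]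
      have hsub : ((Finset.range (X + H)).filter (fun t => t < t₀)).card ≤ (Finset.range t₀).card :=
        Finset.card_le_card fun t ht => Finset.mem_range.2 (Finset.mem_filter.1 ht).2
      rw [Finset.card_range] at hsub
      have h6 : ((((Finset.range (X + H)).filter (fun t => t < t₀)).card : ℕ) : ℝ) ≤ t₀ := by exact_mod_cast hsub
      calc _ ≤ (t₀ : ℝ) * ((H : ℝ) * (3 * lg t₀ ^ 2)) := mul_le_mul_of_nonneg_right h6 (by positivity)
        _ = _ := by ring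
    have h7 : ∑ t ∈ Finset.range (X + H), cc X H t t * (lg t ^ 2 * ρ t) = TT := rfl
    rw [h7]
    linarith
  -- conclusion
  have hsm' : (H : ℝ) * (24 * |C| * L ^ 3) + H * (3 * t₀ * lg t₀ ^ 2) ≤ η * P := by
    have h5 := mul_le_mul_of_nonneg_left hsm (show (0 : ℝ) ≤ H by linarith)
    calc (H : ℝ) * (24 * |C| * L ^ 3) + H * (3 * t₀ * lg t₀ ^ 2) = H * (24 * |C| * L ^ 3 + 3 * t₀ * lg t₀ ^ 2) := by ring
      _ ≤ H * (η * (X * L)) := h5
      _ = η * P := by rw [hP]; ring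
  have hc0 : 0 ≤ (H : ℝ) * (24 * |C| * L ^ 3) := by positivity
  have hc1 : 0 ≤ (H : ℝ) * (3 * t₀ * lg t₀ ^ 2) := by positivity
  have a0 := abs_le.1 g0
  have a2 := abs_le.1 g2
  have a3 := abs_le.1 g3
  set S := ∑ t ∈ Finset.range (X + H), cc X H t t * (lg t * Yc μ ℱ A t ω) ^ 2 with hSd
  have hηP : η * P ≤ P := by nlinarith
  have hT2 : TT ≤ 2 * P := by linarith [a0.2]
  have hηT : η * TT ≤ η * (2 * P) := mul_le_mul_of_nonneg_left hT2 hη0.le
  have hSJ2 : SJ ≤ 5 * P := by nlinarith [a2.2]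
  have hηS : η * SJ ≤ η * (5 * P) := mul_le_mul_of_nonneg_left hSJ2 hη0.le
  have hεP : η * P ≤ ε / 32 * P := mul_le_mul_of_nonneg_right hη2 hP0.le
  have hfin : |S - P| ≤ 2 * η * SJ + 2 * η * TT + H * (3 * t₀ * lg t₀ ^ 2) + (η * TT + H * (24 * |C| * L ^ 3)) + η * P := by
    rw [abs_le]
    constructor <;> linarith [a0.1, a0.2, a2.1, a2.2, a3.1, a3.2]
  refine hfin.trans ?_
  have e9 : (2 * η * SJ + 2 * η * TT + H * (3 * t₀ * lg t₀ ^ 2) + (η * TT + H * (24 * |C| * L ^ 3)) + η * P) ≤ 18 * (η * P) := by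
    linarith
  have e10 : 0 ≤ ε * P := by positivity
  linarith

/-- **the variance** -/
theorem variance_r (hA : ∀ n, MeasurableSet[ℱ n] (A n)) {ρ : ℕ → ℝ} (hρ0 : ∀ n, 0 ≤ ρ n) (hρ1 : ∃ c, ∀ n, ρ n ≤ c)
    (hρt : Tendsto ρ atTop (𝓝 0))
    (hd : ∀ᵐ ω ∂μ, ∀ ε : ℝ, 0 < ε → ∀ᶠ n : ℕ in atTop, |dens μ ℱ A n ω - ρ n| ≤ ε * ρ n)
    (hR : ∀ ε : ℝ, 0 < ε → ∀ᶠ y : ℕ in atTop, |∑ t ∈ Finset.range y, lg t ^ 2 * ρ t - y * Real.log y| ≤ ε * (y * Real.log y)) :
    ∀ᵐ ω ∂μ, ∀ ε : ℝ, 0 < ε → ∀ᶠ X : ℕ in atTop, ∀ H : ℕ, 1 ≤ H → (H : ℝ) * Real.log X ^ 5 ≤ X →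
      |∑ x ∈ Finset.Icc 2 X, (∑ t ∈ Finset.Ico x (x + H), lg t * Yc μ ℱ A t ω) ^ 2 - X * H * Real.log X| ≤
        ε * (X * H * Real.log X) := by
  filter_upwards [diag_r (μ := μ) hA hρ0 hρ1 hρt hd hR, cross_bd (μ := μ) hA] with ω h1 h2
  intro ε hε
  have hlog : Tendsto (fun X : ℕ => Real.log (X : ℝ)) atTop atTop := Real.tendsto_log_atTop.comp tendsto_natCast_atTop_atTop
  filter_upwards [h1 (ε / 2) (by positivity), h2, cross_num (show 0 < ε / 2 by positivity), hlog.eventually_ge_atTop 1] with X g1 g2 g3 gL H hH1 hH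
  have hHX : H ≤ X := by
    have h5 : (H : ℝ) * 1 ≤ H * Real.log X ^ 5 := mul_le_mul_of_nonneg_left (one_le_pow₀ gL) (Nat.cast_nonneg _)
    have h6 : (H : ℝ) ≤ X := by linarith
    exact_mod_cast h6
  have k1 := g1 H hH1 hH
  have k2 := g2 H hH1 hHX
  have k3 := g3 H hH1 hH
  rw [expand]
  have e : ∑ t ∈ Finset.range (X + H), (lg t * Yc μ ℱ A t ω) * ∑ s ∈ Finset.range t, cc X H s t * (lg s * Yc μ ℱ A s ω) =
      ∑ t ∈ Finset.range (X + H), (lg t * Yc μ ℱ A t ω) * Z μ ℱ A X H t ω := rfl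
  rw [e]
  have a1 := abs_le.1 k1
  have a2 := abs_le.1 k2
  rw [abs_le]
  constructor <;> linarith [a1.1, a1.2, a2.1, a2.2]

end Pool.Agent.N740.HK.Vr
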