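import Mathlib
import Pool.Agent.N740.HK.Vr3
import Pool.Agent.N740.HK.Gr3
import Pool.Agent.H305R2.MertensE

/-!
# The profile of the sieved models
-/

set_option autoImplicit false
set_option linter.unusedSectionVars false

open Filter Set
open scoped Topology

namespace Pool.Agent.N740.HK.Vr

/-- `1` plus the centred sieve weight -/
noncomputable def hh (z : ℕ → ℕ) (t : ℕ) : ℝ := 1 + DF (z (t + 1)) (t + 1)

lemma hh_nonneg (z : ℕ → ℕ) (t : ℕ) : 0 ≤ hh z t := one_add_DF_nonneg _ _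

lemma GG_inv_log : ∃ K : ℝ, 0 < K ∧ ∀ v : ℕ, (GG v)⁻¹ ≤ K * (1 + Real.log v) := by
  have h := Pool.Agent.H305R2.mertens_three
  set c : ℝ := Real.exp Real.eulerMascheroniConstant with hc
  have hc0 : 0 < c := Real.exp_pos _
  have hG : ∀ v : ℕ, (GG v)⁻¹ = ∏ p ∈ (Finset.Icc 1 v).filter Nat.Prime, (1 - (p : ℝ)⁻¹)⁻¹ := by
    intro v
    unfold GG
    rw [← Finset.prod_inv_distrib]
    exact Finset.prod_congr rfl fun p _ => by rw [one_div]
  obtain ⟨v₀, hv₀⟩ := eventually_atTop.1 (h.eventually_lt_const (show c < c + 1 by linarith))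
  refine ⟨(c + 1) + ∑ i ∈ Finset.range (v₀ + 3), (GG i)⁻¹, ?_, fun v => ?_⟩
  · have : 0 ≤ ∑ i ∈ Finset.range (v₀ + 3), (GG i)⁻¹ := Finset.sum_nonneg fun i _ => (inv_pos.2 (GG_pos i)).le
    linarith
  · have hl : 0 ≤ Real.log (v : ℝ) := Real.log_natCast_nonneg _
    have hs : 0 ≤ ∑ i ∈ Finset.range (v₀ + 3), (GG i)⁻¹ := Finset.sum_nonneg fun i _ => (inv_pos.2 (GG_pos i)).le
    rcases Nat.lt_or_ge v (v₀ + 3) with hv | hv
    · have h1 := Finset.single_le_sum (f := fun i => (GG i)⁻¹) (fun i _ => (inv_pos.2 (GG_pos i)).le) (Finset.mem_range.2 hv)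
      nlinarith
    · have hv' : (3 : ℝ) ≤ v := by
        have : 3 ≤ v := by omega
        exact_mod_cast this
      have hL : 0 < Real.log (v : ℝ) := Real.log_pos (by linarith)
      have h1 := hv₀ v (by omega)
      rw [← hG, div_lt_iff₀ hL] at h1
      nlinarith

/-- the profile tends to `0` -/
lemma rg_lim {z : ℕ → ℕ} {k : ℕ} (hzk : ∀ᶠ n : ℕ in atTop, (z n : ℝ) ≤ Real.log n ^ k) : Tendsto (rg z) atTop (𝓝 0) := by
  obtain ⟨K, hK, hb⟩ := GG_inv_log
  have hlog : Tendsto (fun X : ℕ => Real.log (X : ℝ)) atTop atTop := Real.tendsto_log_atTop.comp tendsto_natCast_atTop_atTop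
  have hl2 : Tendsto (fun n : ℕ => Real.log (Real.log (n : ℝ)) / Real.log n) atTop (𝓝 0) :=
    (Real.isLittleO_log_id_atTop.tendsto_div_nhds_zero).comp hlog
  have hl3 : Tendsto (fun n : ℕ => 1 / Real.log (n : ℝ)) atTop (𝓝 0) := tendsto_const_nhds.div_atTop hlog
  have hB : Tendsto (fun n : ℕ => K * (1 / Real.log (n : ℝ)) + K * (k * (2 * (Real.log (Real.log (n : ℝ)) / Real.log n)))) atTop (𝓝 0) := by
    have := (hl3.const_mul K).add (((hl2.const_mul 2).const_mul (k : ℝ)).const_mul K)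
    simpa using this
  refine squeeze_zero' (Eventually.of_forall fun t => rg_nonneg z t) ?_ hB
  filter_upwards [(tendsto_add_atTop_nat 1).eventually hzk, hlog.eventually_ge_atTop 3, eventually_ge_atTop 10] with n hz hL hn
  have hn' : (10 : ℝ) ≤ n := by exact_mod_cast hn
  set L := Real.log (n : ℝ) with hLd
  have hL0 : 0 < L := by linarith
  have hLL : 0 < Real.log L := Real.log_pos (by linarith)
  have h1 : Real.log ((n + 1 : ℕ) : ℝ) ≤ L ^ 2 := by
    have h2 : Real.log ((n + 1 : ℕ) : ℝ) ≤ Real.log ((n : ℝ) ^ 2) := by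
      apply Real.log_le_log (by positivity)
      push_cast
      nlinarith
    rw [Real.log_pow] at h2
    push_cast at h2 ⊢
    nlinarith
  have hzL : Real.log ((z (n + 1) : ℕ) : ℝ) ≤ k * (2 * Real.log L) := by
    rcases Nat.eq_zero_or_pos (z (n + 1)) with h0 | h0
    · rw [h0, Nat.cast_zero, Real.log_zero]
      positivity
    · have h0' : (0 : ℝ) < ((z (n + 1) : ℕ) : ℝ) := by exact_mod_cast h0
      have h3 : ((z (n + 1) : ℕ) : ℝ) ≤ (L ^ 2) ^ k := hz.trans (pow_le_pow_left₀ (Real.log_natCast_nonneg _) h1 k)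
      have h4 := Real.log_le_log h0' h3
      rw [Real.log_pow, Real.log_pow] at h4
      exact_mod_cast h4
  have h5 : 1 + DF (z (n + 1)) (n + 1) ≤ (GG (z (n + 1)))⁻¹ := by
    have := (inv_pos.2 (GG_pos (z (n + 1)))).le
    unfold DF
    split_ifs <;> linarith
  unfold rg
  rw [← hLd]
  calc (1 + DF (z (n + 1)) (n + 1)) / L ≤ (K * (1 + k * (2 * Real.log L))) / L := by
        apply div_le_div_of_nonneg_right _ hL0.le
        refine h5.trans ((hb _).trans ?_)
        exact mul_le_mul_of_nonneg_left (by linarith) hK.le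
    _ = _ := by
        field_simp

/-- **the cumulative sums of the profile** -/
theorem RR_asym {z : ℕ → ℕ} (hz : Monotone z) {k : ℕ} (hzk : ∀ᶠ n : ℕ in atTop, (z n : ℝ) ≤ Real.log n ^ k)
    {ε : ℝ} (hε : 0 < ε) (hε1 : ε ≤ 1) :
    ∀ᶠ y : ℕ in atTop, |∑ t ∈ Finset.range y, lg t ^ 2 * rg z t - y * Real.log y| ≤ ε * (y * Real.log y) := by
  obtain ⟨C0, K0, hC, hK, hv⟩ := var_level
  obtain ⟨b0, hb0⟩ := exists_pow_lt_of_lt_one (show (0 : ℝ) < ε / 8 by positivity) (show (1 / 2 : ℝ) < 1 by norm_num)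
  set b := max C0 b0 with hb
  set e := 4 * (C0 * b) + 1 with he
  have hbe : (1 / 2 : ℝ) ^ b ≤ ε / 8 :=
    (pow_le_pow_of_le_one (by norm_num) (by norm_num) (le_max_right _ _)).trans hb0.le
  set δ : ℝ := ε / 8 with hδ
  have hδ0 : 0 < δ := by positivity
  have hδ1 : δ ≤ 1 / 8 := by rw [hδ]; linarith
  have hlog : Tendsto (fun X : ℕ => Real.log (X : ℝ)) atTop atTop := Real.tendsto_log_atTop.comp tendsto_natCast_atTop_atTop
  have hK' : (1 : ℝ) ≤ K0 := by exact_mod_cast hK
  -- small quantities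
  have hs1 : ∀ᶠ y : ℕ in atTop, 8 * (K0 : ℝ) * Real.log y ^ ((k + 1) * (e + 2)) ≤ ε / 8 * y := by
    have h0 := ((Real.isLittleO_pow_log_id_atTop (n := (k + 1) * (e + 2))).comp_tendsto (tendsto_natCast_atTop_atTop (R := ℝ))).bound
      (show (0 : ℝ) < ε / 8 / (8 * K0) by positivity)
    filter_upwards [h0] with y hy
    simp only [Function.comp, id, Real.norm_eq_abs] at hy
    have h1 := (le_abs_self _).trans hy
    rw [abs_of_nonneg (Nat.cast_nonneg y : (0 : ℝ) ≤ y)] at h1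
    calc 8 * (K0 : ℝ) * Real.log y ^ ((k + 1) * (e + 2)) ≤ 8 * K0 * (ε / 8 / (8 * K0) * y) := mul_le_mul_of_nonneg_left h1 (by positivity)
      _ = ε / 8 * y := by field_simp
  have hs2 : ∀ᶠ y : ℕ in atTop, 10 * Real.log (y : ℝ) ^ (k + 2) * (y : ℝ) ^ (1 - δ) ≤ ε / 8 * y := by
    have h0 := ((isLittleO_log_rpow_rpow_atTop ((k + 2 : ℕ) : ℝ) hδ0).comp_tendsto (tendsto_natCast_atTop_atTop (R := ℝ))).bound
      (show (0 : ℝ) < ε / 8 / 10 by positivity)
    filter_upwards [h0, eventually_ge_atTop 3] with y hy hy3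
    have hy3' : (3 : ℝ) ≤ y := by exact_mod_cast hy3
    simp only [Function.comp, Real.norm_eq_abs] at hy
    rw [Real.rpow_natCast] at hy
    have h1 := (le_abs_self _).trans hy
    rw [abs_of_nonneg (Real.rpow_nonneg (by linarith) _)] at h1
    have h2 : (y : ℝ) ^ δ * (y : ℝ) ^ (1 - δ) = y := by
      rw [← Real.rpow_add (by linarith)]
      simp
    calc 10 * Real.log (y : ℝ) ^ (k + 2) * (y : ℝ) ^ (1 - δ) ≤ 10 * (ε / 8 / 10 * (y : ℝ) ^ δ) * (y : ℝ) ^ (1 - δ) :=
          mul_le_mul_of_nonneg_right (mul_le_mul_of_nonneg_left h1 (by norm_num)) (Real.rpow_nonneg (by linarith) _)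
      _ = ε / 8 * ((y : ℝ) ^ δ * (y : ℝ) ^ (1 - δ)) := by ring
      _ = _ := by rw [h2]
  filter_upwards [hs1, hs2, hzk, hlog.eventually_ge_atTop (max 4 (40 / ε)), eventually_ge_atTop 10] with y s1 s2 hzy hL hy
  have hy' : (10 : ℝ) ≤ y := by exact_mod_cast hy
  set L := Real.log (y : ℝ) with hLd
  have hL4 : 4 ≤ L := (le_max_left _ _).trans hL
  have hLε : 40 ≤ ε * L := by
    have := (le_max_right _ _).trans hL
    rw [div_le_iff₀ hε] at this
    linarith
  have hL0 : 0 < L := by linarith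
  set Z : ℕ := z y + 1 with hZ
  have hZ1 : (1 : ℝ) ≤ Z := by
    rw [hZ]
    push_cast
    linarith [(Nat.cast_nonneg (z y) : (0 : ℝ) ≤ ((z y : ℕ) : ℝ))]
  have hLk : 1 ≤ L ^ k := one_le_pow₀ (by linarith)
  have hZL : (Z : ℝ) ≤ L ^ (k + 1) := by
    rw [hZ, pow_succ]
    push_cast
    nlinarith
  -- the cut
  set x0 : ℕ := ⌊(y : ℝ) ^ (1 - δ)⌋₊ with hx0
  have hpow0 : 0 ≤ (y : ℝ) ^ (1 - δ) := Real.rpow_nonneg (by linarith) _
  have hx0u : (x0 : ℝ) ≤ (y : ℝ) ^ (1 - δ) := Nat.floor_le hpow0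
  have hx0s : 10 * L ^ (k + 2) * x0 ≤ ε / 8 * y := (mul_le_mul_of_nonneg_left hx0u (by positivity)).trans s2
  have hLk2 : 1 ≤ L ^ (k + 2) := one_le_pow₀ (by linarith)
  have hx0n : (0 : ℝ) ≤ x0 := Nat.cast_nonneg _
  have hx0y : (x0 : ℝ) ≤ ε / 8 * y := by nlinarith
  have hx0le : x0 ≤ y := by
    have : (x0 : ℝ) ≤ y := by nlinarith
    exact_mod_cast this
  have hpow2 : 2 ≤ (y : ℝ) ^ (1 - δ) := by
    have h1 : (y : ℝ) ^ (1 / 2 : ℝ) ≤ (y : ℝ) ^ (1 - δ) := Real.rpow_le_rpow_of_exponent_le (by linarith) (by linarith)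
    have h2 : (2 : ℝ) ≤ (y : ℝ) ^ (1 / 2 : ℝ) := by
      rw [← Real.sqrt_eq_rpow]
      exact Real.le_sqrt_of_sq_le (by linarith)
    linarith
  have hx0l : (y : ℝ) ^ (1 - δ) / 2 ≤ x0 := by
    have := Nat.lt_floor_add_one ((y : ℝ) ^ (1 - δ))
    rw [← hx0] at this
    linarith
  have hx01 : (1 : ℝ) ≤ x0 := by linarith
  have hlogx0 : (1 - ε / 4) * L ≤ Real.log (x0 : ℝ) := by
    have h1 := Real.log_le_log (by positivity) hx0l
    rw [Real.log_div (by positivity) (by norm_num), Real.log_rpow (by linarith), ← hLd] at h1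
    have := Real.log_two_lt_d9
    have h2 : ε / 8 * L ≥ 5 := by linarith
    rw [hδ] at h1
    linarith
  have hlogx0' : Real.log (x0 : ℝ) ≤ L := Real.log_le_log (by linarith) (by exact_mod_cast hx0le)
  -- the sum of the sieve weights
  set S : ℝ := ∑ t ∈ Finset.Ico x0 y, hh z t with hS
  have hSe : S = ((y : ℝ) - x0) + ∑ m ∈ Finset.Ioc x0 (x0 + (y - x0)), DF (z m) m := by
    rw [Nat.add_sub_cancel' hx0le, hS]
    have h1 : ∑ m ∈ Finset.Ioc x0 y, DF (z m) m = ∑ t ∈ Finset.Ico x0 y, DF (z (t + 1)) (t + 1) := by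
      refine Finset.sum_nbij' (fun m => m - 1) (fun t => t + 1) ?_ ?_ ?_ ?_ ?_
      · intro m hm
        have := Finset.mem_Ioc.1 hm
        exact Finset.mem_Ico.2 ⟨by omega, by omega⟩
      · intro t ht
        have := Finset.mem_Ico.1 ht
        exact Finset.mem_Ioc.2 ⟨by omega, by omega⟩
      · intro m hm
        have := Finset.mem_Ioc.1 hm
        omega
      · intro t _
        simp
      · intro m hm
        have := Finset.mem_Ioc.1 hm
        have e : m - 1 + 1 = m := by omega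
        rw [e]
    rw [h1]
    unfold hh
    rw [Finset.sum_add_distrib, Finset.sum_const, Nat.card_Ico, nsmul_eq_mul, mul_one, Nat.cast_sub hx0le]
  have hDF : |∑ m ∈ Finset.Ioc x0 (x0 + (y - x0)), DF (z m) m| ≤ ε / 4 * y := by
    have h1 := hv b (le_max_left _ _) z Z hz (by omega) x0 (y - x0) (by
      rw [Nat.add_sub_cancel' hx0le]
      omega)
    refine h1.trans ?_
    have h2 : (1 / 2 : ℝ) ^ b * ((y - x0 : ℕ) : ℝ) ≤ ε / 8 * y := by
      apply mul_le_mul hbe _ (Nat.cast_nonneg _) (by positivity)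
      exact_mod_cast Nat.sub_le _ _
    have h3 : ((Z : ℝ) + 1) * (((Z : ℝ) + 3) * K0 * (Z : ℝ) ^ (4 * (C0 * b) + 1)) ≤ ε / 8 * y := by
      rw [← he]
      calc ((Z : ℝ) + 1) * (((Z : ℝ) + 3) * K0 * (Z : ℝ) ^ e) ≤ (2 * Z) * ((4 * Z) * K0 * (Z : ℝ) ^ e) := by
            gcongr <;> linarith
        _ = 8 * K0 * (Z : ℝ) ^ (e + 2) := by ring
        _ ≤ 8 * K0 * (L ^ (k + 1)) ^ (e + 2) := by gcongr
        _ = 8 * K0 * L ^ ((k + 1) * (e + 2)) := by rw [← pow_mul]
        _ ≤ _ := s1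
    linarith
  have hDF' := abs_le.1 hDF
  have hS1 : S ≤ (1 + ε / 4) * y := by
    rw [hSe]
    linarith
  have hS2 : (1 - 3 * ε / 8) * y ≤ S := by
    rw [hSe]
    linarith
  have hS0 : 0 ≤ S := Finset.sum_nonneg fun t _ => hh_nonneg z t
  -- the pointwise bounds
  have hge : ∀ t : ℕ, 2 ≤ t → Real.log t * hh z t ≤ lg t ^ 2 * rg z t ∧ lg t ^ 2 * rg z t ≤ (Real.log t + 4) * hh z t := by
    intro t ht
    have ht' : (2 : ℝ) ≤ t := by exact_mod_cast ht
    have h1 : 0.69 < Real.log (t : ℝ) := by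
      have := Real.log_two_gt_d9
      have h2 := Real.log_le_log (by norm_num) ht'
      linarith
    have h2 : Real.log t ≤ lg t := by
      unfold lg
      apply Real.log_le_log (by linarith)
      push_cast
      linarith
    have h3 : lg t ≤ Real.log t + 1 := by
      unfold lg
      have h4 : Real.log ((t + 1 : ℕ) : ℝ) ≤ Real.log (2 * (t : ℝ)) := by
        apply Real.log_le_log (by positivity)
        push_cast
        linarith
      rw [Real.log_mul (by norm_num) (by positivity)] at h4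
      have := Real.log_two_lt_d9
      linarith
    have h0 : 0 < Real.log (t : ℝ) := by linarith
    have e1 : lg t ^ 2 * rg z t = lg t ^ 2 / Real.log t * hh z t := by
      unfold rg hh
      ring
    rw [e1]
    constructor
    · apply mul_le_mul_of_nonneg_right _ (hh_nonneg z t)
      rw [le_div_iff₀ h0]
      nlinarith
    · apply mul_le_mul_of_nonneg_right _ (hh_nonneg z t)
      rw [div_le_iff₀ h0]
      nlinarith
  have hsplit : ∑ t ∈ Finset.range y, lg t ^ 2 * rg z t = ∑ t ∈ Finset.range x0, lg t ^ 2 * rg z t + ∑ t ∈ Finset.Ico x0 y, lg t ^ 2 * rg z t :=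
    (Finset.sum_range_add_sum_Ico _ hx0le).symm
  have hx02 : 2 ≤ x0 := by
    by_contra hcon
    have h1 : (x0 : ℝ) ≤ 1 := by
      have : x0 ≤ 1 := by omega
      exact_mod_cast this
    have h2 : Real.log (x0 : ℝ) ≤ 0 := Real.log_nonpos hx0n h1
    nlinarith
  have hlow : Real.log (x0 : ℝ) * S ≤ ∑ t ∈ Finset.Ico x0 y, lg t ^ 2 * rg z t := by
    rw [hS, Finset.mul_sum]
    refine Finset.sum_le_sum fun t ht => ?_
    have ht := Finset.mem_Ico.1 ht
    refine le_trans ?_ (hge t (by omega)).1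
    apply mul_le_mul_of_nonneg_right _ (hh_nonneg z t)
    exact Real.log_le_log (by linarith) (by exact_mod_cast ht.1)
  have hup : ∑ t ∈ Finset.Ico x0 y, lg t ^ 2 * rg z t ≤ (L + 4) * S := by
    rw [hS, Finset.mul_sum]
    refine Finset.sum_le_sum fun t ht => ?_
    have ht := Finset.mem_Ico.1 ht
    have ht0 : (0 : ℝ) < t := by
      have : 0 < t := by omega
      exact_mod_cast this
    refine (hge t (by omega)).2.trans ?_
    apply mul_le_mul_of_nonneg_right _ (hh_nonneg z t)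
    have := Real.log_le_log ht0 (show (t : ℝ) ≤ y by exact_mod_cast ht.2.le)
    linarith
  have hhead : ∑ t ∈ Finset.range x0, lg t ^ 2 * rg z t ≤ ε / 8 * y := by
    have hpt : ∀ t ∈ Finset.range x0, lg t ^ 2 * rg z t ≤ 10 * L ^ (k + 2) := by
      intro t ht
      have ht := Finset.mem_range.1 ht
      rcases Nat.lt_or_ge t 2 with h | h
      · have : rg z t = 0 := by
          unfold rg
          interval_cases t <;> simp
        rw [this, mul_zero]
        positivity
      · have ht0 : (0 : ℝ) < t := by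
          have : 0 < t := by omega
          exact_mod_cast this
        have h1 : Real.log (t : ℝ) ≤ L := Real.log_le_log ht0 (by
          have : t ≤ y := by omega
          exact_mod_cast this)
        have h2 : hh z t ≤ 1 + Z := by
          have h3 := DF_abs (v := z (t + 1)) (Z := Z) (by
            have := hz (show t + 1 ≤ y by omega)
            omega) (by omega) (t + 1)
          unfold hh
          linarith [(abs_le.1 h3).2]
        calc lg t ^ 2 * rg z t ≤ (Real.log t + 4) * hh z t := (hge t h).2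
          _ ≤ (L + 4) * (1 + Z) := mul_le_mul (by linarith) h2 (hh_nonneg z t) (by linarith)
          _ ≤ (5 * L) * (2 * L ^ (k + 1)) := by
              apply mul_le_mul (by linarith) _ (by linarith) (by linarith)
              linarith
          _ = _ := by ring
    refine (Finset.sum_le_sum hpt).trans ?_
    rw [Finset.sum_const, Finset.card_range, nsmul_eq_mul, mul_comm]
    exact hx0s
  have hhead0 : 0 ≤ ∑ t ∈ Finset.range x0, lg t ^ 2 * rg z t :=
    Finset.sum_nonneg fun t _ => mul_nonneg (sq_nonneg _) (rg_nonneg z t)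
  have hyL : 0 < (y : ℝ) * L := by positivity
  rw [hsplit, abs_le]
  constructor
  · have h1 : (1 - ε / 4) * L * ((1 - 3 * ε / 8) * y) ≤ Real.log (x0 : ℝ) * S := by
      apply mul_le_mul hlogx0 hS2 _ (by linarith [Real.log_natCast_nonneg x0])
      apply mul_nonneg _ (by linarith)
      linarith
    have h2 : (1 - ε) * (y * L) ≤ (1 - ε / 4) * L * ((1 - 3 * ε / 8) * y) := by
      have h3 : 1 - ε ≤ (1 - ε / 4) * (1 - 3 * ε / 8) := by nlinarith
      calc (1 - ε) * (y * L) ≤ (1 - ε / 4) * (1 - 3 * ε / 8) * (y * L) := mul_le_mul_of_nonneg_right h3 hyL.le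
        _ = _ := by ring
    linarith
  · have h1 : (L + 4) * S ≤ (1 + ε / 10) * L * ((1 + ε / 4) * y) :=
      mul_le_mul (by linarith) hS1 hS0 (by positivity)
    have h2 : (1 + ε / 10) * L * ((1 + ε / 4) * y) ≤ (1 + ε / 2) * (y * L) := by
      have h3 : (1 + ε / 10) * (1 + ε / 4) ≤ 1 + ε / 2 := by nlinarith
      calc (1 + ε / 10) * L * ((1 + ε / 4) * y) = (1 + ε / 10) * (1 + ε / 4) * (y * L) := by ring
        _ ≤ _ := mul_le_mul_of_nonneg_right h3 hyL.le
    have h4 : ε / 8 * y ≤ ε / 8 * (y * L) := by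
      apply mul_le_mul_of_nonneg_left _ (by positivity)
      nlinarith
    have h5 : 0 ≤ ε * (y * L) := by positivity
    linarith

end Pool.Agent.N740.HK.Vr
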